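import Mathlib

/-!
# [KTS-A] the field of Hahn series with rational exponents is algebraically closed
-/

set_option autoImplicit false

namespace KTS

open Polynomial HahnSeries

universe u w

variable {E : Type u} [Field E]

/-- the order, as an additive valuation -/
noncomputable abbrev hv (E : Type u) [Field E] : AddValuation (HahnSeries ℚ E) (WithTop ℚ) :=
  HahnSeries.addVal ℚ E

theorem hv_lt_iff {x : HahnSeries ℚ E} {q : ℚ} :
    (q : WithTop ℚ) < hv E x ↔ (q : WithTop ℚ) ≤ hv E x ∧ x.coeff q = 0 := by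
  constructor
  · intro h
    exact ⟨h.le, coeff_eq_zero_of_lt_orderTop h⟩
  · rintro ⟨h1, h2⟩
    refine lt_of_le_of_ne h1 fun h3 => ?_
    exact coeff_orderTop_ne (x := x) h3.symm h2

theorem le_hv_iff {x : HahnSeries ℚ E} {q : ℚ} :
    (q : WithTop ℚ) ≤ hv E x ↔ ∀ p < q, x.coeff p = 0 := by
  constructor
  · intro h p hp
    exact coeff_eq_zero_of_lt_orderTop (lt_of_lt_of_le (WithTop.coe_lt_coe.2 hp) h)
  · intro h
    by_contra hc
    rw [not_le] at hc
    obtain ⟨p, hp⟩ := WithTop.ne_top_iff_exists.1 (ne_top_of_lt hc)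
    rw [← hp, WithTop.coe_lt_coe] at hc
    exact coeff_orderTop_ne (x := x) hp.symm (h p hc)

theorem hv_natCast (n : ℕ) : (0 : WithTop ℚ) ≤ hv E (n : HahnSeries ℚ E) := by
  have h1 : ((0 : ℚ) : WithTop ℚ) ≤ hv E (n : HahnSeries ℚ E) := by
    rw [le_hv_iff]
    intro p hp
    have h2 : (n : HahnSeries ℚ E) = HahnSeries.C (n : E) := by rw [map_natCast]
    rw [h2, HahnSeries.C_apply, coeff_single_of_ne hp.ne]
  exact h1

/-! ### spherical completeness -/

/-- every nested family of closed balls has a common point -/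
theorem hahn_balls {α : Type w} (a : α → HahnSeries ℚ E) (s : α → ℚ)
    (h : ∀ l m, ((min (s l) (s m) : ℚ) : WithTop ℚ) ≤ hv E (a l - a m)) :
    ∃ x : HahnSeries ℚ E, ∀ l, ((s l : ℚ) : WithTop ℚ) ≤ hv E (x - a l) := by
  classical
  set c : ℚ → E := fun q => if hq : ∃ l, q < s l then (a hq.choose).coeff q else 0 with hc
  have h1 : ∀ q l, q < s l → c q = (a l).coeff q := by
    intro q l hl
    have hq : ∃ l, q < s l := ⟨l, hl⟩
    have h2 : c q = (a hq.choose).coeff q := dif_pos hq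
    rw [h2]
    have h3 := le_hv_iff.1 (h hq.choose l) q (lt_min hq.choose_spec hl)
    rw [HahnSeries.coeff_sub, sub_eq_zero] at h3
    exact h3
  have h2 : (Function.support c).IsPWO := by
    rw [Set.isPWO_iff_isWF, Set.isWF_iff_no_descending_seq]
    intro f hf hmem
    obtain ⟨l, hl⟩ : ∃ l, f 0 < s l := by
      by_contra hcon
      have : c (f 0) = 0 := dif_neg hcon
      exact hmem 0 this
    have h3 : ∀ n, f n ∈ (a l).support := by
      intro n
      rw [mem_support, ← h1 (f n) l (lt_of_le_of_lt (hf.antitone (Nat.zero_le n)) hl)]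
      exact hmem n
    exact (Set.isWF_iff_no_descending_seq.1 (a l).isWF_support) f hf h3
  refine ⟨⟨c, h2⟩, fun l => ?_⟩
  rw [le_hv_iff]
  intro p hp
  rw [HahnSeries.coeff_sub, sub_eq_zero]
  exact h1 p l hp

/-! ### Newton polygons -/

/-- `J` is the largest index at which `v (G k) + k s` is minimal, `m` is the minimum -/
structure NP (G : (HahnSeries ℚ E)[X]) (s : ℚ) (J : ℕ) (m : ℚ) : Prop where
  le : ∀ k : ℕ, ((m - k * s : ℚ) : WithTop ℚ) ≤ hv E (G.coeff k)
  eq : hv E (G.coeff J) = ((m - J * s : ℚ) : WithTop ℚ)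
  lt : ∀ k : ℕ, J < k → ((m - k * s : ℚ) : WithTop ℚ) < hv E (G.coeff k)

theorem taylor_sum (G : (HahnSeries ℚ E)[X]) (r : HahnSeries ℚ E) (i : ℕ) :
    (taylor r G).coeff i =
      ∑ k ∈ G.support, ((k.choose i : ℕ) : HahnSeries ℚ E) * G.coeff k * r ^ (k - i) := by
  rw [taylor_coeff, hasseDeriv_apply, Polynomial.sum_def, eval_finsetSum]
  simp only [eval_monomial]

theorem hv_pow_ge {r : HahnSeries ℚ E} {s : ℚ} (h : (s : WithTop ℚ) ≤ hv E r) (n : ℕ) :
    ((n * s : ℚ) : WithTop ℚ) ≤ hv E (r ^ n) := by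
  rw [AddValuation.map_pow]
  calc ((n * s : ℚ) : WithTop ℚ) = n • (s : WithTop ℚ) := by
        rw [← nsmul_eq_mul, WithTop.coe_nsmul]
    _ ≤ n • hv E r := nsmul_le_nsmul_right h n

/-- one term of the Taylor expansion -/
theorem term_ge {g r : HahnSeries ℚ E} {s m : ℚ} (hr : (s : WithTop ℚ) ≤ hv E r) {k i : ℕ}
    (hki : i ≤ k) (hg : ((m - k * s : ℚ) : WithTop ℚ) ≤ hv E g) :
    ((m - i * s : ℚ) : WithTop ℚ) ≤ hv E (((k.choose i : ℕ) : HahnSeries ℚ E) * g * r ^ (k - i)) := by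
  rw [AddValuation.map_mul, AddValuation.map_mul]
  have h1 : ((m - i * s : ℚ) : WithTop ℚ) =
      0 + ((m - k * s : ℚ) : WithTop ℚ) + (((k - i : ℕ) * s : ℚ) : WithTop ℚ) := by
    rw [zero_add, ← WithTop.coe_add, WithTop.coe_inj, Nat.cast_sub hki]
    ring
  rw [h1]
  exact add_le_add (add_le_add (hv_natCast _) hg) (hv_pow_ge hr _)

theorem term_gt {g r : HahnSeries ℚ E} {s m : ℚ} (hr : (s : WithTop ℚ) ≤ hv E r) {k i : ℕ}
    (hki : i ≤ k) (hg : ((m - k * s : ℚ) : WithTop ℚ) < hv E g) :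
    ((m - i * s : ℚ) : WithTop ℚ) < hv E (((k.choose i : ℕ) : HahnSeries ℚ E) * g * r ^ (k - i)) := by
  obtain ⟨m', hm, hm'⟩ : ∃ m' : ℚ, m < m' ∧ ((m' - k * s : ℚ) : WithTop ℚ) ≤ hv E g := by
    rcases eq_or_ne (hv E g) ⊤ with ht | ht
    · exact ⟨m + 1, by linarith, by rw [ht]; exact le_top⟩
    · obtain ⟨q, hq⟩ := WithTop.ne_top_iff_exists.1 ht
      rw [← hq, WithTop.coe_lt_coe] at hg
      refine ⟨q + k * s, by linarith, ?_⟩
      rw [← hq, WithTop.coe_le_coe]
      linarith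
  refine lt_of_lt_of_le ?_ (term_ge hr hki hm')
  rw [WithTop.coe_lt_coe]
  linarith

/-- invariance under translations by elements of the closed ball -/
theorem NP.taylor {G : (HahnSeries ℚ E)[X]} {s : ℚ} {J : ℕ} {m : ℚ} (h : NP G s J m)
    {r : HahnSeries ℚ E} (hr : (s : WithTop ℚ) ≤ hv E r) : NP (Polynomial.taylor r G) s J m := by
  refine ⟨fun i => ?_, ?_, fun i hi => ?_⟩
  · rw [taylor_sum]
    refine AddValuation.map_le_sum _ fun k _ => ?_
    rcases lt_or_ge k i with hki | hki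
    · rw [Nat.choose_eq_zero_of_lt hki, Nat.cast_zero, zero_mul, zero_mul, AddValuation.map_zero]
      exact le_top
    · exact term_ge hr hki (h.le k)
  · have hJ : J ∈ G.support := by
      rw [Polynomial.mem_support_iff]
      intro h0
      have := h.eq
      rw [h0, AddValuation.map_zero] at this
      exact WithTop.top_ne_coe this
    rw [taylor_sum, ← Finset.add_sum_erase _ _ hJ]
    have h1 : ((J.choose J : ℕ) : HahnSeries ℚ E) * G.coeff J * r ^ (J - J) = G.coeff J := by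
      simp
    rw [h1, AddValuation.map_add_eq_of_lt_left, h.eq]
    rw [h.eq]
    refine AddValuation.map_lt_sum _ WithTop.coe_ne_top fun k hk => ?_
    rcases lt_trichotomy k J with hkJ | hkJ | hkJ
    · rw [Nat.choose_eq_zero_of_lt hkJ, Nat.cast_zero, zero_mul, zero_mul, AddValuation.map_zero]
      exact WithTop.coe_lt_top _
    · exact absurd hkJ (Finset.ne_of_mem_erase hk)
    · exact term_gt hr hkJ.le (h.lt k hkJ)
  · rw [taylor_sum]
    refine AddValuation.map_lt_sum _ WithTop.coe_ne_top fun k _ => ?_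
    rcases lt_or_ge k i with hki | hki
    · rw [Nat.choose_eq_zero_of_lt hki, Nat.cast_zero, zero_mul, zero_mul, AddValuation.map_zero]
      exact WithTop.coe_lt_top _
    · exact term_gt hr hki (h.lt k (lt_of_lt_of_le hi hki))

/-- the largest slope -/
theorem exists_slope {G : (HahnSeries ℚ E)[X]} (h0 : G.coeff 0 ≠ 0) (hd : 1 ≤ G.natDegree) :
    ∃ (S m : ℚ) (J : ℕ), 1 ≤ J ∧ NP G S J m ∧ hv E (G.coeff 0) = (m : WithTop ℚ) ∧
      ∀ (j : ℕ) (q s : ℚ), 1 ≤ j → hv E (G.coeff j) = (q : WithTop ℚ) →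
        ((q + j * s : ℚ) : WithTop ℚ) ≤ hv E (G.coeff 0) → s ≤ S := by
  classical
  have hval : ∀ k, G.coeff k ≠ 0 → ∃ q : ℚ, hv E (G.coeff k) = (q : WithTop ℚ) := by
    intro k hk
    obtain ⟨q, hq⟩ := WithTop.ne_top_iff_exists.1 (fun ht => hk ((AddValuation.top_iff _).1 ht) :
      hv E (G.coeff k) ≠ ⊤)
    exact ⟨q, hq.symm⟩
  choose! o ho using hval
  set K := G.support.erase 0 with hK
  have hGne : G ≠ 0 := by
    rintro rfl
    simp at h0
  have hKne : K.Nonempty := ⟨G.natDegree, Finset.mem_erase.2 ⟨by omega,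
    Polynomial.natDegree_mem_support_of_nonzero hGne⟩⟩
  have hKm : ∀ k, k ∈ K ↔ 1 ≤ k ∧ G.coeff k ≠ 0 := by
    intro k
    rw [hK, Finset.mem_erase, Polynomial.mem_support_iff]
    constructor
    · rintro ⟨h1, h2⟩
      exact ⟨by omega, h2⟩
    · rintro ⟨h1, h2⟩
      exact ⟨by omega, h2⟩
  obtain ⟨j, hj, hmax⟩ := Finset.exists_max_image K (fun k => (o 0 - o k) / k) hKne
  set S := (o 0 - o j) / j with hS
  have hle : ∀ k ∈ K, o 0 - k * S ≤ o k := by
    intro k hk
    have h1 := hmax k hk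
    have hk1 : (0 : ℚ) < k := by
      have := ((hKm k).1 hk).1
      exact_mod_cast this
    rw [div_le_iff₀ hk1] at h1
    linarith
  have hjS : o j = o 0 - j * S := by
    have hj1 : (j : ℚ) ≠ 0 := by
      have := ((hKm j).1 hj).1
      have h2 : j ≠ 0 := by omega
      exact_mod_cast h2
    rw [hS]
    field_simp
    ring
  set K' := K.filter fun k => o k = o 0 - k * S with hK'
  have hK'ne : K'.Nonempty := ⟨j, Finset.mem_filter.2 ⟨hj, hjS⟩⟩
  have hJ := Finset.mem_filter.1 (K'.max'_mem hK'ne)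
  set J := K'.max' hK'ne with hJd
  refine ⟨S, o 0, J, ((hKm J).1 hJ.1).1, ⟨fun k => ?_, ?_, fun k hk => ?_⟩, ho 0 h0, ?_⟩
  · by_cases hk0 : G.coeff k = 0
    · rw [hk0, AddValuation.map_zero]
      exact le_top
    · rw [ho k hk0, WithTop.coe_le_coe]
      rcases Nat.eq_zero_or_pos k with hk1 | hk1
      · subst hk1
        simp
      · exact hle k ((hKm k).2 ⟨hk1, hk0⟩)
  · rw [ho J ((hKm J).1 hJ.1).2, hJ.2]
  · by_cases hk0 : G.coeff k = 0
    · rw [hk0, AddValuation.map_zero]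
      exact WithTop.coe_lt_top _
    · rw [ho k hk0, WithTop.coe_lt_coe]
      have hkK : k ∈ K := (hKm k).2 ⟨by omega, hk0⟩
      refine lt_of_le_of_ne (hle k hkK) fun h1 => ?_
      have h2 := K'.le_max' k (Finset.mem_filter.2 ⟨hkK, h1.symm⟩)
      omega
  · intro i q s hi hq hs
    have hi0 : G.coeff i ≠ 0 := by
      intro h1
      rw [h1, AddValuation.map_zero] at hq
      exact WithTop.top_ne_coe hq
    have h1 := ho i hi0
    rw [hq, WithTop.coe_inj] at h1
    rw [ho 0 h0, WithTop.coe_le_coe, h1] at hs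
    have h2 := hmax i ((hKm i).2 ⟨hi, hi0⟩)
    have hi1 : (0 : ℚ) < i := by exact_mod_cast hi
    refine le_trans ?_ h2
    rw [le_div_iff₀ hi1]
    linarith

/-- the approximate root can be improved -/
theorem improve [IsAlgClosed E] {G : (HahnSeries ℚ E)[X]} {S m : ℚ} {J : ℕ} (hJ : 1 ≤ J)
    (h : NP G S J m) : ∃ c : E, (m : WithTop ℚ) < hv E ((taylor (single S c) G).coeff 0) := by
  classical
  set P : E[X] := ∑ k ∈ G.support, Polynomial.C ((G.coeff k).coeff (m - k * S)) * X ^ k with hP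
  have hPc : ∀ k, P.coeff k = if k ∈ G.support then (G.coeff k).coeff (m - k * S) else 0 := by
    intro k
    rw [hP, finsetSum_coeff]
    simp only [coeff_C_mul_X_pow]
    rw [Finset.sum_ite_eq]
  have hJs : J ∈ G.support := by
    rw [Polynomial.mem_support_iff]
    intro h0
    have := h.eq
    rw [h0, AddValuation.map_zero] at this
    exact WithTop.top_ne_coe this
  have hPJ : P.coeff J ≠ 0 := by
    rw [hPc, if_pos hJs]
    exact coeff_orderTop_ne h.eq
  have hdeg : P.degree ≠ 0 := by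
    intro h0
    have h1 : (J : WithBot ℕ) ≤ P.degree := le_degree_of_ne_zero hPJ
    rw [h0] at h1
    have h2 : J ≤ 0 := by exact_mod_cast h1
    omega
  obtain ⟨c, hc⟩ := IsAlgClosed.exists_root P hdeg
  have hr : (S : WithTop ℚ) ≤ hv E (single S c) := by
    rw [le_hv_iff]
    intro p hp
    exact coeff_single_of_ne hp.ne
  refine ⟨c, hv_lt_iff.2 ⟨?_, ?_⟩⟩
  · have h1 := (h.taylor hr).le 0
    simpa using h1
  · rw [taylor_coeff_zero, eval_eq_sum, Polynomial.sum_def, HahnSeries.coeff_sum]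
    rw [IsRoot.def, eval_finsetSum] at hc
    simp only [eval_mul, eval_C, eval_pow, eval_X] at hc
    rw [← hc]
    refine Finset.sum_congr rfl fun k _ => ?_
    rw [single_pow]
    have h1 : m = (m - k * S) + k • S := by
      rw [nsmul_eq_mul]
      ring
    conv_lhs => rw [h1]
    rw [coeff_mul_single_add]

/-- [KTS 0.1] the field of Hahn series with rational exponents over an algebraically closed field
is algebraically closed -/
instance hahn_isAlgClosed [IsAlgClosed E] : IsAlgClosed (HahnSeries ℚ E) := by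
  refine IsAlgClosed.of_exists_root _ fun f _ hirr => ?_
  by_contra hcon
  push Not at hcon
  have hd : 1 ≤ f.natDegree := hirr.natDegree_pos
  -- the good balls
  let Gd : (HahnSeries ℚ E) × ℚ → Prop := fun p => ∃ (J : ℕ) (m : ℚ), 1 ≤ J ∧
    NP (taylor p.1 f) p.2 J m
  let r : {p : (HahnSeries ℚ E) × ℚ // Gd p} → {p : (HahnSeries ℚ E) × ℚ // Gd p} → Prop :=
    fun p q => p.1.2 ≤ q.1.2 ∧ ((p.1.2 : ℚ) : WithTop ℚ) ≤ hv E (q.1.1 - p.1.1)
  have hc0 : ∀ a : HahnSeries ℚ E, (taylor a f).coeff 0 ≠ 0 := by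
    intro a
    rw [taylor_coeff_zero]
    exact hcon a
  have hnd : ∀ a : HahnSeries ℚ E, 1 ≤ (taylor a f).natDegree := by
    intro a
    rw [natDegree_taylor]
    exact hd
  have htr : ∀ {a b c : {p : (HahnSeries ℚ E) × ℚ // Gd p}}, r a b → r b c → r a c := by
    rintro a b c ⟨h1, h2⟩ ⟨h3, h4⟩
    refine ⟨h1.trans h3, ?_⟩
    have h5 : c.1.1 - a.1.1 = (c.1.1 - b.1.1) + (b.1.1 - a.1.1) := by ring
    rw [h5]
    refine le_trans (le_min ?_ h2) (AddValuation.map_add _ _ _)
    exact le_trans (WithTop.coe_le_coe.2 h1) h4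
  obtain ⟨M, hM⟩ := exists_maximal_of_chains_bounded (r := r) (fun c hc => by
    obtain ⟨x, hx⟩ := hahn_balls (fun p : c => p.1.1.1) (fun p : c => p.1.1.2) (by
      intro p q
      have h0 : ∀ p q : {p : (HahnSeries ℚ E) × ℚ // Gd p}, r p q →
          ((min p.1.2 q.1.2 : ℚ) : WithTop ℚ) ≤ hv E (p.1.1 - q.1.1) := by
        rintro p q ⟨h1, h2⟩
        rw [min_eq_left h1, AddValuation.map_sub_swap]
        exact h2
      by_cases hpq : p = q
      · subst hpq
        rw [sub_self, AddValuation.map_zero]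
        exact le_top
      · rcases hc p.2 q.2 (fun h => hpq (Subtype.ext h)) with h1 | h1
        · exact h0 _ _ h1
        · have := h0 _ _ h1
          rw [min_comm, AddValuation.map_sub_swap]
          exact this)
    obtain ⟨S, m, J, hJ, hNP, -, hmax⟩ := exists_slope (hc0 x) (hnd x)
    refine ⟨⟨(x, S), J, m, hJ, hNP⟩, fun p hp => ⟨?_, hx ⟨p, hp⟩⟩⟩
    obtain ⟨J', m', hJ', hNP'⟩ := p.2
    have h1 := hNP'.taylor (hx ⟨p, hp⟩)
    rw [taylor_taylor, sub_add_cancel] at h1
    refine hmax J' _ _ hJ' h1.eq ?_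
    have h2 := h1.le 0
    have h3 : (m' - J' * p.1.2 + J' * p.1.2 : ℚ) = m' - (0 : ℕ) * p.1.2 := by
      push_cast
      ring
    rw [h3]
    exact h2) htr
  obtain ⟨S, m, J, hJ, hNP, hm, hmax⟩ := exists_slope (hc0 M.1.1) (hnd M.1.1)
  have hMS : M.1.2 ≤ S := by
    obtain ⟨J', m', hJ', hNP'⟩ := M.2
    refine hmax J' _ _ hJ' hNP'.eq ?_
    have h2 := hNP'.le 0
    have h3 : (m' - J' * M.1.2 + J' * M.1.2 : ℚ) = m' - (0 : ℕ) * M.1.2 := by
      push_cast
      ring
    rw [h3]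
    exact h2
  obtain ⟨c, hc⟩ := improve hJ hNP
  have hr : (S : WithTop ℚ) ≤ hv E (single S c) := by
    rw [le_hv_iff]
    intro p hp
    exact coeff_single_of_ne hp.ne
  have hH := hNP.taylor hr
  rw [taylor_taylor] at hc hH
  obtain ⟨S', m', J', hJ', hNP', hm', hmax'⟩ := exists_slope (hc0 (single S c + M.1.1))
    (hnd (single S c + M.1.1))
  have hSS' : S < S' := by
    rw [hm', WithTop.coe_lt_coe] at hc
    have hJ0 : (0 : ℚ) < J := by exact_mod_cast hJ
    have h1 := hmax' J _ (S + (m' - m) / J) hJ hH.eq (by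
      rw [hm', WithTop.coe_le_coe]
      field_simp
      linarith)
    have h2 : 0 < (m' - m) / J := div_pos (by linarith) hJ0
    linarith
  have h1 := hM ⟨(single S c + M.1.1, S'), J', m', hJ', hNP'⟩ ⟨hMS.trans hSS'.le, by
    change _ ≤ hv E (single S c + M.1.1 - M.1.1)
    rw [add_sub_cancel_right]
    exact le_trans (WithTop.coe_le_coe.2 hMS) hr⟩
  have h2 : S' ≤ M.1.2 := h1.1
  linarith

end KTS
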