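import Pool.Agent.KTS.Base

/-!
[KTS-AG1] A complete discrete valuation ring with residue field `K` of characteristic zero embeds in
`HahnSeries ℚ K`, compatibly with the residue maps.
-/

namespace KTS

noncomputable section

universe u

open Polynomial IsLocalRing

set_option linter.unusedSectionVars false

section

variable {R K : Type u} [CommRing R] [IsDomain R] [IsDiscreteValuationRing R] [Field K]
  [Algebra R K]

theorem ag1_ker (hs : Function.Surjective (algebraMap R K)) (r : R) :
    algebraMap R K r = 0 ↔ r ∈ maximalIdeal R := by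
  have h1 : (RingHom.ker (algebraMap R K)).IsMaximal :=
    RingHom.ker_isMaximal_of_surjective _ hs
  have h2 := IsLocalRing.eq_maximalIdeal h1
  rw [← h2, RingHom.mem_ker]

/-- A coefficient field. -/
theorem ag1_section [IsAdicComplete (maximalIdeal R) R] [CharZero K]
    (hs : Function.Surjective (algebraMap R K)) :
    ∃ g : K →+* R, ∀ x, algebraMap R K (g x) = x := by
  classical
  -- `R` is a `ℚ`-algebra
  have hunit : ∀ n : ℕ, n ≠ 0 → IsUnit (n : R) := by
    intro n hn
    by_contra hnu
    have h1 : (n : R) ∈ maximalIdeal R := (mem_maximalIdeal _).mpr hnu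
    rw [← ag1_ker (K := K) hs, map_natCast] at h1
    exact hn (Nat.cast_eq_zero.mp h1)
  have hZ : ∀ y : nonZeroDivisors ℤ, IsUnit (algebraMap ℤ R y) := by
    intro y
    have hy : (y : ℤ) ≠ 0 := nonZeroDivisors.coe_ne_zero y
    have h1 := hunit (y : ℤ).natAbs (Int.natAbs_ne_zero.mpr hy)
    have h2 : ((y : ℤ) : R) = (((y : ℤ).natAbs : ℕ) : R) ∨
        ((y : ℤ) : R) = -(((y : ℤ).natAbs : ℕ) : R) := by
      rcases Int.natAbs_eq (y : ℤ) with h | h
      · left
        conv_lhs => rw [h]
        simp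
      · right
        conv_lhs => rw [h]
        simp
    change IsUnit ((y : ℤ) : R)
    rcases h2 with h | h
    · rw [h]; exact h1
    · rw [h]; exact h1.neg
  let _ : Algebra ℚ R := (IsLocalization.lift (M := nonZeroDivisors ℤ) hZ).toAlgebra
  -- `K` is formally smooth over `ℚ`
  obtain ⟨s, hb⟩ := exists_isTranscendenceBasis ℚ K
  have halg : Algebra.IsAlgebraic
      (IntermediateField.adjoin ℚ (Set.range ((↑) : s → K))) K := hb.isAlgebraic_field
  have hsm : Algebra.FormallySmooth ℚ K :=
    Algebra.FormallySmooth.of_algebraicIndependent_of_isSeparable hb.1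
  -- the residue map
  have hker : RingHom.ker (algebraMap R K) = maximalIdeal R := by
    ext r
    rw [RingHom.mem_ker, ag1_ker hs]
  let e : R ⧸ maximalIdeal R ≃+* K :=
    (Ideal.quotEquivOfEq hker.symm).trans (RingHom.quotientKerEquivOfSurjective hs)
  have he : ∀ r, e (Ideal.Quotient.mk _ r) = algebraMap R K r := fun r => rfl
  let f : K →ₐ[ℚ] R ⧸ maximalIdeal R := (e.symm : K →+* R ⧸ maximalIdeal R).toRatAlgHom
  obtain ⟨g, hg⟩ := Algebra.FormallySmooth.exists_mkₐ_comp_eq_of_isAdicComplete f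
  refine ⟨g, fun x => ?_⟩
  have h1 : Ideal.Quotient.mk (maximalIdeal R) (g x) = f x := AlgHom.congr_fun hg x
  exact (congrArg e h1).trans (e.apply_symm_apply x)

/-- `p` is the expansion of `r`. -/
def IsExp (g : K →+* R) (ϖ r : R) (p : PowerSeries K) : Prop :=
  ∀ n, ϖ ^ n ∣ r - (PowerSeries.trunc n p).eval₂ g ϖ

theorem IsExp.add {g : K →+* R} {ϖ r s : R} {p q : PowerSeries K} (h : IsExp g ϖ r p)
    (h' : IsExp g ϖ s q) : IsExp g ϖ (r + s) (p + q) := by
  intro n
  have e : r + s - (PowerSeries.trunc n (p + q)).eval₂ g ϖ =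
      (r - (PowerSeries.trunc n p).eval₂ g ϖ) + (s - (PowerSeries.trunc n q).eval₂ g ϖ) := by
    rw [map_add, eval₂_add]
    ring
  rw [e]
  exact dvd_add (h n) (h' n)

theorem ag1_dvd (g : K →+* R) (ϖ : R) (n : ℕ) (p : Polynomial K) (h : ∀ i < n, p.coeff i = 0) :
    ϖ ^ n ∣ p.eval₂ g ϖ := by
  obtain ⟨q, rfl⟩ := Polynomial.X_pow_dvd_iff.mpr h
  rw [eval₂_mul, eval₂_X_pow]
  exact dvd_mul_right _ _

theorem IsExp.mul {g : K →+* R} {ϖ r s : R} {p q : PowerSeries K} (h : IsExp g ϖ r p)
    (h' : IsExp g ϖ s q) : IsExp g ϖ (r * s) (p * q) := by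
  intro n
  have e : r * s - (PowerSeries.trunc n (p * q)).eval₂ g ϖ =
      (r - (PowerSeries.trunc n p).eval₂ g ϖ) * s +
        (PowerSeries.trunc n p).eval₂ g ϖ * (s - (PowerSeries.trunc n q).eval₂ g ϖ) +
        (PowerSeries.trunc n p * PowerSeries.trunc n q -
          PowerSeries.trunc n (p * q)).eval₂ g ϖ := by
    rw [eval₂_sub, eval₂_mul]
    ring
  rw [e]
  refine dvd_add (dvd_add (Dvd.dvd.mul_right (h n) _) (Dvd.dvd.mul_left (h' n) _)) ?_
  apply ag1_dvd
  intro i hi
  rw [coeff_sub, PowerSeries.coeff_trunc, if_pos hi, PowerSeries.coeff_mul, Polynomial.coeff_mul,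
    sub_eq_zero]
  refine Finset.sum_congr rfl fun x hx => ?_
  have hx' := Finset.HasAntidiagonal.mem_antidiagonal.mp hx
  rw [PowerSeries.coeff_trunc, PowerSeries.coeff_trunc, if_pos (by omega), if_pos (by omega)]

theorem IsExp.one (g : K →+* R) (ϖ : R) : IsExp g ϖ 1 1 := by
  intro n
  rcases n with _ | n
  · rw [pow_zero]
    exact one_dvd _
  · have e : PowerSeries.trunc (n + 1) (1 : PowerSeries K) = 1 := PowerSeries.trunc_one n
    rw [e, eval₂_one, sub_self]
    exact dvd_zero _

theorem IsExp.zero (g : K →+* R) (ϖ : R) : IsExp g ϖ 0 0 := by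
  intro n
  rw [map_zero, eval₂_zero, sub_self]
  exact dvd_zero _

theorem IsExp.X (g : K →+* R) (ϖ : R) : IsExp g ϖ ϖ PowerSeries.X := by
  intro n
  rcases n with _ | _ | n
  · rw [pow_zero]
    exact one_dvd _
  · have e : PowerSeries.trunc (0 + 1) (PowerSeries.X : PowerSeries K) = 0 := by
      ext i
      rw [PowerSeries.coeff_trunc]
      split_ifs with h
      · have : i = 0 := by omega
        subst this
        simp
      · simp
    rw [e, eval₂_zero, sub_zero, zero_add, pow_one]
  · have e : PowerSeries.trunc (n + 1 + 1) (PowerSeries.X : PowerSeries K) = Polynomial.X :=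
      PowerSeries.trunc_X n
    rw [e, eval₂_X, sub_self]
    exact dvd_zero _

/-- Uniqueness of the expansion. -/
theorem IsExp.unique (hs : Function.Surjective (algebraMap R K)) {g : K →+* R}
    (hg : ∀ x, algebraMap R K (g x) = x) {ϖ : R} (hϖ : Irreducible ϖ) {r : R}
    {p q : PowerSeries K} (h : IsExp g ϖ r p) (h' : IsExp g ϖ r q) : p = q := by
  by_contra hne
  have hex : ∃ i, PowerSeries.coeff i p ≠ PowerSeries.coeff i q := by
    by_contra hcon
    push Not at hcon
    exact hne (PowerSeries.ext hcon)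
  classical
  obtain ⟨i, hi, hmin⟩ : ∃ i, PowerSeries.coeff i p ≠ PowerSeries.coeff i q ∧
      ∀ j < i, PowerSeries.coeff j p = PowerSeries.coeff j q :=
    ⟨Nat.find hex, Nat.find_spec hex, fun j hj => not_not.mp (Nat.find_min hex hj)⟩
  have h1 := dvd_sub (h (i + 1)) (h' (i + 1))
  have e : r - (PowerSeries.trunc (i + 1) p).eval₂ g ϖ -
      (r - (PowerSeries.trunc (i + 1) q).eval₂ g ϖ) =
      g (PowerSeries.coeff i q - PowerSeries.coeff i p) * ϖ ^ i := by
    have e1 : PowerSeries.trunc (i + 1) q - PowerSeries.trunc (i + 1) p =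
        C (PowerSeries.coeff i q - PowerSeries.coeff i p) * Polynomial.X ^ i := by
      ext j
      rw [coeff_sub, PowerSeries.coeff_trunc, PowerSeries.coeff_trunc, coeff_C_mul, coeff_X_pow]
      rcases lt_trichotomy j i with hj | hj | hj
      · rw [if_pos (by omega), if_pos (by omega), if_neg (by omega), hmin j hj, sub_self, mul_zero]
      · subst hj
        rw [if_pos (by omega), if_pos (by omega), if_pos rfl, mul_one]
      · rw [if_neg (by omega), if_neg (by omega), if_neg (by omega), sub_self, mul_zero]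
    have e2 := congrArg (Polynomial.eval₂ g ϖ) e1
    rw [eval₂_sub, eval₂_mul, eval₂_C, eval₂_X_pow] at e2
    rw [← e2]
    ring
  rw [e] at h1
  have hϖ0 : ϖ ^ i ≠ 0 := pow_ne_zero _ hϖ.ne_zero
  obtain ⟨c, hc⟩ := h1
  have h2 : g (PowerSeries.coeff i q - PowerSeries.coeff i p) = ϖ * c := by
    apply mul_right_cancel₀ hϖ0
    rw [hc, pow_succ]
    ring
  have h3 : ϖ ∈ maximalIdeal R := (mem_maximalIdeal _).mpr hϖ.1
  have h4 : algebraMap R K ϖ = 0 := (ag1_ker hs ϖ).mpr h3
  have h5 := congrArg (algebraMap R K) h2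
  rw [hg, map_mul, h4, zero_mul, sub_eq_zero] at h5
  exact hi h5.symm

/-- Existence of the expansion. -/
theorem IsExp.exists (hs : Function.Surjective (algebraMap R K)) {g : K →+* R}
    (hg : ∀ x, algebraMap R K (g x) = x) {ϖ : R} (hϖ : Irreducible ϖ) (r : R) :
    ∃ p : PowerSeries K, IsExp g ϖ r p := by
  have hstep : ∀ s : R, ∃ s' : R, s = g (algebraMap R K s) + ϖ * s' := by
    intro s
    have h1 : s - g (algebraMap R K s) ∈ maximalIdeal R := by
      rw [← ag1_ker (K := K) hs, map_sub, hg, sub_self]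
    rw [hϖ.maximalIdeal_eq, Ideal.mem_span_singleton] at h1
    obtain ⟨c, hc⟩ := h1
    exact ⟨c, by rw [← hc]; ring⟩
  choose nx hnx using hstep
  let a : ℕ → R := fun n => nx^[n] r
  have ha : ∀ n, a n = g (algebraMap R K (a n)) + ϖ * a (n + 1) := by
    intro n
    have : a (n + 1) = nx (a n) := Function.iterate_succ_apply' nx n r
    rw [this]
    exact hnx (a n)
  refine ⟨PowerSeries.mk fun n => algebraMap R K (a n), ?_⟩
  have key : ∀ n, r - (PowerSeries.trunc n (PowerSeries.mk fun n => algebraMap R K (a n))).eval₂ g ϖ =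
      ϖ ^ n * a n := by
    intro n
    induction n with
    | zero =>
      have e : PowerSeries.trunc 0 (PowerSeries.mk fun n => algebraMap R K (a n)) = 0 := by
        ext i
        rw [PowerSeries.coeff_trunc, if_neg (by omega), coeff_zero]
      rw [e, eval₂_zero, sub_zero, pow_zero, one_mul]
      rfl
    | succ n ih =>
      rw [PowerSeries.trunc_succ, eval₂_add, eval₂_monomial, PowerSeries.coeff_mk]
      have h1 := ha n
      have h2 : ϖ ^ (n + 1) * a (n + 1) = ϖ ^ n * (a n - g (algebraMap R K (a n))) := by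
        have h3 : a n - g (algebraMap R K (a n)) = ϖ * a (n + 1) := by
          conv_lhs => rw [h1]
          rw [← h1]
          rw [sub_eq_iff_eq_add, add_comm]
          exact h1
        rw [h3, pow_succ]
        ring
      rw [h2, mul_sub, ← ih]
      ring
  intro n
  rw [key]
  exact dvd_mul_right _ _

end

/-- The embedding given by a coefficient field. -/
theorem ag1_embed {R K : Type u} [CommRing R] [IsDomain R] [IsDiscreteValuationRing R]
    [Field K] [Algebra R K] (hs : Function.Surjective (algebraMap R K)) {g : K →+* R}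
    (hg : ∀ x, algebraMap R K (g x) = x) :
    ∃ ι : R →+* HahnSeries ℚ K, Function.Injective ι ∧ (∀ r, 0 ≤ (ι r).orderTop) ∧
      (∀ r, (ι r).coeff 0 = algebraMap R K r) ∧
      ∃ ϖ : R, Irreducible ϖ ∧ ι ϖ = HahnSeries.single (1 : ℚ) (1 : K) := by
  classical
  obtain ⟨ϖ, hϖ⟩ := IsDiscreteValuationRing.exists_irreducible R
  have hex := fun r => IsExp.exists hs hg hϖ r
  choose P hP using hex
  let ι₀ : R →+* PowerSeries K := {
    toFun := P
    map_one' := IsExp.unique hs hg hϖ (hP 1) (IsExp.one g ϖ)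
    map_mul' := fun r s => IsExp.unique hs hg hϖ (hP (r * s)) ((hP r).mul (hP s))
    map_zero' := IsExp.unique hs hg hϖ (hP 0) (IsExp.zero g ϖ)
    map_add' := fun r s => IsExp.unique hs hg hϖ (hP (r + s)) ((hP r).add (hP s)) }
  have hι₀X : ι₀ ϖ = PowerSeries.X := IsExp.unique hs hg hϖ (hP ϖ) (IsExp.X g ϖ)
  have hι₀c : ∀ r, PowerSeries.coeff 0 (ι₀ r) = algebraMap R K r := by
    intro r
    have h1 := hP r 1
    rw [pow_one] at h1
    have e : PowerSeries.trunc 1 (P r) = C (PowerSeries.coeff 0 (P r)) := by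
      ext i
      rw [PowerSeries.coeff_trunc, coeff_C]
      rcases i with _ | i
      · simp
      · simp
    rw [e, eval₂_C] at h1
    obtain ⟨c, hc⟩ := h1
    have h2 := congrArg (algebraMap R K) hc
    have h3 : ϖ ∈ maximalIdeal R := (mem_maximalIdeal _).mpr hϖ.1
    rw [map_sub, hg, map_mul, (ag1_ker hs ϖ).mpr h3, zero_mul, sub_eq_zero] at h2
    exact h2.symm
  have hinj₀ : Function.Injective ι₀ := by
    rw [injective_iff_map_eq_zero]
    intro r hr
    by_contra hr0
    obtain ⟨n, u, hu⟩ := IsDiscreteValuationRing.eq_unit_mul_pow_irreducible hr0 hϖ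
    rw [hu, map_mul, map_pow, hι₀X] at hr
    have h1 : IsUnit (ι₀ (u : R)) := (u.isUnit).map ι₀
    have h2 : (PowerSeries.X : PowerSeries K) ^ n = 0 :=
      (mul_eq_zero.mp hr).resolve_left h1.ne_zero
    exact pow_ne_zero n PowerSeries.X_ne_zero h2
  refine ⟨(HahnSeries.ofPowerSeries ℚ K).comp ι₀, ?_, ?_, ?_, ϖ, hϖ, ?_⟩
  · exact (HahnSeries.ofPowerSeries_injective).comp hinj₀
  · intro r
    rw [HahnSeries.le_orderTop_iff_forall]
    intro q hq
    rw [RingHom.comp_apply, HahnSeries.ofPowerSeries_apply]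
    apply HahnSeries.embDomain_of_notMem_range
    rintro ⟨m, hm⟩
    have h1 : (0 : ℚ) ≤ q := by
      rw [← hm]
      exact Nat.cast_nonneg m
    exact absurd hq (not_lt.mpr (by exact_mod_cast h1))
  · intro r
    rw [RingHom.comp_apply, ← hι₀c r]
    exact_mod_cast HahnSeries.ofPowerSeries_apply_coeff (Γ := ℚ) (ι₀ r) 0
  · rw [RingHom.comp_apply, hι₀X, HahnSeries.ofPowerSeries_X]

/-- The embedding of a complete discrete valuation ring of residue characteristic zero in the field of
Hahn series over the residue field. -/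
theorem exists_embed (R K : Type u) [CommRing R] [IsDomain R] [IsDiscreteValuationRing R]
    [IsAdicComplete (maximalIdeal R) R] [Field K] [CharZero K] [Algebra R K]
    (hs : Function.Surjective (algebraMap R K)) :
    ∃ ι : R →+* HahnSeries ℚ K, Function.Injective ι ∧ (∀ r, 0 ≤ (ι r).orderTop) ∧
      (∀ r, (ι r).coeff 0 = algebraMap R K r) ∧
      ∃ ϖ : R, Irreducible ϖ ∧ ι ϖ = HahnSeries.single (1 : ℚ) (1 : K) := by
  obtain ⟨g, hg⟩ := ag1_section (K := K) hs
  exact ag1_embed hs hg

end

end KTS
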