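import Pool.Agent.KTS.SQ2

/-!
# [KTS-Chart] charts: the interface between schemes and the integral (helper4)

`A = HahnSeries ℚ k`, `U = HahnSeries ℚ Ω`, `ρ : R → A` integral (`(ρ r).coeff 0` is its residue),
`F` a field over `A`, `C ⊆ F` a finitely generated `R`-subalgebra.  Definitions: ChD.lean.
-/

set_option autoImplicit false
set_option linter.unusedSectionVars false

namespace KTS

noncomputable section

universe u v w

open Polynomial Cardinal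

section Weights

variable {k Ω : Type u} [Field k] [Field Ω] [Algebra k Ω]

/-- the weight of all fields of degree `n` -/
def wA (n : ℕ) (E : IntermediateField k Ω) : ℚ := by
  classical
  exact if Algebra.trdeg k E = n then 1 else 0

/-- the weight of the purely transcendental fields of degree `n` -/
def wP (n : ℕ) (E : IntermediateField k Ω) : ℚ := by
  classical
  exact if PureTr n E then 1 else 0

theorem wA_cases (n : ℕ) (E : IntermediateField k Ω) : wA n E = 0 ∨ wA n E = 1 := by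
  unfold wA
  split_ifs
  · exact Or.inr rfl
  · exact Or.inl rfl

theorem wP_cases (n : ℕ) (E : IntermediateField k Ω) : wP n E = 0 ∨ wP n E = 1 := by
  unfold wP
  split_ifs
  · exact Or.inr rfl
  · exact Or.inl rfl

theorem wA_eq_one {n : ℕ} {E : IntermediateField k Ω} : wA n E = 1 ↔ Algebra.trdeg k E = n := by
  unfold wA
  split_ifs with h
  · exact ⟨fun _ => h, fun _ => rfl⟩
  · exact ⟨fun h' => absurd h' zero_ne_one, fun h' => absurd h' h⟩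

theorem wP_eq_one {n : ℕ} {E : IntermediateField k Ω} : wP n E = 1 ↔ PureTr n E := by
  unfold wP
  split_ifs with h
  · exact ⟨fun _ => h, fun _ => rfl⟩
  · exact ⟨fun h' => absurd h' zero_ne_one, fun h' => absurd h' h⟩

theorem PureTr.td {n : ℕ} {E : IntermediateField k Ω} (h : PureTr n E) :
    Algebra.trdeg k E = n := by
  obtain ⟨w, hw, rfl⟩ := h
  exact td_tup w hw

theorem PureTr.map {n : ℕ} {E : IntermediateField k Ω} (h : PureTr n E) (σ : Ω ≃ₐ[k] Ω) :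
    PureTr n (E.map (σ : Ω →ₐ[k] Ω)) := by
  obtain ⟨w, hw, rfl⟩ := h
  refine ⟨fun i => σ (w i), hw.map' (f := (σ : Ω →ₐ[k] Ω)) σ.injective, ?_⟩
  exact kf_map (σ : Ω →ₐ[k] Ω) w

theorem map_map_symm (σ : Ω ≃ₐ[k] Ω) (E : IntermediateField k Ω) :
    (E.map (σ : Ω →ₐ[k] Ω)).map (σ.symm : Ω →ₐ[k] Ω) = E := by
  rw [IntermediateField.map_map]
  have : (σ.symm : Ω →ₐ[k] Ω).comp (σ : Ω →ₐ[k] Ω) = AlgHom.id k Ω := by
    ext x
    exact σ.symm_apply_apply x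
  rw [this, IntermediateField.map_id]

theorem wt_wA (n : ℕ) : Wt (n : Cardinal.{u}) (wA (k := k) (Ω := Ω) n) where
  inv σ E := by
    have h := (E.equivMap (σ : Ω →ₐ[k] Ω)).trdeg_eq
    unfold wA
    rw [← h]
  dim E h := by
    rcases wA_cases n E with h' | h'
    · exact absurd h' h
    · exact wA_eq_one.1 h'

theorem wt_wP (n : ℕ) : Wt (n : Cardinal.{u}) (wP (k := k) (Ω := Ω) n) where
  inv σ E := by
    have h : PureTr n (E.map (σ : Ω →ₐ[k] Ω)) ↔ PureTr n E := by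
      constructor
      · intro h
        have h1 := h.map σ.symm
        rwa [map_map_symm] at h1
      · intro h
        exact h.map σ
    rcases wP_cases n E with h1 | h1
    · rcases wP_cases n (E.map (σ : Ω →ₐ[k] Ω)) with h2 | h2
      · rw [h1, h2]
      · exact absurd (wP_eq_one.2 (h.1 (wP_eq_one.1 h2))) (by rw [h1]; exact zero_ne_one)
    · rw [h1]
      exact wP_eq_one.2 (h.2 (wP_eq_one.1 h1))
  dim E h := by
    rcases wP_cases n E with h' | h'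
    · exact absurd h' h
    · exact (wP_eq_one.1 h').td

theorem exists_ind (hΩ : ℵ₀ ≤ Algebra.trdeg k Ω) (n : ℕ) :
    ∃ w : Fin n → Ω, AlgebraicIndependent k w := by
  obtain ⟨s, hs⟩ := exists_isTranscendenceBasis k Ω
  have h1 : ℵ₀ ≤ #s := by
    rw [hs.cardinalMk_eq_trdeg]
    exact hΩ
  have h2 : Infinite s := Cardinal.infinite_iff.2 h1
  exact ⟨fun i => (Infinite.natEmbedding s i : Ω), hs.1.comp (fun i : Fin n =>
    Infinite.natEmbedding s i) fun i j h => Fin.ext ((Infinite.natEmbedding s).injective h)⟩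

end Weights

section Chart

variable {k Ω F R : Type u} [Field k] [Field Ω] [Algebra k Ω] [Field F]
  [Algebra (HahnSeries ℚ k) F] [CommRing R] [Algebra R F]

/-- finiteness, any universe of the index type -/
theorem FT_JA_meas' [IsAlgClosed k] [CharZero k] [IsAlgClosed Ω] [CharZero Ω]
    (hΩ : ℵ₀ ≤ Algebra.trdeg k Ω) {d : ℕ}
    (hF : Algebra.trdeg (HahnSeries ℚ k) F = d) {x : ℕ → F} {N : ℕ} (hx : lev k x N = ⊤)
    {c : IntermediateField k Ω → ℚ} (hc : Wt (d : Cardinal.{u}) c) {M : ℕ} (s : Fin M → F)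
    {A : Set (Pt k Ω F)} (hA : Meas A s) : FT (⊤ : Subgroup (Ω ≃ₐ[k] Ω)) (JA A s c) := by
  let e : ULift.{u} (Fin M) ≃ Fin M := Equiv.ulift
  have h1 := FT_JA_meas hΩ hF hx hc (fun j => s (e j)) (hA.equiv e)
  rw [JA_equiv] at h1
  have h2 := h1.equiv e
  simp only [Equiv.apply_symm_apply] at h2
  exact h2

/-- removed points -/
def Ear {m : ℕ} (C : Fin m → Subalgebra R F) (j : Fin m) : Set (Pt k Ω F) :=
  {φ | ∃ i < j, φ ∈ XX (k := k) Ω (C i)}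

theorem sep_Ear {m : ℕ} (C : Fin m → Subalgebra R F)
    (sep : ∀ (j j' : Fin m) (φ ψ : Pt k Ω F), φ ∈ XX Ω (C j) → ψ ∈ XX Ω (C j) →
      (∀ c ∈ C j, rd φ c = rd ψ c) → φ ∈ XX Ω (C j') → ψ ∈ XX Ω (C j')) (j : Fin m) :
    Sep (Ear (k := k) (Ω := Ω) C j) (C j) where
  dep φ hφ ψ hψ h := by
    rintro ⟨i, hi, h'⟩
    exact ⟨i, hi, sep j i ψ φ hψ hφ h h'⟩
  st σ φ := by
    rintro ⟨i, hi, h'⟩
    refine ⟨i, hi, fun c hc => ?_⟩
    have h1 := sact_mem_Oint σ.symm (h' c hc)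
    have h2 : sact (σ.symm : Ω →ₐ[k] Ω) (sact (σ : Ω →ₐ[k] Ω) φ) c = φ c := by
      ext q
      exact σ.symm_apply_apply _
    rwa [h2] at h1

/-- [ChartThm] -/
theorem chart_thm [IsAlgClosed k] [CharZero k] [IsAlgClosed Ω] [CharZero Ω]
    (hΩ : ℵ₀ ≤ Algebra.trdeg k Ω) (ρ : R →+* HahnSeries ℚ k) (hρ : ∀ r, ρ r ∈ Oint k)
    (hRF : ∀ r, algebraMap R F r = algebraMap (HahnSeries ℚ k) F (ρ r)) {n : ℕ}
    (y : Fin n → F) (hy : AlgebraicIndependent (HahnSeries ℚ k) y)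
    (htop : IntermediateField.adjoin (HahnSeries ℚ k) (Set.range y) = ⊤)
    {m : ℕ} (C : Fin m → Subalgebra R F) (z : Fin m → Fin n → F)
    (hC : ∀ j, Chart Ω ρ n (C j) (z j))
    (cov : ∀ φ : Pt k Ω F, ∃ j, φ ∈ XX Ω (C j))
    (sep : ∀ (j j' : Fin m) (φ ψ : Pt k Ω F), φ ∈ XX Ω (C j) → ψ ∈ XX Ω (C j) →
      (∀ c ∈ C j, rd φ c = rd ψ c) → φ ∈ XX Ω (C j') → ψ ∈ XX Ω (C j')) :
    ∃ (j : Fin m) (φ : Pt k Ω F), φ ∈ XX Ω (C j) ∧ (∀ i < j, φ ∉ XX Ω (C i)) ∧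
      PureTr n (rf (C j) φ) ∧
      ∀ (j' : Fin m) (φ' : Pt k Ω F), φ' ∈ XX Ω (C j') → (∀ i < j', φ' ∉ XX Ω (C i)) →
        Algebra.trdeg k (rf (C j') φ') = n →
        j' = j ∧ ∃ σ : Ω ≃ₐ[k] Ω, ∀ c ∈ C j, rd φ' c = σ (rd φ c) := by
  classical
  choose N x hn hx hs using fun j => (hC j).exists_gens
  -- the index set and the pieces
  let α := Σ j : Fin m, (Fin (N j) → Bool)
  let S : α → Set (Pt k Ω F) := fun a => Pc (Ear C a.1) (C a.1) (x a.1) a.2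
  have hE : ∀ j, Sep (Ear (k := k) (Ω := Ω) C j) (C j) := sep_Ear C sep
  have hpiece : ∀ (j : Fin m) (φ : Pt k Ω F), φ ∈ XX (k := k) Ω (C j) →
      (∀ i < j, φ ∉ XX (k := k) Ω (C i)) →
      φ ∈ S ⟨j, fun i => decide (rd φ (x j i) = 0)⟩ := by
    intro j φ h1 h2
    refine ⟨h1, ?_, fun i => decide_eq_true_iff⟩
    rintro ⟨i, hi, h3⟩
    exact h2 i hi h3
  have hdisj : Pairwise (Function.onFun Disjoint S) := by
    rintro ⟨j, b⟩ ⟨j', b'⟩ hne
    rw [Function.onFun, Set.disjoint_left]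
    intro φ h1 h2
    apply hne
    have h3 : j = j' := by
      rcases lt_trichotomy j j' with h | h | h
      · exact absurd ⟨j, h, h1.1⟩ h2.2.1
      · exact h
      · exact absurd ⟨j', h, h2.1⟩ h1.2.1
    subst h3
    congr 1
    funext i
    rw [Bool.eq_iff_iff]
    exact (h1.2.2 i).trans (h2.2.2 i).symm
  have hU : (⋃ a, S a) = Set.univ := by
    rw [Set.eq_univ_iff_forall]
    intro φ
    obtain ⟨j, hj, hmin⟩ := WellFounded.has_min (wellFounded_lt (α := Fin m))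
      {j | φ ∈ XX (k := k) Ω (C j)} (cov φ)
    exact Set.mem_iUnion.2 ⟨_, hpiece j φ hj fun i hi h => hmin i h hi⟩
  have hM : ∀ a, Meas (S a) (sh (x a.1) a.2) := fun a => meas_Pc hρ hRF (hs a.1) (hE a.1)
  have hN : ∀ a, ∀ φ ∈ S a, NPd (x a.1) (N a.1)
      {ψ : Pt k Ω F | ψ ∈ S a ∧ rvt (sh (x a.1) a.2) ψ = rvt (sh (x a.1) a.2) φ} := by
    intro a φ hφ
    have h1 := fib_Pc hρ hRF (hs a.1) (hE a.1) hφ
    rw [h1]
    exact (hC a.1).npd hΩ hRF (hx a.1) φ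
  -- the projective space side
  let x0 : ℕ → F := fun i => if h : i < n then y ⟨i, h⟩ else 0
  have hx0 : ∀ i : Fin n, x0 i = y i := fun i => dif_pos i.2
  have hlev0 : lev k x0 n = ⊤ := by
    rw [← htop]
    unfold lev
    congr 1
    ext c
    constructor
    · rintro ⟨j, hj, rfl⟩
      exact ⟨⟨j, hj⟩, (hx0 ⟨j, hj⟩).symm⟩
    · rintro ⟨j, rfl⟩
      exact ⟨j, j.2, hx0 j⟩
  have hF : Algebra.trdeg (HahnSeries ℚ k) F = n := td_of_gen hy htop
  obtain ⟨w₀, hw₀⟩ := exists_ind (k := k) hΩ n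
  have hlev : ∀ j, lev k (x j) (N j) = ⊤ := fun j => (hC j).lev_top hRF (hs j)
  have key : ∀ c : IntermediateField k Ω → ℚ, Wt (n : Cardinal.{u}) c →
      ∑ a : α, ∑ᶠ q : Quotient (relS (⊤ : Subgroup (Ω ≃ₐ[k] Ω)) (Fin (N a.1))),
        IO (JA (S a) (sh (x a.1) a.2) c) q.out = c (kf k w₀) := by
    intro c hc
    have h1 := comparison hΩ hF hc y x0 n hlev0 (fun φ => npd_pn hΩ hy hx0 φ)
      (α := α) (fun a => Fin (N a.1)) (fun a => sh (x a.1) a.2) S (fun a => x a.1)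
      (fun a => N a.1) (fun a => hlev a.1) hM hdisj hU hN
    rw [int_pn hy htop hc hw₀] at h1
    rw [h1]
    exact Finset.sum_congr rfl fun a _ => (Int_eq _ _).symm
  have hsupp : ∀ c : IntermediateField k Ω → ℚ, Wt (n : Cardinal.{u}) c → ∀ a : α,
      (Function.support fun q : Quotient (relS (⊤ : Subgroup (Ω ≃ₐ[k] Ω)) (Fin (N a.1))) =>
        IO (JA (S a) (sh (x a.1) a.2) c) q.out).Finite := fun c hc a =>
    (FT_JA_meas' hΩ hF (hlev a.1) hc _ (hM a)).supp_out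
  have hinv : ∀ c : IntermediateField k Ω → ℚ, Wt (n : Cardinal.{u}) c → ∀ a : α,
      Inv (⊤ : Subgroup (Ω ≃ₐ[k] Ω)) (JA (S a) (sh (x a.1) a.2) c) := fun c hc a =>
    (FT_JA_meas' hΩ hF (hlev a.1) hc _ (hM a)).inv
  have hcases : ∀ c : IntermediateField k Ω → ℚ, (∀ E, c E = 0 ∨ c E = 1) → ∀ (a : α)
      (w : Fin (N a.1) → Ω), IO (JA (S a) (sh (x a.1) a.2) c) w = 0 ∨
        IO (JA (S a) (sh (x a.1) a.2) c) w = 1 := by
    intro c hc a w
    by_cases h : IO (JA (S a) (sh (x a.1) a.2) c) w = 0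
    · exact Or.inl h
    · obtain ⟨φ, hφ, rfl⟩ := IO_ne_Pc (hs a.1) c h
      have h1 := IO_Pc (hs a.1) c hφ
      rw [h1]
      exact hc _
  obtain ⟨p₁, -, hp₁⟩ := exists_unique_of_sum
    (fun (a : α) (q : Quotient (relS (⊤ : Subgroup (Ω ≃ₐ[k] Ω)) (Fin (N a.1)))) =>
      IO (JA (S a) (sh (x a.1) a.2) (wA n)) q.out)
    (fun a q => hcases _ (wA_cases n) a q.out) (hsupp _ (wt_wA n))
    ((key _ (wt_wA n)).trans (wA_eq_one.2 (td_tup w₀ hw₀)))
  obtain ⟨p₂, hp₂, -⟩ := exists_unique_of_sum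
    (fun (a : α) (q : Quotient (relS (⊤ : Subgroup (Ω ≃ₐ[k] Ω)) (Fin (N a.1)))) =>
      IO (JA (S a) (sh (x a.1) a.2) (wP n)) q.out)
    (fun a q => hcases _ (wP_cases n) a q.out) (hsupp _ (wt_wP n))
    ((key _ (wt_wP n)).trans (wP_eq_one.2 ⟨w₀, hw₀, rfl⟩))
  obtain ⟨⟨j, b⟩, q⟩ := p₂
  dsimp only at hp₂
  obtain ⟨φ, hφ, hq⟩ := IO_ne_Pc (hs j) (wP n) (by rw [hp₂]; exact one_ne_zero)
  rw [hq, IO_Pc (hs j) _ hφ, kf_rsh hRF (hs j) hφ.1] at hp₂
  have hpure : PureTr n (rf (C j) φ) := wP_eq_one.1 hp₂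
  refine ⟨j, φ, hφ.1, fun i hi h => hφ.2.1 ⟨i, hi, h⟩, hpure, ?_⟩
  have h₁ : (⟨⟨j, b⟩, q⟩ : Σ a : α, Quotient (relS (⊤ : Subgroup (Ω ≃ₐ[k] Ω)) (Fin (N a.1)))) =
      p₁ := by
    apply hp₁
    dsimp only
    rw [hq, IO_Pc (hs j) _ hφ, kf_rsh hRF (hs j) hφ.1]
    exact wA_eq_one.2 hpure.td
  intro j' φ' h1 h2 h3
  have hφ' := hpiece j' φ' h1 h2
  set b' : Fin (N j') → Bool := fun i => decide (rd φ' (x j' i) = 0) with hb'
  have h₂ : (⟨⟨j', b'⟩, Quotient.mk _ (rsh (x j') b' φ')⟩ :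
      Σ a : α, Quotient (relS (⊤ : Subgroup (Ω ≃ₐ[k] Ω)) (Fin (N a.1)))) = p₁ := by
    apply hp₁
    dsimp only
    have h4 := IO_out (hinv _ (wt_wA n) ⟨j', b'⟩) (rsh (x j') b' φ')
    rw [h4]
    have h5 := IO_Pc (hs j') (wA n) hφ'
    rw [h5, kf_rsh hRF (hs j') h1]
    exact wA_eq_one.2 h3
  have h₃ := h₂.trans h₁.symm
  rw [Sigma.mk.injEq, Sigma.mk.injEq] at h₃
  obtain ⟨⟨rfl, h6⟩, h7⟩ := h₃
  have h6' := eq_of_heq h6
  refine ⟨rfl, ?_⟩
  clear_value b'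
  subst h6'
  have h8 := eq_of_heq h7
  have h9 : Rel (⊤ : Subgroup (Ω ≃ₐ[k] Ω)) (rsh (x j') b' φ) (rsh (x j') b' φ') := by
    rw [← hq]
    exact Quotient.exact ((Quotient.out_eq q).trans h8.symm)
  obtain ⟨σ, -, hσ⟩ := h9
  refine ⟨σ, rd_ext hRF (hs j') hφ.1 h1 σ ?_⟩
  rintro _ ⟨i, hi, rfl⟩
  exact rd_of_rsh (b := b') (i := ⟨i, hi⟩) σ (hσ ⟨i, hi⟩).symm

end Chart

end

end KTS
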