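import Pool.Agent.KTS.SR9

/-!
[KTS-R10] Lifting points along standard etale charts.
-/

set_option autoImplicit false

namespace KTS

open Pool.Agent.TORE
open scoped TensorProduct IntermediateField.algebraAdjoinAdjoin

universe u

section

variable {k Ω R F A : Type u} [Field k] [Field Ω] [Algebra k Ω] [CommRing R]
  [Algebra R (HahnSeries ℚ k)] [Field F] [Algebra (HahnSeries ℚ k) F] [Algebra R F]
  [IsScalarTower R (HahnSeries ℚ k) F] [CommRing A] [Algebra R A] {n : ℕ}
  [Algebra (MvPolynomial (Fin n) R) A] [IsScalarTower R (MvPolynomial (Fin n) R) A]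

/-- A homomorphism to the big field, injective on the coordinates, extends to the function field. -/
theorem chart_extend [Module.Flat (MvPolynomial (Fin n) R) A]
    [Algebra.IsStandardEtale (MvPolynomial (Fin n) R) A] (j : A →ₐ[R] F)
    (hj : FracData (F := HahnSeries ℚ k) j) (Ψ : A →+* HahnSeries ℚ Ω)
    (hΨ : ∀ r, Ψ (algebraMap R A r) =
      algebraMap (HahnSeries ℚ k) (HahnSeries ℚ Ω) (algebraMap R (HahnSeries ℚ k) r))
    (hu : AlgebraicIndependent (HahnSeries ℚ k) (fun i => Ψ (crd R A n i))) :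
    ∃ w : Pt k Ω F, ∀ a, w (j a) = Ψ a := by
  let L := HahnSeries ℚ k
  let _ : Algebra R (HahnSeries ℚ Ω) :=
    ((algebraMap L (HahnSeries ℚ Ω)).comp (algebraMap R L)).toAlgebra
  have : IsScalarTower R L (HahnSeries ℚ Ω) := IsScalarTower.of_algebraMap_eq fun _ => rfl
  let Ψ' : A →ₐ[R] HahnSeries ℚ Ω := { Ψ with commutes' := hΨ }
  let κ : L ⊗[R] A →ₐ[L] HahnSeries ℚ Ω := jF (F := L) Ψ'
  let T' : Subalgebra L F := (jF (F := L) j).range
  let eT : L ⊗[R] A ≃ₐ[L] T' := AlgEquiv.ofInjective (jF (F := L) j) hj.inj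
  let κ' : T' →ₐ[L] HahnSeries ℚ Ω := κ.comp eT.symm.toAlgHom
  have hjT : ∀ a, j a ∈ T' := fun a => ⟨(1 : L) ⊗ₜ[R] a, by simp [jF]⟩
  have hκ'j : ∀ a, κ' ⟨j a, hjT a⟩ = Ψ a := by
    intro a
    have h1 : eT.symm ⟨j a, hjT a⟩ = (1 : L) ⊗ₜ[R] a := by
      rw [AlgEquiv.symm_apply_eq]
      apply Subtype.ext
      change j a = jF (F := L) j ((1 : L) ⊗ₜ[R] a)
      simp [jF]
    change κ (eT.symm ⟨j a, hjT a⟩) = _
    rw [h1]
    simp [κ, jF, Ψ']
  -- injectivity
  have hinj : Function.Injective κ' := by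
    rw [injective_iff_map_eq_zero]
    intro t ht
    by_contra ht0
    let z : Fin n → F := fun i => j (crd R A n i)
    have hz : AlgebraicIndependent L z := chart_algInd j hj
    let B : Subalgebra L F := Algebra.adjoin L (Set.range z)
    have hBT : B ≤ T' := by
      rw [Algebra.adjoin_le_iff]
      rintro _ ⟨i, rfl⟩
      exact hjT _
    let _ : Algebra B T' := (Subalgebra.inclusion hBT).toRingHom.toAlgebra
    have : IsScalarTower B T' F := IsScalarTower.of_algebraMap_eq fun _ => rfl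
    have halg1 : Algebra.IsAlgebraic (IntermediateField.adjoin L (Set.range z)) F :=
      ⟨fun x => chart_alg j hj x⟩
    have halg2 : Algebra.IsAlgebraic B F :=
      (IsFractionRing.comap_isAlgebraic_iff (A := B)
        (K := IntermediateField.adjoin L (Set.range z)) (C := F)).mpr halg1
    have halg3 : IsAlgebraic B t := by
      have h1 : IsAlgebraic B (algebraMap T' F t) := halg2.isAlgebraic _
      exact (isAlgebraic_algebraMap_iff (Subtype.val_injective)).mp h1
    have h2 := Ideal.comap_ne_bot_of_algebraic_mem (I := RingHom.ker κ'.toRingHom) ht0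
      (by exact ht) halg3
    apply h2
    rw [eq_bot_iff]
    intro b hb
    rw [Ideal.mem_bot]
    have hb' : κ' (algebraMap B T' b) = 0 := hb
    -- `κ'` on `B`
    let g : MvPolynomial (Fin n) L →ₐ[L] HahnSeries ℚ Ω :=
      (κ'.comp (Subalgebra.inclusion hBT)).comp (hz.aevalEquiv.toAlgHom)
    have hg : g = MvPolynomial.aeval (fun i => Ψ (crd R A n i)) := by
      apply MvPolynomial.algHom_ext
      intro i
      rw [MvPolynomial.aeval_X, ← hκ'j]
      change κ' (Subalgebra.inclusion hBT (hz.aevalEquiv (MvPolynomial.X i))) = _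
      congr 1
      apply Subtype.ext
      simp [z]
    have hginj : Function.Injective g := by
      rw [hg]
      exact hu
    have h3 : g (hz.aevalEquiv.symm b) = g 0 := by
      rw [map_zero, ← hb']
      change κ' (Subalgebra.inclusion hBT (hz.aevalEquiv (hz.aevalEquiv.symm b))) = _
      rw [AlgEquiv.apply_symm_apply]
      rfl
    have h4 := hginj h3
    have h5 : b = hz.aevalEquiv 0 := by
      rw [← h4, AlgEquiv.apply_symm_apply]
    rw [h5, map_zero]
  have hfr : IsFractionRing T' F := by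
    have : FaithfulSMul T' F := inferInstance
    apply IsFractionRing.of_field
    intro x
    obtain ⟨y, z, hz, hyz⟩ := hj.frac x
    refine ⟨⟨_, y, rfl⟩, ⟨_, z, rfl⟩, ?_⟩
    change x = jF j y / jF j z
    rw [eq_div_iff hz, hyz]
  let w : F →ₐ[L] HahnSeries ℚ Ω := IsFractionRing.liftAlgHom (A := T') hinj
  refine ⟨w, fun a => ?_⟩
  rw [← hκ'j a]
  have h1 := IsFractionRing.lift_algebraMap (A := T') (K := F) hinj ⟨j a, hjT a⟩
  exact h1

theorem chart_lift_ex [IsAlgClosed (HahnSeries ℚ Ω)] [Module.Flat (MvPolynomial (Fin n) R) A]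
    [Algebra.IsStandardEtale (MvPolynomial (Fin n) R) A] (j : A →ₐ[R] F)
    (hj : FracData (F := HahnSeries ℚ k) j)
    (h0 : ∀ r, 0 ≤ (algebraMap R (HahnSeries ℚ k) r).orderTop) (ξ : A →+* Ω)
    (hξ : ∀ r, ξ (algebraMap R A r) =
      algebraMap k Ω ((algebraMap R (HahnSeries ℚ k) r).coeff 0))
    (u : Fin n → HahnSeries ℚ Ω) (hu : AlgebraicIndependent (HahnSeries ℚ k) u)
    (hu0 : ∀ i, 0 ≤ (u i).orderTop) (hur : ∀ i, (u i).coeff 0 = ξ (crd R A n i)) :
    ∃ w : Pt k Ω F, (∀ i, w (j (crd R A n i)) = u i) ∧ ∀ a, 0 ≤ (w (j a)).orderTop ∧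
      (w (j a)).coeff 0 = ξ a := by
  have hR : ∀ r, algebraMap (HahnSeries ℚ k) (HahnSeries ℚ Ω)
      (algebraMap R (HahnSeries ℚ k) r) ∈ OU Ω := by
    intro r
    rw [mem_OU, orderTop_algebraMap]
    exact h0 r
  let α₀ : R →+* OU Ω := ((algebraMap (HahnSeries ℚ k) (HahnSeries ℚ Ω)).comp
    (algebraMap R (HahnSeries ℚ k))).codRestrict (OU Ω) hR
  let α : MvPolynomial (Fin n) R →+* OU Ω :=
    MvPolynomial.eval₂Hom α₀ (fun i => ⟨u i, mem_OU.mpr (hu0 i)⟩)
  have hhens : HenselianLocalRing (OU Ω) := henselian_of_algClosed (OU Ω)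
  have hcomp : (resU Ω).comp α = ξ.comp (algebraMap (MvPolynomial (Fin n) R) A) := by
    apply MvPolynomial.ringHom_ext
    · intro r
      rw [RingHom.comp_apply, RingHom.comp_apply, MvPolynomial.eval₂Hom_C]
      have h1 : (MvPolynomial.C r : MvPolynomial (Fin n) R) =
        algebraMap R (MvPolynomial (Fin n) R) r := rfl
      rw [h1, ← IsScalarTower.algebraMap_apply, hξ]
      rfl
    · intro i
      rw [RingHom.comp_apply, RingHom.comp_apply, MvPolynomial.eval₂Hom_X']
      exact hur i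
  obtain ⟨ψ, ⟨hψ1, hψ2⟩, -⟩ := std_lift (resU Ω) (resU_surj Ω) (fun x => resU_ker x) α ξ hcomp
  let Ψ : A →+* HahnSeries ℚ Ω := (OU Ω).subtype.comp ψ
  have hΨz : ∀ i, Ψ (crd R A n i) = u i := by
    intro i
    have h1 := RingHom.congr_fun hψ1 (MvPolynomial.X i)
    rw [RingHom.comp_apply, MvPolynomial.eval₂Hom_X'] at h1
    exact congrArg Subtype.val h1
  have hΨ : ∀ r, Ψ (algebraMap R A r) =
      algebraMap (HahnSeries ℚ k) (HahnSeries ℚ Ω) (algebraMap R (HahnSeries ℚ k) r) := by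
    intro r
    have h1 := RingHom.congr_fun hψ1 (MvPolynomial.C r)
    rw [RingHom.comp_apply, MvPolynomial.eval₂Hom_C] at h1
    have h2 : (MvPolynomial.C r : MvPolynomial (Fin n) R) =
      algebraMap R (MvPolynomial (Fin n) R) r := rfl
    rw [h2, ← IsScalarTower.algebraMap_apply] at h1
    exact congrArg Subtype.val h1
  obtain ⟨w, hw⟩ := chart_extend (Ω := Ω) j hj Ψ hΨ (by
    have h1 : (fun i => Ψ (crd R A n i)) = u := funext hΨz
    rw [h1]
    exact hu)
  refine ⟨w, fun i => by rw [hw, hΨz], fun a => ⟨?_, ?_⟩⟩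
  · rw [hw]
    exact (ψ a).2
  · rw [hw]
    exact RingHom.congr_fun hψ2 a

theorem chart_lift_uniq [IsAlgClosed (HahnSeries ℚ Ω)]
    [Algebra.IsStandardEtale (MvPolynomial (Fin n) R) A] (j : A →ₐ[R] F)
    (hj : FracData (F := HahnSeries ℚ k) j) (w w' : Pt k Ω F)
    (hz : ∀ i, w (j (crd R A n i)) = w' (j (crd R A n i)))
    (h0 : ∀ a, 0 ≤ (w (j a)).orderTop) (h0' : ∀ a, 0 ≤ (w' (j a)).orderTop)
    (hr : ∀ a, (w (j a)).coeff 0 = (w' (j a)).coeff 0) : w = w' := by
  have hhens : HenselianLocalRing (OU Ω) := henselian_of_algClosed (OU Ω)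
  let ψ : A →+* OU Ω := ((w : F →+* HahnSeries ℚ Ω).comp (j : A →+* F)).codRestrict (OU Ω) h0
  let ψ' : A →+* OU Ω := ((w' : F →+* HahnSeries ℚ Ω).comp (j : A →+* F)).codRestrict (OU Ω) h0'
  let α := ψ.comp (algebraMap (MvPolynomial (Fin n) R) A)
  obtain ⟨ψ₀, -, huq⟩ := std_lift (resU Ω) (resU_surj Ω) (fun x => resU_ker x) α
    ((resU Ω).comp ψ) rfl
  have h1 : ψ = ψ₀ := huq ψ ⟨rfl, rfl⟩
  have h2 : ψ' = ψ₀ := by
    apply huq
    constructor
    · apply MvPolynomial.ringHom_ext
      · intro r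
        have h3 : (MvPolynomial.C r : MvPolynomial (Fin n) R) =
          algebraMap R (MvPolynomial (Fin n) R) r := rfl
        apply Subtype.ext
        rw [RingHom.comp_apply, RingHom.comp_apply, h3, ← IsScalarTower.algebraMap_apply]
        change w' (j (algebraMap R A r)) = w (j (algebraMap R A r))
        rw [AlgHom.commutes, IsScalarTower.algebraMap_apply R (HahnSeries ℚ k) F, AlgHom.commutes,
          AlgHom.commutes]
      · intro i
        apply Subtype.ext
        exact (hz i).symm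
    · ext a
      exact (hr a).symm
  have h3 : ψ = ψ' := h1.trans h2.symm
  have h4 : ∀ a, w (j a) = w' (j a) := fun a => congrArg Subtype.val (RingHom.congr_fun h3 a)
  let T : IntermediateField (HahnSeries ℚ k) F := {
    carrier := {x | w x = w' x}
    mul_mem' := by
      intro a b ha hb
      rw [Set.mem_ofPred_eq, map_mul, map_mul, ha, hb]
    add_mem' := by
      intro a b ha hb
      rw [Set.mem_ofPred_eq, map_add, map_add, ha, hb]
    algebraMap_mem' := by
      intro x
      rw [Set.mem_ofPred_eq, AlgHom.commutes, AlgHom.commutes]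
    inv_mem' := by
      intro a ha
      rw [Set.mem_ofPred_eq, map_inv₀, map_inv₀, ha] }
  ext1 x
  have h5 : x ∈ T := chart_gen (L := HahnSeries ℚ k) j hj T h4 x
  exact h5

end

end KTS
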