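import Pool.Agent.KTS.SR7
import Pool.Agent.TD.Defs

/-!
[KTS-R12] A smooth rational scheme is integral, with a purely transcendental function field.
-/

set_option autoImplicit false

namespace KTS

open AlgebraicGeometry CategoryTheory Limits
open Pool.Agent.TORE

universe u

/-- The function field of an affine open subscheme. -/
theorem ff_of_open {L D : Type u} [Field L] [CommRing D] [IsDomain D] [Algebra L D]
    {Z : Scheme.{u}} [IsIntegral Z] (g : Z ⟶ Spec (CommRingCat.of L))
    (c : Spec (CommRingCat.of D) ⟶ Z) [IsOpenImmersion c]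
    (hc : c ≫ g = Spec.map (CommRingCat.ofHom (algebraMap L D))) :
    ∃ e : FractionRing D ≃+* Z.functionField,
      Z.fromSpecStalk (genericPoint Z) ≫ g =
        Spec.map (CommRingCat.ofHom (e.toRingHom.comp (algebraMap L (FractionRing D)))) := by
  have hI : IsIntegral (Spec (CommRingCat.of D)) :=
    (affine_isIntegral_iff _).mpr (inferInstanceAs (IsDomain D))
  obtain ⟨φ, h1, h2, h3⟩ := G2_phi c (genericPoint Z) (genericPoint_eq_of_isOpenImmersion c)
  let _ : Algebra D Z.functionField := φ.toAlgebra
  have hf : FaithfulSMul D Z.functionField := (faithfulSMul_iff_algebraMap_injective _ _).mpr h2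
  have hfr : IsFractionRing D Z.functionField := by
    apply IsFractionRing.of_field
    intro z
    obtain ⟨x, y, hy, hxy⟩ := h3 z
    refine ⟨x, y, ?_⟩
    change z = φ x / φ y
    have hy' : φ y ≠ 0 := by
      intro h0
      apply hy
      apply h2
      rw [map_zero]
      exact h0
    rw [eq_div_iff hy', ← hxy]
  let e : FractionRing D ≃ₐ[D] Z.functionField := FractionRing.algEquiv D Z.functionField
  refine ⟨e.toRingEquiv, ?_⟩
  rw [← h1, Category.assoc, hc, ← Spec.map_comp, ← CommRingCat.ofHom_comp]
  congr 2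
  ext a
  change φ (algebraMap L D a) = e (algebraMap L (FractionRing D) a)
  rw [IsScalarTower.algebraMap_apply L D (FractionRing D), AlgEquiv.commutes]
  rfl

/-- The affine space. -/
theorem pure_affine (L : Type u) [Field L] (n : ℕ) :
    ∃ _ : IsIntegral 𝔸(ULift.{u} (Fin n); Spec (CommRingCat.of L)),
      PureOver (𝔸(ULift.{u} (Fin n); Spec (CommRingCat.of L)) ↘ Spec (CommRingCat.of L)) n := by
  let A := 𝔸(ULift.{u} (Fin n); Spec (CommRingCat.of L))
  let D := MvPolynomial (Fin n) L
  let D' := MvPolynomial (ULift.{u} (Fin n)) L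
  let i : A ≅ Spec (CommRingCat.of D') := AffineSpace.SpecIso (ULift.{u} (Fin n)) (CommRingCat.of L)
  have hD' : IsDomain D' := inferInstance
  have hI' : IsIntegral (Spec (CommRingCat.of D')) :=
    (affine_isIntegral_iff _).mpr (inferInstanceAs (IsDomain D'))
  have hA : IsIntegral A := G6_isIntegral_of_iso i
  let ρ : D' ≃ₐ[L] D := MvPolynomial.renameEquiv L Equiv.ulift
  let r : Spec (CommRingCat.of D) ⟶ Spec (CommRingCat.of D') :=
    Spec.map ρ.toRingEquiv.toCommRingCatIso.hom
  let c : Spec (CommRingCat.of D) ⟶ A := r ≫ i.inv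
  have hc : c ≫ (A ↘ Spec (CommRingCat.of L)) =
      Spec.map (CommRingCat.ofHom (algebraMap L D)) := by
    change (r ≫ i.inv) ≫ _ = _
    rw [Category.assoc]
    have h1 : i.inv ≫ (A ↘ Spec (CommRingCat.of L)) =
        Spec.map (CommRingCat.ofHom (MvPolynomial.C : L →+* D')) :=
      AffineSpace.SpecIso_inv_over (CommRingCat.of L)
    rw [h1, ← Spec.map_comp]
    congr 1
    apply CommRingCat.hom_ext
    apply RingHom.ext
    intro a
    exact ρ.commutes a
  exact ⟨hA, ff_of_open _ c hc⟩

/-- `PureOver` is invariant under open immersions. -/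
theorem at_image {F : Type u} [Field F] {Y Z : Scheme.{u}}
    (f : Y ⟶ Spec (CommRingCat.of F)) (g : Z ⟶ Spec (CommRingCat.of F)) (e : Y ⟶ Z)
    [IsOpenImmersion e] (he : e ≫ g = f) (d : ℕ) (y : Y) (hd : G6d_at f d y) :
    G6d_at g d (e y) := by
  obtain ⟨ε, hε⟩ := hd
  let s : Z.presheaf.stalk (e y) ≅ Y.presheaf.stalk y := asIso (e.stalkMap y)
  refine ⟨ε.trans s.symm.commRingCatIsoToRingEquiv, ?_⟩
  have h1 : Z.fromSpecStalk (e y) = Spec.map s.inv ≫ Y.fromSpecStalk y ≫ e := by
    rw [← Scheme.SpecMap_stalkMap_fromSpecStalk, ← Category.assoc, ← Spec.map_comp]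
    have h2 : e.stalkMap y ≫ s.inv = 𝟙 _ := s.hom_inv_id
    rw [h2, Spec.map_id, Category.id_comp]
  rw [h1, Category.assoc, Category.assoc, he, hε, ← Spec.map_comp]
  rfl

theorem rational_pure {L : Type u} [Field L] {Z : Scheme.{u}} (g : Z ⟶ Spec (CommRingCat.of L))
    [Smooth g] (h : TOD.IsRational g) : ∃ (_ : IsIntegral Z) (d : ℕ), PureOver g d := by
  obtain ⟨n, P, hP⟩ := h
  obtain ⟨hA, hpure⟩ := pure_affine L n
  let A := 𝔸(ULift.{u} (Fin n); Spec (CommRingCat.of L))
  have hVne : Nonempty P.target := by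
    obtain ⟨x, hx⟩ := P.dense_target.nonempty
    exact ⟨⟨x, hx⟩⟩
  have hV : IsIntegral P.target.toScheme := isIntegral_of_isOpenImmersion P.target.ι
  have hU : IsIntegral P.source.toScheme := G6_isIntegral_of_iso P.iso
  have hred : IsReduced Z := reduced_of_smooth g
  have hirr : IrreducibleSpace Z := by
    have h1 : IsIrreducible (P.source : Set Z) := by
      have h2 : IsIrreducible (Set.univ : Set P.source.toScheme) :=
        (irreducibleSpace_def _).mp inferInstance
      have h3 := h2.image P.source.ι P.source.ι.continuous.continuousOn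
      rw [Set.image_univ] at h3
      have h4 : Set.range P.source.ι = (P.source : Set Z) := Scheme.Opens.range_ι _
      rwa [h4] at h3
    have h2 : IsIrreducible (Set.univ : Set Z) := by
      rw [← P.dense_source.closure_eq]
      exact h1.closure
    exact (irreducibleSpace_def Z).mpr h2
  have hint : IsIntegral Z := isIntegral_of_irreducibleSpace_of_isReduced Z
  refine ⟨hint, n, ?_⟩
  have h1 : G6d_at (A ↘ Spec (CommRingCat.of L)) n (genericPoint A) := hpure
  let t : P.source.toScheme ⟶ A := P.iso.hom ≫ P.target.ι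
  have h2 : t (genericPoint P.source.toScheme) = genericPoint A :=
    genericPoint_eq_of_isOpenImmersion t
  rw [← h2] at h1
  have h3 : G6d_at (P.source.ι ≫ g) n (genericPoint P.source.toScheme) :=
    G6d_at_iff _ _ t (by
      have h4 : P.iso.hom ≫ P.target.ι ≫ (A ↘ Spec (CommRingCat.of L)) = P.source.ι ≫ g := hP
      change (P.iso.hom ≫ P.target.ι) ≫ _ = _
      rw [Category.assoc, h4]) n _ h1
  have h4 := at_image _ g P.source.ι rfl n _ h3
  have h5 : P.source.ι (genericPoint P.source.toScheme) = genericPoint Z :=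
    genericPoint_eq_of_isOpenImmersion P.source.ι
  rw [h5] at h4
  exact h4

end KTS
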