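import Pool.Agent.KTS.SR11

/-!
[KTS-R13] Transcendence degrees.
-/

set_option autoImplicit false

namespace KTS

open Pool.Agent.TORE
open scoped TensorProduct Cardinal

universe u

theorem trdeg_of_alg {L F : Type u} [Field L] [Field F] [Algebra L F] {n : ℕ} {z : Fin n → F}
    (hz : AlgebraicIndependent L z)
    (halg : ∀ x : F, IsAlgebraic (IntermediateField.adjoin L (Set.range z)) x) :
    Algebra.trdeg L F = n := by
  have h3 : Algebra.IsAlgebraic (IntermediateField.adjoin L (Set.range z)) F := ⟨halg⟩
  have h4 := IntermediateField.isAlgebraic_adjoin_iff_top.1 h3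
  have h5 : IsTranscendenceBasis L z :=
    isTranscendenceBasis_iff_algebraicIndependent_isAlgebraic.2 ⟨hz, h4⟩
  have h6 := h5.lift_cardinalMk_eq_trdeg
  simpa using h6.symm

theorem trdeg_adj {K E : Type u} [Field K] [Field E] [Algebra K E] {d : ℕ} {w : Fin d → E}
    (h : AlgebraicIndependent K w) :
    Algebra.trdeg K (IntermediateField.adjoin K (Set.range w)) = d := by
  let T := IntermediateField.adjoin K (Set.range w)
  let w' : Fin d → T := fun i => ⟨w i, IntermediateField.subset_adjoin _ _ ⟨i, rfl⟩⟩
  have h1 : AlgebraicIndependent K w' := AlgebraicIndependent.of_comp T.val h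
  apply trdeg_of_alg h1
  have h2 : (IntermediateField.adjoin K (Set.range w') : IntermediateField K T) = ⊤ := by
    apply IntermediateField.map_injective T.val
    rw [IntermediateField.adjoin_map, ← AlgHom.fieldRange_eq_map, IntermediateField.fieldRange_val]
    have h3 : T.val '' Set.range w' = Set.range w := by
      rw [← Set.range_comp]
      rfl
    rw [h3]
  intro x
  have h4 : x ∈ (IntermediateField.adjoin K (Set.range w') : IntermediateField K T) := by
    rw [h2]
    trivial
  exact isAlgebraic_algebraMap (⟨x, h4⟩ : IntermediateField.adjoin K (Set.range w'))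

theorem trdeg_xi {R K A Ω : Type u} [CommRing R] [Field K] [Algebra R K] [CommRing A] [Algebra R A]
    [Field Ω] [Algebra K Ω] {n : ℕ} [Algebra (MvPolynomial (Fin n) R) A]
    [IsScalarTower R (MvPolynomial (Fin n) R) A]
    [Algebra.IsStandardEtale (MvPolynomial (Fin n) R) A] (ξ : A →+* Ω)
    (hξ : ∀ r, ξ (algebraMap R A r) = algebraMap K Ω (algebraMap R K r))
    (hind : AlgebraicIndependent K (fun i => ξ (crd R A n i))) :
    Algebra.trdeg K (IntermediateField.adjoin K (Set.range ξ)) = n := by
  let S := IntermediateField.adjoin K (Set.range fun i => ξ (crd R A n i))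
  let T := IntermediateField.adjoin K (Set.range ξ)
  have hST : S ≤ T := by
    rw [IntermediateField.adjoin_le_iff]
    rintro _ ⟨i, rfl⟩
    exact IntermediateField.subset_adjoin K _ ⟨_, rfl⟩
  have hTS : T ≤ cl S := by
    rw [IntermediateField.adjoin_le_iff]
    rintro _ ⟨a, rfl⟩
    change ξ a ∈ cl S
    rw [mem_cl]
    apply std_algebraic (P := MvPolynomial (Fin n) R) (h := ξ)
    intro p
    have h2 : ξ (algebraMap (MvPolynomial (Fin n) R) A p) ∈ S.toSubring := by
      apply crd_mem
      · intro r
        rw [hξ]
        exact S.algebraMap_mem _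
      · intro i
        exact IntermediateField.subset_adjoin K _ ⟨i, rfl⟩
    exact isAlgebraic_algebraMap (⟨_, h2⟩ : S)
  have h1 : Algebra.trdeg K T = Algebra.trdeg K S := td_alg hST fun x hx => mem_cl.mp (hTS hx)
  exact h1.trans (trdeg_adj hind)

section

variable (L : Type u) [Field L] (d : ℕ)

/-- The coordinates of the field of rational functions. -/
noncomputable def ratX (i : Fin d) : RatFun L d :=
  algebraMap (MvPolynomial (Fin d) L) (RatFun L d) (MvPolynomial.X i)

theorem ratX_ind : AlgebraicIndependent L (ratX L d) := by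
  have h1 : AlgebraicIndependent L (MvPolynomial.X : Fin d → MvPolynomial (Fin d) L) :=
    MvPolynomial.algebraicIndependent_X (Fin d) L
  have h2 := h1.map' (f := IsScalarTower.toAlgHom L (MvPolynomial (Fin d) L) (RatFun L d))
    (IsFractionRing.injective (MvPolynomial (Fin d) L) (RatFun L d))
  exact h2

theorem ratX_top : IntermediateField.adjoin L (Set.range (ratX L d)) = ⊤ := by
  rw [eq_top_iff]
  intro x _
  let T := IntermediateField.adjoin L (Set.range (ratX L d))
  have h1 : ∀ p : MvPolynomial (Fin d) L,
      algebraMap (MvPolynomial (Fin d) L) (RatFun L d) p ∈ T := by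
    intro p
    induction p using MvPolynomial.induction_on with
    | C a =>
      have h2 : (MvPolynomial.C a : MvPolynomial (Fin d) L) =
        algebraMap L (MvPolynomial (Fin d) L) a := rfl
      rw [h2, ← IsScalarTower.algebraMap_apply]
      exact T.algebraMap_mem a
    | add p q hp hq =>
      rw [map_add]
      exact T.add_mem hp hq
    | mul_X p i hp =>
      rw [map_mul]
      exact T.mul_mem hp (IntermediateField.subset_adjoin L _ ⟨i, rfl⟩)
  obtain ⟨a, b, hb, rfl⟩ := IsFractionRing.div_surjective (A := MvPolynomial (Fin d) L) x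
  exact T.div_mem (h1 a) (h1 b)

theorem trdeg_rat : Algebra.trdeg L (RatFun L d) = d := by
  apply trdeg_of_alg (ratX_ind L d)
  intro x
  have h4 : x ∈ IntermediateField.adjoin L (Set.range (ratX L d)) := by
    rw [ratX_top]
    trivial
  exact isAlgebraic_algebraMap (⟨x, h4⟩ : IntermediateField.adjoin L (Set.range (ratX L d)))

end

end KTS
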