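import Pool.Agent.KTS.SR3a

/-!
[KTS-R6] Standard etale charts generated by units.
-/

set_option autoImplicit false

namespace KTS

open AlgebraicGeometry CategoryTheory Limits

universe u

/-- Locally an algebra of finite type is generated by units. -/
theorem unit_cover {R A : Type u} [CommRing R] [CommRing A] [Algebra R A]
    [Algebra.FiniteType R A] (p : Ideal A) [p.IsPrime] :
    ∃ h ∉ p, ∃ (m : ℕ) (y : Fin m → Localization.Away h), (∀ i, IsUnit (y i)) ∧
      Algebra.adjoin R (Set.range y) = ⊤ := by
  classical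
  obtain ⟨s, hs⟩ := (inferInstance : Algebra.FiniteType R A).out
  -- the shifts
  let ε : A → A := fun b => if b ∈ p then 1 else 0
  have hε : ∀ b, b - ε b ∉ p := by
    intro b
    by_cases hb : b ∈ p
    · simp only [ε, if_pos hb]
      intro h1
      apply (Ideal.ne_top_iff_one p).mp (Ideal.IsPrime.ne_top ‹_›)
      have h2 := p.sub_mem hb h1
      rwa [sub_sub_cancel] at h2
    · simp only [ε, if_neg hb, sub_zero]
      exact hb
  let h : A := ∏ b ∈ s, (b - ε b)
  have hh : h ∉ p := by
    intro h1
    obtain ⟨b, hb, hb1⟩ := (Ideal.IsPrime.prod_mem_iff (hp := ‹p.IsPrime›)).mp h1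
    exact hε b hb1
  let ι := algebraMap A (Localization.Away h)
  have hu : ∀ b ∈ s, IsUnit (ι (b - ε b)) := by
    intro b hb
    have h1 : IsUnit (ι h) := IsLocalization.Away.algebraMap_isUnit h
    have h2 : b - ε b ∣ h := Finset.dvd_prod_of_mem (fun b => b - ε b) hb
    exact isUnit_of_dvd_unit (map_dvd ι h2) h1
  let e : s ≃ Fin (Fintype.card s) := Fintype.equivFin s
  let u : s → (Localization.Away h)ˣ := fun b => (hu b.1 b.2).unit
  let z : s ⊕ s → Localization.Away h := Sum.elim (fun b => u b) (fun b => ↑(u b)⁻¹)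
  let e' : s ⊕ s ≃ Fin (Fintype.card (s ⊕ s)) := Fintype.equivFin _
  refine ⟨h, hh, Fintype.card (s ⊕ s), z ∘ e'.symm, ?_, ?_⟩
  · intro i
    simp only [Function.comp_apply]
    rcases e'.symm i with b | b
    · exact (u b).isUnit
    · exact (u b)⁻¹.isUnit
  · have hrange : Set.range (z ∘ e'.symm) = Set.range z := by
      rw [Set.range_comp, Set.range_eq_univ.mpr e'.symm.surjective, Set.image_univ]
    rw [hrange, eq_top_iff]
    set B := Algebra.adjoin R (Set.range z) with hB
    -- the image of `A` is contained in `B`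
    have h1 : ∀ a : A, ι a ∈ B := by
      have h2 : Algebra.adjoin R (s : Set A) ≤
          B.comap (IsScalarTower.toAlgHom R A (Localization.Away h)) := by
        rw [Algebra.adjoin_le_iff]
        intro b hb
        have hb' : b ∈ s := hb
        change ι b ∈ B
        have h3 : ι (b - ε b) ∈ B := Algebra.subset_adjoin ⟨Sum.inl ⟨b, hb'⟩, rfl⟩
        have h4 : ι (ε b) ∈ B := by
          by_cases hbp : b ∈ p
          · simp only [ε, if_pos hbp, map_one]
            exact B.one_mem
          · simp only [ε, if_neg hbp, map_zero]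
            exact B.zero_mem
        have h5 := B.add_mem h3 h4
        rwa [← map_add, sub_add_cancel] at h5
      intro a
      have h3 : a ∈ Algebra.adjoin R (s : Set A) := by
        rw [hs]
        trivial
      exact h2 h3
    intro w _
    obtain ⟨a, ⟨_, n, rfl⟩, hw⟩ := IsLocalization.exists_mk'_eq (Submonoid.powers h) w
    rw [← hw]
    have h2 : ((∏ b : s, u b : (Localization.Away h)ˣ) : Localization.Away h) = ι h := by
      rw [Units.coe_prod, map_prod, ← Finset.prod_coe_sort s]
      rfl
    have h3 : IsLocalization.mk' (Localization.Away h) a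
        (⟨h ^ n, n, rfl⟩ : Submonoid.powers h) =
        ι a * ((↑(∏ b : s, u b : (Localization.Away h)ˣ)⁻¹ : Localization.Away h)) ^ n := by
      rw [IsLocalization.mk'_eq_iff_eq_mul]
      change ι a = ι a * _ * ι (h ^ n)
      rw [map_pow, ← h2, mul_assoc, ← mul_pow, Units.inv_mul, one_pow, mul_one]
    have h4 : ((↑(∏ b : s, u b : (Localization.Away h)ˣ)⁻¹ : Localization.Away h)) ∈ B := by
      rw [← Finset.prod_inv_distrib, Units.coe_prod]
      exact B.prod_mem fun b _ => Algebra.subset_adjoin ⟨Sum.inr b, rfl⟩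
    have h5 := B.mul_mem (h1 a) (B.pow_mem h4 n)
    rw [← h3] at h5
    exact h5

theorem exists_chart_units {R : Type u} [CommRing R] {X : Scheme.{u}}
    (f : X ⟶ Spec (CommRingCat.of R)) [Smooth f] (x : X) :
    ∃ (A : Type u) (_ : CommRing A) (_ : Algebra R A) (n : ℕ)
      (_ : Algebra (MvPolynomial (Fin n) R) A) (_ : IsScalarTower R (MvPolynomial (Fin n) R) A)
      (_ : Algebra.IsStandardEtale (MvPolynomial (Fin n) R) A)
      (c : Spec (CommRingCat.of A) ⟶ X), IsOpenImmersion c ∧
        c ≫ f = Spec.map (CommRingCat.ofHom (algebraMap R A)) ∧ x ∈ Set.range c ∧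
        ∃ (m : ℕ) (y : Fin m → A), (∀ i, IsUnit (y i)) ∧ Algebra.adjoin R (Set.range y) = ⊤ := by
  obtain ⟨A, i1, i2, n, i3, i4, i5, c, hc, hcf, q, hq⟩ := exists_chart f x
  have hft : Algebra.FiniteType R A :=
    Algebra.FiniteType.trans (S := MvPolynomial (Fin n) R) inferInstance inferInstance
  obtain ⟨h, hh, m, y, hy, hy2⟩ := unit_cover (R := R) (A := A) q.asIdeal
  have hst : Algebra.IsStandardEtale (MvPolynomial (Fin n) R) (Localization.Away h) :=
    Algebra.IsStandardEtale.of_isLocalizationAway h
  refine ⟨Localization.Away h, inferInstance, inferInstance, n, inferInstance, inferInstance,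
    hst, Spec.map (CommRingCat.ofHom (algebraMap A (Localization.Away h))) ≫ c,
    inferInstance, ?_, ?_, m, y, hy, hy2⟩
  · rw [Category.assoc, hcf, ← Spec.map_comp, ← CommRingCat.ofHom_comp,
      ← IsScalarTower.algebraMap_eq]
  · have h1 : q ∈ Set.range (PrimeSpectrum.comap (algebraMap A (Localization.Away h))) := by
      rw [PrimeSpectrum.localization_away_comap_range _ h]
      exact hh
    obtain ⟨q', hq'⟩ := h1
    refine ⟨q', ?_⟩
    rw [Scheme.Hom.comp_apply]
    have h2 : (Spec.map (CommRingCat.ofHom (algebraMap A (Localization.Away h)))) q' = q := hq'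
    rw [h2, hq]

end KTS
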