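import Pool.Agent.KTS.SR1
import Pool.Agent.KTS.SR6
import Pool.Agent.KTS.SR10
import Pool.Agent.KTS.SR12
import Pool.Agent.KTS.SR13
import Pool.Agent.KTS.Chart
import Pool.Agent.TD.Final
import Pool.Agent.TD.SP8

/-!
[KTS-AG] The chart theorem implies that rationality specialises.
-/

set_option autoImplicit false

namespace KTS

open AlgebraicGeometry CategoryTheory Limits
open Pool.Agent.TORE
open scoped TensorProduct Cardinal

universe u

/-- A standard etale chart of relative dimension `d`, and its coordinate ring inside the field `F`. -/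
structure ChX {R : Type u} [CommRing R] {X : Scheme.{u}} (f : X ⟶ Spec (CommRingCat.of R))
    (L F : Type u) [Field L] [Algebra R L] [Field F] [Algebra L F] [Algebra R F]
    [IsScalarTower R L F] (q : Spec (CommRingCat.of F) ⟶ X) (d : ℕ) where
  /-- the coordinate ring -/
  A : Type u
  [cr : CommRing A]
  [alg : Algebra R A]
  [algP : Algebra (MvPolynomial (Fin d) R) A]
  [tow : IsScalarTower R (MvPolynomial (Fin d) R) A]
  [std : Algebra.IsStandardEtale (MvPolynomial (Fin d) R) A]
  /-- the open immersion -/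
  c : Spec (CommRingCat.of A) ⟶ X
  [oi : IsOpenImmersion c]
  hc : c ≫ f = Spec.map (CommRingCat.ofHom (algebraMap R A))
  /-- the coordinate ring in the function field -/
  j : A →ₐ[R] F
  hj : FracData (F := L) j
  hjc : Spec.map (CommRingCat.ofHom j.toRingHom) ≫ c = q

attribute [instance] ChX.cr ChX.alg ChX.algP ChX.tow ChX.std ChX.oi

section

variable {R L : Type u} [CommRing R] [IsDomain R] [Field L] [Algebra R L] {X : Scheme.{u}}

theorem exists_ChX (hi : Function.Injective (algebraMap R L)) (f : X ⟶ Spec (CommRingCat.of R))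
    [Smooth f] [IsIntegral (fib f (algebraMap R L))] (d : ℕ)
    (e : RatFun L d ≃+* (fib f (algebraMap R L)).functionField)
    (he : (fib f (algebraMap R L)).fromSpecStalk (genericPoint _) ≫ fibHom f (algebraMap R L) =
      Spec.map (CommRingCat.ofHom (e.toRingHom.comp (algebraMap L (RatFun L d))))) (x : X) :
    ∃ D : ChX f L (RatFun L d) (Spec.map (CommRingCat.ofHom e.symm.toRingHom) ≫
      (fib f (algebraMap R L)).fromSpecStalk (genericPoint _) ≫ fibProj f (algebraMap R L)) d,
      x ∈ Set.range D.c := by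
  obtain ⟨A, i1, i2, n, i3, i4, i5, c, hc, hcf, hx, -⟩ := exists_chart_units f x
  have hnt : Nontrivial A := by
    obtain ⟨y, -⟩ := hx
    have h1 : Nonempty (PrimeSpectrum A) := ⟨y⟩
    exact PrimeSpectrum.nonempty_iff_nontrivial.mp h1
  obtain ⟨j, hj, hjc⟩ := chart_frac hi f e he c hcf
  have h1 : Algebra.trdeg L (RatFun L d) = n :=
    trdeg_of_alg (chart_algInd j hj) (fun x => chart_alg j hj x)
  rw [trdeg_rat] at h1
  have h2 : d = n := by exact_mod_cast h1
  subst h2
  exact ⟨{ A := A, c := c, hc := hcf, j := j, hj := hj, hjc := hjc }, hx⟩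

end

section

variable {R K Ω : Type u} [CommRing R] [Field K] [Field Ω] [Algebra K Ω]
  [Algebra R (HahnSeries ℚ K)] {X : Scheme.{u}} {f : X ⟶ Spec (CommRingCat.of R)} {F : Type u}
  [Field F] [Algebra (HahnSeries ℚ K) F] [Algebra R F] [IsScalarTower R (HahnSeries ℚ K) F]
  {q : Spec (CommRingCat.of F) ⟶ X} {d : ℕ}

/-- The homomorphism to the valuation ring. -/
noncomputable def toOU (Ω : Type u) [Field Ω] [Algebra K Ω]
    (h0 : ∀ r : R, 0 ≤ (algebraMap R (HahnSeries ℚ K) r).orderTop) : R →+* OU Ω :=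
  ((algebraMap (HahnSeries ℚ K) (HahnSeries ℚ Ω)).comp
    (algebraMap R (HahnSeries ℚ K))).codRestrict (OU Ω) (fun r => by
      change 0 ≤ (algebraMap (HahnSeries ℚ K) (HahnSeries ℚ Ω)
        (algebraMap R (HahnSeries ℚ K) r)).orderTop
      rw [orderTop_algebraMap]
      exact h0 r)

/-- The restriction of an integral point to the coordinate ring. -/
noncomputable def toA {A : Type u} [CommRing A] [Algebra R A] (j : A →ₐ[R] F) (w : Pt K Ω F)
    (hw : ∀ a, w (j a) ∈ OU Ω) : A →+* OU Ω :=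
  ((w : F →+* HahnSeries ℚ Ω).comp (j : A →+* F)).codRestrict (OU Ω) hw

theorem closed_res (Ω : Type u) [Field Ω] :
    (Spec.map (CommRingCat.ofHom (resU Ω))) (IsLocalRing.closedPoint Ω) =
      IsLocalRing.closedPoint (OU Ω) := by
  have h1 : (PrimeSpectrum.comap (resU Ω)) (IsLocalRing.closedPoint Ω) =
      IsLocalRing.closedPoint (OU Ω) := by
    apply PrimeSpectrum.ext
    ext x
    have h2 : x ∈ ((PrimeSpectrum.comap (resU Ω)) (IsLocalRing.closedPoint Ω)).asIdeal ↔
      resU Ω x ∈ IsLocalRing.maximalIdeal Ω := Iff.rfl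
    have h3 : x ∈ (IsLocalRing.closedPoint (OU Ω)).asIdeal ↔
      x ∈ IsLocalRing.maximalIdeal (OU Ω) := Iff.rfl
    rw [h2, h3, ← resU_ker, IsLocalRing.maximalIdeal_eq_bot, Ideal.mem_bot]
  exact h1

/-- The specialisation of a point of the generic fibre. -/
structure IsSpz (f : X ⟶ Spec (CommRingCat.of R)) (q : Spec (CommRingCat.of F) ⟶ X)
    (h0 : ∀ r : R, 0 ≤ (algebraMap R (HahnSeries ℚ K) r).orderTop) (w : Pt K Ω F)
    (t : Spec (CommRingCat.of (OU Ω)) ⟶ X) : Prop where
  gen : Spec.map (CommRingCat.ofHom (OU Ω).subtype) ≫ t =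
    Spec.map (CommRingCat.ofHom (w : F →+* HahnSeries ℚ Ω)) ≫ q
  base : t ≫ f = Spec.map (CommRingCat.ofHom (toOU Ω h0))

theorem exists_spz [IsProper f] (hq : q ≫ f = Spec.map (CommRingCat.ofHom (algebraMap R F)))
    (h0 : ∀ r : R, 0 ≤ (algebraMap R (HahnSeries ℚ K) r).orderTop) (w : Pt K Ω F) :
    ∃! t, IsSpz f q h0 w t := by
  obtain ⟨t, ⟨ht1, ht2⟩, hu⟩ := val_lift f (OU Ω) (toOU Ω h0)
    (Spec.map (CommRingCat.ofHom (w : F →+* HahnSeries ℚ Ω)) ≫ q) (by
      rw [Category.assoc, hq, ← Spec.map_comp]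
      congr 1
      apply CommRingCat.hom_ext
      apply RingHom.ext
      intro r
      change w (algebraMap R F r) = algebraMap (HahnSeries ℚ K) (HahnSeries ℚ Ω)
        (algebraMap R (HahnSeries ℚ K) r)
      rw [IsScalarTower.algebraMap_apply R (HahnSeries ℚ K) F, AlgHom.commutes])
  exact ⟨t, ⟨ht1, ht2⟩, fun t' ht' => hu t' ⟨ht'.gen, ht'.base⟩⟩

/-- Points which are integral on the chart specialise in the chart. -/
theorem ChX.spz_of_mem (D : ChX f (HahnSeries ℚ K) F q d)
    (h0 : ∀ r : R, 0 ≤ (algebraMap R (HahnSeries ℚ K) r).orderTop) (w : Pt K Ω F)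
    (hw : ∀ a, w (D.j a) ∈ OU Ω) :
    IsSpz f q h0 w (Spec.map (CommRingCat.ofHom (toA D.j w hw)) ≫ D.c) := by
  constructor
  · refine Eq.trans ?_ (congrArg
      (fun s => Spec.map (CommRingCat.ofHom (w : F →+* HahnSeries ℚ Ω)) ≫ s) D.hjc)
    rw [← Category.assoc, ← Category.assoc, ← Spec.map_comp, ← Spec.map_comp]
    rfl
  · rw [Category.assoc, D.hc, ← Spec.map_comp]
    congr 1
    apply CommRingCat.hom_ext
    apply RingHom.ext
    intro r
    apply Subtype.ext
    change w (D.j (algebraMap R D.A r)) = algebraMap (HahnSeries ℚ K) (HahnSeries ℚ Ω)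
        (algebraMap R (HahnSeries ℚ K) r)
    rw [AlgHom.commutes, IsScalarTower.algebraMap_apply R (HahnSeries ℚ K) F, AlgHom.commutes]

/-- Points which specialise in the chart are integral on it. -/
theorem ChX.mem_of_spz (D : ChX f (HahnSeries ℚ K) F q d)
    (h0 : ∀ r : R, 0 ≤ (algebraMap R (HahnSeries ℚ K) r).orderTop) (w : Pt K Ω F)
    {t : Spec (CommRingCat.of (OU Ω)) ⟶ X} (ht : IsSpz f q h0 w t)
    (hr : t (IsLocalRing.closedPoint (OU Ω)) ∈ Set.range D.c) (a : D.A) : w (D.j a) ∈ OU Ω := by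
  obtain ⟨g, rfl⟩ := factor_chart D.c t hr
  have h1 : Spec.map (CommRingCat.ofHom ((OU Ω).subtype.comp g)) ≫ D.c =
      Spec.map (CommRingCat.ofHom ((w : F →+* HahnSeries ℚ Ω).comp D.j.toRingHom)) ≫ D.c := by
    have h2 := ht.gen.trans (congrArg
      (fun s => Spec.map (CommRingCat.ofHom (w : F →+* HahnSeries ℚ Ω)) ≫ s) D.hjc).symm
    rw [← Category.assoc, ← Category.assoc, ← Spec.map_comp, ← Spec.map_comp] at h2
    exact h2
  rw [cancel_mono] at h1
  have h3 := Spec.map_injective h1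
  have h4 : ((g a : OU Ω) : HahnSeries ℚ Ω) = w (D.j a) := congrArg (fun g => g.hom a) h3
  rw [← h4]
  exact (g a).2

/-- The residue of a point. -/
theorem ChX.pt (D : ChX f (HahnSeries ℚ K) F q d) (w : Pt K Ω F)
    (hw : ∀ a, w (D.j a) ∈ OU Ω) :
    (Spec.map (CommRingCat.ofHom (toA D.j w hw)) ≫ D.c) (IsLocalRing.closedPoint (OU Ω)) =
      (Spec.map (CommRingCat.ofHom ((resU Ω).comp (toA D.j w hw))) ≫ D.c)
        (IsLocalRing.closedPoint Ω) := by
  rw [CommRingCat.ofHom_comp, Spec.map_comp, Category.assoc, Scheme.Hom.comp_apply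
    (Spec.map (CommRingCat.ofHom (resU Ω))), closed_res]

end

/-- The main reduction. -/
theorem bridge : TOD.RationalitySpecializes.{u} := by
  intro R K _ _ _ _ _ _ _ _ hs X f _ hproj hrat
  have hproper : IsProper f := hproj.isProper
  obtain ⟨ι, hι1, hι2, hι3, -⟩ := exists_embed R K hs
  let L := HahnSeries ℚ K
  let algRL : Algebra R L := ι.toAlgebra
  have hi : Function.Injective (algebraMap R L) := hι1
  have h0 : ∀ r : R, 0 ≤ (algebraMap R L r).orderTop := hι2
  have hres : ∀ r : R, (algebraMap R L r).coeff 0 = algebraMap R K r := hι3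
  have hLalg : IsAlgClosed L := hahn_isAlgClosed
  -- the generic fibre
  have hgen : TOD.IsRational (fibHom f (algebraMap R L)) := by
    apply hrat L
    intro x
    apply PrimeSpectrum.ext
    have h1 : ((Spec.map (CommRingCat.ofHom (algebraMap R L))) x : PrimeSpectrum R) =
      PrimeSpectrum.comap (algebraMap R L) x := rfl
    rw [h1]
    have h2 : (x : PrimeSpectrum L).asIdeal = ⊥ := by
      have h3 := (x : PrimeSpectrum L).isPrime
      exact (Ideal.eq_bot_or_top _).resolve_right h3.ne_top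
    change Ideal.comap (algebraMap R L) (x : PrimeSpectrum L).asIdeal = ⊥
    rw [h2]
    exact (RingHom.injective_iff_ker_eq_bot _).mp hi
  obtain ⟨hint, d, e, he⟩ := rational_pure (fibHom f (algebraMap R L)) hgen
  let F := RatFun L d
  let q : Spec (CommRingCat.of F) ⟶ X := Spec.map (CommRingCat.ofHom e.symm.toRingHom) ≫
      (fib f (algebraMap R L)).fromSpecStalk (genericPoint _) ≫ fibProj f (algebraMap R L)
  -- the big field
  obtain ⟨Ω, _, _, _, _, hΩ⟩ := exists_big K
  have hUalg : IsAlgClosed (HahnSeries ℚ Ω) := hahn_isAlgClosed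
  -- finitely many charts
  have hcpt : CompactSpace X := by
    have h1 : QuasiCompact f := inferInstance
    exact (quasiCompact_iff_compactSpace (f := f)).mp h1
  have hch : ∀ x : X, ∃ D : ChX f L F q d, x ∈ Set.range D.c :=
    fun x => exists_ChX hi f d e he x
  choose D₀ hD₀ using hch
  obtain ⟨s, hsc⟩ := isCompact_univ.elim_finite_subcover (fun x : X => Set.range (D₀ x).c)
    (fun x => (D₀ x).c.isOpenEmbedding.isOpen_range)
    (fun x _ => Set.mem_iUnion.mpr ⟨x, hD₀ x⟩)
  let m := s.card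
  let es : Fin m ≃ s := s.equivFin.symm
  let D : Fin m → ChX f L F q d := fun i => D₀ (es i)
  have hD : ∀ x : X, ∃ i, x ∈ Set.range (D i).c := by
    intro x
    obtain ⟨y, hy, hxy⟩ := Set.mem_iUnion₂.mp (hsc (Set.mem_univ x))
    refine ⟨es.symm ⟨y, hy⟩, ?_⟩
    change x ∈ Set.range (D₀ (es (es.symm ⟨y, hy⟩))).c
    rw [Equiv.apply_symm_apply]
    exact hxy
  have hm : Nonempty (Fin m) ∨ IsEmpty X := by
    by_cases h : Nonempty X
    · obtain ⟨x⟩ := h
      obtain ⟨i, -⟩ := hD x
      exact Or.inl ⟨i⟩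
    · exact Or.inr (not_nonempty_iff.mp h)
  have hq : q ≫ f = Spec.map (CommRingCat.ofHom (algebraMap R F)) := by
    have h1 : fibProj f (algebraMap R L) ≫ f = fibHom f (algebraMap R L) ≫
      Spec.map (CommRingCat.ofHom (algebraMap R L)) := pullback.condition
    simp only [q, Category.assoc, h1]
    rw [← Category.assoc ((fib f (algebraMap R L)).fromSpecStalk _), he, ← Spec.map_comp,
      ← Spec.map_comp]
    congr 1
    apply CommRingCat.hom_ext
    apply RingHom.ext
    intro r
    change e.symm (e (algebraMap L F (algebraMap R L r))) = algebraMap R F r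
    rw [RingEquiv.symm_apply_apply, ← IsScalarTower.algebraMap_apply]
  -- the subalgebras
  let C : Fin m → Subalgebra R F := fun i => (D i).j.range
  let z : Fin m → Fin d → F := fun i l => (D i).j (crd R (D i).A d l)
  have hXX : ∀ i (w : Pt K Ω F), w ∈ XX Ω (C i) ↔ ∀ a, w ((D i).j a) ∈ OU Ω := by
    intro i w
    constructor
    · intro h a
      exact h _ ⟨a, rfl⟩
    · rintro h _ ⟨a, rfl⟩
      exact h a
  have hC : ∀ i, Chart Ω (algebraMap R L) d (C i) (z i) := by
    intro i
    refine ⟨?_, ?_, ?_, ?_, ?_, ?_, ?_⟩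
    · have h1 : Algebra.FiniteType R (D i).A :=
        Algebra.FiniteType.trans (S := MvPolynomial (Fin d) R) inferInstance inferInstance
      have h2 := h1.out.map (D i).j
      rwa [Algebra.map_top] at h2
    · intro l
      exact ⟨_, rfl⟩
    · exact chart_algInd (D i).j (D i).hj
    · exact fun x => chart_alg (D i).j (D i).hj x
    · rw [eq_top_iff]
      intro x _
      apply chart_gen (L := L) (D i).j (D i).hj
      intro a
      exact IntermediateField.subset_adjoin L _ ⟨a, rfl⟩
    · intro ξ hξ u hu hu0 hur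
      let ρ : (D i).A →+* C i := ((D i).j.rangeRestrict : (D i).A →ₐ[R] (D i).j.range).toRingHom
      obtain ⟨w, hw1, hw2⟩ := chart_lift_ex (D i).j (D i).hj h0 (ξ.comp ρ) (fun r => by
        have h1 : ρ (algebraMap R (D i).A r) = algebraMap R (C i) r :=
          (D i).j.rangeRestrict.commutes r
        rw [RingHom.comp_apply, h1, hξ]) u hu hu0 (fun l => by
          rw [hur]
          rfl)
      refine ⟨w, hw1, ?_⟩
      rintro ⟨_, a, rfl⟩
      exact ⟨(hw2 a).1, (hw2 a).2⟩
    · intro φ hφ ψ hψ h1 h2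
      exact chart_lift_uniq (D i).j (D i).hj φ ψ h1 ((hXX i φ).mp hφ) ((hXX i ψ).mp hψ)
        (fun a => h2 _ ⟨a, rfl⟩)
  -- specialisations
  have hspz : ∀ w : Pt K Ω F, ∃! t, IsSpz f q h0 w t := fun w => exists_spz hq h0 w
  choose T hT using hspz
  have hTT : ∀ w, IsSpz f q h0 w (T w) := fun w => (hT w).1
  have hTu : ∀ w t, IsSpz f q h0 w t → t = T w := fun w t ht => (hT w).2 t ht
  have hTD : ∀ i (w : Pt K Ω F) (hw : ∀ a, w ((D i).j a) ∈ OU Ω),
      T w = Spec.map (CommRingCat.ofHom (toA (D i).j w hw)) ≫ (D i).c := by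
    intro i w hw
    exact (hTu w _ ((D i).spz_of_mem h0 w hw)).symm
  have hiff : ∀ i (w : Pt K Ω F), w ∈ XX Ω (C i) ↔
      T w (IsLocalRing.closedPoint (OU Ω)) ∈ Set.range (D i).c := by
    intro i w
    rw [hXX]
    constructor
    · intro hw
      rw [hTD i w hw, Scheme.Hom.comp_apply]
      exact ⟨_, rfl⟩
    · intro hr a
      exact (D i).mem_of_spz h0 w (hTT w) hr a
  have cov : ∀ w : Pt K Ω F, ∃ i, w ∈ XX Ω (C i) := by
    intro w
    obtain ⟨i, hi⟩ := hD (T w (IsLocalRing.closedPoint (OU Ω)))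
    exact ⟨i, (hiff i w).mpr hi⟩
  have hTpt : ∀ i (w : Pt K Ω F) (hw : ∀ a, w ((D i).j a) ∈ OU Ω),
      T w (IsLocalRing.closedPoint (OU Ω)) =
        (Spec.map (CommRingCat.ofHom ((resU Ω).comp (toA (D i).j w hw))) ≫ (D i).c)
        (IsLocalRing.closedPoint Ω) := by
    intro i w hw
    rw [hTD i w hw]
    exact (D i).pt w hw
  have sep : ∀ (i i' : Fin m) (φ ψ : Pt K Ω F), φ ∈ XX Ω (C i) → ψ ∈ XX Ω (C i) →
      (∀ c ∈ C i, rd φ c = rd ψ c) → φ ∈ XX Ω (C i') → ψ ∈ XX Ω (C i') := by
    intro i i' φ ψ hφ hψ h1 h2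
    rw [hiff] at h2 ⊢
    have hφ' := (hXX i φ).mp hφ
    have hψ' := (hXX i ψ).mp hψ
    have h3 : (resU Ω).comp (toA (D i).j φ hφ') = (resU Ω).comp (toA (D i).j ψ hψ') := by
      apply RingHom.ext
      intro a
      exact h1 _ ⟨a, rfl⟩
    rw [hTpt i ψ hψ', ← h3, ← hTpt i φ hφ']
    exact h2
  obtain ⟨J, φ, hφ, hφmin, ⟨w₀, hw₀, hrf⟩, huniq⟩ := chart_thm hΩ (algebraMap R L) h0
    (fun r => by rw [← IsScalarTower.algebraMap_apply]) (ratX L d) (ratX_ind L d) (ratX_top L d)
    C z hC cov sep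
  -- the residue homomorphisms
  have hφ' := (hXX J φ).mp hφ
  let ξ₀ : (D J).A →+* Ω := (resU Ω).comp (toA (D J).j φ hφ')
  have hrange : ∀ i (w : Pt K Ω F) (ξ : (D i).A →+* Ω), (∀ a, rd w ((D i).j a) = ξ a) →
      rf (C i) w = IntermediateField.adjoin K (Set.range ξ) := by
    intro i w ξ h1
    unfold rf
    congr 1
    ext y
    constructor
    · rintro ⟨_, ⟨a, rfl⟩, rfl⟩
      exact ⟨a, (h1 a).symm⟩
    · rintro ⟨a, rfl⟩
      exact ⟨_, ⟨a, rfl⟩, h1 a⟩
  have hξ₀R : ξ₀.comp (algebraMap R (D J).A) = (algebraMap K Ω).comp (algebraMap R K) := by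
    apply RingHom.ext
    intro r
    change (φ ((D J).j (algebraMap R (D J).A r))).coeff 0 = algebraMap K Ω (algebraMap R K r)
    rw [AlgHom.commutes, IsScalarTower.algebraMap_apply R L F, AlgHom.commutes, ← hres]
    rfl
  obtain ⟨η, hη⟩ := SpAt.exists (K := K) f (D J).c (D J).hc hξ₀R
  obtain ⟨e₁, he₁⟩ := hη.residue f (D J).c (D J).hc
  have hEq : IntermediateField.adjoin K (Set.range w₀) =
      IntermediateField.adjoin K (Set.range ξ₀) := by
    rw [← hrange J φ ξ₀ (fun a => rfl), hrf]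
    rfl
  let e₂ : RatFun K d ≃ₐ[K] IntermediateField.adjoin K (Set.range ξ₀) :=
    (hw₀.aevalEquivField).trans (IntermediateField.equivOfEq hEq)
  have hrat' : RatOver (fibHom f (algebraMap R K)) := by
    apply ratOver_of_unique (fibHom f (algebraMap R K)) η ?_ d
      (e₂.toRingEquiv.trans e₁) ?_
    · intro ζ hmax
      -- the first chart containing `ζ`
      obtain ⟨I, hI, hImin⟩ : ∃ I, fibProj f (algebraMap R K) ζ ∈ Set.range (D I).c ∧
          ∀ i < I, fibProj f (algebraMap R K) ζ ∉ Set.range (D i).c := by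
        let S : Set (Fin m) := {i | fibProj f (algebraMap R K) ζ ∈ Set.range (D i).c}
        have hS : S.Nonempty := hD _
        refine ⟨wellFounded_lt.min S hS, wellFounded_lt.min_mem S hS, ?_⟩
        intro i hi hi'
        exact wellFounded_lt.not_lt_min S hi' hi
      have hft : Algebra.FiniteType R (D I).A :=
        Algebra.FiniteType.trans (S := MvPolynomial (Fin d) R) inferInstance inferInstance
      obtain ⟨ξ, hξ⟩ := exists_sp (Ω := Ω) f (D I).c hΩ (D I).hc ζ hI
      have hξR := hξ.compat f (D I).c (D I).hc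
      have hξind := hξ.algInd (n := d) f (D I).c (D I).hc hmax
      let u : Fin d → HahnSeries ℚ Ω := fun l => HahnSeries.C (ξ (crd R (D I).A d l))
      have hu1 : ∀ l, (u l).coeff 0 = ξ (crd R (D I).A d l) := fun l =>
        HahnSeries.coeff_single_same 0 _
      have hu0 : ∀ l, u l ∈ Oint Ω := fun l => C_mem_Oint _
      have hu : AlgebraicIndependent L u := by
        apply algInd_of_res hu0
        have h1 : (fun l => (u l).coeff 0) = fun l => ξ (crd R (D I).A d l) := funext hu1
        rw [h1]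
        exact hξind
      obtain ⟨w, hw1, hw2⟩ := chart_lift_ex (D I).j (D I).hj h0 ξ (fun r => by
        rw [hξR, hres]) u hu hu0 hu1
      have hwO : ∀ a, w ((D I).j a) ∈ OU Ω := fun a => (hw2 a).1
      have hwI : w ∈ XX Ω (C I) := (hXX I w).mpr hwO
      have hTw : T w (IsLocalRing.closedPoint (OU Ω)) = fibProj f (algebraMap R K) ζ := by
        rw [hTpt I w hwO, hξ.proj]
        have h1 : (resU Ω).comp (toA (D I).j w hwO) = ξ := by
          apply RingHom.ext
          intro a
          exact (hw2 a).2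
        rw [h1]
      have hwmin : ∀ i < I, w ∉ XX Ω (C i) := by
        intro i hi hwi
        rw [hiff, hTw] at hwi
        exact hImin i hi hwi
      have htd : Algebra.trdeg K (rf (C I) w) = d := by
        rw [hrange I w ξ (fun a => (hw2 a).2)]
        exact trdeg_xi (n := d) ξ hξR hξind
      obtain ⟨hIJ, σ, hσ⟩ := huniq I w hwI hwmin htd
      subst hIJ
      have hξσ : ξ = ((σ : Ω →ₐ[K] Ω) : Ω →+* Ω).comp ξ₀ := by
        apply RingHom.ext
        intro a
        have h1 := hσ ((D I).j a) ⟨a, rfl⟩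
        have h2 : rd w ((D I).j a) = ξ a := (hw2 a).2
        rw [h2] at h1
        exact h1
      have h3 := hη.aut f (D I).c (σ : Ω →ₐ[K] Ω)
      rw [← hξσ] at h3
      exact hξ.unique f (D I).c h3
    · rw [he₁]
      congr 2
      apply RingHom.ext
      intro x
      change e₁ (algebraMap K _ x) = e₁ (e₂ (algebraMap K (RatFun K d) x))
      rw [AlgEquiv.commutes]
  exact isRational_of_ratOver _ hrat'

end KTS
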