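import Mathlib

/-!
[KTS] Specialisation of rationality (MP_e511d7_ag).  Base definitions on Hahn series and Chow forms.
`HahnSeries ℚ Ω` is the big valued field `LL`, `HahnSeries ℚ k` is `L`.
-/

namespace KTS

noncomputable section

universe u v

open MvPolynomial

/-- Coefficientwise ring homomorphism of Hahn series. -/
def hmap {R S : Type*} [CommRing R] [CommRing S] (f : R →+* S) :
    HahnSeries ℚ R →+* HahnSeries ℚ S where
  toFun x := x.map f
  map_one' := by
    have h := HahnSeries.map_one (Γ := ℚ) (f.toMonoidWithZeroHom)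
    exact h
  map_mul' x y := HahnSeries.map_mul (f : R →ₙ+* S)
  map_zero' := by
    ext q
    simp
  map_add' x y := HahnSeries.map_add (f : R →+ S)

@[simp] theorem hmap_coeff {R S : Type*} [CommRing R] [CommRing S] (f : R →+* S)
    (x : HahnSeries ℚ R) (q : ℚ) : (hmap f x).coeff q = f (x.coeff q) := rfl

/-- `HahnSeries ℚ S` as an algebra over `HahnSeries ℚ R` (coefficientwise). Low priority: never used
when `R = S` (then `Algebra.id` is found first). -/
instance (priority := 50) hahnAlgebra (R S : Type*) [CommRing R] [CommRing S] [Algebra R S] :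
    Algebra (HahnSeries ℚ R) (HahnSeries ℚ S) :=
  (hmap (algebraMap R S)).toAlgebra

theorem algebraMap_hahn (R S : Type*) [CommRing R] [CommRing S] [Algebra R S]
    (x : HahnSeries ℚ R) : @algebraMap _ _ _ _ (hahnAlgebra R S) x = hmap (algebraMap R S) x := rfl

/-- Coefficientwise algebra homomorphism of Hahn series. -/
def hmapA {k Ω Ω' : Type*} [CommRing k] [CommRing Ω] [CommRing Ω'] [Algebra k Ω] [Algebra k Ω']
    (f : Ω →ₐ[k] Ω') : HahnSeries ℚ Ω →ₐ[HahnSeries ℚ k] HahnSeries ℚ Ω' where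
  toRingHom := hmap (f : Ω →+* Ω')
  commutes' x := by
    ext q
    simp [algebraMap_hahn]

@[simp] theorem hmapA_coeff {k Ω Ω' : Type*} [CommRing k] [CommRing Ω] [CommRing Ω'] [Algebra k Ω]
    [Algebra k Ω'] (f : Ω →ₐ[k] Ω') (x : HahnSeries ℚ Ω) (q : ℚ) :
    (hmapA f x).coeff q = f (x.coeff q) := rfl

/-- The pair (leading coefficient, order). -/
def rv {Ω : Type*} [Zero Ω] (x : HahnSeries ℚ Ω) : Ω × ℚ := (x.leadingCoeff, x.order)

/-! ## Chow forms -/

/-- The linear form `Y_o + ∑_j g_j Y_j`. -/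
def linf {R : Type*} [CommRing R] {τ : Type*} [Fintype τ] (g : τ → R) :
    MvPolynomial (Option τ) R :=
  X none + ∑ j, C (g j) * X (some j)

variable {Ω : Type*} [Field Ω] {τ : Type*} [Fintype τ]

/-- `Y_o ↦ Y_o`, `Y_j ↦ t^{-γ_j} Y_j`. -/
def toHahn (γ : τ → ℚ) :
    MvPolynomial (Option τ) (HahnSeries ℚ Ω) →+* HahnSeries ℚ (MvPolynomial (Option τ) Ω) :=
  MvPolynomial.eval₂Hom (hmap (C : Ω →+* MvPolynomial (Option τ) Ω))
    (fun o => HahnSeries.single (Option.elim o (0 : ℚ) (fun j => - γ j)) (X o))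

/-- Initial form with respect to the weights `γ`. -/
def ini (γ : τ → ℚ) (Ψ : MvPolynomial (Option τ) (HahnSeries ℚ Ω)) : MvPolynomial (Option τ) Ω :=
  (toHahn γ Ψ).leadingCoeff

/-- Substitution `Y_o ↦ - ∑ ξ_j Y_j`. -/
def subs (ξ : τ → Ω) : MvPolynomial (Option τ) Ω →+* MvPolynomial τ Ω :=
  MvPolynomial.eval₂Hom C (fun o => Option.elim o (- ∑ j, C (ξ j) * X j) (fun j => X j))

/-- The value of the monomial `m` of `Ψ` with respect to the weights `γ`. -/
def mval (γ : τ → ℚ) (Ψ : MvPolynomial (Option τ) (HahnSeries ℚ Ω)) (m : Option τ →₀ ℕ) : ℚ :=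
  (Ψ.coeff m).order - ∑ j, (m (some j) : ℚ) * γ j

end

end KTS
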