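import Pool.Agent.KTS.Base

/-!
[KTS-CH1] Existence of the Chow (norm) form of a finite set in a finite extension.
-/

namespace KTS

noncomputable section

universe u

open MvPolynomial

/-- The set of extensions of an embedding to a finite extension is finite and non-empty.
Proof. `letI := φ.toAlgebra`; ring homs `ψ : N →+* K` with `ψ.comp (algebraMap F' N) = φ` are the same as
`N →ₐ[F'] K`, which is a `Fintype` for finite dimensional `N` (`minpoly.AlgHom.fintype`), non-empty by
`IsAlgClosed.lift`. -/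
theorem ext_finite (F' N : Type u) [Field F'] [Field N] [Algebra F' N] [FiniteDimensional F' N]
    (K : Type u) [Field K] [IsAlgClosed K] (φ : F' →+* K) :
    {ψ : N →+* K | ψ.comp (algebraMap F' N) = φ}.Finite ∧
      {ψ : N →+* K | ψ.comp (algebraMap F' N) = φ}.Nonempty := by
  let _ := φ.toAlgebra
  have hr : {ψ : N →+* K | ψ.comp (algebraMap F' N) = φ} =
      Set.range (fun σ : N →ₐ[F'] K => (σ : N →+* K)) := by
    ext ψ
    constructor
    · intro h
      exact ⟨{ ψ with commutes' := fun r => RingHom.congr_fun h r }, rfl⟩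
    · rintro ⟨σ, rfl⟩
      ext r
      exact σ.commutes r
  rw [hr]
  exact ⟨Set.finite_range _, Set.range_nonempty_iff_nonempty.mpr ⟨IsAlgClosed.lift⟩⟩

theorem ch1_map_linf {R R' : Type*} [CommRing R] [CommRing R'] {τ : Type*} [Fintype τ]
    (f : R →+* R') (g : τ → R) : MvPolynomial.map f (linf g) = linf fun j => f (g j) := by
  simp [linf]

/-- The norm form `∏_σ (Y_o + ∑ σ(s) Y_s)` has coefficients in `F'`.

Proof. `K₀ := AlgebraicClosure F'` (lives in `Type u`), `Φ₀ := ∏ σ : N →ₐ[F'] K₀, linf (fun s => σ s)` in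
`MvPolynomial (Option S) K₀`. For `τ : K₀ ≃ₐ[F'] K₀`, `map τ Φ₀ = Φ₀` (the `τ ∘ σ` are a permutation of the
`σ`), so every coefficient of `Φ₀` is fixed by all `τ`, hence lies in the range of `algebraMap F' K₀` (characteristic
zero: `K₀ / F'` is Galois; `IsGalois.mem_bot_iff_fixed` or `InfiniteGalois`..., e.g. via
`IntermediateField.mem_bot`/`IsGalois` instance of `AlgebraicClosure` over a perfect field). So
`Φ₀ = map (algebraMap F' K₀) Φ` for some `Φ` (`MvPolynomial.mem_range_map_iff_coeffs_subset` or build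
`Φ` by coefficients). Let now `φ : F' →+* K`. `letI := φ.toAlgebra`; `j : K₀ →ₐ[F'] K := IsAlgClosed.lift`.
`map φ Φ = map j (map (algebraMap F' K₀) Φ) = map j Φ₀ = ∏ σ, linf (fun s => j (σ s))`, and `σ ↦ j.comp σ`
is a bijection from `N →ₐ[F'] K₀` onto `N →ₐ[F'] K` (injective since `j` is; surjective: the image of an
algebraic element over `F'` lies in the range of `j`, e.g. cardinalities: both sides have
`finrank F' N` elements, `AlgHom.card_of_splits` / `AlgHom.card` for separable extensions into an algebraically closed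
field), i.e. onto the set in the statement. `finprod_mem_eq_finite_toFinset_prod` /
`finprod_mem_coe_finset` to pass from `∏ᶠ` to `∏`. -/
theorem exists_nform (F' N : Type u) [Field F'] [Field N] [Algebra F' N] [FiniteDimensional F' N]
    [CharZero F'] (S : Finset N) :
    ∃ Φ : MvPolynomial (Option S) F', ∀ (K : Type u) [Field K] [IsAlgClosed K] (φ : F' →+* K),
      MvPolynomial.map φ Φ =
        ∏ᶠ ψ ∈ {ψ : N →+* K | ψ.comp (algebraMap F' N) = φ}, linf (fun s : S => ψ s) := by
  classical
  let K₀ := AlgebraicClosure F'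
  let Φ₀ : MvPolynomial (Option S) K₀ := ∏ σ : N →ₐ[F'] K₀, linf (fun s : S => σ (s : N))
  have hfix : ∀ τ : K₀ ≃ₐ[F'] K₀, MvPolynomial.map (τ : K₀ →+* K₀) Φ₀ = Φ₀ := by
    intro τ
    simp only [Φ₀, map_prod]
    refine Fintype.prod_equiv (AlgEquiv.arrowCongr AlgEquiv.refl τ) _ _ fun σ => ?_
    rw [ch1_map_linf]
    rfl
  have hco : ∀ m, Φ₀.coeff m ∈ Set.range (algebraMap F' K₀) := by
    intro m
    have h : Φ₀.coeff m ∈ (⊥ : IntermediateField F' K₀) := by
      rw [InfiniteGalois.mem_bot_iff_fixed]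
      intro τ
      have h1 := congrArg (fun Ψ => MvPolynomial.coeff m Ψ) (hfix τ)
      simpa [MvPolynomial.coeff_map] using h1
    obtain ⟨a, ha⟩ := IntermediateField.mem_bot.mp h
    exact ⟨a, ha⟩
  obtain ⟨Φ, hΦ⟩ : Φ₀ ∈ Set.range (MvPolynomial.map (algebraMap F' K₀)) := by
    rw [MvPolynomial.mem_range_map_iff_coeffs_subset]
    intro c hc
    obtain ⟨m, -, rfl⟩ := MvPolynomial.mem_coeffs_iff.mp hc
    exact hco m
  refine ⟨Φ, fun K _ _ φ => ?_⟩
  let _ := φ.toAlgebra
  let j : K₀ →ₐ[F'] K := IsAlgClosed.lift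
  have hinj : Function.Injective (fun σ : N →ₐ[F'] K₀ => j.comp σ) := by
    intro σ σ' h
    ext z
    exact j.injective (AlgHom.congr_fun h z)
  have hsurj : Function.Surjective (fun σ : N →ₐ[F'] K₀ => j.comp σ) := by
    refine ((Fintype.bijective_iff_injective_and_card _).mpr ⟨hinj, ?_⟩).2
    rw [AlgHom.card F' N K₀, AlgHom.card F' N K]
  have hr : {ψ : N →+* K | ψ.comp (algebraMap F' N) = φ} =
      Set.range (fun σ : N →ₐ[F'] K₀ => ((j.comp σ : N →ₐ[F'] K) : N →+* K)) := by
    ext ψ
    constructor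
    · intro h
      obtain ⟨σ, hσ⟩ := hsurj { ψ with commutes' := fun r => RingHom.congr_fun h r }
      refine ⟨σ, ?_⟩
      ext z
      exact AlgHom.congr_fun hσ z
    · rintro ⟨σ, rfl⟩
      ext r
      exact (j.comp σ).commutes r
  have hinj2 : Function.Injective
      (fun σ : N →ₐ[F'] K₀ => ((j.comp σ : N →ₐ[F'] K) : N →+* K)) := by
    intro σ σ' h
    apply hinj
    ext z
    exact RingHom.congr_fun h z
  have hφ : φ = (j : K₀ →+* K).comp (algebraMap F' K₀) := by
    ext r
    exact (j.commutes r).symm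
  rw [hr, finprod_mem_range hinj2, finprod_eq_prod_of_fintype]
  conv_lhs => rw [hφ, ← MvPolynomial.map_map, hΦ]
  simp only [Φ₀, map_prod]
  refine Finset.prod_congr rfl fun σ _ => ?_
  rw [ch1_map_linf]
  rfl

/-- The norm form of the finite set `S` of elements of the finite extension `N / F'`. -/
def nform (F' N : Type u) [Field F'] [Field N] [Algebra F' N] [FiniteDimensional F' N]
    [CharZero F'] (S : Finset N) : MvPolynomial (Option S) F' :=
  Classical.choose (exists_nform F' N S)

theorem nform_map (F' N : Type u) [Field F'] [Field N] [Algebra F' N] [FiniteDimensional F' N]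
    [CharZero F'] (S : Finset N) (K : Type u) [Field K] [IsAlgClosed K] (φ : F' →+* K) :
    MvPolynomial.map φ (nform F' N S) =
      ∏ᶠ ψ ∈ {ψ : N →+* K | ψ.comp (algebraMap F' N) = φ}, linf (fun s : S => ψ s) :=
  Classical.choose_spec (exists_nform F' N S) K φ

end

end KTS

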