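import Pool.Agent.KTS.Base

/-!
[KTS-CH2] Initial forms: multiplicativity, explicit formula, linear forms.
-/

namespace KTS

noncomputable section

open MvPolynomial

variable {Ω : Type*} [Field Ω] {τ : Type*} [Fintype τ]

/-- Proof: `toHahn γ` is a ring hom, `HahnSeries.leadingCoeff_mul` (`MvPolynomial (Option τ) Ω` has no zero
divisors). -/
theorem ini_mul (γ : τ → ℚ) (Ψ Ψ' : MvPolynomial (Option τ) (HahnSeries ℚ Ω)) :
    ini γ (Ψ * Ψ') = ini γ Ψ * ini γ Ψ' := by
  unfold ini
  rw [map_mul, HahnSeries.leadingCoeff_mul]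

theorem ini_one (γ : τ → ℚ) :
    ini γ (1 : MvPolynomial (Option τ) (HahnSeries ℚ Ω)) = 1 := by
  unfold ini
  rw [map_one, HahnSeries.leadingCoeff_one]

theorem ini_prod {κ : Type*} (s : Finset κ) (γ : τ → ℚ)
    (Ψ : κ → MvPolynomial (Option τ) (HahnSeries ℚ Ω)) :
    ini γ (∏ i ∈ s, Ψ i) = ∏ i ∈ s, ini γ (Ψ i) := by
  classical
  induction s using Finset.induction_on with
  | empty => simp [ini_one]
  | insert a s ha ih => rw [Finset.prod_insert ha, Finset.prod_insert ha, ini_mul, ih]

theorem prod_single {κ : Type*} (s : Finset κ) {R : Type*} [CommRing R] (a : κ → ℚ) (r : κ → R) :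
    ∏ i ∈ s, (HahnSeries.single (a i) (r i) : HahnSeries ℚ R) =
      HahnSeries.single (∑ i ∈ s, a i) (∏ i ∈ s, r i) := by
  classical
  induction s using Finset.induction_on with
  | empty => simp
  | insert b s hb ih =>
    rw [Finset.prod_insert hb, Finset.prod_insert hb, Finset.sum_insert hb, ih,
      HahnSeries.single_mul_single]

theorem toHahn_monomial (γ : τ → ℚ) (m : Option τ →₀ ℕ) (x : HahnSeries ℚ Ω) :
    toHahn γ (monomial m x) =
      hmap C x * HahnSeries.single (- ∑ j, (m (some j) : ℚ) * γ j) (monomial m 1) := by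
  unfold toHahn
  rw [MvPolynomial.coe_eval₂Hom, MvPolynomial.eval₂_monomial]
  congr 1
  rw [Finsupp.prod_fintype _ _ (by simp)]
  simp only [HahnSeries.single_pow]
  rw [prod_single]
  congr 1
  · rw [Fintype.sum_option]
    simp [Finset.sum_neg_distrib]
  · rw [MvPolynomial.monomial_eq, Finsupp.prod_fintype _ _ (by simp)]
    simp

/-- `toHahn γ Ψ` has, at the exponent `q`, the coefficient
`∑_m (Ψ_m).coeff (q + ∑_j m_j γ_j) · Y^m`.
Proof: additive in `Ψ`; for `Ψ = monomial m x` we have
`toHahn γ (monomial m x) = hmap C x * ∏_o (single (..) (X o)) ^ (m o)`, which is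
`hmap C x * single (- ∑_j m_j γ_j) (monomial m 1)` (`HahnSeries.single_mul_single`, `single_pow`); then
`HahnSeries.coeff_mul_single_add`. -/
theorem toHahn_coeff (γ : τ → ℚ) (Ψ : MvPolynomial (Option τ) (HahnSeries ℚ Ω)) (q : ℚ)
    (m : Option τ →₀ ℕ) :
    ((toHahn γ Ψ).coeff q).coeff m = (Ψ.coeff m).coeff (q + ∑ j, (m (some j) : ℚ) * γ j) := by
  classical
  induction Ψ using MvPolynomial.induction_on' with
  | monomial u a =>
    rw [toHahn_monomial]
    have hq : q = (q + ∑ j, (u (some j) : ℚ) * γ j) + (- ∑ j, (u (some j) : ℚ) * γ j) := by ring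
    rw [hq, HahnSeries.coeff_mul_single_add, ← hq, hmap_coeff, MvPolynomial.C_mul_monomial, mul_one,
      MvPolynomial.coeff_monomial, MvPolynomial.coeff_monomial]
    split_ifs with h
    · rw [h]
    · simp
  | add p p' hp hp' =>
    rw [map_add, HahnSeries.coeff_add, MvPolynomial.coeff_add, hp, hp', MvPolynomial.coeff_add,
      HahnSeries.coeff_add]

/-- Explicit formula: the initial form is the sum of the leading terms of the monomials of minimal value.
Proof: by `toHahn_coeff` the smallest exponent of `toHahn γ Ψ` is `μ = min_{m ∈ supp Ψ} mval γ Ψ m`, and the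
coefficient there has `m`-coefficient `(Ψ.coeff m).coeff (μ + ∑ m_j γ_j)`, which is the leading coefficient of
`Ψ.coeff m` if `mval γ Ψ m = μ` and `0` if `mval γ Ψ m > μ`. For `Ψ = 0` both sides are `0`. -/
theorem ini_eq (γ : τ → ℚ) (Ψ : MvPolynomial (Option τ) (HahnSeries ℚ Ω)) (m : Option τ →₀ ℕ) :
    (ini γ Ψ).coeff m =
      if m ∈ Ψ.support ∧ ∀ m' ∈ Ψ.support, mval γ Ψ m ≤ mval γ Ψ m' then
        (Ψ.coeff m).leadingCoeff else 0 := by
  classical
  have hini : (ini γ Ψ).coeff m =
      (Ψ.coeff m).coeff ((toHahn γ Ψ).order + ∑ j, (m (some j) : ℚ) * γ j) := by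
    unfold ini
    rw [HahnSeries.leadingCoeff_eq, toHahn_coeff]
  have ha : ∀ m' ∈ Ψ.support, (toHahn γ Ψ).coeff (mval γ Ψ m') ≠ 0 := by
    intro m' hm' h0
    have h1 := toHahn_coeff γ Ψ (mval γ Ψ m') m'
    rw [h0, MvPolynomial.coeff_zero] at h1
    unfold mval at h1
    rw [sub_add_cancel] at h1
    exact (MvPolynomial.mem_support_iff.1 hm') (HahnSeries.coeff_order_eq_zero.1 h1.symm)
  by_cases hm : m ∈ Ψ.support
  · have hT : toHahn γ Ψ ≠ 0 := HahnSeries.ne_zero_of_coeff_ne_zero (ha m hm)
    have hb : ∃ m₀ ∈ Ψ.support, mval γ Ψ m₀ ≤ (toHahn γ Ψ).order := by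
      have h1 : (toHahn γ Ψ).coeff (toHahn γ Ψ).order ≠ 0 := fun h => hT
        (HahnSeries.coeff_order_eq_zero.1 h)
      obtain ⟨m₀, hm₀⟩ := MvPolynomial.ne_zero_iff.1 h1
      rw [toHahn_coeff] at hm₀
      refine ⟨m₀, MvPolynomial.mem_support_iff.2 ?_, ?_⟩
      · intro h
        rw [h] at hm₀
        exact hm₀ (by simp)
      · have h2 := HahnSeries.order_le_of_coeff_ne_zero hm₀
        unfold mval
        linarith
    obtain ⟨m₀, hm₀, hle₀⟩ := hb
    by_cases hmin : ∀ m' ∈ Ψ.support, mval γ Ψ m ≤ mval γ Ψ m'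
    · rw [if_pos ⟨hm, hmin⟩, hini, HahnSeries.leadingCoeff_eq]
      have h1 := HahnSeries.order_le_of_coeff_ne_zero (ha m hm)
      have h2 := hmin m₀ hm₀
      have h3 : (toHahn γ Ψ).order = mval γ Ψ m := le_antisymm h1 (h2.trans hle₀)
      rw [h3]
      unfold mval
      rw [sub_add_cancel]
    · rw [if_neg (fun h => hmin h.2), hini]
      push Not at hmin
      obtain ⟨m', hm', hlt⟩ := hmin
      apply HahnSeries.coeff_eq_zero_of_lt_order
      have h1 := HahnSeries.order_le_of_coeff_ne_zero (ha m' hm')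
      have h2 : (toHahn γ Ψ).order < mval γ Ψ m := lt_of_le_of_lt h1 hlt
      unfold mval at h2
      linarith
  · rw [if_neg (fun h => hm h.1), hini, MvPolynomial.notMem_support_iff.1 hm]
    simp

/-- The initial form depends only on the `rv` of the coefficients. Proof: `ini_eq`
(`rv x = rv y` gives `x = 0 ↔ y = 0`, so the supports agree). -/
theorem ini_congr (γ : τ → ℚ) (Ψ Ψ' : MvPolynomial (Option τ) (HahnSeries ℚ Ω))
    (h : ∀ m, rv (Ψ.coeff m) = rv (Ψ'.coeff m)) : ini γ Ψ = ini γ Ψ' := by
  classical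
  have hl : ∀ m, (Ψ.coeff m).leadingCoeff = (Ψ'.coeff m).leadingCoeff := fun m =>
    congrArg Prod.fst (h m)
  have ho : ∀ m, (Ψ.coeff m).order = (Ψ'.coeff m).order := fun m => congrArg Prod.snd (h m)
  have hs : Ψ.support = Ψ'.support := by
    ext m
    rw [MvPolynomial.mem_support_iff, MvPolynomial.mem_support_iff, ← HahnSeries.leadingCoeff_ne_zero,
      ← HahnSeries.leadingCoeff_ne_zero, hl]
  have hv : ∀ m, mval γ Ψ m = mval γ Ψ' m := fun m => by
    unfold mval
    rw [ho]
  ext m
  rw [ini_eq, ini_eq, hs, hl]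
  simp only [hv]
  congr

theorem toHahn_linf_coeff (γ : τ → ℚ) (g : τ → HahnSeries ℚ Ω) (q : ℚ) :
    (toHahn γ (linf g)).coeff q =
      (if q = 0 then X none else 0) + ∑ j, C ((g j).coeff (q + γ j)) * X (some j) := by
  classical
  have h1 : toHahn γ (linf g) = HahnSeries.single 0 (X none) +
      ∑ j, hmap C (g j) * HahnSeries.single (- γ j) (X (some j)) := by
    unfold toHahn linf
    simp
  rw [h1, HahnSeries.coeff_add, HahnSeries.coeff_sum]
  congr 1
  · rw [HahnSeries.coeff_single]
    congr
  · refine Finset.sum_congr rfl fun j _ => ?_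
    have hq : q = (q + γ j) + (- γ j) := by ring
    conv_lhs => rw [hq]
    rw [HahnSeries.coeff_mul_single_add, hmap_coeff]

theorem sum_C_mul_X_eq_zero {σ R : Type*} [Fintype σ] [CommRing R] (c : σ → R)
    (h : ∑ j, C (c j) * (X j : MvPolynomial σ R) = 0) (j : σ) : c j = 0 := by
  classical
  have h1 := congrArg (MvPolynomial.coeff (Finsupp.single j 1)) h
  rw [MvPolynomial.coeff_sum, MvPolynomial.coeff_zero] at h1
  rw [Finset.sum_eq_single j] at h1
  · rw [MvPolynomial.coeff_C_mul, MvPolynomial.coeff_X, if_pos rfl, mul_one] at h1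
    exact h1
  · intro i _ hij
    rw [MvPolynomial.coeff_C_mul, MvPolynomial.coeff_X, if_neg, mul_zero]
    intro h2
    exact hij (Finsupp.single_left_injective one_ne_zero h2)
  · intro h2
    exact absurd (Finset.mem_univ _) h2

/-- One linear factor. Proof. Put `a_j = v(g_j) - γ_j` for `g_j ≠ 0`. By `ini_eq` applied to
`linf g` (coefficient `1` at `Y_o`, value `0`; coefficient `g_j` at `Y_j`, value `a_j`): let
`m = min(0, min_j a_j)` (only `j` with `g_j ≠ 0`). If `m < 0` then `ini γ (linf g) = ∑_{a_j = m} lc(g_j) Y_j`, a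
non-zero form not involving `Y_o`, and `subs ξ` leaves it unchanged: not `0`; on the right hand side a `j`
with `a_j < 0` violates `rv (g j) = (ξ j, γ j)`. If `m = 0` then `ini = Y_o + ∑_{a_j = 0} lc(g_j) Y_j` and
`subs ξ` gives `∑_j (- ξ_j + [g_j ≠ 0, a_j = 0] lc(g_j)) Y_j`, which is `0` iff for all `j`:
`g_j ≠ 0`, `a_j = 0`, `lc(g_j) = ξ_j` (because `ξ_j ≠ 0`). -/
theorem subs_ini_linf (γ : τ → ℚ) (ξ : τ → Ω) (hξ : ∀ j, ξ j ≠ 0) (g : τ → HahnSeries ℚ Ω) :
    subs ξ (ini γ (linf g)) = 0 ↔ ∀ j, rv (g j) = (ξ j, γ j) := by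
  classical
  set T := toHahn γ (linf g) with hT
  have hini : ini γ (linf g) =
      (if T.order = 0 then X none else 0) + ∑ j, C ((g j).coeff (T.order + γ j)) * X (some j) := by
    unfold ini
    rw [HahnSeries.leadingCoeff_eq, ← hT, ← toHahn_linf_coeff]
  have hsubs : subs ξ (ini γ (linf g)) =
      ∑ j, C ((g j).coeff (T.order + γ j) - if T.order = 0 then ξ j else 0) * X j := by
    rw [hini]
    unfold subs
    by_cases h0 : T.order = 0
    · simp only [if_pos h0, map_add, map_sum, map_mul, MvPolynomial.coe_eval₂Hom,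
        MvPolynomial.eval₂_X, MvPolynomial.eval₂_C, Option.elim, map_sub, sub_mul,
        Finset.sum_sub_distrib]
      ring
    · simp only [if_neg h0, map_sum, map_mul, MvPolynomial.coe_eval₂Hom,
        MvPolynomial.eval₂_X, MvPolynomial.eval₂_C, Option.elim, sub_zero, zero_add]
  -- the value of the constant coefficient
  have hnone : T.coeff 0 ≠ 0 := by
    intro h
    rw [hT, toHahn_linf_coeff, if_pos rfl] at h
    have h1 := congrArg (MvPolynomial.coeff (Finsupp.single none 1)) h
    rw [MvPolynomial.coeff_add, MvPolynomial.coeff_zero, MvPolynomial.coeff_X,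
      MvPolynomial.coeff_sum, Finset.sum_eq_zero, add_zero] at h1
    · rw [if_pos rfl] at h1
      exact one_ne_zero h1
    · intro j _
      rw [MvPolynomial.coeff_C_mul, MvPolynomial.coeff_X, if_neg, mul_zero]
      intro h2
      have := Finsupp.single_left_injective one_ne_zero h2
      simp at this
  have hTne : T ≠ 0 := HahnSeries.ne_zero_of_coeff_ne_zero hnone
  have hμ : T.order ≤ 0 := HahnSeries.order_le_of_coeff_ne_zero hnone
  constructor
  · intro h j
    rw [hsubs] at h
    have hc := sum_C_mul_X_eq_zero _ h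
    have h0 : T.order = 0 := by
      by_contra h0
      have h1 : T.coeff T.order = 0 := by
        rw [hT, toHahn_linf_coeff, ← hT, if_neg h0, zero_add]
        refine Finset.sum_eq_zero fun j _ => ?_
        have h2 := hc j
        rw [if_neg h0, sub_zero] at h2
        rw [h2, map_zero, zero_mul]
      exact hTne (HahnSeries.coeff_order_eq_zero.1 h1)
    have hcj : ∀ j, (g j).coeff (γ j) = ξ j := fun j => by
      have h2 := hc j
      rw [if_pos h0, h0, zero_add] at h2
      exact sub_eq_zero.1 h2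
    have hord : (g j).order = γ j := by
      apply le_antisymm
      · apply HahnSeries.order_le_of_coeff_ne_zero
        rw [hcj]
        exact hξ j
      · by_contra hlt
        push Not at hlt
        have hq : (g j).order - γ j < T.order := by rw [h0]; linarith
        have h3 := HahnSeries.coeff_eq_zero_of_lt_order hq
        rw [hT, toHahn_linf_coeff, if_neg (by linarith), zero_add] at h3
        have h4 : ∑ i : τ, C ((g i).coeff ((g j).order - γ j + γ i)) * X (some i) =
            MvPolynomial.rename (some : τ → Option τ)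
              (∑ i : τ, C ((g i).coeff ((g j).order - γ j + γ i)) * X i) := by
          simp [map_sum]
        rw [h4] at h3
        have h5 := (MvPolynomial.rename_injective _ (Option.some_injective τ)) (h3.trans
          (map_zero (MvPolynomial.rename (some : τ → Option τ))).symm)
        have h6 := sum_C_mul_X_eq_zero _ h5 j
        rw [sub_add_cancel] at h6
        have h7 := HahnSeries.coeff_order_eq_zero.1 h6
        have h8 := hcj j
        rw [h7, HahnSeries.coeff_zero] at h8
        exact hξ j h8.symm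
    unfold rv
    rw [HahnSeries.leadingCoeff_eq, hord, hcj]
  · intro h
    have ho : ∀ j, (g j).order = γ j := fun j => congrArg Prod.snd (h j)
    have hl : ∀ j, (g j).coeff (γ j) = ξ j := fun j => by
      have h1 : (g j).leadingCoeff = ξ j := congrArg Prod.fst (h j)
      rw [HahnSeries.leadingCoeff_eq, ho] at h1
      exact h1
    have h0 : T.order = 0 := by
      apply le_antisymm hμ
      by_contra hlt
      push Not at hlt
      apply hTne
      apply HahnSeries.coeff_order_eq_zero.1
      rw [hT, toHahn_linf_coeff, ← hT, if_neg hlt.ne, zero_add]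
      refine Finset.sum_eq_zero fun j _ => ?_
      rw [HahnSeries.coeff_eq_zero_of_lt_order (by rw [ho]; linarith), map_zero, zero_mul]
    rw [hsubs]
    refine Finset.sum_eq_zero fun j _ => ?_
    rw [if_pos h0, h0, zero_add, hl, sub_self, map_zero, zero_mul]

end

end KTS

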