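import Pool.Agent.KTS.CH1

import Pool.Agent.KTS.CH2

import Pool.Agent.KTS.AA

/-!
[KTS-CH3] The Chow relation decides which `rv`-vectors occur over a given embedding.
-/

namespace KTS

noncomputable section

universe u

open MvPolynomial

variable {Ω : Type u} [Field Ω] [IsAlgClosed Ω] [CharZero Ω]
  {F' N : Type u} [Field F'] [Field N] [Algebra F' N] [FiniteDimensional F' N] [CharZero F']

/-- Lemma 2.1. `IsAlgClosed (HahnSeries ℚ Ω)` is an instance (`KTS.hahn_isAlgClosed`).
Proof. `nform_map` with `K = HahnSeries ℚ Ω` rewrites the form as the product of the `linf (fun s => ψ s)` over the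
finite set of extensions `ψ`; `ini_prod`, `map_prod`, `Finset.prod_eq_zero_iff`
(`MvPolynomial τ Ω` is a domain), `subs_ini_linf`. -/
theorem rel_iff (S : Finset N) (φ : F' →+* HahnSeries ℚ Ω)
    (ξ : S → Ω) (γ : S → ℚ) (hξ : ∀ s, ξ s ≠ 0) :
    subs ξ (ini γ (MvPolynomial.map φ (nform F' N S))) = 0 ↔
      ∃ ψ : N →+* HahnSeries ℚ Ω, ψ.comp (algebraMap F' N) = φ ∧
        ∀ s : S, rv (ψ s) = (ξ s, γ s) := by
  have hfin := (ext_finite F' N (HahnSeries ℚ Ω) φ).1
  rw [nform_map F' N S (HahnSeries ℚ Ω) φ, finprod_mem_eq_finite_toFinset_prod _ hfin, ini_prod,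
    map_prod, Finset.prod_eq_zero_iff]
  constructor
  · rintro ⟨ψ, hψ, h0⟩
    rw [Set.Finite.mem_toFinset] at hψ
    exact ⟨ψ, hψ, (subs_ini_linf γ ξ hξ _).1 h0⟩
  · rintro ⟨ψ, hψ, h0⟩
    refine ⟨ψ, (Set.Finite.mem_toFinset hfin).2 hψ, (subs_ini_linf γ ξ hξ _).2 h0⟩

/-- (U3) Two embeddings of `F'` with the same `rv` on the non-zero coefficients of the norm form of `S`: every
extension of the first is matched by an extension of the second with the same `rv` on `S`.
Proof. `ξ s = (φ' s).leadingCoeff ≠ 0`, `γ s = (φ' s).order`; `rel_iff` for `φ`, then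
`ini_congr` (`coeff_map`; coefficients with `coeff = 0` are mapped to `0` by both), then `rel_iff` for `ψ`. -/
theorem ext_match (S : Finset N) (hS : ∀ s ∈ S, s ≠ 0)
    (φ ψ : F' →+* HahnSeries ℚ Ω)
    (h : ∀ m, (nform F' N S).coeff m ≠ 0 →
      rv (φ ((nform F' N S).coeff m)) = rv (ψ ((nform F' N S).coeff m)))
    (φ' : N →+* HahnSeries ℚ Ω) (hφ' : φ'.comp (algebraMap F' N) = φ) :
    ∃ ψ' : N →+* HahnSeries ℚ Ω, ψ'.comp (algebraMap F' N) = ψ ∧ ∀ s ∈ S, rv (ψ' s) = rv (φ' s) := by
  have hξ : ∀ s : S, (φ' s).leadingCoeff ≠ 0 := by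
    intro s
    rw [Ne, HahnSeries.leadingCoeff_eq_zero, map_eq_zero]
    exact hS s s.2
  have h1 := (rel_iff S φ (fun s => (φ' s).leadingCoeff) (fun s => (φ' s).order) hξ).2
    ⟨φ', hφ', fun s => rfl⟩
  have h2 : ini (fun s : S => (φ' s).order) (MvPolynomial.map φ (nform F' N S)) =
      ini (fun s : S => (φ' s).order) (MvPolynomial.map ψ (nform F' N S)) := by
    refine ini_congr _ _ _ fun m => ?_
    rw [coeff_map, coeff_map]
    by_cases hm : (nform F' N S).coeff m = 0
    · rw [hm, map_zero, map_zero]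
    · exact h m hm
  rw [h2] at h1
  obtain ⟨ψ', hψ', h3⟩ := (rel_iff S ψ (fun s => (φ' s).leadingCoeff)
    (fun s => (φ' s).order) hξ).1 h1
  exact ⟨ψ', hψ', fun s hs => h3 ⟨s, hs⟩⟩

open Classical in
/-- One coordinate: `- ψ(s)` is a root of the polynomial `Z ↦ Φ(Z, Y_s = 1, other Y = 0)`. -/
theorem nform_root (S : Finset N) (s : S)
    (ψ : N →+* HahnSeries ℚ Ω) :
    MvPolynomial.eval (fun o => Option.elim o (- ψ s) (fun j => if j = s then 1 else 0))
      (MvPolynomial.map (ψ.comp (algebraMap F' N)) (nform F' N S)) = 0 := by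
  have hfin := (ext_finite F' N (HahnSeries ℚ Ω) (ψ.comp (algebraMap F' N))).1
  rw [nform_map F' N S (HahnSeries ℚ Ω), finprod_mem_eq_finite_toFinset_prod _ hfin, map_prod]
  refine Finset.prod_eq_zero (i := ψ) (by rw [Set.Finite.mem_toFinset]; rfl) ?_
  unfold linf
  rw [map_add, map_sum, eval_X]
  have h1 : ∑ j : S, MvPolynomial.eval
      (fun o => Option.elim o (- ψ s) (fun j => if j = s then (1 : HahnSeries ℚ Ω) else 0))
      (C (ψ j) * X (some j)) = ψ s := by
    rw [Finset.sum_eq_single s]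
    · rw [map_mul, eval_C, eval_X]
      simp
    · intro j _ hj
      rw [map_mul, eval_C, eval_X]
      simp [hj]
    · intro h
      exact absurd (Finset.mem_univ s) h
  rw [h1]
  show - ψ s + ψ s = 0
  exact neg_add_cancel _

omit [CharZero Ω] in
/-- The degrees of the monomials of the norm form are all equal. -/
theorem ch3b_deg (S : Finset N) (ψ : N →+* HahnSeries ℚ Ω) :
    ∃ D : ℕ, ∀ m ∈ (nform F' N S).support, m none + ∑ j, m (some j) = D := by
  have hfin := (ext_finite F' N (HahnSeries ℚ Ω) (ψ.comp (algebraMap F' N))).1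
  have hlin : ∀ g : S → HahnSeries ℚ Ω, (linf g).IsHomogeneous 1 := by
    intro g
    unfold linf
    refine (isHomogeneous_X _ _).add ?_
    exact IsHomogeneous.sum _ _ _ fun j _ => isHomogeneous_C_mul_X _ _
  refine ⟨∑ _ψ' ∈ hfin.toFinset, 1, fun m hm => ?_⟩
  have h1 : (MvPolynomial.map (ψ.comp (algebraMap F' N)) (nform F' N S)).IsHomogeneous
      (∑ _ψ' ∈ hfin.toFinset, 1) := by
    rw [nform_map F' N S (HahnSeries ℚ Ω), finprod_mem_eq_finite_toFinset_prod _ hfin]
    exact IsHomogeneous.prod _ _ _ fun ψ' _ => hlin _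
  have h2 : (MvPolynomial.map (ψ.comp (algebraMap F' N)) (nform F' N S)).coeff m ≠ 0 := by
    rw [coeff_map]
    exact (map_ne_zero _).2 (mem_support_iff.1 hm)
  have h3 := h1 h2
  rw [← h3, ← Fintype.sum_option, ← Finsupp.degree_eq_sum, Finsupp.degree_eq_weight_one]
  rfl

omit [CharZero Ω] in
/-- Some monomial of the norm form is a power of `Y_o`. -/
theorem ch3b_pure (S : Finset N) (ψ : N →+* HahnSeries ℚ Ω) :
    ∃ m ∈ (nform F' N S).support, ∀ j, m (some j) = 0 := by
  classical
  have hfin := (ext_finite F' N (HahnSeries ℚ Ω) (ψ.comp (algebraMap F' N))).1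
  have h1 : MvPolynomial.eval (fun o : Option S => Option.elim o (1 : HahnSeries ℚ Ω) (fun _ => 0))
      (MvPolynomial.map (ψ.comp (algebraMap F' N)) (nform F' N S)) = 1 := by
    rw [nform_map F' N S (HahnSeries ℚ Ω), finprod_mem_eq_finite_toFinset_prod _ hfin, map_prod]
    refine Finset.prod_eq_one fun ψ' _ => ?_
    unfold linf
    rw [map_add, map_sum, eval_X]
    have h2 : ∑ j : S, MvPolynomial.eval
        (fun o : Option S => Option.elim o (1 : HahnSeries ℚ Ω) (fun _ => 0))
        (C (ψ' j) * X (some j)) = 0 := by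
      refine Finset.sum_eq_zero fun j _ => ?_
      rw [map_mul, eval_C, eval_X]
      simp
    rw [h2]
    simp
  by_contra hc
  push Not at hc
  rw [eval_map, eval₂_eq'] at h1
  have h3 : ∑ m ∈ (nform F' N S).support, (ψ.comp (algebraMap F' N)) ((nform F' N S).coeff m) *
      ∏ o : Option S, (Option.elim o (1 : HahnSeries ℚ Ω) (fun _ => 0)) ^ m o = 0 := by
    refine Finset.sum_eq_zero fun m hm => ?_
    obtain ⟨j, hj⟩ := hc m hm
    rw [Finset.prod_eq_zero (Finset.mem_univ (some j)), mul_zero]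
    show (0 : HahnSeries ℚ Ω) ^ m (some j) = 0
    exact zero_pow hj
  rw [h3] at h1
  exact zero_ne_one h1

/-- Values of `ψ s`: `rv (ψ s)` is determined up to finitely many possibilities by the coefficients.
Two monomials `m, m'` with support in `{o, s}` (i.e. `m j = 0` for `j ≠ none, some s`) attain the minimum.
Proof: `nform_root`: `∑_m c_m (-ψ s)^{m o} = 0`, the sum over the `m` with `m j = 0` for `j ≠ none, some s`; all
these `m` have the same total degree `d = m o + m s`; the monomial `Y_o^d` has coefficient `1` (a product of `linf`s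
is monic in `Y_o`), so there is a non-zero term, hence the minimum of `v(c_m) + m_o v(ψ s)` is attained at two
different `m ≠ m'` and the sum of the leading terms at the minimum vanishes. -/
theorem nform_lead (S : Finset N) (hS : ∀ s ∈ S, s ≠ 0) (s : S)
    (ψ : N →+* HahnSeries ℚ Ω) :
    ∃ M : Finset (Option S →₀ ℕ), M ⊆ (nform F' N S).support ∧ 2 ≤ M.card ∧
      (∀ m ∈ M, ∀ o, o ≠ none → o ≠ some s → m o = 0) ∧
      (∀ m ∈ M, ∀ m' ∈ M, m none = m' none → m = m') ∧
      (∀ m ∈ M, ∀ m' ∈ M,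
        (ψ (algebraMap F' N ((nform F' N S).coeff m))).order + (m none : ℚ) * (ψ s).order =
        (ψ (algebraMap F' N ((nform F' N S).coeff m'))).order + (m' none : ℚ) * (ψ s).order) ∧
      ∑ m ∈ M, (ψ (algebraMap F' N ((nform F' N S).coeff m))).leadingCoeff *
        (- (ψ s).leadingCoeff) ^ (m none) = 0 := by
  classical
  have hψs : ψ s ≠ 0 := (map_ne_zero _).2 (hS s s.2)
  have hc0 : ∀ m ∈ (nform F' N S).support, ψ (algebraMap F' N ((nform F' N S).coeff m)) ≠ 0 := by
    intro m hm
    exact (map_ne_zero ψ).2 ((map_ne_zero _).2 (mem_support_iff.1 hm))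
  set S0 : Finset (Option S →₀ ℕ) :=
    (nform F' N S).support.filter (fun m => ∀ o, o ≠ none → o ≠ some s → m o = 0) with hS0
  set t : (Option S →₀ ℕ) → HahnSeries ℚ Ω := fun m =>
    ψ (algebraMap F' N ((nform F' N S).coeff m)) * (- ψ s) ^ (m none) with ht
  have hsum : ∑ m ∈ S0, t m = 0 := by
    have h1 := nform_root (F' := F') S s ψ
    rw [eval_map, eval₂_eq'] at h1
    rw [hS0, Finset.sum_filter]
    refine Eq.trans (Finset.sum_congr rfl fun m _ => ?_) h1
    split_ifs with hm
    · rw [ht]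
      show ψ (algebraMap F' N ((nform F' N S).coeff m)) * (- ψ s) ^ (m none) =
        ψ (algebraMap F' N ((nform F' N S).coeff m)) * _
      congr 1
      rw [Fintype.prod_option]
      have h2 : ∏ j : S, (Option.elim (some j) (- ψ s)
          (fun j => if j = s then (1 : HahnSeries ℚ Ω) else 0)) ^ m (some j) = 1 := by
        refine Finset.prod_eq_one fun j _ => ?_
        by_cases hj : j = s
        · show (if j = s then (1 : HahnSeries ℚ Ω) else 0) ^ m (some j) = 1
          rw [if_pos hj, one_pow]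
        · rw [hm (some j) (Option.some_ne_none j) (fun h => hj (Option.some_injective _ h)),
            pow_zero]
      rw [h2, mul_one]
      rfl
    · push Not at hm
      obtain ⟨o, ho1, ho2, ho3⟩ := hm
      obtain ⟨j, rfl⟩ := Option.ne_none_iff_exists'.1 ho1
      have hj : j ≠ s := fun h => ho2 (by rw [h])
      rw [Finset.prod_eq_zero (Finset.mem_univ (some j)), mul_zero]
      show (if j = s then (1 : HahnSeries ℚ Ω) else 0) ^ m (some j) = 0
      rw [if_neg hj, zero_pow ho3]
  have ht0 : ∀ m ∈ S0, t m ≠ 0 := by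
    intro m hm
    exact mul_ne_zero (hc0 m (Finset.mem_filter.1 hm).1) (pow_ne_zero _ (neg_ne_zero.2 hψs))
  have hord : ∀ m ∈ S0, (t m).order =
      (ψ (algebraMap F' N ((nform F' N S).coeff m))).order + (m none : ℚ) * (ψ s).order := by
    intro m hm
    rw [ht]
    show (ψ (algebraMap F' N ((nform F' N S).coeff m)) * (- ψ s) ^ (m none)).order = _
    rw [HahnSeries.order_mul (hc0 m (Finset.mem_filter.1 hm).1)
      (pow_ne_zero _ (neg_ne_zero.2 hψs)), HahnSeries.order_pow, HahnSeries.order_neg, nsmul_eq_mul]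
  have hlc : ∀ m, (t m).leadingCoeff =
      (ψ (algebraMap F' N ((nform F' N S).coeff m))).leadingCoeff *
        (- (ψ s).leadingCoeff) ^ (m none) := by
    intro m
    rw [ht]
    show (ψ (algebraMap F' N ((nform F' N S).coeff m)) * (- ψ s) ^ (m none)).leadingCoeff = _
    have h4 : (- ψ s).leadingCoeff = - (ψ s).leadingCoeff := HahnSeries.leadingCoeff_neg
    have h5 : ∀ n : ℕ, ((- ψ s) ^ n).leadingCoeff = (- (ψ s).leadingCoeff) ^ n := by
      intro n
      induction n with
      | zero => rw [pow_zero, pow_zero, HahnSeries.leadingCoeff_one]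
      | succ n ih => rw [pow_succ, pow_succ, HahnSeries.leadingCoeff_mul, ih, h4]
    rw [HahnSeries.leadingCoeff_mul, h5]
  have hne : S0.Nonempty := by
    obtain ⟨m, hm, hm0⟩ := ch3b_pure (F' := F') S ψ
    refine ⟨m, Finset.mem_filter.2 ⟨hm, fun o ho _ => ?_⟩⟩
    obtain ⟨j, rfl⟩ := Option.ne_none_iff_exists'.1 ho
    exact hm0 j
  obtain ⟨m0, hm0, hmin⟩ := Finset.exists_min_image S0 (fun m => (t m).order) hne
  set μ : ℚ := (t m0).order with hμ
  have hz : ∑ m ∈ S0.filter (fun m => (t m).order = μ),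
      (ψ (algebraMap F' N ((nform F' N S).coeff m))).leadingCoeff *
        (- (ψ s).leadingCoeff) ^ (m none) = 0 := by
    have h1 : (∑ m ∈ S0, t m).coeff μ = 0 := by rw [hsum]; rfl
    rw [HahnSeries.coeff_sum] at h1
    rw [Finset.sum_filter]
    refine Eq.trans (Finset.sum_congr rfl fun m hm => ?_) h1
    split_ifs with h2
    · rw [← hlc, HahnSeries.leadingCoeff_eq, h2]
    · symm
      exact HahnSeries.coeff_eq_zero_of_lt_order (lt_of_le_of_ne (hmin m hm) (Ne.symm h2))
  have hmem0 : m0 ∈ S0.filter (fun m => (t m).order = μ) := Finset.mem_filter.2 ⟨hm0, rfl⟩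
  refine ⟨S0.filter (fun m => (t m).order = μ), ?_, ?_, ?_, ?_, ?_, hz⟩
  · exact (Finset.filter_subset _ _).trans (Finset.filter_subset _ _)
  · by_contra hcard
    have h1 : (S0.filter (fun m => (t m).order = μ)).card = 1 := by
      have := Finset.card_pos.2 ⟨m0, hmem0⟩
      omega
    obtain ⟨a, ha⟩ := Finset.card_eq_one.1 h1
    rw [ha, Finset.sum_singleton, ← hlc] at hz
    have ha' : a ∈ S0 := by
      have : a ∈ S0.filter (fun m => (t m).order = μ) := by rw [ha]; exact Finset.mem_singleton_self a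
      exact (Finset.mem_filter.1 this).1
    exact ht0 a ha' (HahnSeries.leadingCoeff_eq_zero.1 hz)
  · intro m hm
    exact (Finset.mem_filter.1 (Finset.mem_filter.1 hm).1).2
  · intro m hm m' hm' h
    have hm1 := Finset.mem_filter.1 (Finset.mem_filter.1 hm).1
    have hm2 := Finset.mem_filter.1 (Finset.mem_filter.1 hm').1
    obtain ⟨D, hD⟩ := ch3b_deg (F' := F') S ψ
    have hs1 : ∀ m'' : Option S →₀ ℕ, (∀ o, o ≠ none → o ≠ some s → m'' o = 0) →
        ∑ j, m'' (some j) = m'' (some s) := by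
      intro m'' h''
      refine Finset.sum_eq_single s (fun j _ hj => ?_) (fun h3 => absurd (Finset.mem_univ s) h3)
      exact h'' _ (Option.some_ne_none j) fun h4 => hj (Option.some_injective _ h4)
    have e1 := hD m hm1.1
    have e2 := hD m' hm2.1
    rw [hs1 m hm1.2] at e1
    rw [hs1 m' hm2.2] at e2
    ext o
    by_cases ho : o = none
    · rw [ho, h]
    · by_cases ho' : o = some s
      · rw [ho']
        omega
      · rw [hm1.2 o ho ho', hm2.2 o ho ho']
  · intro m hm m' hm'
    have h1 := Finset.mem_filter.1 hm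
    have h2 := Finset.mem_filter.1 hm'
    rw [← hord m h1.1, ← hord m' h2.1, h1.2, h2.2]

/-- The polynomial with the root `(ψ s).leadingCoeff` is not zero. -/
theorem ch3b_poly {A ι : Type*} [Field A] (M : Finset ι) (e : ι → ℕ)
    (he : ∀ m ∈ M, ∀ m' ∈ M, e m = e m' → m = m') (w : ι → A) (hw : ∀ m ∈ M, w m ≠ 0)
    (hM : M.Nonempty) :
    ∑ m ∈ M, Polynomial.C (w m) * (- Polynomial.X) ^ (e m) ≠ 0 := by
  classical
  obtain ⟨m0, hm0⟩ := hM
  intro h0
  have h1 : (∑ m ∈ M, Polynomial.C (w m) * (- Polynomial.X) ^ (e m)).coeff (e m0) = 0 := by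
    rw [h0, Polynomial.coeff_zero]
  rw [Polynomial.finsetSum_coeff, Finset.sum_eq_single m0] at h1
  · rw [neg_pow, ← Polynomial.C_1, ← Polynomial.C_neg, ← Polynomial.C_pow, ← mul_assoc,
      ← Polynomial.C_mul, Polynomial.coeff_C_mul_X_pow, if_pos rfl] at h1
    exact mul_ne_zero (hw m0 hm0) (pow_ne_zero _ (neg_ne_zero.2 one_ne_zero)) h1
  · intro m hm hne
    rw [neg_pow, ← Polynomial.C_1, ← Polynomial.C_neg, ← Polynomial.C_pow, ← mul_assoc,
      ← Polynomial.C_mul, Polynomial.coeff_C_mul_X_pow, if_neg]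
    exact fun h => hne (he m hm m0 hm0 h.symm)
  · intro h
    exact absurd hm0 h

/-- For given leading coefficients `w m` of the coefficients of the norm form there are only finitely many
possible leading coefficient vectors on `S`.
Proof: by `nform_lead` the value `(ψ s).leadingCoeff` is a root of one of the finitely many polynomials
`∑_{m ∈ M} w m (-Z)^{m o}`, `M ⊆ supp`, `|M| ≥ 2`, `m ↦ m o` injective on `M`, `w m ≠ 0` on `M`: a non-zero polynomial. -/
theorem nform_lc_finite (S : Finset N) (hS : ∀ s ∈ S, s ≠ 0)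
    (w : (Option S →₀ ℕ) → Ω) :
    {ξ : S → Ω | ∃ ψ : N →+* HahnSeries ℚ Ω,
      (∀ m ∈ (nform F' N S).support,
        (ψ (algebraMap F' N ((nform F' N S).coeff m))).leadingCoeff = w m) ∧
      ∀ s : S, ξ s = (ψ s).leadingCoeff}.Finite := by
  classical
  set Q : Finset (Option S →₀ ℕ) → Polynomial Ω := fun M =>
    ∑ m ∈ M, Polynomial.C (w m) * (- Polynomial.X) ^ (m none) with hQ
  set R : Set Ω := ⋃ M ∈ (nform F' N S).support.powerset, {z | z ∈ (Q M).roots} with hR
  have hRfin : R.Finite := by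
    rw [hR]
    refine Set.Finite.biUnion (Finset.finite_toSet _) fun M _ => ?_
    exact Multiset.finite_toSet _
  refine (Set.Finite.pi' (fun _ : S => hRfin)).subset ?_
  rintro ξ ⟨ψ, hw, hξ⟩ s
  obtain ⟨M, hM, hcard, hsup, hinj, -, hz⟩ := nform_lead (F' := F') S hS s ψ
  have hne : M.Nonempty := Finset.card_pos.1 (by omega)
  have hw0 : ∀ m ∈ M, w m ≠ 0 := by
    intro m hm h0
    rw [← hw m (hM hm), HahnSeries.leadingCoeff_eq_zero, map_eq_zero, map_eq_zero] at h0
    exact mem_support_iff.1 (hM hm) h0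
  have hQ0 : Q M ≠ 0 := ch3b_poly M (fun m => m none) hinj w hw0 hne
  rw [hR]
  refine Set.mem_biUnion (Finset.mem_coe.2 (Finset.mem_powerset.2 hM)) ?_
  show ξ s ∈ (Q M).roots
  rw [Polynomial.mem_roots hQ0, Polynomial.IsRoot.def, hQ]
  show Polynomial.eval (ξ s) (∑ m ∈ M, Polynomial.C (w m) * (- Polynomial.X) ^ (m none)) = 0
  rw [Polynomial.eval_finsetSum, ← hz]
  refine Finset.sum_congr rfl fun m hm => ?_
  rw [Polynomial.eval_mul, Polynomial.eval_C, Polynomial.eval_pow, Polynomial.eval_neg,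
    Polynomial.eval_X, hξ s, hw m (hM hm)]

/-- Leading coefficients on `S` are algebraic over the field generated by the leading coefficients of the
coefficients of the norm form (over any subfield `k`). Proof: `nform_lead`, as in `nform_lc_finite`. -/
theorem nform_lc_alg {k : Type u} [Field k] [Algebra k Ω]
    (S : Finset N) (hS : ∀ s ∈ S, s ≠ 0) (s : S) (ψ : N →+* HahnSeries ℚ Ω) :
    IsAlgebraic (IntermediateField.adjoin k
      {z : Ω | ∃ m ∈ (nform F' N S).support,
        z = (ψ (algebraMap F' N ((nform F' N S).coeff m))).leadingCoeff})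
      (ψ s).leadingCoeff := by
  classical
  set A : IntermediateField k Ω := IntermediateField.adjoin k
      {z : Ω | ∃ m ∈ (nform F' N S).support,
        z = (ψ (algebraMap F' N ((nform F' N S).coeff m))).leadingCoeff} with hA
  obtain ⟨M, hM, hcard, hsup, hinj, -, hz⟩ := nform_lead (F' := F') S hS s ψ
  have hne : M.Nonempty := Finset.card_pos.1 (by omega)
  have hmem : ∀ m ∈ M, (ψ (algebraMap F' N ((nform F' N S).coeff m))).leadingCoeff ∈ A := by
    intro m hm
    exact IntermediateField.subset_adjoin _ _ ⟨m, hM hm, rfl⟩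
  set w : (Option S →₀ ℕ) → A := fun m =>
    if h : (ψ (algebraMap F' N ((nform F' N S).coeff m))).leadingCoeff ∈ A then
      ⟨(ψ (algebraMap F' N ((nform F' N S).coeff m))).leadingCoeff, h⟩ else 0 with hw
  have hwm : ∀ m ∈ M, (algebraMap A Ω) (w m) =
      (ψ (algebraMap F' N ((nform F' N S).coeff m))).leadingCoeff := by
    intro m hm
    rw [hw]
    show (algebraMap A Ω) (if h : _ ∈ A then ⟨_, h⟩ else 0) = _
    rw [dif_pos (hmem m hm)]
    rfl
  have hw0 : ∀ m ∈ M, w m ≠ 0 := by
    intro m hm h0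
    have h1 := hwm m hm
    rw [h0, map_zero] at h1
    have h2 := h1.symm
    rw [HahnSeries.leadingCoeff_eq_zero, map_eq_zero, map_eq_zero] at h2
    exact mem_support_iff.1 (hM hm) h2
  refine ⟨∑ m ∈ M, Polynomial.C (w m) * (- Polynomial.X) ^ (m none),
    ch3b_poly M (fun m => m none) hinj w hw0 hne, ?_⟩
  rw [map_sum, ← hz]
  refine Finset.sum_congr rfl fun m hm => ?_
  rw [map_mul, map_pow, map_neg, Polynomial.aeval_C, Polynomial.aeval_X, hwm m hm]

end

end KTS

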