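import Pool.Agent.KTS.SP

/-!
# [KTS-ChD] charts, definitions (helper4)

`A = HahnSeries ℚ k`, `U = HahnSeries ℚ Ω`, `ρ : R → A` integral (`(ρ r).coeff 0` is its residue),
`F` a field over `A`, `C ⊆ F` a finitely generated `R`-subalgebra.
-/

set_option autoImplicit false
set_option linter.unusedSectionVars false

namespace KTS

noncomputable section

universe u v w

open Polynomial Cardinal

section Chart

variable {k Ω F R : Type u} [Field k] [Field Ω] [Algebra k Ω] [Field F]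
  [Algebra (HahnSeries ℚ k) F] [CommRing R] [Algebra R F]

/-- The points which are integral on `C`. -/
def XX (Ω : Type u) [Field Ω] [Algebra k Ω] (C : Subalgebra R F) : Set (Pt k Ω F) :=
  {φ | ∀ c ∈ C, φ c ∈ Oint Ω}

/-- The residue of a point on an element. -/
def rd (φ : Pt k Ω F) (c : F) : Ω := HahnSeries.coeff (φ c) 0

/-- The residue field of an integral point on `C`: generated over `k` by the residues. -/
def rf (C : Subalgebra R F) (φ : Pt k Ω F) : IntermediateField k Ω :=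
  IntermediateField.adjoin k (rd φ '' (C : Set F))

/-- Charts. -/
structure Chart (Ω : Type u) [Field Ω] [Algebra k Ω] (ρ : R →+* HahnSeries ℚ k) (n : ℕ)
    (C : Subalgebra R F) (z : Fin n → F) : Prop where
  fg : C.FG
  mem : ∀ i, z i ∈ C
  ind : AlgebraicIndependent (HahnSeries ℚ k) z
  alg : ∀ x : F, IsAlgebraic (IntermediateField.adjoin (HahnSeries ℚ k) (Set.range z)) x
  gen : IntermediateField.adjoin (HahnSeries ℚ k) (C : Set F) = ⊤
  lift_ex : ∀ ξ : C →+* Ω, (∀ r, ξ (algebraMap R C r) = algebraMap k Ω ((ρ r).coeff 0)) →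
    ∀ u : Fin n → HahnSeries ℚ Ω, AlgebraicIndependent (HahnSeries ℚ k) u →
      (∀ i, u i ∈ Oint Ω) → (∀ i, (u i).coeff 0 = ξ ⟨z i, mem i⟩) →
      ∃ φ : Pt k Ω F, (∀ i, φ (z i) = u i) ∧ ∀ c : C, φ c ∈ Oint Ω ∧ rd φ c = ξ c
  lift_uniq : ∀ φ ∈ XX (k := k) Ω C, ∀ ψ ∈ XX (k := k) Ω C, (∀ i, φ (z i) = ψ (z i)) →
    (∀ c ∈ C, rd φ c = rd ψ c) → φ = ψ

/-- Pure transcendence of a subfield of `Ω`, of degree `n`. -/
def PureTr (n : ℕ) (E : IntermediateField k Ω) : Prop :=
  ∃ w : Fin n → Ω, AlgebraicIndependent k w ∧ E = kf k w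

end Chart

end

end KTS
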