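import Pool.Agent.KTS.GC

/-!
# [KTS-G] maxima of affine functions, semilinear maps
-/

set_option autoImplicit false

namespace KTS

universe u v w x

variable {ι : Type u} {κ : Type v} [Fintype ι] [Fintype κ]

/-! ### semilinear maps: the comparison sets are semilinear -/

/-- functions whose graph is semilinear, in a form which is easy to use -/
def SLf (g : (ι → ℚ) → ℚ) : Prop := ∃ (β : Type) (_ : Finite β) (s : β → Set (ι → ℚ))
  (h : β → (ι → ℚ) → ℚ), (∀ b, SL (s b)) ∧ (∀ b, Aff (h b)) ∧ (∀ x, ∃ b, x ∈ s b) ∧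
    ∀ b, ∀ x ∈ s b, g x = h b x

theorem SLf.of_aff {g : (ι → ℚ) → ℚ} (hg : Aff g) : SLf g :=
  ⟨Unit, inferInstance, fun _ => Set.univ, fun _ => g, fun _ => SL.univ, fun _ => hg,
    fun _ => ⟨(), trivial⟩, fun _ _ _ => rfl⟩

/-- a semilinear combination of two piecewise affine functions -/
theorem SLf.map₂ {g g' : (ι → ℚ) → ℚ} (hg : SLf g) (hg' : SLf g') (F : ℚ → ℚ → ℚ)
    (hF : ∀ h h' : (ι → ℚ) → ℚ, Aff h → Aff h' → SLf fun x => F (h x) (h' x)) :
    SLf fun x => F (g x) (g' x) := by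
  obtain ⟨β, hβ, s, h, h1, h2, h3, h4⟩ := hg
  obtain ⟨β', hβ', s', h', h1', h2', h3', h4'⟩ := hg'
  choose γ hγ t k k1 k2 k3 k4 using fun p : β × β' => hF (h p.1) (h' p.2) (h2 p.1) (h2' p.2)
  refine ⟨Σ p : β × β', γ p, inferInstance, fun q => s q.1.1 ∩ s' q.1.2 ∩ t q.1 q.2,
    fun q => k q.1 q.2, fun q => ((h1 _).inter (h1' _)).inter (k1 _ _), fun q => k2 _ _,
    fun x => ?_, fun q x hx => ?_⟩
  · obtain ⟨b, hb⟩ := h3 x
    obtain ⟨b', hb'⟩ := h3' x
    obtain ⟨c, hc⟩ := k3 (b, b') x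
    exact ⟨⟨(b, b'), c⟩, ⟨hb, hb'⟩, hc⟩
  · change F (g x) (g' x) = _
    rw [h4 _ x hx.1.1, h4' _ x hx.1.2]
    exact k4 q.1 q.2 x hx.2

theorem SLf.add {g g' : (ι → ℚ) → ℚ} (hg : SLf g) (hg' : SLf g') : SLf fun x => g x + g' x :=
  hg.map₂ hg' (fun a b => a + b) fun _ _ h h' => SLf.of_aff (h.add h')

theorem SLf.sub {g g' : (ι → ℚ) → ℚ} (hg : SLf g) (hg' : SLf g') : SLf fun x => g x - g' x :=
  hg.map₂ hg' (fun a b => a - b) fun _ _ h h' => SLf.of_aff (h.sub h')

theorem SLf.mul_left {g : (ι → ℚ) → ℚ} (c : ℚ) (hg : SLf g) : SLf fun x => c * g x :=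
  hg.map₂ hg (fun a _ => c * a) fun _ _ h _ => SLf.of_aff (h.mul_left c)

theorem SLf.neg {g : (ι → ℚ) → ℚ} (hg : SLf g) : SLf fun x => -g x :=
  hg.map₂ hg (fun a _ => -a) fun _ _ h _ => SLf.of_aff h.neg

theorem SLf.const (c : ℚ) : SLf (fun _ : ι → ℚ => c) := SLf.of_aff (Aff.const c)

theorem SLf.coord (i : ι) : SLf (fun x : ι → ℚ => x i) := SLf.of_aff (Aff.coord i)

theorem SLf.sum {α : Type w} (s : Finset α) {g : α → (ι → ℚ) → ℚ} (h : ∀ a ∈ s, SLf (g a)) :
    SLf fun x => ∑ a ∈ s, g a x := by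
  classical
  induction s using Finset.induction_on with
  | empty => simpa using SLf.const 0
  | insert a s ha ih =>
    simp only [Finset.sum_insert ha]
    exact (h a (Finset.mem_insert_self _ _)).add
      (ih fun b hb => h b (Finset.mem_insert_of_mem hb))

theorem SLf.sl_le {g g' : (ι → ℚ) → ℚ} (hg : SLf g) (hg' : SLf g') : SL {x | g x ≤ g' x} := by
  obtain ⟨β, hβ, s, h, h1, h2, h3, h4⟩ := hg
  obtain ⟨β', hβ', s', h', h1', h2', h3', h4'⟩ := hg'
  have h5 := SL.ex fun p : β × β' => ((h1 p.1).inter (h1' p.2)).and (SL.le (h2 p.1) (h2' p.2))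
  convert h5 using 1
  ext x
  constructor
  · intro hx
    obtain ⟨b, hb⟩ := h3 x
    obtain ⟨b', hb'⟩ := h3' x
    refine ⟨(b, b'), ⟨hb, hb'⟩, ?_⟩
    rw [← h4 b x hb, ← h4' b' x hb']
    exact hx
  · rintro ⟨p, ⟨hb, hb'⟩, h6⟩
    rw [← h4 p.1 x hb, ← h4' p.2 x hb'] at h6
    exact h6

theorem SLf.sl_lt {g g' : (ι → ℚ) → ℚ} (hg : SLf g) (hg' : SLf g') : SL {x | g x < g' x} := by
  have := (SLf.sl_le hg' hg).not
  simpa only [not_le] using this

theorem SLf.sl_eq {g g' : (ι → ℚ) → ℚ} (hg : SLf g) (hg' : SLf g') : SL {x | g x = g' x} := by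
  have := (SLf.sl_le hg hg').and (SLf.sl_le hg' hg)
  convert this using 3
  exact le_antisymm_iff

open Classical in
theorem SLf.ite {p : (ι → ℚ) → Prop} (hp : SL {x | p x}) {g g' : (ι → ℚ) → ℚ} (hg : SLf g)
    (hg' : SLf g') : SLf fun x => if p x then g x else g' x := by
  obtain ⟨β, hβ, s, h, h1, h2, h3, h4⟩ := hg
  obtain ⟨β', hβ', s', h', h1', h2', h3', h4'⟩ := hg'
  refine ⟨β ⊕ β', inferInstance, Sum.elim (fun b => s b ∩ {x | p x}) (fun b => s' b ∩ {x | ¬ p x}),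
    Sum.elim h h', ?_, ?_, fun x => ?_, ?_⟩
  · rintro (b | b)
    · exact (h1 b).inter hp
    · exact (h1' b).inter hp.not
  · rintro (b | b)
    · exact h2 b
    · exact h2' b
  · by_cases hx : p x
    · obtain ⟨b, hb⟩ := h3 x
      exact ⟨Sum.inl b, hb, hx⟩
    · obtain ⟨b, hb⟩ := h3' x
      exact ⟨Sum.inr b, hb, hx⟩
  · rintro (b | b) x ⟨hx, hx'⟩
    · change (if p x then g x else g' x) = h b x
      have h5 : p x := hx'
      rw [if_pos h5]
      exact h4 b x hx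
    · change (if p x then g x else g' x) = h' b x
      have h5 : ¬ p x := hx'
      rw [if_neg h5]
      exact h4' b x hx

theorem SLf.max {g g' : (ι → ℚ) → ℚ} (hg : SLf g) (hg' : SLf g') :
    SLf fun x => Max.max (g x) (g' x) := by
  classical
  have h1 := SLf.ite (SLf.sl_le hg hg') hg' hg
  refine Eq.mp (congrArg SLf ?_) h1
  funext x
  by_cases h : g x ≤ g' x
  · rw [if_pos h, max_eq_right h]
  · rw [if_neg h, max_eq_left (not_le.1 h).le]

theorem SLf.min {g g' : (ι → ℚ) → ℚ} (hg : SLf g) (hg' : SLf g') :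
    SLf fun x => Min.min (g x) (g' x) := by
  classical
  have h1 := SLf.ite (SLf.sl_le hg hg') hg hg'
  refine Eq.mp (congrArg SLf ?_) h1
  funext x
  by_cases h : g x ≤ g' x
  · rw [if_pos h, min_eq_left h]
  · rw [if_neg h, min_eq_right (not_le.1 h).le]

theorem SLf.sup' {α : Type w} (s : Finset α) (hs : s.Nonempty) {g : α → (ι → ℚ) → ℚ}
    (h : ∀ a ∈ s, SLf (g a)) : SLf fun x => s.sup' hs fun a => g a x := by
  classical
  induction hs using Finset.Nonempty.cons_induction with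
  | singleton a => simpa using h a (Finset.mem_singleton_self a)
  | cons a s ha hs ih =>
    simp only [Finset.sup'_cons hs]
    exact (h a (Finset.mem_cons_self _ _)).max
      (ih fun b hb => h b (Finset.mem_cons_of_mem hb))

theorem SLf.inf' {α : Type w} (s : Finset α) (hs : s.Nonempty) {g : α → (ι → ℚ) → ℚ}
    (h : ∀ a ∈ s, SLf (g a)) : SLf fun x => s.inf' hs fun a => g a x := by
  classical
  induction hs using Finset.Nonempty.cons_induction with
  | singleton a => simpa using h a (Finset.mem_singleton_self a)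
  | cons a s ha hs ih =>
    simp only [Finset.inf'_cons hs]
    exact (h a (Finset.mem_cons_self _ _)).min
      (ih fun b hb => h b (Finset.mem_cons_of_mem hb))

/-- the set where the maximum is attained exactly on `T` -/
theorem SL.argmax {α : Type w} [Finite α] {g : α → (ι → ℚ) → ℚ} (h : ∀ a, SLf (g a)) (T : Set α) :
    SL {x | ∀ a, a ∈ T ↔ ∀ b, g b x ≤ g a x} :=
  SL.all fun a => (SL.const (a ∈ T)).iff (SL.all fun b => SLf.sl_le (h b) (h a))

/-- the set where the minimum is attained exactly on `T` -/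
theorem SL.argmin {α : Type w} [Finite α] {g : α → (ι → ℚ) → ℚ} (h : ∀ a, SLf (g a)) (T : Set α) :
    SL {x | ∀ a, a ∈ T ↔ ∀ b, g a x ≤ g b x} :=
  SL.all fun a => (SL.const (a ∈ T)).iff (SL.all fun b => SLf.sl_le (h a) (h b))

/-- preimages under semilinear maps -/
theorem SL.pre_slf {s : Set (κ → ℚ)} (h : SL s) {T : (ι → ℚ) → (κ → ℚ)}
    (hT : ∀ k, SLf fun x => T x k) : SL (T ⁻¹' s) := by
  induction h with
  | half a c =>
    exact SLf.sl_le (SLf.sum Finset.univ fun k _ => (hT k).mul_left (a k)) (SLf.const c)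
  | compl _ ih => exact ih.compl
  | inter _ _ ih ih' => exact ih.inter ih'

theorem SF.comp_slf {α : Type w} {f : (κ → ℚ) → α} (hf : SF f) {T : (ι → ℚ) → (κ → ℚ)}
    (hT : ∀ k, SLf fun x => T x k) : SF fun x => f (T x) := by
  refine ⟨hf.1.subset ?_, fun c => (hf.2 c).pre_slf hT⟩
  rintro _ ⟨x, rfl⟩
  exact ⟨T x, rfl⟩

/-- the graph of a semilinear map -/
theorem SL.graph {T : (ι → ℚ) → (κ → ℚ)} (hT : ∀ k, SLf fun x => T x k) :
    SL {z : ι ⊕ κ → ℚ | (fun k => z (Sum.inr k)) = T fun i => z (Sum.inl i)} := by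
  have h1 : ∀ k, SLf fun z : ι ⊕ κ → ℚ => T (fun i => z (Sum.inl i)) k := by
    intro k
    obtain ⟨β, hβ, s, h, h1, h2, h3, h4⟩ := hT k
    exact ⟨β, hβ, fun b => (fun (z : ι ⊕ κ → ℚ) i => z (Sum.inl i)) ⁻¹' s b,
      fun b z => h b fun i => z (Sum.inl i), fun b => (h1 b).preimage (AffM.reindex Sum.inl),
      fun b => (h2 b).comp (AffM.reindex Sum.inl), fun z => h3 _, fun b z hz => h4 b _ hz⟩
  have h2 := SL.all fun k => SLf.sl_eq (SLf.coord (ι := ι ⊕ κ) (Sum.inr k)) (h1 k)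
  convert h2 using 1
  ext z
  simp [funext_iff]

/-- pushforward along a semilinear map with finite fibres on the support -/
theorem CF.push_slf {f : (ι → ℚ) → ℚ} (hf : CF f) {p : (ι → ℚ) → (κ → ℚ)}
    (hp : ∀ k, SLf fun x => p x k) (hfin : ∀ y, {x | f x ≠ 0 ∧ p x = y}.Finite) :
    CF (KTS.push p f) ∧ I κ (KTS.push p f) = I ι f :=
  hf.push (SL.graph hp) (fun _ _ _ => Iff.rfl) hfin

end KTS
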