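import Pool.Agent.KTS.Base
import Pool.Agent.KTS.GD
import Pool.Agent.KTS.AA

/-!
[KTS] Specialisation of rationality (MP_e511d7_ag).  DEFINITIONS.
Papers: store KTS_h19.md, KTS_paper.md.
`HahnSeries ℚ Ω` is the big valued field, `HahnSeries ℚ k` the base field `A`.
-/

set_option autoImplicit false

namespace KTS

noncomputable section

universe u v w

open Polynomial

/-! ## Hahn series -/

/-- The open disc of centre `b` and radius `r` (additive notation). -/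
def OD {Ω : Type*} [Field Ω] (b : HahnSeries ℚ Ω) (r : ℚ) : Set (HahnSeries ℚ Ω) :=
  {y | (r : WithTop ℚ) < (y - b).orderTop}

/-- Points of the field `F` over `HahnSeries ℚ k` with values in `HahnSeries ℚ Ω`. -/
abbrev Pt (k Ω F : Type*) [Field k] [Field Ω] [Algebra k Ω] [Field F] [Algebra (HahnSeries ℚ k) F] :=
  F →ₐ[HahnSeries ℚ k] HahnSeries ℚ Ω

/-- The action of `Aut(Ω/k)` (or of an embedding `Ω → Ω'` over `k`) on points. -/
def sact {k Ω Ω' F : Type*} [Field k] [Field Ω] [Algebra k Ω] [Field Ω'] [Algebra k Ω'] [Field F]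
    [Algebra (HahnSeries ℚ k) F] (σ : Ω →ₐ[k] Ω') (w : Pt k Ω F) : Pt k Ω' F :=
  (hmapA σ).comp w

/-! ## Vectors of values -/

section RV

variable {Ω : Type u} {ι : Type v}

/-- The `Ω`-part. -/
def ac (z : ι → Ω × ℚ) : ι → Ω := fun i => (z i).1

/-- The `ℚ`-part. -/
def va (z : ι → Ω × ℚ) : ι → ℚ := fun i => (z i).2

/-- The vector with parts `w`, `g`. -/
def zip (w : ι → Ω) (g : ι → ℚ) : ι → Ω × ℚ := fun i => (w i, g i)

variable {k : Type u} [Field k] [Field Ω] [Algebra k Ω]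

/-- The action of `Aut(Ω/k)` on vectors of values. -/
def sz (σ : Ω ≃ₐ[k] Ω) (z : ι → Ω × ℚ) : ι → Ω × ℚ := fun i => (σ (z i).1, (z i).2)

variable (k) in
/-- The field generated by a tuple of elements of `Ω`. -/
def kf (w : ι → Ω) : IntermediateField k Ω := IntermediateField.adjoin k (Set.range w)

/-- The stabiliser of the tuple `w` in the group `H`. -/
def fixT (H : Subgroup (Ω ≃ₐ[k] Ω)) (w : ι → Ω) : Subgroup (Ω ≃ₐ[k] Ω) where
  carrier := {σ | σ ∈ H ∧ ∀ i, σ (w i) = w i}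
  mul_mem' := by
    rintro a b ⟨ha, ha'⟩ ⟨hb, hb'⟩
    exact ⟨H.mul_mem ha hb, fun i => by rw [AlgEquiv.mul_apply, hb', ha']⟩
  one_mem' := ⟨H.one_mem, fun _ => rfl⟩
  inv_mem' := by
    rintro a ⟨ha, ha'⟩
    refine ⟨H.inv_mem ha, fun i => ?_⟩
    calc a⁻¹ (w i) = a⁻¹ (a (w i)) := by rw [ha']
      _ = w i := by rw [← AlgEquiv.mul_apply, inv_mul_cancel, AlgEquiv.one_apply]

/-- `w'` is in the `H`-orbit of `w`. -/
def Rel (H : Subgroup (Ω ≃ₐ[k] Ω)) (w w' : ι → Ω) : Prop := ∃ σ ∈ H, ∀ i, σ (w i) = w' i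

/-- Orbits of `H` on tuples. -/
def relS (H : Subgroup (Ω ≃ₐ[k] Ω)) (ι : Type v) : Setoid (ι → Ω) where
  r := Rel H
  iseqv := {
    refl := fun _ => ⟨1, H.one_mem, fun _ => rfl⟩
    symm := by
      rintro w w' ⟨σ, hσ, h⟩
      refine ⟨σ⁻¹, H.inv_mem hσ, fun i => ?_⟩
      rw [← h i, ← AlgEquiv.mul_apply, inv_mul_cancel, AlgEquiv.one_apply]
    trans := by
      rintro w w' w'' ⟨σ, hσ, h⟩ ⟨τ, hτ, h'⟩
      exact ⟨τ * σ, H.mul_mem hτ hσ, fun i => by rw [AlgEquiv.mul_apply, h, h']⟩ }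

variable [Fintype ι]

/-- Functions of finite type: invariant, constructible in the `ℚ`-part, finitely many orbits. -/
structure FT (H : Subgroup (Ω ≃ₐ[k] Ω)) (J : (ι → Ω × ℚ) → ℚ) : Prop where
  inv : ∀ σ ∈ H, ∀ z, J (sz σ z) = J z
  cf : ∀ w : ι → Ω, CF fun g : ι → ℚ => J (zip w g)
  fin : ∃ s : Finset (ι → Ω), ∀ z, J z ≠ 0 → ∃ w ∈ s, Rel H w (ac z)

/-- The integral. -/
def Int (H : Subgroup (Ω ≃ₐ[k] Ω)) (J : (ι → Ω × ℚ) → ℚ) : ℚ :=
  ∑ᶠ q : Quotient (relS H ι), I ι fun g : ι → ℚ => J (zip q.out g)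

/-- Push forward along the projection to the first coordinates. -/
def prJ {κ : Type w} [Fintype κ] (H : Subgroup (Ω ≃ₐ[k] Ω)) (J : (ι ⊕ κ → Ω × ℚ) → ℚ) :
    (ι → Ω × ℚ) → ℚ :=
  fun z => Int (fixT H (ac z)) fun z' : κ → Ω × ℚ => J (Sum.elim z z')

end RV

/-- Weights: functions of the residue field. `d` is the dimension. -/
structure Wt {k Ω : Type u} [Field k] [Field Ω] [Algebra k Ω] (d : Cardinal.{u})
    (c : IntermediateField k Ω → ℚ) : Prop where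
  inv : ∀ (σ : Ω ≃ₐ[k] Ω) (E : IntermediateField k Ω), c (E.map (σ : Ω →ₐ[k] Ω)) = c E
  dim : ∀ E : IntermediateField k Ω, c E ≠ 0 → Algebra.trdeg k E = d

/-! ## One variable: finite families of polynomials over the big field -/

section One

variable {Ω : Type u} [Field Ω] {α : Type v}

/-- All roots of the family. -/
def Rq (q : α → (HahnSeries ℚ Ω)[X]) : Set (HahnSeries ℚ Ω) := {ρ | ∃ a, (q a).IsRoot ρ}

/-- Non-zero, closed under derivative, containing `X`. -/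
structure DC (q : α → (HahnSeries ℚ Ω)[X]) : Prop where
  ne : ∀ a, q a ≠ 0
  der : ∀ a, derivative (q a) = 0 ∨ ∃ b, q b = derivative (q a)
  X_mem : ∃ a, q a = X

/-- The vector of values of the family at `y`. -/
def rq (q : α → (HahnSeries ℚ Ω)[X]) (y : HahnSeries ℚ Ω) : α → Ω × ℚ := fun a => rv ((q a).eval y)

/-- The set of nearest roots. -/
def Cl (q : α → (HahnSeries ℚ Ω)[X]) (y : HahnSeries ℚ Ω) : Set (HahnSeries ℚ Ω) :=
  {ρ | ρ ∈ Rq q ∧ ∀ ρ' ∈ Rq q, (y - ρ').orderTop ≤ (y - ρ).orderTop}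

/-- `q a` has exactly one root `ρ` in `A`, and it is simple. -/
def OneRoot (q : α → (HahnSeries ℚ Ω)[X]) (a : α) (A : Set (HahnSeries ℚ Ω))
    (ρ : HahnSeries ℚ Ω) : Prop :=
  ρ ∈ A ∧ (q a).rootMultiplicity ρ = 1 ∧ ∀ ρ' ∈ A, (q a).IsRoot ρ' → ρ' = ρ

/-- Isomorphism of root configurations. -/
structure RIso (q q' : α → (HahnSeries ℚ Ω)[X]) (β : HahnSeries ℚ Ω → HahnSeries ℚ Ω) : Prop where
  bij : Set.BijOn β (Rq q) (Rq q')
  rv : ∀ ρ ∈ Rq q, ∀ ρ' ∈ Rq q, ρ ≠ ρ' → KTS.rv (ρ - ρ') = KTS.rv (β ρ - β ρ')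
  mult : ∀ a, ∀ ρ ∈ Rq q, (q a).rootMultiplicity ρ = (q' a).rootMultiplicity (β ρ)
  lead : ∀ a, KTS.rv (q a).leadingCoeff = KTS.rv (q' a).leadingCoeff

end One

/-! ## Levels, towers, nested polydiscs -/

section Tow

variable {k Ω F : Type u} [Field k] [Field Ω] [Algebra k Ω] [Field F] [Algebra (HahnSeries ℚ k) F]

variable (k) in
/-- The field generated by the first `i` generators. -/
def lev (x : ℕ → F) (i : ℕ) : IntermediateField (HahnSeries ℚ k) F :=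
  IntermediateField.adjoin (HahnSeries ℚ k) (x '' {j | j < i})

/-- The vector of values of a tuple at a point. -/
def rvt {ι : Type v} (s : ι → F) (φ : Pt k Ω F) : ι → Ω × ℚ := fun i => rv (φ (s i))

/-- Index type of the coordinates of level `< i`. -/
def Idx (P : ℕ → Finset F[X]) : ℕ → Type u
  | 0 => PEmpty
  | i + 1 => Idx P i ⊕ {g // g ∈ P i}

instance idxFintype (P : ℕ → Finset F[X]) : ∀ i, Fintype (Idx P i)
  | 0 => inferInstanceAs (Fintype PEmpty)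
  | i + 1 =>
    letI := idxFintype P i
    inferInstanceAs (Fintype (Idx P i ⊕ {g // g ∈ P i}))

/-- The coordinates: `g (x i)` for `g ∈ P i`. -/
def helt (x : ℕ → F) (P : ℕ → Finset F[X]) : (i : ℕ) → Idx P i → F
  | 0 => PEmpty.elim
  | i + 1 => Sum.elim (helt x P i) fun g => g.1.eval (x i)

/-- `y` is algebraic over the image of `E` under `φ`. -/
def AlgO (φ : Pt k Ω F) (E : IntermediateField (HahnSeries ℚ k) F) (y : HahnSeries ℚ Ω) : Prop :=
  ∃ g : F[X], g ≠ 0 ∧ (∀ n, g.coeff n ∈ E) ∧ (g.map (φ : F →+* HahnSeries ℚ Ω)).eval y = 0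

/-- The values of `x i` at the points of `D` which agree with `φ` on the first `i` generators. -/
def V (x : ℕ → F) (D : Set (Pt k Ω F)) (i : ℕ) (φ : Pt k Ω F) : Set (HahnSeries ℚ Ω) :=
  {y | ∃ ψ ∈ D, (∀ j < i, ψ (x j) = φ (x j)) ∧ ψ (x i) = y}

/-- Nested polydiscs for the order `x 0, x 1, …, x (N-1)`. -/
structure NPd (x : ℕ → F) (N : ℕ) (D : Set (Pt k Ω F)) : Prop where
  tr : ∀ i < N, Transcendental (lev k x i) (x i) → ∀ φ ∈ D, ∃ (b : HahnSeries ℚ Ω) (r : ℚ),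
    V x D i φ = {y | y ∈ OD b r ∧ ¬ AlgO φ (lev k x i) y}
  al : ∀ i < N, IsAlgebraic (lev k x i) (x i) → ∀ φ ∈ D, (V x D i φ).Subsingleton

/-- The family of polynomials of level `i` at the point `φ`. -/
def qf (P : Finset F[X]) (φ : Pt k Ω F) : {g // g ∈ P} → (HahnSeries ℚ Ω)[X] :=
  fun g => g.1.map (φ : F →+* HahnSeries ℚ Ω)

variable (k Ω) in
/-- Uniform towers. -/
structure Twr (x : ℕ → F) (N : ℕ) (P : ℕ → Finset F[X]) : Prop where
  coeff : ∀ i < N, ∀ g ∈ P i, ∀ n, g.coeff n ∈ lev k x i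
  ne : ∀ i < N, ∀ g ∈ P i, g ≠ 0
  X_mem : ∀ i < N, X ∈ P i
  der : ∀ i < N, ∀ g ∈ P i, derivative g ≠ 0 → derivative g ∈ P i
  min : ∀ i < N, IsAlgebraic (lev k x i) (x i) →
    (minpoly (lev k x i) (x i)).map (algebraMap (lev k x i) F) ∈ P i
  unif : ∀ i < N, ∀ φ ψ : Pt k Ω F, rvt (helt x P i) φ = rvt (helt x P i) ψ →
    ∃ β, RIso (qf (P i) φ) (qf (P i) ψ) β

/-- Quotients of two coordinates of the last level `< i` (constants for `i = 0`). -/
def Quo (x : ℕ → F) (P : ℕ → Finset F[X]) : ℕ → F → Prop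
  | 0, s => ∃ a : HahnSeries ℚ k, s = algebraMap (HahnSeries ℚ k) F a
  | i + 1, s => ∃ g ∈ P i, ∃ h ∈ P i, g.eval (x i) ≠ 0 ∧ h.eval (x i) ≠ 0 ∧
      s = g.eval (x i) / h.eval (x i)

/-- The integrand attached to a set of points `S`, a tuple `s` and a weight. -/
def JA {ι : Type v} (S : Set (Pt k Ω F)) (s : ι → F) (c : IntermediateField k Ω → ℚ) :
    (ι → Ω × ℚ) → ℚ := by
  classical
  exact fun z => if ∃ φ ∈ S, rvt s φ = z then c (kf k (ac z)) else 0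

/-- `S` is measurable with respect to the tuple `s`: a union of fibres, described by a set which is
stable and semilinear in the `ℚ`-part. -/
def Meas {ι : Type v} [Fintype ι] (S : Set (Pt k Ω F)) (s : ι → F) : Prop :=
  ∃ Z : Set (ι → Ω × ℚ), (∀ φ, φ ∈ S ↔ rvt s φ ∈ Z) ∧ (∀ (σ : Ω ≃ₐ[k] Ω), ∀ z ∈ Z, sz σ z ∈ Z) ∧
    ∀ w : ι → Ω, SL {g : ι → ℚ | zip w g ∈ Z}

end Tow

end

end KTS
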