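import Pool.Agent.KTS.AA
import Pool.Agent.KTS.Base

/-!
# [KTS-H1] rv calculus and the label lemma
-/

set_option autoImplicit false

namespace KTS

open HahnSeries

universe u v

section ring

variable {R : Type u} [CommRing R]

theorem rv_zero : rv (0 : HahnSeries ℚ R) = (0, 0) := by
  unfold rv
  rw [leadingCoeff_zero, order_zero]

theorem rv_fst (x : HahnSeries ℚ R) : (rv x).1 = x.leadingCoeff := rfl

theorem rv_snd (x : HahnSeries ℚ R) : (rv x).2 = x.order := rfl

theorem rv_fst_eq_zero {x : HahnSeries ℚ R} : (rv x).1 = 0 ↔ x = 0 := leadingCoeff_eq_zero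

theorem rv_eq_zero {x : HahnSeries ℚ R} : rv x = (0, 0) ↔ x = 0 := by
  constructor
  · intro h
    exact rv_fst_eq_zero.1 (congrArg Prod.fst h)
  · rintro rfl
    exact rv_zero

theorem zero_iff_of_rv {x y : HahnSeries ℚ R} (h : rv x = rv y) : x = 0 ↔ y = 0 := by
  rw [← rv_eq_zero, h, rv_eq_zero]

theorem orderTop_of_rv {x y : HahnSeries ℚ R} (h : rv x = rv y) : x.orderTop = y.orderTop := by
  by_cases hx : x = 0
  · rw [hx, (zero_iff_of_rv h).1 hx]
  · have hy : y ≠ 0 := fun h1 => hx ((zero_iff_of_rv h).2 h1)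
    rw [← order_eq_orderTop_of_ne_zero hx, ← order_eq_orderTop_of_ne_zero hy]
    exact congrArg (fun p : R × ℚ => ((p.2 : ℚ) : WithTop ℚ)) h

theorem orderTop_of_rv' {x : HahnSeries ℚ R} {c : R} {q : ℚ} (h : rv x = (c, q)) (hc : c ≠ 0) :
    x.orderTop = (q : WithTop ℚ) := by
  have hx : x ≠ 0 := by
    rintro rfl
    rw [rv_zero] at h
    exact hc (congrArg Prod.fst h).symm
  rw [← order_eq_orderTop_of_ne_zero hx]
  exact congrArg (fun p : R × ℚ => ((p.2 : ℚ) : WithTop ℚ)) h

/-- `rv` from the order and the coefficient -/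
theorem rv_of_coeff {x : HahnSeries ℚ R} {c : R} {q : ℚ} (h : x.orderTop = (q : WithTop ℚ))
    (hc : x.coeff q = c) : rv x = (c, q) := by
  have hx : x ≠ 0 := by
    rintro rfl
    rw [orderTop_zero] at h
    exact WithTop.top_ne_coe h
  have h1 : x.order = q := by
    have := order_eq_orderTop_of_ne_zero hx
    rw [h, WithTop.coe_inj] at this
    exact this
  unfold rv
  rw [h1, leadingCoeff_eq, h1, hc]

theorem rv_of_coeff' {x : HahnSeries ℚ R} {c : R} {q : ℚ} (h : ∀ p < q, x.coeff p = 0)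
    (hc : x.coeff q = c) (hc0 : c ≠ 0) : rv x = (c, q) := by
  refine rv_of_coeff ?_ hc
  apply le_antisymm
  · exact orderTop_le_of_coeff_ne_zero (by rwa [hc])
  · by_contra hcon
    rw [not_le] at hcon
    obtain ⟨p, hp⟩ := WithTop.ne_top_iff_exists.1 (ne_top_of_lt hcon)
    rw [← hp, WithTop.coe_lt_coe] at hcon
    exact coeff_orderTop_ne hp.symm (h p hcon)

theorem coeff_of_rv {x : HahnSeries ℚ R} {c : R} {q : ℚ} (h : rv x = (c, q)) : x.coeff q = c := by
  have h1 : x.order = q := congrArg Prod.snd h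
  have h2 : x.leadingCoeff = c := congrArg Prod.fst h
  rw [leadingCoeff_eq, h1] at h2
  exact h2

/-- [H1] -/
theorem rv_eq_of_lt {x y : HahnSeries ℚ R} (h : x.orderTop < (x - y).orderTop) : rv x = rv y := by
  have hx : x ≠ 0 := by
    rintro rfl
    rw [orderTop_zero] at h
    exact not_top_lt h
  have h1 : x.orderTop < (-(x - y)).orderTop := by rwa [orderTop_neg]
  have h2 : y = x + -(x - y) := by ring
  have h3 := orderTop_add_eq_left h1
  have h4 := leadingCoeff_add_eq_left h1
  rw [← h2] at h3 h4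
  have hy : y ≠ 0 := by
    rintro rfl
    rw [orderTop_zero] at h3
    exact hx (orderTop_eq_top.1 h3.symm)
  have h5 : x.order = y.order := by
    have := h3
    rw [← order_eq_orderTop_of_ne_zero hx, ← order_eq_orderTop_of_ne_zero hy,
      WithTop.coe_inj] at this
    exact this.symm
  unfold rv
  rw [h4, h5]

theorem lt_of_rv_eq {x y : HahnSeries ℚ R} (h : rv x = rv y) (hx : x ≠ 0) :
    x.orderTop < (x - y).orderTop := by
  have hy : y ≠ 0 := fun h1 => hx ((zero_iff_of_rv h).2 h1)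
  have h1 : x.orderTop = (x.order : WithTop ℚ) := (order_eq_orderTop_of_ne_zero hx).symm
  have h2 : y.orderTop = (x.order : WithTop ℚ) := by rw [← orderTop_of_rv h, h1]
  have h3 : ∀ p ≤ x.order, (x - y).coeff p = 0 := by
    intro p hp
    rw [coeff_sub]
    rcases lt_or_eq_of_le hp with hp | hp
    · rw [coeff_eq_zero_of_lt_orderTop (by rw [h1]; exact WithTop.coe_lt_coe.2 hp),
        coeff_eq_zero_of_lt_orderTop (by rw [h2]; exact WithTop.coe_lt_coe.2 hp), sub_zero]
    · rw [hp]
      have h4 : x.coeff x.order = (rv x).1 := leadingCoeff_eq.symm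
      have h5 : y.coeff x.order = (rv y).1 := coeff_of_rv (by rw [← h]; rfl)
      rw [h4, h5, h, sub_self]
  by_contra hcon
  rw [not_lt] at hcon
  rw [h1] at hcon
  obtain ⟨p, hp⟩ := WithTop.ne_top_iff_exists.1 (ne_top_of_le_ne_top WithTop.coe_ne_top hcon)
  rw [← hp, WithTop.coe_le_coe] at hcon
  exact coeff_orderTop_ne hp.symm (h3 p hcon)

/-- [H1] -/
theorem rv_eq_iff {x y : HahnSeries ℚ R} :
    rv x = rv y ↔ (x = 0 ∧ y = 0) ∨ x.orderTop < (x - y).orderTop := by
  constructor
  · intro h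
    by_cases hx : x = 0
    · exact Or.inl ⟨hx, (zero_iff_of_rv h).1 hx⟩
    · exact Or.inr (lt_of_rv_eq h hx)
  · rintro (⟨rfl, rfl⟩ | h)
    · rfl
    · exact rv_eq_of_lt h

theorem rv_neg (x : HahnSeries ℚ R) : rv (-x) = (-(rv x).1, (rv x).2) := by
  unfold rv
  rw [leadingCoeff_neg, order_neg]

theorem rv_neg_congr {x x' : HahnSeries ℚ R} (h : rv x = rv x') : rv (-x) = rv (-x') := by
  rw [rv_neg, rv_neg, h]

/-- [H1] -/
theorem rv_add_left {x y : HahnSeries ℚ R} (h : x.orderTop < y.orderTop) : rv (x + y) = rv x := by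
  refine (rv_eq_of_lt ?_).symm
  have : x - (x + y) = -y := by ring
  rw [this, orderTop_neg]
  exact h

theorem rv_add_right {x y : HahnSeries ℚ R} (h : y.orderTop < x.orderTop) :
    rv (x + y) = rv y := by
  rw [add_comm]
  exact rv_add_left h

/-- [H1] -/
theorem rv_add_eq {x y : HahnSeries ℚ R} (h : x.orderTop = y.orderTop)
    (hc : x.leadingCoeff + y.leadingCoeff ≠ 0) :
    rv (x + y) = (x.leadingCoeff + y.leadingCoeff, x.order) := by
  have hx : x ≠ 0 := by
    rintro rfl
    rw [orderTop_zero] at h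
    rw [orderTop_eq_top.1 h.symm, leadingCoeff_zero, add_zero] at hc
    exact hc rfl
  have h1 : x.orderTop = (x.order : WithTop ℚ) := (order_eq_orderTop_of_ne_zero hx).symm
  have hy : y ≠ 0 := by
    rintro rfl
    rw [h1, orderTop_zero] at h
    exact WithTop.coe_ne_top h
  have h2 : y.order = x.order := by
    have := h
    rw [← order_eq_orderTop_of_ne_zero hx, ← order_eq_orderTop_of_ne_zero hy,
      WithTop.coe_inj] at this
    exact this.symm
  refine rv_of_coeff' (fun p hp => ?_) ?_ hc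
  · rw [coeff_add, coeff_eq_zero_of_lt_orderTop (by rw [h1]; exact WithTop.coe_lt_coe.2 hp),
      coeff_eq_zero_of_lt_orderTop (by rw [← h, h1]; exact WithTop.coe_lt_coe.2 hp), add_zero]
  · rw [coeff_add, leadingCoeff_eq, leadingCoeff_eq, h2]

/-- [H1] (0.b) -/
theorem rv_add_congr {a a' b b' : HahnSeries ℚ R} (ha : rv a = rv a') (hb : rv b = rv b')
    (h : a.orderTop ≠ b.orderTop ∨ a.leadingCoeff + b.leadingCoeff ≠ 0) :
    rv (a + b) = rv (a' + b') := by
  have ha1 := orderTop_of_rv ha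
  have hb1 := orderTop_of_rv hb
  rcases lt_trichotomy a.orderTop b.orderTop with h1 | h1 | h1
  · rw [rv_add_left h1, rv_add_left (by rwa [← ha1, ← hb1]), ha]
  · have hc := h.resolve_left (not_not.2 h1)
    have ha2 : a'.leadingCoeff = a.leadingCoeff := (congrArg Prod.fst ha).symm
    have hb2 : b'.leadingCoeff = b.leadingCoeff := (congrArg Prod.fst hb).symm
    have ha3 : a'.order = a.order := (congrArg Prod.snd ha).symm
    rw [rv_add_eq h1 hc, rv_add_eq (by rw [← ha1, ← hb1, h1]) (by rwa [ha2, hb2]), ha2, hb2, ha3]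
  · rw [rv_add_right h1, rv_add_right (by rwa [← ha1, ← hb1]), hb]

theorem rv_sub_congr {a a' b b' : HahnSeries ℚ R} (ha : rv a = rv a') (hb : rv b = rv b')
    (h : a.orderTop ≠ b.orderTop ∨ a.leadingCoeff ≠ b.leadingCoeff) :
    rv (a - b) = rv (a' - b') := by
  rw [sub_eq_add_neg, sub_eq_add_neg]
  refine rv_add_congr ha (rv_neg_congr hb) ?_
  rw [orderTop_neg, leadingCoeff_neg]
  rcases h with h | h
  · exact Or.inl h
  · exact Or.inr fun h1 => h (by
      rw [← sub_eq_add_neg, sub_eq_zero] at h1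
      exact h1)

theorem rv_single {c : R} (hc : c ≠ 0) (q : ℚ) : rv (single q c) = (c, q) := by
  unfold rv
  rw [leadingCoeff_of_single, order_single hc]

end ring

section mul

variable {R : Type u} [CommRing R] [IsDomain R]

theorem rv_mul {x y : HahnSeries ℚ R} (hx : x ≠ 0) (hy : y ≠ 0) :
    rv (x * y) = ((rv x).1 * (rv y).1, (rv x).2 + (rv y).2) := by
  unfold rv
  rw [leadingCoeff_mul, order_mul hx hy]

theorem rv_mul_congr {x x' y y' : HahnSeries ℚ R} (h : rv x = rv x') (h' : rv y = rv y') :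
    rv (x * y) = rv (x' * y') := by
  by_cases hx : x = 0
  · rw [hx, (zero_iff_of_rv h).1 hx, zero_mul, zero_mul]
  · by_cases hy : y = 0
    · rw [hy, (zero_iff_of_rv h').1 hy, mul_zero, mul_zero]
    · rw [rv_mul hx hy, rv_mul (fun h1 => hx ((zero_iff_of_rv h).2 h1))
        (fun h1 => hy ((zero_iff_of_rv h').2 h1)), h, h']

theorem rv_prod_congr {α : Type v} (s : Finset α) {f g : α → HahnSeries ℚ R}
    (h : ∀ i ∈ s, rv (f i) = rv (g i)) : rv (∏ i ∈ s, f i) = rv (∏ i ∈ s, g i) := by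
  classical
  induction s using Finset.induction_on with
  | empty => rfl
  | insert a s ha ih =>
    rw [Finset.prod_insert ha, Finset.prod_insert ha]
    exact rv_mul_congr (h a (Finset.mem_insert_self _ _))
      (ih fun i hi => h i (Finset.mem_insert_of_mem hi))

theorem rv_pow_congr {x x' : HahnSeries ℚ R} (h : rv x = rv x') (n : ℕ) :
    rv (x ^ n) = rv (x' ^ n) := by
  induction n with
  | zero => rw [pow_zero, pow_zero]
  | succ n ih =>
    rw [pow_succ, pow_succ]
    exact rv_mul_congr ih h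

/-- a factor of value `> 0` distance to `1` -/
theorem rv_mul_one_add {x y : HahnSeries ℚ R} (h : 0 < y.orderTop) : rv (x * (1 + y)) = rv x := by
  by_cases hx : x = 0
  · rw [hx, zero_mul]
  · refine (rv_eq_of_lt ?_).symm
    have h1 : x - x * (1 + y) = -(x * y) := by ring
    rw [h1, orderTop_neg, orderTop_mul]
    have h2 : x.orderTop ≠ ⊤ := orderTop_ne_top.2 hx
    calc x.orderTop = x.orderTop + 0 := (add_zero _).symm
      _ < x.orderTop + y.orderTop := WithTop.add_lt_add_left h2 h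

end mul

section field

variable {Ω : Type u} [Field Ω]

theorem rv_inv (x : HahnSeries ℚ Ω) : rv x⁻¹ = ((rv x).1⁻¹, -(rv x).2) := by
  by_cases hx : x = 0
  · rw [hx, inv_zero, rv_zero]
    simp
  · have hx' : x⁻¹ ≠ 0 := inv_ne_zero hx
    have h1 := rv_mul hx hx'
    rw [mul_inv_cancel₀ hx] at h1
    have h2 : rv (1 : HahnSeries ℚ Ω) = (1, 0) := by
      unfold rv
      rw [leadingCoeff_one, order_one]
    rw [h2] at h1
    have h3 := congrArg Prod.fst h1
    have h4 := congrArg Prod.snd h1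
    simp only at h3 h4
    refine Prod.ext ?_ ?_
    · exact eq_inv_of_mul_eq_one_right h3.symm
    · simp only
      linarith

theorem rv_inv_congr {x x' : HahnSeries ℚ Ω} (h : rv x = rv x') : rv x⁻¹ = rv x'⁻¹ := by
  rw [rv_inv, rv_inv, h]

theorem rv_div_congr {x x' y y' : HahnSeries ℚ Ω} (h : rv x = rv x') (h' : rv y = rv y') :
    rv (x / y) = rv (x' / y') := by
  rw [div_eq_mul_inv, div_eq_mul_inv]
  exact rv_mul_congr h (rv_inv_congr h')

theorem rv_zpow_congr {x x' : HahnSeries ℚ Ω} (h : rv x = rv x') (n : ℤ) :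
    rv (x ^ n) = rv (x' ^ n) := by
  rcases n with n | n
  · rw [Int.ofNat_eq_natCast, zpow_natCast, zpow_natCast]
    exact rv_pow_congr h n
  · rw [zpow_negSucc, zpow_negSucc]
    exact rv_inv_congr (rv_pow_congr h _)

theorem orderTop_inv {x : HahnSeries ℚ Ω} {q : ℚ} (h : x.orderTop = (q : WithTop ℚ)) :
    (x⁻¹).orderTop = ((-q : ℚ) : WithTop ℚ) := by
  have hx : x ≠ 0 := by
    rintro rfl
    rw [orderTop_zero] at h
    exact WithTop.top_ne_coe h
  have h1 : x.order = q := by
    have := order_eq_orderTop_of_ne_zero hx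
    rw [h, WithTop.coe_inj] at this
    exact this
  rw [← order_eq_orderTop_of_ne_zero (inv_ne_zero hx)]
  have h2 := congrArg Prod.snd (rv_inv x)
  change (x⁻¹).order = - x.order at h2
  rw [h2, h1]

/-- every pair is a value of `rv` -/
theorem exists_rv {c : Ω} (hc : c ≠ 0) (q : ℚ) : ∃ x : HahnSeries ℚ Ω, rv x = (c, q) :=
  ⟨single q c, rv_single hc q⟩

theorem rv_hmapA {k Ω' : Type u} [Field k] [Algebra k Ω] [Field Ω'] [Algebra k Ω']
    (σ : Ω →ₐ[k] Ω') (x : HahnSeries ℚ Ω) : rv (hmapA σ x) = (σ (rv x).1, (rv x).2) := by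
  by_cases hx : x = 0
  · rw [hx, map_zero, rv_zero, rv_zero, map_zero]
  · refine rv_of_coeff' (fun p hp => ?_) ?_ ?_
    · rw [hmapA_coeff, coeff_eq_zero_of_lt_order hp, map_zero]
    · rw [hmapA_coeff]
      congr 1
      exact leadingCoeff_eq.symm
    · rw [Ne, map_eq_zero]
      exact leadingCoeff_ne_zero.2 hx

theorem orderTop_hmapA {k Ω' : Type u} [Field k] [Algebra k Ω] [Field Ω'] [Algebra k Ω']
    (σ : Ω →ₐ[k] Ω') (x : HahnSeries ℚ Ω) : (hmapA σ x).orderTop = x.orderTop := by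
  by_cases hx : x = 0
  · rw [hx, map_zero, orderTop_zero, orderTop_zero]
  · have h1 := rv_hmapA σ x
    rw [orderTop_of_rv' h1 (by
      rw [Ne, map_eq_zero]
      exact leadingCoeff_ne_zero.2 hx)]
    exact order_eq_orderTop_of_ne_zero hx

theorem hv_nat_ne [CharZero Ω] {n : ℕ} (hn : n ≠ 0) :
    ((n : ℕ) : HahnSeries ℚ Ω).orderTop = ((0 : ℚ) : WithTop ℚ) := by
  have h2 : (n : HahnSeries ℚ Ω) = HahnSeries.C (n : Ω) := by rw [map_natCast]
  rw [h2, HahnSeries.C_apply, orderTop_single (by exact_mod_cast hn)]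

/-- a permutation of a finite family which preserves the `rv` of the differences -/
theorem label_perm [CharZero Ω] {ι : Type v} [Finite ι] (a : ι → HahnSeries ℚ Ω)
    (π : Equiv.Perm ι) (h : ∀ i j, rv (a (π i) - a (π j)) = rv (a i - a j)) (i : ι) :
    a (π i) = a i := by
  classical
  by_contra hne
  set s : ι → HahnSeries ℚ Ω := fun i => a (π i) - a i with hs
  have : Nonempty ι := ⟨i⟩
  obtain ⟨i₀, hi₀⟩ := Finite.exists_min (fun i => (s i).orderTop)
  set μ := (s i₀).orderTop with hμ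
  have hμt : μ ≠ ⊤ := by
    intro ht
    have h1 := hi₀ i
    rw [ht, top_le_iff, orderTop_eq_top] at h1
    exact hne (sub_eq_zero.1 h1)
  obtain ⟨n, hn, hπ⟩ : ∃ n, 0 < n ∧ π ^ n = 1 := by
    have := isOfFinOrder_of_finite π
    exact isOfFinOrder_iff_pow_eq_one.1 this
  -- telescoping
  have htel : ∀ m : ℕ, a ((π ^ m) i₀) - a i₀ = ∑ j ∈ Finset.range m, s ((π ^ j) i₀) := by
    intro m
    induction m with
    | zero => simp
    | succ m ih =>
      rw [Finset.sum_range_succ, ← ih, hs]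
      have : (π ^ (m + 1)) i₀ = π ((π ^ m) i₀) := by
        rw [pow_succ', Equiv.Perm.mul_apply]
      simp only [this]
      ring
  have hge : ∀ m : ℕ, μ ≤ (a ((π ^ m) i₀) - a i₀).orderTop := by
    intro m
    rw [htel m]
    exact AddValuation.map_le_sum (hv Ω) fun j _ => hi₀ _
  have hgt : ∀ m : ℕ, μ < (s ((π ^ m) i₀) - s i₀).orderTop := by
    intro m
    have h1 : s ((π ^ m) i₀) - s i₀ =
        -((a ((π ^ m) i₀) - a i₀) - (a (π ((π ^ m) i₀)) - a (π i₀))) := by
      rw [hs]
      ring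
    have h2 := (h ((π ^ m) i₀) i₀).symm
    by_cases h3 : a ((π ^ m) i₀) - a i₀ = 0
    · rw [h1, h3, (zero_iff_of_rv h2).1 h3, sub_zero, neg_zero, orderTop_zero]
      exact lt_of_le_of_ne le_top hμt
    · rw [h1, orderTop_neg]
      exact lt_of_le_of_lt (hge m) (lt_of_rv_eq h2 h3)
  have h0 : (0 : HahnSeries ℚ Ω) = (n : HahnSeries ℚ Ω) * s i₀ +
      ∑ j ∈ Finset.range n, (s ((π ^ j) i₀) - s i₀) := by
    have h1 := htel n
    rw [hπ, Equiv.Perm.one_apply, sub_self] at h1
    rw [Finset.sum_sub_distrib, ← h1, Finset.sum_const, Finset.card_range, nsmul_eq_mul]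
    ring
  have h4 : μ < ((n : HahnSeries ℚ Ω) * s i₀).orderTop := by
    have h5 : (n : HahnSeries ℚ Ω) * s i₀ =
        -∑ j ∈ Finset.range n, (s ((π ^ j) i₀) - s i₀) := by
      linear_combination -h0
    rw [h5, orderTop_neg]
    exact AddValuation.map_lt_sum (hv Ω) hμt fun j _ => hgt j
  rw [orderTop_mul, hv_nat_ne hn.ne', WithTop.coe_zero, zero_add] at h4
  exact lt_irrefl _ h4

/-- [KTS 0.i] LABEL LEMMA -/
theorem label [CharZero Ω] {ι : Type v} [Finite ι] (a b : ι → HahnSeries ℚ Ω)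
    (hr : Set.range a = Set.range b) (h : ∀ i j, rv (a i - a j) = rv (b i - b j)) : a = b := by
  classical
  have hT : Finite (Set.range a) := Set.finite_range a
  have hwd : ∀ i j, a i = a j ↔ b i = b j := by
    intro i j
    have := zero_iff_of_rv (h i j)
    rw [sub_eq_zero, sub_eq_zero] at this
    exact this
  choose c hc using fun x : Set.range a => x.2
  let π₀ : Set.range a → Set.range a := fun x => ⟨b (c x), by rw [hr]; exact ⟨_, rfl⟩⟩
  have hπ₀ : ∀ i, ((π₀ ⟨a i, i, rfl⟩ : Set.range a) : HahnSeries ℚ Ω) = b i := by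
    intro i
    exact (hwd _ _).1 (hc ⟨a i, i, rfl⟩)
  have hinj : Function.Injective π₀ := by
    intro x y hxy
    have h1 : b (c x) = b (c y) := congrArg Subtype.val hxy
    apply Subtype.ext
    rw [← hc x, ← hc y]
    exact (hwd _ _).2 h1
  let π : Equiv.Perm (Set.range a) := Equiv.ofBijective π₀ (Finite.injective_iff_bijective.1 hinj)
  have h1 := label_perm (fun x : Set.range a => (x : HahnSeries ℚ Ω)) π (by
    intro x y
    have h2 := h (c x) (c y)
    rw [hc x, hc y] at h2
    exact h2.symm)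
  funext i
  have h2 := h1 ⟨a i, i, rfl⟩
  have h3 : ((π ⟨a i, i, rfl⟩ : Set.range a) : HahnSeries ℚ Ω) = b i := hπ₀ i
  rw [h3] at h2
  exact h2.symm

end field

end KTS
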