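import Pool.Agent.KTS.AA
import Pool.Agent.KTS.HB1
import Pool.Agent.KTS.Defs

/-!
# [KTS-D1] one variable: Newton polygons, the disc lemma, separation
-/

set_option autoImplicit false

namespace KTS

open Polynomial
open HahnSeries (orderTop_eq_top orderTop_one orderTop_add_eq_left orderTop_add_eq_right orderTop_neg)

universe u v w

/-! ### values in `WithTop ℚ` -/

theorem wt_add_le {a b : ℚ} {x y : WithTop ℚ} (h1 : (a : WithTop ℚ) ≤ x)
    (h2 : (b : WithTop ℚ) ≤ y) : ((a + b : ℚ) : WithTop ℚ) ≤ x + y := by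
  rw [WithTop.coe_add]
  exact add_le_add h1 h2

theorem wt_add_lt_left {a b : ℚ} {x y : WithTop ℚ} (h1 : (a : WithTop ℚ) < x)
    (h2 : (b : WithTop ℚ) ≤ y) : ((a + b : ℚ) : WithTop ℚ) < x + y := by
  rw [WithTop.coe_add]
  exact WithTop.add_lt_add_of_lt_of_le WithTop.coe_ne_top h1 h2

theorem wt_add_lt_right {a b : ℚ} {x y : WithTop ℚ} (h1 : (a : WithTop ℚ) ≤ x)
    (h2 : (b : WithTop ℚ) < y) : ((a + b : ℚ) : WithTop ℚ) < x + y := by
  rw [WithTop.coe_add]
  exact WithTop.add_lt_add_of_le_of_lt WithTop.coe_ne_top h1 h2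

theorem wt_lt_add {q : ℚ} {x y : WithTop ℚ} (hq : (q : WithTop ℚ) < x) (hy : 0 ≤ y) :
    (q : WithTop ℚ) < x + y := by
  have h := wt_add_lt_left (a := q) (b := 0) hq hy
  rwa [add_zero] at h

/-! ### order of differences -/

section ord

variable {E : Type u} [Field E]

theorem ot_swap (x y : HahnSeries ℚ E) : (x - y).orderTop = (y - x).orderTop :=
  AddValuation.map_sub_swap (hv E) x y

theorem ot_top {x y : HahnSeries ℚ E} : (x - y).orderTop = ⊤ ↔ x = y := by
  rw [orderTop_eq_top, sub_eq_zero]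

theorem ot_self (x : HahnSeries ℚ E) : (x - x).orderTop = ⊤ := ot_top.2 rfl

/-- ultrametric inequality -/
theorem ot_ge (x y z : HahnSeries ℚ E) :
    min (x - y).orderTop (y - z).orderTop ≤ (x - z).orderTop := by
  have h := AddValuation.map_add (hv E) (x - y) (y - z)
  rw [sub_add_sub_cancel] at h
  exact h

theorem ot_ge' {x y z : HahnSeries ℚ E} {t : WithTop ℚ} (h1 : t ≤ (x - y).orderTop)
    (h2 : t ≤ (y - z).orderTop) : t ≤ (x - z).orderTop :=
  (le_min h1 h2).trans (ot_ge x y z)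

theorem ot_gt' {x y z : HahnSeries ℚ E} {t : WithTop ℚ} (h1 : t < (x - y).orderTop)
    (h2 : t < (y - z).orderTop) : t < (x - z).orderTop :=
  (lt_min h1 h2).trans_le (ot_ge x y z)

/-- isosceles triangles -/
theorem ot_eq_of_lt {x y z : HahnSeries ℚ E} (h : (x - y).orderTop < (y - z).orderTop) :
    (x - z).orderTop = (x - y).orderTop := by
  have h1 := orderTop_add_eq_left h
  rwa [sub_add_sub_cancel] at h1

theorem ot_eq_of_lt' {x y z : HahnSeries ℚ E} (h : (y - z).orderTop < (x - y).orderTop) :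
    (x - z).orderTop = (y - z).orderTop := by
  have h1 := orderTop_add_eq_right h
  rwa [sub_add_sub_cancel] at h1

end ord

/-! ### Newton polygons -/

section np

variable {E : Type u} [Field E]

theorem NP.unique {G : (HahnSeries ℚ E)[X]} {s : ℚ} {J J' : ℕ} {m m' : ℚ} (h : NP G s J m)
    (h' : NP G s J' m') : J = J' ∧ m = m' := by
  have key : ∀ {J J' : ℕ} {m m' : ℚ}, NP G s J m → NP G s J' m' → m' ≤ m := by
    intro J J' m m' h h'
    have h1 := h'.le J
    rw [h.eq, WithTop.coe_le_coe] at h1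
    linarith
  have hm : m = m' := le_antisymm (key h' h) (key h h')
  subst hm
  refine ⟨?_, rfl⟩
  rcases lt_trichotomy J J' with h1 | h1 | h1
  · have h2 := h.lt J' h1
    rw [h'.eq] at h2
    exact absurd h2 (lt_irrefl _)
  · exact h1
  · have h2 := h'.lt J h1
    rw [h.eq] at h2
    exact absurd h2 (lt_irrefl _)

theorem NP.ne_zero {G : (HahnSeries ℚ E)[X]} {s : ℚ} {J : ℕ} {m : ℚ} (h : NP G s J m) : G ≠ 0 := by
  rintro rfl
  have h1 := h.eq
  rw [coeff_zero, AddValuation.map_zero] at h1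
  exact WithTop.top_ne_coe h1

theorem NP.mul {G H : (HahnSeries ℚ E)[X]} {s : ℚ} {J K : ℕ} {m n : ℚ} (hG : NP G s J m)
    (hH : NP H s K n) : NP (G * H) s (J + K) (m + n) := by
  classical
  have hle : ∀ i j : ℕ, ((m + n - (i + j : ℕ) * s : ℚ) : WithTop ℚ) ≤
      hv E (G.coeff i * H.coeff j) := by
    intro i j
    rw [AddValuation.map_mul]
    have h1 : (m + n - (i + j : ℕ) * s : ℚ) = (m - i * s) + (n - j * s) := by
      push_cast
      ring
    rw [h1]
    exact wt_add_le (hG.le i) (hH.le j)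
  have hlt : ∀ i j : ℕ, (J < i ∨ K < j) → ((m + n - (i + j : ℕ) * s : ℚ) : WithTop ℚ) <
      hv E (G.coeff i * H.coeff j) := by
    intro i j hij
    rw [AddValuation.map_mul]
    have h1 : (m + n - (i + j : ℕ) * s : ℚ) = (m - i * s) + (n - j * s) := by
      push_cast
      ring
    rw [h1]
    rcases hij with h | h
    · exact wt_add_lt_left (hG.lt i h) (hH.le j)
    · exact wt_add_lt_right (hG.le i) (hH.lt j h)
  refine ⟨fun k => ?_, ?_, fun k hk => ?_⟩
  · rw [coeff_mul]
    refine AddValuation.map_le_sum _ fun p hp => ?_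
    rw [Finset.HasAntidiagonal.mem_antidiagonal] at hp
    rw [← hp]
    exact hle p.1 p.2
  · rw [coeff_mul, ← Finset.add_sum_erase _ _
      (show (J, K) ∈ Finset.HasAntidiagonal.antidiagonal (J + K) from
        Finset.HasAntidiagonal.mem_antidiagonal.2 rfl)]
    have h1 : hv E (G.coeff J * H.coeff K) = ((m + n - (J + K : ℕ) * s : ℚ) : WithTop ℚ) := by
      rw [AddValuation.map_mul, hG.eq, hH.eq, ← WithTop.coe_add, WithTop.coe_inj]
      push_cast
      ring
    rw [AddValuation.map_add_eq_of_lt_left, h1]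
    rw [h1]
    refine AddValuation.map_lt_sum _ WithTop.coe_ne_top fun p hp => ?_
    have hp1 := Finset.ne_of_mem_erase hp
    have hp2 := Finset.HasAntidiagonal.mem_antidiagonal.1 (Finset.mem_of_mem_erase hp)
    rw [← hp2]
    refine hlt p.1 p.2 ?_
    by_contra hcon
    push Not at hcon
    exact hp1 (Prod.ext (by omega) (by omega))
  · rw [coeff_mul]
    refine AddValuation.map_lt_sum _ WithTop.coe_ne_top fun p hp => ?_
    rw [Finset.HasAntidiagonal.mem_antidiagonal] at hp
    rw [← hp]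
    exact hlt p.1 p.2 (by omega)

theorem NP_C {c : HahnSeries ℚ E} {m : ℚ} (hc : c.orderTop = (m : WithTop ℚ)) (s : ℚ) :
    NP (C c) s 0 m := by
  refine ⟨fun k => ?_, ?_, fun k hk => ?_⟩
  · rcases Nat.eq_zero_or_pos k with h | h
    · subst h
      rw [coeff_C_zero]
      change _ ≤ c.orderTop
      rw [hc, Nat.cast_zero, zero_mul, sub_zero]
    · rw [coeff_C_of_ne_zero h.ne', AddValuation.map_zero]
      exact le_top
  · rw [coeff_C_zero]
    change c.orderTop = _
    rw [hc, Nat.cast_zero, zero_mul, sub_zero]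
  · rw [coeff_C_of_ne_zero hk.ne', AddValuation.map_zero]
    exact WithTop.coe_lt_top _

theorem NP_X_sub_C_of_le {b : HahnSeries ℚ E} {s : ℚ} (h : (s : WithTop ℚ) ≤ b.orderTop) :
    NP (X - C b) s 1 s := by
  have h0 : (X - C b : (HahnSeries ℚ E)[X]).coeff 0 = -b := by simp
  have h1 : (X - C b : (HahnSeries ℚ E)[X]).coeff 1 = 1 := by
    rw [coeff_sub, coeff_X_one, coeff_C_of_ne_zero one_ne_zero, sub_zero]
  have h2 : ∀ k, 1 < k → (X - C b : (HahnSeries ℚ E)[X]).coeff k = 0 := by
    intro k hk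
    rw [coeff_sub, coeff_X_of_ne_one (by omega), coeff_C_of_ne_zero (by omega), sub_zero]
  have hz : (((s - (1 : ℕ) * s : ℚ)) : WithTop ℚ) = 0 := by
    rw [Nat.cast_one, one_mul, sub_self]
    rfl
  refine ⟨fun k => ?_, ?_, fun k hk => ?_⟩
  · rcases lt_trichotomy k 1 with hk | hk | hk
    · have hk0 : k = 0 := by omega
      subst hk0
      rw [h0, AddValuation.map_neg, Nat.cast_zero, zero_mul, sub_zero]
      exact h
    · subst hk
      rw [h1, AddValuation.map_one, hz]
    · rw [h2 k hk, AddValuation.map_zero]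
      exact le_top
  · rw [h1, AddValuation.map_one, hz]
  · rw [h2 k hk, AddValuation.map_zero]
    exact WithTop.coe_lt_top _

theorem NP_X_sub_C_of_lt {b : HahnSeries ℚ E} {s q : ℚ} (hb : b.orderTop = (q : WithTop ℚ))
    (h : q < s) : NP (X - C b) s 0 q := by
  have h0 : (X - C b : (HahnSeries ℚ E)[X]).coeff 0 = -b := by simp
  have h1 : (X - C b : (HahnSeries ℚ E)[X]).coeff 1 = 1 := by
    rw [coeff_sub, coeff_X_one, coeff_C_of_ne_zero one_ne_zero, sub_zero]
  have h2 : ∀ k, 1 < k → (X - C b : (HahnSeries ℚ E)[X]).coeff k = 0 := by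
    intro k hk
    rw [coeff_sub, coeff_X_of_ne_one (by omega), coeff_C_of_ne_zero (by omega), sub_zero]
  have hb' : hv E (-b) = (q : WithTop ℚ) := by
    rw [AddValuation.map_neg]
    exact hb
  have hlt : ∀ k : ℕ, 0 < k → ((q - k * s : ℚ) : WithTop ℚ) <
      hv E ((X - C b : (HahnSeries ℚ E)[X]).coeff k) := by
    intro k hk
    rcases lt_or_ge 1 k with h3 | h3
    · rw [h2 k h3, AddValuation.map_zero]
      exact WithTop.coe_lt_top _
    · have hk1 : k = 1 := by omega
      subst hk1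
      rw [h1, AddValuation.map_one, Nat.cast_one, one_mul]
      have h4 : ((q - s : ℚ) : WithTop ℚ) < ((0 : ℚ) : WithTop ℚ) :=
        WithTop.coe_lt_coe.2 (by linarith)
      exact h4
  refine ⟨fun k => ?_, ?_, fun k hk => hlt k hk⟩
  · rcases Nat.eq_zero_or_pos k with hk | hk
    · subst hk
      rw [h0, hb', Nat.cast_zero, zero_mul, sub_zero]
    · exact (hlt k hk).le
  · rw [h0, hb', Nat.cast_zero, zero_mul, sub_zero]

theorem taylor_X_sub_C (x b : HahnSeries ℚ E) :
    Polynomial.taylor x (X - C b) = X - C (b - x) := by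
  rw [map_sub, taylor_X, taylor_C, C_sub]
  ring

/-- number of the roots in a closed disc -/
noncomputable def cnt (g : (HahnSeries ℚ E)[X]) (x : HahnSeries ℚ E) (s : ℚ) : ℕ := by
  classical
  exact Multiset.card (g.roots.filter fun b => (s : WithTop ℚ) ≤ (x - b).orderTop)

theorem NP_prod (x : HahnSeries ℚ E) (s : ℚ) (M : Multiset (HahnSeries ℚ E)) [DecidablePred
    fun b => (s : WithTop ℚ) ≤ (x - b).orderTop] :
    ∃ m, NP (Polynomial.taylor x (M.map fun b => X - C b).prod) s
      (Multiset.card (M.filter fun b => (s : WithTop ℚ) ≤ (x - b).orderTop)) m := by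
  induction M using Multiset.induction_on with
  | empty =>
    refine ⟨0, ?_⟩
    rw [Multiset.map_zero, Multiset.prod_zero, Multiset.filter_zero, Multiset.card_zero, taylor_one]
    exact NP_C (by rw [orderTop_one]; rfl) s
  | cons b M ih =>
    obtain ⟨m, hm⟩ := ih
    rw [Multiset.map_cons, Multiset.prod_cons, taylor_mul, taylor_X_sub_C]
    by_cases h : (s : WithTop ℚ) ≤ (x - b).orderTop
    · rw [Multiset.filter_cons_of_pos (p := fun b => (s : WithTop ℚ) ≤ (x - b).orderTop) _ h,
        Multiset.card_cons, add_comm]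
      refine ⟨s + m, (NP_X_sub_C_of_le ?_).mul hm⟩
      rwa [ot_swap] at h
    · rw [Multiset.filter_cons_of_neg (p := fun b => (s : WithTop ℚ) ≤ (x - b).orderTop) _ h]
      rw [not_le, ot_swap] at h
      obtain ⟨q, hq⟩ := WithTop.ne_top_iff_exists.1 (ne_top_of_lt h)
      rw [← hq, WithTop.coe_lt_coe] at h
      refine ⟨q + m, ?_⟩
      have h1 := (NP_X_sub_C_of_lt hq.symm h).mul hm
      rwa [zero_add] at h1

/-- the largest index of the minimum is the number of the roots in the closed disc -/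
theorem NP_cnt [IsAlgClosed E] {g : (HahnSeries ℚ E)[X]} (hg : g ≠ 0) (x : HahnSeries ℚ E)
    (s : ℚ) : ∃ m, NP (Polynomial.taylor x g) s (cnt g x s) m := by
  classical
  obtain ⟨m, hm⟩ := NP_prod x s g.roots
  have hc : g.leadingCoeff ≠ 0 := leadingCoeff_ne_zero.2 hg
  obtain ⟨q, hq⟩ := WithTop.ne_top_iff_exists.1 (fun ht => hc (orderTop_eq_top.1 ht) :
    g.leadingCoeff.orderTop ≠ ⊤)
  have h1 := (IsAlgClosed.splits g).eq_prod_roots
  have h2 : Polynomial.taylor x g = C g.leadingCoeff *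
      Polynomial.taylor x (g.roots.map fun b => X - C b).prod := by
    conv_lhs => rw [h1]
    rw [taylor_mul, taylor_C]
  refine ⟨q + m, ?_⟩
  rw [h2]
  have h3 := (NP_C hq.symm s).mul hm
  rw [zero_add] at h3
  exact h3

theorem cnt_eq [IsAlgClosed E] {g : (HahnSeries ℚ E)[X]} {x : HahnSeries ℚ E} {s : ℚ} {J : ℕ}
    {m : ℚ} (h : NP (Polynomial.taylor x g) s J m) : cnt g x s = J := by
  have hg : g ≠ 0 := by
    rintro rfl
    exact h.ne_zero (map_zero _)
  obtain ⟨m', h'⟩ := NP_cnt hg x s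
  exact (h'.unique h).1

theorem taylor_derivative (x : HahnSeries ℚ E) (g : (HahnSeries ℚ E)[X]) :
    Polynomial.taylor x (derivative g) = derivative (Polynomial.taylor x g) := by
  rw [taylor_apply, taylor_apply, derivative_comp]
  simp

theorem NP.derivative [CharZero E] {G : (HahnSeries ℚ E)[X]} {s : ℚ} {J : ℕ} {m : ℚ}
    (h : NP G s (J + 1) m) : NP (Polynomial.derivative G) s J (m - s) := by
  have hk : ∀ k : ℕ, hv E ((Polynomial.derivative G).coeff k) = hv E (G.coeff (k + 1)) := by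
    intro k
    rw [coeff_derivative, AddValuation.map_mul]
    have h1 : hv E ((k : HahnSeries ℚ E) + 1) = 0 := by
      have h2 := hv_nat_ne (Ω := E) (Nat.succ_ne_zero k)
      rw [Nat.cast_succ] at h2
      exact h2
    rw [h1, add_zero]
  have he : ∀ k : ℕ, (m - s - k * s : ℚ) = m - ((k + 1 : ℕ) : ℚ) * s := by
    intro k
    push_cast
    ring
  refine ⟨fun k => ?_, ?_, fun k hkJ => ?_⟩
  · rw [hk, he]
    exact h.le (k + 1)
  · rw [hk, he]
    exact h.eq
  · rw [hk, he]
    exact h.lt (k + 1) (by omega)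

/-- [D3] a polynomial with `m + 1` roots in a closed disc has a derivative with `m` roots in it -/
theorem cnt_derivative [IsAlgClosed E] [CharZero E] {g : (HahnSeries ℚ E)[X]} (hg : g ≠ 0)
    {x : HahnSeries ℚ E} {s : ℚ} {J : ℕ} (h : cnt g x s = J + 1) :
    cnt (Polynomial.derivative g) x s = J := by
  obtain ⟨m, hm⟩ := NP_cnt hg x s
  rw [h] at hm
  have h1 := hm.derivative
  rw [← taylor_derivative] at h1
  exact cnt_eq h1

theorem cnt_eq_zero {g : (HahnSeries ℚ E)[X]} (hg : g ≠ 0) {x : HahnSeries ℚ E} {s : ℚ} :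
    cnt g x s = 0 ↔ ∀ b, g.IsRoot b → (x - b).orderTop < (s : WithTop ℚ) := by
  classical
  unfold cnt
  rw [Multiset.card_eq_zero, Multiset.filter_eq_nil]
  constructor
  · intro h b hb
    exact not_le.1 (h b ((mem_roots hg).2 hb))
  · intro h b hb
    exact not_le.2 (h b ((mem_roots hg).1 hb))

/-- no root in the closed disc: the constant term dominates -/
theorem NP_zero [IsAlgClosed E] {g : (HahnSeries ℚ E)[X]} (hg : g ≠ 0) {x : HahnSeries ℚ E}
    {s : ℚ} (h : ∀ b, g.IsRoot b → (x - b).orderTop < (s : WithTop ℚ)) :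
    ∃ m : ℚ, NP (Polynomial.taylor x g) s 0 m ∧ (g.eval x).orderTop = (m : WithTop ℚ) := by
  obtain ⟨m, hm⟩ := NP_cnt hg x s
  rw [(cnt_eq_zero hg).2 h] at hm
  refine ⟨m, hm, ?_⟩
  have h1 := hm.eq
  rw [taylor_coeff_zero, Nat.cast_zero, zero_mul, sub_zero] at h1
  exact h1


/-- values of a polynomial around a point without roots in a closed disc -/
theorem NP_zero_eval {g : (HahnSeries ℚ E)[X]} {x y : HahnSeries ℚ E} {s m : ℚ}
    (h : NP (Polynomial.taylor x g) s 0 m) (hs : (s : WithTop ℚ) ≤ (y - x).orderTop) :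
    (m : WithTop ℚ) < (g.eval y - g.eval x).orderTop := by
  have h1 : g.eval y = (Polynomial.taylor x g).eval (y - x) := (taylor_eval_sub x g y).symm
  set G := Polynomial.taylor x g with hG
  have h2 : g.eval x = G.coeff 0 := (taylor_coeff_zero x g).symm
  rw [h1, h2, eval_eq_sum_range' (lt_of_lt_of_le (Nat.lt_succ_self _) (Nat.le_refl _) :
    G.natDegree < G.natDegree + 1), Finset.sum_range_succ', pow_zero, mul_one, add_sub_cancel_right]
  refine AddValuation.map_lt_sum (hv E) WithTop.coe_ne_top fun k _ => ?_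
  rw [AddValuation.map_mul]
  have h3 : m = (m - (k + 1 : ℕ) * s) + (k + 1 : ℕ) * s := by ring
  rw [h3]
  exact wt_add_lt_left (h.lt (k + 1) (Nat.succ_pos k)) (hv_pow_ge hs (k + 1))

/-- [D1] (⇐) -/
theorem rv_eval_eq [IsAlgClosed E] {g : (HahnSeries ℚ E)[X]} {x x' : HahnSeries ℚ E}
    (h : ∀ b, g.IsRoot b → (x - b).orderTop < (x - x').orderTop) :
    rv (g.eval x) = rv (g.eval x') := by
  by_cases hxx : x = x'
  · rw [hxx]
  by_cases hg : g = 0
  · rw [hg, eval_zero, eval_zero]
  obtain ⟨s, hs⟩ := WithTop.ne_top_iff_exists.1 (fun ht => hxx (ot_top.1 ht) :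
    (x - x').orderTop ≠ ⊤)
  rw [← hs] at h
  obtain ⟨m, hm, hm'⟩ := NP_zero hg h
  refine rv_eq_of_lt ?_
  rw [hm', ot_swap]
  refine NP_zero_eval hm ?_
  rw [ot_swap, hs]

/-- [D1] (*) -/
theorem key_est [IsAlgClosed E] [CharZero E] {g : (HahnSeries ℚ E)[X]}
    (hg : derivative g ≠ 0) {x y : HahnSeries ℚ E}
    (h : ∀ b, (derivative g).IsRoot b → (x - b).orderTop < (y - x).orderTop) :
    (g.eval y - g.eval x).orderTop = ((derivative g).eval x).orderTop + (y - x).orderTop := by
  by_cases hxy : y = x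
  · rw [hxy, sub_self, sub_self, HahnSeries.orderTop_zero, add_top]
  obtain ⟨s, hs⟩ := WithTop.ne_top_iff_exists.1 (fun ht => hxy (ot_top.1 ht) :
    (y - x).orderTop ≠ ⊤)
  rw [← hs] at h
  obtain ⟨m, hm, hm'⟩ := NP_zero hg h
  rw [hm', ← hs]
  have h1 : g.eval y = (Polynomial.taylor x g).eval (y - x) := (taylor_eval_sub x g y).symm
  have h2 : g.eval x = (Polynomial.taylor x g).coeff 0 := (taylor_coeff_zero x g).symm
  have hk : ∀ k : ℕ, hv E ((Polynomial.taylor x (derivative g)).coeff k) =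
      hv E ((Polynomial.taylor x g).coeff (k + 1)) := by
    intro k
    rw [taylor_derivative, coeff_derivative, AddValuation.map_mul]
    have h1 : hv E ((k : HahnSeries ℚ E) + 1) = 0 := by
      have h2 := hv_nat_ne (Ω := E) (Nat.succ_ne_zero k)
      rw [Nat.cast_succ] at h2
      exact h2
    rw [h1, add_zero]
  set G := Polynomial.taylor x g with hG
  rw [h1, h2, eval_eq_sum_range' (by omega : G.natDegree < G.natDegree + 2),
    Finset.sum_range_succ', Finset.sum_range_succ', pow_zero, mul_one, add_sub_cancel_right]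
  have h3 : hv E (G.coeff (0 + 1) * (y - x) ^ (0 + 1)) = ((m + s : ℚ) : WithTop ℚ) := by
    rw [AddValuation.map_mul, ← hk, hm.eq, zero_add, pow_one, Nat.cast_zero, zero_mul, sub_zero,
      WithTop.coe_add, hs]
    rfl
  have h4 : ((m + s : ℚ) : WithTop ℚ) <
      hv E (∑ k ∈ Finset.range G.natDegree, G.coeff (k + 1 + 1) * (y - x) ^ (k + 1 + 1)) := by
    refine AddValuation.map_lt_sum (hv E) WithTop.coe_ne_top fun k _ => ?_
    rw [AddValuation.map_mul, ← hk]
    have h5 : (m + s : ℚ) = (m - (k + 1 : ℕ) * s) + (k + 1 + 1 : ℕ) * s := by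
      push_cast
      ring
    rw [h5]
    exact wt_add_lt_left (hm.lt (k + 1) (Nat.succ_pos k)) (hv_pow_ge hs.le (k + 1 + 1))
  have h6 := AddValuation.map_add_eq_of_lt_right (v := hv E) (h3.trans_lt h4)
  rw [← WithTop.coe_add, ← h3]
  exact h6

end np

end KTS
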