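import Pool.Agent.KTS.DA

/-!
# [KTS-D2] one variable: the disc lemma, separation, clusters, coordinates
-/

set_option autoImplicit false

namespace KTS

open Polynomial
open HahnSeries (orderTop_eq_top orderTop_one orderTop_add_eq_left orderTop_add_eq_right orderTop_neg)

universe u v w

section fam

variable {Ω : Type u} [Field Ω] {α : Type v} {q : α → (HahnSeries ℚ Ω)[X]}

/-! ### D1, D2 -/

/-- [D1] (⇐) -/
theorem D1_of_lt [IsAlgClosed Ω] {x x' : HahnSeries ℚ Ω}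
    (h : ∀ ρ ∈ Rq q, (x - ρ).orderTop < (x - x').orderTop) (a : α) :
    rv ((q a).eval x) = rv ((q a).eval x') :=
  rv_eval_eq fun b hb => h b ⟨a, hb⟩

theorem charZero_hahn [CharZero Ω] : CharZero (HahnSeries ℚ Ω) := by
  refine charZero_of_inj_zero fun n hn => ?_
  by_contra h0
  have h1 := hv_nat_ne (Ω := Ω) h0
  rw [hn, HahnSeries.orderTop_zero] at h1
  exact WithTop.top_ne_coe h1

/-- [D1] (⇒) and [D2], without hypotheses on the points -/
theorem D1_imp [IsAlgClosed Ω] [CharZero Ω] (hne : ∀ a, q a ≠ 0)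
    (hder : ∀ a, derivative (q a) = 0 ∨ ∃ b, q b = derivative (q a)) {x x' : HahnSeries ℚ Ω}
    (h : ∀ a, rv ((q a).eval x) = rv ((q a).eval x')) :
    x = x' ∨ ∀ ρ ∈ Rq q, (x - ρ).orderTop < (x - x').orderTop := by
  by_cases hxx : x = x'
  · exact Or.inl hxx
  refine Or.inr ?_
  have hzero : ∀ a, (q a).natDegree = 0 → ∀ ρ, ¬ (q a).IsRoot ρ := by
    intro a ha ρ hρ
    have h1 := eq_C_of_natDegree_eq_zero ha
    rw [h1, IsRoot.def, eval_C] at hρ
    apply hne a
    rw [h1, hρ, C_0]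
  have main : ∀ n : ℕ, ∀ a, (q a).natDegree ≤ n → ∀ ρ, (q a).IsRoot ρ →
      (x - ρ).orderTop < (x - x').orderTop := by
    intro n
    induction n with
    | zero =>
      intro a ha ρ hρ
      exact absurd hρ (hzero a (by omega) ρ)
    | succ n ih =>
      intro a ha ρ hρ
      by_contra hcon
      rw [not_lt] at hcon
      rcases hder a with h0 | ⟨b, hb⟩
      · have := charZero_hahn (Ω := Ω)
        exact hzero a (derivative_eq_zero.1 h0) ρ hρ
      · have hg' : ∀ c, (derivative (q a)).IsRoot c → (x - c).orderTop < (x - x').orderTop := by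
          intro c hc
          rw [← hb] at hc
          refine ih b ?_ c hc
          rw [hb]
          exact (natDegree_derivative_le _).trans (by omega)
        have hd : derivative (q a) ≠ 0 := by
          rw [← hb]
          exact hne b
        have hx0 : ((derivative (q a)).eval x).orderTop ≠ ⊤ := by
          intro ht
          have h1 := hg' x (orderTop_eq_top.1 ht)
          rw [ot_self] at h1
          exact not_top_lt h1
        have e1 := key_est hd (x := x) (y := x') (by rw [ot_swap x' x]; exact hg')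
        have e2 := key_est hd (x := x) (y := ρ) (fun c hc => (hg' c hc).trans_le (by
          rw [ot_swap ρ x]
          exact hcon))
        rw [IsRoot.def] at hρ
        rw [hρ, zero_sub, orderTop_neg] at e2
        by_cases hgx : (q a).eval x = 0
        · have hgx' := (zero_iff_of_rv (h a)).1 hgx
          rw [hgx, hgx', sub_zero, HahnSeries.orderTop_zero] at e1
          rcases WithTop.add_eq_top.1 e1.symm with h1 | h1
          · exact hx0 h1
          · exact hxx (ot_top.1 h1).symm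
        · have h1 := lt_of_rv_eq (h a) hgx
          rw [ot_swap, e1] at h1
          rw [ot_swap x' x] at h1
          have h2 : ((derivative (q a)).eval x).orderTop + (x - x').orderTop ≤
              ((q a).eval x).orderTop := by
            rw [e2, ot_swap ρ x]
            exact add_le_add_right hcon _
          exact absurd h2 (not_le.2 h1)
  rintro ρ ⟨a, ha⟩
  exact main _ a le_rfl ρ ha

/-- [D1] -/
theorem D1 [IsAlgClosed Ω] [CharZero Ω] (hq : DC q) {x x' : HahnSeries ℚ Ω} (hx : x ∉ Rq q) :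
    (∀ a, rv ((q a).eval x) = rv ((q a).eval x')) ↔
      ∀ ρ ∈ Rq q, (x - ρ).orderTop < (x - x').orderTop := by
  constructor
  · intro h
    rcases D1_imp hq.ne hq.der h with rfl | h1
    · intro ρ hρ
      rw [ot_self]
      refine lt_of_le_of_ne le_top fun ht => hx ?_
      rwa [ot_top.1 ht]
    · exact h1
  · intro h a
    exact D1_of_lt h a

/-- [D2] separation -/
theorem D2 [IsAlgClosed Ω] [CharZero Ω] (hq : DC q) {x x' : HahnSeries ℚ Ω} (hx : x ∈ Rq q)
    (h : ∀ a, rv ((q a).eval x) = rv ((q a).eval x')) : x = x' := by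
  rcases D1_imp hq.ne hq.der h with h1 | h1
  · exact h1
  · have h2 := h1 x hx
    rw [ot_self] at h2
    exact absurd h2 not_top_lt

theorem mem_Rq_congr {x x' : HahnSeries ℚ Ω} (h : ∀ a, rv ((q a).eval x) = rv ((q a).eval x')) :
    x ∈ Rq q ↔ x' ∈ Rq q := by
  constructor
  · rintro ⟨a, ha⟩
    exact ⟨a, (zero_iff_of_rv (h a)).1 ha⟩
  · rintro ⟨a, ha⟩
    exact ⟨a, (zero_iff_of_rv (h a)).2 ha⟩

/-! ### the set of roots and nearest roots -/

theorem Rq_finite [Finite α] (hne : ∀ a, q a ≠ 0) : (Rq q).Finite := by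
  have h1 : Rq q = ⋃ a, {ρ | (q a).IsRoot ρ} := by
    ext ρ
    simp [Rq]
  rw [h1]
  exact Set.finite_iUnion fun a => finite_setOfPred_isRoot (hne a)

theorem DC.zero_mem (hq : DC q) : (0 : HahnSeries ℚ Ω) ∈ Rq q := by
  obtain ⟨a, ha⟩ := hq.X_mem
  refine ⟨a, ?_⟩
  rw [ha, IsRoot.def, eval_X]

theorem rv_sub_of_lt {x x' ρ : HahnSeries ℚ Ω} (h : (x - ρ).orderTop < (x - x').orderTop) :
    rv (x - ρ) = rv (x' - ρ) := by
  refine rv_eq_of_lt ?_
  rwa [sub_sub_sub_cancel_right]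

theorem Cl_congr {x x' : HahnSeries ℚ Ω}
    (h : ∀ ρ ∈ Rq q, (x - ρ).orderTop = (x' - ρ).orderTop) : Cl q x = Cl q x' := by
  ext ρ
  constructor
  · rintro ⟨h1, h2⟩
    refine ⟨h1, fun ρ' hρ' => ?_⟩
    rw [← h ρ' hρ', ← h ρ h1]
    exact h2 ρ' hρ'
  · rintro ⟨h1, h2⟩
    refine ⟨h1, fun ρ' hρ' => ?_⟩
    rw [h ρ' hρ', h ρ h1]
    exact h2 ρ' hρ'

/-- [D3] -/
theorem Cl_eq_of_lt {x x' : HahnSeries ℚ Ω}
    (h : ∀ ρ ∈ Rq q, (x - ρ).orderTop < (x - x').orderTop) : Cl q x = Cl q x' :=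
  Cl_congr fun ρ hρ => orderTop_of_rv (rv_sub_of_lt (h ρ hρ))

/-- [D3] the cluster depends only on the values -/
theorem Cl_eq_of_rv [IsAlgClosed Ω] [CharZero Ω] (hq : DC q) {x x' : HahnSeries ℚ Ω}
    (h : ∀ a, rv ((q a).eval x) = rv ((q a).eval x')) : Cl q x = Cl q x' := by
  rcases D1_imp hq.ne hq.der h with rfl | h1
  · rfl
  · exact Cl_eq_of_lt h1

/-- [D3] the values at the differences with the roots depend only on the values -/
theorem rv_sub_of_rv [IsAlgClosed Ω] [CharZero Ω] (hq : DC q) {x x' : HahnSeries ℚ Ω}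
    (h : ∀ a, rv ((q a).eval x) = rv ((q a).eval x')) {ρ : HahnSeries ℚ Ω} (hρ : ρ ∈ Rq q) :
    rv (x - ρ) = rv (x' - ρ) := by
  rcases D1_imp hq.ne hq.der h with rfl | h1
  · rfl
  · exact rv_sub_of_lt (h1 ρ hρ)

theorem Cl_nonempty [Finite α] (hq : DC q) (x : HahnSeries ℚ Ω) : (Cl q x).Nonempty := by
  obtain ⟨ρ, h1, h2⟩ := Set.exists_max_image (Rq q) (fun ρ => (x - ρ).orderTop)
    (Rq_finite hq.ne) ⟨0, hq.zero_mem⟩
  exact ⟨ρ, h1, h2⟩

theorem Cl_subset (x : HahnSeries ℚ Ω) : Cl q x ⊆ Rq q := fun _ h => h.1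

theorem lt_of_notMem_Cl {x ρ ρ' : HahnSeries ℚ Ω} (hρ : ρ ∈ Cl q x) (h' : ρ' ∈ Rq q)
    (h'' : ρ' ∉ Cl q x) : (x - ρ').orderTop < (x - ρ).orderTop := by
  by_contra hcon
  rw [not_lt] at hcon
  exact h'' ⟨h', fun ρ₂ h₂ => (hρ.2 ρ₂ h₂).trans hcon⟩

theorem eq_of_mem_Cl {x ρ ρ' : HahnSeries ℚ Ω} (hρ : ρ ∈ Cl q x) (h' : ρ' ∈ Cl q x) :
    (x - ρ').orderTop = (x - ρ).orderTop :=
  le_antisymm (hρ.2 ρ' h'.1) (h'.2 ρ hρ.1)

/-- `Cl q x` as a closed disc -/
theorem Cl_eq_disc {x ρ : HahnSeries ℚ Ω} (hρ : ρ ∈ Cl q x) :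
    Cl q x = {ρ' | ρ' ∈ Rq q ∧ (x - ρ).orderTop ≤ (x - ρ').orderTop} := by
  ext ρ'
  constructor
  · intro h
    exact ⟨h.1, (eq_of_mem_Cl hρ h).ge⟩
  · rintro ⟨h1, h2⟩
    exact ⟨h1, fun ρ₂ h₂ => (hρ.2 ρ₂ h₂).trans h2⟩

theorem Cl_of_mem {x : HahnSeries ℚ Ω} (hx : x ∈ Rq q) : Cl q x = {x} := by
  ext ρ
  constructor
  · intro h
    have h1 := h.2 x hx
    rw [ot_self, top_le_iff] at h1
    exact (ot_top.1 h1).symm
  · rintro rfl
    refine ⟨hx, fun ρ' _ => ?_⟩
    rw [ot_self]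
    exact le_top

theorem exists_bound [Finite α] (hne : ∀ a, q a ≠ 0) (x : HahnSeries ℚ Ω) :
    ∃ s : ℚ, ∀ ρ ∈ Rq q, ρ ≠ x → (x - ρ).orderTop < (s : WithTop ℚ) := by
  obtain ⟨B, hB⟩ := ((Rq_finite hne).image fun ρ => (x - ρ).order).bddAbove
  refine ⟨B + 1, fun ρ hρ hne => ?_⟩
  rw [← HahnSeries.order_eq_orderTop_of_ne_zero (sub_ne_zero.2 (Ne.symm hne)), WithTop.coe_lt_coe]
  have h1 : (x - ρ).order ≤ B := hB ⟨ρ, hρ, rfl⟩
  linarith

/-! ### D3: a polynomial with one root in a cluster -/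

/-- [D3] a closed disc which contains a root contains exactly one root of some member -/
theorem exists_oneRoot_disc [IsAlgClosed Ω] [CharZero Ω] (hq : DC q) {c : HahnSeries ℚ Ω} {s : ℚ}
    (hR : ∃ ρ ∈ Rq q, (s : WithTop ℚ) ≤ (c - ρ).orderTop) :
    ∃ a ρ, OneRoot q a {ρ | ρ ∈ Rq q ∧ (s : WithTop ℚ) ≤ (c - ρ).orderTop} ρ := by
  classical
  have h1 : ∀ k : ℕ, ∀ a, cnt (q a) c s = k + 1 → ∃ a, cnt (q a) c s = 1 := by
    intro k
    induction k with
    | zero =>
      intro a ha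
      exact ⟨a, ha⟩
    | succ k ih =>
      intro a ha
      have h2 := cnt_derivative (hq.ne a) ha
      rcases hq.der a with h0 | ⟨b, hb⟩
      · rw [h0] at h2
        unfold cnt at h2
        rw [roots_zero, Multiset.filter_zero, Multiset.card_zero] at h2
        omega
      · rw [← hb] at h2
        exact ih b h2
  obtain ⟨ρ, ⟨a, ha⟩, hρ⟩ := hR
  have h2 : cnt (q a) c s ≠ 0 := by
    intro h0
    exact absurd hρ (not_le.2 ((cnt_eq_zero (hq.ne a)).1 h0 ρ ha))
  obtain ⟨b, hb⟩ := h1 (cnt (q a) c s - 1) a (by omega)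
  unfold cnt at hb
  obtain ⟨σ, hσ⟩ := Multiset.card_eq_one.1 hb
  have h3 : σ ∈ (q b).roots.filter fun b => (s : WithTop ℚ) ≤ (c - b).orderTop := by
    rw [hσ]
    exact Multiset.mem_singleton_self σ
  rw [Multiset.mem_filter] at h3
  refine ⟨b, σ, ⟨⟨b, (mem_roots (hq.ne b)).1 h3.1⟩, h3.2⟩, ?_, ?_⟩
  · rw [← count_roots, ← Multiset.count_filter_of_pos (p := fun b => (s : WithTop ℚ) ≤
      (c - b).orderTop) h3.2, hσ, Multiset.count_singleton_self]
  · rintro ρ' ⟨_, h4⟩ h5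
    have h6 : ρ' ∈ (q b).roots.filter fun b => (s : WithTop ℚ) ≤ (c - b).orderTop :=
      Multiset.mem_filter.2 ⟨(mem_roots (hq.ne b)).2 h5, h4⟩
    rw [hσ] at h6
    exact Multiset.mem_singleton.1 h6

/-- [D3] -/
theorem exists_oneRoot [Finite α] [IsAlgClosed Ω] [CharZero Ω] (hq : DC q) (x : HahnSeries ℚ Ω) :
    ∃ a ρ, OneRoot q a (Cl q x) ρ := by
  by_cases hx : x ∈ Rq q
  · obtain ⟨s, hs⟩ := exists_bound hq.ne x
    have h1 : Cl q x = {ρ | ρ ∈ Rq q ∧ (s : WithTop ℚ) ≤ (x - ρ).orderTop} := by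
      rw [Cl_of_mem hx]
      ext ρ
      constructor
      · rintro rfl
        refine ⟨hx, ?_⟩
        rw [ot_self]
        exact le_top
      · rintro ⟨h2, h3⟩
        by_contra h4
        exact absurd h3 (not_le.2 (hs ρ h2 h4))
    rw [h1]
    refine exists_oneRoot_disc hq ⟨x, hx, ?_⟩
    rw [ot_self]
    exact le_top
  · obtain ⟨ρ, hρ⟩ := Cl_nonempty hq x
    have h1 : (x - ρ).orderTop ≠ ⊤ := fun ht => hx (by rw [ot_top.1 ht]; exact hρ.1)
    obtain ⟨s, hs⟩ := WithTop.ne_top_iff_exists.1 h1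
    rw [Cl_eq_disc hρ, ← hs]
    exact exists_oneRoot_disc hq ⟨ρ, hρ.1, hs.le⟩

/-! ### D4 -/

/-- [D4] (a) -/
theorem rv_eval_oneRoot [IsAlgClosed Ω] {a : α} {A : Set (HahnSeries ℚ Ω)}
    {ρ x : HahnSeries ℚ Ω} (hne : q a ≠ 0) (h : OneRoot q a A ρ) (hx : Cl q x = A) :
    rv ((q a).eval x) = rv ((derivative (q a)).eval ρ * (x - ρ)) := by
  subst hx
  obtain ⟨hρ, hm, hu⟩ := h
  have hroot : (q a).IsRoot ρ := (rootMultiplicity_pos hne).1 (by omega)
  obtain ⟨g, hg⟩ := dvd_iff_isRoot.2 hroot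
  have hgne : g ≠ 0 := by
    rintro rfl
    rw [mul_zero] at hg
    exact hne hg
  have h1 : (derivative (q a)).eval ρ = g.eval ρ := by
    rw [hg]
    simp
  have h2 : ¬ g.IsRoot ρ := by
    intro h3
    have h4 : 0 < g.rootMultiplicity ρ := (rootMultiplicity_pos hgne).2 h3
    rw [hg, rootMultiplicity_mul (by rw [← hg]; exact hne), rootMultiplicity_X_sub_C_self] at hm
    omega
  have h3 : rv (g.eval ρ) = rv (g.eval x) := by
    refine rv_eval_eq fun b hb => ?_
    have hb1 : (q a).IsRoot b := by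
      rw [hg, IsRoot.def, eval_mul, hb.eq_zero, mul_zero]
    have hb2 : b ∉ Cl q x := by
      intro hb3
      have := hu b hb3 hb1
      rw [this] at hb
      exact h2 hb
    have hb4 := lt_of_notMem_Cl hρ ⟨a, hb1⟩ hb2
    rw [ot_swap x ρ] at hb4
    rw [ot_eq_of_lt' hb4]
    exact hb4
  have h4 : (q a).eval x = g.eval x * (x - ρ) := by
    conv_lhs => rw [hg]
    rw [eval_mul, eval_sub, eval_X, eval_C, mul_comm]
  rw [h4, h1]
  exact rv_mul_congr h3.symm rfl

/-- [D4] (b) -/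
theorem rv_eval_of_sub [IsAlgClosed Ω] {ρ x y : HahnSeries ℚ Ω} (hρ : ρ ∈ Cl q x)
    (h : rv (x - ρ) = rv (y - ρ)) (b : α) : rv ((q b).eval x) = rv ((q b).eval y) := by
  by_cases hx : x - ρ = 0
  · have hy := (zero_iff_of_rv h).1 hx
    rw [sub_eq_zero.1 hx, sub_eq_zero.1 hy]
  · refine D1_of_lt (fun ρ' hρ' => ?_) b
    have h1 := lt_of_rv_eq h hx
    rw [sub_sub_sub_cancel_right] at h1
    exact (hρ.2 ρ' hρ').trans_lt h1

/-- [D4] (b'): inside a cluster, the value of the polynomial with one root determines all values -/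
theorem rv_eval_of_oneRoot [IsAlgClosed Ω] {a : α} {A : Set (HahnSeries ℚ Ω)}
    {ρ x y : HahnSeries ℚ Ω} (hne : q a ≠ 0) (h : OneRoot q a A ρ) (hx : Cl q x = A)
    (hy : Cl q y = A) (hxy : rv ((q a).eval x) = rv ((q a).eval y)) (b : α) :
    rv ((q b).eval x) = rv ((q b).eval y) := by
  have h1 := rv_eval_oneRoot hne h hx
  have h2 := rv_eval_oneRoot hne h hy
  have h3 : (derivative (q a)).eval ρ ≠ 0 := by
    obtain ⟨hρ, hm, hu⟩ := h
    have hroot : (q a).IsRoot ρ := (rootMultiplicity_pos hne).1 (by omega)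
    obtain ⟨g, hg⟩ := dvd_iff_isRoot.2 hroot
    have hgne : g ≠ 0 := by
      rintro rfl
      rw [mul_zero] at hg
      exact hne hg
    have h1 : (derivative (q a)).eval ρ = g.eval ρ := by
      rw [hg]
      simp
    rw [h1]
    intro h3
    have h4 : 0 < g.rootMultiplicity ρ := (rootMultiplicity_pos hgne).2 h3
    rw [hg, rootMultiplicity_mul (by rw [← hg]; exact hne), rootMultiplicity_X_sub_C_self] at hm
    omega
  refine rv_eval_of_sub (ρ := ρ) (by rw [hx]; exact h.1) ?_ b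
  have h4 : rv (((derivative (q a)).eval ρ)⁻¹ * ((derivative (q a)).eval ρ * (x - ρ))) =
      rv (((derivative (q a)).eval ρ)⁻¹ * ((derivative (q a)).eval ρ * (y - ρ))) := by
    refine rv_mul_congr rfl ?_
    rw [← h1, ← h2, hxy]
  rwa [inv_mul_cancel_left₀ h3, inv_mul_cancel_left₀ h3] at h4

end fam

end KTS
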