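import Pool.Agent.KTS.DB

/-!
# [KTS-DN] the D section of Need.lean: rq_eq_iff, rq_inj, cluster, transfer along RIso
-/

set_option autoImplicit false
set_option linter.unusedSectionVars false
set_option linter.unusedVariables false

namespace KTS

noncomputable section

universe u v w

open Polynomial
open HahnSeries (single orderTop_eq_top order_eq_orderTop_of_ne_zero leadingCoeff_ne_zero)

section aux

variable {Ω : Type u} [Field Ω] {α : Type v} {q : α → (HahnSeries ℚ Ω)[X]}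

theorem order_eq_of_ot {x y : HahnSeries ℚ Ω} (hx : x ≠ 0) (hy : y ≠ 0)
    (h : x.orderTop = y.orderTop) : x.order = y.order := by
  rw [← order_eq_orderTop_of_ne_zero hx, ← order_eq_orderTop_of_ne_zero hy, WithTop.coe_inj] at h
  exact h

theorem rv_multiset_prod_congr {β : Type w} (M : Multiset β) {f g : β → HahnSeries ℚ Ω}
    (h : ∀ b ∈ M, rv (f b) = rv (g b)) : rv (M.map f).prod = rv (M.map g).prod := by
  induction M using Multiset.induction_on with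
  | empty => rfl
  | cons b M ih =>
    rw [Multiset.map_cons, Multiset.prod_cons, Multiset.map_cons, Multiset.prod_cons]
    exact rv_mul_congr (h b (Multiset.mem_cons_self b M))
      (ih fun c hc => h c (Multiset.mem_cons_of_mem hc))

theorem OneRoot.deriv_ne {a : α} {A : Set (HahnSeries ℚ Ω)} {ρ : HahnSeries ℚ Ω}
    (hne : q a ≠ 0) (h : OneRoot q a A ρ) : (derivative (q a)).eval ρ ≠ 0 := by
  obtain ⟨hρ, hm, hu⟩ := h
  have hroot : (q a).IsRoot ρ := (rootMultiplicity_pos hne).1 (by omega)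
  obtain ⟨g, hg⟩ := dvd_iff_isRoot.2 hroot
  have hgne : g ≠ 0 := by
    rintro rfl
    rw [mul_zero] at hg
    exact hne hg
  have h1 : (derivative (q a)).eval ρ = g.eval ρ := by
    rw [hg]
    simp
  rw [h1]
  intro h3
  have h4 : 0 < g.rootMultiplicity ρ := (rootMultiplicity_pos hgne).2 h3
  rw [hg, rootMultiplicity_mul (by rw [← hg]; exact hne), rootMultiplicity_X_sub_C_self] at hm
  omega

/-- [D4] (c), the points of a cluster -/
theorem Cl_of_cond {A : Set (HahnSeries ℚ Ω)} {ρs y : HahnSeries ℚ Ω} (hA : A ⊆ Rq q)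
    (hρ : ρs ∈ A) (hy : y ≠ ρs)
    (h1 : ∀ ρ ∈ Rq q, ρ ∉ A → (ρs - ρ).orderTop < (y - ρs).orderTop)
    (h2 : ∀ ρ ∈ A, ρ ≠ ρs → (y - ρs).orderTop ≤ (ρ - ρs).orderTop ∧ rv (ρ - ρs) ≠ rv (y - ρs)) :
    y ∉ Rq q ∧ Cl q y = A := by
  have e1 : ∀ ρ ∈ A, (y - ρ).orderTop = (y - ρs).orderTop := by
    intro ρ hρA
    by_cases hρs : ρ = ρs
    · rw [hρs]
    · obtain ⟨h3, h4⟩ := h2 ρ hρA hρs
      rw [ot_swap ρ ρs] at h3
      refine le_antisymm ?_ (ot_ge' le_rfl h3)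
      by_contra hcon
      rw [not_le] at hcon
      apply h4
      refine (rv_eq_of_lt ?_).symm
      rwa [sub_sub_sub_cancel_right]
  have e2 : ∀ ρ ∈ Rq q, ρ ∉ A → (y - ρ).orderTop < (y - ρs).orderTop := by
    intro ρ hρR hρA
    have h3 := h1 ρ hρR hρA
    rw [ot_eq_of_lt' h3]
    exact h3
  refine ⟨fun hyR => ?_, ?_⟩
  · by_cases hyA : y ∈ A
    · have h3 := e1 y hyA
      rw [ot_self] at h3
      exact hy (ot_top.1 h3.symm)
    · have h3 := e2 y hyR hyA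
      rw [ot_self] at h3
      exact not_top_lt h3
  · ext ρ
    constructor
    · intro h3
      by_contra h4
      exact absurd (h3.2 ρs (hA hρ)) (not_le.2 (e2 ρ h3.1 h4))
    · intro h3
      refine ⟨hA h3, fun ρ' hρ' => ?_⟩
      rw [e1 ρ h3]
      by_cases h4 : ρ' ∈ A
      · exact (e1 ρ' h4).le
      · exact (e2 ρ' hρ' h4).le

/-- [D4] (c), converse -/
theorem cond_of_Cl {y ρs : HahnSeries ℚ Ω} (hy : y ∉ Rq q) (hρ : ρs ∈ Cl q y) :
    (∀ ρ ∈ Rq q, ρ ∉ Cl q y → (ρs - ρ).orderTop < (y - ρs).orderTop) ∧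
    (∀ ρ ∈ Cl q y, (y - ρs).orderTop ≤ (ρ - ρs).orderTop ∧ rv (ρ - ρs) ≠ rv (y - ρs)) := by
  constructor
  · intro ρ h1 h2
    have h3 := lt_of_notMem_Cl hρ h1 h2
    rw [← orderTop_of_rv (rv_sub_of_lt h3)]
    exact h3
  · intro ρ h1
    have h2 := eq_of_mem_Cl hρ h1
    refine ⟨?_, fun h3 => ?_⟩
    · refine ot_ge' (y := y) ?_ le_rfl
      rw [ot_swap ρ y, h2]
    · have h4 : y - ρs ≠ 0 := fun h4 => hy (by rw [sub_eq_zero.1 h4]; exact hρ.1)
      have h5 := lt_of_rv_eq h3.symm h4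
      rw [sub_sub_sub_cancel_right, h2] at h5
      exact lt_irrefl _ h5

/-- [D4] orders of the products over roots, inside a cluster -/
theorem exists_order_prod {y₀ ρs : HahnSeries ℚ Ω} (hρ : ρs ∈ Cl q y₀)
    (M : Multiset (HahnSeries ℚ Ω)) (hM : ∀ b ∈ M, b ∈ Rq q) :
    ∃ κ m : ℚ, ∀ y, y ∉ Rq q → Cl q y = Cl q y₀ → (M.map fun b => y - b).prod ≠ 0 ∧
      (M.map fun b => y - b).prod.order = κ + m * (y - ρs).order := by
  classical
  induction M using Multiset.induction_on with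
  | empty =>
    refine ⟨0, 0, fun y _ _ => ⟨one_ne_zero, ?_⟩⟩
    rw [Multiset.map_zero, Multiset.prod_zero, HahnSeries.order_one, zero_mul, add_zero]
  | cons b M ih =>
    obtain ⟨κ, m, h⟩ := ih fun c hc => hM c (Multiset.mem_cons_of_mem hc)
    have hb := hM b (Multiset.mem_cons_self b M)
    have hne : ∀ y, y ∉ Rq q → y - b ≠ 0 := fun y hy h0 => hy (by rw [sub_eq_zero.1 h0]; exact hb)
    by_cases hbA : b ∈ Cl q y₀
    · refine ⟨κ, m + 1, fun y hy hy' => ?_⟩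
      obtain ⟨h1, h2⟩ := h y hy hy'
      rw [Multiset.map_cons, Multiset.prod_cons]
      refine ⟨mul_ne_zero (hne y hy) h1, ?_⟩
      rw [HahnSeries.order_mul (hne y hy) h1, h2]
      have h3 : (y - b).order = (y - ρs).order := by
        refine order_eq_of_ot (hne y hy) (fun h0 => hy (by rw [sub_eq_zero.1 h0]; exact hρ.1)) ?_
        rw [← hy'] at hρ hbA
        exact eq_of_mem_Cl hρ hbA
      rw [h3]
      ring
    · refine ⟨κ + (ρs - b).order, m, fun y hy hy' => ?_⟩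
      obtain ⟨h1, h2⟩ := h y hy hy'
      rw [Multiset.map_cons, Multiset.prod_cons]
      refine ⟨mul_ne_zero (hne y hy) h1, ?_⟩
      rw [HahnSeries.order_mul (hne y hy) h1, h2]
      have h3 : (y - b).order = (ρs - b).order := by
        have h4 := hρ
        rw [← hy'] at h4 hbA
        exact congrArg Prod.snd (rv_sub_of_lt (lt_of_notMem_Cl h4 hb hbA))
      rw [h3]
      ring

theorem lc_multiset_prod {β : Type w} (M : Multiset β) {f g : β → HahnSeries ℚ Ω}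
    (h : ∀ b ∈ M, (f b).leadingCoeff = (g b).leadingCoeff) :
    (M.map f).prod.leadingCoeff = (M.map g).prod.leadingCoeff := by
  induction M using Multiset.induction_on with
  | empty => rfl
  | cons b M ih =>
    rw [Multiset.map_cons, Multiset.prod_cons, Multiset.map_cons, Multiset.prod_cons,
      HahnSeries.leadingCoeff_mul, HahnSeries.leadingCoeff_mul, h b (Multiset.mem_cons_self b M),
      ih fun c hc => h c (Multiset.mem_cons_of_mem hc)]

end aux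

section D

variable {Ω : Type u} [Field Ω] [IsAlgClosed Ω] [CharZero Ω] {α : Type v} [Finite α]

/-- D1. -/
theorem rq_eq_iff (q : α → (HahnSeries ℚ Ω)[X]) (hq : DC q) (y y' : HahnSeries ℚ Ω)
    (hy : y ∉ Rq q) (hy' : y' ∉ Rq q) :
    rq q y = rq q y' ↔ ∀ ρ ∈ Rq q, (y - ρ).orderTop < (y - y').orderTop :=
  ⟨fun h => (D1 hq hy).1 fun a => congrFun h a, fun h => funext fun a => (D1 hq hy).2 h a⟩

/-- D2. -/
theorem rq_inj (q : α → (HahnSeries ℚ Ω)[X]) (hq : DC q) (y y' : HahnSeries ℚ Ω)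
    (hy : y ∈ Rq q) (h : rq q y = rq q y') : y = y' :=
  D2 hq hy fun a => congrFun h a

/-- D1 and D2, arbitrary points. -/
theorem rq_eq_imp (q : α → (HahnSeries ℚ Ω)[X]) (hq : DC q) (y y' : HahnSeries ℚ Ω)
    (h : rq q y = rq q y') : y = y' ∨ ∀ ρ ∈ Rq q, (y - ρ).orderTop < (y - y').orderTop :=
  D1_imp hq.ne hq.der fun a => congrFun h a

/-- D5: clusters of points of a disc which contains a root. -/
theorem Cl_subset_OD (q : α → (HahnSeries ℚ Ω)[X]) (b : HahnSeries ℚ Ω) (r : ℚ)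
    (hB : (OD b r ∩ Rq q).Nonempty) (y : HahnSeries ℚ Ω) (hy : y ∈ OD b r) :
    Cl q y ⊆ OD b r := by
  obtain ⟨ρ₀, h1, h2⟩ := hB
  intro ρ hρ
  have h3 : (r : WithTop ℚ) < (y - ρ₀).orderTop := by
    refine ot_gt' (y := b) hy ?_
    rw [ot_swap]
    exact h1
  have h4 := h3.trans_le (hρ.2 ρ₀ h2)
  refine ot_gt' (x := ρ) (y := y) (z := b) ?_ hy
  rwa [ot_swap]

/-- D5: discs without roots. -/
theorem rq_const_OD (q : α → (HahnSeries ℚ Ω)[X]) (b : HahnSeries ℚ Ω) (r : ℚ)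
    (hB : ¬ (OD b r ∩ Rq q).Nonempty) {y y' : HahnSeries ℚ Ω} (hy : y ∈ OD b r)
    (hy' : y' ∈ OD b r) : rq q y = rq q y' := by
  funext a
  refine D1_of_lt (fun ρ hρ => ?_) a
  have h1 : (r : WithTop ℚ) < (y - y').orderTop := by
    refine ot_gt' (y := b) hy ?_
    rw [ot_swap]
    exact hy'
  by_contra h2
  rw [not_lt] at h2
  refine hB ⟨ρ, ?_, hρ⟩
  refine ot_gt' (x := ρ) (y := y) (z := b) ?_ hy
  rw [ot_swap]
  exact h1.trans_le h2

/-- D3, D4, D5. -/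
theorem cluster (q : α → (HahnSeries ℚ Ω)[X]) (hq : DC q) (b : HahnSeries ℚ Ω) (r : ℚ)
    (hB : (OD b r ∩ Rq q).Nonempty) (y₀ : HahnSeries ℚ Ω) (hy₀ : y₀ ∈ OD b r)
    (hy₀' : y₀ ∉ Rq q) :
    ∃ (a : α) (lo : ℚ) (hi : WithTop ℚ) (m κ : α → ℚ), (lo : WithTop ℚ) < hi ∧
      (∀ y ∈ OD b r, y ∉ Rq q → Cl q y = Cl q y₀ →
        (rq q y a).1 ≠ 0 ∧ lo < (rq q y a).2 ∧ ((rq q y a).2 : WithTop ℚ) ≤ hi ∧
        ∀ c, (rq q y c).2 = κ c + m c * (rq q y a).2) ∧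
      (∀ y ∈ OD b r, y ∉ Rq q → Cl q y = Cl q y₀ → ∀ y' ∈ OD b r, y' ∉ Rq q →
        Cl q y' = Cl q y₀ → rq q y a = rq q y' a → rq q y = rq q y') ∧
      (∀ y ∈ OD b r, y ∉ Rq q → Cl q y = Cl q y₀ → ∀ y' ∈ OD b r, y' ∉ Rq q →
        Cl q y' = Cl q y₀ → (rq q y a).1 = (rq q y' a).1 → ((rq q y a).2 : WithTop ℚ) < hi →
        ((rq q y' a).2 : WithTop ℚ) < hi → ∀ c, (rq q y c).1 = (rq q y' c).1) ∧
      (∀ (u : Ω) (γ : ℚ), u ≠ 0 → lo < γ → (γ : WithTop ℚ) < hi →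
        ∃ y ∈ OD b r, y ∉ Rq q ∧ Cl q y = Cl q y₀ ∧ rq q y a = (u, γ)) ∧
      ∃ Bad : Finset Ω, ∀ (u : Ω) (γ : ℚ), u ≠ 0 → u ∉ Bad → (γ : WithTop ℚ) = hi →
        ∃ y ∈ OD b r, y ∉ Rq q ∧ Cl q y = Cl q y₀ ∧ rq q y a = (u, γ) := by
  classical
  obtain ⟨a, ρs, h1⟩ := exists_oneRoot hq y₀
  have hfin : (Rq q).Finite := Rq_finite hq.ne
  have hK := h1.deriv_ne (hq.ne a)
  set K := (derivative (q a)).eval ρs with hKdef
  have hρ : ρs ∈ Cl q y₀ := h1.1
  have hsub : Cl q y₀ ⊆ OD b r := Cl_subset_OD q b r hB y₀ hy₀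
  have hρB : ρs ∈ OD b r := hsub hρ
  have hKlc : K.leadingCoeff ≠ 0 := leadingCoeff_ne_zero.2 hK
  -- the value at `a`
  have ha : ∀ y, Cl q y = Cl q y₀ → rq q y a = rv (K * (y - ρs)) := fun y hy =>
    rv_eval_oneRoot (hq.ne a) h1 hy
  have hne : ∀ y, y ∉ Rq q → ∀ ρ ∈ Rq q, y - ρ ≠ 0 := fun y hy ρ hρ h0 =>
    hy (by rw [sub_eq_zero.1 h0]; exact hρ)
  have ha' : ∀ y, y ∉ Rq q → Cl q y = Cl q y₀ →
      rq q y a = (K.leadingCoeff * (y - ρs).leadingCoeff, K.order + (y - ρs).order) := by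
    intro y hy hy'
    rw [ha y hy', rv_mul hK (hne y hy ρs hρ.1)]
    rfl
  -- the lower bound
  obtain ⟨lo, hlor, hlo, hlo'⟩ : ∃ lo : ℚ, r ≤ lo ∧
      (∀ ρ ∈ Rq q, ρ ∉ Cl q y₀ → (ρs - ρ).orderTop ≤ (lo : WithTop ℚ)) ∧
      (∀ y ∈ OD b r, y ∉ Rq q → Cl q y = Cl q y₀ → (lo : WithTop ℚ) < (y - ρs).orderTop) := by
    have hr : ∀ y ∈ OD b r, (r : WithTop ℚ) < (y - ρs).orderTop := by
      intro y hy
      refine ot_gt' (y := b) hy ?_
      rw [ot_swap]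
      exact hρB
    by_cases hne2 : ∃ ρ ∈ Rq q \ Cl q y₀, (r : WithTop ℚ) ≤ (ρs - ρ).orderTop
    · obtain ⟨ρ₁, hρ₁, hmax⟩ := Set.exists_max_image (Rq q \ Cl q y₀)
        (fun ρ => (ρs - ρ).orderTop) (hfin.subset Set.sdiff_subset)
        (hne2.imp fun _ h => h.1)
      obtain ⟨ρ₂, hρ₂, hρ₂'⟩ := hne2
      have h2 : ρs ≠ ρ₁ := fun h => hρ₁.2 (h ▸ hρ)
      obtain ⟨lo, hlo⟩ := WithTop.ne_top_iff_exists.1 (fun ht => h2 (ot_top.1 ht) :
        (ρs - ρ₁).orderTop ≠ ⊤)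
      refine ⟨lo, ?_, ?_, ?_⟩
      · have h3 := hρ₂'.trans (hmax ρ₂ hρ₂)
        rwa [← hlo, WithTop.coe_le_coe] at h3
      · intro ρ h3 h4
        rw [hlo]
        exact hmax ρ ⟨h3, h4⟩
      · intro y hyB hy hy'
        have h3 := hρ
        rw [← hy'] at h3
        rw [hlo]
        exact (cond_of_Cl hy h3).1 ρ₁ hρ₁.1 (by rw [hy']; exact hρ₁.2)
    · push Not at hne2
      exact ⟨r, le_rfl, fun ρ h3 h4 => (hne2 ρ ⟨h3, h4⟩).le, fun y hyB _ _ => hr y hyB⟩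
  -- the upper bound
  obtain ⟨hi, hhi, hhi'⟩ : ∃ hi : WithTop ℚ,
      (∀ ρ ∈ Cl q y₀, ρ ≠ ρs → hi ≤ (ρ - ρs).orderTop) ∧
      (∀ y, y ∉ Rq q → Cl q y = Cl q y₀ → (y - ρs).orderTop ≤ hi) := by
    by_cases hne2 : (Cl q y₀ \ {ρs}).Nonempty
    · obtain ⟨ρ₁, hρ₁, hmin⟩ := Set.exists_min_image (Cl q y₀ \ {ρs})
        (fun ρ => (ρ - ρs).orderTop) (hfin.subset fun ρ h => h.1.1) hne2
      refine ⟨(ρ₁ - ρs).orderTop, fun ρ h2 h3 => hmin ρ ⟨h2, h3⟩, fun y hy hy' => ?_⟩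
      have h3 := hρ
      rw [← hy'] at h3
      exact ((cond_of_Cl hy h3).2 ρ₁ (by rw [hy']; exact hρ₁.1)).1
    · rw [Set.not_nonempty_iff_eq_empty, Set.sdiff_eq_empty] at hne2
      exact ⟨⊤, fun ρ h2 h3 => absurd (hne2 h2) h3, fun y _ _ => le_top⟩
  -- existence of points
  have hex : ∀ (u : Ω) (γ : ℚ), u ≠ 0 → K.order + lo < γ → (γ : WithTop ℚ) ≤ K.order + hi →
      (∀ ρ ∈ Cl q y₀, ρ ≠ ρs → (ρ - ρs).orderTop = ((γ - K.order : ℚ) : WithTop ℚ) →
        (ρ - ρs).leadingCoeff ≠ u / K.leadingCoeff) →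
      ∃ y ∈ OD b r, y ∉ Rq q ∧ Cl q y = Cl q y₀ ∧ rq q y a = (u, γ) := by
    intro u γ hu h2 h3 h4
    have hu' : u / K.leadingCoeff ≠ 0 := div_ne_zero hu hKlc
    set y := ρs + single (γ - K.order) (u / K.leadingCoeff) with hy
    have e1 : y - ρs = single (γ - K.order) (u / K.leadingCoeff) := by
      rw [hy]
      ring
    have e2 : (y - ρs).orderTop = ((γ - K.order : ℚ) : WithTop ℚ) := by
      rw [e1, HahnSeries.orderTop_single hu']
    have e3 : y ≠ ρs := by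
      intro h5
      rw [h5, ot_self] at e2
      exact WithTop.top_ne_coe e2
    have e4 : (lo : WithTop ℚ) < (y - ρs).orderTop := by
      rw [e2, WithTop.coe_lt_coe]
      linarith
    have e5 : (y - ρs).orderTop ≤ hi := by
      rw [e2]
      have h5 : ((K.order : ℚ) : WithTop ℚ) + ((γ - K.order : ℚ) : WithTop ℚ) ≤ K.order + hi := by
        rw [← WithTop.coe_add, add_sub_cancel]
        exact h3
      exact (WithTop.add_le_add_iff_left WithTop.coe_ne_top).1 h5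
    have e6 : y ∉ Rq q ∧ Cl q y = Cl q y₀ := by
      refine Cl_of_cond (Cl_subset y₀) hρ e3 (fun ρ h5 h6 => (hlo ρ h5 h6).trans_lt e4)
        fun ρ h5 h6 => ⟨e5.trans (hhi ρ h5 h6), fun h7 => ?_⟩
      refine h4 ρ h5 h6 ?_ ?_
      · rw [orderTop_of_rv h7, e2]
      · have h8 := congrArg Prod.fst h7
        rw [e1, rv_single hu'] at h8
        exact h8
    refine ⟨y, ?_, e6.1, e6.2, ?_⟩
    · refine ot_gt' (x := y) (y := ρs) (z := b) ?_ hρB
      exact (WithTop.coe_le_coe.2 hlor).trans_lt e4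
    · rw [ha y e6.2, rv_mul hK (sub_ne_zero.2 e3), e1, rv_single hu']
      refine Prod.ext ?_ ?_
      · exact mul_div_cancel₀ u hKlc
      · change K.order + (γ - K.order) = γ
        ring
  -- the orders
  have hord : ∀ c, ∃ κ m : ℚ, ∀ y, y ∉ Rq q → Cl q y = Cl q y₀ →
      (rq q y c).2 = κ + m * (y - ρs).order := by
    intro c
    obtain ⟨κ, m, h2⟩ := exists_order_prod (q := q) hρ (q c).roots
      (fun ρ h => ⟨c, (mem_roots (hq.ne c)).1 h⟩)
    refine ⟨(q c).leadingCoeff.order + κ, m, fun y hy hy' => ?_⟩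
    obtain ⟨h3, h4⟩ := h2 y hy hy'
    change ((q c).eval y).order = _
    rw [(IsAlgClosed.splits (q c)).eval_eq_prod_roots, HahnSeries.order_mul
      (leadingCoeff_ne_zero.2 (hq.ne c) |> fun h => by
        rw [Ne, Polynomial.leadingCoeff_eq_zero]; exact hq.ne c) h3, h4]
    ring
  choose κ m hκ using hord
  refine ⟨a, K.order + lo, K.order + hi, m, fun c => κ c - m c * K.order, ?_, ?_, ?_, ?_, ?_, ?_⟩
  · rw [WithTop.coe_add]
    exact WithTop.add_lt_add_left WithTop.coe_ne_top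
      ((hlo' y₀ hy₀ hy₀' rfl).trans_le (hhi' y₀ hy₀' rfl))
  · intro y hyB hy hy'
    have h2 := ha' y hy hy'
    have h3 := hne y hy ρs hρ.1
    rw [h2]
    refine ⟨mul_ne_zero hKlc (leadingCoeff_ne_zero.2 h3), ?_, ?_, fun c => ?_⟩
    · have h4 := hlo' y hyB hy hy'
      rw [← order_eq_orderTop_of_ne_zero h3, WithTop.coe_lt_coe] at h4
      change K.order + lo < K.order + (y - ρs).order
      linarith
    · change ((K.order + (y - ρs).order : ℚ) : WithTop ℚ) ≤ _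
      rw [WithTop.coe_add, order_eq_orderTop_of_ne_zero h3]
      exact add_le_add_right (hhi' y hy hy') _
    · rw [hκ c y hy hy']
      change _ = κ c - m c * K.order + m c * (K.order + (y - ρs).order)
      ring
  · intro y hyB hy hy' z hzB hz hz' hyz
    funext c
    exact rv_eval_of_oneRoot (hq.ne a) h1 hy' hz' hyz c
  · intro y hyB hy hy' z hzB hz hz' hyz hyh hzh c
    rw [ha' y hy hy', ha' z hz hz'] at hyz
    rw [ha' y hy hy'] at hyh
    rw [ha' z hz hz'] at hzh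
    simp only at hyz hyh hzh
    have h2 := mul_left_cancel₀ hKlc hyz
    have h3 : ∀ y, y ∉ Rq q → Cl q y = Cl q y₀ →
        ((K.order + (y - ρs).order : ℚ) : WithTop ℚ) < K.order + hi → ∀ ρ ∈ Rq q,
        (y - ρ).leadingCoeff = if ρ ∈ Cl q y₀ then (y - ρs).leadingCoeff else
          (ρs - ρ).leadingCoeff := by
      intro y hy hy' h4 ρ h5
      by_cases h6 : ρ ∈ Cl q y₀
      · rw [if_pos h6]
        by_cases h7 : ρ = ρs
        · rw [h7]
        · rw [WithTop.coe_add, order_eq_orderTop_of_ne_zero (hne y hy ρs hρ.1)] at h4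
          have h8 := (WithTop.add_lt_add_iff_left WithTop.coe_ne_top).1 h4
          have h9 := h8.trans_le (hhi ρ h6 h7)
          have h10 : y - ρ = (y - ρs) + (ρs - ρ) := by ring
          rw [ot_swap ρ ρs] at h9
          rw [h10]
          exact congrArg Prod.fst (rv_add_left h9)
      · rw [if_neg h6]
        rw [← hy'] at h6
        have h7 := hρ
        rw [← hy'] at h7
        exact congrArg Prod.fst (rv_sub_of_lt (lt_of_notMem_Cl h7 h5 h6))
    change ((q c).eval y).leadingCoeff = ((q c).eval z).leadingCoeff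
    rw [(IsAlgClosed.splits (q c)).eval_eq_prod_roots, (IsAlgClosed.splits (q c)).eval_eq_prod_roots,
      HahnSeries.leadingCoeff_mul, HahnSeries.leadingCoeff_mul]
    congr 1
    refine lc_multiset_prod _ fun ρ hρ' => ?_
    have h4 : ρ ∈ Rq q := ⟨c, (mem_roots (hq.ne c)).1 hρ'⟩
    rw [h3 y hy hy' hyh ρ h4, h3 z hz hz' hzh ρ h4, h2]
  · intro u γ hu h2 h3
    refine hex u γ hu h2 h3.le fun ρ h4 h5 h6 => ?_
    exfalso
    have h7 := hhi ρ h4 h5
    rw [h6] at h7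
    have h8 : ((γ : ℚ) : WithTop ℚ) = (K.order : WithTop ℚ) + ((γ - K.order : ℚ) : WithTop ℚ) := by
      rw [← WithTop.coe_add, add_sub_cancel]
    rw [h8] at h3
    exact absurd h7 (not_le.2 ((WithTop.add_lt_add_iff_left WithTop.coe_ne_top).1 h3))
  · have hfA : (Cl q y₀).Finite := hfin.subset (Cl_subset y₀)
    refine ⟨(hfA.image fun ρ => K.leadingCoeff * (ρ - ρs).leadingCoeff).toFinset, ?_⟩
    intro u γ hu hbad h2
    have h3 : K.order + lo < γ := by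
      have h4 : ((K.order + lo : ℚ) : WithTop ℚ) < (γ : WithTop ℚ) := by
        rw [h2, WithTop.coe_add]
        exact WithTop.add_lt_add_left WithTop.coe_ne_top
          ((hlo' y₀ hy₀ hy₀' rfl).trans_le (hhi' y₀ hy₀' rfl))
      exact WithTop.coe_lt_coe.1 h4
    refine hex u γ hu h3 h2.le fun ρ h4 h5 h6 h7 => ?_
    apply hbad
    rw [Set.Finite.mem_toFinset]
    refine ⟨ρ, h4, ?_⟩
    simp only
    rw [h7]
    exact mul_div_cancel₀ u hKlc

/-! ### transfer -/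

theorem RIso.roots_eq {q q' : α → (HahnSeries ℚ Ω)[X]} {β : HahnSeries ℚ Ω → HahnSeries ℚ Ω}
    (h : RIso q q' β) (hq : DC q) (hq' : DC q') (a : α) : (q' a).roots = (q a).roots.map β := by
  classical
  ext c
  rw [count_roots]
  by_cases hc : c ∈ Rq q'
  · obtain ⟨ρ, hρ, rfl⟩ := h.bij.2.2 hc
    rw [← h.mult a ρ hρ]
    by_cases h1 : ρ ∈ (q a).roots
    · rw [Multiset.count_map_eq_count _ _ _ _ h1, count_roots]
      intro x hx y hy hxy
      exact h.bij.2.1 ⟨a, (mem_roots (hq.ne a)).1 hx⟩ ⟨a, (mem_roots (hq.ne a)).1 hy⟩ hxy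
    · rw [← count_roots, Multiset.count_eq_zero_of_notMem h1, eq_comm, Multiset.count_eq_zero]
      intro h2
      obtain ⟨ρ', h3, h4⟩ := Multiset.mem_map.1 h2
      rw [h.bij.2.1 ⟨a, (mem_roots (hq.ne a)).1 h3⟩ hρ h4] at h3
      exact h1 h3
  · rw [← count_roots, Multiset.count_eq_zero_of_notMem
      (fun h1 => hc ⟨a, (mem_roots (hq'.ne a)).1 h1⟩), eq_comm, Multiset.count_eq_zero]
    intro h2
    obtain ⟨ρ', h3, h4⟩ := Multiset.mem_map.1 h2
    exact hc (h4 ▸ h.bij.1 ⟨a, (mem_roots (hq.ne a)).1 h3⟩)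

theorem RIso.rq_eq {q q' : α → (HahnSeries ℚ Ω)[X]} {β : HahnSeries ℚ Ω → HahnSeries ℚ Ω}
    (h : RIso q q' β) (hq : DC q) (hq' : DC q') {y y' : HahnSeries ℚ Ω}
    (hy : ∀ ρ ∈ Rq q, KTS.rv (y - ρ) = KTS.rv (y' - β ρ)) : rq q' y' = rq q y := by
  funext a
  change KTS.rv ((q' a).eval y') = KTS.rv ((q a).eval y)
  rw [(IsAlgClosed.splits (q' a)).eval_eq_prod_roots, (IsAlgClosed.splits (q a)).eval_eq_prod_roots,
    h.roots_eq hq hq' a, Multiset.map_map]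
  refine rv_mul_congr (h.lead a).symm ?_
  refine rv_multiset_prod_congr _ fun ρ hρ => ?_
  exact (hy ρ ⟨a, (mem_roots (hq.ne a)).1 hρ⟩).symm

/-- Transfer at roots. -/
theorem RIso.rq_root {q q' : α → (HahnSeries ℚ Ω)[X]} {β : HahnSeries ℚ Ω → HahnSeries ℚ Ω}
    (h : RIso q q' β) (hq : DC q) (hq' : DC q') {ρ : HahnSeries ℚ Ω} (hρ : ρ ∈ Rq q) :
    rq q' (β ρ) = rq q ρ := by
  refine h.rq_eq hq hq' fun ρ' hρ' => ?_
  by_cases h1 : ρ = ρ'
  · rw [h1, sub_self, sub_self]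
  · exact h.rv ρ hρ ρ' hρ' h1

/-- Translation of points: the point with the same position with respect to the roots. -/
theorem RIso.rv_translate {q q' : α → (HahnSeries ℚ Ω)[X]} {β : HahnSeries ℚ Ω → HahnSeries ℚ Ω}
    (h : RIso q q' β) {y ρ : HahnSeries ℚ Ω} (hρ : ρ ∈ Cl q y) {ρ' : HahnSeries ℚ Ω}
    (hρ' : ρ' ∈ Rq q) :
    KTS.rv (y - ρ') = KTS.rv (β ρ + (y - ρ) - β ρ') := by
  by_cases h1 : ρ = ρ'
  · rw [h1]
    congr 1
    ring
  · have h2 : y - ρ' = (y - ρ) + (ρ - ρ') := by ring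
    have h3 : β ρ + (y - ρ) - β ρ' = (y - ρ) + (β ρ - β ρ') := by ring
    rw [h2, h3]
    refine rv_add_congr rfl (h.rv ρ hρ.1 ρ' hρ' h1) ?_
    by_contra hcon
    push Not at hcon
    obtain ⟨h4, h5⟩ := hcon
    have h6 := hρ.2 ρ' hρ'
    have h7 : y - ρ ≠ 0 := by
      intro h8
      rw [h8, HahnSeries.orderTop_zero] at h4
      exact h1 (ot_top.1 h4.symm)
    have h8 : KTS.rv (y - ρ) = KTS.rv (-(ρ - ρ')) := by
      have h9 : ρ - ρ' ≠ 0 := sub_ne_zero.2 h1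
      refine Prod.ext ?_ ?_
      · rw [rv_neg]
        change (y - ρ).leadingCoeff = -(ρ - ρ').leadingCoeff
        exact eq_neg_of_add_eq_zero_left h5
      · rw [rv_neg]
        exact order_eq_of_ot h7 h9 h4
    have h9 := lt_of_rv_eq h8 h7
    have h10 : y - ρ - -(ρ - ρ') = y - ρ' := by ring
    rw [h10] at h9
    exact absurd h6 (not_le.2 h9)

/-- Transfer outside the roots. -/
theorem RIso.rq_transfer {q q' : α → (HahnSeries ℚ Ω)[X]} {β : HahnSeries ℚ Ω → HahnSeries ℚ Ω}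
    (h : RIso q q' β) (hq : DC q) (hq' : DC q') {y : HahnSeries ℚ Ω} (hy : y ∉ Rq q) :
    ∃ y' ∉ Rq q', rq q' y' = rq q y ∧ Cl q' y' = β '' Cl q y := by
  obtain ⟨ρ, hρ⟩ := Cl_nonempty hq y
  have h1 : ∀ ρ' ∈ Rq q, KTS.rv (y - ρ') = KTS.rv (β ρ + (y - ρ) - β ρ') := fun ρ' hρ' =>
    h.rv_translate hρ hρ'
  refine ⟨β ρ + (y - ρ), ?_, h.rq_eq hq hq' h1, ?_⟩
  · intro h2
    obtain ⟨ρ', h3, h4⟩ := h.bij.2.2 h2
    have h5 := h1 ρ' h3
    rw [h4, sub_self] at h5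
    have h6 := (zero_iff_of_rv h5).2 rfl
    rw [sub_eq_zero.1 h6] at hy
    exact hy h3
  · ext c
    constructor
    · rintro ⟨h2, h3⟩
      obtain ⟨ρ', h4, rfl⟩ := h.bij.2.2 h2
      refine ⟨ρ', ⟨h4, fun ρ₂ h5 => ?_⟩, rfl⟩
      rw [orderTop_of_rv (h1 ρ₂ h5), orderTop_of_rv (h1 ρ' h4)]
      exact h3 _ (h.bij.1 h5)
    · rintro ⟨ρ', h2, rfl⟩
      refine ⟨h.bij.1 h2.1, fun c h3 => ?_⟩
      obtain ⟨ρ₂, h4, rfl⟩ := h.bij.2.2 h3
      rw [← orderTop_of_rv (h1 ρ₂ h4), ← orderTop_of_rv (h1 ρ' h2.1)]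
      exact h2.2 ρ₂ h4

end D

end

end KTS
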