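import Pool.Agent.KTS.Defs

/-!
[KTS-F1] Tame sets of vectors of values: stable under `Aut(Ω/k)`, semilinear in the `ℚ`-part, finitely
many orbits of `Ω`-parts.
-/

set_option autoImplicit false

namespace KTS

noncomputable section

universe u v w

/-- Tame sets. -/
structure Tame (k : Type u) {Ω : Type u} [Field k] [Field Ω] [Algebra k Ω] {ι : Type v} [Fintype ι]
    (E : Set (ι → Ω × ℚ)) : Prop where
  inv : ∀ (σ : Ω ≃ₐ[k] Ω), ∀ z ∈ E, sz σ z ∈ E
  sl : ∀ w : ι → Ω, SL {g : ι → ℚ | zip w g ∈ E}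
  fin : ∃ s : Finset (ι → Ω), ∀ z ∈ E, ∃ w ∈ s, Rel (⊤ : Subgroup (Ω ≃ₐ[k] Ω)) w (ac z)

variable {k Ω : Type u} [Field k] [Field Ω] [Algebra k Ω] {ι : Type v} [Fintype ι] {κ : Type w}
  [Fintype κ]

omit [Fintype ι] in
theorem F_zip_ac_va (z : ι → Ω × ℚ) : zip (ac z) (va z) = z := rfl

omit [Fintype ι] in
theorem sz_inv_sz (σ : Ω ≃ₐ[k] Ω) (z : ι → Ω × ℚ) : sz σ⁻¹ (sz σ z) = z := by
  funext i
  refine Prod.ext ?_ rfl
  show σ⁻¹ (σ (z i).1) = (z i).1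
  rw [← AlgEquiv.mul_apply, inv_mul_cancel, AlgEquiv.one_apply]

omit [Fintype ι] in
theorem sz_sz_inv (σ : Ω ≃ₐ[k] Ω) (z : ι → Ω × ℚ) : sz σ (sz σ⁻¹ z) = z := by
  funext i
  refine Prod.ext ?_ rfl
  show σ (σ⁻¹ (z i).1) = (z i).1
  rw [← AlgEquiv.mul_apply, mul_inv_cancel, AlgEquiv.one_apply]

omit [Fintype ι] in
theorem f1_sz_mul (σ τ : Ω ≃ₐ[k] Ω) (z : ι → Ω × ℚ) : sz (σ * τ) z = sz σ (sz τ z) := rfl

theorem Tame.empty : Tame k (∅ : Set (ι → Ω × ℚ)) where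
  inv := by simp
  sl := by
    intro w
    simpa using (SL.empty : SL (∅ : Set (ι → ℚ)))
  fin := ⟨∅, by simp⟩

theorem Tame.union {E E' : Set (ι → Ω × ℚ)} (h : Tame k E) (h' : Tame k E') : Tame k (E ∪ E') where
  inv := by
    rintro σ z (hz | hz)
    · exact Or.inl (h.inv σ z hz)
    · exact Or.inr (h'.inv σ z hz)
  sl := fun w => (h.sl w).union (h'.sl w)
  fin := by
    classical
    obtain ⟨s, hs⟩ := h.fin
    obtain ⟨s', hs'⟩ := h'.fin
    refine ⟨s ∪ s', ?_⟩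
    rintro z (hz | hz)
    · obtain ⟨w, hw, hr⟩ := hs z hz
      exact ⟨w, Finset.mem_union_left _ hw, hr⟩
    · obtain ⟨w, hw, hr⟩ := hs' z hz
      exact ⟨w, Finset.mem_union_right _ hw, hr⟩

/-- Intersection with a stable set with semilinear fibres. -/
theorem Tame.inter {E : Set (ι → Ω × ℚ)} (h : Tame k E) {Z : Set (ι → Ω × ℚ)}
    (hZ : ∀ (σ : Ω ≃ₐ[k] Ω), ∀ z ∈ Z, sz σ z ∈ Z) (hsl : ∀ w : ι → Ω, SL {g : ι → ℚ | zip w g ∈ Z}) :
    Tame k (E ∩ Z) where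
  inv := fun σ z hz => ⟨h.inv σ z hz.1, hZ σ z hz.2⟩
  sl := fun w => (h.sl w).inter (hsl w)
  fin := by
    obtain ⟨s, hs⟩ := h.fin
    exact ⟨s, fun z hz => hs z hz.1⟩

/-- Intersection with a stable condition on the `Ω`-part. -/
theorem Tame.cond {E : Set (ι → Ω × ℚ)} (h : Tame k E) {D : (ι → Ω) → Prop}
    (hD : ∀ (σ : Ω ≃ₐ[k] Ω) (w : ι → Ω), D w → D (fun i => σ (w i))) :
    Tame k (E ∩ {z | D (ac z)}) :=
  h.inter (fun σ z hz => hD σ (ac z) hz) (fun w => SL.const (D w))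

/-- Images under relations. -/
theorem Tame.image {E : Set (ι → Ω × ℚ)} (h : Tame k E) (R : (ι → Ω × ℚ) → (κ → Ω × ℚ) → Prop)
    (hinv : ∀ (σ : Ω ≃ₐ[k] Ω) z z', R z z' → R (sz σ z) (sz σ z'))
    (hsl : ∀ (w : ι → Ω) (w' : κ → Ω),
      SL {x : ι ⊕ κ → ℚ | R (zip w fun i => x (Sum.inl i)) (zip w' fun i => x (Sum.inr i))})
    (hfin : ∀ w : ι → Ω, ∃ s : Finset (κ → Ω), ∀ z ∈ E, ac z = w → ∀ z', R z z' →
      ∃ w' ∈ s, Rel (fixT (⊤ : Subgroup (Ω ≃ₐ[k] Ω)) w) w' (ac z')) :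
    Tame k {z' | ∃ z ∈ E, R z z'} := by
  classical
  obtain ⟨s, hs⟩ := h.fin
  choose t ht using hfin
  -- the pairs
  have key : ∀ z ∈ E, ∀ z', R z z' → ∃ a ∈ s, ∃ b ∈ t a, ∃ σ : Ω ≃ₐ[k] Ω,
      (∀ i, σ (a i) = ac z i) ∧ ∀ i, σ (b i) = ac z' i := by
    intro z hz z' hR
    obtain ⟨a, ha, σ, -, hσ⟩ := hs z hz
    have h1 : sz σ⁻¹ z ∈ E := h.inv _ _ hz
    have h2 : R (sz σ⁻¹ z) (sz σ⁻¹ z') := hinv _ _ _ hR
    have h3 : ac (sz σ⁻¹ z) = a := by
      funext i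
      show σ⁻¹ (z i).1 = a i
      have : σ (a i) = (z i).1 := hσ i
      rw [← this, ← AlgEquiv.mul_apply, inv_mul_cancel, AlgEquiv.one_apply]
    obtain ⟨b, hb, ρ, hρ, hρb⟩ := ht a _ h1 h3 _ h2
    refine ⟨a, ha, b, hb, σ * ρ, ?_, ?_⟩
    · intro i
      rw [AlgEquiv.mul_apply, hρ.2 i]
      exact hσ i
    · intro i
      rw [AlgEquiv.mul_apply, hρb i]
      show σ (σ⁻¹ (z' i).1) = _
      rw [← AlgEquiv.mul_apply, mul_inv_cancel, AlgEquiv.one_apply]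
      rfl
  refine ⟨?_, ?_, ?_⟩
  · rintro σ z' ⟨z, hz, hR⟩
    exact ⟨sz σ z, h.inv σ z hz, hinv σ z z' hR⟩
  · intro w'
    -- index set of pairs
    let T : Finset ((ι → Ω) × (κ → Ω)) := s.biUnion fun a => (t a).image fun b => (a, b)
    let W : (ι → Ω) × (κ → Ω) → Set (κ → ℚ) := fun p =>
      {g' | ∃ σ : Ω ≃ₐ[k] Ω, (∀ i, σ (p.2 i) = w' i) ∧ ∃ g : ι → ℚ,
        zip (fun i => σ (p.1 i)) g ∈ E ∧ R (zip (fun i => σ (p.1 i)) g) (zip w' g')}
    have e1 : {g' : κ → ℚ | zip w' g' ∈ {z' | ∃ z ∈ E, R z z'}} = ⋃ p ∈ (T : Set _), W p := by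
      ext g'
      simp only [Set.mem_ofPred_eq, Set.mem_iUnion]
      constructor
      · rintro ⟨z, hz, hR⟩
        obtain ⟨a, ha, b, hb, σ, h1, h2⟩ := key z hz _ hR
        have h3 : zip (fun i => σ (a i)) (va z) = z := by
          funext i
          exact Prod.ext (h1 i) rfl
        refine ⟨(a, b), ?_, σ, h2, va z, ?_, ?_⟩
        · simp only [T, Finset.coe_biUnion, Finset.coe_image, Set.mem_iUnion]
          exact ⟨a, ha, b, hb, rfl⟩
        · show zip (fun i => σ (a i)) (va z) ∈ E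
          rw [h3]
          exact hz
        · show R (zip (fun i => σ (a i)) (va z)) (zip w' g')
          rw [h3]
          exact hR
      · rintro ⟨p, -, σ, -, g, h1, h2⟩
        exact ⟨_, h1, h2⟩
    rw [e1]
    refine SL.biUnion (Finset.finite_toSet T) ?_
    rintro ⟨a, b⟩ -
    by_cases hne : ∃ σ : Ω ≃ₐ[k] Ω, ∀ i, σ (b i) = w' i
    · obtain ⟨σ₀, hσ₀⟩ := hne
      have e2 : W (a, b) = {g' | ∃ g : ι → ℚ, zip (fun i => σ₀ (a i)) g ∈ E ∧
          R (zip (fun i => σ₀ (a i)) g) (zip w' g')} := by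
        ext g'
        simp only [W, Set.mem_ofPred_eq]
        constructor
        · rintro ⟨σ, h1, g, h2, h3⟩
          refine ⟨g, ?_, ?_⟩
          · have := h.inv (σ₀ * σ⁻¹) _ h2
            have e3 : sz (σ₀ * σ⁻¹) (zip (fun i => σ (a i)) g) = zip (fun i => σ₀ (a i)) g := by
              funext i
              refine Prod.ext ?_ rfl
              show (σ₀ * σ⁻¹) (σ (a i)) = σ₀ (a i)
              rw [← AlgEquiv.mul_apply, inv_mul_cancel_right]
            rwa [e3] at this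
          · have := hinv (σ₀ * σ⁻¹) _ _ h3
            have e3 : sz (σ₀ * σ⁻¹) (zip (fun i => σ (a i)) g) = zip (fun i => σ₀ (a i)) g := by
              funext i
              refine Prod.ext ?_ rfl
              show (σ₀ * σ⁻¹) (σ (a i)) = σ₀ (a i)
              rw [← AlgEquiv.mul_apply, inv_mul_cancel_right]
            have e4 : sz (σ₀ * σ⁻¹) (zip w' g') = zip w' g' := by
              funext i
              refine Prod.ext ?_ rfl
              show (σ₀ * σ⁻¹) (w' i) = w' i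
              rw [← h1 i, ← AlgEquiv.mul_apply, inv_mul_cancel_right, h1 i]
              exact hσ₀ i
            rwa [e3, e4] at this
        · rintro ⟨g, h1, h2⟩
          exact ⟨σ₀, hσ₀, g, h1, h2⟩
      rw [e2]
      have h5 : SL {x : κ ⊕ ι → ℚ | zip (fun i => σ₀ (a i)) (fun i => x (Sum.inr i)) ∈ E ∧
          R (zip (fun i => σ₀ (a i)) (fun i => x (Sum.inr i))) (zip w' fun i => x (Sum.inl i))} := by
        refine SL.and ?_ ?_
        · exact (h.sl (fun i => σ₀ (a i))).preimage (AffM.reindex (Sum.inr : ι → κ ⊕ ι))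
        · have := (hsl (fun i => σ₀ (a i)) w').preimage
            (AffM.reindex (Sum.swap : ι ⊕ κ → κ ⊕ ι))
          exact this
      exact SL.exv h5
    · have e2 : W (a, b) = ∅ := by
        ext g'
        simp only [W, Set.mem_ofPred_eq, Set.mem_empty_iff_false, iff_false]
        rintro ⟨σ, h1, -⟩
        exact hne ⟨σ, h1⟩
      rw [e2]
      exact SL.empty
  · refine ⟨s.biUnion t, ?_⟩
    rintro z' ⟨z, hz, hR⟩
    obtain ⟨a, ha, b, hb, σ, -, h2⟩ := key z hz z' hR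
    exact ⟨b, Finset.mem_biUnion.2 ⟨a, ha, hb⟩, σ, Subgroup.mem_top σ, h2⟩

end

end KTS
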