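import Pool.Agent.KTS.HC2

/-!
# [KTS-H] the H block in the form of Need.lean (helper19) and of block F (helper75)
-/

set_option autoImplicit false
set_option linter.unusedVariables false
set_option linter.unusedSectionVars false

namespace KTS

noncomputable section

universe u v w

open Polynomial Cardinal

section H

variable {k Ω F : Type u} [Field k] [Field Ω] [IsAlgClosed Ω]
  [CharZero Ω] [Algebra k Ω] [Field F] [Algebra (HahnSeries ℚ k) F]

/-- H7a. -/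
theorem mem_kf_of_fixed (hΩ : ℵ₀ ≤ Algebra.trdeg k Ω) {ι : Type v} [Finite ι] (e : ι → Ω) (u : Ω)
    (h : ∀ σ ∈ fixT (⊤ : Subgroup (Ω ≃ₐ[k] Ω)) e, σ u = u) : u ∈ kf k e :=
  mem_kf_of_fixT h

/-- H7b. -/
theorem isAlgebraic_of_finite_orbit (hΩ : ℵ₀ ≤ Algebra.trdeg k Ω) {ι : Type v} [Finite ι]
    (e : ι → Ω) (u : Ω)
    (h : {v | ∃ σ ∈ fixT (⊤ : Subgroup (Ω ≃ₐ[k] Ω)) e, σ u = v}.Finite) :
    IsAlgebraic (kf k e) u :=
  mem_cl.1 (alg_of_fin_orbit h)

/-- Converse of H7b (roots of the minimal polynomial). -/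
theorem finite_orbit_of_isAlgebraic {ι : Type v} (e : ι → Ω) (u : Ω)
    (h : IsAlgebraic (kf k e) u) :
    {v | ∃ σ ∈ fixT (⊤ : Subgroup (Ω ≃ₐ[k] Ω)) e, σ u = v}.Finite := by
  rw [fixT_top]
  exact finite_orbit_of_alg _ h

/-- H7c. -/
theorem exists_fixT_of_transcendental (hΩ : ℵ₀ ≤ Algebra.trdeg k Ω) {ι : Type v} [Finite ι]
    (e : ι → Ω) (u u' : Ω) (h : Transcendental (kf k e) u) (h' : Transcendental (kf k e) u') :
    ∃ σ ∈ fixT (⊤ : Subgroup (Ω ≃ₐ[k] Ω)) e, σ u = u' :=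
  trans_fixT (transcendental_iff_cl.1 h) (transcendental_iff_cl.1 h')

/-- Transcendence degree of finite tuples. -/
theorem trdeg_kf_lt {ι : Type u} [Finite ι] (e : ι → Ω) :
    Algebra.trdeg k (kf k e) < ℵ₀ := td_kf_lt e

theorem trdeg_kf_alg {ι κ : Type u} (e : ι → Ω) (e' : κ → Ω)
    (h : ∀ j, IsAlgebraic (kf k e) (e' j)) :
    Algebra.trdeg k (kf k (Sum.elim e e')) = Algebra.trdeg k (kf k e) := by
  rw [kf_sum]
  refine td_alg le_sup_left fun x hx => ?_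
  have h1 : kf k e ⊔ kf k e' ≤ cl (kf k e) := sup_le (le_cl _) (kf_le.2 fun j => mem_cl.2 (h j))
  exact mem_cl.1 (h1 hx)

theorem trdeg_kf_adjoin {ι : Type u} (e : ι → Ω) (u : Ω)
    (h : Transcendental (kf k e) u) :
    Algebra.trdeg k (kf k (Sum.elim e (fun _ : PUnit.{u + 1} => u))) =
      Algebra.trdeg k (kf k e) + 1 := by
  have h1 := td_succ h
  have h2 : kf k (Sum.elim e (fun _ : PUnit.{u + 1} => u)) =
      IntermediateField.adjoin k ((kf k e : Set Ω) ∪ {u}) := by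
    rw [kf_sum, IntermediateField.adjoin_union, IntermediateField.adjoin_self]
    unfold kf
    rw [Set.range_const]
  rw [h2]
  exact h1

omit [IsAlgClosed Ω] [CharZero Ω] in
theorem td_top_eq : Algebra.trdeg (HahnSeries ℚ k) (⊤ : IntermediateField (HahnSeries ℚ k) F) =
    Algebra.trdeg (HahnSeries ℚ k) F :=
  (IntermediateField.topEquiv (F := HahnSeries ℚ k) (E := F)).trdeg_eq

/-- H5, rank inequality. -/
theorem trdeg_lc_le {ι : Type u} [Finite ι] (φ : Pt k Ω F) (s : ι → HahnSeries ℚ Ω)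
    (hs : ∀ i, AlgO φ ⊤ (s i)) :
    Algebra.trdeg k (kf k fun i => (s i).leadingCoeff) ≤ Algebra.trdeg (HahnSeries ℚ k) F := by
  have h1 := td_kf_le φ hs
  rw [td_top_eq] at h1
  exact h1

/-- H6, generic elements. -/
theorem exists_gen (hΩ : ℵ₀ ≤ Algebra.trdeg k Ω) (hF : Algebra.trdeg (HahnSeries ℚ k) F < ℵ₀)
    {ι : Type u} [Finite ι] (φ : Pt k Ω F) (e : ι → Ω) :
    ∃ w : Ω, Transcendental (kf k e) w ∧ ∀ (ρ : HahnSeries ℚ Ω) (M : ℚ), AlgO φ ⊤ ρ →
      ¬ AlgO φ ⊤ (ρ + HahnSeries.single M w) := by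
  obtain ⟨ω, -, h1, h2, -⟩ := exists_generic φ (E := ⊤) (by rw [td_top_eq]; exact hF) hΩ
    (W := kf k e) (td_kf_lt e)
  exact ⟨ω, transcendental_iff_cl.2 h2, fun ρ M hρ => not_algO_add hρ h1 M⟩

/-- H6, in discs. -/
theorem exists_gen_disc (hΩ : ℵ₀ ≤ Algebra.trdeg k Ω)
    (hF : Algebra.trdeg (HahnSeries ℚ k) F < ℵ₀) (φ : Pt k Ω F) (b : HahnSeries ℚ Ω) (r : ℚ) :
    ∃ y ∈ OD b r, ¬ AlgO φ ⊤ y :=
  exists_not_algO φ (by rw [td_top_eq]; exact hF) hΩ b r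

/-- Extension of points. -/
theorem ext_pt (hΩ : ℵ₀ ≤ Algebra.trdeg k Ω) (hF : Algebra.trdeg (HahnSeries ℚ k) F < ℵ₀)
    (E : IntermediateField (HahnSeries ℚ k) F) (φ : E →ₐ[HahnSeries ℚ k] HahnSeries ℚ Ω) :
    ∃ ψ : Pt k Ω F, ∀ e : E, ψ e = φ e :=
  exists_extension hF hΩ E φ

/-- Extension of points, transcendental step. -/
theorem ext_T (hΩ : ℵ₀ ≤ Algebra.trdeg k Ω) (hF : Algebra.trdeg (HahnSeries ℚ k) F < ℵ₀)
    (E : IntermediateField (HahnSeries ℚ k) F) (φ : Pt k Ω F) (x : F) (hx : Transcendental E x)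
    (y : HahnSeries ℚ Ω) (hy : ¬ AlgO φ E y) :
    ∃ ψ : Pt k Ω F, (∀ e ∈ E, ψ e = φ e) ∧ ψ x = y :=
  ext_tr φ hx hy

/-- Extension of points, algebraic step. -/
theorem ext_A (hΩ : ℵ₀ ≤ Algebra.trdeg k Ω) (hF : Algebra.trdeg (HahnSeries ℚ k) F < ℵ₀)
    (E : IntermediateField (HahnSeries ℚ k) F) (φ : Pt k Ω F) (x : F) (hx : IsAlgebraic E x)
    (y : HahnSeries ℚ Ω)
    (hy : (((minpoly E x).map (algebraMap E F)).map (φ : F →+* HahnSeries ℚ Ω)).eval y = 0) :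
    ∃ ψ : Pt k Ω F, (∀ e ∈ E, ψ e = φ e) ∧ ψ x = y :=
  ext_al φ hx hy

end H

section HF

/-- H5 in the form of block F. -/
theorem pt_trdeg_le {k Ω F : Type u} [Field k] [IsAlgClosed k] [CharZero k] [Field Ω]
    [Algebra k Ω] [Field F] [Algebra (HahnSeries ℚ k) F] (φ : Pt k Ω F) (n : ℕ)
    (hn : Algebra.trdeg (HahnSeries ℚ k) F ≤ n) {ι : Type v} [Finite ι]
    (y : ι → HahnSeries ℚ Ω) (hy : ∀ i, IsAlgebraic φ.fieldRange (y i)) :
    Algebra.trdeg k (kf k fun i => (y i).leadingCoeff) ≤ n := by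
  have h1 : φ.fieldRange = imE φ ⊤ := AlgHom.fieldRange_eq_map φ
  have h2 : ∀ i, AlgO φ ⊤ (y i) := by
    intro i
    rw [algO_iff, mem_cl, ← h1]
    exact hy i
  have h3 := td_kf_le φ h2
  rw [td_top_eq] at h3
  exact h3.trans hn

end HF

section Big

/-- a big algebraically closed field -/
theorem exists_big (k : Type u) [Field k] [CharZero k] :
    ∃ (Ω : Type u) (_ : Field Ω) (_ : IsAlgClosed Ω) (_ : CharZero Ω) (_ : Algebra k Ω),
      ℵ₀ ≤ Algebra.trdeg k Ω := by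
  let M := MvPolynomial (ULift.{u} ℕ) k
  let L := FractionRing M
  let Ω := AlgebraicClosure L
  let _ : Algebra k Ω := ((algebraMap L Ω).comp ((algebraMap M L).comp MvPolynomial.C)).toAlgebra
  refine ⟨Ω, inferInstance, inferInstance, charZero_of_injective_algebraMap
    (algebraMap k Ω).injective, inferInstance, ?_⟩
  let f : M →ₐ[k] Ω := { (algebraMap L Ω).comp (algebraMap M L) with commutes' := fun _ => rfl }
  have hf : Function.Injective f := (algebraMap L Ω).injective.comp (IsFractionRing.injective M L)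
  have h1 : Algebra.trdeg k M = #(ULift.{u} ℕ) := by
    rw [MvPolynomial.trdeg_of_isDomain, Cardinal.lift_id]
  have h2 := trdeg_le_of_injective f hf
  rw [h1, Cardinal.mk_uLift, Cardinal.mk_nat, Cardinal.lift_aleph0] at h2
  exact h2

end Big

end

end KTS
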