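import Pool.Agent.KTS.F1
import Pool.Agent.KTS.HN

/-!
[KTS-F2] The sets of vectors of values of a field; the finiteness property `TF`.
-/

set_option autoImplicit false

namespace KTS

noncomputable section

universe u v w

open Polynomial

section kf

variable {k Ω : Type u} [Field k] [Field Ω] [Algebra k Ω] {ι : Type v} {κ : Type w}

theorem trdeg_kf_map (σ : Ω ≃ₐ[k] Ω) (w : ι → Ω) :
    Algebra.trdeg k (kf k fun i => σ (w i)) = Algebra.trdeg k (kf k w) := by
  have h1 : (kf k fun i => σ (w i)) = (kf k w).map (σ : Ω →ₐ[k] Ω) := by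
    unfold kf
    rw [IntermediateField.adjoin_map]
    congr 1
    ext x
    simp only [Set.mem_range, Set.mem_image, exists_exists_eq_and]
    rfl
  rw [h1]
  exact ((kf k w).intermediateFieldMap σ).trdeg_eq.symm

end kf

variable {k Ω F : Type u} [Field k] [Field Ω] [Algebra k Ω] [Field F] [Algebra (HahnSeries ℚ k) F]
  {ι : Type v}

theorem F_rvt_sact (σ : Ω ≃ₐ[k] Ω) (φ : Pt k Ω F) (s : ι → F) :
    rvt s (sact (σ : Ω →ₐ[k] Ω) φ) = sz σ (rvt s φ) := by
  funext i
  exact rv_hmapA (σ : Ω →ₐ[k] Ω) (φ (s i))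

variable (k Ω) in
/-- The vectors of values of `s` whose residue field has dimension `n`. -/
def Es (n : ℕ) (s : ι → F) : Set (ι → Ω × ℚ) :=
  {z | (∃ φ : Pt k Ω F, rvt s φ = z) ∧ Algebra.trdeg k (kf k (ac z)) = n}

variable (k Ω F) in
/-- The finiteness property of the field `F` (in dimension `n`). -/
def TF (n : ℕ) : Prop :=
  ∀ S : Finset F, (0 : F) ∉ S → Tame k (Es k Ω n (fun s : S => (s : F)))

theorem Es_inv (n : ℕ) (s : ι → F) (σ : Ω ≃ₐ[k] Ω) {z : ι → Ω × ℚ} (hz : z ∈ Es k Ω n s) :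
    sz σ z ∈ Es k Ω n s := by
  obtain ⟨⟨φ, hφ⟩, hd⟩ := hz
  refine ⟨⟨sact (σ : Ω →ₐ[k] Ω) φ, ?_⟩, ?_⟩
  · rw [F_rvt_sact, hφ]
  · have : ac (sz σ z) = fun i => σ (ac z i) := rfl
    rw [this, trdeg_kf_map, hd]

/-- The same property for arbitrary tuples. -/
theorem TF.gen {n : ℕ} (h : TF k Ω F n) [Fintype ι] (s : ι → F) : Tame k (Es k Ω n s) := by
  classical
  let S : Finset F := (Finset.univ.image s).erase 0
  have hS : ∀ i, s i ≠ 0 → s i ∈ S := fun i hi =>
    Finset.mem_erase.2 ⟨hi, Finset.mem_image_of_mem _ (Finset.mem_univ i)⟩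
  have h0 : (0 : F) ∉ S := Finset.notMem_erase _ _
  let R : (S → Ω × ℚ) → (ι → Ω × ℚ) → Prop := fun z z' =>
    ∀ i, z' i = if hi : s i = 0 then (0, 0) else z ⟨s i, hS i hi⟩
  have hT := h S h0
  have hR1 : ∀ φ : Pt k Ω F, R (rvt (fun s : S => (s : F)) φ) (rvt s φ) := by
    intro φ i
    by_cases hi : s i = 0
    · rw [dif_pos hi]
      show rv (φ (s i)) = _
      rw [hi, map_zero, rv_zero]
    · rw [dif_neg hi]
      rfl
  have hR2 : ∀ z z', R z z' → kf k (ac z') = kf k (ac z) := by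
    intro z z' hR
    apply le_antisymm
    · apply kf_le.2
      intro i
      show (z' i).1 ∈ _
      rw [hR i]
      by_cases hi : s i = 0
      · rw [dif_pos hi]
        exact zero_mem _
      · rw [dif_neg hi]
        exact mem_kf (ac z) ⟨s i, hS i hi⟩
    · apply kf_le.2
      rintro ⟨x, hx⟩
      obtain ⟨hx0, hx1⟩ := Finset.mem_erase.1 hx
      obtain ⟨i, -, rfl⟩ := Finset.mem_image.1 hx1
      have : ac z ⟨s i, hx⟩ = ac z' i := by
        show (z ⟨s i, hx⟩).1 = (z' i).1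
        rw [hR i, dif_neg hx0]
      rw [this]
      exact mem_kf (ac z') i
  have hE : Es k Ω n s = {z' | ∃ z ∈ Es k Ω n (fun s : S => (s : F)), R z z'} := by
    ext z'
    constructor
    · rintro ⟨⟨φ, rfl⟩, hd⟩
      refine ⟨rvt (fun s : S => (s : F)) φ, ⟨⟨φ, rfl⟩, ?_⟩, hR1 φ⟩
      rw [← hR2 _ _ (hR1 φ), hd]
    · rintro ⟨z, ⟨⟨φ, rfl⟩, hd⟩, hR⟩
      refine ⟨⟨φ, ?_⟩, ?_⟩
      · funext i
        rw [hR i, hR1 φ i]
      · rw [hR2 _ _ hR, hd]
  rw [hE]
  refine hT.image R ?_ ?_ ?_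
  · intro σ z z' hR i
    show (σ (z' i).1, (z' i).2) = _
    rw [hR i]
    by_cases hi : s i = 0
    · rw [dif_pos hi, dif_pos hi]
      simp
    · rw [dif_neg hi, dif_neg hi]
      rfl
  · intro w w'
    refine SL.all fun i => ?_
    by_cases hi : s i = 0
    · simp only [dif_pos hi]
      have : {x : S ⊕ ι → ℚ | (zip w' fun i => x (Sum.inr i)) i = (0, 0)} =
          {x | w' i = 0 ∧ x (Sum.inr i) = 0} := by
        ext x
        exact Prod.ext_iff
      rw [this]
      exact (SL.const _).inter (SL.eq (Aff.coord _) (Aff.const 0))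
    · simp only [dif_neg hi]
      have : {x : S ⊕ ι → ℚ | (zip w' fun i => x (Sum.inr i)) i =
          (zip w fun i => x (Sum.inl i)) ⟨s i, hS i hi⟩} =
          {x | w' i = w ⟨s i, hS i hi⟩ ∧ x (Sum.inr i) = x (Sum.inl ⟨s i, hS i hi⟩)} := by
        ext x
        exact Prod.ext_iff
      rw [this]
      exact (SL.const _).inter (SL.eq (Aff.coord _) (Aff.coord _))
  · intro w
    refine ⟨{fun i => if hi : s i = 0 then 0 else w ⟨s i, hS i hi⟩}, ?_⟩
    intro z _ hz z' hR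
    refine ⟨_, Finset.mem_singleton_self _, 1, ?_, ?_⟩
    · exact ⟨Subgroup.mem_top _, fun i => rfl⟩
    · intro i
      show (if hi : s i = 0 then 0 else w ⟨s i, hS i hi⟩) = (z' i).1
      rw [hR i]
      by_cases hi : s i = 0
      · rw [dif_pos hi, dif_pos hi]
      · rw [dif_neg hi, dif_neg hi, ← hz]
        rfl

end

end KTS
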