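import Pool.Agent.KTS.FH
import Pool.Agent.KTS.CH3

/-!
[KTS-F3] Finiteness: the algebraic step.
-/

set_option autoImplicit false

namespace KTS

noncomputable section

universe u v w

open MvPolynomial

variable {k Ω : Type u} [Field k] [Field Ω] [Algebra k Ω] {τ : Type u} [Fintype τ]

open Classical in
/-- The Chow relation between the vector of values `z` of the coefficients (indexed by the exponents
`m ∈ M`) and the vector of values `z'`. -/
def ChR (M : Finset (Option τ →₀ ℕ)) (z : M → Ω × ℚ) (z' : τ → Ω × ℚ) : Prop :=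
  (∀ j, (z' j).1 ≠ 0) ∧
    subs (ac z') (∑ m : M,
      if ∀ m' : M, (z m).2 - ∑ j, (m.1 (some j) : ℚ) * (z' j).2 ≤
          (z m').2 - ∑ j, (m'.1 (some j) : ℚ) * (z' j).2
        then monomial m.1 (z m).1 else 0) = 0

theorem f3a_subs_map (σ : Ω →+* Ω) (ξ : τ → Ω) (P : MvPolynomial (Option τ) Ω) :
    subs (fun j => σ (ξ j)) (MvPolynomial.map σ P) = MvPolynomial.map σ (subs ξ P) := by
  induction P using MvPolynomial.induction_on with
  | C a =>
    rw [map_C]
    unfold subs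
    rw [coe_eval₂Hom, coe_eval₂Hom, eval₂_C, eval₂_C, map_C]
  | add p q hp hq => rw [map_add, map_add, map_add, map_add, hp, hq]
  | mul_X p o hp =>
    rw [map_mul, map_mul, map_mul, map_mul, hp, map_X]
    congr 1
    unfold subs
    rw [coe_eval₂Hom, coe_eval₂Hom, eval₂_X, eval₂_X]
    cases o with
    | none =>
      show - ∑ j, C (σ (ξ j)) * X j = MvPolynomial.map σ (- ∑ j, C (ξ j) * X j)
      rw [map_neg, map_sum]
      congr 1
      exact Finset.sum_congr rfl fun j _ => by rw [map_mul, map_C, map_X]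
    | some j =>
      show X j = MvPolynomial.map σ (X j)
      rw [map_X]

/-- Proof. Apply `MvPolynomial.map σ` (`σ : Ω →+* Ω`, injective) to the relation:
`map σ (subs ξ P) = subs (σ ∘ ξ) (map σ P)` (both sides are ring homs in `P`; check on `C a` and `X o`), and
`map σ` of the sum is the sum for `sz σ z` (the conditions involve only the `ℚ`-parts). -/
theorem ChR_inv (M : Finset (Option τ →₀ ℕ)) (σ : Ω ≃ₐ[k] Ω) (z : M → Ω × ℚ) (z' : τ → Ω × ℚ)
    (h : ChR M z z') : ChR M (sz σ z) (sz σ z') := by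
  classical
  obtain ⟨h1, h2⟩ := h
  refine ⟨fun j => ?_, ?_⟩
  · show σ (z' j).1 ≠ 0
    exact (map_ne_zero σ).2 (h1 j)
  · have h3 := congrArg (MvPolynomial.map (σ : Ω →+* Ω)) h2
    rw [map_zero, ← f3a_subs_map, map_sum] at h3
    refine Eq.trans ?_ h3
    show subs (fun j => σ (ac z' j)) _ = subs (fun j => (σ : Ω →+* Ω) (ac z' j)) _
    congr 1
    refine Finset.sum_congr rfl fun m _ => ?_
    by_cases hc : ∀ m' : M, (z m).2 - ∑ j, (m.1 (some j) : ℚ) * (z' j).2 ≤
          (z m').2 - ∑ j, (m'.1 (some j) : ℚ) * (z' j).2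
    · rw [if_pos hc, if_pos (show ∀ m' : M, (sz σ z m).2 - ∑ j, (m.1 (some j) : ℚ) * (sz σ z' j).2 ≤
          (sz σ z m').2 - ∑ j, (m'.1 (some j) : ℚ) * (sz σ z' j).2 from hc), map_monomial]
      rfl
    · rw [if_neg hc, if_neg (show ¬ ∀ m' : M,
          (sz σ z m).2 - ∑ j, (m.1 (some j) : ℚ) * (sz σ z' j).2 ≤
          (sz σ z m').2 - ∑ j, (m'.1 (some j) : ℚ) * (sz σ z' j).2 from hc), map_zero]

/-- Proof. For fixed `w, w'` the sum only depends on the set `A = {m | m minimal}` (as a set in the finite type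
`M`): `{x | …} = ⋃_{A : Set M, with (∀ j, w' j ≠ 0) ∧ subs w' (∑ m, if m ∈ A then monomial m (w m) else 0) = 0}
{x | the set of minimal m is A}` and the latter set is semilinear (`SL.argmin`, or `SL.all`, `SL.iff`, `SL.le` with
`Aff`). Use `SL.ex` over `A : Set M` (`Finite (Set M)`), `SL.and`, `SL.const`. -/
theorem ChR_sl (M : Finset (Option τ →₀ ℕ)) (w : M → Ω) (w' : τ → Ω) :
    SL {x : M ⊕ τ → ℚ | ChR M (zip w fun i => x (Sum.inl i)) (zip w' fun i => x (Sum.inr i))} := by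
  classical
  let g : M → (M ⊕ τ → ℚ) → ℚ := fun m x =>
    x (Sum.inl m) - ∑ j, (m.1 (some j) : ℚ) * x (Sum.inr j)
  have hg : ∀ m : M, Aff (g m) := fun m =>
    (Aff.coord _).sub (Aff.sum _ _ fun j _ => (Aff.coord _).mul_left _)
  have h1 : SL {x : M ⊕ τ → ℚ | ∃ A : Set M, ((∀ j, w' j ≠ 0) ∧
      subs w' (∑ m : M, if m ∈ A then monomial m.1 (w m) else 0) = 0) ∧
      ∀ m, m ∈ A ↔ ∀ m', g m x ≤ g m' x} :=
    SL.ex fun A => (SL.const _).and
      (SL.all fun m => (SL.const _).iff (SL.all fun m' => SL.le (hg m) (hg m')))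
  have h2 : {x : M ⊕ τ → ℚ | ChR M (zip w fun i => x (Sum.inl i)) (zip w' fun i => x (Sum.inr i))} =
      {x : M ⊕ τ → ℚ | ∃ A : Set M, ((∀ j, w' j ≠ 0) ∧
      subs w' (∑ m : M, if m ∈ A then monomial m.1 (w m) else 0) = 0) ∧
      ∀ m, m ∈ A ↔ ∀ m', g m x ≤ g m' x} := by
    ext x
    constructor
    · rintro ⟨h3, h4⟩
      refine ⟨{m | ∀ m', g m x ≤ g m' x}, ⟨h3, ?_⟩, fun m => Iff.rfl⟩
      refine Eq.trans ?_ h4
      show subs w' _ = subs w' _
      congr 1
      refine Finset.sum_congr rfl fun m _ => ?_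
      by_cases hc : ∀ m' : M, g m x ≤ g m' x
      · rw [if_pos (show m ∈ {m | ∀ m', g m x ≤ g m' x} from hc), if_pos]
        · rfl
        · exact hc
      · rw [if_neg (show m ∉ {m | ∀ m', g m x ≤ g m' x} from hc), if_neg]
        exact hc
    · rintro ⟨A, ⟨h3, h4⟩, h5⟩
      refine ⟨h3, ?_⟩
      refine Eq.trans ?_ h4
      show subs w' _ = subs w' _
      congr 1
      refine Finset.sum_congr rfl fun m _ => ?_
      by_cases hc : m ∈ A
      · rw [if_pos hc, if_pos]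
        · rfl
        · exact (h5 m).1 hc
      · rw [if_neg hc, if_neg]
        exact fun h6 => hc ((h5 m).2 h6)
  rw [h2]
  exact h1

variable {F' N : Type u} [Field F'] [Field N] [Algebra F' N] [FiniteDimensional F' N] [CharZero F']

open Classical in
private theorem f3b_ini {F' : Type u} [Field F'] (Φ : MvPolynomial (Option τ) F')
    (φ : F' →+* HahnSeries ℚ Ω) (γ : τ → ℚ) :
    ini γ (MvPolynomial.map φ Φ) = ∑ m : Φ.support,
      if ∀ m' : Φ.support, (rv (φ (Φ.coeff m.1))).2 - ∑ j, (m.1 (some j) : ℚ) * γ j ≤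
          (rv (φ (Φ.coeff m'.1))).2 - ∑ j, (m'.1 (some j) : ℚ) * γ j
        then monomial m.1 (rv (φ (Φ.coeff m.1))).1 else 0 := by
  have hsupp : (MvPolynomial.map φ Φ).support = Φ.support :=
    MvPolynomial.support_map_of_injective _ φ.injective
  have hmv : ∀ m, mval γ (MvPolynomial.map φ Φ) m =
      (rv (φ (Φ.coeff m))).2 - ∑ j, (m (some j) : ℚ) * γ j := by
    intro m
    unfold mval
    rw [coeff_map]
    rfl
  ext m
  rw [ini_eq, hsupp, coeff_sum]
  by_cases hm : m ∈ Φ.support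
  · rw [Finset.sum_eq_single (⟨m, hm⟩ : Φ.support)]
    · by_cases hc : ∀ m' : Φ.support, (rv (φ (Φ.coeff m))).2 - ∑ j, (m (some j) : ℚ) * γ j ≤
          (rv (φ (Φ.coeff m'.1))).2 - ∑ j, (m'.1 (some j) : ℚ) * γ j
      · rw [if_pos hc, coeff_monomial, if_pos rfl, if_pos, coeff_map]
        · rfl
        · refine ⟨hm, fun m' hm' => ?_⟩
          rw [hmv, hmv]
          exact hc ⟨m', hm'⟩
      · rw [if_neg hc, coeff_zero, if_neg]
        rintro ⟨-, h⟩
        apply hc
        intro m'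
        have := h m'.1 m'.2
        rwa [hmv, hmv] at this
    · intro m' _ hne
      split_ifs
      · rw [coeff_monomial, if_neg]
        intro h
        exact hne (Subtype.ext h)
      · exact coeff_zero _
    · intro h
      exact absurd (Finset.mem_univ _) h
  · rw [if_neg (fun h => hm h.1)]
    refine (Finset.sum_eq_zero fun m' _ => ?_).symm
    split_ifs
    · rw [coeff_monomial, if_neg]
      intro h
      exact hm (h ▸ m'.2)
    · exact coeff_zero _

/-- Proof. `rel_iff` with `ξ = ac z'`, `γ = va z'`. By `ini_eq`, with `Ψ = map φ (nform F' N S)`, `Ψ.coeff m = φ (Φ.coeff m)`,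
`Ψ.support = Φ.support` (`φ` injective), `mval γ Ψ m = (rv (φ (Φ.coeff m))).2 - ∑ …`: the initial form is the sum in
`ChR` (`MvPolynomial.ext`, `coeff_sum`, `coeff_monomial`). -/
theorem ChR_iff [IsAlgClosed Ω] [CharZero Ω] (S : Finset N) (φ : F' →+* HahnSeries ℚ Ω)
    (z' : S → Ω × ℚ) :
    ChR (nform F' N S).support (fun m => rv (φ ((nform F' N S).coeff m.1))) z' ↔
      (∀ s, (z' s).1 ≠ 0) ∧ ∃ ψ : N →+* HahnSeries ℚ Ω, ψ.comp (algebraMap F' N) = φ ∧
        ∀ s : S, rv (ψ s) = z' s := by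
  unfold ChR
  rw [← f3b_ini (nform F' N S) φ (fun j => (z' j).2)]
  constructor
  · rintro ⟨h1, h2⟩
    refine ⟨h1, ?_⟩
    obtain ⟨ψ, h3, h4⟩ := (rel_iff S φ (ac z') (va z') h1).1 h2
    exact ⟨ψ, h3, fun s => h4 s⟩
  · rintro ⟨h1, ψ, h3, h4⟩
    exact ⟨h1, (rel_iff S φ (ac z') (va z') h1).2 ⟨ψ, h3, fun s => h4 s⟩⟩

theorem f3c_set [Algebra (HahnSeries ℚ k) F'] (S : Finset N) (ψ : N →+* HahnSeries ℚ Ω)
    (φ : Pt k Ω F') (h : ψ.comp (algebraMap F' N) = (φ : F' →+* HahnSeries ℚ Ω)) :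
    {z : Ω | ∃ m ∈ (nform F' N S).support,
        z = (ψ (algebraMap F' N ((nform F' N S).coeff m))).leadingCoeff} =
      Set.range (ac (rvt (fun m : (nform F' N S).support => (nform F' N S).coeff m.1) φ)) := by
  have h1 : ∀ a, ψ (algebraMap F' N a) = φ a := fun a => congrArg (fun f => f a) h
  ext z
  simp only [Set.mem_ofPred_eq, Set.mem_range]
  constructor
  · rintro ⟨m, hm, rfl⟩
    refine ⟨⟨m, hm⟩, ?_⟩
    rw [h1]
    rfl
  · rintro ⟨m, rfl⟩
    refine ⟨m.1, m.2, ?_⟩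
    rw [h1]
    rfl

theorem f3c_mono {E E' : IntermediateField k Ω} (h : E ≤ E') :
    Algebra.trdeg k E ≤ Algebra.trdeg k E' :=
  trdeg_le_of_injective (IntermediateField.inclusion h) (IntermediateField.inclusion h).injective

/-- The algebraic step.

Proof. `S : Finset N`, `0 ∉ S`; `Φ = nform F' N S`, `M = Φ.support`, `c : M → F'`, `c m = Φ.coeff m`. `hc : Tame k (Es k Ω n c)`
(`h.gen c`). Claim: `Es k Ω n (S) = {z' | ∃ z ∈ Es k Ω n c, ChR M z z'} ∩ {z' | trdeg k (kf k (ac z')) = n}`.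
(⊆) `φ : Pt k Ω N`, `z' = rvt S φ`, `z = rvt c (resPt F' φ)`: `ChR M z z'` by `ChR_iff` (`φ s ≠ 0`). `trdeg k (kf k (ac z)) ≤ n`
by `pt_trdeg_le` for `resPt F' φ` (the elements `φ' (c m)` are in `fieldRange`, so algebraic); `≥ n`: `kf k (ac z')` is
algebraic over `kf k (ac z)` by `nform_lc_alg` (`adjoin k {…} = kf k (ac z)`), so
`n = trdeg (kf k (ac z')) ≤ trdeg (kf k (ac z) ⊔ kf k (ac z')) = trdeg (kf k (ac z))`.
(⊇) `z = rvt c φ'`, `ChR M z z'`: `ChR_iff` gives `ψ`, then `toPt φ' ψ`.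
Tameness of the right hand side: `Tame.image` (with `ChR_inv`, `ChR_sl`; finiteness: for `w : M → Ω` the set
`{ξ | ∃ ψ, (∀ m ∈ support, lc(ψ(c m)) = w m) ∧ ∀ s, ξ s = lc (ψ s)}` is finite by `nform_lc_finite`; for
`z ∈ Es k Ω n c` with `ac z = w` and `ChR M z z'` the vector `ac z'` is in it, by `ChR_iff`; take `σ = 1`), then
`Tame.cond` with `trdeg_kf_map`. -/
theorem TF_alg [IsAlgClosed k] [CharZero k] [IsAlgClosed Ω] [CharZero Ω]
    [Algebra (HahnSeries ℚ k) F'] [Algebra (HahnSeries ℚ k) N] [IsScalarTower (HahnSeries ℚ k) F' N]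
    (n : ℕ) (hn : Algebra.trdeg (HahnSeries ℚ k) F' = n) (h : TF k Ω F' n) : TF k Ω N n := by
  classical
  intro S hS0
  have hS : ∀ s ∈ S, s ≠ 0 := by
    rintro s hs rfl
    exact hS0 hs
  set c : (nform F' N S).support → F' := fun m => (nform F' N S).coeff m.1 with hcdef
  have hc : Tame k (Es k Ω n c) := h.gen c
  -- the relation for a point
  have hrel : ∀ (φ : Pt k Ω F') (z' : S → Ω × ℚ),
      ChR (nform F' N S).support (rvt c φ) z' ↔
      (∀ s, (z' s).1 ≠ 0) ∧ ∃ ψ : N →+* HahnSeries ℚ Ω,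
        ψ.comp (algebraMap F' N) = (φ : F' →+* HahnSeries ℚ Ω) ∧ ∀ s : S, rv (ψ s) = z' s :=
    fun φ z' => ChR_iff S (φ : F' →+* HahnSeries ℚ Ω) z'
  have himg : Tame k {z' | ∃ z ∈ Es k Ω n c, ChR (nform F' N S).support z z'} := by
    refine hc.image (ChR (nform F' N S).support) (fun σ z z' hz => ChR_inv _ σ z z' hz)
      (fun w w' => ChR_sl _ w w') ?_
    intro w
    have hfin := nform_lc_finite (Ω := Ω) (F' := F') S hS
      (fun m => if hm : m ∈ (nform F' N S).support then w ⟨m, hm⟩ else 0)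
    refine ⟨hfin.toFinset, ?_⟩
    rintro z ⟨⟨φ, rfl⟩, -⟩ hw z' hz'
    obtain ⟨-, ψ, hψ, hψ'⟩ := (hrel φ z').1 hz'
    refine ⟨ac z', ?_, 1, ⟨Subgroup.mem_top _, fun i => rfl⟩, fun i => rfl⟩
    rw [Set.Finite.mem_toFinset]
    refine ⟨ψ, ?_, ?_⟩
    · intro m hm
      rw [dif_pos hm, ← hw]
      have h1 : ψ (algebraMap F' N ((nform F' N S).coeff m)) = φ ((nform F' N S).coeff m) :=
        congrArg (fun f => f ((nform F' N S).coeff m)) hψ
      rw [h1]
      rfl
    · intro s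
      show (z' s).1 = _
      rw [← hψ' s]
      rfl
  have hfinal := himg.cond (D := fun w : S → Ω => Algebra.trdeg k (kf k w) = n)
    (fun σ w hw => by rw [trdeg_kf_map]; exact hw)
  have heq : Es k Ω n (fun s : S => (s : N)) =
      {z' | ∃ z ∈ Es k Ω n c, ChR (nform F' N S).support z z'} ∩
        {z | Algebra.trdeg k (kf k (ac z)) = n} := by
    ext z'
    constructor
    · rintro ⟨⟨φ, rfl⟩, hd⟩
      refine ⟨⟨rvt c (resPt F' φ), ⟨⟨resPt F' φ, rfl⟩, ?_⟩, ?_⟩, hd⟩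
      · have hle : Algebra.trdeg k (kf k (ac (rvt c (resPt F' φ)))) ≤ n :=
          pt_trdeg_le (resPt F' φ) n hn.le (fun m => (resPt F' φ) (c m)) fun m =>
            isAlgebraic_algebraMap (R := (resPt F' φ).fieldRange) ⟨_, ⟨c m, rfl⟩⟩
        refine le_antisymm hle ?_
        have halg : ∀ s : S, IsAlgebraic (kf k (ac (rvt c (resPt F' φ))))
            (ac (rvt (fun s : S => (s : N)) φ) s) := by
          intro s
          have h1 := nform_lc_alg (F' := F') (k := k) S hS s (φ : N →+* HahnSeries ℚ Ω)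
          rw [f3c_set S (φ : N →+* HahnSeries ℚ Ω) (resPt F' φ) rfl] at h1
          exact h1
        rw [← hd, ← trdeg_kf_alg _ _ halg]
        refine f3c_mono ?_
        refine kf_le.2 fun s => ?_
        exact mem_kf (Sum.elim (ac (rvt c (resPt F' φ))) (ac (rvt (fun s : S => (s : N)) φ)))
          (Sum.inr s)
      · rw [hrel]
        refine ⟨?_, (φ : N →+* HahnSeries ℚ Ω), rfl, fun s => rfl⟩
        intro s
        show (φ (s : N)).leadingCoeff ≠ 0
        rw [Ne, HahnSeries.leadingCoeff_eq_zero, map_eq_zero]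
        exact hS s s.2
    · rintro ⟨⟨z, ⟨⟨φ, rfl⟩, -⟩, hz'⟩, hd⟩
      obtain ⟨-, ψ, hψ, hψ'⟩ := (hrel φ z').1 hz'
      refine ⟨⟨toPt φ ψ hψ, ?_⟩, hd⟩
      funext s
      exact hψ' s
  rw [heq]
  exact hfinal

end

end KTS
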