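import Pool.Agent.KTS.FH

/-!
[KTS-F4] The relation between the values of `N'` and those of `F'(x)`.
-/

set_option autoImplicit false

namespace KTS

noncomputable section

universe u v w

open Classical in
/-- The `rv` of `y - ρ_j` in terms of `(u, r) = rv (y - ρ_{j₀})` and `d a b = rv (ρ_a - ρ_b)`. -/
def mu {Ω : Type u} [Field Ω] {Θ : Type w} (d : Θ → Θ → Ω × ℚ) (j₀ : Θ) (u : Ω) (r : ℚ) (j : Θ) :
    Ω × ℚ :=
  if (d j₀ j).1 = 0 then (u, r)
  else if (d j₀ j).2 < r then d j₀ j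
  else if (d j₀ j).2 = r then (u + (d j₀ j).1, r)
  else (u, r)

variable {k Ω : Type u} [Field k] [Field Ω] [Algebra k Ω] {κ : Type v} [Fintype κ] {Θ : Type w}
  [Fintype Θ]

variable (k) in
/-- `z` = values of the coefficients `a_i` and of the differences of the roots; `z'` = values of
`a_i ∏ (y - ρ_j)^{e i j}`. -/
def TrR (e : κ → Θ → ℤ) (z : κ ⊕ Θ × Θ → Ω × ℚ) (z' : κ → Ω × ℚ) : Prop :=
  ∃ (j₀ : Θ) (u : Ω) (r : ℚ), Transcendental (kf k (ac z)) u ∧
    ∀ i, z' i =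
      ((z (Sum.inl i)).1 * ∏ j, (mu (fun a b => z (Sum.inr (a, b))) j₀ u r j).1 ^ (e i j),
        (z (Sum.inl i)).2 + ∑ j, (e i j : ℚ) * (mu (fun a b => z (Sum.inr (a, b))) j₀ u r j).2)

/-- The key formula. Proof: `y - b = (y - a) + (a - b)`. If `a = b` then `(rv (a-b)).1 = 0` and both sides are
`rv (y - a)`. Otherwise `a - b ≠ 0`, its leading coefficient is `≠ 0`; `rv_add_left`, `rv_add_right`, `rv_add_eq` (HB1) in the
three cases `order (a-b) < order (y-a)`, `=`, `>` (`orderTop = order` for non-zero elements). In the middle case the sum of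
the leading coefficients is `≠ 0` by `hmax`. -/
theorem rv_mu (ρ : Θ → HahnSeries ℚ Ω) (y : HahnSeries ℚ Ω) (j₀ j : Θ) (hy : y ≠ ρ j₀)
    (hmax : (ρ j₀ - ρ j).order = (y - ρ j₀).order → ρ j₀ ≠ ρ j →
      (y - ρ j₀).leadingCoeff + (ρ j₀ - ρ j).leadingCoeff ≠ 0) :
    rv (y - ρ j) = mu (fun a b => rv (ρ a - ρ b)) j₀ (y - ρ j₀).leadingCoeff (y - ρ j₀).order j := by
  have hA : y - ρ j₀ ≠ 0 := sub_ne_zero.2 hy
  have hsum : y - ρ j = (y - ρ j₀) + (ρ j₀ - ρ j) := by ring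
  unfold mu
  have e1 : (rv (ρ j₀ - ρ j)).1 = (ρ j₀ - ρ j).leadingCoeff := rfl
  have e2 : (rv (ρ j₀ - ρ j)).2 = (ρ j₀ - ρ j).order := rfl
  simp only [e1, e2]
  by_cases hD : ρ j₀ - ρ j = 0
  · rw [if_pos (by rw [hD, rv_zero]), hsum, hD, add_zero]
    rfl
  · have hlc : ¬ (rv (ρ j₀ - ρ j)).1 = 0 := HahnSeries.leadingCoeff_eq_zero.not.2 hD
    have hoA := HahnSeries.order_eq_orderTop_of_ne_zero hA
    have hoD := HahnSeries.order_eq_orderTop_of_ne_zero hD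
    rw [if_neg hlc, hsum]
    rcases lt_trichotomy (ρ j₀ - ρ j).order (y - ρ j₀).order with h1 | h1 | h1
    · rw [if_pos h1]
      refine rv_add_right ?_
      rw [← hoA, ← hoD]
      exact WithTop.coe_lt_coe.2 h1
    · rw [if_neg (by rw [h1]; exact lt_irrefl _), if_pos h1]
      refine rv_add_eq ?_ (hmax h1 (sub_ne_zero.1 hD))
      rw [← hoA, ← hoD, h1]
    · rw [if_neg (not_lt.2 h1.le), if_neg h1.ne']
      have : rv (y - ρ j₀ + (ρ j₀ - ρ j)) = rv (y - ρ j₀) := by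
        refine rv_add_left ?_
        rw [← hoA, ← hoD]
        exact WithTop.coe_lt_coe.2 h1
      rw [this]
      rfl

omit [Fintype κ] [Fintype Θ] in
theorem f4a_mu (σ : Ω ≃ₐ[k] Ω) (z : κ ⊕ Θ × Θ → Ω × ℚ) (j₀ : Θ) (u : Ω) (r : ℚ) (j : Θ) :
    mu (fun a b => (sz σ z) (Sum.inr (a, b))) j₀ (σ u) r j =
      (σ (mu (fun a b => z (Sum.inr (a, b))) j₀ u r j).1,
        (mu (fun a b => z (Sum.inr (a, b))) j₀ u r j).2) := by
  unfold mu
  have e1 : ((sz σ z) (Sum.inr (j₀, j))).1 = σ (z (Sum.inr (j₀, j))).1 := rfl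
  have e2 : ((sz σ z) (Sum.inr (j₀, j))).2 = (z (Sum.inr (j₀, j))).2 := rfl
  by_cases h1 : (z (Sum.inr (j₀, j))).1 = 0
  · have h1' : ((sz σ z) (Sum.inr (j₀, j))).1 = 0 := by rw [e1, h1, map_zero]
    simp only [if_pos h1, if_pos h1']
  · have h1' : ¬ ((sz σ z) (Sum.inr (j₀, j))).1 = 0 := by
      rw [e1, map_eq_zero_iff σ σ.injective]
      exact h1
    simp only [if_neg h1, if_neg h1', e2]
    by_cases h2 : (z (Sum.inr (j₀, j))).2 < r
    · simp only [if_pos h2]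
      rfl
    · simp only [if_neg h2]
      by_cases h3 : (z (Sum.inr (j₀, j))).2 = r
      · simp only [if_pos h3, e1, map_add]
      · simp only [if_neg h3]

theorem f4a_alg {k Ω : Type u} [Field k] [Field Ω] [Algebra k Ω] (σ : Ω ≃ₐ[k] Ω)
    (E : IntermediateField k Ω) (u : Ω) (h : IsAlgebraic (E.map (σ : Ω →ₐ[k] Ω)) (σ u)) :
    IsAlgebraic E u := by
  have h1 : Algebra.trdeg k (cl E) = Algebra.trdeg k (cl E) := rfl
  obtain ⟨p, hp, hpu⟩ := h
  let ε : E ≃ₐ[k] E.map (σ : Ω →ₐ[k] Ω) := IntermediateField.equivMap E (σ : Ω →ₐ[k] Ω)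
  refine ⟨p.map (ε.symm : E.map (σ : Ω →ₐ[k] Ω) →+* E), ?_, ?_⟩
  · rw [Ne, Polynomial.map_eq_zero]
    exact hp
  · apply σ.injective
    rw [map_zero, ← hpu, Polynomial.aeval_def, Polynomial.eval₂_map, Polynomial.aeval_def]
    have h2 : ∀ q : Polynomial (E.map (σ : Ω →ₐ[k] Ω)),
        σ (q.eval₂ ((algebraMap E Ω).comp (ε.symm : E.map (σ : Ω →ₐ[k] Ω) →+* E)) u) =
          q.eval₂ (algebraMap (E.map (σ : Ω →ₐ[k] Ω)) Ω) (σ u) := by
      intro q
      have h3 := Polynomial.hom_eval₂ q ((algebraMap E Ω).comp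
        (ε.symm : E.map (σ : Ω →ₐ[k] Ω) →+* E)) (σ : Ω →+* Ω) u
      have h4 : (σ : Ω →+* Ω).comp ((algebraMap E Ω).comp
          (ε.symm : E.map (σ : Ω →ₐ[k] Ω) →+* E)) =
          algebraMap (E.map (σ : Ω →ₐ[k] Ω)) Ω := by
        ext x : 1
        obtain ⟨y, rfl⟩ := ε.surjective x
        show σ ((ε.symm (ε y) : E) : Ω) = ((ε y : E.map (σ : Ω →ₐ[k] Ω)) : Ω)
        rw [ε.symm_apply_apply]
        rfl
      rw [h4] at h3
      exact h3
    exact h2 p

/-- Proof. If `(j₀, u, r)` is a witness for `(z, z')` then `(j₀, σ u, r)` is one for `(sz σ z, sz σ z')`: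
`kf k (ac (sz σ z)) = (kf k (ac z)).map σ` (`kf_map`) and `σ` maps transcendental elements over `E` to transcendental
elements over `E.map σ`; `mu` for `sz σ z`, `σ u` is `(σ (mu ..).1, (mu ..).2)` (case by case; `σ x = 0 ↔ x = 0`);
`map_mul, map_prod, map_zpow₀`. -/
theorem TrR_inv (e : κ → Θ → ℤ) (σ : Ω ≃ₐ[k] Ω) (z : κ ⊕ Θ × Θ → Ω × ℚ) (z' : κ → Ω × ℚ)
    (h : TrR k e z z') : TrR k e (sz σ z) (sz σ z') := by
  obtain ⟨j₀, u, r, hu, hz⟩ := h
  refine ⟨j₀, σ u, r, ?_, ?_⟩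
  · have h1 : kf k (ac (sz σ z)) = (kf k (ac z)).map (σ : Ω →ₐ[k] Ω) := by
      unfold kf
      rw [IntermediateField.adjoin_map]
      congr 1
      ext x
      simp only [Set.mem_range, Set.mem_image, exists_exists_eq_and]
      rfl
    intro hal
    apply hu
    have h2 : σ u ∈ cl ((kf k (ac z)).map (σ : Ω →ₐ[k] Ω)) := by
      rw [← h1]
      exact mem_cl.2 hal
    have h3 := f4a_alg σ (kf k (ac z)) u (mem_cl.1 h2)
    exact h3
  · intro i
    show (σ (z' i).1, (z' i).2) = _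
    rw [hz i]
    refine Prod.ext ?_ ?_
    · simp only [map_mul, map_prod, map_zpow₀, f4a_mu σ z j₀ u r]
      rfl
    · simp only [f4a_mu σ z j₀ u r]
      rfl

open Classical in
/-- the `Ω`-part of `mu` for the pattern `c` -/
def f4b_mu {Ω : Type u} [Field Ω] {κ : Type v} {Θ : Type w} (w : κ ⊕ Θ × Θ → Ω) (j₀ : Θ)
    (c : Θ → Fin 3) (u : Ω) (j : Θ) : Ω :=
  if w (Sum.inr (j₀, j)) = 0 then u
  else if c j = 0 then w (Sum.inr (j₀, j))
  else if c j = 1 then u + w (Sum.inr (j₀, j))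
  else u

open Classical in
/-- the `ℚ`-part of `mu` for the pattern `c` -/
def f4b_q {Ω : Type u} [Field Ω] {κ : Type v} {Θ : Type w} (w : κ ⊕ Θ × Θ → Ω) (j₀ : Θ)
    (c : Θ → Fin 3) (g r : ℚ) (j : Θ) : ℚ :=
  if w (Sum.inr (j₀, j)) = 0 then r else if c j = 0 then g else r

/-- the pattern condition -/
def f4b_pat {Θ : Type w} (c : Θ → Fin 3) (g r : ℚ) (j : Θ) : Prop :=
  if c j = 0 then g < r else if c j = 1 then g = r else r < g

/-- the pattern of `g` and `r` -/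
def f4b_of (g r : ℚ) : Fin 3 := if g < r then 0 else if g = r then 1 else 2

theorem f4b_pat_self {Θ : Type w} (g : Θ → ℚ) (r : ℚ) (j : Θ) :
    f4b_pat (fun j => f4b_of (g j) r) (g j) r j := by
  unfold f4b_pat f4b_of
  by_cases h1 : g j < r
  · simp [h1]
  · by_cases h2 : g j = r
    · simp [h2]
    · have h3 : r < g j := lt_of_le_of_ne (not_lt.1 h1) (Ne.symm h2)
      simp [h1, h2, h3]

theorem f4b_pat_uniq {Θ : Type w} (c : Θ → Fin 3) (g r : ℚ) (j : Θ) (h : f4b_pat c g r j) :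
    c j = f4b_of g r := by
  unfold f4b_pat at h
  unfold f4b_of
  by_cases h0 : c j = 0
  · rw [if_pos h0] at h
    rw [if_pos h, h0]
  · rw [if_neg h0] at h
    by_cases h1 : c j = 1
    · rw [if_pos h1] at h
      rw [if_neg (by rw [h]; exact lt_irrefl _), if_pos h, h1]
    · rw [if_neg h1] at h
      rw [if_neg (not_lt.2 h.le), if_neg h.ne']
      have := (c j).isLt
      apply Fin.ext
      have h0' : (c j).val ≠ 0 := fun hh => h0 (Fin.ext hh)
      have h1' : (c j).val ≠ 1 := fun hh => h1 (Fin.ext hh)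
      show (c j).val = 2
      omega

theorem f4b_fst {Ω : Type u} [Field Ω] {κ : Type v} {Θ : Type w} (w : κ ⊕ Θ × Θ → Ω)
    (x : κ ⊕ Θ × Θ → ℚ) (j₀ : Θ) (c : Θ → Fin 3) (u : Ω) (r : ℚ) (j : Θ)
    (hc : c j = f4b_of (x (Sum.inr (j₀, j))) r) :
    (mu (fun a b => (zip w x) (Sum.inr (a, b))) j₀ u r j).1 = f4b_mu w j₀ c u j ∧
    (mu (fun a b => (zip w x) (Sum.inr (a, b))) j₀ u r j).2 =
      f4b_q w j₀ c (x (Sum.inr (j₀, j))) r j := by
  classical
  unfold f4b_of at hc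
  unfold mu f4b_mu f4b_q
  have e1 : (zip w x (Sum.inr (j₀, j))).1 = w (Sum.inr (j₀, j)) := rfl
  have e2 : (zip w x (Sum.inr (j₀, j))).2 = x (Sum.inr (j₀, j)) := rfl
  by_cases h1 : w (Sum.inr (j₀, j)) = 0
  · have h1' : (zip w x (Sum.inr (j₀, j))).1 = 0 := h1
    simp only [if_pos h1, if_pos h1', and_self]
  · have h1' : ¬ (zip w x (Sum.inr (j₀, j))).1 = 0 := h1
    simp only [if_neg h1, if_neg h1']
    by_cases h2 : x (Sum.inr (j₀, j)) < r
    · have h2' : (zip w x (Sum.inr (j₀, j))).2 < r := h2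
      rw [if_pos h2] at hc
      rw [if_pos h2', if_pos hc, if_pos hc]
      exact ⟨rfl, rfl⟩
    · have h2' : ¬ (zip w x (Sum.inr (j₀, j))).2 < r := h2
      rw [if_neg h2] at hc
      by_cases h3 : x (Sum.inr (j₀, j)) = r
      · have h3' : (zip w x (Sum.inr (j₀, j))).2 = r := h3
        rw [if_pos h3] at hc
        have h4 : ¬ c j = 0 := by rw [hc]; decide
        simp only [if_neg h2', if_pos h3', if_neg h4, if_pos hc, e1, and_self]
      · have h3' : ¬ (zip w x (Sum.inr (j₀, j))).2 = r := h3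
        rw [if_neg h3] at hc
        have h4 : ¬ c j = 0 := by rw [hc]; decide
        have h5 : ¬ c j = 1 := by rw [hc]; decide
        simp only [if_neg h2', if_neg h3', if_neg h4, if_neg h5, and_self]

/-- Proof. Fix `w, w'`. Put, for a pattern `c : Θ → Fin 3` (`0`: `d < r`, `1`: `d = r`, `2`: `d > r`) and `j₀`,
`muΩ c u j = if w(j₀,j) = 0 then u else if c j = 0 then w(j₀,j) else if c j = 1 then u + w(j₀,j) else u` (`Ω`-part) and
`muQ c x r j = if w(j₀,j) = 0 then r else if c j = 0 then x(j₀,j) else r` (`ℚ`-part). Then the relation holds at `x` iff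
`∃ j₀ c, (∃ u, Transcendental (kf k w) u ∧ ∀ i, w' i = w (inl i) * ∏ j, (muΩ c u j) ^ e i j) ∧
 ∃ r, (∀ j, pattern c j at (x (inl (inr (j₀, j))), r)) ∧ ∀ i, x (inr i) = x (inl (inl i)) + ∑ j, e i j * muQ c x r j`.
`SL.ex` (finite index `Θ × (Θ → Fin 3)`), `SL.and`, `SL.const`, `SL.exv` with `κ = Unit` for `r`, `SL.all`, `SL.lt`, `SL.eq`, `Aff`. -/
theorem TrR_sl (e : κ → Θ → ℤ) (w : κ ⊕ Θ × Θ → Ω) (w' : κ → Ω) :
    SL {x : (κ ⊕ Θ × Θ) ⊕ κ → ℚ |
      TrR k e (zip w fun i => x (Sum.inl i)) (zip w' fun i => x (Sum.inr i))} := by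
  classical
  have hiff : {x : (κ ⊕ Θ × Θ) ⊕ κ → ℚ |
      TrR k e (zip w fun i => x (Sum.inl i)) (zip w' fun i => x (Sum.inr i))} =
      {x | ∃ p : Θ × (Θ → Fin 3),
        (∃ u : Ω, Transcendental (kf k w) u ∧
          ∀ i, w' i = w (Sum.inl i) * ∏ j, (f4b_mu w p.1 p.2 u j) ^ e i j) ∧
        ∃ r : Unit → ℚ, (∀ j, f4b_pat p.2 (x (Sum.inl (Sum.inr (p.1, j)))) (r ()) j) ∧
          ∀ i, x (Sum.inr i) = x (Sum.inl (Sum.inl i)) +
            ∑ j, (e i j : ℚ) * f4b_q w p.1 p.2 (x (Sum.inl (Sum.inr (p.1, j)))) (r ()) j} := by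
    ext x
    simp only [Set.mem_ofPred_eq]
    constructor
    · rintro ⟨j₀, u, r, hu, hz⟩
      refine ⟨(j₀, fun j => f4b_of (x (Sum.inl (Sum.inr (j₀, j)))) r), ⟨u, hu, fun i => ?_⟩,
        fun _ => r, fun j => ?_, fun i => ?_⟩
      · have h1 := congrArg Prod.fst (hz i)
        refine h1.trans ?_
        show w (Sum.inl i) * _ = _
        congr 1
        refine Finset.prod_congr rfl fun j _ => ?_
        congr 1
        exact (f4b_fst w (fun i => x (Sum.inl i)) j₀ _ u r j rfl).1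
      · exact f4b_pat_self (fun j => x (Sum.inl (Sum.inr (j₀, j)))) r j
      · have h1 := congrArg Prod.snd (hz i)
        refine h1.trans ?_
        show x (Sum.inl (Sum.inl i)) + _ = _
        congr 1
        refine Finset.sum_congr rfl fun j _ => ?_
        congr 1
        exact (f4b_fst w (fun i => x (Sum.inl i)) j₀ _ u r j rfl).2
    · rintro ⟨⟨j₀, c⟩, ⟨u, hu, h1⟩, r, h2, h3⟩
      refine ⟨j₀, u, r (), hu, fun i => Prod.ext ?_ ?_⟩
      · refine (h1 i).trans ?_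
        show w (Sum.inl i) * _ = w (Sum.inl i) * _
        congr 1
        refine Finset.prod_congr rfl fun j _ => ?_
        congr 1
        exact (f4b_fst w (fun i => x (Sum.inl i)) j₀ c u (r ()) j
          (f4b_pat_uniq c _ _ _ (h2 j))).1.symm
      · refine (h3 i).trans ?_
        show x (Sum.inl (Sum.inl i)) + _ = x (Sum.inl (Sum.inl i)) + _
        congr 1
        refine Finset.sum_congr rfl fun j _ => ?_
        congr 1
        exact (f4b_fst w (fun i => x (Sum.inl i)) j₀ c u (r ()) j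
          (f4b_pat_uniq c _ _ _ (h2 j))).2.symm
  rw [hiff]
  refine SL.ex fun p => SL.and (SL.const _) ?_
  have h5 : SL {x : ((κ ⊕ Θ × Θ) ⊕ κ) ⊕ Unit → ℚ |
      (∀ j, f4b_pat p.2 (x (Sum.inl (Sum.inl (Sum.inr (p.1, j))))) (x (Sum.inr ())) j) ∧
      ∀ i, x (Sum.inl (Sum.inr i)) = x (Sum.inl (Sum.inl (Sum.inl i))) +
        ∑ j, (e i j : ℚ) * f4b_q w p.1 p.2 (x (Sum.inl (Sum.inl (Sum.inr (p.1, j)))))
          (x (Sum.inr ())) j} := by
    refine SL.and (SL.all fun j => ?_) (SL.all fun i => ?_)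
    · unfold f4b_pat
      split_ifs
      · exact SL.lt (Aff.coord _) (Aff.coord _)
      · exact SL.eq (Aff.coord _) (Aff.coord _)
      · exact SL.lt (Aff.coord _) (Aff.coord _)
    · refine SL.eq (Aff.coord _) (Aff.add (Aff.coord _) (Aff.sum _ _ fun j _ =>
        Aff.mul_left _ ?_))
      unfold f4b_q
      split_ifs
      · exact Aff.coord _
      · exact Aff.coord _
      · exact Aff.coord _
  exact SL.exv h5

open Classical in
/-- the `Ω`-part of `mu` for the pattern `c` -/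
def f4c_mu {Ω : Type u} [Field Ω] {κ : Type v} {Θ : Type w} (w : κ ⊕ Θ × Θ → Ω) (j₀ : Θ)
    (c : Θ → Fin 3) (u : Ω) (j : Θ) : Ω :=
  if w (Sum.inr (j₀, j)) = 0 then u
  else if c j = 0 then w (Sum.inr (j₀, j))
  else if c j = 1 then u + w (Sum.inr (j₀, j))
  else u

/-- Proof. If no `u` is transcendental over `kf k w`: take `∅`. Otherwise fix `u₀`, and let `s` be the (finite) set of the
vectors `i ↦ w (inl i) * ∏ j, (muΩ c u₀ j) ^ e i j` for `j₀ : Θ`, `c : Θ → Fin 3` (`muΩ` as in `TrR_sl`). Given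
`z, z'` with `ac z = w`, `TrR`, witness `(j₀, u, r)`, pattern `c j = 0, 1, 2` according to `(z(j₀,j)).2 < r, = r, > r`:
`ac z' i = w (inl i) * ∏ j (muΩ c u j)^…`. By `trans_fix (kf k w)` there is `σ` fixing `kf k w` pointwise with
`σ u₀ = u`; then `σ` maps the vector for `u₀` to `ac z'`, `σ ∈ fixT ⊤ w` (`mem_kf`). -/
theorem TrR_fin [IsAlgClosed Ω] (e : κ → Θ → ℤ) (w : κ ⊕ Θ × Θ → Ω) :
    ∃ s : Finset (κ → Ω), ∀ z : κ ⊕ Θ × Θ → Ω × ℚ, ac z = w → ∀ z', TrR k e z z' →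
      ∃ w' ∈ s, Rel (fixT (⊤ : Subgroup (Ω ≃ₐ[k] Ω)) w) w' (ac z') := by
  classical
  by_cases hu : ∃ u : Ω, Transcendental (kf k w) u
  · obtain ⟨u₀, hu₀⟩ := hu
    refine ⟨(Set.finite_range fun p : Θ × (Θ → Fin 3) => fun i : κ =>
      w (Sum.inl i) * ∏ j, (f4c_mu w p.1 p.2 u₀ j) ^ (e i j)).toFinset, ?_⟩
    rintro z rfl z' ⟨j₀, u, r, hu, hz'⟩
    obtain ⟨σ, hσ, hσu⟩ := trans_fix (kf k (ac z)) hu₀ hu
    rw [← fixT_top] at hσ
    obtain ⟨c, hc⟩ : ∃ c : Θ → Fin 3, ∀ j, ((z (Sum.inr (j₀, j))).2 < r → c j = 0) ∧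
        (¬ (z (Sum.inr (j₀, j))).2 < r → (z (Sum.inr (j₀, j))).2 = r → c j = 1) ∧
        (¬ (z (Sum.inr (j₀, j))).2 < r → ¬ (z (Sum.inr (j₀, j))).2 = r → c j = 2) :=
      ⟨fun j => if (z (Sum.inr (j₀, j))).2 < r then 0 else if (z (Sum.inr (j₀, j))).2 = r then 1
        else 2, fun j => ⟨fun h => if_pos h, fun h h' => by simp only [if_neg h, if_pos h'],
        fun h h' => by simp only [if_neg h, if_neg h']⟩⟩
    refine ⟨_, (Set.Finite.mem_toFinset _).2 ⟨(j₀, c), rfl⟩, σ, hσ, fun i => ?_⟩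
    have h1 : ac z' i = (z (Sum.inl i)).1 *
        ∏ j, (mu (fun a b => z (Sum.inr (a, b))) j₀ u r j).1 ^ (e i j) :=
      congrArg Prod.fst (hz' i)
    have h2 : σ (ac z (Sum.inl i)) = (z (Sum.inl i)).1 := hσ.2 (Sum.inl i)
    rw [h1, map_mul, h2, map_prod]
    congr 1
    refine Finset.prod_congr rfl fun j _ => ?_
    rw [map_zpow₀]
    congr 1
    have h3 : σ ((z (Sum.inr (j₀, j))).1) = (z (Sum.inr (j₀, j))).1 := hσ.2 (Sum.inr (j₀, j))
    unfold f4c_mu mu ac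
    dsimp only
    by_cases c0 : (z (Sum.inr (j₀, j))).1 = 0
    · rw [if_pos c0, if_pos c0]
      exact hσu
    rw [if_neg c0, if_neg c0]
    by_cases c1 : (z (Sum.inr (j₀, j))).2 < r
    · rw [if_pos ((hc j).1 c1), if_pos c1]
      exact h3
    rw [if_neg c1]
    by_cases c2 : (z (Sum.inr (j₀, j))).2 = r
    · have c3 := (hc j).2.1 c1 c2
      rw [if_neg (by rw [c3]; decide), if_pos c3, if_pos c2, map_add, h3, hσu]
    · have c3 := (hc j).2.2 c1 c2
      rw [if_neg (by rw [c3]; decide), if_neg (by rw [c3]; decide), if_neg c2]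
      exact hσu
  · refine ⟨∅, ?_⟩
    rintro z rfl z' ⟨j₀, u, r, h, -⟩
    exact absurd ⟨u, h⟩ hu

end

end KTS
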