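import Pool.Agent.KTS.F4

/-!
[KTS-F5] Finiteness: the transcendental step.
-/

set_option autoImplicit false

namespace KTS

noncomputable section

universe u v w

open Polynomial

open Classical in
/-- the value of a split polynomial, over a finite set containing its roots -/
private theorem f5a_ev {F' N U : Type u} [Field F'] [Field N] [Algebra F' N] [Field U]
    (φ' : N →+* U) (f : F'[X]) (hs : (f.map (algebraMap F' N)).Splits) (R : Finset N)
    (hR : (f.map (algebraMap F' N)).roots.toFinset ⊆ R) (y : U) :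
    f.eval₂ (φ'.comp (algebraMap F' N)) y = φ' (algebraMap F' N f.leadingCoeff) *
      ∏ j : {r // r ∈ R}, (y - φ' j.1) ^ ((f.map (algebraMap F' N)).roots.count j.1) := by
  have h1 := hs.eq_prod_roots
  rw [Polynomial.leadingCoeff_map] at h1
  generalize (f.map (algebraMap F' N)).roots = m at h1 hR ⊢
  rw [← Polynomial.eval₂_map, h1, Polynomial.eval₂_mul, Polynomial.eval₂_C]
  congr 1
  rw [← Polynomial.coe_eval₂RingHom, map_multiset_prod, Multiset.map_map]
  have h2 : (Multiset.map ((eval₂RingHom φ' y) ∘ fun a => X - C a) m) =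
      Multiset.map (fun a => y - φ' a) m := by
    refine Multiset.map_congr rfl fun a _ => ?_
    simp only [Function.comp_apply, coe_eval₂RingHom, eval₂_sub, eval₂_X, eval₂_C]
  rw [h2, Finset.prod_multiset_map_count,
    Finset.prod_coe_sort R (fun r => (y - φ' r) ^ (m.count r))]
  refine Finset.prod_subset hR fun r _ hr => ?_
  rw [Multiset.mem_toFinset] at hr
  rw [Multiset.count_eq_zero_of_notMem hr, pow_zero]

private theorem f5a_zero {K L : Type u} [Field K] [Field L] (ι : K →+* L) (P : K[X])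
    (h : X ∣ P) : (P.map ι).eval 0 = 0 := by
  obtain ⟨w, rfl⟩ := h
  rw [Polynomial.map_mul, map_X, eval_mul, eval_X, zero_mul]

/-- Factorisation of finitely many elements of `F'(x)`.

Proof. Every `s ∈ S` is `aeval x p_s / aeval x q_s` with `p_s, q_s : F'[X]` non-zero
(`IntermediateField.mem_adjoin_simple_iff`, `htop`). `P = X * ∏_{s} p_s * q_s ≠ 0`, `N = P.SplittingField`, `Θ` = subtype of
`P.rootSet N` (or of `(P.map _).roots.toFinset`), `ρ` = inclusion; `Θ` is non-empty (`0` is a root). In `N[X]`: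
`p_s.map = C lead * ∏_{j : Θ} (X - C ρ_j) ^ (rootMultiplicity ρ_j)` (`p_s ∣ P` splits, `Polynomial.Splits`…
`eq_prod_roots_of_splits`, `Finset.prod_multiset_count`-style). `a s = lead p_s / lead q_s ∈ F'`, `e s j = mult in p_s - mult in q_s`.
For `φ, φ'` as in the statement: `φ (aeval x p_s) = p_s.eval₂ (φ.comp (algebraMap F' F)) (φ x) =
(p_s.map (algebraMap F' N)).eval₂ φ' (φ x)`, a product. `φ x - φ' (ρ j) ≠ 0` because `φ x` is not algebraic over the image of
`F'` (`hx`, `φ` injective) while `φ' (ρ j)` is: so `zpow_sub₀`, `zpow_natCast`, `Finset.prod_div_distrib`. -/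
theorem exists_fact {F' F : Type u} [Field F'] [Field F] [Algebra F' F] (x : F)
    (hx : Transcendental F' x) (htop : IntermediateField.adjoin F' {x} = ⊤) (S : Finset F)
    (h0 : (0 : F) ∉ S) :
    ∃ (N : Type u) (_ : Field N) (_ : Algebra F' N) (_ : FiniteDimensional F' N) (Θ : Type u)
      (_ : Fintype Θ) (_ : Nonempty Θ) (ρ : Θ → N) (a : S → F') (e : S → Θ → ℤ),
      (∀ i, a i ≠ 0) ∧ ∀ (U : Type u) [Field U] (φ : F →+* U) (φ' : N →+* U),
        φ.comp (algebraMap F' F) = φ'.comp (algebraMap F' N) →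
        ∀ i : S, φ i = φ' (algebraMap F' N (a i)) * ∏ j, (φ x - φ' (ρ j)) ^ (e i j) := by
  classical
  have hfr : ∀ s : S, ∃ p q : F'[X], (s : F) = aeval x p / aeval x q := by
    intro s
    have h1 : (s : F) ∈ IntermediateField.adjoin F' {x} := by
      rw [htop]
      trivial
    exact (IntermediateField.mem_adjoin_simple_iff F' (s : F)).1 h1
  choose p q hpq using hfr
  have hs0 : ∀ s : S, (s : F) ≠ 0 := fun s h => h0 (by
    rw [← h]
    exact s.2)
  have haq : ∀ s, aeval x (q s) ≠ 0 := by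
    intro s h
    apply hs0 s
    rw [hpq s, h, div_zero]
  have hap : ∀ s, aeval x (p s) ≠ 0 := by
    intro s h
    apply hs0 s
    rw [hpq s, h, zero_div]
  have hq0 : ∀ s, q s ≠ 0 := fun s h => haq s (by rw [h, map_zero])
  have hp0 : ∀ s, p s ≠ 0 := fun s h => hap s (by rw [h, map_zero])
  set P : F'[X] := X * ∏ s : S, (p s * q s) with hP
  have hP0 : P ≠ 0 := mul_ne_zero X_ne_zero
    (Finset.prod_ne_zero_iff.2 fun s _ => mul_ne_zero (hp0 s) (hq0 s))
  have hdvd : ∀ s : S, p s * q s ∣ P := fun s =>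
    (Finset.dvd_prod_of_mem (fun s : S => p s * q s) (Finset.mem_univ s)).trans
      (dvd_mul_left _ _)
  have hdp : ∀ s : S, p s ∣ P := fun s => (dvd_mul_right _ _).trans (hdvd s)
  have hdq : ∀ s : S, q s ∣ P := fun s => (dvd_mul_left _ _).trans (hdvd s)
  set ι : F' →+* P.SplittingField := algebraMap F' P.SplittingField with hι
  have hPs : (P.map ι).Splits := SplittingField.splits P
  have hPm : P.map ι ≠ 0 := (Polynomial.map_ne_zero_iff ι.injective).2 hP0
  set R : Finset P.SplittingField := (P.map ι).roots.toFinset with hR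
  have h0R : (0 : P.SplittingField) ∈ R := by
    rw [hR, Multiset.mem_toFinset, mem_roots hPm, IsRoot.def]
    exact f5a_zero ι P (dvd_mul_right _ _)
  have hsplit : ∀ f : F'[X], f ∣ P → (f.map ι).Splits := fun f hf =>
    hPs.of_dvd hPm (Polynomial.map_dvd ι hf)
  have hsub : ∀ f : F'[X], f ∣ P → (f.map ι).roots.toFinset ⊆ R := fun f hf =>
    Multiset.toFinset_subset.2 (Multiset.subset_of_le
      (Polynomial.roots.le_of_dvd hPm (Polynomial.map_dvd ι hf)))
  refine ⟨P.SplittingField, inferInstance, inferInstance, inferInstance, {r // r ∈ R},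
    inferInstance, ⟨⟨0, h0R⟩⟩, Subtype.val,
    fun s => (p s).leadingCoeff / (q s).leadingCoeff,
    fun s j => (((p s).map ι).roots.count j.1 : ℤ) - (((q s).map ι).roots.count j.1 : ℤ),
    fun s => div_ne_zero (leadingCoeff_ne_zero.2 (hp0 s)) (leadingCoeff_ne_zero.2 (hq0 s)), ?_⟩
  intro U _ φ φ' hφ s
  have hne : ∀ j : {r // r ∈ R}, φ x - φ' j.1 ≠ 0 := by
    intro j hj
    have h1 := Multiset.mem_toFinset.1 j.2
    rw [mem_roots hPm, IsRoot.def, eval_map] at h1
    have h2 : P.eval₂ (φ'.comp ι) (φ' j.1) = 0 := by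
      rw [← Polynomial.hom_eval₂, h1, map_zero]
    rw [← hφ, ← sub_eq_zero.1 hj, ← Polynomial.hom_eval₂] at h2
    have h3 : aeval x P = 0 := φ.injective (by rw [map_zero]; exact h2)
    exact hx ⟨P, hP0, h3⟩
  have hval : ∀ f : F'[X], f ∣ P → φ (aeval x f) = φ' (ι f.leadingCoeff) *
      ∏ j : {r // r ∈ R}, (φ x - φ' j.1) ^ ((f.map ι).roots.count j.1) := by
    intro f hf
    rw [← f5a_ev φ' f (hsplit f hf) R (hsub f hf) (φ x), ← hι, ← hφ, ← Polynomial.hom_eval₂]
    rfl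
  have hLq : φ' (ι (q s).leadingCoeff) ≠ 0 := by
    rw [_root_.map_ne_zero, _root_.map_ne_zero]
    exact leadingCoeff_ne_zero.2 (hq0 s)
  rw [hpq s, map_div₀, hval _ (hdp s), hval _ (hdq s), map_div₀, map_div₀, mul_div_mul_comm,
    ← Finset.prod_div_distrib]
  congr 1
  refine Finset.prod_congr rfl fun j _ => ?_
  rw [zpow_sub₀ (hne j), zpow_natCast, zpow_natCast]

variable {k Ω N : Type u} [Field k] [Field Ω] [Algebra k Ω] [Field N] [Algebra (HahnSeries ℚ k) N]
  {κ : Type v} [Fintype κ] {Θ : Type w} [Fintype Θ]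

/-- The tuple of the coefficients and of the differences of the roots. -/
def trs (a : κ → N) (ρ : Θ → N) : κ ⊕ Θ × Θ → N := Sum.elim a fun p => ρ p.1 - ρ p.2

theorem f5b_zpow {Ω : Type u} [Field Ω] {x : HahnSeries ℚ Ω} (hx : x ≠ 0) (m : ℤ) :
    rv (x ^ m) = ((rv x).1 ^ m, (m : ℚ) * (rv x).2) := by
  have hnat : ∀ l : ℕ, rv (x ^ l) = ((rv x).1 ^ l, (l : ℚ) * (rv x).2) := by
    intro l
    induction l with
    | zero =>
      simp only [pow_zero, Nat.cast_zero, zero_mul]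
      unfold rv
      rw [HahnSeries.leadingCoeff_one, HahnSeries.order_one]
    | succ l ih =>
      rw [pow_succ, rv_mul (pow_ne_zero _ hx) hx, ih]
      refine Prod.ext ?_ ?_
      · exact (pow_succ _ _).symm
      · simp only
        push_cast
        ring
  rcases m with l | l
  · rw [Int.ofNat_eq_natCast, zpow_natCast, zpow_natCast, hnat l]
    push_cast
    rfl
  · rw [zpow_negSucc, rv_inv, hnat (l + 1)]
    refine Prod.ext ?_ ?_
    · exact (zpow_negSucc _ _).symm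
    · simp only
      push_cast
      ring

theorem f5b_prod {Ω : Type u} [Field Ω] {Θ : Type w} (t : Finset Θ) (f : Θ → HahnSeries ℚ Ω)
    (hf : ∀ j, f j ≠ 0) (e : Θ → ℤ) :
    rv (∏ j ∈ t, f j ^ e j) =
      (∏ j ∈ t, (rv (f j)).1 ^ e j, ∑ j ∈ t, (e j : ℚ) * (rv (f j)).2) := by
  classical
  induction t using Finset.induction_on with
  | empty =>
    simp only [Finset.prod_empty, Finset.sum_empty]
    unfold rv
    rw [HahnSeries.leadingCoeff_one, HahnSeries.order_one]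
  | insert j t hj ih =>
    rw [Finset.prod_insert hj, Finset.prod_insert hj, Finset.sum_insert hj,
      rv_mul (zpow_ne_zero _ (hf j)) (Finset.prod_ne_zero_iff.2 fun i _ => zpow_ne_zero _ (hf i)),
      ih, f5b_zpow (hf j)]

/-- Forward direction.

Proof. Choose `j₀` with `(y - φ'(ρ j₀)).orderTop` maximal (`Finite.exists_max`); `u, r` = leading coefficient and order of
`y - φ'(ρ j₀) ≠ 0`. `rv_mu` (applied to `φ' ∘ ρ`) gives `rv (y - φ'(ρ j)) = mu d j₀ u r j` with `d a b = rv (φ'(ρ a) - φ'(ρ b))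
= rvt (trs a ρ) φ' (inr (a,b))`: its hypothesis `hmax` holds, since `lc + lc' = 0` with equal orders would give
`(y - φ'(ρ j)).orderTop > (y - φ'(ρ j₀)).orderTop` (`y - ρ_j = (y - ρ_{j₀}) + (ρ_{j₀} - ρ_j)`). Taking `rv` of the product
(`rv_mul`, all factors non-zero; powers `zpow`): `rv (s i) = ((φ'(a i)).lc * ∏ (mu j).1 ^ e, (φ' (a i)).order + ∑ e * (mu j).2)`.
Dimensions: `E = kf k (ac z)`, `z = rvt (trs a ρ) φ'`: `trdeg k E ≤ n` by `pt_trdeg_le`. Every `(s i).lc` is in `E(u)`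
(`(mu j).1` is `u`, or `d.1`, or `u + d.1`). So `n + 1 ≤ trdeg k E(u)`; hence `u` is transcendental over `E` (otherwise
`trdeg k E(u) = trdeg k E ≤ n`), and `trdeg k E(u) ≤ trdeg k E + 1` gives `trdeg k E ≥ n`. -/
theorem tr_fwd [IsAlgClosed k] [CharZero k] (φ' : Pt k Ω N) (n : ℕ)
    (hn : Algebra.trdeg (HahnSeries ℚ k) N ≤ n) [Nonempty Θ] (a : κ → N) (ha : ∀ i, a i ≠ 0)
    (ρ : Θ → N) (e : κ → Θ → ℤ) (y : HahnSeries ℚ Ω) (hy : ∀ j, y ≠ φ' (ρ j))
    (s : κ → HahnSeries ℚ Ω) (hs : ∀ i, s i = φ' (a i) * ∏ j, (y - φ' (ρ j)) ^ (e i j))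
    (hd : Algebra.trdeg k (kf k fun i => (s i).leadingCoeff) = n + 1) :
    Algebra.trdeg k (kf k (ac (rvt (trs a ρ) φ'))) = n ∧
      TrR k e (rvt (trs a ρ) φ') (fun i => rv (s i)) := by
  classical
  obtain ⟨j₀, hj₀⟩ := Finite.exists_max fun j => (y - φ' (ρ j)).orderTop
  obtain ⟨z, hz⟩ : ∃ z, z = rvt (trs a ρ) φ' := ⟨_, rfl⟩
  have hne : ∀ j, y - φ' (ρ j) ≠ 0 := fun j => sub_ne_zero.2 (hy j)
  have hd' : (fun p q => z (Sum.inr (p, q))) = fun p q : Θ => rv (φ' (ρ p) - φ' (ρ q)) := by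
    funext p q
    rw [hz]
    show rv (φ' (ρ p - ρ q)) = _
    rw [map_sub]
  have hmu : ∀ j, rv (y - φ' (ρ j)) = mu (fun p q => z (Sum.inr (p, q))) j₀
      (y - φ' (ρ j₀)).leadingCoeff (y - φ' (ρ j₀)).order j := by
    intro j
    rw [hd']
    refine rv_mu (fun j => φ' (ρ j)) y j₀ j (hy j₀) ?_
    intro h1 h2 h3
    have hD : φ' (ρ j₀) - φ' (ρ j) ≠ 0 := sub_ne_zero.2 h2
    have h4 : rv (y - φ' (ρ j₀)) = rv (-(φ' (ρ j₀) - φ' (ρ j))) := by
      rw [rv_neg]
      refine Prod.ext ?_ ?_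
      · exact eq_neg_of_add_eq_zero_left h3
      · exact h1.symm
    have h5 := lt_of_rv_eq h4 (hne j₀)
    have h6 : y - φ' (ρ j₀) - -(φ' (ρ j₀) - φ' (ρ j)) = y - φ' (ρ j) := by ring
    rw [h6] at h5
    exact absurd h5 (not_lt.2 (hj₀ j))
  have hrv : ∀ i, rv (s i) =
      ((z (Sum.inl i)).1 * ∏ j, (mu (fun p q => z (Sum.inr (p, q))) j₀
          (y - φ' (ρ j₀)).leadingCoeff (y - φ' (ρ j₀)).order j).1 ^ (e i j),
        (z (Sum.inl i)).2 + ∑ j, (e i j : ℚ) * (mu (fun p q => z (Sum.inr (p, q))) j₀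
          (y - φ' (ρ j₀)).leadingCoeff (y - φ' (ρ j₀)).order j).2) := by
    intro i
    have h1 : φ' (a i) ≠ 0 := (map_ne_zero φ').2 (ha i)
    have h2 : z (Sum.inl i) = rv (φ' (a i)) := by rw [hz]; rfl
    rw [hs i, rv_mul h1 (Finset.prod_ne_zero_iff.2 fun j _ => zpow_ne_zero _ (hne j)),
      f5b_prod Finset.univ _ hne (e i), h2]
    simp only [hmu]
  rw [← hz]
  obtain ⟨u, hu⟩ : ∃ u, u = (y - φ' (ρ j₀)).leadingCoeff := ⟨_, rfl⟩
  rw [← hu] at hrv
  have hE1 : Algebra.trdeg k (kf k (ac z)) ≤ n := by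
    have h1 := pt_trdeg_le φ' n hn (fun i => φ' (trs a ρ i)) (fun i =>
      isAlgebraic_algebraMap (A := HahnSeries ℚ Ω) (⟨φ' (trs a ρ i), ⟨_, rfl⟩⟩ : φ'.fieldRange))
    have h2 : (fun i => (φ' (trs a ρ i)).leadingCoeff) = ac z := by
      rw [hz]
      rfl
    rwa [h2] at h1
  have hle : kf k (fun i => (s i).leadingCoeff) ≤
      IntermediateField.adjoin k ((kf k (ac z) : Set Ω) ∪ {u}) := by
    have hEi : ∀ i, (z i).1 ∈ IntermediateField.adjoin k ((kf k (ac z) : Set Ω) ∪ {u}) := fun i =>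
      IntermediateField.subset_adjoin _ _ (Or.inl (mem_kf (ac z) i))
    have hui : u ∈ IntermediateField.adjoin k ((kf k (ac z) : Set Ω) ∪ {u}) :=
      IntermediateField.subset_adjoin _ _ (Or.inr rfl)
    apply kf_le.2
    intro i
    have h1 : (s i).leadingCoeff = (rv (s i)).1 := rfl
    rw [h1, hrv i]
    refine mul_mem (hEi _) (prod_mem fun j _ => zpow_mem ?_ _)
    unfold mu
    split_ifs
    · exact hui
    · exact hEi _
    · exact add_mem hui (hEi _)
    · exact hui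
  have hbig : (n : Cardinal) + 1 ≤ Algebra.trdeg k
      (IntermediateField.adjoin k ((kf k (ac z) : Set Ω) ∪ {u})) := by
    rw [← hd]
    exact td_mono hle
  have htr : Transcendental (kf k (ac z)) u := by
    intro hal
    have h1 : Algebra.trdeg k (IntermediateField.adjoin k ((kf k (ac z) : Set Ω) ∪ {u})) ≤ n := by
      have h2 : IntermediateField.adjoin k ((kf k (ac z) : Set Ω) ∪ {u}) ≤ cl (kf k (ac z)) := by
        rw [IntermediateField.adjoin_le_iff]
        rintro x (hx | rfl)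
        · exact le_cl _ hx
        · exact mem_cl.2 hal
      exact ((td_mono h2).trans (td_cl _).le).trans hE1
    have h3 := hbig.trans h1
    have h4 : ((n + 1 : ℕ) : Cardinal) ≤ (n : ℕ) := by
      push_cast
      exact h3
    rw [Nat.cast_le] at h4
    omega
  refine ⟨le_antisymm hE1 ?_, j₀, u, (y - φ' (ρ j₀)).order, htr, hrv⟩
  have h1 := hbig.trans (td_succ_le (kf k (ac z)) u)
  exact (Cardinal.add_one_le_add_one_iff).1 h1

theorem f5c_rv_pow {Ω : Type u} [Field Ω] (x : HahnSeries ℚ Ω) (n : ℕ) :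
    rv (x ^ n) = ((rv x).1 ^ n, (n : ℚ) * (rv x).2) := by
  have h1 : rv (1 : HahnSeries ℚ Ω) = (1, 0) := by
    unfold rv
    rw [HahnSeries.leadingCoeff_one, HahnSeries.order_one]
  by_cases hx : x = 0
  · subst hx
    rcases Nat.eq_zero_or_pos n with rfl | hn
    · rw [pow_zero, h1]
      simp
    · rw [zero_pow hn.ne', rv_zero]
      simp [hn.ne']
  · induction n with
    | zero =>
      rw [pow_zero, h1]
      simp
    | succ n ih =>
      rw [pow_succ, rv_mul (pow_ne_zero n hx) hx, ih]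
      refine Prod.ext ?_ ?_
      · simp only
        rw [pow_succ]
      · simp only
        push_cast
        ring

theorem f5c_rv_zpow {Ω : Type u} [Field Ω] (x : HahnSeries ℚ Ω) (n : ℤ) :
    rv (x ^ n) = ((rv x).1 ^ n, (n : ℚ) * (rv x).2) := by
  rcases n with n | n
  · rw [Int.ofNat_eq_natCast, zpow_natCast, zpow_natCast, f5c_rv_pow]
    simp
  · rw [zpow_negSucc, zpow_negSucc, rv_inv, f5c_rv_pow]
    refine Prod.ext rfl ?_
    simp only
    push_cast
    ring

theorem f5c_rv_prod {Ω : Type u} [Field Ω] {Θ : Type w} (t : Finset Θ) (e : Θ → ℤ)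
    (f : Θ → HahnSeries ℚ Ω) (hf : ∀ j, f j ≠ 0) :
    rv (∏ j ∈ t, f j ^ e j) =
      (∏ j ∈ t, (rv (f j)).1 ^ e j, ∑ j ∈ t, (e j : ℚ) * (rv (f j)).2) := by
  classical
  induction t using Finset.induction_on with
  | empty =>
    rw [Finset.prod_empty, Finset.prod_empty, Finset.sum_empty]
    unfold rv
    rw [HahnSeries.leadingCoeff_one, HahnSeries.order_one]
  | insert j t hj ih =>
    rw [Finset.prod_insert hj, Finset.prod_insert hj, Finset.sum_insert hj,
      rv_mul (zpow_ne_zero _ (hf j)) (Finset.prod_ne_zero_iff.2 fun i _ => zpow_ne_zero _ (hf i)),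
      ih, f5c_rv_zpow]

/-- Backward direction.

Proof. Witness `(j₀, u, r)` of `TrR`, `E = kf k (ac z)`, `z = rvt (trs a ρ) φ'`, `y = φ'(ρ j₀) + single r u` (`u ≠ 0` as it is
transcendental). `y` is not algebraic over `φ'.fieldRange`: otherwise `single r u = y - φ'(ρ j₀)` is, and `pt_trdeg_le` for the family
(`φ' ∘ trs a ρ`, `single r u`) indexed by `Option _` gives `trdeg k (kf k (ac z, u)) ≤ n`; but `trdeg k E = n` and `u` is
transcendental over `E`, so it is `n + 1`. Formula: `rv_mu` for `φ' ∘ ρ`, `y`, `j₀` (`rv (y - φ'(ρ j₀)) = (u, r)` by `rv_single`;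
`hmax`: `u + d.1 = 0` would give `u ∈ E`), then `rv_mul` etc. as in `tr_fwd` (`y ≠ φ' (ρ j)` as `y` is not algebraic). -/
theorem tr_bwd [IsAlgClosed k] [CharZero k] (φ' : Pt k Ω N) (n : ℕ)
    (hn : Algebra.trdeg (HahnSeries ℚ k) N ≤ n) (a : κ → N) (ha : ∀ i, a i ≠ 0)
    (ρ : Θ → N) (e : κ → Θ → ℤ)
    (hd : Algebra.trdeg k (kf k (ac (rvt (trs a ρ) φ'))) = n) (z' : κ → Ω × ℚ)
    (hR : TrR k e (rvt (trs a ρ) φ') z') :
    ∃ y : HahnSeries ℚ Ω, ¬ IsAlgebraic φ'.fieldRange y ∧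
      ∀ i, rv (φ' (a i) * ∏ j, (y - φ' (ρ j)) ^ (e i j)) = z' i := by
  classical
  obtain ⟨j₀, u, r, hu, hz'⟩ := hR
  have hu0 : u ≠ 0 := by
    rintro rfl
    exact hu isAlgebraic_zero
  have hsub : (φ' (ρ j₀) + HahnSeries.single r u) - φ' (ρ j₀) = HahnSeries.single r u := by
    ring
  have hnalg : ¬ IsAlgebraic φ'.fieldRange (φ' (ρ j₀) + HahnSeries.single r u) := by
    intro hy
    have hmem : ∀ x : N, IsAlgebraic φ'.fieldRange (φ' x) := fun x =>
      isAlgebraic_algebraMap (⟨φ' x, x, rfl⟩ : φ'.fieldRange)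
    have hs : IsAlgebraic φ'.fieldRange (HahnSeries.single r u) := by
      rw [← hsub]
      exact hy.sub (hmem _)
    let Y : Option (κ ⊕ Θ × Θ) → HahnSeries ℚ Ω := fun o =>
      o.elim (HahnSeries.single r u) fun i => φ' (trs a ρ i)
    have hY : ∀ o, IsAlgebraic φ'.fieldRange (Y o) := by
      rintro (_ | i)
      · exact hs
      · exact hmem _
    have h1 := pt_trdeg_le φ' n hn Y hY
    have h2 : kf k (ac (rvt (trs a ρ) φ')) ≤ kf k fun o => (Y o).leadingCoeff := by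
      apply kf_le.2
      intro i
      exact mem_kf (fun o => (Y o).leadingCoeff) (some i)
    have h3 : u ∈ kf k fun o => (Y o).leadingCoeff := by
      have := mem_kf (k := k) (fun o => (Y o).leadingCoeff) none
      have h4 : (Y none).leadingCoeff = u := HahnSeries.leadingCoeff_of_single
      rw [← h4]
      exact this
    refine hu (alg_of_td_le h2 (td_kf_lt _) ?_ h3)
    rw [hd]
    exact h1
  have hne : ∀ j, (φ' (ρ j₀) + HahnSeries.single r u) - φ' (ρ j) ≠ 0 := by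
    intro j hj
    apply hnalg
    rw [sub_eq_zero.1 hj]
    exact isAlgebraic_algebraMap (⟨φ' (ρ j), ρ j, rfl⟩ : φ'.fieldRange)
  have hlc : ((φ' (ρ j₀) + HahnSeries.single r u) - φ' (ρ j₀)).leadingCoeff = u := by
    rw [hsub]
    exact HahnSeries.leadingCoeff_of_single
  have hord : ((φ' (ρ j₀) + HahnSeries.single r u) - φ' (ρ j₀)).order = r := by
    rw [hsub]
    exact HahnSeries.order_single hu0
  have hmu : ∀ j, rv ((φ' (ρ j₀) + HahnSeries.single r u) - φ' (ρ j)) =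
      mu (fun a' b => rvt (trs a ρ) φ' (Sum.inr (a', b))) j₀ u r j := by
    intro j
    have h1 := rv_mu (fun i => φ' (ρ i)) (φ' (ρ j₀) + HahnSeries.single r u) j₀ j
      (fun h => hne j₀ (sub_eq_zero.2 h)) ?_
    · rw [hlc, hord] at h1
      rw [h1]
      congr 1
      funext a' b
      show rv (φ' (ρ a') - φ' (ρ b)) = rv (φ' (ρ a' - ρ b))
      rw [map_sub]
    · intro _ _ h2
      apply hu
      rw [hlc] at h2
      have h3 : u = -(φ' (ρ j₀) - φ' (ρ j)).leadingCoeff := eq_neg_of_add_eq_zero_left h2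
      have h4 : (φ' (ρ j₀) - φ' (ρ j)).leadingCoeff ∈ kf k (ac (rvt (trs a ρ) φ')) := by
        have h5 := mem_kf (k := k) (ac (rvt (trs a ρ) φ')) (Sum.inr (j₀, j))
        have h6 : ac (rvt (trs a ρ) φ') (Sum.inr (j₀, j)) =
            (φ' (ρ j₀) - φ' (ρ j)).leadingCoeff := by
          show (φ' (ρ j₀ - ρ j)).leadingCoeff = _
          rw [map_sub]
        rwa [h6] at h5
      have h5 : u ∈ kf k (ac (rvt (trs a ρ) φ')) := by
        rw [h3]
        exact neg_mem h4
      exact isAlgebraic_algebraMap (⟨u, h5⟩ : kf k (ac (rvt (trs a ρ) φ')))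
  refine ⟨φ' (ρ j₀) + HahnSeries.single r u, hnalg, fun i => ?_⟩
  have ha' : φ' (a i) ≠ 0 := (map_ne_zero φ').2 (ha i)
  rw [rv_mul ha' (Finset.prod_ne_zero_iff.2 fun j _ => zpow_ne_zero _ (hne j)),
    f5c_rv_prod Finset.univ (e i) _ hne, hz' i]
  refine Prod.ext ?_ ?_
  · show _ * ∏ j, _ = _ * ∏ j, _
    simp only [hmu]
    rfl
  · show _ + ∑ j, _ = _ + ∑ j, _
    simp only [hmu]
    rfl

private theorem f5d_trdeg {H F' N : Type u} [Field H] [Field F'] [Field N] [Algebra H F']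
    [Algebra H N] [Algebra F' N] [IsScalarTower H F' N] [FiniteDimensional F' N] :
    Algebra.trdeg H N = Algebra.trdeg H F' := by
  have h1 : Algebra.trdeg H F' + Algebra.trdeg F' N = Algebra.trdeg H N := trdeg_add_eq H F'
  have h2 : Algebra.trdeg F' N = 0 := trdeg_eq_zero
  rw [h2, add_zero] at h1
  exact h1.symm

private theorem f5d_ne {U F' F N : Type u} [Field U] [Field F'] [Field F] [Field N] [Algebra F' F]
    [Algebra F' N] [FiniteDimensional F' N] (x : F) (hx : Transcendental F' x) (φ : F →+* U)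
    (φ' : N →+* U) (h : φ.comp (algebraMap F' F) = φ'.comp (algebraMap F' N)) (ρ : N) :
    φ x ≠ φ' ρ := by
  intro h1
  have hρ : IsIntegral F' ρ := IsIntegral.of_finite F' ρ
  have h2 : φ (aeval x (minpoly F' ρ)) = 0 := by
    rw [aeval_def, hom_eval₂, h1, h, ← hom_eval₂, ← aeval_def, minpoly.aeval, map_zero]
  have h3 : aeval x (minpoly F' ρ) = 0 := φ.injective (by rw [h2, map_zero])
  exact hx ⟨minpoly F' ρ, minpoly.ne_zero hρ, h3⟩

private theorem f5d_poly {F' : Type u} [Field F'] [Algebra (HahnSeries ℚ k) F'] [Algebra F' N]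
    [IsScalarTower (HahnSeries ℚ k) F' N] (φ' : Pt k Ω N) (y : HahnSeries ℚ Ω)
    (hy : ¬ IsAlgebraic φ'.fieldRange y) (p : F'[X]) (hp : p ≠ 0) :
    p.eval₂ (resPt F' φ' : F' →+* HahnSeries ℚ Ω) y ≠ 0 := by
  intro h0
  apply hy
  let g : F' →+* φ'.fieldRange :=
    ((φ' : N →+* HahnSeries ℚ Ω).comp (algebraMap F' N)).codRestrict φ'.fieldRange
      fun a => ⟨algebraMap F' N a, rfl⟩
  refine ⟨p.map g, (Polynomial.map_ne_zero_iff g.injective).2 hp, ?_⟩
  rw [aeval_def, eval₂_map]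
  exact h0

/-- The transcendental step.

Proof. `S`, `0 ∉ S`; `exists_fact`; `letI : Algebra (HahnSeries ℚ k) N := ((algebraMap F' N).comp (algebraMap _ F')).toAlgebra`.
`trdeg N = trdeg F' = n` (`N` algebraic over `F'`). `hT := (h N).gen (trs (algebraMap ∘ a) ρ) : Tame k (Es k Ω n …)`.
Claim: `Es k Ω (n+1) S = {z' | ∃ z ∈ Es k Ω n (trs ..), TrR k e z z'} ∩ {z' | trdeg k (kf k (ac z')) = n + 1}`.
(⊆) `φ : Pt k Ω F`; `φ'` from `exists_pt_alg (resPt F' φ)`; `tr_fwd` with `y = φ x` (`φ x ≠ φ' (ρ j)`: `φ x` is not algebraic over the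
image of `F'`). (⊇) `z = rvt .. φ'`; `tr_bwd` gives `y`; `exists_pt_tr (resPt F' φ') x hx htop y` (`y` is not algebraic over
`φ'.fieldRange`, so not a root of a non-zero polynomial over `F'`) gives `φ`; formula of `exists_fact`.
Tameness: `Tame.image` with `TrR_inv`, `TrR_sl`, `TrR_fin`, then `Tame.cond` with `trdeg_kf_map`. -/
theorem TF_tr [IsAlgClosed k] [CharZero k] [IsAlgClosed Ω] {F' F : Type u} [Field F'] [Field F]
    [Algebra (HahnSeries ℚ k) F'] [Algebra (HahnSeries ℚ k) F] [Algebra F' F]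
    [IsScalarTower (HahnSeries ℚ k) F' F] (x : F)
    (hx : Transcendental F' x) (htop : IntermediateField.adjoin F' {x} = ⊤) (n : ℕ)
    (hn : Algebra.trdeg (HahnSeries ℚ k) F' = n)
    (h : ∀ (N : Type u) [Field N] [Algebra (HahnSeries ℚ k) N] [Algebra F' N]
      [IsScalarTower (HahnSeries ℚ k) F' N] [FiniteDimensional F' N], TF k Ω N n) :
    TF k Ω F (n + 1) := by
  intro S h0
  obtain ⟨N, _, _, _, Θ, _, _, ρ, a, e, ha, hfac⟩ := exists_fact x hx htop S h0
  let : Algebra (HahnSeries ℚ k) N :=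
    ((algebraMap F' N).comp (algebraMap (HahnSeries ℚ k) F')).toAlgebra
  have : IsScalarTower (HahnSeries ℚ k) F' N := IsScalarTower.of_algebraMap_eq fun _ => rfl
  let A : S → N := fun i => algebraMap F' N (a i)
  have hA : ∀ i, A i ≠ 0 := fun i h1 =>
    ha i ((algebraMap F' N).injective (by rw [map_zero]; exact h1))
  have hT : Tame k (Es k Ω n (trs A ρ)) := (h N).gen (trs A ρ)
  have hnN : Algebra.trdeg (HahnSeries ℚ k) N = n := by
    rw [f5d_trdeg (F' := F'), hn]
  have hE : Es k Ω (n + 1) (fun s : S => (s : F)) =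
      {z' | ∃ z ∈ Es k Ω n (trs A ρ), TrR k e z z'} ∩
        {z' | (fun w : S → Ω => Algebra.trdeg k (kf k w) = ((n + 1 : ℕ) : Cardinal)) (ac z')} := by
    ext z'
    constructor
    · rintro ⟨⟨φ, rfl⟩, hd⟩
      refine ⟨?_, hd⟩
      obtain ⟨φ', hφ'⟩ := exists_pt_alg (N := N) (resPt F' φ)
      have hcomp : (φ : F →+* HahnSeries ℚ Ω).comp (algebraMap F' F) =
          (φ' : N →+* HahnSeries ℚ Ω).comp (algebraMap F' N) := by
        ext b : 1
        exact (hφ' b).symm
      have hfac' := hfac (HahnSeries ℚ Ω) (φ : F →+* HahnSeries ℚ Ω)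
        (φ' : N →+* HahnSeries ℚ Ω) hcomp
      have hy : ∀ j, φ x ≠ φ' (ρ j) := fun j =>
        f5d_ne x hx (φ : F →+* HahnSeries ℚ Ω) (φ' : N →+* HahnSeries ℚ Ω) hcomp (ρ j)
      have hd' : Algebra.trdeg k (kf k fun i : S => (φ (i : F)).leadingCoeff) =
          (n : Cardinal) + 1 := by
        rw [← Nat.cast_succ]
        exact hd
      obtain ⟨h1, h2⟩ := tr_fwd φ' n (le_of_eq hnN) A hA ρ e (φ x) hy
        (fun i : S => φ (i : F)) hfac' hd'
      exact ⟨rvt (trs A ρ) φ', ⟨⟨φ', rfl⟩, h1⟩, h2⟩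
    · rintro ⟨⟨z, ⟨⟨φ', rfl⟩, hz⟩, hR⟩, hd⟩
      refine ⟨?_, hd⟩
      obtain ⟨y, hy, hy'⟩ := tr_bwd φ' n (le_of_eq hnN) A hA ρ e hz z' hR
      obtain ⟨ψ, hψ, hψx⟩ := exists_pt_tr (resPt F' φ') x hx htop y (f5d_poly φ' y hy)
      have hcomp : (ψ : F →+* HahnSeries ℚ Ω).comp (algebraMap F' F) =
          (φ' : N →+* HahnSeries ℚ Ω).comp (algebraMap F' N) := by
        ext b : 1
        exact hψ b
      have hfac' := hfac (HahnSeries ℚ Ω) (ψ : F →+* HahnSeries ℚ Ω)
        (φ' : N →+* HahnSeries ℚ Ω) hcomp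
      refine ⟨ψ, ?_⟩
      funext i
      have h1 : ψ (i : F) = φ' (A i) * ∏ j, (y - φ' (ρ j)) ^ (e i j) := by
        rw [← hψx]
        exact hfac' i
      show rv (ψ (i : F)) = z' i
      rw [h1, hy' i]
  rw [hE]
  refine Tame.cond (D := fun w : S → Ω => Algebra.trdeg k (kf k w) = ((n + 1 : ℕ) : Cardinal))
    (hT.image (TrR k e) (TrR_inv e) (TrR_sl e) fun w => ?_) fun σ w hw => ?_
  · obtain ⟨s, hs⟩ := TrR_fin (k := k) e w
    exact ⟨s, fun z _ hz z' hR => hs z hz z' hR⟩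
  · show Algebra.trdeg k (kf k fun i => σ (w i)) = _
    rw [trdeg_kf_map]
    exact hw

end

end KTS
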