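import Pool.Agent.KTS.F3
import Pool.Agent.KTS.F5

/-!
[KTS-F6] Finiteness: induction on the transcendence degree.
-/

set_option autoImplicit false

namespace KTS

noncomputable section

universe u v w

open Polynomial

/-- Proof. `trdeg = 0` means `F` algebraic over `HahnSeries ℚ k` (`Algebra.trdeg_eq_zero_iff`), which is algebraically
closed (`hahn_isAlgClosed`), so `algebraMap` is surjective (`IsAlgClosed.algebraMap_surjective_of_isIntegral`). Hence every
`s ∈ S` is `algebraMap a_s` and for every `φ`: `φ s = algebraMap a_s`, `rvt S φ` is the fixed vector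
`z₀ s = (algebraMap k Ω (a_s).leadingCoeff, (a_s).order)`. So `Es k Ω 0 S` is `∅` or `{z₀}` (`Set.subset_singleton_iff_eq`).
`{z₀}` is tame: `σ` fixes `z₀`; `{g | zip w g = z₀}` is `∅` or a singleton (`SL.singleton`, `SL.empty`), one orbit. -/
theorem TF_zero {k Ω F : Type u} [Field k] [Field Ω] [Algebra k Ω] [Field F]
    [Algebra (HahnSeries ℚ k) F] [IsAlgClosed k]
    (hn : Algebra.trdeg (HahnSeries ℚ k) F = 0) : TF k Ω F 0 := by
  classical
  have halg : Algebra.IsAlgebraic (HahnSeries ℚ k) F := _root_.trdeg_eq_zero_iff.1 hn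
  have hint : Algebra.IsIntegral (HahnSeries ℚ k) F := inferInstance
  have hsurj : Function.Surjective (algebraMap (HahnSeries ℚ k) F) :=
    (IsAlgClosed.algebraMap_bijective_of_isIntegral (k := HahnSeries ℚ k) (K := F)).2
  intro S hS
  choose a ha using hsurj
  let z₀ : S → Ω × ℚ := fun s => rv (hmap (algebraMap k Ω) (a (s : F)))
  have hz : ∀ φ : Pt k Ω F, rvt (fun s : S => (s : F)) φ = z₀ := by
    intro φ
    funext s
    show rv (φ (s : F)) = rv (hmap (algebraMap k Ω) (a (s : F)))
    have h1 : φ (s : F) = φ (algebraMap (HahnSeries ℚ k) F (a (s : F))) := by rw [ha]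
    rw [h1, φ.commutes]
    rfl
  have hsub : Es k Ω 0 (fun s : S => (s : F)) ⊆ {z₀} := by
    rintro z ⟨⟨φ, rfl⟩, -⟩
    exact hz φ
  rcases Set.subset_singleton_iff_eq.1 hsub with h | h
  · rw [h]
    exact Tame.empty
  · refine ⟨fun σ z hzE => Es_inv 0 _ σ hzE, ?_, ?_⟩
    · intro w
      rw [h]
      by_cases hw : ∃ g : S → ℚ, zip w g = z₀
      · obtain ⟨g, hg⟩ := hw
        have e1 : {g' : S → ℚ | zip w g' ∈ ({z₀} : Set (S → Ω × ℚ))} = {g} := by
          ext g'
          simp only [Set.mem_ofPred_eq, Set.mem_singleton_iff]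
          constructor
          · intro hg'
            have h2 : zip w g' = zip w g := hg'.trans hg.symm
            funext i
            exact congrArg Prod.snd (congrFun h2 i)
          · rintro rfl
            exact hg
        rw [e1]
        exact SL.singleton g
      · have e1 : {g' : S → ℚ | zip w g' ∈ ({z₀} : Set (S → Ω × ℚ))} = ∅ := by
          ext g'
          simp only [Set.mem_ofPred_eq, Set.mem_singleton_iff, Set.mem_empty_iff_false, iff_false]
          exact fun hg' => hw ⟨g', hg'⟩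
        rw [e1]
        exact SL.empty
    · refine ⟨{ac z₀}, ?_⟩
      intro z hzE
      rw [h] at hzE
      have hz' : z = z₀ := hzE
      subst hz'
      exact ⟨_, Finset.mem_singleton_self _, 1, Subgroup.mem_top _, fun i => rfl⟩

/-- Proof. `F` is finitely generated as a field over `A` (`IntermediateField.essFiniteType_iff` or
`IntermediateField.FG`): `adjoin A T = ⊤`, `T` finite. Choose a transcendence basis `b : Fin (n+1) → F` (e.g. a subset of `T`, or any:
it has cardinality `trdeg = n + 1`). `F₁ = adjoin A (range (b ∘ Fin.castSucc))`, `x = b (Fin.last n)`.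
`F₁` is essentially of finite type (adjoin of a finite set); `trdeg A F₁ = n`: the `b (castSucc i)` form a transcendence basis of
`F₁` (`IntermediateField.adjoin` is algebraic over `Algebra.adjoin`, or `≤ n` by `td_adjoin_le` (HA2) and `≥ n` by independence);
`x` is transcendental over `F₁` (`AlgebraicIndependent.…transcendental_adjoin`, or from degrees: otherwise `trdeg A F ≤ n`);
`F` is algebraic over `adjoin F₁ {x} ⊇ range b`, and generated by the finite set `T`, so finite-dimensional
(`IntermediateField.finiteDimensional_adjoin`, `IntermediateField.adjoin_… T = ⊤`). -/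
theorem exists_step (A F : Type u) [Field A] [Field F] [Algebra A F] [Algebra.EssFiniteType A F]
    (n : ℕ) (hn : Algebra.trdeg A F = n + 1) :
    ∃ (F₁ : IntermediateField A F) (x : F), Algebra.EssFiniteType A F₁ ∧
      Algebra.trdeg A F₁ = n ∧ Transcendental F₁ x ∧
      FiniteDimensional (IntermediateField.adjoin F₁ {x}) F := by
  obtain ⟨s, hs⟩ := exists_isTranscendenceBasis A F
  have hcard : Cardinal.mk s = n + 1 := by rw [hs.cardinalMk_eq_trdeg, hn]
  have hne : s.Nonempty := by
    rw [Set.nonempty_iff_ne_empty]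
    rintro rfl
    rw [Cardinal.mk_eq_zero] at hcard
    exact absurd hcard (by exact_mod_cast (Nat.succ_ne_zero n).symm)
  obtain ⟨x, hx⟩ := hne
  have ht : Cardinal.mk (s \ {x} : Set F) = n := by
    have h1 := Cardinal.mk_sdiff_add_mk (S := s) (T := {x}) (Set.singleton_subset_iff.2 hx)
    rw [Cardinal.mk_singleton, hcard] at h1
    exact Cardinal.add_one_inj.1 h1
  have hfin : (s \ {x} : Set F).Finite := by
    rw [← Cardinal.lt_aleph0_iff_set_finite, ht]
    exact Cardinal.natCast_lt_aleph0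
  obtain ⟨F₁, hF₁⟩ : ∃ F₁ : IntermediateField A F, F₁ = IntermediateField.adjoin A (s \ {x}) := ⟨_, rfl⟩
  have hess : Algebra.EssFiniteType A F₁ := by
    rw [IntermediateField.essFiniteType_iff, IntermediateField.fg_def]
    exact ⟨_, hfin, hF₁.symm⟩
  have halg : Algebra.IsAlgebraic (IntermediateField.adjoin F₁ {x}) F := by
    have h0 := hs.isAlgebraic_field
    rw [Subtype.range_coe] at h0
    have hle : ∀ y ∈ IntermediateField.adjoin A s, y ∈ IntermediateField.adjoin F₁ {x} := by
      have h1 : IntermediateField.adjoin A s ≤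
          (IntermediateField.adjoin F₁ {x}).restrictScalars A := by
        rw [IntermediateField.adjoin_le_iff]
        intro y hy
        change y ∈ IntermediateField.adjoin F₁ {x}
        by_cases hyx : y = x
        · rw [hyx]
          exact IntermediateField.subset_adjoin _ _ rfl
        · have h2 : y ∈ F₁ := by
            rw [hF₁]
            exact IntermediateField.subset_adjoin _ _ ⟨hy, hyx⟩
          exact (IntermediateField.adjoin F₁ {x}).algebraMap_mem ⟨y, h2⟩
      exact fun y hy => h1 hy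
    refine ⟨fun y => ?_⟩
    obtain ⟨p, hp, hpy⟩ := h0.isAlgebraic y
    let φ : IntermediateField.adjoin A s →+* IntermediateField.adjoin F₁ {x} :=
      { toFun := fun z => ⟨(z : F), hle z z.2⟩
        map_one' := rfl
        map_mul' := fun _ _ => rfl
        map_zero' := rfl
        map_add' := fun _ _ => rfl }
    refine ⟨p.map φ, (Polynomial.map_ne_zero_iff φ.injective).2 hp, ?_⟩
    rw [Polynomial.aeval_def, Polynomial.eval₂_map]
    exact hpy
  have hfd : FiniteDimensional (IntermediateField.adjoin F₁ {x}) F := by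
    have : Algebra.EssFiniteType F₁ F := Algebra.EssFiniteType.of_comp A F₁ F
    have : Algebra.EssFiniteType (IntermediateField.adjoin F₁ {x}) F :=
      Algebra.EssFiniteType.of_comp F₁ (IntermediateField.adjoin F₁ {x}) F
    exact Algebra.finite_of_essFiniteType_of_isAlgebraic
  have t1 : Algebra.trdeg A F₁ ≤ n := by
    rw [hF₁]
    exact (td_adjoin_le _).trans_eq ht
  have t2 : Algebra.trdeg F₁ F = Algebra.trdeg F₁ (IntermediateField.adjoin F₁ {x}) := by
    rw [← trdeg_add_eq F₁ (IntermediateField.adjoin F₁ {x}) (A := F),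
      trdeg_eq_zero (R := IntermediateField.adjoin F₁ {x}) (A := F), add_zero]
  have t3 : Algebra.trdeg F₁ F ≤ 1 := by
    rw [t2]
    exact (td_adjoin_le _).trans_eq (Cardinal.mk_singleton x)
  have t4 : Algebra.trdeg A F₁ + Algebra.trdeg F₁ F = n + 1 := by
    rw [trdeg_add_eq, hn]
  obtain ⟨a, ha⟩ := Cardinal.lt_aleph0.1 (t1.trans_lt Cardinal.natCast_lt_aleph0)
  obtain ⟨b, hb⟩ := Cardinal.lt_aleph0.1 (t3.trans_lt Cardinal.one_lt_aleph0)
  rw [ha] at t1
  rw [hb] at t3
  rw [ha, hb] at t4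
  have t1' : a ≤ n := by exact_mod_cast t1
  have t3' : b ≤ 1 := by exact_mod_cast t3
  have t4' : a + b = n + 1 := by exact_mod_cast t4
  refine ⟨F₁, x, hess, ?_, ?_, hfd⟩
  · rw [ha]
    have : a = n := by omega
    rw [this]
  · intro hxa
    have h1 : Algebra.IsAlgebraic F₁ (IntermediateField.adjoin F₁ {x}) :=
      IntermediateField.isAlgebraic_adjoin_simple hxa.isIntegral
    rw [t2, trdeg_eq_zero] at hb
    have h2 : b = 0 := by exact_mod_cast hb.symm
    omega

/-- Proof. Induction on `n`. `0`: `TF_zero`. `n + 1`: `exists_step` gives `F₁, x`; `F₂ = adjoin F₁ {x} : IntermediateField F₁ F`.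
`TF_tr` with `F' = F₁`, `F = F₂`, `x' = ⟨x, _⟩` (transcendental; `adjoin F₁ {x'} = ⊤`); its hypothesis `h`: for `N / F₁` finite,
`Algebra.EssFiniteType (HahnSeries ℚ k) N` (`Algebra.EssFiniteType.comp`, `Module.Finite` ⟹ finite type) and
`trdeg N = trdeg F₁ = n` (`trdeg_add_eq`/`tower_trdeg`, `N / F₁` algebraic), induction hypothesis. So `TF k Ω F₂ (n+1)`; then `TF_alg`
with `F' = F₂`, `N = F` (`trdeg F₂ = trdeg F = n + 1` as `F / F₂` is algebraic; `CharZero F₂` from the algebra structure over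
`HahnSeries ℚ k`). -/
theorem TF_all (k Ω : Type u) [Field k] [Field Ω] [Algebra k Ω] [IsAlgClosed k] [CharZero k]
    [IsAlgClosed Ω] [CharZero Ω] :
    ∀ (n : ℕ) (F : Type u) [Field F] [Algebra (HahnSeries ℚ k) F]
      [Algebra.EssFiniteType (HahnSeries ℚ k) F],
      Algebra.trdeg (HahnSeries ℚ k) F = n → TF k Ω F n := by
  intro n
  induction n with
  | zero =>
    intro F _ _ _ h
    exact TF_zero (by rw [h, Nat.cast_zero])
  | succ n ih =>
    intro F _ _ _ h
    obtain ⟨F₁, x, hE, htr1, hx, hfd⟩ := exists_step (HahnSeries ℚ k) F n (by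
      rw [h, Nat.cast_add, Nat.cast_one])
    have hc0 : CharZero (HahnSeries ℚ k) :=
      (RingHom.charZero_iff (algebraMap k (HahnSeries ℚ k)).injective).1 inferInstance
    have hc : CharZero F :=
      (RingHom.charZero_iff (algebraMap (HahnSeries ℚ k) F).injective).1 hc0
    have hc2 : CharZero (IntermediateField.adjoin F₁ {x}) :=
      (RingHom.charZero_iff (algebraMap (IntermediateField.adjoin F₁ {x}) F).injective).2 hc
    have h2 : TF k Ω (IntermediateField.adjoin F₁ {x}) (n + 1) := by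
      refine TF_tr (F' := F₁) (IntermediateField.AdjoinSimple.gen F₁ x) ?_ ?_ n htr1 ?_
      · intro hal
        apply hx
        have h3 := hal.algebraMap (A := F)
        exact h3
      · apply IntermediateField.lift_injective
        rw [IntermediateField.lift_adjoin_simple, IntermediateField.lift_top]
        rfl
      · intro N _ _ _ _ _
        have h3 : Algebra.EssFiniteType (HahnSeries ℚ k) N :=
          Algebra.EssFiniteType.comp (HahnSeries ℚ k) F₁ N
        refine ih N ?_
        rw [← trdeg_add_eq (HahnSeries ℚ k) F₁, htr1,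
          trdeg_eq_zero_iff.2 (Algebra.IsAlgebraic.of_finite F₁ N), add_zero]
    have hst : IsScalarTower (HahnSeries ℚ k) (IntermediateField.adjoin F₁ {x}) F :=
      IsScalarTower.of_algebraMap_eq fun a => rfl
    have h4 : Algebra.trdeg (HahnSeries ℚ k) (IntermediateField.adjoin F₁ {x}) =
        ((n + 1 : ℕ) : Cardinal) := by
      rw [← h, ← trdeg_add_eq (HahnSeries ℚ k) (IntermediateField.adjoin F₁ {x}) (A := F),
        trdeg_eq_zero_iff.2
          (Algebra.IsAlgebraic.of_finite (IntermediateField.adjoin F₁ {x}) F), add_zero]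
    exact TF_alg (F' := IntermediateField.adjoin F₁ {x}) (n + 1) h4 h2

/-- An auxiliary form of the integrand. -/
theorem f6d_JA {k Ω F : Type u} [Field k] [Field Ω] [Algebra k Ω]
    [Field F] [Algebra (HahnSeries ℚ k) F] {d : ℕ} {ι : Type v}
    (S : Set (Pt k Ω F)) (s : ι → F) (Z : Set (ι → Ω × ℚ)) (hZ : ∀ φ, φ ∈ S ↔ rvt s φ ∈ Z)
    {c : IntermediateField k Ω → ℚ} (hc : Wt (d : Cardinal.{u}) c)
    [DecidablePred (· ∈ Es k Ω d s ∩ Z)] (z : ι → Ω × ℚ) :
    JA S s c z = if z ∈ Es k Ω d s ∩ Z then c (kf k (ac z)) else 0 := by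
  classical
  by_cases h0 : c (kf k (ac z)) = 0
  · unfold JA
    rw [h0, ite_self, ite_self]
  · have hd : Algebra.trdeg k (kf k (ac z)) = d := hc.dim _ h0
    have hiff : (∃ φ ∈ S, rvt s φ = z) ↔ z ∈ Es k Ω d s ∩ Z := by
      constructor
      · rintro ⟨φ, hφ, rfl⟩
        exact ⟨⟨⟨φ, rfl⟩, hd⟩, (hZ φ).1 hφ⟩
      · rintro ⟨⟨⟨φ, rfl⟩, -⟩, hz⟩
        exact ⟨φ, (hZ φ).2 hz, rfl⟩
    unfold JA
    simp only [hiff]

/-- FINITENESS, the theorem used by the other blocks.

Proof. `hT := (TF_all k Ω d F hF).gen s : Tame k (Es k Ω d s)`.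
Let `Z` be as in `Meas`. `(∃ φ ∈ S, rvt s φ = z) ↔ z ∈ Z ∧ ∃ φ, rvt s φ = z`.
`inv`: `S` is stable under `sact`, `kf` of `σ ∘ w` is the image of `kf k w` (see the proof of `trdeg_kf_map`), `hc.inv`. `cf`: fix `w`; if
`c (kf k w) = 0` the function is `0`; otherwise `trdeg k (kf k w) = d` (`hc.dim`) and the function is
`if zip w g ∈ Es k Ω d s ∩ Z then c (kf k w) else 0` (`SF.ite`, `SF.const`).
`fin`: `J z ≠ 0` implies `z ∈ Es k Ω d s`; `hT.fin`. -/
theorem FT_JA' {k Ω F : Type u} [Field k] [Field Ω] [Algebra k Ω] [IsAlgClosed k] [CharZero k]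
    [IsAlgClosed Ω] [CharZero Ω] [Field F] [Algebra (HahnSeries ℚ k) F] {d : ℕ}
    (hF : Algebra.trdeg (HahnSeries ℚ k) F = d) [Algebra.EssFiniteType (HahnSeries ℚ k) F]
    {ι : Type v} [Fintype ι]
    (S : Set (Pt k Ω F)) (s : ι → F) (hS : Meas S s) {c : IntermediateField k Ω → ℚ}
    (hc : Wt (d : Cardinal.{u}) c) :
    FT (⊤ : Subgroup (Ω ≃ₐ[k] Ω)) (JA S s c) := by
  classical
  have hT : Tame k (Es k Ω d s) := (TF_all k Ω d F hF).gen s
  obtain ⟨Z, hZ1, hZ2, hZ3⟩ := hS
  have hTZ : Tame k (Es k Ω d s ∩ Z) := hT.inter hZ2 hZ3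
  have hJ := fun z => f6d_JA S s Z hZ1 hc z
  refine ⟨?_, ?_, ?_⟩
  · intro σ _ z
    have h1 : sz σ z ∈ Es k Ω d s ∩ Z ↔ z ∈ Es k Ω d s ∩ Z := by
      constructor
      · intro h
        have h2 := hTZ.inv σ⁻¹ _ h
        rwa [sz_inv_sz] at h2
      · exact hTZ.inv σ z
    have h2 : c (kf k (ac (sz σ z))) = c (kf k (ac z)) := by
      have h3 : kf k (ac (sz σ z)) = (kf k (ac z)).map (σ : Ω →ₐ[k] Ω) :=
        (kf_map (σ : Ω →ₐ[k] Ω) (ac z)).symm
      rw [h3, hc.inv]
    rw [hJ, hJ, h2]
    by_cases hz : z ∈ Es k Ω d s ∩ Z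
    · rw [if_pos hz, if_pos (h1.2 hz)]
    · rw [if_neg hz, if_neg (fun h => hz (h1.1 h))]
  · intro w
    have h1 : (fun g : ι → ℚ => JA S s c (zip w g)) =
        fun g : ι → ℚ => if zip w g ∈ Es k Ω d s ∩ Z then c (kf k w) else 0 := by
      funext g
      rw [hJ]
      rfl
    rw [h1]
    have h2 := SF.ite (p := fun g : ι → ℚ => zip w g ∈ Es k Ω d s ∩ Z) (hTZ.sl w)
      (SF.const (c (kf k w))) (SF.const (0 : ℚ))
    unfold CF
    convert h2
  · obtain ⟨t, ht⟩ := hTZ.fin
    refine ⟨t, fun z hz => ht z ?_⟩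
    by_contra hne
    apply hz
    rw [hJ, if_neg hne]

/-- The form of `Need.lean`. Proof: `FT_JA'` with `S = univ` (`Meas`: `Z = univ`); `IntermediateField.essFiniteType_iff`. -/
theorem FT_JA {k Ω F : Type u} [Field k] [Field Ω] [Algebra k Ω] [IsAlgClosed k] [CharZero k]
    [IsAlgClosed Ω] [CharZero Ω] [Field F] [Algebra (HahnSeries ℚ k) F] {d : ℕ}
    (hF : Algebra.trdeg (HahnSeries ℚ k) F = d)
    (hfg : ∃ t : Finset F, IntermediateField.adjoin (HahnSeries ℚ k) (t : Set F) = ⊤)
    {c : IntermediateField k Ω → ℚ} (hc : Wt (d : Cardinal.{u}) c) {ι : Type v} [Fintype ι]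
    (s : ι → F) :
    FT (⊤ : Subgroup (Ω ≃ₐ[k] Ω)) (JA (Set.univ : Set (Pt k Ω F)) s c) := by
  have h1 : Algebra.EssFiniteType (HahnSeries ℚ k)
      (⊤ : IntermediateField (HahnSeries ℚ k) F) := by
    rw [IntermediateField.essFiniteType_iff]
    exact hfg
  have h2 : Algebra.EssFiniteType (HahnSeries ℚ k) F :=
    (Algebra.EssFiniteType.iff_of_algEquiv
      (IntermediateField.topEquiv (F := HahnSeries ℚ k) (E := F))).1 h1
  refine FT_JA' hF Set.univ s ⟨Set.univ, ?_, ?_, ?_⟩ hc
  · intro φ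
    simp only [Set.mem_univ]
  · intro σ z _
    exact Set.mem_univ _
  · intro w
    have h3 : {g : ι → ℚ | zip w g ∈ (Set.univ : Set (ι → Ω × ℚ))} = Set.univ := by
      ext g
      simp only [Set.mem_ofPred_eq, Set.mem_univ]
    rw [h3]
    exact SL.univ

end

end KTS
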