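import Pool.Agent.KTS.F2

/-!
[KTS-FH] Points: extensions, rank inequality.
-/

set_option autoImplicit false

namespace KTS

noncomputable section

universe u v w

open Polynomial

variable {k Ω F : Type u} [Field k] [Field Ω] [Algebra k Ω] [Field F] [Algebra (HahnSeries ℚ k) F]

variable {F' N : Type u} [Field F'] [Field N] [Algebra (HahnSeries ℚ k) F']
  [Algebra (HahnSeries ℚ k) N] [Algebra F' N] [IsScalarTower (HahnSeries ℚ k) F' N]

/-- A ring homomorphism extending a point is a point. -/
def toPt (φ : Pt k Ω F') (ψ : N →+* HahnSeries ℚ Ω)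
    (h : ψ.comp (algebraMap F' N) = (φ : F' →+* HahnSeries ℚ Ω)) : Pt k Ω N :=
  { ψ with
    commutes' := by
      intro a
      show ψ (algebraMap (HahnSeries ℚ k) N a) = _
      rw [IsScalarTower.algebraMap_apply (HahnSeries ℚ k) F' N]
      have := congrArg (fun f => f (algebraMap (HahnSeries ℚ k) F' a)) h
      simp only [RingHom.comp_apply] at this
      rw [this]
      exact φ.commutes a }

@[simp] theorem toPt_apply (φ : Pt k Ω F') (ψ : N →+* HahnSeries ℚ Ω)
    (h : ψ.comp (algebraMap F' N) = (φ : F' →+* HahnSeries ℚ Ω)) (a : N) :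
    toPt φ ψ h a = ψ a := rfl

variable (F') in
/-- Restriction of a point. -/
def resPt (ψ : Pt k Ω N) : Pt k Ω F' := ψ.comp (IsScalarTower.toAlgHom (HahnSeries ℚ k) F' N)

@[simp] theorem resPt_apply (ψ : Pt k Ω N) (a : F') : resPt F' ψ a = ψ (algebraMap F' N a) := rfl

/-- Points extend to algebraic extensions. -/
theorem exists_pt_alg [IsAlgClosed Ω] [Algebra.IsAlgebraic F' N] (φ : Pt k Ω F') :
    ∃ ψ : Pt k Ω N, ∀ a : F', ψ (algebraMap F' N a) = φ a := by
  letI : Algebra F' (HahnSeries ℚ Ω) := (φ : F' →+* HahnSeries ℚ Ω).toAlgebra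
  let ψ : N →ₐ[F'] HahnSeries ℚ Ω := IsAlgClosed.lift
  refine ⟨toPt φ (ψ : N →+* HahnSeries ℚ Ω) ?_, ?_⟩
  · ext a : 1
    exact ψ.commutes a
  · intro a
    exact ψ.commutes a

/-- Points extend to `F'(x)`, `x` transcendental, with a prescribed transcendental value.
Proof. `x` transcendental over `F'`, `F = F'(x)`: `F` is the fraction field of `F'[x] ≃ F'[X]`. The ring hom
`F'[X] → HahnSeries ℚ Ω`, `p ↦ eval₂ φ y p`, is injective as `y` is transcendental over the image of `φ`; lift it
to `F` (`IsFractionRing.lift` / `IntermediateField.adjoin.liftSingleton`-style; or use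
`(hx.algebraicIndependent...).aevalEquivField`, or `RatFunc` and `IntermediateField.algEquiv...`), then
`toPt`. -/
theorem exists_pt_tr (φ : Pt k Ω F') (x : N) (hx : Transcendental F' x)
    (htop : IntermediateField.adjoin F' {x} = ⊤) (y : HahnSeries ℚ Ω)
    (hy : ∀ p : F'[X], p ≠ 0 → p.eval₂ (φ : F' →+* HahnSeries ℚ Ω) y ≠ 0) :
    ∃ ψ : Pt k Ω N, (∀ a : F', ψ (algebraMap F' N a) = φ a) ∧ ψ x = y := by
  classical
  letI : Algebra F'[X] N := (Polynomial.aeval (R := F') x).toRingHom.toAlgebra
  have hmap : ∀ p : F'[X], algebraMap F'[X] N p = Polynomial.aeval x p := fun p => rfl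
  have hinj : Function.Injective (algebraMap F'[X] N) :=
    (transcendental_iff_injective).1 hx
  haveI : FaithfulSMul F'[X] N := (faithfulSMul_iff_algebraMap_injective F'[X] N).2 hinj
  haveI : IsFractionRing F'[X] N := by
    refine IsFractionRing.of_field F'[X] N ?_
    intro z
    have hz : z ∈ IntermediateField.adjoin F' {x} := by
      rw [htop]; exact IntermediateField.mem_top
    obtain ⟨r, s, hrs⟩ := (IntermediateField.mem_adjoin_simple_iff F' z).1 hz
    exact ⟨r, s, by rw [hmap, hmap]; exact hrs⟩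
  have hg : Function.Injective (Polynomial.eval₂RingHom (φ : F' →+* HahnSeries ℚ Ω) y) := by
    rw [injective_iff_map_eq_zero]
    intro p hp
    by_contra hne
    exact hy p hne hp
  let ψ : N →+* HahnSeries ℚ Ω := IsFractionRing.lift hg
  have hψ : ∀ p : F'[X], ψ (Polynomial.aeval x p) = p.eval₂ (φ : F' →+* HahnSeries ℚ Ω) y := by
    intro p
    exact IsFractionRing.lift_algebraMap hg p
  have hψa : ∀ a : F', ψ (algebraMap F' N a) = φ a := by
    intro a
    have h1 := hψ (C a)
    rw [Polynomial.aeval_C, Polynomial.eval₂_C] at h1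
    exact h1
  refine ⟨toPt φ ψ ?_, ?_, ?_⟩
  · ext a : 1
    exact hψa a
  · intro a
    exact hψa a
  · have h1 := hψ X
    rw [Polynomial.aeval_X, Polynomial.eval₂_X] at h1
    exact h1

end

end KTS
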