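import Mathlib

/-!
# [KTS-G] semilinear sets over the rational numbers

`SL`: the Boolean algebra generated by the closed half-spaces of `ι → ℚ`.
-/

set_option autoImplicit false

namespace KTS

universe u v w x

variable {ι : Type u} {κ : Type v} [Fintype ι] [Fintype κ]

/-! ### affine functions -/

/-- affine functions -/
def Aff (g : (ι → ℚ) → ℚ) : Prop := ∃ (b : ι → ℚ) (d : ℚ), ∀ x, g x = ∑ i, b i * x i + d

/-- affine maps -/
def AffM {κ : Type v} (T : (ι → ℚ) → (κ → ℚ)) : Prop := ∀ k, Aff fun x => T x k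

theorem Aff.const (c : ℚ) : Aff (fun _ : ι → ℚ => c) := ⟨0, c, fun x => by simp⟩

theorem Aff.coord (i : ι) : Aff (fun x : ι → ℚ => x i) := by
  classical
  exact ⟨Pi.single i 1, 0, fun x => by simp [Pi.single_apply, ite_mul]⟩

theorem Aff.add {g h : (ι → ℚ) → ℚ} (hg : Aff g) (hh : Aff h) : Aff fun x => g x + h x := by
  obtain ⟨b, d, hb⟩ := hg
  obtain ⟨b', d', hb'⟩ := hh
  refine ⟨b + b', d + d', fun x => ?_⟩
  simp only [hb, hb', Pi.add_apply, add_mul, Finset.sum_add_distrib]
  ring

theorem Aff.mul_left {g : (ι → ℚ) → ℚ} (c : ℚ) (hg : Aff g) : Aff fun x => c * g x := by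
  obtain ⟨b, d, hb⟩ := hg
  refine ⟨c • b, c * d, fun x => ?_⟩
  simp only [hb, Pi.smul_apply, smul_eq_mul, mul_assoc, ← Finset.mul_sum]
  ring

theorem Aff.neg {g : (ι → ℚ) → ℚ} (hg : Aff g) : Aff fun x => -g x := by
  have := hg.mul_left (-1)
  simpa using this

theorem Aff.sub {g h : (ι → ℚ) → ℚ} (hg : Aff g) (hh : Aff h) : Aff fun x => g x - h x := by
  simp only [sub_eq_add_neg]
  exact hg.add hh.neg

theorem Aff.mul_right {g : (ι → ℚ) → ℚ} (c : ℚ) (hg : Aff g) : Aff fun x => g x * c := by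
  simp only [mul_comm _ c]
  exact hg.mul_left c

theorem Aff.sum {α : Type w} (s : Finset α) (g : α → (ι → ℚ) → ℚ) (h : ∀ a ∈ s, Aff (g a)) :
    Aff fun x => ∑ a ∈ s, g a x := by
  classical
  induction s using Finset.induction_on with
  | empty => simpa using Aff.const 0
  | insert a s ha ih =>
    simp only [Finset.sum_insert ha]
    exact (h a (Finset.mem_insert_self _ _)).add
      (ih fun b hb => h b (Finset.mem_insert_of_mem hb))

theorem Aff.comp {g : (κ → ℚ) → ℚ} {T : (ι → ℚ) → (κ → ℚ)} (hg : Aff g) (hT : AffM T) :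
    Aff fun x => g (T x) := by
  obtain ⟨b, d, hb⟩ := hg
  simp only [hb]
  exact (Aff.sum _ _ fun k _ => (hT k).mul_left (b k)).add (Aff.const d)

theorem AffM.comp {μ : Type w} {g : (κ → ℚ) → (μ → ℚ)} {T : (ι → ℚ) → (κ → ℚ)} (hg : AffM g)
    (hT : AffM T) : AffM fun x => g (T x) := fun k => (hg k).comp hT

theorem AffM.id : AffM (fun x : ι → ℚ => x) := fun i => Aff.coord i

theorem AffM.reindex {κ : Type v} (e : κ → ι) : AffM (fun (x : ι → ℚ) (k : κ) => x (e k)) :=
  fun k => Aff.coord (e k)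

omit [Fintype κ] in
theorem AffM.update [DecidableEq κ] {T : (ι → ℚ) → (κ → ℚ)} (hT : AffM T) (k : κ)
    {g : (ι → ℚ) → ℚ} (hg : Aff g) : AffM fun x => Function.update (T x) k (g x) := by
  intro j
  by_cases h : j = k
  · subst h
    simpa using hg
  · simpa [Function.update_of_ne h] using hT j

theorem AffM.elim {κ : Type v} {μ : Type w} {S : (ι → ℚ) → (κ → ℚ)} {T : (ι → ℚ) → (μ → ℚ)}
    (hS : AffM S) (hT : AffM T) : AffM fun x => Sum.elim (S x) (T x) := by
  rintro (k | k)
  · exact hS k
  · exact hT k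

theorem AffM.const {κ : Type v} (y : κ → ℚ) : AffM (fun _ : ι → ℚ => y) :=
  fun k => Aff.const (y k)

/-- the restriction of an affine function to a line in a coordinate direction -/
theorem Aff.line [DecidableEq ι] {g : (ι → ℚ) → ℚ} (hg : Aff g) (x : ι → ℚ) (i : ι) (t : ℚ) :
    g (Function.update x i t) =
      (g (Pi.single i 1) - g 0) * t + g (Function.update x i 0) := by
  obtain ⟨b, d, hb⟩ := hg
  have h1 : ∀ s : ℚ, ∑ j, b j * Function.update x i s j =
      b i * s + ∑ j ∈ Finset.univ.erase i, b j * x j := by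
    intro s
    rw [← Finset.add_sum_erase _ _ (Finset.mem_univ i), Function.update_self]
    congr 1
    refine Finset.sum_congr rfl fun j hj => ?_
    rw [Function.update_of_ne (Finset.ne_of_mem_erase hj)]
  have h2 : g (Pi.single i 1) - g 0 = b i := by
    rw [hb, hb]
    simp [Pi.single_apply]
  rw [h2, hb, hb, h1, h1]
  ring

/-! ### semilinear sets -/

/-- the closed half-space `∑ a i * x i ≤ c` -/
def hs (a : ι → ℚ) (c : ℚ) : Set (ι → ℚ) := {x | ∑ i, a i * x i ≤ c}

/-- the Boolean algebra generated by the closed half-spaces -/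
inductive SL {ι : Type u} [Fintype ι] : Set (ι → ℚ) → Prop
  | half (a : ι → ℚ) (c : ℚ) : SL (hs a c)
  | compl {s : Set (ι → ℚ)} : SL s → SL sᶜ
  | inter {s t : Set (ι → ℚ)} : SL s → SL t → SL (s ∩ t)

theorem SL.union {s t : Set (ι → ℚ)} (h : SL s) (h' : SL t) : SL (s ∪ t) := by
  have := (h.compl.inter h'.compl).compl
  rwa [Set.compl_inter, compl_compl, compl_compl] at this

theorem SL.le {g h : (ι → ℚ) → ℚ} (hg : Aff g) (hh : Aff h) : SL {x | g x ≤ h x} := by
  obtain ⟨b, d, hb⟩ := hg.sub hh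
  have : {x | g x ≤ h x} = hs b (-d) := by
    ext x
    have := hb x
    simp only [hs, Set.mem_ofPred_eq]
    constructor <;> intro h1 <;> linarith
  rw [this]
  exact SL.half _ _

theorem SL.not {p : (ι → ℚ) → Prop} (h : SL {x | p x}) : SL {x | ¬ p x} := h.compl

theorem SL.and {p q : (ι → ℚ) → Prop} (h : SL {x | p x}) (h' : SL {x | q x}) :
    SL {x | p x ∧ q x} := h.inter h'

theorem SL.or {p q : (ι → ℚ) → Prop} (h : SL {x | p x}) (h' : SL {x | q x}) :
    SL {x | p x ∨ q x} := h.union h'

theorem SL.imp {p q : (ι → ℚ) → Prop} (h : SL {x | p x}) (h' : SL {x | q x}) :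
    SL {x | p x → q x} := by
  have := h.not.or h'
  convert this using 3
  exact imp_iff_not_or

theorem SL.iff {p q : (ι → ℚ) → Prop} (h : SL {x | p x}) (h' : SL {x | q x}) :
    SL {x | p x ↔ q x} := by
  have := (h.imp h').and (h'.imp h)
  convert this using 3
  exact iff_iff_implies_and_implies

theorem SL.lt {g h : (ι → ℚ) → ℚ} (hg : Aff g) (hh : Aff h) : SL {x | g x < h x} := by
  have := (SL.le hh hg).not
  simpa only [not_le] using this

theorem SL.eq {g h : (ι → ℚ) → ℚ} (hg : Aff g) (hh : Aff h) : SL {x | g x = h x} := by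
  have := (SL.le hg hh).and (SL.le hh hg)
  convert this using 3
  exact le_antisymm_iff

theorem SL.univ : SL (Set.univ : Set (ι → ℚ)) := by
  have := SL.le (Aff.const (ι := ι) 0) (Aff.const 0)
  simpa using this

theorem SL.empty : SL (∅ : Set (ι → ℚ)) := by
  have := (SL.univ (ι := ι)).compl
  rwa [Set.compl_univ] at this

theorem SL.const (p : Prop) : SL {_x : ι → ℚ | p} := by
  by_cases h : p
  · simpa [h] using SL.univ
  · simpa [h] using SL.empty

theorem SL.diff {s t : Set (ι → ℚ)} (h : SL s) (h' : SL t) : SL (s \ t) := h.inter h'.compl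

theorem SL.biUnion {α : Type w} {A : Set α} (hA : A.Finite) {s : α → Set (ι → ℚ)}
    (h : ∀ a ∈ A, SL (s a)) : SL (⋃ a ∈ A, s a) := by
  induction A, hA using Set.Finite.induction_on with
  | empty => simpa using SL.empty
  | @insert a A ha hA ih =>
    rw [Set.biUnion_insert]
    exact (h a (Set.mem_insert _ _)).union (ih fun b hb => h b (Set.mem_insert_of_mem _ hb))

theorem SL.biInter {α : Type w} {A : Set α} (hA : A.Finite) {s : α → Set (ι → ℚ)}
    (h : ∀ a ∈ A, SL (s a)) : SL (⋂ a ∈ A, s a) := by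
  have := (SL.biUnion hA fun a ha => (h a ha).compl).compl
  simpa only [Set.compl_iUnion, compl_compl] using this

theorem SL.all {α : Type w} [Finite α] {p : α → (ι → ℚ) → Prop} (h : ∀ a, SL {x | p a x}) :
    SL {x | ∀ a, p a x} := by
  have := SL.biInter (Set.finite_univ (α := α)) (s := fun a => {x | p a x}) fun a _ => h a
  convert this using 1
  ext x
  simp

theorem SL.ex {α : Type w} [Finite α] {p : α → (ι → ℚ) → Prop} (h : ∀ a, SL {x | p a x}) :
    SL {x | ∃ a, p a x} := by
  have := SL.biUnion (Set.finite_univ (α := α)) (s := fun a => {x | p a x}) fun a _ => h a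
  convert this using 1
  ext x
  simp

theorem SL.preimage {s : Set (κ → ℚ)} (h : SL s) {T : (ι → ℚ) → (κ → ℚ)} (hT : AffM T) :
    SL (T ⁻¹' s) := by
  induction h with
  | half a c =>
    exact SL.le (Aff.sum Finset.univ _ fun k _ => (hT k).mul_left (a k)) (Aff.const c)
  | compl _ ih => exact ih.compl
  | inter _ _ ih ih' => exact ih.inter ih'

theorem SL.pre {p : (κ → ℚ) → Prop} (h : SL {x | p x}) {T : (ι → ℚ) → (κ → ℚ)} (hT : AffM T) :
    SL {x | p (T x)} := h.preimage hT

theorem SL.singleton (c : ι → ℚ) : SL ({c} : Set (ι → ℚ)) := by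
  have := SL.all fun i => SL.eq (Aff.coord (ι := ι) i) (Aff.const (c i))
  convert this using 1
  ext x
  simp [funext_iff]

/-! ### elimination of a variable -/

/-- points with all positions relative to `V` -/
theorem test_points (V : Finset ℚ) (t : ℚ) : ∃ t' : ℚ, (t' = 0 ∨ t' ∈ V ∨ (∃ v ∈ V, t' = v + 1) ∨
    (∃ v ∈ V, t' = v - 1) ∨ ∃ v ∈ V, ∃ w ∈ V, t' = (v + w) / 2) ∧
    ∀ v ∈ V, (t ≤ v ↔ t' ≤ v) ∧ (v ≤ t ↔ v ≤ t') := by
  by_cases ht : t ∈ V
  · exact ⟨t, Or.inr (Or.inl ht), fun v _ => ⟨Iff.rfl, Iff.rfl⟩⟩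
  have hne : ∀ v ∈ V, v ≠ t := fun v hv h => ht (h ▸ hv)
  rcases (V.filter (· < t)).eq_empty_or_nonempty with hl | hl
  · have hl' : ∀ v ∈ V, t < v := by
      intro v hv
      by_contra hc
      have : v ∈ V.filter (· < t) := Finset.mem_filter.2 ⟨hv, lt_of_le_of_ne (not_lt.1 hc) (hne v hv)⟩
      rw [hl] at this
      exact absurd this (Finset.notMem_empty _)
    rcases V.eq_empty_or_nonempty with hV | hV
    · exact ⟨0, Or.inl rfl, fun v hv => by rw [hV] at hv; exact absurd hv (Finset.notMem_empty _)⟩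
    · refine ⟨V.min' hV - 1, Or.inr (Or.inr (Or.inr (Or.inl ⟨_, V.min'_mem hV, rfl⟩))), ?_⟩
      intro v hv
      have h1 := hl' v hv
      have h2 := V.min'_le v hv
      constructor <;> constructor <;> intro h3 <;> linarith
  · rcases (V.filter (t < ·)).eq_empty_or_nonempty with hu | hu
    · have hu' : ∀ v ∈ V, v < t := by
        intro v hv
        by_contra hc
        have : v ∈ V.filter (t < ·) :=
          Finset.mem_filter.2 ⟨hv, lt_of_le_of_ne (not_lt.1 hc) (hne v hv).symm⟩
        rw [hu] at this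
        exact absurd this (Finset.notMem_empty _)
      have hV : V.Nonempty := hl.mono (Finset.filter_subset _ _)
      refine ⟨V.max' hV + 1, Or.inr (Or.inr (Or.inl ⟨_, V.max'_mem hV, rfl⟩)), ?_⟩
      intro v hv
      have h1 := hu' v hv
      have h2 := V.le_max' v hv
      constructor <;> constructor <;> intro h3 <;> linarith
    · have ha := Finset.mem_filter.1 ((V.filter (· < t)).max'_mem hl)
      have hb := Finset.mem_filter.1 ((V.filter (t < ·)).min'_mem hu)
      refine ⟨((V.filter (· < t)).max' hl + (V.filter (t < ·)).min' hu) / 2,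
        Or.inr (Or.inr (Or.inr (Or.inr ⟨_, ha.1, _, hb.1, rfl⟩))), ?_⟩
      intro v hv
      rcases lt_or_gt_of_ne (hne v hv) with h | h
      · have h1 := (V.filter (· < t)).le_max' v (Finset.mem_filter.2 ⟨hv, h⟩)
        have h2 := ha.2
        have h3 := hb.2
        constructor <;> constructor <;> intro h4 <;> linarith
      · have h1 := (V.filter (t < ·)).min'_le v (Finset.mem_filter.2 ⟨hv, h⟩)
        have h2 := ha.2
        have h3 := hb.2
        constructor <;> constructor <;> intro h4 <;> linarith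

/-- a semilinear set depends on a variable only through comparisons with affine functions -/
theorem SL.depends [DecidableEq ι] {s : Set (ι → ℚ)} (h : SL s) (i : ι) :
    ∃ G : Set ((ι → ℚ) → ℚ), G.Finite ∧ (∀ g ∈ G, Aff g) ∧ ∀ (x : ι → ℚ) (t t' : ℚ),
      (∀ g ∈ G, (t ≤ g x ↔ t' ≤ g x) ∧ (g x ≤ t ↔ g x ≤ t')) →
      (Function.update x i t ∈ s ↔ Function.update x i t' ∈ s) := by
  induction h with
  | half a c =>
    set g : (ι → ℚ) → ℚ := fun x => ∑ j, a j * x j with hg
    have hA : Aff g := Aff.sum Finset.univ _ fun k _ => (Aff.coord k).mul_left (a k)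
    set α := g (Pi.single i 1) - g 0 with hα
    have hA' : Aff fun x => (c - g (Function.update x i 0)) / α := by
      have := ((Aff.const c).sub (hA.comp (AffM.id.update i (Aff.const 0)))).mul_right (α⁻¹)
      simpa only [div_eq_mul_inv] using this
    refine ⟨{fun x => (c - g (Function.update x i 0)) / α}, Set.finite_singleton _, ?_, ?_⟩
    · rintro _ rfl
      exact hA'
    · intro x t t' hx
      have h1 := hx _ rfl
      have h2 : ∀ s : ℚ, Function.update x i s ∈ hs a c ↔
          α * s + g (Function.update x i 0) ≤ c := by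
        intro s
        rw [← hA.line x i s]
        exact Iff.rfl
      rw [h2, h2]
      rcases lt_trichotomy α 0 with h3 | h3 | h3
      · have h4 : ∀ s : ℚ, α * s + g (Function.update x i 0) ≤ c ↔
            (c - g (Function.update x i 0)) / α ≤ s := by
          intro s
          rw [div_le_iff_of_neg h3]
          constructor <;> intro h5 <;> linarith
        rw [h4, h4]
        exact h1.2
      · rw [h3, zero_mul, zero_mul]
      · have h4 : ∀ s : ℚ, α * s + g (Function.update x i 0) ≤ c ↔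
            s ≤ (c - g (Function.update x i 0)) / α := by
          intro s
          rw [le_div_iff₀ h3]
          constructor <;> intro h5 <;> linarith
        rw [h4, h4]
        exact h1.1
  | compl _ ih =>
    obtain ⟨G, h1, h2, h3⟩ := ih
    exact ⟨G, h1, h2, fun x t t' h => not_congr (h3 x t t' h)⟩
  | inter _ _ ih ih' =>
    obtain ⟨G, h1, h2, h3⟩ := ih
    obtain ⟨G', h1', h2', h3'⟩ := ih'
    refine ⟨G ∪ G', h1.union h1', ?_, fun x t t' h => ?_⟩
    · rintro g (hg | hg)
      exacts [h2 g hg, h2' g hg]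
    · exact and_congr (h3 x t t' fun g hg => h g (Or.inl hg))
        (h3' x t t' fun g hg => h g (Or.inr hg))

/-- elimination of one variable -/
theorem SL.elim1 [DecidableEq ι] {s : Set (ι → ℚ)} (h : SL s) (i : ι) :
    SL {x | ∃ t, Function.update x i t ∈ s} := by
  obtain ⟨G, hG, hA, hd⟩ := h.depends i
  set TP : Set ((ι → ℚ) → ℚ) := {fun _ => 0} ∪ G ∪ (fun g x => g x + 1) '' G ∪
    (fun g x => g x - 1) '' G ∪ Set.image2 (fun g h x => (g x + h x) / 2) G G with hTP
  have hfin : TP.Finite := ((((Set.finite_singleton _).union hG).union (hG.image _)).union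
    (hG.image _)).union (hG.image2 _ hG)
  have hAff : ∀ τ ∈ TP, Aff τ := by
    rintro τ ((((h1 | h1) | h1) | h1) | h1)
    · rw [Set.mem_singleton_iff.1 h1]
      exact Aff.const 0
    · exact hA τ h1
    · obtain ⟨g, hg, rfl⟩ := h1
      exact (hA g hg).add (Aff.const 1)
    · obtain ⟨g, hg, rfl⟩ := h1
      exact (hA g hg).sub (Aff.const 1)
    · obtain ⟨g, hg, g', hg', rfl⟩ := h1
      have := ((hA g hg).add (hA g' hg')).mul_right (2⁻¹)
      simpa only [div_eq_mul_inv] using this
  have key : {x | ∃ t, Function.update x i t ∈ s} =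
      ⋃ τ ∈ TP, {x | Function.update x i (τ x) ∈ s} := by
    ext x
    simp only [Set.mem_ofPred_eq, Set.mem_iUnion, exists_prop]
    constructor
    · rintro ⟨t, ht⟩
      classical
      obtain ⟨t', h1, h2⟩ := test_points (hG.toFinset.image fun g => g x) t
      have h3 : Function.update x i t' ∈ s := by
        refine (hd x t t' fun g hg => ?_).1 ht
        exact h2 (g x) (Finset.mem_image.2 ⟨g, hG.mem_toFinset.2 hg, rfl⟩)
      have hmem : ∀ v, v ∈ hG.toFinset.image (fun g => g x) → ∃ g ∈ G, g x = v := by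
        intro v hv
        obtain ⟨g, hg, rfl⟩ := Finset.mem_image.1 hv
        exact ⟨g, hG.mem_toFinset.1 hg, rfl⟩
      rcases h1 with h1 | h1 | ⟨v, hv, h1⟩ | ⟨v, hv, h1⟩ | ⟨v, hv, v', hv', h1⟩
      · refine ⟨fun _ => 0, Or.inl (Or.inl (Or.inl (Or.inl rfl))), ?_⟩
        rw [← h1]; exact h3
      · obtain ⟨g, hg, h4⟩ := hmem _ h1
        refine ⟨g, Or.inl (Or.inl (Or.inl (Or.inr hg))), ?_⟩
        rw [h4]; exact h3
      · obtain ⟨g, hg, h4⟩ := hmem _ hv
        refine ⟨fun x => g x + 1, Or.inl (Or.inl (Or.inr ⟨g, hg, rfl⟩)), ?_⟩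
        simp only [h4, ← h1]; exact h3
      · obtain ⟨g, hg, h4⟩ := hmem _ hv
        refine ⟨fun x => g x - 1, Or.inl (Or.inr ⟨g, hg, rfl⟩), ?_⟩
        simp only [h4, ← h1]; exact h3
      · obtain ⟨g, hg, h4⟩ := hmem _ hv
        obtain ⟨g', hg', h4'⟩ := hmem _ hv'
        refine ⟨fun x => (g x + g' x) / 2, Or.inr ⟨g, hg, g', hg', rfl⟩, ?_⟩
        simp only [h4, h4', ← h1]; exact h3
    · rintro ⟨τ, _, h1⟩
      exact ⟨_, h1⟩
  rw [key]
  exact SL.biUnion hfin fun τ hτ => h.preimage (AffM.id.update i (hAff τ hτ))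

/-- the set of points which agree with a point of `s` outside `A` -/
def elimA (A : Finset ι) (s : Set (ι → ℚ)) : Set (ι → ℚ) := {x | ∃ y ∈ s, ∀ j, j ∉ A → y j = x j}

omit [Fintype ι] in
theorem elimA_empty (s : Set (ι → ℚ)) : elimA ∅ s = s := by
  ext x
  constructor
  · rintro ⟨y, hy, h⟩
    have : y = x := funext fun j => h j (Finset.notMem_empty _)
    rwa [← this]
  · intro h
    exact ⟨x, h, fun _ _ => rfl⟩

omit [Fintype ι] in
theorem elimA_insert [DecidableEq ι] (A : Finset ι) (i : ι) (s : Set (ι → ℚ)) :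
    elimA (insert i A) s = {x | ∃ t, Function.update x i t ∈ elimA A s} := by
  ext x
  constructor
  · rintro ⟨y, hy, h⟩
    refine ⟨y i, y, hy, fun j hj => ?_⟩
    by_cases hji : j = i
    · subst hji
      rw [Function.update_self]
    · rw [Function.update_of_ne hji]
      refine h j fun h' => ?_
      rcases Finset.mem_insert.1 h' with h' | h'
      exacts [hji h', hj h']
  · rintro ⟨t, y, hy, h⟩
    refine ⟨y, hy, fun j hj => ?_⟩
    have h1 := h j fun h' => hj (Finset.mem_insert_of_mem h')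
    have h2 : j ≠ i := by
      rintro rfl
      exact hj (Finset.mem_insert_self _ _)
    rwa [Function.update_of_ne h2] at h1

theorem elimA_univ (s : Set (ι → ℚ)) (x : ι → ℚ) : x ∈ elimA Finset.univ s ↔ s.Nonempty := by
  constructor
  · rintro ⟨y, hy, _⟩
    exact ⟨y, hy⟩
  · rintro ⟨y, hy⟩
    exact ⟨y, hy, fun j hj => absurd (Finset.mem_univ j) hj⟩

/-- elimination of several variables -/
theorem SL.elimA {s : Set (ι → ℚ)} (h : SL s) (A : Finset ι) : SL (elimA A s) := by
  classical
  induction A using Finset.induction_on with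
  | empty => rwa [elimA_empty]
  | insert i A hi ih =>
    rw [elimA_insert]
    exact ih.elim1 i

/-- elimination of a block of variables -/
theorem SL.exv {p : (ι ⊕ κ → ℚ) → Prop} (h : SL {z | p z}) :
    SL {x : ι → ℚ | ∃ y : κ → ℚ, p (Sum.elim x y)} := by
  classical
  have h1 := (h.elimA (Finset.univ.filter fun j : ι ⊕ κ => j.isRight)).preimage
    (AffM.id.elim (AffM.const (ι := ι) (0 : κ → ℚ)))
  convert h1 using 1
  ext x
  constructor
  · rintro ⟨y, hy⟩
    refine ⟨Sum.elim x y, hy, ?_⟩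
    rintro (j | j) hj
    · rfl
    · exact absurd (by simp) hj
  · rintro ⟨z, hz, h2⟩
    refine ⟨fun k => z (Sum.inr k), ?_⟩
    have h3 : (Sum.elim x fun k => z (Sum.inr k)) = z := by
      funext j
      rcases j with j | j
      · have := h2 (Sum.inl j) (by simp)
        rw [this]
        rfl
      · rfl
    change p _
    rw [h3]
    exact hz

theorem SL.allv {p : (ι ⊕ κ → ℚ) → Prop} (h : SL {z | p z}) :
    SL {x : ι → ℚ | ∀ y : κ → ℚ, p (Sum.elim x y)} := by
  have := h.not.exv.not
  simpa only [not_exists, not_not] using this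

/-- projections of semilinear sets -/
theorem SL.image_inl {s : Set (ι ⊕ κ → ℚ)} (h : SL s) :
    SL ((fun z (i : ι) => z (Sum.inl i)) '' s) := by
  have h1 := SL.exv (p := fun z => z ∈ s) h
  convert h1 using 1
  ext x
  constructor
  · rintro ⟨z, hz, rfl⟩
    refine ⟨fun k => z (Sum.inr k), ?_⟩
    change Sum.elim _ _ ∈ s
    convert hz using 1
    funext j
    rcases j with j | j <;> rfl
  · rintro ⟨y, hy⟩
    exact ⟨_, hy, rfl⟩

end KTS
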