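import Pool.Agent.KTS.GA

/-!
# [KTS-G] polyhedra, elimination of variables, the Euler characteristic functional
-/

set_option autoImplicit false

namespace KTS

open Filter Topology

universe u v w

variable {ι : Type u} {κ : Type v} [Fintype ι] [Fintype κ]

/-- closed (possibly unbounded, possibly empty) polyhedra -/
def Polyh (X : Set (ι → ℚ)) : Prop :=
  ∃ G : Set ((ι → ℚ) → ℚ), G.Finite ∧ (∀ g ∈ G, Aff g) ∧ X = {x | ∀ g ∈ G, g x ≤ 0}

theorem Polyh.univ : Polyh (Set.univ : Set (ι → ℚ)) :=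
  ⟨∅, Set.finite_empty, by simp, by simp⟩

theorem Polyh.inter {X Y : Set (ι → ℚ)} (hX : Polyh X) (hY : Polyh Y) : Polyh (X ∩ Y) := by
  obtain ⟨G, h1, h2, rfl⟩ := hX
  obtain ⟨G', h1', h2', rfl⟩ := hY
  refine ⟨G ∪ G', h1.union h1', ?_, ?_⟩
  · rintro g (hg | hg)
    exacts [h2 g hg, h2' g hg]
  · ext x
    constructor
    · rintro ⟨h, h'⟩ g (hg | hg)
      exacts [h g hg, h' g hg]
    · intro h
      exact ⟨fun g hg => h g (Or.inl hg), fun g hg => h g (Or.inr hg)⟩

theorem Polyh.le {g h : (ι → ℚ) → ℚ} (hg : Aff g) (hh : Aff h) : Polyh {x | g x ≤ h x} := by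
  refine ⟨{fun x => g x - h x}, Set.finite_singleton _, ?_, ?_⟩
  · rintro _ rfl
    exact hg.sub hh
  · ext x
    simp

theorem Polyh.eq {g h : (ι → ℚ) → ℚ} (hg : Aff g) (hh : Aff h) : Polyh {x | g x = h x} := by
  have := (Polyh.le hg hh).inter (Polyh.le hh hg)
  convert this using 1
  ext x
  exact le_antisymm_iff

theorem Polyh.hs (a : ι → ℚ) (c : ℚ) : Polyh (hs a c) :=
  Polyh.le (Aff.sum Finset.univ _ fun k _ => (Aff.coord k).mul_left (a k)) (Aff.const c)

theorem Polyh.biInter {α : Type w} {A : Set α} (hA : A.Finite) {s : α → Set (ι → ℚ)}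
    (h : ∀ a ∈ A, Polyh (s a)) : Polyh (⋂ a ∈ A, s a) := by
  induction A, hA using Set.Finite.induction_on with
  | empty => simpa using Polyh.univ
  | @insert a A ha hA ih =>
    rw [Set.biInter_insert]
    exact (h a (Set.mem_insert _ _)).inter (ih fun b hb => h b (Set.mem_insert_of_mem _ hb))

theorem Polyh.all {α : Type w} [Finite α] {p : α → (ι → ℚ) → Prop} (h : ∀ a, Polyh {x | p a x}) :
    Polyh {x | ∀ a, p a x} := by
  have := Polyh.biInter (Set.finite_univ (α := α)) (s := fun a => {x | p a x}) fun a _ => h a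
  convert this using 1
  ext x
  simp

theorem Polyh.singleton (c : ι → ℚ) : Polyh ({c} : Set (ι → ℚ)) := by
  have := Polyh.all fun i => Polyh.eq (Aff.coord (ι := ι) i) (Aff.const (c i))
  convert this using 1
  ext x
  simp [funext_iff]

theorem Polyh.sl {X : Set (ι → ℚ)} (hX : Polyh X) : SL X := by
  obtain ⟨G, h1, h2, rfl⟩ := hX
  have := SL.biInter h1 (s := fun g => {x | g x ≤ 0}) fun g hg => SL.le (h2 g hg) (Aff.const 0)
  convert this using 1
  ext x
  simp

theorem Polyh.preimage {X : Set (κ → ℚ)} (hX : Polyh X) {T : (ι → ℚ) → (κ → ℚ)}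
    (hT : AffM T) : Polyh (T ⁻¹' X) := by
  obtain ⟨G, h1, h2, rfl⟩ := hX
  refine ⟨(fun g x => g (T x)) '' G, h1.image _, ?_, ?_⟩
  · rintro _ ⟨g, hg, rfl⟩
    exact (h2 g hg).comp hT
  · ext x
    simp

/-! ### systems of inequalities in one variable -/

/-- finite systems of inequalities in one variable -/
def IC (S : Set ℚ) : Prop := ∃ L : Set (ℚ × ℚ), L.Finite ∧ S = {t | ∀ p ∈ L, p.1 * t + p.2 ≤ 0}

/-- elimination of one variable -/
theorem one_elim {α : Type w} {G : Set α} (hG : G.Finite) (a r : α → ℚ) :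
    (∃ t : ℚ, ∀ g ∈ G, a g * t + r g ≤ 0) ↔
      (∀ g ∈ G, a g = 0 → r g ≤ 0) ∧
      ∀ g ∈ G, ∀ h ∈ G, 0 < a g → a h < 0 → a g * r h - a h * r g ≤ 0 := by
  constructor
  · rintro ⟨t, ht⟩
    refine ⟨fun g hg h0 => ?_, fun g hg h hh h1 h2 => ?_⟩
    · have := ht g hg
      rwa [h0, zero_mul, zero_add] at this
    · have h3 := ht g hg
      have h4 := ht h hh
      nlinarith
  · rintro ⟨h0, h1⟩
    have hP : {g ∈ G | 0 < a g}.Finite := hG.subset fun g hg => hg.1
    have hN : {g ∈ G | a g < 0}.Finite := hG.subset fun g hg => hg.1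
    rcases {g ∈ G | a g < 0}.eq_empty_or_nonempty with hNe | hNe
    · rcases {g ∈ G | 0 < a g}.eq_empty_or_nonempty with hPe | hPe
      · refine ⟨0, fun g hg => ?_⟩
        have h2 : a g = 0 := by
          rcases lt_trichotomy (a g) 0 with h | h | h
          · exact absurd (show g ∈ {g ∈ G | a g < 0} from ⟨hg, h⟩) (by rw [hNe]; exact fun h => h)
          · exact h
          · exact absurd (show g ∈ {g ∈ G | 0 < a g} from ⟨hg, h⟩) (by rw [hPe]; exact fun h => h)
        rw [h2, zero_mul, zero_add]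
        exact h0 g hg h2
      · obtain ⟨m, hm, hm'⟩ := Set.exists_min_image _ (fun g => -r g / a g) hP hPe
        refine ⟨-r m / a m, fun g hg => ?_⟩
        rcases lt_trichotomy (a g) 0 with h | h | h
        · exact absurd (show g ∈ {g ∈ G | a g < 0} from ⟨hg, h⟩) (by rw [hNe]; exact fun h => h)
        · rw [h, zero_mul, zero_add]
          exact h0 g hg h
        · have h2 := hm' g ⟨hg, h⟩
          have h3 : a g * (-r m / a m) ≤ a g * (-r g / a g) := mul_le_mul_of_nonneg_left h2 h.le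
          rw [mul_div_cancel₀ _ h.ne'] at h3
          linarith
    · obtain ⟨m, hm, hm'⟩ := Set.exists_max_image _ (fun g => -r g / a g) hN hNe
      refine ⟨-r m / a m, fun g hg => ?_⟩
      rcases lt_trichotomy (a g) 0 with h | h | h
      · have h2 := hm' g ⟨hg, h⟩
        have h3 : a g * (-r m / a m) ≤ a g * (-r g / a g) := mul_le_mul_of_nonpos_left h2 h.le
        rw [mul_div_cancel₀ _ h.ne] at h3
        linarith
      · rw [h, zero_mul, zero_add]
        exact h0 g hg h
      · have h2 := h1 g hg m hm.1 h hm.2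
        have h3 : a g * (-r m / a m) + r g = (a g * r m - a m * r g) / (-a m) := by
          have := hm.2.ne
          field_simp
          ring
        rw [h3]
        exact div_nonpos_of_nonpos_of_nonneg h2 (by linarith [hm.2])

theorem IC.ord {S : Set ℚ} (hS : IC S) {a b t : ℚ} (ha : a ∈ S) (hb : b ∈ S) (h : a ≤ t)
    (h' : t ≤ b) : t ∈ S := by
  obtain ⟨L, _, rfl⟩ := hS
  intro p hp
  have h1 := ha p hp
  have h2 := hb p hp
  rcases le_total p.1 0 with h3 | h3
  · have := mul_le_mul_of_nonpos_left h h3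
    linarith
  · have := mul_le_mul_of_nonneg_left h' h3
    linarith

theorem IC.top {S : Set ℚ} (hS : IC S) (hne : S.Nonempty) :
    (∃ b, IsGreatest S b) ∨ ∀ s ∈ S, ∀ t, s ≤ t → t ∈ S := by
  obtain ⟨L, hL, rfl⟩ := hS
  obtain ⟨s, hs⟩ := hne
  rcases {p ∈ L | 0 < p.1}.eq_empty_or_nonempty with he | he
  · refine Or.inr fun s hs t hst p hp => ?_
    have h1 : p.1 ≤ 0 := by
      by_contra hc
      exact absurd (show p ∈ {p ∈ L | 0 < p.1} from ⟨hp, not_le.1 hc⟩) (by rw [he]; exact fun h => h)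
    have h2 := mul_le_mul_of_nonpos_left hst h1
    have h3 := hs p hp
    linarith
  · obtain ⟨m, hm, hm'⟩ := Set.exists_min_image _ (fun p : ℚ × ℚ => -p.2 / p.1)
      (hL.subset fun g hg => hg.1) he
    have hup : ∀ t ∈ {t | ∀ p ∈ L, p.1 * t + p.2 ≤ 0}, t ≤ -m.2 / m.1 := by
      intro t ht
      have h1 := ht m hm.1
      rw [le_div_iff₀ hm.2]
      linarith
    refine Or.inl ⟨-m.2 / m.1, fun p hp => ?_, hup⟩
    rcases le_or_gt p.1 0 with h1 | h1
    · have h2 := hs p hp
      have h3 := mul_le_mul_of_nonpos_left (hup s hs) h1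
      linarith
    · have h2 := hm' p ⟨hp, h1⟩
      have h3 : p.1 * (-m.2 / m.1) ≤ p.1 * (-p.2 / p.1) := mul_le_mul_of_nonneg_left h2 h1.le
      rw [mul_div_cancel₀ _ h1.ne'] at h3
      linarith

theorem IC.neg {S : Set ℚ} (hS : IC S) : IC {t | -t ∈ S} := by
  obtain ⟨L, hL, rfl⟩ := hS
  refine ⟨(fun p => (-p.1, p.2)) '' L, hL.image _, ?_⟩
  ext t
  constructor
  · rintro h _ ⟨p, hp, rfl⟩
    have := h p hp
    rwa [mul_neg, ← neg_mul] at this
  · intro h p hp
    have := h _ ⟨p, hp, rfl⟩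
    rwa [mul_neg, ← neg_mul]

theorem IC.bot {S : Set ℚ} (hS : IC S) (hne : S.Nonempty) :
    (∃ b, IsLeast S b) ∨ ∀ s ∈ S, ∀ t, t ≤ s → t ∈ S := by
  obtain ⟨s, hs⟩ := hne
  rcases hS.neg.top ⟨-s, by simpa using hs⟩ with ⟨b, hb, hb'⟩ | h
  · refine Or.inl ⟨-b, hb, fun t ht => ?_⟩
    have := hb' (show -t ∈ {t | -t ∈ S} by simpa using ht)
    linarith
  · refine Or.inr fun s hs t hts => ?_
    have := h (-s) (by simpa using hs) (-t) (by linarith)
    simpa using this

open Classical in
/-- the indicator function with values in `ℚ` -/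
noncomputable def ind {α : Type w} (S : Set α) (t : α) : ℚ := if t ∈ S then 1 else 0

theorem ind_of {α : Type w} {S : Set α} {t : α} (h : t ∈ S) : ind S t = 1 := if_pos h

theorem ind_not {α : Type w} {S : Set α} {t : α} (h : t ∉ S) : ind S t = 0 := if_neg h

theorem ind_congr {α : Type w} {β : Type v} {S : Set α} {t : α} {S' : Set β} {t' : β}
    (h : t ∈ S ↔ t' ∈ S') : ind S t = ind S' t' := by
  by_cases h1 : t ∈ S
  · rw [ind_of h1, ind_of (h.1 h1)]
  · rw [ind_not h1, ind_not (fun h2 => h1 (h.2 h2))]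

open Classical in
/-- `1` if `X` is not empty, `0` otherwise -/
noncomputable def nz {α : Type w} (X : Set α) : ℚ := if X.Nonempty then 1 else 0

theorem nz_of {α : Type w} {X : Set α} (h : X.Nonempty) : nz X = 1 := if_pos h

theorem nz_not {α : Type w} {X : Set α} (h : ¬ X.Nonempty) : nz X = 0 := if_neg h

/-- the one-dimensional rule -/
theorem one_dim {S : Set ℚ} (hS : IC S) (hne : S.Nonempty) :
    ∃ E₀ : Finset ℚ, ∀ E : Finset ℚ, E₀ ⊆ E → ∀ᶠ δ in 𝓝[>] (0 : ℚ), ∀ᶠ M in atTop,
      ∑ t ∈ E, (ind S t - ind S (t + δ)) + ind S M = 1 := by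
  -- points which are not the greatest element
  have key : ∀ t : ℚ, ¬ IsGreatest S t → ∀ᶠ δ in 𝓝[>] (0 : ℚ), ind S t - ind S (t + δ) = 0 := by
    intro t ht
    have hpos : ∀ᶠ δ in 𝓝[>] (0 : ℚ), 0 < δ := eventually_mem_nhdsWithin
    have hsmall : ∀ c : ℚ, 0 < c → ∀ᶠ δ in 𝓝[>] (0 : ℚ), δ < c := fun c hc =>
      (eventually_lt_nhds hc).filter_mono nhdsWithin_le_nhds
    by_cases hmem : t ∈ S
    · obtain ⟨s, hs, hts⟩ : ∃ s ∈ S, t < s := by
        by_contra hc
        push Not at hc
        exact ht ⟨hmem, hc⟩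
      filter_upwards [hpos, hsmall (s - t) (by linarith)] with δ h1 h2
      have : t + δ ∈ S := hS.ord hmem hs (by linarith) (by linarith)
      rw [ind_of hmem, ind_of this, sub_self]
    · rw [ind_not hmem]
      by_cases habove : ∃ s ∈ S, s < t
      · obtain ⟨s, hs, hst⟩ := habove
        filter_upwards [hpos] with δ h1
        have : t + δ ∉ S := fun h => hmem (hS.ord hs h hst.le (by linarith))
        rw [ind_not this, sub_zero]
      · push Not at habove
        rcases hS.bot hne with ⟨a, ha, ha'⟩ | hdown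
        · have h1 : t < a := lt_of_le_of_ne (habove a ha) (fun h => hmem (h ▸ ha))
          filter_upwards [hsmall (a - t) (by linarith)] with δ h2
          have : t + δ ∉ S := fun h => by
            have := ha' h
            linarith
          rw [ind_not this, sub_zero]
        · obtain ⟨s, hs⟩ := hne
          exact absurd (hdown s hs t (habove s hs)) hmem
  rcases hS.top hne with ⟨b, hb⟩ | hup
  · refine ⟨{b}, fun E hE => ?_⟩
    have h1 : ∀ᶠ δ in 𝓝[>] (0 : ℚ), ∀ t ∈ E, ¬ IsGreatest S t → ind S t - ind S (t + δ) = 0 := by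
      rw [Filter.eventually_all_finset]
      intro t _
      by_cases ht : IsGreatest S t
      · exact Eventually.of_forall fun δ h => absurd ht h
      · filter_upwards [key t ht] with δ h _
        exact h
    filter_upwards [h1, (eventually_mem_nhdsWithin : ∀ᶠ δ in 𝓝[>] (0 : ℚ), δ ∈ Set.Ioi 0)]
      with δ h2 h3
    filter_upwards [eventually_gt_atTop b] with M hM
    have h4 : M ∉ S := fun h => by
      have := hb.2 h
      linarith
    have h3' : (0 : ℚ) < δ := h3
    have h5 : b + δ ∉ S := fun h => by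
      have := hb.2 h
      linarith
    rw [ind_not h4, add_zero, Finset.sum_eq_single_of_mem b (hE (Finset.mem_singleton_self b)),
      ind_of hb.1, ind_not h5, sub_zero]
    intro t ht htb
    exact h2 t ht fun h => htb (h.unique hb)
  · refine ⟨∅, fun E _ => ?_⟩
    obtain ⟨s, hs⟩ := hne
    have h0 : ∀ t, ¬ IsGreatest S t := by
      intro t ht
      have h1 := hup t ht.1 (t + 1) (by linarith)
      have h2 := ht.2 h1
      linarith
    have h1 : ∀ᶠ δ in 𝓝[>] (0 : ℚ), ∀ t ∈ E, ind S t - ind S (t + δ) = 0 := by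
      rw [Filter.eventually_all_finset]
      intro t _
      exact key t (h0 t)
    filter_upwards [h1] with δ h2
    filter_upwards [eventually_ge_atTop s] with M hM
    rw [Finset.sum_eq_zero h2, zero_add]
    exact ind_of (hup s hs M hM)

/-- linear relations between indicator functions in one variable -/
theorem one_rel {α : Type w} (J : Finset α) (c : α → ℚ) (S : α → Set ℚ)
    (hS : ∀ j ∈ J, IC (S j)) (h : ∀ t, ∑ j ∈ J, c j * ind (S j) t = 0) :
    ∑ j ∈ J, c j * nz (S j) = 0 := by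
  classical
  set J' := J.filter fun j => (S j).Nonempty with hJ'
  have h1 : ∀ j ∈ J', ∃ E₀ : Finset ℚ, ∀ E : Finset ℚ, E₀ ⊆ E → ∀ᶠ δ in 𝓝[>] (0 : ℚ),
      ∀ᶠ M in atTop, ∑ t ∈ E, (ind (S j) t - ind (S j) (t + δ)) + ind (S j) M = 1 := by
    intro j hj
    rw [hJ', Finset.mem_filter] at hj
    exact one_dim (hS j hj.1) hj.2
  choose! E₀ hE₀ using h1
  have h2 : ∀ᶠ δ in 𝓝[>] (0 : ℚ), ∀ j ∈ J', ∀ᶠ M in atTop,
      ∑ t ∈ J'.biUnion E₀, (ind (S j) t - ind (S j) (t + δ)) + ind (S j) M = 1 := by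
    rw [Filter.eventually_all_finset]
    intro j hj
    exact hE₀ j hj _ (Finset.subset_biUnion_of_mem E₀ hj)
  obtain ⟨δ, hδ⟩ := h2.exists
  have h3 : ∀ᶠ M : ℚ in atTop, ∀ j ∈ J',
      ∑ t ∈ J'.biUnion E₀, (ind (S j) t - ind (S j) (t + δ)) + ind (S j) M = 1 := by
    rw [Filter.eventually_all_finset]
    exact hδ
  obtain ⟨M, hM⟩ := h3.exists
  have h4 : ∀ t, ∑ j ∈ J', c j * ind (S j) t = 0 := by
    intro t
    rw [← h t]
    refine Finset.sum_subset (Finset.filter_subset _ _) fun j hj hj' => ?_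
    have : ¬ (S j).Nonempty := fun h => hj' (Finset.mem_filter.2 ⟨hj, h⟩)
    rw [Set.not_nonempty_iff_eq_empty.1 this, ind_not (Set.notMem_empty _), mul_zero]
  calc ∑ j ∈ J, c j * nz (S j)
      = ∑ j ∈ J', c j * nz (S j) := by
        refine (Finset.sum_subset (Finset.filter_subset _ _) fun j hj hj' => ?_).symm
        have : ¬ (S j).Nonempty := fun h => hj' (Finset.mem_filter.2 ⟨hj, h⟩)
        rw [nz_not this, mul_zero]
    _ = ∑ j ∈ J', c j * (∑ t ∈ J'.biUnion E₀, (ind (S j) t - ind (S j) (t + δ)) +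
        ind (S j) M) := by
        refine Finset.sum_congr rfl fun j hj => ?_
        have : (S j).Nonempty := (Finset.mem_filter.1 hj).2
        rw [hM j hj, nz_of this]
    _ = ∑ t ∈ J'.biUnion E₀, (∑ j ∈ J', c j * ind (S j) t - ∑ j ∈ J', c j * ind (S j) (t + δ)) +
        ∑ j ∈ J', c j * ind (S j) M := by
        simp only [mul_add, Finset.mul_sum, mul_sub, Finset.sum_add_distrib,
          Finset.sum_sub_distrib]
        rw [Finset.sum_comm, Finset.sum_comm (s := J') (t := J'.biUnion E₀)]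
    _ = 0 := by
        simp only [h4, sub_self, Finset.sum_const_zero, add_zero]

/-! ### Fourier-Motzkin elimination -/

/-- the slices of a polyhedron in a coordinate direction -/
theorem Polyh.slice [DecidableEq ι] {X : Set (ι → ℚ)} (hX : Polyh X) (x : ι → ℚ) (i : ι) :
    IC {t | Function.update x i t ∈ X} := by
  obtain ⟨G, h1, h2, rfl⟩ := hX
  refine ⟨(fun g => (g (Pi.single i 1) - g 0, g (Function.update x i 0))) '' G, h1.image _, ?_⟩
  ext t
  constructor
  · rintro h _ ⟨g, hg, rfl⟩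
    have := h g hg
    rwa [(h2 g hg).line x i t] at this
  · intro h g hg
    rw [(h2 g hg).line x i t]
    exact h _ ⟨g, hg, rfl⟩

/-- Fourier-Motzkin elimination of one variable -/
theorem Polyh.elim1 [DecidableEq ι] {X : Set (ι → ℚ)} (hX : Polyh X) (i : ι) :
    Polyh {x | ∃ t, Function.update x i t ∈ X} := by
  obtain ⟨G, h1, h2, rfl⟩ := hX
  set a : ((ι → ℚ) → ℚ) → ℚ := fun g => g (Pi.single i 1) - g 0 with ha
  have hr : ∀ g ∈ G, Aff fun x => g (Function.update x i 0) := fun g hg =>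
    (h2 g hg).comp (AffM.id.update i (Aff.const 0))
  have key : {x | ∃ t, Function.update x i t ∈ {x | ∀ g ∈ G, g x ≤ 0}} =
      (⋂ g ∈ {g ∈ G | a g = 0}, {x | g (Function.update x i 0) ≤ 0}) ∩
      ⋂ g ∈ {g ∈ G | 0 < a g}, ⋂ h ∈ {h ∈ G | a h < 0},
        {x | a g * h (Function.update x i 0) - a h * g (Function.update x i 0) ≤ 0} := by
    ext x
    have h3 := one_elim h1 a (fun g => g (Function.update x i 0))
    have h4 : x ∈ {x | ∃ t, Function.update x i t ∈ {x | ∀ g ∈ G, g x ≤ 0}} ↔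
        ∃ t : ℚ, ∀ g ∈ G, a g * t + g (Function.update x i 0) ≤ 0 := by
      refine exists_congr fun t => forall₂_congr fun g hg => ?_
      rw [(h2 g hg).line x i t]
    rw [h4, h3]
    simp only [Set.mem_inter_iff, Set.mem_iInter, Set.mem_ofPred_eq]
    constructor
    · rintro ⟨h5, h6⟩
      exact ⟨fun g hg => h5 g hg.1 hg.2, fun g hg h hh => h6 g hg.1 h hh.1 hg.2 hh.2⟩
    · rintro ⟨h5, h6⟩
      exact ⟨fun g hg h7 => h5 g ⟨hg, h7⟩, fun g hg h hh h7 h8 => h6 g ⟨hg, h7⟩ h ⟨hh, h8⟩⟩
  rw [key]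
  refine (Polyh.biInter (h1.subset fun g hg => hg.1) fun g hg => Polyh.le (hr g hg.1)
    (Aff.const 0)).inter (Polyh.biInter (h1.subset fun g hg => hg.1) fun g hg =>
    Polyh.biInter (h1.subset fun g hg => hg.1) fun h hh => ?_)
  exact Polyh.le (((hr h hh.1).mul_left _).sub ((hr g hg.1).mul_left _)) (Aff.const 0)

theorem Polyh.elimA {X : Set (ι → ℚ)} (hX : Polyh X) (A : Finset ι) : Polyh (elimA A X) := by
  classical
  induction A using Finset.induction_on with
  | empty => rwa [elimA_empty]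
  | insert i A hi ih =>
    rw [elimA_insert]
    exact ih.elim1 i

/-- projections of polyhedra -/
theorem Polyh.exv {p : (ι ⊕ κ → ℚ) → Prop} (h : Polyh {z | p z}) :
    Polyh {x : ι → ℚ | ∃ y : κ → ℚ, p (Sum.elim x y)} := by
  classical
  have h1 := (h.elimA (Finset.univ.filter fun j : ι ⊕ κ => j.isRight)).preimage
    (AffM.id.elim (AffM.const (ι := ι) (0 : κ → ℚ)))
  convert h1 using 1
  ext x
  constructor
  · rintro ⟨y, hy⟩
    refine ⟨Sum.elim x y, hy, ?_⟩
    rintro (j | j) hj
    · rfl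
    · exact absurd (by simp) hj
  · rintro ⟨z, hz, h2⟩
    refine ⟨fun k => z (Sum.inr k), ?_⟩
    have h3 : (Sum.elim x fun k => z (Sum.inr k)) = z := by
      funext j
      rcases j with j | j
      · have := h2 (Sum.inl j) (by simp)
        rw [this]
        rfl
      · rfl
    change p _
    rw [h3]
    exact hz

/-! ### the functional -/

/-- elimination of variables in a linear relation -/
theorem elim_rel {α : Type w} (J : Finset α) (c : α → ℚ) (X : α → Set (ι → ℚ))
    (hX : ∀ j ∈ J, Polyh (X j)) (h : ∀ x, ∑ j ∈ J, c j * ind (X j) x = 0) (A : Finset ι) :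
    ∀ x, ∑ j ∈ J, c j * ind (elimA A (X j)) x = 0 := by
  classical
  induction A using Finset.induction_on with
  | empty =>
    simpa only [elimA_empty] using h
  | insert i A hi ih =>
    intro x
    have h1 := one_rel J c (fun j => {t | Function.update x i t ∈ elimA A (X j)})
      (fun j hj => ((hX j hj).elimA A).slice x i) (fun t => by
        rw [← ih (Function.update x i t)]
        refine Finset.sum_congr rfl fun j _ => ?_
        congr 1)
    rw [← h1]
    refine Finset.sum_congr rfl fun j _ => ?_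
    congr 1
    have h2 : x ∈ elimA (insert i A) (X j) ↔ {t | Function.update x i t ∈ elimA A (X j)}.Nonempty := by
      rw [elimA_insert]
      exact Iff.rfl
    by_cases h3 : x ∈ elimA (insert i A) (X j)
    · rw [ind_of h3, nz_of (h2.1 h3)]
    · rw [ind_not h3, nz_not fun h4 => h3 (h2.2 h4)]

theorem poly_rel {α : Type w} (J : Finset α) (c : α → ℚ) (X : α → Set (ι → ℚ))
    (hX : ∀ j ∈ J, Polyh (X j)) (h : ∀ x, ∑ j ∈ J, c j * ind (X j) x = 0) :
    ∑ j ∈ J, c j * nz (X j) = 0 := by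
  have h1 := elim_rel J c X hX h Finset.univ 0
  rw [← h1]
  refine Finset.sum_congr rfl fun j _ => ?_
  congr 1
  by_cases h3 : (X j).Nonempty
  · rw [ind_of ((elimA_univ (X j) 0).2 h3), nz_of h3]
  · rw [ind_not fun h4 => h3 ((elimA_univ (X j) 0).1 h4), nz_not h3]

theorem exists_chi (ι : Type u) [Fintype ι] : ∃ φ : ((ι → ℚ) → ℚ) →ₗ[ℚ] ℚ,
    ∀ X : Set (ι → ℚ), Polyh X → X.Nonempty → φ (ind X) = 1 := by
  classical
  set v : {X : Set (ι → ℚ) // Polyh X} → ((ι → ℚ) → ℚ) := fun X => ind X.1 with hv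
  set g : {X : Set (ι → ℚ) // Polyh X} → ℚ := fun X => nz X.1 with hg
  have hker : LinearMap.ker (Finsupp.linearCombination ℚ v) ≤
      LinearMap.ker (Finsupp.linearCombination ℚ g) := by
    intro c hc
    rw [LinearMap.mem_ker] at hc ⊢
    rw [Finsupp.linearCombination_apply, Finsupp.sum] at hc ⊢
    refine poly_rel c.support c (fun X => X.1) (fun X _ => X.2) fun x => ?_
    have h0 := congrFun hc x
    rw [Finset.sum_apply] at h0
    exact h0
  -- a section
  obtain ⟨ψ, hψ⟩ : ∃ ψ : ((ι → ℚ) → ℚ) →ₗ[ℚ] ({X : Set (ι → ℚ) // Polyh X} →₀ ℚ),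
      ∀ c, Finsupp.linearCombination ℚ v (ψ (Finsupp.linearCombination ℚ v c)) =
        Finsupp.linearCombination ℚ v c := by
    obtain ⟨s, hs⟩ := (Finsupp.linearCombination ℚ v).rangeRestrict.exists_rightInverse_of_surjective
      (LinearMap.range_rangeRestrict _)
    obtain ⟨ψ, hψ⟩ := LinearMap.exists_extend s
    refine ⟨ψ, fun c => ?_⟩
    have h1 : ψ (Finsupp.linearCombination ℚ v c) =
        s ⟨Finsupp.linearCombination ℚ v c, LinearMap.mem_range_self _ c⟩ := by
      rw [← hψ]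
      rfl
    have h2 := congrArg (fun f => f ⟨Finsupp.linearCombination ℚ v c,
      LinearMap.mem_range_self _ c⟩) hs
    have h3 := congrArg Subtype.val h2
    rw [h1]
    exact h3
  refine ⟨(Finsupp.linearCombination ℚ g).comp ψ, fun X hX hne => ?_⟩
  have h1 : ind X = Finsupp.linearCombination ℚ v (Finsupp.single ⟨X, hX⟩ 1) := by
    rw [Finsupp.linearCombination_single, one_smul]
  have h2 : ψ (ind X) - Finsupp.single ⟨X, hX⟩ 1 ∈ LinearMap.ker (Finsupp.linearCombination ℚ v) := by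
    rw [LinearMap.mem_ker, map_sub, sub_eq_zero, h1]
    exact hψ _
  have h3 := hker h2
  rw [LinearMap.mem_ker, map_sub, sub_eq_zero] at h3
  rw [LinearMap.comp_apply, h3, Finsupp.linearCombination_single, one_smul]
  exact nz_of hne

/-- the Euler characteristic functional: a linear functional on all functions, with value `1` on
the indicator functions of the nonempty closed polyhedra -/
noncomputable def I (ι : Type u) [Fintype ι] : ((ι → ℚ) → ℚ) →ₗ[ℚ] ℚ := (exists_chi ι).choose

theorem I_poly {X : Set (ι → ℚ)} (hX : Polyh X) (hne : X.Nonempty) : I ι (ind X) = 1 :=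
  (exists_chi ι).choose_spec X hX hne

end KTS
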