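import Pool.Agent.KTS.GB

/-!
# [KTS-G] constructible functions, Fubini, pushforward
-/

set_option autoImplicit false

namespace KTS

universe u v w x

variable {ι : Type u} {κ : Type v} [Fintype ι] [Fintype κ]

/-! ### functions with finitely many values and semilinear level sets -/

/-- functions with finitely many values and semilinear level sets -/
def SF {α : Type w} (f : (ι → ℚ) → α) : Prop := (Set.range f).Finite ∧ ∀ c, SL (f ⁻¹' {c})

/-- the constructible functions with rational values -/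
def CF (f : (ι → ℚ) → ℚ) : Prop := SF f

theorem SF.pre_set {α : Type w} {f : (ι → ℚ) → α} (hf : SF f) (A : Set α) : SL (f ⁻¹' A) := by
  have h1 : f ⁻¹' A = ⋃ c ∈ Set.range f ∩ A, f ⁻¹' {c} := by
    ext x
    simp
  rw [h1]
  exact SL.biUnion (hf.1.subset Set.inter_subset_left) fun c _ => hf.2 c

theorem SF.setOf {α : Type w} {f : (ι → ℚ) → α} (hf : SF f) (p : α → Prop) :
    SL {x | p (f x)} := hf.pre_set {a | p a}

theorem SF.map {α : Type w} {β : Type x} {f : (ι → ℚ) → α} (hf : SF f) (h : α → β) :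
    SF fun x => h (f x) := by
  refine ⟨?_, fun c => ?_⟩
  · have := hf.1.image h
    rwa [← Set.range_comp] at this
  · exact hf.pre_set (h ⁻¹' {c})

theorem SF.prod {α : Type w} {β : Type x} {f : (ι → ℚ) → α} {g : (ι → ℚ) → β} (hf : SF f)
    (hg : SF g) : SF fun x => (f x, g x) := by
  refine ⟨?_, fun c => ?_⟩
  · refine (hf.1.prod hg.1).subset ?_
    rintro _ ⟨x, rfl⟩
    exact ⟨⟨x, rfl⟩, ⟨x, rfl⟩⟩
  · have := (hf.2 c.1).inter (hg.2 c.2)
    convert this using 1
    ext x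
    simp [Prod.ext_iff]

theorem SF.map₂ {α : Type w} {β : Type x} {γ : Type*} {f : (ι → ℚ) → α} {g : (ι → ℚ) → β}
    (hf : SF f) (hg : SF g) (h : α → β → γ) : SF fun x => h (f x) (g x) :=
  (hf.prod hg).map fun p => h p.1 p.2

theorem SF.pi {α : Type w} [Finite α] {β : α → Type x} {f : ∀ a, (ι → ℚ) → β a}
    (hf : ∀ a, SF (f a)) : SF fun x a => f a x := by
  refine ⟨?_, fun c => ?_⟩
  · refine (Set.Finite.pi' fun a => (hf a).1).subset ?_
    rintro _ ⟨x, rfl⟩ a
    exact ⟨x, rfl⟩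
  · have := SL.all fun a => (hf a).2 (c a)
    convert this using 1
    ext x
    simp [funext_iff]

theorem SF.const {α : Type w} (a : α) : SF (fun _ : ι → ℚ => a) := by
  refine ⟨(Set.finite_singleton a).subset ?_, fun c => ?_⟩
  · rintro _ ⟨x, rfl⟩
    rfl
  · exact SL.const (a ∈ ({c} : Set α))

theorem SF.comp {α : Type w} {f : (κ → ℚ) → α} (hf : SF f) {T : (ι → ℚ) → (κ → ℚ)}
    (hT : AffM T) : SF fun x => f (T x) := by
  refine ⟨hf.1.subset ?_, fun c => (hf.2 c).preimage hT⟩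
  rintro _ ⟨x, rfl⟩
  exact ⟨T x, rfl⟩

/-- functions which are constant on the members of a finite cover by semilinear sets -/
theorem SF.of_cover {α : Type w} {β : Type x} {A : Set β} (hA : A.Finite) {s : β → Set (ι → ℚ)}
    (hs : ∀ b ∈ A, SL (s b)) (hc : ∀ x, ∃ b ∈ A, x ∈ s b) {f : (ι → ℚ) → α}
    (hf : ∀ b ∈ A, ∀ x ∈ s b, ∀ y ∈ s b, f x = f y) : SF f := by
  classical
  refine ⟨?_, fun c => ?_⟩
  · set A' : Set β := {b ∈ A | (s b).Nonempty} with hA'
    have h1 : ∀ b ∈ A', ∃ x, x ∈ s b := fun b hb => hb.2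
    choose! g hg using h1
    refine ((hA.subset fun b hb => hb.1 : A'.Finite).image fun b => f (g b)).subset ?_
    rintro _ ⟨x, rfl⟩
    obtain ⟨b, hb, hx⟩ := hc x
    exact ⟨b, ⟨hb, x, hx⟩, hf b hb _ (hg b ⟨hb, x, hx⟩) _ hx⟩
  · have h1 : f ⁻¹' {c} = ⋃ b ∈ {b ∈ A | s b ⊆ f ⁻¹' {c}}, s b := by
      ext x
      simp only [Set.mem_iUnion, exists_prop]
      constructor
      · intro hx
        obtain ⟨b, hb, hxb⟩ := hc x
        refine ⟨b, ⟨hb, fun y hy => ?_⟩, hxb⟩
        have := hf b hb y hy x hxb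
        rw [Set.mem_preimage, this]
        exact hx
      · rintro ⟨b, ⟨_, hb⟩, hxb⟩
        exact hb hxb
    rw [h1]
    exact SL.biUnion (hA.subset fun b hb => hb.1) fun b hb => hs b hb.1

open Classical in
theorem SF.ite {α : Type w} {p : (ι → ℚ) → Prop} (hp : SL {x | p x}) {f g : (ι → ℚ) → α}
    (hf : SF f) (hg : SF g) : SF fun x => if p x then f x else g x := by
  refine ⟨(hf.1.union hg.1).subset ?_, fun c => ?_⟩
  · rintro _ ⟨x, rfl⟩
    by_cases h : p x
    · simp only [if_pos h]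
      exact Or.inl ⟨x, rfl⟩
    · simp only [if_neg h]
      exact Or.inr ⟨x, rfl⟩
  · have := (hp.and (hf.2 c)).or (hp.not.and (hg.2 c))
    convert this using 1
    ext x
    by_cases h : p x
    · simp [h]
    · simp [h]

theorem CF.const (c : ℚ) : CF (fun _ : ι → ℚ => c) := SF.const c

theorem CF.ind {s : Set (ι → ℚ)} (hs : SL s) : CF (ind s) := by
  classical
  have h1 := SF.ite (p := fun x => x ∈ s) hs (SF.const (1 : ℚ)) (SF.const (0 : ℚ))
  have h2 : KTS.ind s = fun x => if x ∈ s then (1 : ℚ) else 0 := by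
    funext x
    by_cases h : x ∈ s
    · rw [ind_of h, if_pos h]
    · rw [ind_not h, if_neg h]
  unfold CF
  rw [h2]
  exact h1

theorem CF.add {f g : (ι → ℚ) → ℚ} (hf : CF f) (hg : CF g) : CF fun x => f x + g x :=
  SF.map₂ hf hg _

theorem CF.sub {f g : (ι → ℚ) → ℚ} (hf : CF f) (hg : CF g) : CF fun x => f x - g x :=
  SF.map₂ hf hg _

theorem CF.mul {f g : (ι → ℚ) → ℚ} (hf : CF f) (hg : CF g) : CF fun x => f x * g x :=
  SF.map₂ hf hg _

theorem CF.mul_left {f : (ι → ℚ) → ℚ} (c : ℚ) (hf : CF f) : CF fun x => c * f x :=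
  SF.map hf _

theorem CF.neg {f : (ι → ℚ) → ℚ} (hf : CF f) : CF fun x => -f x := SF.map hf _

theorem CF.sum {α : Type w} (s : Finset α) {f : α → (ι → ℚ) → ℚ} (h : ∀ a ∈ s, CF (f a)) :
    CF fun x => ∑ a ∈ s, f a x := by
  classical
  induction s using Finset.induction_on with
  | empty => simpa using CF.const 0
  | insert a s ha ih =>
    simp only [Finset.sum_insert ha]
    exact (h a (Finset.mem_insert_self _ _)).add
      (ih fun b hb => h b (Finset.mem_insert_of_mem hb))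

theorem CF.comp {f : (κ → ℚ) → ℚ} (hf : CF f) {T : (ι → ℚ) → (κ → ℚ)} (hT : AffM T) :
    CF fun x => f (T x) := SF.comp hf hT

/-! ### the functions of `CF` are linear combinations of indicator functions of polyhedra -/

/-- the span of the indicator functions of the polyhedra -/
def PS (ι : Type u) [Fintype ι] : Submodule ℚ ((ι → ℚ) → ℚ) :=
  Submodule.span ℚ {f | ∃ X : Set (ι → ℚ), Polyh X ∧ f = ind X}

theorem ind_mem_PS {X : Set (ι → ℚ)} (hX : Polyh X) : ind X ∈ PS ι :=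
  Submodule.subset_span ⟨X, hX, rfl⟩

theorem ind_inter {α : Type w} (X Y : Set α) : ind (X ∩ Y) = ind X * ind Y := by
  funext x
  rw [Pi.mul_apply]
  by_cases h : x ∈ X
  · by_cases h' : x ∈ Y
    · rw [ind_of h, ind_of h', ind_of (show x ∈ X ∩ Y from ⟨h, h'⟩), one_mul]
    · rw [ind_not h', ind_not (fun h2 => h' h2.2), mul_zero]
  · rw [ind_not h, ind_not (fun h2 => h h2.1), zero_mul]

theorem ind_compl {α : Type w} (X : Set α) : ind Xᶜ = 1 - ind X := by
  funext x
  rw [Pi.sub_apply, Pi.one_apply]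
  by_cases h : x ∈ X
  · rw [ind_of h, ind_not (fun h2 : x ∈ Xᶜ => h2 h), sub_self]
  · rw [ind_not h, ind_of (show x ∈ Xᶜ from h), sub_zero]

theorem ind_univ {α : Type w} : ind (Set.univ : Set α) = 1 := by
  funext x
  exact ind_of (Set.mem_univ x)

theorem PS.mul {f g : (ι → ℚ) → ℚ} (hf : f ∈ PS ι) (hg : g ∈ PS ι) : f * g ∈ PS ι := by
  refine Submodule.span_induction₂ (p := fun f g _ _ => f * g ∈ PS ι) ?_ ?_ ?_ ?_ ?_ ?_ ?_ hf hg
  · rintro _ _ ⟨X, hX, rfl⟩ ⟨Y, hY, rfl⟩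
    rw [← ind_inter]
    exact ind_mem_PS (hX.inter hY)
  · intro y _
    rw [zero_mul]
    exact Submodule.zero_mem _
  · intro y _
    rw [mul_zero]
    exact Submodule.zero_mem _
  · intro x y z _ _ _ h1 h2
    rw [add_mul]
    exact Submodule.add_mem _ h1 h2
  · intro x y z _ _ _ h1 h2
    rw [mul_add]
    exact Submodule.add_mem _ h1 h2
  · intro c x y _ _ h
    rw [smul_mul_assoc]
    exact Submodule.smul_mem _ _ h
  · intro c x y _ _ h
    rw [mul_smul_comm]
    exact Submodule.smul_mem _ _ h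

theorem SL.mem_PS {s : Set (ι → ℚ)} (hs : SL s) : KTS.ind s ∈ PS ι := by
  induction hs with
  | half a c => exact ind_mem_PS (Polyh.hs a c)
  | compl _ ih =>
    rw [ind_compl, ← ind_univ]
    exact Submodule.sub_mem _ (ind_mem_PS Polyh.univ) ih
  | inter _ _ ih ih' =>
    rw [ind_inter]
    exact PS.mul ih ih'

theorem CF.eq_sum {f : (ι → ℚ) → ℚ} (hf : CF f) :
    f = ∑ c ∈ hf.1.toFinset, c • KTS.ind (f ⁻¹' {c}) := by
  funext x
  rw [Finset.sum_apply]
  simp only [Pi.smul_apply, smul_eq_mul]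
  rw [Finset.sum_eq_single_of_mem (f x) (hf.1.mem_toFinset.2 ⟨x, rfl⟩)]
  · rw [ind_of (show x ∈ f ⁻¹' {f x} from rfl), mul_one]
  · intro c _ hc
    rw [ind_not (fun h : x ∈ f ⁻¹' {c} => hc h.symm), mul_zero]

theorem CF.mem_PS {f : (ι → ℚ) → ℚ} (hf : CF f) : f ∈ PS ι := by
  rw [hf.eq_sum]
  exact Submodule.sum_mem _ fun c _ => Submodule.smul_mem _ _ (hf.2 c).mem_PS

/-- induction principle for constructible functions -/
theorem CF.induction {p : ((ι → ℚ) → ℚ) → Prop} (hind : ∀ X, Polyh X → p (KTS.ind X))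
    (hadd : ∀ f g, CF f → CF g → p f → p g → p (f + g)) (hsmul : ∀ (c : ℚ) f, CF f → p f → p (c • f))
    {f : (ι → ℚ) → ℚ} (hf : CF f) : p f := by
  have h1 : CF f ∧ p f := by
    refine Submodule.span_induction (p := fun f _ => CF f ∧ p f) ?_ ?_ ?_ ?_ hf.mem_PS
    · rintro _ ⟨X, hX, rfl⟩
      exact ⟨CF.ind hX.sl, hind X hX⟩
    · refine ⟨CF.const 0, ?_⟩
      have := hsmul 0 _ (CF.ind Polyh.univ.sl) (hind _ Polyh.univ)
      rwa [zero_smul] at this
    · rintro x y _ _ ⟨h1, h2⟩ ⟨h3, h4⟩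
      exact ⟨h1.add h3, hadd x y h1 h3 h2 h4⟩
    · rintro c x _ ⟨h1, h2⟩
      exact ⟨h1.mul_left c, hsmul c x h1 h2⟩
  exact h1.2

/-- two linear functionals which agree on the indicator functions of polyhedra agree on `CF` -/
theorem CF.unique {φ ψ : ((ι → ℚ) → ℚ) →ₗ[ℚ] ℚ} (h : ∀ X, Polyh X → φ (KTS.ind X) = ψ (KTS.ind X))
    {f : (ι → ℚ) → ℚ} (hf : CF f) : φ f = ψ f := by
  refine CF.induction (p := fun f => φ f = ψ f) h ?_ ?_ hf
  · intro f g _ _ hf hg
    rw [map_add, map_add, hf, hg]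
  · intro c f _ hf
    rw [map_smul, map_smul, hf]

theorem I_empty : I ι (ind (∅ : Set (ι → ℚ))) = 0 := by
  have : ind (∅ : Set (ι → ℚ)) = 0 := by
    funext x
    exact ind_not (Set.notMem_empty x)
  rw [this, map_zero]

theorem I_nz {X : Set (ι → ℚ)} (hX : Polyh X) : I ι (ind X) = nz X := by
  rcases X.eq_empty_or_nonempty with h | h
  · rw [h, I_empty, nz_not Set.not_nonempty_empty]
  · rw [I_poly hX h, nz_of h]

/-! ### Fubini -/

theorem CF.slice {f : (ι ⊕ κ → ℚ) → ℚ} (hf : CF f) (x : ι → ℚ) :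
    CF fun y : κ → ℚ => f (Sum.elim x y) :=
  hf.comp ((AffM.const x).elim AffM.id)

/-- integration over the fibres, as a linear map -/
noncomputable def fibI (ι : Type u) (κ : Type v) [Fintype κ] :
    ((ι ⊕ κ → ℚ) → ℚ) →ₗ[ℚ] ((ι → ℚ) → ℚ) where
  toFun f x := I κ fun y => f (Sum.elim x y)
  map_add' f g := by
    funext x
    rw [Pi.add_apply, ← map_add]
    rfl
  map_smul' c f := by
    funext x
    rw [Pi.smul_apply, ← map_smul]
    rfl

omit [Fintype ι] in
theorem fibI_apply (f : (ι ⊕ κ → ℚ) → ℚ) (x : ι → ℚ) :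
    fibI ι κ f x = I κ fun y => f (Sum.elim x y) := rfl

theorem fibI_poly {X : Set (ι ⊕ κ → ℚ)} (hX : Polyh X) :
    fibI ι κ (ind X) = ind {x : ι → ℚ | ∃ y : κ → ℚ, Sum.elim x y ∈ X} := by
  funext x
  rw [fibI_apply]
  have h1 : (fun y : κ → ℚ => ind X (Sum.elim x y)) = ind {y : κ → ℚ | Sum.elim x y ∈ X} := by
    funext y
    exact ind_congr Iff.rfl
  have h2 : I κ (ind {y : κ → ℚ | Sum.elim x y ∈ X}) = nz {y : κ → ℚ | Sum.elim x y ∈ X} :=
    I_nz (hX.preimage ((AffM.const x).elim AffM.id))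
  rw [h1, h2]
  by_cases h : x ∈ {x : ι → ℚ | ∃ y : κ → ℚ, Sum.elim x y ∈ X}
  · rw [ind_of h]
    exact nz_of h
  · rw [ind_not h]
    exact nz_not h

theorem CF.fibI {f : (ι ⊕ κ → ℚ) → ℚ} (hf : CF f) : CF (fibI ι κ f) := by
  refine CF.induction (p := fun f => CF (KTS.fibI ι κ f)) ?_ ?_ ?_ hf
  · intro X hX
    rw [fibI_poly hX]
    exact CF.ind (Polyh.exv (p := fun z => z ∈ X) hX).sl
  · intro f g _ _ hf hg
    rw [map_add]
    exact hf.add hg
  · intro c f _ hf
    rw [map_smul]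
    exact hf.mul_left c

/-- Fubini -/
theorem I_fub {f : (ι ⊕ κ → ℚ) → ℚ} (hf : CF f) : I (ι ⊕ κ) f = I ι (fibI ι κ f) := by
  refine CF.unique (φ := I (ι ⊕ κ)) (ψ := (I ι).comp (fibI ι κ)) ?_ hf
  intro X hX
  rw [LinearMap.comp_apply, fibI_poly hX, I_nz hX,
    I_nz (Polyh.exv (p := fun z => z ∈ X) hX)]
  by_cases h : X.Nonempty
  · rw [nz_of h, nz_of]
    obtain ⟨z, hz⟩ := h
    refine ⟨fun i => z (Sum.inl i), fun k => z (Sum.inr k), ?_⟩
    convert hz using 1
    funext j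
    rcases j with j | j <;> rfl
  · rw [nz_not h, nz_not]
    rintro ⟨x, y, hy⟩
    exact h ⟨_, hy⟩

/-- invariance under affine bijections -/
theorem I_aff {T : (ι → ℚ) → (κ → ℚ)} (hT : AffM T) {S : (κ → ℚ) → (ι → ℚ)}
    (hTS : ∀ y, T (S y) = y) {f : (κ → ℚ) → ℚ} (hf : CF f) :
    I ι (fun x => f (T x)) = I κ f := by
  let L : ((κ → ℚ) → ℚ) →ₗ[ℚ] ((ι → ℚ) → ℚ) :=
    { toFun := fun f x => f (T x)
      map_add' := fun f g => rfl
      map_smul' := fun c f => rfl }
  refine CF.unique (φ := (I ι).comp L) (ψ := I κ) ?_ hf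
  intro X hX
  have h1 : L (ind X) = ind (T ⁻¹' X) := by
    funext x
    exact ind_congr Iff.rfl
  rw [LinearMap.comp_apply, h1, I_nz (hX.preimage hT), I_nz hX]
  by_cases h : X.Nonempty
  · rw [nz_of h, nz_of]
    obtain ⟨y, hy⟩ := h
    exact ⟨S y, by rwa [Set.mem_preimage, hTS]⟩
  · rw [nz_not h, nz_not]
    rintro ⟨x, hx⟩
    exact h ⟨_, hx⟩

/-- reindexing -/
theorem I_equiv (e : κ ≃ ι) {f : (κ → ℚ) → ℚ} (hf : CF f) :
    I ι (fun x => f fun k => x (e k)) = I κ f :=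
  I_aff (T := fun x k => x (e k)) (AffM.reindex e) (S := fun y i => y (e.symm i))
    (fun y => by funext k; simp) hf

/-- the flip of the two blocks of variables -/
theorem I_flip {f : (ι ⊕ κ → ℚ) → ℚ} (hf : CF f) :
    I (ι ⊕ κ) f = I κ fun y => I ι fun x => f (Sum.elim x y) := by
  have h1 := I_equiv (Equiv.sumComm ι κ) hf
  rw [← h1, I_fub (hf.comp (AffM.reindex (Equiv.sumComm ι κ)))]
  congr 1
  funext y
  rw [fibI_apply]
  congr 1
  funext x
  congr 1
  funext j
  rcases j with j | j <;> rfl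

/-- Fubini: both orders of integration -/
theorem fubini {f : (ι ⊕ κ → ℚ) → ℚ} (hf : CF f) :
    (CF fun x => I κ fun y => f (Sum.elim x y)) ∧ (CF fun y => I ι fun x => f (Sum.elim x y)) ∧
    (I (ι ⊕ κ) f = I ι fun x => I κ fun y => f (Sum.elim x y)) ∧
    I (ι ⊕ κ) f = I κ fun y => I ι fun x => f (Sum.elim x y) := by
  refine ⟨hf.fibI, ?_, I_fub hf, I_flip hf⟩
  have h1 := (hf.comp (AffM.reindex (Equiv.sumComm ι κ))).fibI
  convert h1 using 1
  funext y
  rw [fibI_apply]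
  congr 1
  funext x
  congr 1
  funext j
  rcases j with j | j <;> rfl

/-! ### finite support and pushforward -/

/-- functions with finite support -/
theorem CF.of_finite {f : (ι → ℚ) → ℚ} (hf : (Function.support f).Finite) : CF f := by
  classical
  have h1 : f = fun x => ∑ c ∈ hf.toFinset, f c * KTS.ind {c} x := by
    funext x
    by_cases hx : f x = 0
    · rw [hx]
      symm
      refine Finset.sum_eq_zero fun c hc => ?_
      have h2 : x ≠ c := by
        rintro rfl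
        exact (hf.mem_toFinset.1 hc) hx
      rw [ind_not (by simpa using h2), mul_zero]
    · rw [Finset.sum_eq_single_of_mem x (hf.mem_toFinset.2 hx)]
      · rw [ind_of (Set.mem_singleton x), mul_one]
      · intro c _ hc
        rw [ind_not (by simpa using hc.symm), mul_zero]
  rw [h1]
  exact CF.sum _ fun c _ => (CF.ind (SL.singleton c)).mul_left _

theorem I_finite {f : (ι → ℚ) → ℚ} (hf : (Function.support f).Finite) :
    I ι f = ∑ᶠ x, f x := by
  classical
  have h1 : f = ∑ c ∈ hf.toFinset, f c • KTS.ind {c} := by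
    funext x
    rw [Finset.sum_apply]
    simp only [Pi.smul_apply, smul_eq_mul]
    by_cases hx : f x = 0
    · rw [hx]
      symm
      refine Finset.sum_eq_zero fun c hc => ?_
      have h2 : x ≠ c := by
        rintro rfl
        exact (hf.mem_toFinset.1 hc) hx
      rw [ind_not (by simpa using h2), mul_zero]
    · rw [Finset.sum_eq_single_of_mem x (hf.mem_toFinset.2 hx)]
      · rw [ind_of (Set.mem_singleton x), mul_one]
      · intro c _ hc
        rw [ind_not (by simpa using hc.symm), mul_zero]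
  conv_lhs => rw [h1]
  rw [map_sum, finsum_eq_sum_of_support_subset f (s := hf.toFinset)
    (fun x hx => hf.mem_toFinset.2 hx)]
  refine Finset.sum_congr rfl fun c _ => ?_
  rw [map_smul, I_poly (Polyh.singleton c) ⟨c, rfl⟩, smul_eq_mul, mul_one]

/-- the sum over the fibres -/
noncomputable def push (p : (ι → ℚ) → (κ → ℚ)) (f : (ι → ℚ) → ℚ) (y : κ → ℚ) : ℚ :=
  ∑ᶠ x ∈ p ⁻¹' {y}, f x

/-- PUSHFORWARD: the graph of `p` over the support of `f` is cut out by the semilinear set `G` -/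
theorem CF.push {f : (ι → ℚ) → ℚ} (hf : CF f) {p : (ι → ℚ) → (κ → ℚ)} {G : Set (ι ⊕ κ → ℚ)}
    (hG : SL G) (hGp : ∀ x, f x ≠ 0 → ∀ y, Sum.elim x y ∈ G ↔ y = p x)
    (hfin : ∀ y, {x | f x ≠ 0 ∧ p x = y}.Finite) :
    CF (push p f) ∧ I κ (push p f) = I ι f := by
  set F : (ι ⊕ κ → ℚ) → ℚ := fun z => f (fun i => z (Sum.inl i)) * KTS.ind G z with hF
  have hFc : CF F := (hf.comp (AffM.reindex Sum.inl)).mul (CF.ind hG)
  obtain ⟨-, h2, h3, h4⟩ := fubini hFc
  have h5 : (fun x => I κ fun y => F (Sum.elim x y)) = f := by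
    funext x
    by_cases hx : f x = 0
    · have : (fun y => F (Sum.elim x y)) = 0 := by
        funext y
        change f x * _ = 0
        rw [hx, zero_mul]
      rw [this, map_zero, hx]
    · have : (fun y => F (Sum.elim x y)) = f x • KTS.ind {p x} := by
        funext y
        change f x * KTS.ind G (Sum.elim x y) = f x * KTS.ind {p x} y
        congr 1
        exact ind_congr (by rw [hGp x hx y, Set.mem_singleton_iff])
      rw [this, map_smul, I_poly (Polyh.singleton (p x)) ⟨p x, rfl⟩, smul_eq_mul, mul_one]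
  have h6 : (fun y => I ι fun x => F (Sum.elim x y)) = KTS.push p f := by
    funext y
    have h7 : ∀ x, F (Sum.elim x y) = f x * KTS.ind G (Sum.elim x y) := fun x => rfl
    have h8 : (Function.support fun x => F (Sum.elim x y)).Finite := by
      refine (hfin y).subset fun x hx => ?_
      rw [Function.mem_support, h7] at hx
      have h9 : f x ≠ 0 := left_ne_zero_of_mul hx
      refine ⟨h9, ?_⟩
      by_contra hc
      refine hx ?_
      rw [ind_not (fun h => hc ((hGp x h9 y).1 h).symm), mul_zero]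
    rw [I_finite h8]
    unfold KTS.push
    refine finsum_congr fun x => ?_
    by_cases hy : p x = y
    · have hy' : x ∈ p ⁻¹' {y} := hy
      have h9 : (∑ᶠ (_ : x ∈ p ⁻¹' {y}), f x) = f x := by simp [hy']
      rw [h9, h7]
      by_cases hx : f x = 0
      · rw [hx, zero_mul]
      · rw [ind_of ((hGp x hx y).2 hy.symm), mul_one]
    · have hy' : x ∉ p ⁻¹' {y} := hy
      have h9 : (∑ᶠ (_ : x ∈ p ⁻¹' {y}), f x) = 0 := by simp [hy']
      rw [h9, h7]
      by_cases hx : f x = 0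
      · rw [hx, zero_mul]
      · rw [ind_not (fun h => hy ((hGp x hx y).1 h).symm), mul_zero]
  rw [h6] at h2 h4
  rw [h5] at h3
  exact ⟨h2, h4.symm.trans h3⟩

/-! ### one variable -/

theorem I_Ioc {i : ι} {a b : ℚ} (h : a < b) :
    I ι (ind {x | a < x i ∧ x i ≤ b}) = 0 := by
  have h1 : ind {x : ι → ℚ | a < x i ∧ x i ≤ b} =
      ind {x : ι → ℚ | a ≤ x i ∧ x i ≤ b} - ind {x : ι → ℚ | x i = a} := by
    funext x
    rw [Pi.sub_apply]
    rcases lt_trichotomy (x i) a with h2 | h2 | h2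
    · rw [ind_not (fun h3 => absurd h3.1 (by linarith)),
        ind_not (fun h3 => absurd h3.1 (by linarith)),
        ind_not (fun h3 : x ∈ {x : ι → ℚ | x i = a} => h2.ne h3), sub_zero]
    · rw [ind_not (fun h3 => absurd h3.1 (by linarith)),
        ind_of (show x ∈ {x : ι → ℚ | a ≤ x i ∧ x i ≤ b} from ⟨h2.ge, by linarith⟩),
        ind_of (show x ∈ {x : ι → ℚ | x i = a} from h2), sub_self]
    · rw [ind_not (fun h3 : x ∈ {x : ι → ℚ | x i = a} => h2.ne' h3), sub_zero]
      exact ind_congr ⟨fun h3 => ⟨h3.1.le, h3.2⟩, fun h3 => ⟨h2, h3.2⟩⟩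
  have h2 : I ι (ind {x : ι → ℚ | a ≤ x i ∧ x i ≤ b}) = 1 :=
    I_poly ((Polyh.le (Aff.const a) (Aff.coord i)).inter (Polyh.le (Aff.coord i) (Aff.const b)))
      ⟨fun _ => a, le_refl a, h.le⟩
  rw [h1, map_sub, h2, I_poly (Polyh.eq (Aff.coord i) (Aff.const a)) ⟨fun _ => a, rfl⟩, sub_self]

theorem I_Ioi {i : ι} (a : ℚ) : I ι (ind {x | a < x i}) = 0 := by
  have h1 : ind {x : ι → ℚ | a < x i} =
      ind {x : ι → ℚ | a ≤ x i} - ind {x : ι → ℚ | x i = a} := by
    funext x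
    rw [Pi.sub_apply]
    rcases lt_trichotomy (x i) a with h2 | h2 | h2
    · rw [ind_not (fun h3 : x ∈ {x : ι → ℚ | a < x i} => absurd h3 (not_lt.2 h2.le)),
        ind_not (fun h3 : x ∈ {x : ι → ℚ | a ≤ x i} => absurd h3 (not_le.2 h2)),
        ind_not (fun h3 : x ∈ {x : ι → ℚ | x i = a} => h2.ne h3), sub_zero]
    · rw [ind_not (fun h3 : x ∈ {x : ι → ℚ | a < x i} => absurd h3 (not_lt.2 h2.le)),
        ind_of (show x ∈ {x : ι → ℚ | a ≤ x i} from h2.ge),
        ind_of (show x ∈ {x : ι → ℚ | x i = a} from h2), sub_self]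
    · rw [ind_not (fun h3 : x ∈ {x : ι → ℚ | x i = a} => h2.ne' h3), sub_zero,
        ind_of (show x ∈ {x : ι → ℚ | a < x i} from h2),
        ind_of (show x ∈ {x : ι → ℚ | a ≤ x i} from h2.le)]
  rw [h1, map_sub, I_poly (Polyh.le (Aff.const a) (Aff.coord i)) ⟨fun _ => a, le_refl a⟩,
    I_poly (Polyh.eq (Aff.coord i) (Aff.const a)) ⟨fun _ => a, rfl⟩, sub_self]

theorem I_Iio {i : ι} (b : ℚ) : I ι (ind {x | x i < b}) = 0 := by
  have h1 : ind {x : ι → ℚ | x i < b} =
      ind {x : ι → ℚ | x i ≤ b} - ind {x : ι → ℚ | x i = b} := by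
    funext x
    rw [Pi.sub_apply]
    rcases lt_trichotomy (x i) b with h2 | h2 | h2
    · rw [ind_not (fun h3 : x ∈ {x : ι → ℚ | x i = b} => h2.ne h3), sub_zero,
        ind_of (show x ∈ {x : ι → ℚ | x i < b} from h2),
        ind_of (show x ∈ {x : ι → ℚ | x i ≤ b} from h2.le)]
    · rw [ind_not (fun h3 : x ∈ {x : ι → ℚ | x i < b} => absurd h3 (not_lt.2 h2.ge)),
        ind_of (show x ∈ {x : ι → ℚ | x i ≤ b} from h2.le),
        ind_of (show x ∈ {x : ι → ℚ | x i = b} from h2), sub_self]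
    · rw [ind_not (fun h3 : x ∈ {x : ι → ℚ | x i < b} => absurd h3 (not_lt.2 h2.le)),
        ind_not (fun h3 : x ∈ {x : ι → ℚ | x i ≤ b} => absurd h3 (not_le.2 h2)),
        ind_not (fun h3 : x ∈ {x : ι → ℚ | x i = b} => h2.ne' h3), sub_zero]
  rw [h1, map_sub, I_poly (Polyh.le (Aff.coord i) (Aff.const b)) ⟨fun _ => b, le_refl b⟩,
    I_poly (Polyh.eq (Aff.coord i) (Aff.const b)) ⟨fun _ => b, rfl⟩, sub_self]

theorem I_Ioo {i : ι} {a b : ℚ} (h : a < b) :
    I ι (ind {x | a < x i ∧ x i < b}) = -1 := by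
  have h1 : ind {x : ι → ℚ | a < x i ∧ x i < b} =
      ind {x : ι → ℚ | a < x i ∧ x i ≤ b} - ind {x : ι → ℚ | x i = b} := by
    funext x
    rw [Pi.sub_apply]
    rcases lt_trichotomy (x i) b with h2 | h2 | h2
    · rw [ind_not (fun h3 : x ∈ {x : ι → ℚ | x i = b} => h2.ne h3), sub_zero]
      exact ind_congr ⟨fun h3 => ⟨h3.1, h3.2.le⟩, fun h3 => ⟨h3.1, h2⟩⟩
    · rw [ind_not (fun h3 => absurd h3.2 (by linarith)),
        ind_of (show x ∈ {x : ι → ℚ | a < x i ∧ x i ≤ b} from ⟨by linarith, h2.le⟩),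
        ind_of (show x ∈ {x : ι → ℚ | x i = b} from h2), sub_self]
    · rw [ind_not (fun h3 => absurd h3.2 (by linarith)),
        ind_not (fun h3 => absurd h3.2 (by linarith)),
        ind_not (fun h3 : x ∈ {x : ι → ℚ | x i = b} => h2.ne' h3), sub_zero]
  rw [h1, map_sub, I_Ioc h, I_poly (Polyh.eq (Aff.coord i) (Aff.const b)) ⟨fun _ => b, rfl⟩,
    zero_sub]

theorem I_one : I ι (fun _ => 1) = 1 := by
  have h1 : (fun _ : ι → ℚ => (1 : ℚ)) = ind Set.univ := ind_univ.symm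
  rw [h1]
  exact I_poly Polyh.univ ⟨0, trivial⟩

/-- rescaling by positive rational numbers, translations -/
theorem I_scale {a : ι → ℚ} (ha : ∀ i, a i ≠ 0) (c : ι → ℚ) {f : (ι → ℚ) → ℚ} (hf : CF f) :
    I ι (fun x => f fun i => a i * x i + c i) = I ι f :=
  I_aff (T := fun x i => a i * x i + c i)
    (fun i => ((Aff.coord i).mul_left (a i)).add (Aff.const (c i)))
    (S := fun y i => (y i - c i) / a i)
    (fun y => by
      funext i
      have := ha i
      field_simp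
      ring) hf

end KTS
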