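import Mathlib

/-!
# [KTS-H7] automorphisms of algebraically closed fields
-/

set_option autoImplicit false

namespace KTS

open Cardinal IntermediateField Polynomial

universe u

/-! ### homogeneity -/

/-- two algebraically closed fields with equipotent transcendence bases -/
theorem steinitz {A K L : Type u} [Field A] [Field K] [Field L] [Algebra A K] [Algebra A L]
    [IsAlgClosed K] [IsAlgClosed L] {ι : Type u} {v : ι → K} {w : ι → L}
    (hv : IsTranscendenceBasis A v) (hw : IsTranscendenceBasis A w) :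
    ∃ e : K ≃ₐ[A] L, ∀ i, e (v i) = w i := by
  have h1 : IsAlgClosure (Algebra.adjoin A (Set.range v)) K :=
    IsAlgClosed.isAlgClosure_of_transcendence_basis v hv
  have h2 : IsAlgClosure (Algebra.adjoin A (Set.range w)) L :=
    IsAlgClosed.isAlgClosure_of_transcendence_basis w hw
  let e₀ : Algebra.adjoin A (Set.range v) ≃ₐ[A] Algebra.adjoin A (Set.range w) :=
    hv.1.aevalEquiv.symm.trans hw.1.aevalEquiv
  have he₀ : ∀ i, (e₀ ⟨v i, Algebra.subset_adjoin ⟨i, rfl⟩⟩ : L) = w i := by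
    intro i
    have h3 : hv.1.aevalEquiv (MvPolynomial.X i) = ⟨v i, Algebra.subset_adjoin ⟨i, rfl⟩⟩ := by
      apply Subtype.ext
      rw [AlgebraicIndependent.aevalEquiv_apply_coe, MvPolynomial.aeval_X]
    change ((hw.1.aevalEquiv (hv.1.aevalEquiv.symm ⟨v i, _⟩) : Algebra.adjoin A (Set.range w)) : L)
      = w i
    rw [← h3, AlgEquiv.symm_apply_apply, AlgebraicIndependent.aevalEquiv_apply_coe,
      MvPolynomial.aeval_X]
  let e := IsAlgClosure.equivOfEquiv K L e₀.toRingEquiv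
  refine ⟨AlgEquiv.ofRingEquiv (f := e) fun a => ?_, fun i => ?_⟩
  · have h3 := IsAlgClosure.equivOfEquiv_algebraMap K L e₀.toRingEquiv
      (algebraMap A (Algebra.adjoin A (Set.range v)) a)
    have h4 : e₀.toRingEquiv (algebraMap A (Algebra.adjoin A (Set.range v)) a) =
      algebraMap A (Algebra.adjoin A (Set.range w)) a := e₀.commutes a
    rw [h4] at h3
    exact h3
  · have h3 := IsAlgClosure.equivOfEquiv_algebraMap K L e₀.toRingEquiv
      ⟨v i, Algebra.subset_adjoin ⟨i, rfl⟩⟩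
    exact h3.trans (he₀ i)

theorem tower_trdeg {A E F : Type u} [Field A] [Field E] [Field F] [Algebra A E] [Algebra A F]
    (a : Algebra E F) (ha : ∀ x, algebraMap E F (algebraMap A E x) = algebraMap A F x) :
    Algebra.trdeg A E + Algebra.trdeg E F = Algebra.trdeg A F := by
  have : IsScalarTower A E F := IsScalarTower.of_algebraMap_eq fun x => (ha x).symm
  exact trdeg_add_eq A E

theorem tower_basis {E F : Type u} [Field E] [Field F] (a : Algebra E F) :
    ∃ (ι : Type u) (v : ι → F), IsTranscendenceBasis E v ∧ #ι = Algebra.trdeg E F := by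
  obtain ⟨S, hS⟩ := exists_isTranscendenceBasis E F
  exact ⟨S, _, hS, hS.cardinalMk_eq_trdeg⟩

theorem basis_equiv {E F : Type u} [Field E] [Field F] (a : Algebra E F) {ι κ : Type u}
    {v : ι → F} (hv : IsTranscendenceBasis E v) (b : κ ≃ ι) :
    IsTranscendenceBasis E (fun i => v (b i)) := hv.comp_equiv b

/-- [H7a] homogeneity of algebraically closed fields -/
theorem homog {A E F : Type u} [Field A] [Field E] [Field F] [Algebra A E] [Algebra A F]
    [IsAlgClosed F] (hE : Algebra.trdeg A E < ℵ₀) (i₁ i₂ : E →ₐ[A] F) :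
    ∃ σ : F ≃ₐ[A] F, ∀ x, σ (i₁ x) = i₂ x := by
  let a₁ : Algebra E F := i₁.toRingHom.toAlgebra
  let a₂ : Algebra E F := i₂.toRingHom.toAlgebra
  have t₁ := @tower_trdeg A E F _ _ _ _ _ a₁ i₁.commutes
  have t₂ := @tower_trdeg A E F _ _ _ _ _ a₂ i₂.commutes
  obtain ⟨ι, v, hv, cv⟩ := @tower_basis E F _ _ a₁
  obtain ⟨κ, w, hw, cw⟩ := @tower_basis E F _ _ a₂
  have t₃ := Cardinal.eq_of_add_eq_add_left (t₁.trans t₂.symm) hE
  rw [← cv, ← cw, Cardinal.eq] at t₃
  obtain ⟨b⟩ := t₃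
  have hw' := @basis_equiv E F _ _ a₂ κ ι w hw b
  obtain ⟨e, -⟩ := @steinitz E F F _ _ _ a₁ a₂ _ _ ι v _ hv hw'
  have he : ∀ x, e (i₁ x) = i₂ x := fun x =>
    @AlgEquiv.commutes E F F _ _ _ a₁ a₂ e x
  refine ⟨AlgEquiv.ofRingEquiv (f := @AlgEquiv.toRingEquiv E F F _ _ _ a₁ a₂ e) fun x => ?_, he⟩
  have h1 := he (algebraMap A E x)
  rw [i₁.commutes, i₂.commutes] at h1
  exact h1

/-- [H7a] an isomorphism of subfields of finite transcendence degree extends -/
theorem extend_aut {A F : Type u} [Field A] [Field F] [Algebra A F] [IsAlgClosed F]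
    {E₁ E₂ : IntermediateField A F} (e : E₁ ≃ₐ[A] E₂) (hE : Algebra.trdeg A E₁ < ℵ₀) :
    ∃ σ : F ≃ₐ[A] F, ∀ x : E₁, σ x = e x :=
  homog hE E₁.val (E₂.val.comp e.toAlgHom)

/-- [H7a] an embedding of a subfield of finite transcendence degree extends -/
theorem extend_emb {A F U : Type u} [Field A] [Field F] [Field U] [Algebra A F] [Algebra A U]
    [IsAlgClosed U] (E : IntermediateField A F) (hE : Algebra.trdeg A E < ℵ₀)
    (φ : E →ₐ[A] U) (w₀ : F →ₐ[A] U) : ∃ w : F →ₐ[A] U, ∀ x : E, w x = φ x := by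
  obtain ⟨σ, hσ⟩ := homog hE (w₀.comp E.val) φ
  exact ⟨σ.toAlgHom.comp w₀, hσ⟩

end KTS
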