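import Pool.Agent.KTS.HA1

/-!
# [KTS-H7b] fixed fields of automorphism groups of algebraically closed fields
-/

set_option autoImplicit false

namespace KTS

open Cardinal IntermediateField Polynomial

universe u

section base

variable {A F : Type u} [Field A] [Field F] [Algebra A F]

/-- the transcendence degree of a field generated by a set -/
theorem td_adjoin_le (S : Set F) : Algebra.trdeg A (IntermediateField.adjoin A S) ≤ #S := by
  set E := IntermediateField.adjoin A S with hE
  set S' : Set E := {x | (x : F) ∈ S} with hS'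
  have h0 : ∀ r ∈ Algebra.adjoin A S, ∃ r' ∈ Algebra.adjoin A S', (r' : F) = r := by
    intro r hr
    have h1 : (Algebra.adjoin A S').map E.val = Algebra.adjoin A S := by
      rw [AlgHom.map_adjoin]
      congr 1
      ext x
      constructor
      · rintro ⟨y, hy, rfl⟩
        exact hy
      · intro hx
        exact ⟨⟨x, IntermediateField.subset_adjoin A S hx⟩, hx, rfl⟩
    rw [← h1] at hr
    obtain ⟨r', hr', h2⟩ := hr
    exact ⟨r', hr', h2⟩
  have h1 : Algebra.IsAlgebraic (Algebra.adjoin A S') E := by
    refine ⟨fun x => ?_⟩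
    obtain ⟨r, hr, s, hs, hrs⟩ := IntermediateField.mem_adjoin_iff_div.1 x.2
    obtain ⟨r', hr', h3⟩ := h0 r hr
    obtain ⟨s', hs', h4⟩ := h0 s hs
    by_cases hs0 : s = 0
    · have hx : x = 0 := by
        apply Subtype.ext
        rw [hrs, hs0, div_zero]
        rfl
      rw [hx]
      exact isAlgebraic_zero
    · refine ⟨C (⟨s', hs'⟩ : Algebra.adjoin A S') * X - C (⟨r', hr'⟩ : Algebra.adjoin A S'), ?_, ?_⟩
      · intro h5
        have h6 := congrArg (fun p => p.coeff 1) h5
        simp only [coeff_sub, coeff_C_mul, coeff_X_one, mul_one, coeff_zero] at h6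
        rw [coeff_C, if_neg one_ne_zero, sub_zero] at h6
        apply hs0
        rw [← h4]
        have h7 := congrArg (fun z : Algebra.adjoin A S' => ((z : E) : F)) h6
        exact h7
      · rw [map_sub, map_mul, aeval_C, aeval_C, aeval_X]
        apply Subtype.ext
        change (s' : F) * (x : F) - (r' : F) = 0
        rw [h3, h4, hrs, mul_div_cancel₀ _ hs0, sub_self]
  have h2 : Algebra.trdeg A E ≤ #S' := Algebra.IsAlgebraic.trdeg_le_cardinalMk A S'
  refine h2.trans ?_
  refine Cardinal.mk_le_of_injective (f := fun x : S' => (⟨x.1.1, x.2⟩ : S)) fun x y h => ?_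
  have h3 : (x.1 : F) = y.1 := congrArg (fun z : S => (z : F)) h
  exact Subtype.ext (Subtype.ext h3)

theorem td_simple_lt (z : F) : Algebra.trdeg A A⟮z⟯ < ℵ₀ :=
  (td_adjoin_le ({z} : Set F)).trans_lt (by rw [Cardinal.mk_singleton]; exact one_lt_aleph0)

/-- embeddings of a simple transcendental extension -/
theorem trans_hom {z z' : F} (hz : Transcendental A z) (hz' : Transcendental A z') :
    ∃ φ : A⟮z⟯ →ₐ[A] F, φ (AdjoinSimple.gen A z) = z' := by
  refine ⟨(A⟮z'⟯.val).comp ((RatFunc.algEquivOfTranscendental z' hz').toAlgHom.comp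
    (RatFunc.algEquivOfTranscendental z hz).symm.toAlgHom), ?_⟩
  change A⟮z'⟯.val (RatFunc.algEquivOfTranscendental z' hz'
    ((RatFunc.algEquivOfTranscendental z hz).symm (AdjoinSimple.gen A z))) = z'
  rw [RatFunc.algEquivOfTranscendental_symm_gen z hz]
  exact RatFunc.algEquivOfTranscendental_X z' hz'

variable [IsAlgClosed F]

/-- transitivity on transcendental elements -/
theorem trans_aut {z z' : F} (hz : Transcendental A z) (hz' : Transcendental A z') :
    ∃ σ : F ≃ₐ[A] F, σ z = z' := by
  obtain ⟨φ, hφ⟩ := trans_hom hz hz'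
  obtain ⟨σ, hσ⟩ := homog (td_simple_lt (A := A) z) A⟮z⟯.val φ
  exact ⟨σ, (hσ (AdjoinSimple.gen A z)).trans hφ⟩

/-- transitivity on the roots of an irreducible polynomial -/
theorem conj_aut {z z' : F} (hz : IsAlgebraic A z) (hz' : aeval z' (minpoly A z) = 0) :
    ∃ σ : F ≃ₐ[A] F, σ z = z' := by
  have hint : IsIntegral A z := hz.isIntegral
  have hmem : z' ∈ (minpoly A z).aroots F := by
    rw [mem_aroots]
    exact ⟨minpoly.ne_zero hint, hz'⟩
  obtain ⟨σ, hσ⟩ := homog (td_simple_lt (A := A) z) A⟮z⟯.val
    ((algHomAdjoinIntegralEquiv A hint).symm ⟨z', hmem⟩)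
  refine ⟨σ, (hσ (AdjoinSimple.gen A z)).trans ?_⟩
  exact algHomAdjoinIntegralEquiv_symm_apply_gen A hint ⟨z', hmem⟩

omit [IsAlgClosed F] in
theorem trans_add {z : F} (hz : Transcendental A z) (c : A) :
    Transcendental A (z + algebraMap A F c) := by
  intro h
  apply hz
  have h1 : z = (z + algebraMap A F c) - algebraMap A F c := by ring
  rw [h1]
  exact h.sub (isAlgebraic_algebraMap c)

variable [CharZero F]

/-- an element fixed by all automorphisms -/
theorem fixed_base {z : F} (h : ∀ σ : F ≃ₐ[A] F, σ z = z) : z ∈ (algebraMap A F).range := by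
  have hA : CharZero A := (RingHom.charZero_iff (algebraMap A F).injective).2 inferInstance
  by_cases hz : IsAlgebraic A z
  · have hint : IsIntegral A z := hz.isIntegral
    rw [← minpoly.natDegree_eq_one_iff]
    by_contra hd
    have hsep : (minpoly A z).Separable := (minpoly.irreducible hint).separable
    have hcard := card_rootSet_eq_natDegree (K := F) hsep (IsAlgClosed.splits _)
    have hpos := minpoly.natDegree_pos hint
    have h2 : 1 < Fintype.card ((minpoly A z).rootSet F) := by omega
    rw [Fintype.one_lt_card_iff_nontrivial] at h2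
    have hzmem : z ∈ (minpoly A z).rootSet F := by
      rw [mem_rootSet]
      exact ⟨minpoly.ne_zero hint, minpoly.aeval A z⟩
    obtain ⟨z', hz'⟩ := exists_ne (⟨z, hzmem⟩ : (minpoly A z).rootSet F)
    obtain ⟨σ, hσ⟩ := conj_aut hz (mem_rootSet.1 z'.2).2
    apply hz'
    apply Subtype.ext
    rw [← hσ, h σ]
  · obtain ⟨σ, hσ⟩ := trans_aut (A := A) hz (trans_add hz 1)
    rw [h σ, map_one] at hσ
    have : (1 : F) = 0 := by
      have := congrArg (fun x => x - z) hσ
      simpa using this.symm
    exact absurd this one_ne_zero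

/-- an element with finite orbit -/
theorem finite_orbit_base {z : F} (h : (Set.range fun σ : F ≃ₐ[A] F => σ z).Finite) :
    IsAlgebraic A z := by
  by_contra hz
  have h1 : ∀ n : ℕ, z + algebraMap A F n ∈ Set.range fun σ : F ≃ₐ[A] F => σ z := by
    intro n
    obtain ⟨σ, hσ⟩ := trans_aut (A := A) hz (trans_add hz (n : A))
    exact ⟨σ, hσ⟩
  refine Set.infinite_of_injective_forall_mem (f := fun n : ℕ => z + algebraMap A F n) ?_ h1 h
  intro m n hmn
  simp only [map_natCast, add_right_inj, Nat.cast_inj] at hmn
  exact hmn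

end base

/-! ### intermediate fields -/

section inter

variable {A F : Type u} [Field A] [Field F] [Algebra A F]

theorem restrict_mem (E : IntermediateField A F) (σ : F ≃ₐ[E] F) :
    σ.restrictScalars A ∈ E.fixingSubgroup := by
  rw [IntermediateField.mem_fixingSubgroup_iff]
  intro x hx
  exact σ.commutes ⟨x, hx⟩

/-- an element of the fixing subgroup as an automorphism over `E` -/
noncomputable def liftE {E : IntermediateField A F} {σ : F ≃ₐ[A] F} (h : σ ∈ E.fixingSubgroup) :
    F ≃ₐ[E] F :=
  AlgEquiv.ofRingEquiv (f := (σ : F ≃+* F)) fun x =>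
    (IntermediateField.mem_fixingSubgroup_iff E σ).1 h x x.2

theorem liftE_apply {E : IntermediateField A F} {σ : F ≃ₐ[A] F} (h : σ ∈ E.fixingSubgroup)
    (x : F) : liftE h x = σ x := rfl

variable [IsAlgClosed F]

/-- [H7b] transitivity on the elements transcendental over `E` -/
theorem trans_fix (E : IntermediateField A F) {z z' : F} (hz : Transcendental E z)
    (hz' : Transcendental E z') : ∃ σ ∈ E.fixingSubgroup, σ z = z' := by
  obtain ⟨σ, hσ⟩ := trans_aut hz hz'
  exact ⟨_, restrict_mem E σ, hσ⟩

variable [CharZero F]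

/-- [H7b] an element fixed by all automorphisms over `E` is in `E` -/
theorem mem_of_fixed (E : IntermediateField A F) {z : F} (h : ∀ σ ∈ E.fixingSubgroup, σ z = z) :
    z ∈ E := by
  obtain ⟨x, hx⟩ := fixed_base (A := E) (z := z) fun σ => h _ (restrict_mem E σ)
  rw [← hx]
  exact x.2

theorem fixedField_fixing (E : IntermediateField A F) :
    IntermediateField.fixedField E.fixingSubgroup = E := by
  apply le_antisymm
  · intro z hz
    exact mem_of_fixed E fun σ hσ => (IntermediateField.mem_fixedField_iff _ z).1 hz σ hσ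
  · intro z hz
    rw [IntermediateField.mem_fixedField_iff]
    intro σ hσ
    exact (IntermediateField.mem_fixingSubgroup_iff E σ).1 hσ z hz

/-- [H7d] the fixing subgroup determines the field -/
theorem eq_of_fixing {E E' : IntermediateField A F} (h : E.fixingSubgroup = E'.fixingSubgroup) :
    E = E' := by
  rw [← fixedField_fixing E, h, fixedField_fixing]

theorem le_of_fixing {E E' : IntermediateField A F} (h : E.fixingSubgroup ≤ E'.fixingSubgroup) :
    E' ≤ E := by
  rw [← fixedField_fixing E, ← fixedField_fixing E']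
  intro z hz
  rw [IntermediateField.mem_fixedField_iff] at hz ⊢
  exact fun σ hσ => hz σ (h hσ)

/-- [H7b] an element with finite orbit is algebraic -/
theorem alg_of_finite_orbit (E : IntermediateField A F) {z : F}
    (h : {y | ∃ σ ∈ E.fixingSubgroup, σ z = y}.Finite) : IsAlgebraic E z := by
  refine finite_orbit_base (h.subset ?_)
  rintro _ ⟨σ, rfl⟩
  exact ⟨_, restrict_mem E σ, rfl⟩

omit [IsAlgClosed F] [CharZero F] in
/-- an algebraic element has a finite orbit -/
theorem finite_orbit_of_alg (E : IntermediateField A F) {z : F} (h : IsAlgebraic E z) :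
    {y | ∃ σ ∈ E.fixingSubgroup, σ z = y}.Finite := by
  refine ((minpoly E z).rootSet_finite F).subset ?_
  rintro _ ⟨σ, hσ, rfl⟩
  rw [mem_rootSet]
  refine ⟨minpoly.ne_zero h.isIntegral, ?_⟩
  rw [← liftE_apply hσ]
  have h1 := congrArg (liftE hσ) (minpoly.aeval E z)
  rw [map_zero, ← aeval_algHom_apply] at h1
  exact h1

omit [IsAlgClosed F] [CharZero F] in
theorem mem_fixing_adjoin {S : Set F} {σ : F ≃ₐ[A] F} :
    σ ∈ (IntermediateField.adjoin A S).fixingSubgroup ↔ ∀ x ∈ S, σ x = x := by
  rw [IntermediateField.mem_fixingSubgroup_iff]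
  constructor
  · intro h x hx
    exact h x (IntermediateField.subset_adjoin A S hx)
  · intro h x hx
    refine IntermediateField.adjoin_induction A (p := fun x _ => σ x = x) h ?_ ?_ ?_ ?_ hx
    · intro a
      exact σ.commutes a
    · intro x y _ _ hx hy
      rw [map_add, hx, hy]
    · intro x _ hx
      rw [map_inv₀, hx]
    · intro x y _ _ hx hy
      rw [map_mul, hx, hy]

end inter

end KTS
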