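import Pool.Agent.KTS.HA2

/-!
# [KTS-H7b] closedness of groups of automorphisms
-/

set_option autoImplicit false

namespace KTS

open Cardinal IntermediateField Polynomial

universe u

variable {A F : Type u} [Field A] [Field F] [Algebra A F]

/-- a natural number which separates a vector from finitely many others -/
theorem exists_sep [CharZero F] {m : ℕ} (O : Finset (Fin m → F)) (g : Fin m → F) (hg : g ∉ O) :
    ∃ c : ℕ, ∀ f ∈ O, ∑ i : Fin m, (c : F) ^ (i : ℕ) * g i ≠
      ∑ i : Fin m, (c : F) ^ (i : ℕ) * f i := by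
  classical
  set p : (Fin m → F) → F[X] := fun f => ∑ i : Fin m, C (g i - f i) * X ^ (i : ℕ) with hp
  have hpc : ∀ f, ∀ i : Fin m, (p f).coeff i = g i - f i := by
    intro f i
    rw [hp]
    simp only [finsetSum_coeff, coeff_C_mul_X_pow]
    rw [Finset.sum_eq_single_of_mem i (Finset.mem_univ i)]
    · rw [if_pos rfl]
    · intro j _ hj
      rw [if_neg]
      intro h
      exact hj (Fin.ext h.symm)
  have hp0 : ∀ f ∈ O, p f ≠ 0 := by
    intro f hf h0
    apply hg
    have : g = f := by
      funext i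
      have h1 := hpc f i
      rw [h0, coeff_zero] at h1
      exact (sub_eq_zero.1 h1.symm)
    rw [this]
    exact hf
  have hprod : ∏ f ∈ O, p f ≠ 0 := Finset.prod_ne_zero_iff.2 hp0
  have hfin : {c : ℕ | (∏ f ∈ O, p f).IsRoot (c : F)}.Finite := by
    refine Set.Finite.preimage (f := fun c : ℕ => (c : F)) Nat.cast_injective.injOn
      (s := {x | (∏ f ∈ O, p f).IsRoot x}) ?_
    exact finite_setOfPred_isRoot hprod
  obtain ⟨c, hc⟩ : ∃ c : ℕ, c ∉ {c : ℕ | (∏ f ∈ O, p f).IsRoot (c : F)} := hfin.exists_notMem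
  refine ⟨c, fun f hf heq => hc ?_⟩
  change eval _ _ = 0
  rw [eval_prod]
  apply Finset.prod_eq_zero hf
  rw [hp]
  simp only [eval_finsetSum, eval_mul, eval_C, eval_pow, eval_X]
  have h1 : ∑ i : Fin m, (g i - f i) * (c : F) ^ (i : ℕ) =
      ∑ i : Fin m, (c : F) ^ (i : ℕ) * g i - ∑ i : Fin m, (c : F) ^ (i : ℕ) * f i := by
    rw [← Finset.sum_sub_distrib]
    exact Finset.sum_congr rfl fun i _ => by ring
  rw [h1, heq, sub_self]

/-- [H7b] a group of automorphisms which contains the stabiliser of a finite set with finite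
orbits is closed -/
theorem closed_mem [CharZero F] (Γ : Subgroup (F ≃ₐ[A] F)) (X : Finset F)
    (hst : ∀ σ : F ≃ₐ[A] F, (∀ x ∈ X, σ x = x) → σ ∈ Γ)
    (hfin : ∀ x ∈ X, {y | ∃ σ ∈ Γ, σ x = y}.Finite) :
    (IntermediateField.fixedField Γ).fixingSubgroup = Γ := by
  classical
  apply le_antisymm
  · intro σ hσ
    set m := Fintype.card X
    let e : Fin m ≃ X := (Fintype.equivFin X).symm
    set O : Set (Fin m → F) := {f | ∃ τ ∈ Γ, ∀ i, f i = τ (e i)} with hO
    have hOfin : O.Finite := by
      refine (Set.Finite.pi' fun i => hfin (e i) (e i).2).subset ?_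
      rintro f ⟨τ, hτ, h⟩ i
      exact ⟨τ, hτ, (h i).symm⟩
    by_cases hmem : (fun i => σ (e i)) ∈ O
    · obtain ⟨τ, hτ, h⟩ := hmem
      have h1 : τ⁻¹ * σ ∈ Γ := by
        apply hst
        intro x hx
        have h2 := h (e.symm ⟨x, hx⟩)
        simp only [Equiv.apply_symm_apply] at h2
        rw [AlgEquiv.mul_apply, h2]
        exact τ.symm_apply_apply x
      have h2 := Γ.mul_mem hτ h1
      rwa [mul_inv_cancel_left] at h2
    · exfalso
      obtain ⟨c, hc⟩ := exists_sep hOfin.toFinset (fun i => σ (e i))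
        (fun h => hmem (hOfin.mem_toFinset.1 h))
      set θ : (Fin m → F) → F := fun f => ∑ i : Fin m, (c : F) ^ (i : ℕ) * f i with hθ
      set g : F[X] := ∏ f ∈ hOfin.toFinset, (Polynomial.X - C (θ f)) with hg
      have hθm : ∀ (τ : F ≃ₐ[A] F) (f : Fin m → F), τ (θ f) = θ fun i => τ (f i) := by
        intro τ f
        rw [hθ]
        simp only [map_sum, map_mul, map_pow, map_natCast]
      have hinv : ∀ τ ∈ Γ, g.map (τ : F →+* F) = g := by
        intro τ hτ
        rw [hg, Polynomial.map_prod]
        simp only [Polynomial.map_sub, map_X, map_C]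
        refine Finset.prod_bij' (fun f _ => fun i => τ (f i)) (fun f _ => fun i => τ.symm (f i))
          ?_ ?_ ?_ ?_ ?_
        · intro f hf
          rw [Set.Finite.mem_toFinset] at hf ⊢
          obtain ⟨ρ, hρ, h⟩ := hf
          exact ⟨τ * ρ, Γ.mul_mem hτ hρ, fun i => congrArg τ (h i)⟩
        · intro f hf
          rw [Set.Finite.mem_toFinset] at hf ⊢
          obtain ⟨ρ, hρ, h⟩ := hf
          exact ⟨τ⁻¹ * ρ, Γ.mul_mem (Γ.inv_mem hτ) hρ, fun i => congrArg τ.symm (h i)⟩
        · intro f _
          funext i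
          exact τ.symm_apply_apply _
        · intro f _
          funext i
          exact τ.apply_symm_apply _
        · intro f _
          congr 2
          exact hθm τ f
      have hσg : g.map (σ : F →+* F) = g := by
        ext n
        rw [coeff_map]
        have h1 : g.coeff n ∈ IntermediateField.fixedField Γ := by
          rw [IntermediateField.mem_fixedField_iff]
          intro τ hτ
          have := congrArg (fun p => p.coeff n) (hinv τ hτ)
          simp only [coeff_map] at this
          exact this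
        exact (IntermediateField.mem_fixingSubgroup_iff _ σ).1 hσ _ h1
      have hroot : g.IsRoot (θ fun i => (e i : F)) := by
        change eval _ _ = 0
        rw [hg, eval_prod]
        refine Finset.prod_eq_zero (i := fun i => (e i : F)) ?_ (by simp)
        rw [Set.Finite.mem_toFinset]
        exact ⟨1, Γ.one_mem, fun i => rfl⟩
      have h1 : g.IsRoot (σ (θ fun i => (e i : F))) := by
        have h2 := hroot.map (f := (σ : F →+* F))
        rw [hσg] at h2
        exact h2
      have h2 : eval (σ (θ fun i => (e i : F))) g = 0 := h1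
      rw [hg, eval_prod, Finset.prod_eq_zero_iff] at h2
      obtain ⟨f, hf, h3⟩ := h2
      rw [eval_sub, eval_X, eval_C, sub_eq_zero, hθm] at h3
      exact hc f hf h3
  · intro σ hσ
    rw [IntermediateField.mem_fixingSubgroup_iff]
    intro x hx
    exact (IntermediateField.mem_fixedField_iff _ x).1 hx σ hσ

/-- [H7b] closedness, all statements -/
theorem closed_all [IsAlgClosed F] [CharZero F] (Γ : Subgroup (F ≃ₐ[A] F)) (X : Finset F)
    (hst : ∀ σ : F ≃ₐ[A] F, (∀ x ∈ X, σ x = x) → σ ∈ Γ)
    (hfin : ∀ x ∈ X, {y | ∃ σ ∈ Γ, σ x = y}.Finite) :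
    (IntermediateField.fixedField Γ).fixingSubgroup = Γ ∧
      IntermediateField.fixedField Γ ≤ IntermediateField.adjoin A (X : Set F) ∧
      ∀ x ∈ X, IsAlgebraic (IntermediateField.fixedField Γ) x := by
  have h1 := closed_mem Γ X hst hfin
  refine ⟨h1, ?_, fun x hx => ?_⟩
  · apply le_of_fixing
    rw [h1]
    intro σ hσ
    exact hst σ fun x hx => mem_fixing_adjoin.1 hσ x hx
  · apply alg_of_finite_orbit
    rw [h1]
    exact hfin x hx

/-- [H7b] subgroups between two fixing subgroups with finite orbits -/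
theorem fixing_sup (E E' : IntermediateField A F) :
    (E ⊔ E').fixingSubgroup = E.fixingSubgroup ⊓ E'.fixingSubgroup :=
  IntermediateField.fixingSubgroup_sup

/-- [H7d] -/
theorem adjoin_eq_of_stab [IsAlgClosed F] [CharZero F] {S T T' : Set F}
    (h : ∀ σ : F ≃ₐ[A] F, (∀ x ∈ S, σ x = x) → ((∀ x ∈ T, σ x = x) ↔ ∀ x ∈ T', σ x = x)) :
    IntermediateField.adjoin A (S ∪ T) = IntermediateField.adjoin A (S ∪ T') := by
  apply eq_of_fixing
  ext σ
  rw [mem_fixing_adjoin, mem_fixing_adjoin]
  constructor
  · intro h1 x hx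
    have hS : ∀ x ∈ S, σ x = x := fun x hx => h1 x (Or.inl hx)
    rcases hx with hx | hx
    · exact hS x hx
    · exact (h σ hS).1 (fun x hx => h1 x (Or.inr hx)) x hx
  · intro h1 x hx
    have hS : ∀ x ∈ S, σ x = x := fun x hx => h1 x (Or.inl hx)
    rcases hx with hx | hx
    · exact hS x hx
    · exact (h σ hS).2 (fun x hx => h1 x (Or.inr hx)) x hx

end KTS
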