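import Pool.Agent.KTS.HA3

/-!
# [KTS-H] relative algebraic closure and transcendence degrees of intermediate fields
-/

set_option autoImplicit false

namespace KTS

noncomputable section

universe u v

open Cardinal Polynomial

variable {K E : Type u} [Field K] [Field E] [Algebra K E]

/-- the relative algebraic closure of `S` in the big field -/
def cl (S : IntermediateField K E) : IntermediateField K E :=
  (algebraicClosure S E).restrictScalars K

theorem mem_cl {S : IntermediateField K E} {x : E} : x ∈ cl S ↔ IsAlgebraic S x :=
  mem_algebraicClosure_iff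

theorem le_cl (S : IntermediateField K E) : S ≤ cl S := fun x hx =>
  mem_cl.2 (isAlgebraic_algebraMap (⟨x, hx⟩ : S))

theorem alg_mono {S T : IntermediateField K E} (h : S ≤ T) {x : E} (hx : IsAlgebraic S x) :
    IsAlgebraic T x := by
  obtain ⟨p, hp, hpx⟩ := hx
  refine ⟨p.map (IntermediateField.inclusion h : S →+* T), ?_, ?_⟩
  · exact (Polynomial.map_ne_zero_iff (RingHom.injective _)).2 hp
  · rw [aeval_def, eval₂_map]
    exact hpx

theorem cl_mono {S T : IntermediateField K E} (h : S ≤ T) : cl S ≤ cl T := fun _ hx =>
  mem_cl.2 (alg_mono h (mem_cl.1 hx))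

theorem alg_of_cl {S : IntermediateField K E} {x : E} (hx : IsAlgebraic (cl S) x) :
    IsAlgebraic S x := by
  have h1 : IsAlgebraic (algebraicClosure S E) x := hx
  exact IsAlgebraic.restrictScalars S h1

theorem cl_cl (S : IntermediateField K E) : cl (cl S) = cl S :=
  le_antisymm (fun _ hx => mem_cl.2 (alg_of_cl (mem_cl.1 hx))) (le_cl _)

theorem cl_le_iff {S T : IntermediateField K E} : S ≤ cl T ↔ cl S ≤ cl T :=
  ⟨fun h => (cl_mono h).trans (cl_cl T).le, fun h => (le_cl S).trans h⟩

/-- transitivity of algebraicity -/
theorem alg_trans {S T : IntermediateField K E} (h : ∀ x ∈ T, IsAlgebraic S x) {x : E}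
    (hx : IsAlgebraic T x) : IsAlgebraic S x := by
  have h1 : T ≤ cl S := fun y hy => mem_cl.2 (h y hy)
  exact mem_cl.1 (cl_le_iff.1 h1 (mem_cl.2 hx))

theorem isAlgClosed_cl [IsAlgClosed E] (S : IntermediateField K E) : IsAlgClosed (cl S) :=
  (algebraicClosure.isAlgClosure S E).isAlgClosed

/-- an algebraically closed subfield contains the elements algebraic over it -/
theorem mem_of_alg {S : IntermediateField K E} (hS : IsAlgClosed S) {x : E}
    (hx : IsAlgebraic S x) : x ∈ S := by
  have h1 : (minpoly S x).degree = 1 :=
    IsAlgClosed.degree_eq_one_of_irreducible S (minpoly.irreducible hx.isIntegral)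
  obtain ⟨y, hy⟩ := (minpoly.degree_eq_one_iff).1 h1
  rw [← hy]
  exact y.2

theorem cl_eq_of_closed {S : IntermediateField K E} (hS : IsAlgClosed S) : cl S = S :=
  le_antisymm (fun _ hx => mem_of_alg hS (mem_cl.1 hx)) (le_cl S)

/-! ### transcendence degrees -/

theorem td_mono {S T : IntermediateField K E} (h : S ≤ T) :
    Algebra.trdeg K S ≤ Algebra.trdeg K T :=
  trdeg_le_of_injective (IntermediateField.inclusion h) (RingHom.injective _)

theorem td_le_top (S : IntermediateField K E) : Algebra.trdeg K S ≤ Algebra.trdeg K E :=
  trdeg_le_of_injective S.val (RingHom.injective _)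

/-- an algebraic extension does not change the transcendence degree -/
theorem td_alg {S T : IntermediateField K E} (hST : S ≤ T) (h : ∀ x ∈ T, IsAlgebraic S x) :
    Algebra.trdeg K T = Algebra.trdeg K S := by
  let a : Algebra S T := (IntermediateField.inclusion hST).toRingHom.toAlgebra
  have h1 := @tower_trdeg K S T _ _ _ _ _ a (fun x => rfl)
  have h2 : Algebra.IsAlgebraic S T := by
    constructor
    intro x
    obtain ⟨p, hp, hpx⟩ := h x x.2
    refine ⟨p, hp, ?_⟩
    apply Subtype.ext
    have h3 : ((aeval x p : T) : E) = aeval (x : E) p := by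
      rw [aeval_def, aeval_def]
      have h4 : ((eval₂ (algebraMap S T) x p : T) : E) = T.val (eval₂ (algebraMap S T) x p) := rfl
      rw [h4, ← AlgHom.coe_toRingHom, hom_eval₂]
      rfl
    rw [h3, hpx]
    rfl
  have h3 : Algebra.trdeg S T = 0 := _root_.trdeg_eq_zero
  rw [← h1, h3, add_zero]

theorem td_cl (S : IntermediateField K E) : Algebra.trdeg K (cl S) = Algebra.trdeg K S :=
  td_alg (le_cl S) fun _ hx => mem_cl.1 hx

/-- adjoining one transcendental element -/
theorem td_succ {S : IntermediateField K E} {x : E} (hx : Transcendental S x) :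
    Algebra.trdeg K (IntermediateField.adjoin K ((S : Set E) ∪ {x}) : IntermediateField K E) =
      Algebra.trdeg K S + 1 := by
  have h0 : IntermediateField.adjoin K ((S : Set E) ∪ {x}) =
      (IntermediateField.adjoin S {x}).restrictScalars K := by
    rw [IntermediateField.restrictScalars_adjoin]
  rw [h0]
  have h1 : Algebra.trdeg K S + Algebra.trdeg S (IntermediateField.adjoin S {x}) =
      Algebra.trdeg K (IntermediateField.adjoin S {x}) := tower_trdeg _ (fun x => rfl)
  have h2 : Algebra.trdeg S (IntermediateField.adjoin S {x}) = 1 := by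
    apply le_antisymm
    · exact (td_adjoin_le ({x} : Set E)).trans (by rw [Cardinal.mk_singleton])
    · have h3 : AlgebraicIndependent S
          (fun _ : PUnit.{u+1} => IntermediateField.AdjoinSimple.gen S x) := by
        rw [algebraicIndependent_unique_type_iff]
        intro h4
        apply hx
        have h5 := h4.algebraMap (A := E)
        exact h5
      have h4 := h3.cardinalMk_le_trdeg
      rwa [Cardinal.mk_punit] at h4
  rw [h2] at h1
  exact h1.symm

/-- the transcendence degree grows by at most one when one element is adjoined -/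
theorem td_succ_le (S : IntermediateField K E) (x : E) :
    Algebra.trdeg K (IntermediateField.adjoin K ((S : Set E) ∪ {x}) : IntermediateField K E) ≤
      Algebra.trdeg K S + 1 := by
  by_cases hx : IsAlgebraic S x
  · have h1 : IntermediateField.adjoin K ((S : Set E) ∪ {x}) ≤ cl S := by
      rw [IntermediateField.adjoin_le_iff]
      rintro y (hy | rfl)
      · exact le_cl S hy
      · exact mem_cl.2 hx
    exact (td_mono h1).trans ((td_cl S).le.trans (le_add_right le_rfl))
  · exact (td_succ hx).le

/-- with a finite transcendence degree, a subfield of the same degree has the same closure -/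
theorem alg_of_td_le {S T : IntermediateField K E} (hST : S ≤ T)
    (hfin : Algebra.trdeg K S < ℵ₀) (h : Algebra.trdeg K T ≤ Algebra.trdeg K S) {x : E}
    (hx : x ∈ T) : IsAlgebraic S x := by
  by_contra hc
  have h1 := td_succ hc
  have h2 : IntermediateField.adjoin K ((S : Set E) ∪ {x}) ≤ T := by
    rw [IntermediateField.adjoin_le_iff]
    rintro y (hy | rfl)
    · exact hST hy
    · exact hx
  have h3 := (td_mono h2).trans h
  rw [h1] at h3
  obtain ⟨n, hn⟩ := Cardinal.lt_aleph0.1 hfin
  rw [hn] at h3
  have h4 : n + 1 ≤ n := by exact_mod_cast h3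
  omega

/-- the exchange property over the base field -/
theorem exchange_base {x y : E}
    (hy : IsAlgebraic (IntermediateField.adjoin K {x} : IntermediateField K E) y)
    (hy' : Transcendental K y) :
    IsAlgebraic (IntermediateField.adjoin K {y} : IntermediateField K E) x := by
  set T : IntermediateField K E := IntermediateField.adjoin K {x, y} with hT
  have hxT : x ∈ T := IntermediateField.subset_adjoin K _ (by simp)
  have hyT : y ∈ T := IntermediateField.subset_adjoin K _ (by simp)
  have h1 : T ≤ cl (IntermediateField.adjoin K {x}) := by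
    rw [hT, IntermediateField.adjoin_le_iff]
    rintro z (rfl | rfl)
    · exact le_cl _ (IntermediateField.subset_adjoin K _ rfl)
    · exact mem_cl.2 hy
  have h2 : Algebra.trdeg K T ≤ 1 := by
    refine (td_mono h1).trans ((td_cl _).le.trans ((td_adjoin_le ({x} : Set E)).trans ?_))
    rw [Cardinal.mk_singleton]
  have h3 : Algebra.trdeg K (IntermediateField.adjoin K {y} : IntermediateField K E) = 1 := by
    have h4 : Transcendental (⊥ : IntermediateField K E) y := by
      intro h5
      apply hy'
      have h6 : IsAlgebraic (⊥ : IntermediateField K E) y := h5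
      exact IsAlgebraic.restrictScalars K h6
    have h5 := td_succ h4
    have h6 : IntermediateField.adjoin K (((⊥ : IntermediateField K E) : Set E) ∪ {y}) =
        IntermediateField.adjoin K {y} := by
      apply le_antisymm
      · rw [IntermediateField.adjoin_le_iff]
        rintro z (hz | rfl)
        · exact (bot_le : (⊥ : IntermediateField K E) ≤ _) hz
        · exact IntermediateField.subset_adjoin K _ rfl
      · exact IntermediateField.adjoin.mono K _ _ Set.subset_union_right
    rw [h6] at h5
    rw [h5]
    have h7 : Algebra.trdeg K (⊥ : IntermediateField K E) = 0 :=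
      _root_.trdeg_eq_zero
    rw [h7, zero_add]
  refine alg_of_td_le (S := IntermediateField.adjoin K {y}) (T := T) ?_ ?_ ?_ hxT
  · exact IntermediateField.adjoin.mono K _ _ (by simp)
  · rw [h3]
    exact Cardinal.one_lt_aleph0
  · rw [h3]
    exact h2

/-- the exchange property -/
theorem exchange {S : IntermediateField K E} {x y : E}
    (hy : IsAlgebraic (IntermediateField.adjoin K ((S : Set E) ∪ {x}) : IntermediateField K E) y)
    (hy' : Transcendental S y) :
    IsAlgebraic (IntermediateField.adjoin K ((S : Set E) ∪ {y}) : IntermediateField K E) x := by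
  rw [← IntermediateField.restrictScalars_adjoin] at hy ⊢
  exact exchange_base (K := S) hy hy'

end

end KTS
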