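import Pool.Agent.KTS.HC0
import Pool.Agent.KTS.HB1

/-!
# [KTS-H5] residue fields and the rank inequality
-/

set_option autoImplicit false

namespace KTS

noncomputable section

universe u v

open Cardinal Polynomial HahnSeries

variable {Ω : Type u} [Field Ω]

/-! ### the valuation ring and the residue map -/

theorem coeff_mul_add {x y : HahnSeries ℚ Ω} {p q : ℚ} (hx : (p : WithTop ℚ) ≤ x.orderTop)
    (hy : (q : WithTop ℚ) ≤ y.orderTop) : (x * y).coeff (p + q) = x.coeff p * y.coeff q := by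
  have hmul : (x * y).orderTop = x.orderTop + y.orderTop := (hv Ω).map_mul x y
  rcases hx.lt_or_eq with hx' | hx'
  · rw [coeff_eq_zero_of_lt_orderTop hx', zero_mul]
    apply coeff_eq_zero_of_lt_orderTop
    rw [hmul, WithTop.coe_add]
    exact WithTop.add_lt_add_of_lt_of_le WithTop.coe_ne_top hx' hy
  · rcases hy.lt_or_eq with hy' | hy'
    · rw [coeff_eq_zero_of_lt_orderTop hy', mul_zero]
      apply coeff_eq_zero_of_lt_orderTop
      rw [hmul, WithTop.coe_add]
      exact WithTop.add_lt_add_of_le_of_lt WithTop.coe_ne_top hx hy'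
    · have hx0 : x ≠ 0 := by
        rintro rfl
        rw [orderTop_zero] at hx'
        exact WithTop.coe_ne_top hx'
      have hy0 : y ≠ 0 := by
        rintro rfl
        rw [orderTop_zero] at hy'
        exact WithTop.coe_ne_top hy'
      have h1 : x.order = p := by
        rw [← WithTop.coe_inj, order_eq_orderTop_of_ne_zero hx0, hx']
      have h2 : y.order = q := by
        rw [← WithTop.coe_inj, order_eq_orderTop_of_ne_zero hy0, hy']
      have h3 := coeff_mul_order_add_order x y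
      rw [h1, h2] at h3
      rw [h3, leadingCoeff_eq, leadingCoeff_eq, h1, h2]

variable (Ω) in
/-- the valuation ring -/
def Oint : Subring (HahnSeries ℚ Ω) where
  carrier := {x | (0 : WithTop ℚ) ≤ x.orderTop}
  mul_mem' := by
    intro a b ha hb
    have hmul : (a * b).orderTop = a.orderTop + b.orderTop := (hv Ω).map_mul a b
    simp only [Set.mem_ofPred_eq] at ha hb ⊢
    rw [hmul]
    exact add_nonneg ha hb
  one_mem' := by
    simp only [Set.mem_ofPred_eq]
    rw [orderTop_one]
  add_mem' := by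
    intro a b ha hb
    exact le_trans (le_min ha hb) ((hv Ω).map_add a b)
  zero_mem' := by
    simp only [Set.mem_ofPred_eq, orderTop_zero]
    exact le_top
  neg_mem' := by
    intro a ha
    simp only [Set.mem_ofPred_eq] at ha ⊢
    rwa [orderTop_neg]

theorem mem_Oint {x : HahnSeries ℚ Ω} : x ∈ Oint Ω ↔ (0 : WithTop ℚ) ≤ x.orderTop := Iff.rfl

variable (Ω) in
/-- the residue map -/
def res : Oint Ω →+* Ω where
  toFun x := x.1.coeff 0
  map_one' := coeff_one.trans (if_pos rfl)
  map_mul' x y := by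
    have h := coeff_mul_add (p := 0) (q := 0) x.2 y.2
    rwa [add_zero] at h
  map_zero' := rfl
  map_add' x y := rfl

@[simp] theorem res_apply (x : Oint Ω) : res Ω x = x.1.coeff 0 := rfl

theorem C_mem_Oint (c : Ω) : (HahnSeries.C c : HahnSeries ℚ Ω) ∈ Oint Ω := by
  rw [mem_Oint, C_apply]
  by_cases hc : c = 0
  · rw [hc, single_eq_zero, orderTop_zero]
    exact le_top
  · rw [orderTop_single hc]
    rfl

variable {k : Type u} [Field k] [Algebra k Ω]

theorem orderTop_algebraMap (x : HahnSeries ℚ k) :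
    (algebraMap (HahnSeries ℚ k) (HahnSeries ℚ Ω) x).orderTop = x.orderTop :=
  orderTop_hmapA (Algebra.ofId k Ω) x

theorem algebraMap_single (q : ℚ) (c : k) :
    algebraMap (HahnSeries ℚ k) (HahnSeries ℚ Ω) (single q c) = single q (algebraMap k Ω c) := by
  ext p
  rw [algebraMap_hahn, hmap_coeff, coeff_single, coeff_single]
  split_ifs
  · rfl
  · exact map_zero _

/-! ### residue fields of subfields -/

/-- residue field of an intermediate field -/
def kap (S : IntermediateField (HahnSeries ℚ k) (HahnSeries ℚ Ω)) : IntermediateField k Ω where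
  carrier := {c | ∃ x ∈ S, x ∈ Oint Ω ∧ x.coeff 0 = c}
  mul_mem' := by
    rintro _ _ ⟨x, hx, hx0, rfl⟩ ⟨y, hy, hy0, rfl⟩
    exact ⟨x * y, S.mul_mem hx hy, (Oint Ω).mul_mem hx0 hy0, (res Ω).map_mul ⟨x, hx0⟩ ⟨y, hy0⟩⟩
  add_mem' := by
    rintro _ _ ⟨x, hx, hx0, rfl⟩ ⟨y, hy, hy0, rfl⟩
    exact ⟨x + y, S.add_mem hx hy, (Oint Ω).add_mem hx0 hy0, rfl⟩
  algebraMap_mem' c := by
    refine ⟨HahnSeries.C (algebraMap k Ω c), ?_, C_mem_Oint _, ?_⟩
    · rw [C_apply, ← algebraMap_single]
      exact S.algebraMap_mem _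
    · rw [C_apply, coeff_single_same]
  inv_mem' := by
    rintro _ ⟨x, hx, hx0, rfl⟩
    by_cases h : x.coeff 0 = 0
    · exact ⟨0, S.zero_mem, (Oint Ω).zero_mem, by rw [h, inv_zero]; rfl⟩
    · have h1 : x.orderTop = ((0 : ℚ) : WithTop ℚ) := by
        refine le_antisymm ?_ hx0
        exact orderTop_le_of_coeff_ne_zero h
      have h2 : x * x⁻¹ = 1 := by
        apply mul_inv_cancel₀
        rintro rfl
        exact h rfl
      have h3 : x⁻¹ ∈ Oint Ω := by
        rw [mem_Oint, orderTop_inv h1, neg_zero]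
        rfl
      refine ⟨x⁻¹, S.inv_mem hx, h3, ?_⟩
      have h4 := (res Ω).map_mul ⟨x, hx0⟩ ⟨x⁻¹, h3⟩
      have h5 : (⟨x, hx0⟩ * ⟨x⁻¹, h3⟩ : Oint Ω) = 1 := Subtype.ext h2
      rw [h5, map_one] at h4
      exact eq_inv_of_mul_eq_one_right h4.symm

theorem mem_kap {S : IntermediateField (HahnSeries ℚ k) (HahnSeries ℚ Ω)} {c : Ω} :
    c ∈ kap S ↔ ∃ x ∈ S, x ∈ Oint Ω ∧ x.coeff 0 = c := Iff.rfl

theorem kap_mono {S T : IntermediateField (HahnSeries ℚ k) (HahnSeries ℚ Ω)} (h : S ≤ T) :
    kap S ≤ kap T := by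
  rintro _ ⟨x, hx, hx0, rfl⟩
  exact ⟨x, h hx, hx0, rfl⟩

/-- leading coefficients are in the residue field -/
theorem lc_mem_kap {S : IntermediateField (HahnSeries ℚ k) (HahnSeries ℚ Ω)} {x : HahnSeries ℚ Ω}
    (hx : x ∈ S) : (rv x).1 ∈ kap S := by
  by_cases h0 : x = 0
  · rw [h0, rv_zero]
    exact (kap S).zero_mem
  · have h1 : (single (-x.order) (1 : Ω)) ∈ S := by
      have h2 := S.algebraMap_mem (single (-x.order) (1 : k))
      rwa [algebraMap_single, map_one] at h2
    refine ⟨x * single (-x.order) 1, S.mul_mem hx h1, ?_, ?_⟩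
    · rw [mem_Oint]
      have h2 : (x * single (-x.order) (1 : Ω)).orderTop =
        x.orderTop + (single (-x.order) (1 : Ω)).orderTop := (hv Ω).map_mul _ _
      rw [h2, orderTop_single one_ne_zero, ← order_eq_orderTop_of_ne_zero h0, ← WithTop.coe_add,
        add_neg_cancel]
      rfl
    · have h2 := coeff_mul_single_add (r := (1 : Ω)) (x := x) (a := x.order) (b := -x.order)
      rw [add_neg_cancel, mul_one] at h2
      rw [h2, rv_fst, leadingCoeff_eq]

/-- elements of the base constant field `Ω` in `S` are in the residue field -/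
theorem mem_kap_of_C {S : IntermediateField (HahnSeries ℚ k) (HahnSeries ℚ Ω)} {c : Ω}
    (h : HahnSeries.C c ∈ S) : c ∈ kap S :=
  ⟨_, h, C_mem_Oint c, by rw [C_apply, coeff_single_same]⟩

/-! ### the residue field of an algebraically closed field -/

/-- a root of a monic polynomial with integral coefficients is integral -/
theorem root_mem_Oint {p : (Oint Ω)[X]} (hp : p.Monic) {x : HahnSeries ℚ Ω}
    (hx : p.eval₂ (Oint Ω).subtype x = 0) : x ∈ Oint Ω := by
  by_contra hc
  rw [mem_Oint, not_le] at hc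
  have hx0 : x ≠ 0 := by
    rintro rfl
    rw [orderTop_zero] at hc
    exact not_top_lt hc
  have h1 : x⁻¹ ∈ Oint Ω ∧ 0 < x⁻¹.orderTop := by
    obtain ⟨q, hq⟩ := WithTop.ne_top_iff_exists.1 (orderTop_ne_top.2 hx0)
    have hq' : x.orderTop = (q : WithTop ℚ) := hq.symm
    rw [hq'] at hc
    have hc' : q < 0 := by exact_mod_cast hc
    have h2 : (0 : WithTop ℚ) < x⁻¹.orderTop := by
      rw [orderTop_inv hq']
      have h3 : (0 : ℚ) < -q := by linarith
      exact_mod_cast h3
    exact ⟨h2.le, h2⟩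
  -- divide by `x ^ n`
  set n := p.natDegree with hn
  have hn0 : n ≠ 0 := by
    intro h0
    have h2 : p = 1 := hp.natDegree_eq_zero.1 h0
    rw [h2, eval₂_one] at hx
    exact one_ne_zero hx
  have h2 : ∑ i ∈ Finset.range n, ((p.coeff i : Oint Ω) : HahnSeries ℚ Ω) * (x⁻¹) ^ (n - i) =
      -1 := by
    rw [eval₂_eq_sum_range, ← hn, Finset.sum_range_succ] at hx
    have h3 : p.coeff n = 1 := hp.coeff_natDegree
    rw [h3, map_one, one_mul] at hx
    have h4 : ∀ i ∈ Finset.range n, ((p.coeff i : Oint Ω) : HahnSeries ℚ Ω) * (x⁻¹) ^ (n - i) =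
        ((Oint Ω).subtype (p.coeff i) * x ^ i) * (x ^ n)⁻¹ := by
      intro i hi
      have h5 : x ^ n = x ^ i * x ^ (n - i) := by
        rw [← _root_.pow_add]
        congr 1
        have := Finset.mem_range.1 hi
        omega
      have h6 : (x⁻¹) ^ (n - i) * x ^ (n - i) = 1 := by
        rw [← mul_pow, inv_mul_cancel₀ hx0, one_pow]
      rw [Subring.subtype_apply, eq_mul_inv_iff_mul_eq₀ (pow_ne_zero _ hx0), h5]
      calc ((p.coeff i : Oint Ω) : HahnSeries ℚ Ω) * (x⁻¹) ^ (n - i) * (x ^ i * x ^ (n - i))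
          = ((p.coeff i : Oint Ω) : HahnSeries ℚ Ω) * x ^ i * ((x⁻¹) ^ (n - i) * x ^ (n - i)) := by
            ring
        _ = _ := by rw [h6, mul_one]
    rw [Finset.sum_congr rfl h4, ← Finset.sum_mul, eq_neg_of_add_eq_zero_left hx]
    field_simp
  set y : Oint Ω := ⟨x⁻¹, h1.1⟩ with hy
  have h3 : ∑ i ∈ Finset.range n, p.coeff i * y ^ (n - i) = -1 := by
    apply Subtype.ext
    rw [AddSubmonoidClass.coe_finsetSum]
    exact h2
  have h4 := congrArg (res Ω) h3
  rw [map_sum, map_neg, map_one] at h4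
  have h5 : res Ω y = 0 := coeff_eq_zero_of_lt_orderTop h1.2
  rw [Finset.sum_eq_zero] at h4
  · have h6 : (1 : Ω) = 0 := by
      rw [← neg_eq_zero, ← h4]
    exact one_ne_zero h6
  · intro i hi
    rw [map_mul, map_pow, h5, zero_pow, mul_zero]
    have := Finset.mem_range.1 hi
    omega

theorem deg_sum_lt {R : Type v} [Semiring R] (n : ℕ) (c : ℕ → R) :
    (∑ i ∈ Finset.range n, Polynomial.C (c i) * X ^ i).degree < ((n : ℕ) : WithBot ℕ) := by
  refine mem_degreeLT.1 (Submodule.sum_mem _ fun i hi => mem_degreeLT.2 ?_)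
  exact (degree_C_mul_X_pow_le _ _).trans_lt (by exact_mod_cast Finset.mem_range.1 hi)

theorem isAlgClosed_kap {S : IntermediateField (HahnSeries ℚ k) (HahnSeries ℚ Ω)}
    (hS : IsAlgClosed S) : IsAlgClosed (kap S) := by
  refine IsAlgClosed.of_exists_root _ fun f hf hirr => ?_
  -- a monic lift
  choose g hg using fun c : kap S => c.2
  set n := f.natDegree with hn
  have hn1 : 1 ≤ n := hirr.natDegree_pos
  set P : S[X] := X ^ n + ∑ i ∈ Finset.range n,
    Polynomial.C (⟨g (f.coeff i), (hg (f.coeff i)).1⟩ : S) * X ^ i with hP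
  set Q : (Oint Ω)[X] := X ^ n + ∑ i ∈ Finset.range n,
    Polynomial.C (⟨g (f.coeff i), (hg (f.coeff i)).2.1⟩ : Oint Ω) * X ^ i with hQ
  have hdS : (∑ i ∈ Finset.range n,
    Polynomial.C (⟨g (f.coeff i), (hg (f.coeff i)).1⟩ : S) * X ^ i).degree < ((n : ℕ) : WithBot ℕ) := by
    exact deg_sum_lt n _
  have hdQ : (∑ i ∈ Finset.range n,
    Polynomial.C (⟨g (f.coeff i), (hg (f.coeff i)).2.1⟩ : Oint Ω) * X ^ i).degree < ((n : ℕ) : WithBot ℕ) := by
    exact deg_sum_lt n _
  have hPd : P.degree = n := by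
    rw [hP, degree_add_eq_left_of_degree_lt, degree_X_pow]
    rwa [degree_X_pow]
  have hQm : Q.Monic := monic_X_pow_add hdQ
  obtain ⟨x, hx⟩ := IsAlgClosed.exists_root P (by
    rw [hPd]
    intro h0
    have : n = 0 := by exact_mod_cast h0
    omega)
  have hx1 : Q.eval₂ (Oint Ω).subtype (x : HahnSeries ℚ Ω) = 0 := by
    have h1 := congrArg (algebraMap S (HahnSeries ℚ Ω)) hx
    rw [map_zero, hP, eval_add, eval_finsetSum] at h1
    simp only [eval_mul, eval_C, eval_pow, eval_X, map_add, map_sum, map_mul, map_pow] at h1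
    rw [hQ, eval₂_add, eval₂_finsetSum]
    simp only [eval₂_mul, eval₂_C, eval₂_pow, eval₂_X]
    exact h1
  have hx2 := root_mem_Oint hQm hx1
  refine ⟨⟨(x : HahnSeries ℚ Ω).coeff 0, x, x.2, hx2, rfl⟩, ?_⟩
  have h2 : Q.eval (⟨x, hx2⟩ : Oint Ω) = 0 := by
    apply Subtype.ext
    have h3 := hom_eval₂ Q (RingHom.id _) (Oint Ω).subtype (⟨x, hx2⟩ : Oint Ω)
    rw [RingHom.comp_id] at h3
    exact h3.trans hx1
  have h3 := congrArg (res Ω) h2
  rw [map_zero, hQ, eval_add, eval_finsetSum] at h3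
  simp only [eval_mul, eval_C, eval_pow, eval_X, map_add, map_sum, map_mul, map_pow] at h3
  apply Subtype.ext
  have h4 : ((f.eval (⟨(x : HahnSeries ℚ Ω).coeff 0, x, x.2, hx2, rfl⟩ : kap S) : kap S) : Ω) =
    f.eval₂ (algebraMap (kap S) Ω) ((x : HahnSeries ℚ Ω).coeff 0) := by
    have h5 := hom_eval₂ f (RingHom.id _) (algebraMap (kap S) Ω)
      (⟨(x : HahnSeries ℚ Ω).coeff 0, x, x.2, hx2, rfl⟩ : kap S)
    rw [RingHom.comp_id] at h5
    exact h5
  rw [h4, eval₂_eq_sum_range, ← hn, Finset.sum_range_succ]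
  have h5 : f.coeff n = 1 := hf.coeff_natDegree
  rw [h5, map_one, one_mul, add_comm]
  refine Eq.trans ?_ h3
  congr 1
  refine Finset.sum_congr rfl fun i hi => ?_
  congr 1
  exact (hg (f.coeff i)).2.2.symm

/-! ### the rank inequality -/

/-- [H5] lifts of algebraically independent residues are algebraically independent -/
theorem algInd_of_res {ι : Type v} {x : ι → HahnSeries ℚ Ω} (h0 : ∀ i, x i ∈ Oint Ω)
    (h : AlgebraicIndependent k (fun i => (x i).coeff 0)) :
    AlgebraicIndependent (HahnSeries ℚ k) x := by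
  classical
  rw [algebraicIndependent_iff]
  intro P hP
  by_contra hne
  have hsupp : P.support.Nonempty := MvPolynomial.support_nonempty.2 hne
  obtain ⟨m, hm, hmin⟩ := Finset.exists_min_image P.support (fun m => (P.coeff m).order) hsupp
  set g := (P.coeff m).order with hg
  have hm0 : P.coeff m ≠ 0 := MvPolynomial.mem_support_iff.1 hm
  -- the scaled polynomial
  set P' : MvPolynomial ι (HahnSeries ℚ k) := MvPolynomial.C (single (-g) 1) * P with hP'
  have hc : ∀ m', P'.coeff m' = single (-g) 1 * P.coeff m' := fun m' =>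
    MvPolynomial.coeff_C_mul _ _ _
  have hint : ∀ m', P'.coeff m' ∈ Oint k := by
    intro m'
    rw [hc]
    by_cases h1 : P.coeff m' = 0
    · rw [h1, mul_zero]
      exact (Oint k).zero_mem
    · have h2 := hmin m' (MvPolynomial.mem_support_iff.2 h1)
      rw [mem_Oint]
      have h3 : (single (-g) (1 : k) * P.coeff m').orderTop =
        (single (-g) (1 : k)).orderTop + (P.coeff m').orderTop := (hv k).map_mul _ _
      rw [h3, orderTop_single one_ne_zero, ← order_eq_orderTop_of_ne_zero h1, ← WithTop.coe_add]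
      have h4 : (0 : ℚ) ≤ -g + (P.coeff m').order := by linarith
      exact_mod_cast h4
  have hmc : (P'.coeff m).coeff 0 ≠ 0 := by
    rw [hc]
    have h2 := coeff_single_mul_add (r := (1 : k)) (x := P.coeff m) (a := g) (b := -g)
    rw [add_neg_cancel, one_mul] at h2
    rw [h2, hg, ← leadingCoeff_eq]
    exact leadingCoeff_ne_zero.2 hm0
  obtain ⟨Q, hQ⟩ : P' ∈ Set.range (MvPolynomial.map (σ := ι) (Oint k).subtype) := by
    rw [MvPolynomial.mem_range_map_iff_coeffs_subset]
    intro c hc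
    obtain ⟨m', -, rfl⟩ := MvPolynomial.mem_coeffs_iff.1 hc
    exact ⟨⟨_, hint m'⟩, rfl⟩
  -- the coefficients map to the valuation ring
  let φ : Oint k →+* Oint Ω := ((algebraMap (HahnSeries ℚ k) (HahnSeries ℚ Ω)).comp
    (Oint k).subtype).codRestrict (Oint Ω) fun c => by
      rw [mem_Oint, RingHom.comp_apply, orderTop_algebraMap]
      exact c.2
  have hev : MvPolynomial.eval₂Hom φ (fun i => (⟨x i, h0 i⟩ : Oint Ω)) Q = 0 := by
    apply Subtype.ext
    have h1 : (((MvPolynomial.eval₂Hom φ (fun i => (⟨x i, h0 i⟩ : Oint Ω)) Q : Oint Ω)) :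
        HahnSeries ℚ Ω) = MvPolynomial.aeval x P' := by
      rw [← hQ, MvPolynomial.aeval_def, MvPolynomial.eval₂_map, MvPolynomial.coe_eval₂Hom]
      have h2 := MvPolynomial.hom_eval₂ Q φ (Oint Ω).subtype (fun i => (⟨x i, h0 i⟩ : Oint Ω))
      exact h2
    rw [h1, hP', map_mul, hP, mul_zero]
    rfl
  have hres := congrArg (res Ω) hev
  rw [map_zero, MvPolynomial.coe_eval₂Hom, MvPolynomial.hom_eval₂] at hres
  have h1 : (res Ω).comp φ = (algebraMap k Ω).comp (res k) := by
    ext c
    rfl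
  rw [h1, ← MvPolynomial.eval₂_map] at hres
  have h2 : MvPolynomial.aeval (fun i => (x i).coeff 0) (MvPolynomial.map (res k) Q) = 0 := hres
  have h3 := algebraicIndependent_iff.1 h _ h2
  have h4 := congrArg (MvPolynomial.coeff m) h3
  rw [MvPolynomial.coeff_map, MvPolynomial.coeff_zero, res_apply] at h4
  apply hmc
  rw [← hQ, MvPolynomial.coeff_map]
  exact h4

/-- [H5] rank inequality -/
theorem trdeg_kap_le (S : IntermediateField (HahnSeries ℚ k) (HahnSeries ℚ Ω)) :
    Algebra.trdeg k (kap S) ≤ Algebra.trdeg (HahnSeries ℚ k) S := by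
  obtain ⟨B, hB⟩ := exists_isTranscendenceBasis k (kap S)
  rw [← hB.cardinalMk_eq_trdeg]
  choose g hg using fun c : kap S => c.2
  have h1 : AlgebraicIndependent k (fun b : B => (g b.1).coeff 0) := by
    have h2 := hB.1.map' (f := (kap S).val) (RingHom.injective _)
    convert h2 using 1
    funext b
    exact (hg b.1).2.2
  have h2 := algInd_of_res (k := k) (fun b : B => (hg b.1).2.1) h1
  have h3 : AlgebraicIndependent (HahnSeries ℚ k) (fun b : B => (⟨g b.1, (hg b.1).1⟩ : S)) :=
    AlgebraicIndependent.of_comp S.val h2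
  exact h3.cardinalMk_le_trdeg

end

end KTS
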