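import Pool.Agent.KTS.Defs
import Pool.Agent.KTS.HC1

/-!
# [KTS-H6] generic elements, existence and extension of points
-/

set_option autoImplicit false

namespace KTS

noncomputable section

universe u v w

open Cardinal Polynomial

/-! ### transcendence degree of suprema -/

section TD

variable {K E : Type u} [Field K] [Field E] [Algebra K E]

/-- a transcendence basis of a subfield -/
theorem exists_basis (S : IntermediateField K E) :
    ∃ B : Set E, B ⊆ S ∧ #B = Algebra.trdeg K S ∧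
      ∀ x ∈ S, IsAlgebraic (IntermediateField.adjoin K B : IntermediateField K E) x := by
  obtain ⟨B, hB⟩ := exists_isTranscendenceBasis K S
  refine ⟨Subtype.val '' B, ?_, ?_, ?_⟩
  · rintro _ ⟨y, -, rfl⟩
    exact y.2
  · rw [Cardinal.mk_image_eq Subtype.val_injective, ← hB.cardinalMk_eq_trdeg]
  · intro x hx
    have h1 := hB.isAlgebraic
    rw [Subtype.range_coe] at h1
    obtain ⟨p, hp, hpx⟩ := h1.isAlgebraic (⟨x, hx⟩ : S)
    -- transport the polynomial
    let f : Algebra.adjoin K B →+* (IntermediateField.adjoin K (Subtype.val '' B) :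
        IntermediateField K E) :=
      ((algebraMap S E).comp (Algebra.adjoin K B).val.toRingHom).codRestrict
        (IntermediateField.adjoin K (Subtype.val '' B)).toSubring (by
          rintro ⟨y, hy⟩
          have h2 : (Algebra.adjoin K B).map S.val ≤
              (IntermediateField.adjoin K (Subtype.val '' B)).toSubalgebra := by
            rw [AlgHom.map_adjoin]
            exact Algebra.adjoin_le (IntermediateField.subset_adjoin K _)
          exact h2 ⟨y, hy, rfl⟩)
    have hf : Function.Injective f := by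
      intro a b hab
      have h3 : ((f a : (IntermediateField.adjoin K (Subtype.val '' B) :
        IntermediateField K E)) : E) = (f b : (IntermediateField.adjoin K (Subtype.val '' B) :
        IntermediateField K E)) := by rw [hab]
      apply Subtype.ext
      apply Subtype.ext
      exact h3
    refine ⟨p.map f, (Polynomial.map_ne_zero_iff hf).2 hp, ?_⟩
    rw [aeval_def, eval₂_map]
    have h2 := congrArg (algebraMap S E) hpx
    rw [map_zero, aeval_def, hom_eval₂] at h2
    exact h2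

theorem td_adjoin_lt {B : Set E} (h : #B < ℵ₀) :
    Algebra.trdeg K (IntermediateField.adjoin K B : IntermediateField K E) < ℵ₀ :=
  (td_adjoin_le B).trans_lt h

theorem td_sup_le (S T : IntermediateField K E) :
    Algebra.trdeg K (S ⊔ T : IntermediateField K E) ≤ Algebra.trdeg K S + Algebra.trdeg K T := by
  obtain ⟨B, -, hBc, hB⟩ := exists_basis S
  obtain ⟨C, -, hCc, hC⟩ := exists_basis T
  have h1 : S ⊔ T ≤ cl (IntermediateField.adjoin K (B ∪ C)) := by
    rw [sup_le_iff]
    constructor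
    · intro x hx
      exact cl_mono (IntermediateField.adjoin.mono K _ _ Set.subset_union_left)
        (mem_cl.2 (hB x hx))
    · intro x hx
      exact cl_mono (IntermediateField.adjoin.mono K _ _ Set.subset_union_right)
        (mem_cl.2 (hC x hx))
  refine (td_mono h1).trans ((td_cl _).le.trans ((td_adjoin_le _).trans ?_))
  rw [← hBc, ← hCc]
  exact Cardinal.mk_union_le B C

theorem td_sup_lt {S T : IntermediateField K E} (hS : Algebra.trdeg K S < ℵ₀)
    (hT : Algebra.trdeg K T < ℵ₀) : Algebra.trdeg K (S ⊔ T : IntermediateField K E) < ℵ₀ :=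
  (td_sup_le S T).trans_lt (Cardinal.add_lt_aleph0 hS hT)

/-- a field of infinite transcendence degree has elements transcendental over any subfield of
finite transcendence degree -/
theorem exists_trans {S : IntermediateField K E} (hS : Algebra.trdeg K S < ℵ₀)
    (hE : ℵ₀ ≤ Algebra.trdeg K E) : ∃ x : E, x ∉ cl S := by
  by_contra hc
  push Not at hc
  have h1 : cl S = ⊤ := top_unique fun x _ => hc x
  have h2 := td_cl S
  rw [h1] at h2
  have h3 : Algebra.trdeg K (⊤ : IntermediateField K E) = Algebra.trdeg K E :=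
    (IntermediateField.topEquiv (F := K) (E := E)).trdeg_eq
  rw [h3] at h2
  rw [h2] at hE
  exact absurd hS (not_lt.2 hE)

theorem transcendental_iff_cl {S : IntermediateField K E} {x : E} :
    Transcendental S x ↔ x ∉ cl S := by
  rw [mem_cl]
  rfl

/-- [embeddings] a transcendence basis can be mapped to any algebraically independent family -/
theorem emb_of_algInd {M : Type u} [Field M] [Algebra K M] [IsAlgClosed M] {ι : Type v}
    {v : ι → E} (hv : IsTranscendenceBasis K v) {w : ι → M} (hw : AlgebraicIndependent K w) :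
    ∃ f : E →ₐ[K] M, ∀ i, f (v i) = w i := by
  let R := Algebra.adjoin K (Set.range v)
  let e : R →ₐ[K] M := (MvPolynomial.aeval w).comp (hv.1.aevalEquiv).symm.toAlgHom
  have he : Function.Injective e := by
    have h1 : Function.Injective (MvPolynomial.aeval (R := K) w) := hw
    exact h1.comp (hv.1.aevalEquiv).symm.injective
  let a : Algebra R M := e.toRingHom.toAlgebra
  have : IsScalarTower K R M := IsScalarTower.of_algebraMap_eq fun x => (e.commutes x).symm
  have : Module.IsTorsionFree R E := inferInstance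
  have h1 : Algebra.IsAlgebraic R E := hv.isAlgebraic
  have : FaithfulSMul R M := (faithfulSMul_iff_algebraMap_injective R M).2 he
  have : Module.IsTorsionFree R M := inferInstance
  let f : E →ₐ[R] M := IsAlgClosed.lift
  refine ⟨f.restrictScalars K, fun i => ?_⟩
  have h2 := f.commutes ⟨v i, Algebra.subset_adjoin ⟨i, rfl⟩⟩
  have h3 : e ⟨v i, Algebra.subset_adjoin ⟨i, rfl⟩⟩ = w i := by
    have h4 : (hv.1.aevalEquiv).symm ⟨v i, Algebra.subset_adjoin ⟨i, rfl⟩⟩ = MvPolynomial.X i := by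
      rw [AlgEquiv.symm_apply_eq]
      apply Subtype.ext
      rw [AlgebraicIndependent.aevalEquiv_apply_coe, MvPolynomial.aeval_X]
    change MvPolynomial.aeval w ((hv.1.aevalEquiv).symm _) = _
    rw [h4, MvPolynomial.aeval_X]
  exact h2.trans h3

end TD

/-! ### points and subfields -/

section Points

variable {k Ω F : Type u} [Field k] [Field Ω] [Algebra k Ω] [Field F] [Algebra (HahnSeries ℚ k) F]

/-- the image of a subfield under a point -/
abbrev imE (φ : Pt k Ω F) (E : IntermediateField (HahnSeries ℚ k) F) :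
    IntermediateField (HahnSeries ℚ k) (HahnSeries ℚ Ω) := E.map φ

theorem td_imE (φ : Pt k Ω F) (E : IntermediateField (HahnSeries ℚ k) F) :
    Algebra.trdeg (HahnSeries ℚ k) (imE φ E) = Algebra.trdeg (HahnSeries ℚ k) E :=
  (IntermediateField.equivMap E φ).trdeg_eq.symm

theorem algO_iff {φ : Pt k Ω F} {E : IntermediateField (HahnSeries ℚ k) F} {y : HahnSeries ℚ Ω} :
    AlgO φ E y ↔ y ∈ cl (imE φ E) := by
  rw [mem_cl]
  constructor
  · rintro ⟨g, hg, hgE, hgy⟩
    let g' : (imE φ E)[X] := ∑ n ∈ g.support, Polynomial.C (⟨φ (g.coeff n), g.coeff n, hgE n, rfl⟩ :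
      imE φ E) * X ^ n
    have h1 : g'.map (algebraMap (imE φ E) (HahnSeries ℚ Ω)) =
        g.map (φ : F →+* HahnSeries ℚ Ω) := by
      rw [Polynomial.map_sum]
      conv_rhs => rw [g.as_sum_support_C_mul_X_pow, Polynomial.map_sum]
      refine Finset.sum_congr rfl fun n _ => ?_
      rw [Polynomial.map_mul, Polynomial.map_mul, Polynomial.map_C, Polynomial.map_C,
        Polynomial.map_pow, Polynomial.map_pow, Polynomial.map_X, Polynomial.map_X]
      rfl
    refine ⟨g', ?_, ?_⟩
    · intro h0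
      rw [h0, Polynomial.map_zero] at h1
      exact (Polynomial.map_ne_zero_iff (φ : F →+* HahnSeries ℚ Ω).injective).2 hg h1.symm
    · rw [aeval_def, ← eval_map, h1]
      exact hgy
  · rintro ⟨g', hg', hgy⟩
    let f : imE φ E →+* F :=
      E.val.toRingHom.comp (IntermediateField.equivMap E φ).symm.toAlgHom.toRingHom
    have hf : ∀ z : imE φ E, φ (f z) = z := by
      intro z
      have h1 := congrArg Subtype.val ((IntermediateField.equivMap E φ).apply_symm_apply z)
      exact h1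
    refine ⟨g'.map f, (Polynomial.map_ne_zero_iff f.injective).2 hg', ?_, ?_⟩
    · intro n
      rw [coeff_map]
      exact ((IntermediateField.equivMap E φ).symm (g'.coeff n)).2
    · rw [Polynomial.map_map]
      have h1 : (φ : F →+* HahnSeries ℚ Ω).comp f = algebraMap (imE φ E) (HahnSeries ℚ Ω) := by
        ext1 z
        exact hf z
      rw [h1, eval_map]
      exact hgy

/-- the residue field of the algebraic closure of the image of `E` -/
def kapE (φ : Pt k Ω F) (E : IntermediateField (HahnSeries ℚ k) F) : IntermediateField k Ω :=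
  kap (cl (imE φ E))

theorem td_kapE_le (φ : Pt k Ω F) (E : IntermediateField (HahnSeries ℚ k) F) :
    Algebra.trdeg k (kapE φ E) ≤ Algebra.trdeg (HahnSeries ℚ k) E :=
  (trdeg_kap_le _).trans ((td_cl _).le.trans (td_imE φ E).le)

theorem isAlgClosed_kapE [IsAlgClosed Ω] (φ : Pt k Ω F)
    (E : IntermediateField (HahnSeries ℚ k) F) : IsAlgClosed (kapE φ E) :=
  isAlgClosed_kap (isAlgClosed_cl _)

theorem kapE_mono (φ : Pt k Ω F) {E E' : IntermediateField (HahnSeries ℚ k) F} (h : E ≤ E') :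
    kapE φ E ≤ kapE φ E' :=
  kap_mono (cl_mono (IntermediateField.map_mono _ h))

theorem kapE_congr {φ ψ : Pt k Ω F} {E : IntermediateField (HahnSeries ℚ k) F}
    (h : ∀ e ∈ E, φ e = ψ e) : kapE φ E = kapE ψ E := by
  have h1 : imE φ E = imE ψ E := by
    apply le_antisymm
    · rintro _ ⟨e, he, rfl⟩
      exact ⟨e, he, (h e he).symm⟩
    · rintro _ ⟨e, he, rfl⟩
      exact ⟨e, he, h e he⟩
  unfold kapE
  rw [h1]

theorem algO_congr {φ ψ : Pt k Ω F} {E : IntermediateField (HahnSeries ℚ k) F}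
    (h : ∀ e ∈ E, φ e = ψ e) {y : HahnSeries ℚ Ω} : AlgO φ E y ↔ AlgO ψ E y := by
  have h1 : imE φ E = imE ψ E := by
    apply le_antisymm
    · rintro _ ⟨e, he, rfl⟩
      exact ⟨e, he, (h e he).symm⟩
    · rintro _ ⟨e, he, rfl⟩
      exact ⟨e, he, h e he⟩
  rw [algO_iff, algO_iff, h1]

theorem AlgO.mono {φ : Pt k Ω F} {E E' : IntermediateField (HahnSeries ℚ k) F} (h : E ≤ E')
    {y : HahnSeries ℚ Ω} (hy : AlgO φ E y) : AlgO φ E' y := by
  obtain ⟨g, h1, h2, h3⟩ := hy
  exact ⟨g, h1, fun n => h (h2 n), h3⟩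

/-- the leading coefficients of elements algebraic over the image of `E` -/
theorem lc_mem_kapE {φ : Pt k Ω F} {E : IntermediateField (HahnSeries ℚ k) F} {y : HahnSeries ℚ Ω}
    (hy : AlgO φ E y) : (rv y).1 ∈ kapE φ E :=
  lc_mem_kap (algO_iff.1 hy)

theorem algO_image (φ : Pt k Ω F) {E : IntermediateField (HahnSeries ℚ k) F} {e : F} (he : e ∈ E) :
    AlgO φ E (φ e) :=
  algO_iff.2 (le_cl _ ⟨e, he, rfl⟩)

/-- [H5] the rank inequality for tuples -/
theorem td_kf_le {ι : Type v} (φ : Pt k Ω F) {E : IntermediateField (HahnSeries ℚ k) F}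
    {s : ι → HahnSeries ℚ Ω} (hs : ∀ i, AlgO φ E (s i)) :
    Algebra.trdeg k (kf k fun i => (rv (s i)).1) ≤ Algebra.trdeg (HahnSeries ℚ k) E := by
  refine le_trans (td_mono (?_ : _ ≤ kapE φ E)) (td_kapE_le φ E)
  unfold kf
  rw [IntermediateField.adjoin_le_iff]
  rintro _ ⟨i, rfl⟩
  exact lc_mem_kapE (hs i)

/-- [H5] the rank inequality for the coordinates of a point -/
theorem td_rvt_le {ι : Type v} (φ : Pt k Ω F) {E : IntermediateField (HahnSeries ℚ k) F}
    {s : ι → F} (hs : ∀ i, s i ∈ E) :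
    Algebra.trdeg k (kf k (ac (rvt s φ))) ≤ Algebra.trdeg (HahnSeries ℚ k) E :=
  td_kf_le φ (s := fun i => φ (s i)) fun i => algO_image φ (hs i)

/-! ### generic elements -/

/-- [H6] a generic element of a disc is transcendental -/
theorem not_algO_add {φ : Pt k Ω F} {E : IntermediateField (HahnSeries ℚ k) F}
    {ρ : HahnSeries ℚ Ω} (hρ : AlgO φ E ρ) {ω : Ω} (hω : ω ∉ kapE φ E) (r : ℚ) :
    ¬ AlgO φ E (ρ + HahnSeries.single r ω) := by
  rw [algO_iff] at hρ ⊢
  intro h
  apply hω
  have h1 : HahnSeries.single r ω ∈ cl (imE φ E) := by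
    have h2 := (cl (imE φ E)).sub_mem h hρ
    rwa [add_sub_cancel_left] at h2
  by_cases h0 : ω = 0
  · rw [h0]
    exact (kapE φ E).zero_mem
  · have h2 := lc_mem_kap h1
    rw [rv_single h0] at h2
    exact h2

/-- [H6] generic elements exist -/
theorem exists_generic (φ : Pt k Ω F) {E : IntermediateField (HahnSeries ℚ k) F}
    (hE : Algebra.trdeg (HahnSeries ℚ k) E < ℵ₀) (hΩ : ℵ₀ ≤ Algebra.trdeg k Ω)
    {W : IntermediateField k Ω} (hW : Algebra.trdeg k W < ℵ₀) :
    ∃ ω : Ω, ω ∉ cl (kapE φ E ⊔ W) ∧ ω ∉ kapE φ E ∧ ω ∉ cl W ∧ ω ≠ 0 := by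
  obtain ⟨ω, hω⟩ := exists_trans (td_sup_lt ((td_kapE_le φ E).trans_lt hE) hW) hΩ
  refine ⟨ω, hω, fun h => hω (le_cl _ (le_sup_left (a := kapE φ E) h)),
    fun h => hω (cl_mono le_sup_right h), ?_⟩
  rintro rfl
  exact hω (zero_mem _)

/-- [H6] an element can be moved inside its open disc to a transcendental one -/
theorem exists_not_algO (φ : Pt k Ω F) {E : IntermediateField (HahnSeries ℚ k) F}
    (hE : Algebra.trdeg (HahnSeries ℚ k) E < ℵ₀) (hΩ : ℵ₀ ≤ Algebra.trdeg k Ω)
    (b : HahnSeries ℚ Ω) (r : ℚ) : ∃ y ∈ OD b r, ¬ AlgO φ E y := by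
  by_cases hb : AlgO φ E b
  · obtain ⟨ω, -, hω, -, hω0⟩ := exists_generic φ hE hΩ (W := ⊥) (by
      have h7 : Algebra.trdeg k (⊥ : IntermediateField k Ω) = 0 := _root_.trdeg_eq_zero
      rw [h7]
      exact Cardinal.aleph0_pos)
    refine ⟨b + HahnSeries.single (r + 1) ω, ?_, not_algO_add hb hω _⟩
    change (r : WithTop ℚ) < (b + HahnSeries.single (r + 1) ω - b).orderTop
    rw [add_sub_cancel_left, HahnSeries.orderTop_single hω0]
    exact WithTop.coe_lt_coe.2 (lt_add_one r)
  · refine ⟨b, ?_, hb⟩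
    change (r : WithTop ℚ) < (b - b).orderTop
    rw [sub_self, HahnSeries.orderTop_zero]
    exact WithTop.coe_lt_top r

/-! ### existence and extension of points -/

variable [IsAlgClosed Ω]

/-- [H6] points exist -/
theorem exists_point (hF : Algebra.trdeg (HahnSeries ℚ k) F < ℵ₀) (hΩ : ℵ₀ ≤ Algebra.trdeg k Ω) :
    Nonempty (Pt k Ω F) := by
  obtain ⟨B, hB⟩ := exists_isTranscendenceBasis (HahnSeries ℚ k) F
  obtain ⟨C, hC⟩ := exists_isTranscendenceBasis k Ω
  have h1 : #B ≤ #C := by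
    rw [hB.cardinalMk_eq_trdeg, hC.cardinalMk_eq_trdeg]
    exact hF.le.trans hΩ
  obtain ⟨g⟩ := h1
  have h2 : AlgebraicIndependent k (fun b : B => ((g b : C) : Ω)) := hC.1.comp g g.injective
  have h3 : AlgebraicIndependent (HahnSeries ℚ k)
      (fun b : B => (HahnSeries.C ((g b : C) : Ω) : HahnSeries ℚ Ω)) := by
    apply algInd_of_res (fun b => C_mem_Oint _)
    convert h2 using 2 with b
    rw [HahnSeries.C_apply, HahnSeries.coeff_single_same]
  obtain ⟨f, -⟩ := emb_of_algInd hB h3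
  exact ⟨f⟩

/-- [H6] points of subfields extend -/
theorem exists_extension (hF : Algebra.trdeg (HahnSeries ℚ k) F < ℵ₀)
    (hΩ : ℵ₀ ≤ Algebra.trdeg k Ω) (E : IntermediateField (HahnSeries ℚ k) F) (φ : Pt k Ω E) :
    ∃ ψ : Pt k Ω F, ∀ e : E, ψ e = φ e := by
  obtain ⟨w₀⟩ := exists_point (F := F) hF hΩ
  exact extend_emb E ((td_le_top E).trans_lt hF) φ w₀

/-- points of subfields extend, for arbitrary field extensions of finite transcendence degree -/
theorem exists_extension' {E : Type u} [Field E] [Algebra (HahnSeries ℚ k) E]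
    (hF : Algebra.trdeg (HahnSeries ℚ k) F < ℵ₀) (hΩ : ℵ₀ ≤ Algebra.trdeg k Ω)
    (i : E →ₐ[HahnSeries ℚ k] F) (φ : Pt k Ω E) : ∃ ψ : Pt k Ω F, ∀ e : E, ψ (i e) = φ e := by
  obtain ⟨w₀⟩ := exists_point (F := F) hF hΩ
  have hE : Algebra.trdeg (HahnSeries ℚ k) E < ℵ₀ :=
    (trdeg_le_of_injective i i.injective).trans_lt hF
  obtain ⟨σ, hσ⟩ := homog hE (w₀.comp i) φ
  exact ⟨σ.toAlgHom.comp w₀, hσ⟩

/-- points of a subfield extend to algebraic extensions (no hypothesis on transcendence degrees) -/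
theorem exists_extension_alg {E : Type u} [Field E] [Algebra (HahnSeries ℚ k) E]
    [Algebra E F] [IsScalarTower (HahnSeries ℚ k) E F] [Algebra.IsAlgebraic E F]
    (φ : Pt k Ω E) : ∃ ψ : Pt k Ω F, ∀ e : E, ψ (algebraMap E F e) = φ e := by
  let a : Algebra E (HahnSeries ℚ Ω) := φ.toRingHom.toAlgebra
  have : IsScalarTower (HahnSeries ℚ k) E (HahnSeries ℚ Ω) :=
    IsScalarTower.of_algebraMap_eq fun x => (φ.commutes x).symm
  let f : F →ₐ[E] HahnSeries ℚ Ω := IsAlgClosed.lift
  exact ⟨f.restrictScalars _, fun e => f.commutes e⟩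

omit [IsAlgClosed Ω] in
theorem transcendental_imE {φ : Pt k Ω F} {E : IntermediateField (HahnSeries ℚ k) F} {x : F}
    (hx : Transcendental E x) : φ x ∉ cl (imE φ E) := by
  rw [← algO_iff]
  rintro ⟨g, hg, hgE, hgx⟩
  apply hx
  refine ⟨∑ n ∈ g.support, Polynomial.C (⟨g.coeff n, hgE n⟩ : E) * X ^ n, ?_, ?_⟩
  · intro h0
    apply hg
    have h1 := congrArg (Polynomial.map (algebraMap E F)) h0
    rw [Polynomial.map_zero, Polynomial.map_sum] at h1
    rw [g.as_sum_support_C_mul_X_pow, ← h1]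
    refine Finset.sum_congr rfl fun n _ => ?_
    rw [Polynomial.map_mul, Polynomial.map_C, Polynomial.map_pow, Polynomial.map_X]
    rfl
  · have h1 : φ (g.eval x) = 0 := by
      have h2 := hom_eval₂ g (RingHom.id F) (φ : F →+* HahnSeries ℚ Ω) x
      rw [RingHom.comp_id] at h2
      have h3 : (φ : F →+* HahnSeries ℚ Ω) (g.eval x) = 0 := by
        rw [eval, h2, ← eval_map]
        exact hgx
      exact h3
    have h2 : g.eval x = 0 := by
      rw [map_eq_zero_iff φ φ.injective] at h1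
      exact h1
    rw [map_sum, ← h2, eval_eq_sum, Polynomial.sum_def]
    refine Finset.sum_congr rfl fun n _ => ?_
    rw [map_mul, aeval_C, map_pow, aeval_X]
    rfl

/-- [H6/U4] prescribed value of a transcendental element -/
theorem ext_tr (φ : Pt k Ω F) {E : IntermediateField (HahnSeries ℚ k) F} {x : F}
    (hx : Transcendental E x) {y : HahnSeries ℚ Ω} (hy : ¬ AlgO φ E y) :
    ∃ ψ : Pt k Ω F, (∀ e ∈ E, ψ e = φ e) ∧ ψ x = y := by
  have h1 : Transcendental (imE φ E) (φ x) := transcendental_iff_cl.2 (transcendental_imE hx)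
  have h2 : Transcendental (imE φ E) y := by
    rw [transcendental_iff_cl, ← algO_iff]
    exact hy
  obtain ⟨σ, hσ, hσx⟩ := trans_fix (imE φ E) h1 h2
  refine ⟨σ.toAlgHom.comp φ, fun e he => ?_, hσx⟩
  exact (IntermediateField.mem_fixingSubgroup_iff _ σ).1 hσ (φ e) ⟨e, he, rfl⟩

/-- [U4] prescribed value of an algebraic element -/
theorem ext_al (φ : Pt k Ω F) {E : IntermediateField (HahnSeries ℚ k) F} {x : F}
    (hx : IsAlgebraic E x) {y : HahnSeries ℚ Ω}
    (hy : (((minpoly E x).map (algebraMap E F)).map (φ : F →+* HahnSeries ℚ Ω)).eval y = 0) :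
    ∃ ψ : Pt k Ω F, (∀ e ∈ E, ψ e = φ e) ∧ ψ x = y := by
  let ε : E ≃ₐ[HahnSeries ℚ k] imE φ E := IntermediateField.equivMap E φ
  have hε : (algebraMap (imE φ E) (HahnSeries ℚ Ω)).comp ((ε : E ≃+* imE φ E) : E →+* imE φ E) =
      (φ : F →+* HahnSeries ℚ Ω).comp (algebraMap E F) := by
    ext1 z
    rfl
  have hint : IsIntegral E x := hx.isIntegral
  have h0 : ∀ z : HahnSeries ℚ Ω, aeval z ((minpoly E x).map ((ε : E ≃+* imE φ E) : E →+* imE φ E)) =
      (((minpoly E x).map (algebraMap E F)).map (φ : F →+* HahnSeries ℚ Ω)).eval z := by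
    intro z
    rw [aeval_def, eval₂_map, hε, Polynomial.map_map, eval_map]
  have hroot : aeval (φ x) ((minpoly E x).map ((ε : E ≃+* imE φ E) : E →+* imE φ E)) = 0 := by
    rw [h0, eval_map]
    have h2 := hom_eval₂ (minpoly E x) (algebraMap E F) (φ : F →+* HahnSeries ℚ Ω) x
    have h3 : eval₂ (algebraMap E F) x (minpoly E x) = 0 := minpoly.aeval E x
    rw [h3, map_zero] at h2
    rw [eval₂_map]
    exact h2.symm
  have hmon : ((minpoly E x).map ((ε : E ≃+* imE φ E) : E →+* imE φ E)).Monic :=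
    (minpoly.monic hint).map _
  have h1 : minpoly (imE φ E) (φ x) =
      (minpoly E x).map ((ε : E ≃+* imE φ E) : E →+* imE φ E) := by
    symm
    refine minpoly.eq_of_irreducible_of_monic ?_ hroot hmon
    exact (MulEquiv.irreducible_iff (Polynomial.mapEquiv (ε : E ≃+* imE φ E))).2
      (minpoly.irreducible hint)
  have h2 : IsAlgebraic (imE φ E) (φ x) := ⟨_, hmon.ne_zero, hroot⟩
  obtain ⟨σ, hσ⟩ := conj_aut (A := imE φ E) (z := φ x) (z' := y) h2 (by rw [h1, h0]; exact hy)
  refine ⟨(σ.restrictScalars (HahnSeries ℚ k)).toAlgHom.comp φ, fun e he => ?_, hσ⟩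
  exact σ.commutes (⟨φ e, e, he, rfl⟩ : imE φ E)

/-! ### stabilisers and generated fields -/

section Stab

omit [IsAlgClosed Ω] [Algebra (HahnSeries ℚ k) F]

theorem mem_kf {ι : Type v} (w : ι → Ω) (i : ι) : w i ∈ kf k w :=
  IntermediateField.subset_adjoin k _ ⟨i, rfl⟩

theorem kf_le {ι : Type v} {w : ι → Ω} {S : IntermediateField k Ω} :
    kf k w ≤ S ↔ ∀ i, w i ∈ S := by
  unfold kf
  rw [IntermediateField.adjoin_le_iff]
  constructor
  · intro h i
    exact h ⟨i, rfl⟩
  · rintro h _ ⟨i, rfl⟩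
    exact h i

theorem td_kf_lt {ι : Type v} [Finite ι] (w : ι → Ω) : Algebra.trdeg k (kf k w) < ℵ₀ :=
  td_adjoin_lt (Cardinal.lt_aleph0_iff_finite.2 (Set.finite_range w))

theorem kf_sum {ι κ : Type v} (a : ι → Ω) (b : κ → Ω) :
    kf k (Sum.elim a b) = kf k a ⊔ kf k b := by
  unfold kf
  rw [Set.Sum.elim_range, IntermediateField.adjoin_union]

theorem kf_map {Ω' : Type u} [Field Ω'] [Algebra k Ω'] {ι : Type v} (σ : Ω →ₐ[k] Ω') (w : ι → Ω) :
    (kf k w).map σ = kf k (fun i => σ (w i)) := by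
  unfold kf
  rw [IntermediateField.adjoin_map, ← Set.range_comp]
  rfl

theorem fixT_top {ι : Type v} (w : ι → Ω) :
    fixT (⊤ : Subgroup (Ω ≃ₐ[k] Ω)) w = (kf k w).fixingSubgroup := by
  ext σ
  unfold kf
  rw [mem_fixing_adjoin]
  constructor
  · rintro ⟨-, h⟩ _ ⟨i, rfl⟩
    exact h i
  · intro h
    exact ⟨trivial, fun i => h _ ⟨i, rfl⟩⟩

theorem fixT_fixing {ι : Type v} (S : IntermediateField k Ω) (w : ι → Ω) :
    fixT S.fixingSubgroup w = (S ⊔ kf k w).fixingSubgroup := by
  have h1 : S ⊔ kf k w = IntermediateField.adjoin k ((S : Set Ω) ∪ Set.range w) := by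
    unfold kf
    rw [IntermediateField.adjoin_union, IntermediateField.adjoin_self]
  ext σ
  rw [h1, mem_fixing_adjoin]
  constructor
  · rintro ⟨h1, h⟩ x (hx | ⟨i, rfl⟩)
    · exact (IntermediateField.mem_fixingSubgroup_iff _ σ).1 h1 x hx
    · exact h i
  · intro h
    refine ⟨(IntermediateField.mem_fixingSubgroup_iff _ σ).2 fun x hx => h x (Or.inl hx),
      fun i => h _ (Or.inr ⟨i, rfl⟩)⟩

theorem fixT_fixT {ι : Type v} {κ : Type w} (H : Subgroup (Ω ≃ₐ[k] Ω)) (w : ι → Ω) (w' : κ → Ω) :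
    fixT (fixT H w) w' = fixT H (Sum.elim w w') := by
  ext σ
  constructor
  · rintro ⟨⟨h1, h2⟩, h3⟩
    refine ⟨h1, ?_⟩
    rintro (i | i)
    · exact h2 i
    · exact h3 i
  · rintro ⟨h1, h2⟩
    exact ⟨⟨h1, fun i => h2 (Sum.inl i)⟩, fun i => h2 (Sum.inr i)⟩

/-- [H7] tuples with the same stabiliser generate the same field -/
theorem kf_eq_of_fixT [IsAlgClosed Ω] [CharZero Ω] {ι : Type v} {κ : Type w} {w : ι → Ω}
    {w' : κ → Ω} (h : fixT (⊤ : Subgroup (Ω ≃ₐ[k] Ω)) w = fixT ⊤ w') : kf k w = kf k w' := by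
  rw [fixT_top, fixT_top] at h
  exact eq_of_fixing h

theorem mem_kf_of_fixT [IsAlgClosed Ω] [CharZero Ω] {ι : Type v} {w : ι → Ω} {z : Ω}
    (h : ∀ σ ∈ fixT (⊤ : Subgroup (Ω ≃ₐ[k] Ω)) w, σ z = z) : z ∈ kf k w := by
  rw [fixT_top] at h
  exact mem_of_fixed _ h

/-- [H7] an element with finitely many conjugates is algebraic -/
theorem alg_of_fin_orbit [IsAlgClosed Ω] [CharZero Ω] {ι : Type v} {w : ι → Ω} {z : Ω}
    (h : {y | ∃ σ ∈ fixT (⊤ : Subgroup (Ω ≃ₐ[k] Ω)) w, σ z = y}.Finite) : z ∈ cl (kf k w) := by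
  rw [fixT_top] at h
  exact mem_cl.2 (alg_of_finite_orbit _ h)

/-- [H7] two elements transcendental over `k (w)` are conjugate -/
theorem trans_fixT [IsAlgClosed Ω] {ι : Type v} {w : ι → Ω} {z z' : Ω}
    (hz : z ∉ cl (kf k w)) (hz' : z' ∉ cl (kf k w)) :
    ∃ σ ∈ fixT (⊤ : Subgroup (Ω ≃ₐ[k] Ω)) w, σ z = z' := by
  rw [fixT_top]
  exact trans_fix _ (transcendental_iff_cl.2 hz) (transcendental_iff_cl.2 hz')

end Stab

/-! ### levels -/

section Lev

omit [Field Ω] [Algebra k Ω] [IsAlgClosed Ω]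

theorem lev_mono (x : ℕ → F) {i j : ℕ} (h : i ≤ j) : lev k x i ≤ lev k x j := by
  unfold lev
  apply IntermediateField.adjoin.mono
  rintro _ ⟨l, hl, rfl⟩
  exact ⟨l, lt_of_lt_of_le hl h, rfl⟩

theorem mem_lev (x : ℕ → F) {i j : ℕ} (h : i < j) : x i ∈ lev k x j :=
  IntermediateField.subset_adjoin _ _ ⟨i, h, rfl⟩

theorem lev_succ (x : ℕ → F) (i : ℕ) :
    lev k x (i + 1) =
      IntermediateField.adjoin (HahnSeries ℚ k) ((lev k x i : Set F) ∪ {x i}) := by
  apply le_antisymm
  · unfold lev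
    rw [IntermediateField.adjoin_le_iff]
    rintro _ ⟨l, hl, rfl⟩
    rcases Nat.lt_succ_iff_lt_or_eq.1 hl with h | rfl
    · exact IntermediateField.subset_adjoin _ _ (Or.inl (mem_lev x h))
    · exact IntermediateField.subset_adjoin _ _ (Or.inr rfl)
  · rw [IntermediateField.adjoin_le_iff]
    rintro y (hy | rfl)
    · exact lev_mono x (Nat.le_succ i) hy
    · exact mem_lev x (Nat.lt_succ_self i)

theorem lev_zero (x : ℕ → F) : lev k x 0 = ⊥ := by
  unfold lev
  have h1 : x '' {j | j < 0} = ∅ := by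
    rw [Set.image_eq_empty]
    ext j
    simp
  rw [h1, IntermediateField.adjoin_empty]

theorem td_lev_lt (x : ℕ → F) (i : ℕ) : Algebra.trdeg (HahnSeries ℚ k) (lev k x i) < ℵ₀ :=
  td_adjoin_lt (Cardinal.lt_aleph0_iff_finite.2 ((Set.finite_Iio i).image x))

theorem td_lev_zero (x : ℕ → F) : Algebra.trdeg (HahnSeries ℚ k) (lev k x 0) = 0 := by
  rw [lev_zero]
  exact _root_.trdeg_eq_zero

theorem td_lev_succ_tr (x : ℕ → F) (i : ℕ) (h : Transcendental (lev k x i) (x i)) :
    Algebra.trdeg (HahnSeries ℚ k) (lev k x (i + 1)) =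
      Algebra.trdeg (HahnSeries ℚ k) (lev k x i) + 1 := by
  rw [lev_succ]
  exact td_succ h

theorem td_lev_succ_al (x : ℕ → F) (i : ℕ) (h : IsAlgebraic (lev k x i) (x i)) :
    Algebra.trdeg (HahnSeries ℚ k) (lev k x (i + 1)) =
      Algebra.trdeg (HahnSeries ℚ k) (lev k x i) := by
  refine td_alg (lev_mono x (Nat.le_succ i)) fun y hy => ?_
  have h1 : lev k x (i + 1) ≤ cl (lev k x i) := by
    rw [lev_succ, IntermediateField.adjoin_le_iff]
    rintro z (hz | rfl)
    · exact le_cl _ hz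
    · exact mem_cl.2 h
  exact mem_cl.1 (h1 hy)

end Lev

end Points

end

end KTS
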