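import Pool.Agent.KTS.Defs

/-!
[KTS] Block I, part A: the integral `Int` does not depend on representatives, finite sums,
Fubini over orbits (I1).
-/

set_option autoImplicit false

namespace KTS

noncomputable section

universe u v w x

open Function

/-! ## Finite sums over fibres -/

theorem finsum_fiber {X : Type*} {P : Type*} (π : X → P) (f : X → ℚ)
    (hf : (support f).Finite) : ∑ᶠ y, f y = ∑ᶠ p, ∑ᶠ y : {y // π y = p}, f y := by
  classical
  have h1 : ∑ᶠ y, f y = ∑ y ∈ hf.toFinset, f y :=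
    finsum_eq_sum_of_support_subset f (by simp)
  have h2 : ∀ p, ∑ᶠ y : {y // π y = p}, f y = ∑ y ∈ hf.toFinset with π y = p, f y := by
    intro p
    rw [finsum_subtype_eq_finsum_cond (fun y => π y = p)]
    apply finsum_cond_eq_sum_of_cond_iff
    intro y hy
    simp [hy]
  have h3 : ∑ᶠ p, ∑ᶠ y : {y // π y = p}, f y =
      ∑ p ∈ hf.toFinset.image π, ∑ y ∈ hf.toFinset with π y = p, f y := by
    rw [finsum_congr h2]
    apply finsum_eq_sum_of_support_subset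
    intro p hp
    rw [mem_support] at hp
    obtain ⟨y, hy, -⟩ := Finset.exists_ne_zero_of_sum_ne_zero hp
    rw [Finset.mem_filter] at hy
    rw [Finset.mem_coe, Finset.mem_image]
    exact ⟨y, hy.1, hy.2⟩
  rw [h1, h3]
  exact (Finset.sum_fiberwise_of_maps_to (fun y hy => Finset.mem_image_of_mem π hy) f).symm

section RV

variable {Ω : Type u} {ι : Type v} {κ : Type w}
variable {k : Type u} [Field k] [Field Ω] [Algebra k Ω]

/-! ## Elementary facts on vectors -/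

omit [Field Ω] in
@[simp] theorem ac_zip (w : ι → Ω) (g : ι → ℚ) : ac (zip w g) = w := rfl

omit [Field Ω] in
@[simp] theorem va_zip (w : ι → Ω) (g : ι → ℚ) : va (zip w g) = g := rfl

omit [Field Ω] in
@[simp] theorem zip_ac_va (z : ι → Ω × ℚ) : zip (ac z) (va z) = z := rfl

theorem ac_sz (σ : Ω ≃ₐ[k] Ω) (z : ι → Ω × ℚ) : ac (sz σ z) = fun i => σ (ac z i) := rfl

theorem va_sz (σ : Ω ≃ₐ[k] Ω) (z : ι → Ω × ℚ) : va (sz σ z) = va z := rfl

theorem sz_zip (σ : Ω ≃ₐ[k] Ω) (w : ι → Ω) (g : ι → ℚ) :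
    sz σ (zip w g) = zip (fun i => σ (w i)) g := rfl

theorem sz_one (z : ι → Ω × ℚ) : sz (1 : Ω ≃ₐ[k] Ω) z = z := rfl

theorem sz_mul (σ τ : Ω ≃ₐ[k] Ω) (z : ι → Ω × ℚ) : sz (σ * τ) z = sz σ (sz τ z) := rfl

theorem sz_elim (σ : Ω ≃ₐ[k] Ω) (z : ι → Ω × ℚ) (z' : κ → Ω × ℚ) :
    sz σ (Sum.elim z z') = Sum.elim (sz σ z) (sz σ z') := by
  funext j
  rcases j with j | j <;> rfl

omit [Field Ω] in
theorem zip_elim (w : ι → Ω) (w' : κ → Ω) (g : ι → ℚ) (g' : κ → ℚ) :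
    zip (Sum.elim w w') (Sum.elim g g') = Sum.elim (zip w g) (zip w' g') := by
  funext j
  rcases j with j | j <;> rfl

omit [Field Ω] in
theorem ac_elim (z : ι → Ω × ℚ) (z' : κ → Ω × ℚ) : ac (Sum.elim z z') = Sum.elim (ac z) (ac z') := by
  funext j
  rcases j with j | j <;> rfl

theorem mem_fixT {H : Subgroup (Ω ≃ₐ[k] Ω)} {w : ι → Ω} {σ : Ω ≃ₐ[k] Ω} :
    σ ∈ fixT H w ↔ σ ∈ H ∧ ∀ i, σ (w i) = w i := Iff.rfl

theorem Rel.refl (H : Subgroup (Ω ≃ₐ[k] Ω)) (w : ι → Ω) : Rel H w w := (relS H ι).refl w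

theorem Rel.symm {H : Subgroup (Ω ≃ₐ[k] Ω)} {w w' : ι → Ω} (h : Rel H w w') : Rel H w' w :=
  (relS H ι).symm h

theorem Rel.trans {H : Subgroup (Ω ≃ₐ[k] Ω)} {w w' w'' : ι → Ω} (h : Rel H w w')
    (h' : Rel H w' w'') : Rel H w w'' := (relS H ι).trans h h'

/-- two tuples over the same first part in one orbit are in one orbit of the stabiliser -/
theorem Rel.fix {H : Subgroup (Ω ≃ₐ[k] Ω)} {a : ι → Ω} {b b' : κ → Ω}
    (h : Rel H (Sum.elim a b) (Sum.elim a b')) : Rel (fixT H a) b b' := by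
  obtain ⟨σ, hσ, h⟩ := h
  exact ⟨σ, ⟨hσ, fun i => h (Sum.inl i)⟩, fun j => h (Sum.inr j)⟩

theorem Rel.unfix {H : Subgroup (Ω ≃ₐ[k] Ω)} {a : ι → Ω} {b b' : κ → Ω}
    (h : Rel (fixT H a) b b') : Rel H (Sum.elim a b) (Sum.elim a b') := by
  obtain ⟨σ, hσ, h⟩ := h
  refine ⟨σ, hσ.1, fun j => ?_⟩
  rcases j with j | j
  · exact hσ.2 j
  · exact h j

theorem Rel.inl {H : Subgroup (Ω ≃ₐ[k] Ω)} {a a' : ι → Ω} {b b' : κ → Ω}
    (h : Rel H (Sum.elim a b) (Sum.elim a' b')) : Rel H a a' := by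
  obtain ⟨σ, hσ, h⟩ := h
  exact ⟨σ, hσ, fun i => h (Sum.inl i)⟩

/-! ## The integral -/

variable [Fintype ι]

/-- The value attached to the orbit of `w`. -/
def IO (J : (ι → Ω × ℚ) → ℚ) (w : ι → Ω) : ℚ := I ι fun g : ι → ℚ => J (zip w g)

/-- invariance on the level of vectors of values -/
def Inv (H : Subgroup (Ω ≃ₐ[k] Ω)) (J : (ι → Ω × ℚ) → ℚ) : Prop := ∀ σ ∈ H, ∀ z, J (sz σ z) = J z

theorem FT.Inv {H : Subgroup (Ω ≃ₐ[k] Ω)} {J : (ι → Ω × ℚ) → ℚ} (h : FT H J) : KTS.Inv H J := h.inv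

theorem IO_rel {H : Subgroup (Ω ≃ₐ[k] Ω)} {J : (ι → Ω × ℚ) → ℚ} (hJ : Inv H J) {w w' : ι → Ω}
    (h : Rel H w w') : IO J w = IO J w' := by
  obtain ⟨σ, hσ, h⟩ := h
  unfold IO
  congr 1
  funext g
  rw [← hJ σ hσ (zip w g), sz_zip]
  congr 2
  funext i
  exact h i

theorem Int_eq (H : Subgroup (Ω ≃ₐ[k] Ω)) (J : (ι → Ω × ℚ) → ℚ) :
    Int H J = ∑ᶠ q : Quotient (relS H ι), IO J q.out := rfl

theorem IO_out {H : Subgroup (Ω ≃ₐ[k] Ω)} {J : (ι → Ω × ℚ) → ℚ} (hJ : Inv H J) (w : ι → Ω) :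
    IO J (Quotient.out (Quotient.mk (relS H ι) w)) = IO J w :=
  IO_rel hJ (Quotient.mk_out (s := relS H ι) w)

omit [Field Ω] in
theorem IO_ne {J : (ι → Ω × ℚ) → ℚ} {w : ι → Ω} (h : IO J w ≠ 0) : ∃ g : ι → ℚ, J (zip w g) ≠ 0 := by
  by_contra hc
  push Not at hc
  apply h
  unfold IO
  have : (fun g : ι → ℚ => J (zip w g)) = 0 := by
    funext g
    exact hc g
  rw [this, map_zero]

theorem FT.supp {H : Subgroup (Ω ≃ₐ[k] Ω)} {J : (ι → Ω × ℚ) → ℚ} (h : FT H J) :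
    {q : Quotient (relS H ι) | ∃ z, J z ≠ 0 ∧ Quotient.mk (relS H ι) (ac z) = q}.Finite := by
  obtain ⟨s, hs⟩ := h.fin
  refine (s.finite_toSet.image (Quotient.mk (relS H ι))).subset ?_
  rintro q ⟨z, hz, rfl⟩
  obtain ⟨w, hw, hr⟩ := hs z hz
  exact ⟨w, hw, Quotient.sound hr⟩

theorem FT.supp_out {H : Subgroup (Ω ≃ₐ[k] Ω)} {J : (ι → Ω × ℚ) → ℚ} (h : FT H J) :
    (support fun q : Quotient (relS H ι) => IO J q.out).Finite := by
  refine h.supp.subset ?_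
  intro q hq
  obtain ⟨g, hg⟩ := IO_ne hq
  exact ⟨zip q.out g, hg, Quotient.out_eq q⟩

/-- the integral as a finite sum over representatives -/
theorem Int_eq_sum {H : Subgroup (Ω ≃ₐ[k] Ω)} {J : (ι → Ω × ℚ) → ℚ} (hJ : Inv H J)
    (s : Finset (ι → Ω)) (h1 : ∀ z, J z ≠ 0 → ∃ w ∈ s, Rel H w (ac z))
    (h2 : ∀ w ∈ s, ∀ w' ∈ s, Rel H w w' → w = w') : Int H J = ∑ w ∈ s, IO J w := by
  classical
  rw [Int_eq]
  have h3 : (support fun q : Quotient (relS H ι) => IO J q.out) ⊆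
      ((s.image (Quotient.mk (relS H ι)) : Finset _) : Set (Quotient (relS H ι))) := by
    intro q hq
    obtain ⟨g, hg⟩ := IO_ne hq
    obtain ⟨w, hw, hr⟩ := h1 _ hg
    rw [Finset.mem_coe, Finset.mem_image]
    refine ⟨w, hw, ?_⟩
    rw [← Quotient.out_eq q]
    exact Quotient.sound hr
  rw [finsum_eq_sum_of_support_subset _ h3, Finset.sum_image]
  · exact Finset.sum_congr rfl fun w _ => IO_out hJ w
  · intro w hw w' hw' h
    exact h2 w hw w' hw' (Quotient.exact h)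

/-- conjugation -/
theorem Int_conj {H H' : Subgroup (Ω ≃ₐ[k] Ω)} {J J' : (ι → Ω × ℚ) → ℚ} (τ : Ω ≃ₐ[k] Ω)
    (hH : ∀ σ, σ ∈ H ↔ τ * σ * τ⁻¹ ∈ H') (hJ' : Inv H' J') (h : ∀ z, J' (sz τ z) = J z) :
    Int H J = Int H' J' := by
  rw [Int_eq, Int_eq]
  have hrel : ∀ w w' : ι → Ω, Rel H w w' → Rel H' (fun i => τ (w i)) (fun i => τ (w' i)) := by
    rintro w w' ⟨σ, hσ, hw⟩
    refine ⟨τ * σ * τ⁻¹, (hH σ).1 hσ, fun i => ?_⟩
    rw [AlgEquiv.mul_apply, AlgEquiv.mul_apply, ← AlgEquiv.mul_apply τ⁻¹ τ, inv_mul_cancel,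
      AlgEquiv.one_apply, hw]
  have hrel' : ∀ w w' : ι → Ω, Rel H' (fun i => τ (w i)) (fun i => τ (w' i)) → Rel H w w' := by
    rintro w w' ⟨σ, hσ, hw⟩
    refine ⟨τ⁻¹ * σ * τ, (hH _).2 (by simpa [mul_assoc] using hσ), fun i => ?_⟩
    rw [AlgEquiv.mul_apply, AlgEquiv.mul_apply, hw, ← AlgEquiv.mul_apply, inv_mul_cancel,
      AlgEquiv.one_apply]
  let e : Quotient (relS H ι) → Quotient (relS H' ι) :=
    Quotient.map (sa := relS H ι) (sb := relS H' ι) (fun w i => τ (w i)) hrel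
  refine finsum_eq_of_bijective e ⟨?_, ?_⟩ ?_
  · intro q q'
    refine Quotient.inductionOn₂ q q' ?_
    intro w w' hq
    exact Quotient.sound (hrel' w w' (Quotient.exact hq))
  · intro q
    refine Quotient.inductionOn q ?_
    intro w
    refine ⟨Quotient.mk _ (fun i => τ⁻¹ (w i)), ?_⟩
    have : (fun i => τ (τ⁻¹ (w i))) = w := by
      funext i
      rw [← AlgEquiv.mul_apply, mul_inv_cancel, AlgEquiv.one_apply]
    exact congrArg (Quotient.mk (relS H' ι)) this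
  · intro q
    have h1 : IO J' (e q).out = IO J' (fun i => τ (q.out i)) := by
      conv_lhs => rw [← Quotient.out_eq q]
      exact IO_out hJ' _
    rw [h1]
    unfold IO
    congr 1
    funext g
    rw [← h (zip q.out g), sz_zip]

theorem Int_congr {H : Subgroup (Ω ≃ₐ[k] Ω)} {J J' : (ι → Ω × ℚ) → ℚ} (h : ∀ z, J z = J' z) :
    Int H J = Int H J' := by
  rw [funext h]

theorem FT.congr {H : Subgroup (Ω ≃ₐ[k] Ω)} {J J' : (ι → Ω × ℚ) → ℚ} (hJ : FT H J)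
    (h : ∀ z, J z = J' z) : FT H J' := by
  rwa [← funext h]

theorem Int_zero (H : Subgroup (Ω ≃ₐ[k] Ω)) : Int H (fun _ : ι → Ω × ℚ => (0 : ℚ)) = 0 := by
  rw [Int_eq]
  apply finsum_eq_zero_of_forall_eq_zero
  intro q
  have : (fun _ : ι → ℚ => (0 : ℚ)) = 0 := rfl
  unfold IO
  rw [this, map_zero]

/-! ## I1: Fubini -/

variable [Fintype κ]

theorem FT.slice {H : Subgroup (Ω ≃ₐ[k] Ω)} {J : (ι ⊕ κ → Ω × ℚ) → ℚ} (h : FT H J)
    (z : ι → Ω × ℚ) : FT (fixT H (ac z)) fun z' : κ → Ω × ℚ => J (Sum.elim z z') := by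
  classical
  refine ⟨?_, ?_, ?_⟩
  · rintro σ ⟨hσ, hfix⟩ z'
    have h1 : sz σ z = z := by
      funext i
      exact Prod.ext (hfix i) rfl
    have h2 := h.inv σ hσ (Sum.elim z z')
    rwa [sz_elim, h1] at h2
  · intro w'
    have h1 := (h.cf (Sum.elim (ac z) w')).slice (va z)
    convert h1 using 2
    rw [zip_elim, zip_ac_va]
  · obtain ⟨s, hs⟩ := h.fin
    let p : (ι ⊕ κ → Ω) → (κ → Ω) → Prop := fun w b => Rel H w (Sum.elim (ac z) b)
    refine ⟨s.image fun w => if hw : ∃ b, p w b then hw.choose else fun j => w (Sum.inr j), ?_⟩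
    intro z' hz'
    obtain ⟨w, hw, hr⟩ := hs _ hz'
    rw [ac_elim] at hr
    have hex : ∃ b, p w b := ⟨ac z', hr⟩
    refine ⟨_, Finset.mem_image_of_mem _ hw, ?_⟩
    rw [dif_pos hex]
    exact Rel.fix ((Rel.symm hex.choose_spec).trans hr)

/-- the orbits over `w` which matter -/
theorem FT.supp_slice {H : Subgroup (Ω ≃ₐ[k] Ω)} {J : (ι ⊕ κ → Ω × ℚ) → ℚ} (h : FT H J)
    (w : ι → Ω) : {r : Quotient (relS (fixT H w) κ) | ∃ g : ι → ℚ, ∃ z' : κ → Ω × ℚ,
      J (Sum.elim (zip w g) z') ≠ 0 ∧ Quotient.mk _ (ac z') = r}.Finite := by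
  classical
  obtain ⟨s, hs⟩ := h.fin
  let p : (ι ⊕ κ → Ω) → (κ → Ω) → Prop := fun v b => Rel H v (Sum.elim w b)
  refine (s.finite_toSet.image fun v => Quotient.mk (relS (fixT H w) κ)
    (if hv : ∃ b, p v b then hv.choose else fun j => v (Sum.inr j))).subset ?_
  rintro r ⟨g, z', hz', rfl⟩
  obtain ⟨v, hv, hr⟩ := hs _ hz'
  rw [ac_elim, ac_zip] at hr
  have hex : ∃ b, p v b := ⟨ac z', hr⟩
  refine ⟨v, hv, ?_⟩
  dsimp only
  rw [dif_pos hex]
  exact Quotient.sound (Rel.fix ((Rel.symm hex.choose_spec).trans hr))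

/-- `prJ` as a finite sum of partial integrals, for a fixed `Ω`-part -/
theorem prJ_zip {H : Subgroup (Ω ≃ₐ[k] Ω)} {J : (ι ⊕ κ → Ω × ℚ) → ℚ} (h : FT H J) (w : ι → Ω) :
    (fun g : ι → ℚ => prJ H J (zip w g)) = fun g => ∑ r ∈ (h.supp_slice w).toFinset,
      fibI ι κ (fun g => J (zip (Sum.elim w r.out) g)) g := by
  funext g
  have h0 : prJ H J (zip w g) = ∑ᶠ r : Quotient (relS (fixT H w) κ),
      IO (fun z' => J (Sum.elim (zip w g) z')) r.out := rfl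
  rw [h0]
  refine (finsum_eq_sum_of_support_subset _ ?_).trans (Finset.sum_congr rfl ?_)
  · intro r hr
    obtain ⟨g', hg'⟩ := IO_ne hr
    rw [Set.Finite.coe_toFinset]
    exact ⟨g, zip r.out g', hg', Quotient.out_eq r⟩
  · intro r _
    rw [fibI_apply]
    unfold IO
    congr 1
    funext g'
    simp only [zip_elim]

omit [Fintype ι] in
theorem fixT_conj {H : Subgroup (Ω ≃ₐ[k] Ω)} {τ : Ω ≃ₐ[k] Ω} (hτ : τ ∈ H) (w : ι → Ω)
    (σ : Ω ≃ₐ[k] Ω) : σ ∈ fixT H w ↔ τ * σ * τ⁻¹ ∈ fixT H (fun i => τ (w i)) := by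
  constructor
  · rintro ⟨hσ, h⟩
    refine ⟨H.mul_mem (H.mul_mem hτ hσ) (H.inv_mem hτ), fun i => ?_⟩
    rw [AlgEquiv.mul_apply, AlgEquiv.mul_apply, ← AlgEquiv.mul_apply τ⁻¹ τ, inv_mul_cancel,
      AlgEquiv.one_apply, h]
  · rintro ⟨hσ, h⟩
    refine ⟨?_, fun i => ?_⟩
    · have := H.mul_mem (H.mul_mem (H.inv_mem hτ) hσ) hτ
      simpa [mul_assoc] using this
    · have := h i
      rw [AlgEquiv.mul_apply, AlgEquiv.mul_apply, ← AlgEquiv.mul_apply τ⁻¹ τ, inv_mul_cancel,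
        AlgEquiv.one_apply] at this
      exact τ.injective this

/-- I1, first part -/
theorem FT.pr {H : Subgroup (Ω ≃ₐ[k] Ω)} {J : (ι ⊕ κ → Ω × ℚ) → ℚ} (h : FT H J) :
    FT H (prJ H J) := by
  classical
  refine ⟨?_, ?_, ?_⟩
  · intro τ hτ z
    unfold prJ
    have h1 := (h.slice (sz τ z)).inv
    refine (Int_conj (J' := fun z' : κ → Ω × ℚ => J (Sum.elim (sz τ z) z')) τ
      (fixT_conj hτ (ac z)) h1 ?_).symm
    intro z'
    rw [← sz_elim]
    exact h.inv τ hτ _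
  · intro w
    rw [prJ_zip h w]
    exact CF.sum _ fun r _ => (h.cf _).fibI
  · obtain ⟨s, hs⟩ := h.fin
    refine ⟨s.image fun w i => w (Sum.inl i), ?_⟩
    intro z hz
    unfold prJ at hz
    rw [Int_eq] at hz
    have : ∃ r : Quotient (relS (fixT H (ac z)) κ),
        IO (fun z' : κ → Ω × ℚ => J (Sum.elim z z')) r.out ≠ 0 := by
      by_contra hc
      push Not at hc
      exact hz (finsum_eq_zero_of_forall_eq_zero hc)
    obtain ⟨r, hr⟩ := this
    obtain ⟨g', hg'⟩ := IO_ne hr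
    obtain ⟨w, hw, σ, hσ, hrel⟩ := hs _ hg'
    refine ⟨_, Finset.mem_image_of_mem _ hw, σ, hσ, fun i => ?_⟩
    rw [hrel (Sum.inl i)]
    rfl

/-- I1: Fubini over orbits -/
theorem Int_pr {H : Subgroup (Ω ≃ₐ[k] Ω)} {J : (ι ⊕ κ → Ω × ℚ) → ℚ} (h : FT H J) :
    Int H J = Int H (prJ H J) := by
  classical
  rw [Int_eq, Int_eq]
  let π : Quotient (relS H (ι ⊕ κ)) → Quotient (relS H ι) :=
    Quotient.map (sa := relS H (ι ⊕ κ)) (sb := relS H ι) (fun w i => w (Sum.inl i))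
      (by
        rintro w w' ⟨σ, hσ, hw⟩
        exact ⟨σ, hσ, fun i => hw (Sum.inl i)⟩)
  rw [finsum_fiber π _ h.supp_out]
  refine finsum_congr fun p => ?_
  -- left: orbits over `p`; right: orbits of the stabiliser of `p.out`
  have hR : IO (prJ H J) p.out = ∑ r ∈ (h.supp_slice p.out).toFinset,
      IO J (Sum.elim p.out r.out) := by
    unfold IO
    rw [prJ_zip h p.out]
    have : (fun g : ι → ℚ => ∑ r ∈ (h.supp_slice p.out).toFinset,
        fibI ι κ (fun g => J (zip (Sum.elim p.out r.out) g)) g) =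
        ∑ r ∈ (h.supp_slice p.out).toFinset,
        fibI ι κ (fun g => J (zip (Sum.elim p.out r.out) g)) := by
      funext g
      rw [Finset.sum_apply]
    rw [this, map_sum]
    exact Finset.sum_congr rfl fun r _ => (I_fub (h.cf _)).symm
  have hR' : IO (prJ H J) p.out = ∑ᶠ r : Quotient (relS (fixT H p.out) κ),
      IO J (Sum.elim p.out r.out) := by
    rw [hR]
    refine (finsum_eq_sum_of_support_subset _ ?_).symm
    intro r hr
    obtain ⟨g, hg⟩ := IO_ne hr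
    rw [Set.Finite.coe_toFinset]
    refine ⟨fun i => g (Sum.inl i), zip r.out fun j => g (Sum.inr j), ?_, Quotient.out_eq r⟩
    rw [← zip_elim]
    convert hg using 3
    funext j
    rcases j with j | j <;> rfl
  rw [hR']
  symm
  let e : Quotient (relS (fixT H p.out) κ) → {y // π y = p} := fun r =>
    ⟨Quotient.mk _ (Sum.elim p.out r.out), by
      conv_rhs => rw [← Quotient.out_eq p]
      rfl⟩
  refine finsum_eq_of_bijective e ⟨?_, ?_⟩ ?_
  · intro r r' hrr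
    have h1 : Rel H (Sum.elim p.out r.out) (Sum.elim p.out r'.out) :=
      Quotient.exact (Subtype.ext_iff.1 hrr)
    rw [← Quotient.out_eq r, ← Quotient.out_eq r']
    exact Quotient.sound h1.fix
  · rintro ⟨y, hy⟩
    induction y using Quotient.inductionOn with
    | h w =>
      have h1 : Rel H (fun i => w (Sum.inl i)) p.out := by
        apply Quotient.exact (s := relS H ι)
        rw [Quotient.out_eq]
        exact hy
      obtain ⟨σ, hσ, hw⟩ := h1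
      refine ⟨Quotient.mk _ fun j => σ (w (Sum.inr j)), Subtype.ext ?_⟩
      refine Quotient.sound (s := relS H (ι ⊕ κ)) ?_
      have h2 : Rel (fixT H p.out)
          (Quotient.out (Quotient.mk (relS (fixT H p.out) κ) fun j => σ (w (Sum.inr j))))
          (fun j => σ (w (Sum.inr j))) := Quotient.mk_out (s := relS (fixT H p.out) κ) _
      refine Rel.trans (Rel.unfix h2) (Rel.symm ⟨σ, hσ, fun j => ?_⟩)
      rcases j with j | j
      · exact hw j
      · rfl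
  · intro r
    exact (IO_out h.inv _).symm

end RV

end

end KTS
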