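import Pool.Agent.KTS.IA

/-!
[KTS] Block I, part B: one orbit, fixed points (I3), linearity, reindexing.
-/

set_option autoImplicit false

namespace KTS

noncomputable section

universe u v w x

open Function

section RV

variable {Ω : Type u} {ι : Type v} {κ : Type w}
variable {k : Type u} [Field k] [Field Ω] [Algebra k Ω]
variable [Fintype ι]

/-! ## One orbit -/

/-- support in one orbit -/
theorem Int_single {H : Subgroup (Ω ≃ₐ[k] Ω)} {J : (ι → Ω × ℚ) → ℚ} (hJ : Inv H J) (w : ι → Ω)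
    (h : ∀ z, J z ≠ 0 → Rel H w (ac z)) : Int H J = IO J w := by
  classical
  rw [Int_eq_sum hJ {w}, Finset.sum_singleton]
  · intro z hz
    exact ⟨w, Finset.mem_singleton_self w, h z hz⟩
  · intro a ha b hb _
    rw [Finset.mem_singleton] at ha hb
    rw [ha, hb]

/-- no support -/
theorem Int_of_zero {H : Subgroup (Ω ≃ₐ[k] Ω)} {J : (ι → Ω × ℚ) → ℚ} (h : ∀ z, J z = 0) :
    Int H J = 0 := by
  rw [Int_congr h]
  exact Int_zero H

theorem FT_zero (H : Subgroup (Ω ≃ₐ[k] Ω)) : FT H (fun _ : ι → Ω × ℚ => (0 : ℚ)) :=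
  ⟨fun _ _ _ => rfl, fun _ => CF.const 0, ⟨∅, fun _ h => absurd rfl h⟩⟩

omit [Field Ω] in
/-- the `ℚ`-part is one point -/
theorem IO_point {J : (ι → Ω × ℚ) → ℚ} (w : ι → Ω) (g : ι → ℚ)
    (h : ∀ g' : ι → ℚ, J (zip w g') ≠ 0 → g' = g) : IO J w = J (zip w g) := by
  unfold IO
  have hs : (support fun g : ι → ℚ => J (zip w g)) ⊆ {g} := by
    intro g' hg'
    exact h g' hg'
  rw [I_finite ((Set.finite_singleton g).subset hs)]
  exact finsum_eq_single _ g fun g' hg' => by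
    by_contra hc
    exact hg' (h g' hc)

/-- I3: one point, fixed by `H` -/
theorem Int_point {H : Subgroup (Ω ≃ₐ[k] Ω)} {J : (ι → Ω × ℚ) → ℚ} (z : ι → Ω × ℚ)
    (hz : ∀ σ ∈ H, sz σ z = z) (h : ∀ z', J z' ≠ 0 → z' = z) : Int H J = J z := by
  have hJ : Inv H J := by
    intro σ hσ z'
    by_cases h1 : z' = z
    · rw [h1, hz σ hσ]
    · have h2 : J z' = 0 := by
        by_contra hc
        exact h1 (h z' hc)
      rw [h2]
      by_contra hc
      apply h1
      have h3 := h _ hc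
      calc z' = sz (σ⁻¹ * σ) z' := by rw [inv_mul_cancel, sz_one]
        _ = sz σ⁻¹ (sz σ z') := sz_mul _ _ _
        _ = z := by rw [h3, hz σ⁻¹ (H.inv_mem hσ)]
  rw [Int_single hJ (ac z)]
  · exact IO_point (ac z) (va z) fun g' hg' => by
      have := h _ hg'
      rw [← this]
      rfl
  · intro z' hz'
    rw [h z' hz']
    exact Rel.refl H _

theorem FT_point {H : Subgroup (Ω ≃ₐ[k] Ω)} {J : (ι → Ω × ℚ) → ℚ} (z : ι → Ω × ℚ)
    (hz : ∀ σ ∈ H, sz σ z = z) (h : ∀ z', J z' ≠ 0 → z' = z) : FT H J := by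
  refine ⟨?_, ?_, ?_⟩
  · intro σ hσ z'
    by_cases h1 : z' = z
    · rw [h1, hz σ hσ]
    · have h2 : J z' = 0 := by
        by_contra hc
        exact h1 (h z' hc)
      rw [h2]
      by_contra hc
      apply h1
      have h3 := h _ hc
      calc z' = sz (σ⁻¹ * σ) z' := by rw [inv_mul_cancel, sz_one]
        _ = sz σ⁻¹ (sz σ z') := sz_mul _ _ _
        _ = z := by rw [h3, hz σ⁻¹ (H.inv_mem hσ)]
  · intro w
    apply CF.of_finite
    refine (Set.finite_singleton (va z)).subset ?_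
    intro g hg
    have := h _ hg
    rw [Set.mem_singleton_iff, ← this]
    rfl
  · refine ⟨{ac z}, fun z' hz' => ⟨ac z, Finset.mem_singleton_self _, ?_⟩⟩
    rw [h z' hz']
    exact Rel.refl H _

/-! ## Linearity -/

omit [Field Ω] in
theorem IO_add (J J' : (ι → Ω × ℚ) → ℚ) (w : ι → Ω) :
    IO (fun z => J z + J' z) w = IO J w + IO J' w := by
  unfold IO
  rw [← map_add]
  rfl

omit [Field Ω] in
theorem IO_mul (c : ℚ) (J : (ι → Ω × ℚ) → ℚ) (w : ι → Ω) :
    IO (fun z => c * J z) w = c * IO J w := by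
  unfold IO
  rw [← smul_eq_mul c (I ι _), ← map_smul]
  rfl

omit [Field Ω] in
theorem IO_sum {β : Type x} (s : Finset β) (J : β → (ι → Ω × ℚ) → ℚ) (w : ι → Ω) :
    IO (fun z => ∑ b ∈ s, J b z) w = ∑ b ∈ s, IO (J b) w := by
  unfold IO
  rw [← map_sum]
  congr 1
  funext g
  rw [Finset.sum_apply]

theorem FT.add {H : Subgroup (Ω ≃ₐ[k] Ω)} {J J' : (ι → Ω × ℚ) → ℚ} (h : FT H J) (h' : FT H J') :
    FT H fun z => J z + J' z := by
  classical
  refine ⟨fun σ hσ z => ?_, fun w => (h.cf w).add (h'.cf w), ?_⟩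
  · rw [h.inv σ hσ z, h'.inv σ hσ z]
  · obtain ⟨s, hs⟩ := h.fin
    obtain ⟨s', hs'⟩ := h'.fin
    refine ⟨s ∪ s', fun z hz => ?_⟩
    by_cases h1 : J z = 0
    · have h2 : J' z ≠ 0 := by
        intro hc
        apply hz
        rw [h1, hc, add_zero]
      obtain ⟨w, hw, hr⟩ := hs' z h2
      exact ⟨w, Finset.mem_union_right _ hw, hr⟩
    · obtain ⟨w, hw, hr⟩ := hs z h1
      exact ⟨w, Finset.mem_union_left _ hw, hr⟩

theorem FT.mul_left {H : Subgroup (Ω ≃ₐ[k] Ω)} {J : (ι → Ω × ℚ) → ℚ} (c : ℚ) (h : FT H J) :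
    FT H fun z => c * J z :=
  ⟨fun σ hσ z => by rw [h.inv σ hσ z], fun w => (h.cf w).mul_left c, by
    obtain ⟨s, hs⟩ := h.fin
    exact ⟨s, fun z hz => hs z fun hc => hz (by rw [hc, mul_zero])⟩⟩

theorem FT.neg {H : Subgroup (Ω ≃ₐ[k] Ω)} {J : (ι → Ω × ℚ) → ℚ} (h : FT H J) :
    FT H fun z => - J z :=
  (h.mul_left (-1)).congr fun z => by ring

theorem FT.sub {H : Subgroup (Ω ≃ₐ[k] Ω)} {J J' : (ι → Ω × ℚ) → ℚ} (h : FT H J) (h' : FT H J') :
    FT H fun z => J z - J' z :=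
  (h.add h'.neg).congr fun z => by ring

theorem FT.sum {β : Type x} {H : Subgroup (Ω ≃ₐ[k] Ω)} (s : Finset β)
    {J : β → (ι → Ω × ℚ) → ℚ} (h : ∀ b ∈ s, FT H (J b)) : FT H fun z => ∑ b ∈ s, J b z := by
  classical
  induction s using Finset.induction_on with
  | empty => exact (FT_zero H).congr fun z => by rw [Finset.sum_empty]
  | insert a s ha ih =>
    have h1 := (h a (Finset.mem_insert_self a s)).add
      (ih fun b hb => h b (Finset.mem_insert_of_mem hb))
    exact h1.congr fun z => by rw [Finset.sum_insert ha]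

/-- multiplication by an invariant semilinear set -/
theorem FT.ite {H : Subgroup (Ω ≃ₐ[k] Ω)} {J : (ι → Ω × ℚ) → ℚ} (h : FT H J)
    (p : (ι → Ω × ℚ) → Prop) [DecidablePred p] (hp : ∀ σ ∈ H, ∀ z, p z → p (sz σ z))
    (hsl : ∀ w : ι → Ω, SL {g : ι → ℚ | p (zip w g)}) :
    FT H fun z => if p z then J z else 0 := by
  refine ⟨fun σ hσ z => ?_, fun w => ?_, ?_⟩
  · have h1 : p (sz σ z) ↔ p z := by
      refine ⟨fun h2 => ?_, hp σ hσ z⟩
      have h3 := hp σ⁻¹ (H.inv_mem hσ) _ h2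
      rwa [← sz_mul, inv_mul_cancel, sz_one] at h3
    by_cases h2 : p z
    · rw [if_pos h2, if_pos (h1.2 h2), h.inv σ hσ z]
    · rw [if_neg h2, if_neg fun h3 => h2 (h1.1 h3)]
  · have h1 := (h.cf w).mul (CF.ind (hsl w))
    convert h1 using 2 with g
    by_cases h2 : p (zip w g)
    · rw [if_pos h2, ind_of (by exact h2), mul_one]
    · rw [if_neg h2, ind_not (by exact h2), mul_zero]
  · obtain ⟨s, hs⟩ := h.fin
    refine ⟨s, fun z hz => hs z fun hc => hz ?_⟩
    rw [hc, ite_self]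

theorem Int_add {H : Subgroup (Ω ≃ₐ[k] Ω)} {J J' : (ι → Ω × ℚ) → ℚ} (h : FT H J)
    (h' : FT H J') : Int H (fun z => J z + J' z) = Int H J + Int H J' := by
  rw [Int_eq, Int_eq, Int_eq, ← finsum_add_distrib h.supp_out h'.supp_out]
  exact finsum_congr fun q => IO_add J J' _

theorem Int_mul_left {H : Subgroup (Ω ≃ₐ[k] Ω)} {J : (ι → Ω × ℚ) → ℚ} (c : ℚ) :
    Int H (fun z => c * J z) = c * Int H J := by
  by_cases hc : c = 0
  · rw [Int_of_zero fun z => by rw [hc, zero_mul], hc, zero_mul]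
  · rw [Int_eq, Int_eq]
    have h1 : ∀ q : Quotient (relS H ι), IO (fun z => c * J z) q.out = c * IO J q.out :=
      fun q => IO_mul c J q.out
    rw [finsum_congr h1, ← smul_eq_mul c (finsum _), smul_finsum]
    rfl

theorem Int_sub {H : Subgroup (Ω ≃ₐ[k] Ω)} {J J' : (ι → Ω × ℚ) → ℚ} (h : FT H J)
    (h' : FT H J') : Int H (fun z => J z - J' z) = Int H J - Int H J' := by
  have h1 : ∀ z, J z - J' z = J z + (-1) * J' z := fun z => by ring
  rw [Int_congr h1, Int_add h (h'.mul_left (-1)), Int_mul_left]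
  ring

theorem Int_sum {β : Type x} {H : Subgroup (Ω ≃ₐ[k] Ω)} (s : Finset β)
    {J : β → (ι → Ω × ℚ) → ℚ} (h : ∀ b ∈ s, FT H (J b)) :
    Int H (fun z => ∑ b ∈ s, J b z) = ∑ b ∈ s, Int H (J b) := by
  classical
  induction s using Finset.induction_on with
  | empty => exact Int_of_zero fun z => by rw [Finset.sum_empty]
  | insert a s ha ih =>
    rw [Int_congr fun z => Finset.sum_insert ha,
      Int_add (h a (Finset.mem_insert_self a s)) (FT.sum s fun b hb =>
        h b (Finset.mem_insert_of_mem hb)), ih fun b hb => h b (Finset.mem_insert_of_mem hb),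
      Finset.sum_insert ha]

/-! ## Reindexing -/

variable [Fintype κ]

omit [Field Ω] in
theorem IO_equiv (e : κ ≃ ι) {J : (κ → Ω × ℚ) → ℚ} (hJ : ∀ w : κ → Ω, CF fun g => J (zip w g))
    (w : ι → Ω) : IO (fun z : ι → Ω × ℚ => J fun j => z (e j)) w = IO J fun j => w (e j) := by
  unfold IO
  exact I_equiv e (hJ fun j => w (e j))

theorem FT.equiv {H : Subgroup (Ω ≃ₐ[k] Ω)} (e : κ ≃ ι) {J : (κ → Ω × ℚ) → ℚ} (h : FT H J) :
    FT H fun z : ι → Ω × ℚ => J fun j => z (e j) := by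
  classical
  refine ⟨fun σ hσ z => ?_, fun w => ?_, ?_⟩
  · exact h.inv σ hσ fun j => z (e j)
  · exact (h.cf fun j => w (e j)).comp (AffM.reindex e)
  · obtain ⟨s, hs⟩ := h.fin
    refine ⟨s.image fun w i => w (e.symm i), fun z hz => ?_⟩
    obtain ⟨w, hw, σ, hσ, hr⟩ := hs _ hz
    refine ⟨_, Finset.mem_image_of_mem _ hw, σ, hσ, fun i => ?_⟩
    have := hr (e.symm i)
    rw [this]
    change (z (e (e.symm i))).1 = (z i).1
    rw [e.apply_symm_apply]

theorem Int_equiv {H : Subgroup (Ω ≃ₐ[k] Ω)} (e : κ ≃ ι) {J : (κ → Ω × ℚ) → ℚ} (h : FT H J) :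
    Int H (fun z : ι → Ω × ℚ => J fun j => z (e j)) = Int H J := by
  rw [Int_eq, Int_eq]
  let E : Quotient (relS H ι) → Quotient (relS H κ) :=
    Quotient.map (sa := relS H ι) (sb := relS H κ) (fun w j => w (e j))
      (by
        rintro w w' ⟨σ, hσ, hw⟩
        exact ⟨σ, hσ, fun j => hw (e j)⟩)
  refine finsum_eq_of_bijective E ⟨?_, ?_⟩ ?_
  · intro q q'
    refine Quotient.inductionOn₂ q q' ?_
    intro w w' hq
    obtain ⟨σ, hσ, hw⟩ : Rel H (fun j => w (e j)) (fun j => w' (e j)) := Quotient.exact hq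
    refine Quotient.sound (s := relS H ι) ⟨σ, hσ, fun i => ?_⟩
    have := hw (e.symm i)
    dsimp only at this
    rwa [e.apply_symm_apply] at this
  · intro q
    refine Quotient.inductionOn q ?_
    intro w
    refine ⟨Quotient.mk _ fun i => w (e.symm i), ?_⟩
    have : (fun j => w (e.symm (e j))) = w := by
      funext j
      rw [e.symm_apply_apply]
    exact congrArg (Quotient.mk (relS H κ)) this
  · intro q
    have h1 : IO J (E q).out = IO J (fun j => q.out (e j)) := by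
      conv_lhs => rw [← Quotient.out_eq q]
      exact IO_out h.inv _
    rw [h1]
    exact IO_equiv e h.cf _

/-- Fubini, integrating out the first coordinates -/
theorem Int_pr' {H : Subgroup (Ω ≃ₐ[k] Ω)} {J : (ι ⊕ κ → Ω × ℚ) → ℚ} (h : FT H J) :
    Int H J = Int H (prJ H fun z : κ ⊕ ι → Ω × ℚ => J fun j => z (Equiv.sumComm ι κ j)) := by
  rw [← Int_pr (h.equiv (Equiv.sumComm ι κ)), Int_equiv (Equiv.sumComm ι κ) h]

omit [Fintype ι] in
/-- If the last coordinates are a function of the first ones, they can be dropped. -/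
theorem prJ_graph {H : Subgroup (Ω ≃ₐ[k] Ω)} {J : (ι ⊕ κ → Ω × ℚ) → ℚ} (z : ι → Ω × ℚ)
    (z' : κ → Ω × ℚ) (hz : ∀ σ ∈ fixT H (ac z), sz σ z' = z')
    (h : ∀ y, J (Sum.elim z y) ≠ 0 → y = z') : prJ H J z = J (Sum.elim z z') :=
  Int_point z' hz h

end RV

end

end KTS
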