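import Pool.Agent.KTS.IB
import Pool.Agent.KTS.HC2

/-!
[KTS] Block I, names used by TR, TB, SB (helper28): names used by TR, TB, SB.
-/

set_option autoImplicit false
set_option linter.unusedSectionVars false

namespace KTS

noncomputable section

universe u v w

section IC

variable {k Ω : Type u} [Field k] [Field Ω] [Algebra k Ω]
variable {ι : Type v} {κ : Type w}

theorem fixT_of_isEmpty [IsEmpty ι] (H : Subgroup (Ω ≃ₐ[k] Ω)) (a : ι → Ω) : fixT H a = H := by
  ext σ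
  exact ⟨fun h => h.1, fun h => ⟨h, fun i => isEmptyElim i⟩⟩

theorem fixT_range {H : Subgroup (Ω ≃ₐ[k] Ω)} {a : ι → Ω} {b : κ → Ω}
    (h : Set.range a = Set.range b) : fixT H a = fixT H b := by
  ext σ
  constructor
  · rintro ⟨h1, h2⟩
    refine ⟨h1, fun j => ?_⟩
    obtain ⟨i, hi⟩ : b j ∈ Set.range a := by rw [h]; exact ⟨j, rfl⟩
    rw [← hi, h2]
  · rintro ⟨h1, h2⟩
    refine ⟨h1, fun j => ?_⟩
    obtain ⟨i, hi⟩ : a j ∈ Set.range b := by rw [← h]; exact ⟨j, rfl⟩
    rw [← hi, h2]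

theorem sz_eq_iff (σ : Ω ≃ₐ[k] Ω) (z : ι → Ω × ℚ) : sz σ z = z ↔ ∀ i, σ (ac z i) = ac z i := by
  constructor
  · intro h i
    have := congrFun h i
    exact congrArg Prod.fst this
  · intro h
    funext i
    exact Prod.ext (h i) rfl

theorem kf_sz (σ : Ω ≃ₐ[k] Ω) (w : ι → Ω) :
    kf k (fun i => σ (w i)) = (kf k w).map (σ : Ω →ₐ[k] Ω) :=
  (kf_map (σ : Ω →ₐ[k] Ω) w).symm

variable [Fintype ι] [Fintype κ] {H : Subgroup (Ω ≃ₐ[k] Ω)}

theorem FT.zero : FT H (fun _ : ι → Ω × ℚ => 0) := FT_zero H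

theorem FT.const_mul (c : ℚ) {J : (ι → Ω × ℚ) → ℚ} (h : FT H J) : FT H (fun z => c * J z) :=
  h.mul_left c

theorem Int_const_mul (c : ℚ) {J : (ι → Ω × ℚ) → ℚ} (_h : FT H J) :
    Int H (fun z => c * J z) = c * Int H J := Int_mul_left c

/-- Restriction to a stable set. -/
theorem FT.restrict {J : (ι → Ω × ℚ) → ℚ} (h : FT H J) (p : (ι → Ω × ℚ) → Prop) [DecidablePred p]
    (hp : ∀ σ ∈ H, ∀ z, p z → p (sz σ z)) (hSL : ∀ w : ι → Ω, SL {g : ι → ℚ | p (zip w g)}) :
    FT H (fun z => if p z then J z else 0) := h.ite p hp hSL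

theorem FT.prJ {J : (ι ⊕ κ → Ω × ℚ) → ℚ} (h : FT H J) : FT H (prJ H J) := h.pr

theorem Int_prJ {J : (ι ⊕ κ → Ω × ℚ) → ℚ} (h : FT H J) : Int H J = Int H (KTS.prJ H J) := Int_pr h

/-- One orbit. -/
theorem Int_orbit {J : (ι → Ω × ℚ) → ℚ} (h : ∀ σ ∈ H, ∀ z, J (sz σ z) = J z)
    (w : ι → Ω) (hs : ∀ z, J z ≠ 0 → Rel H w (ac z)) :
    Int H J = I ι fun g : ι → ℚ => J (zip w g) := Int_single h w hs

/-- Point mass (I3). -/
theorem FT.point {J : (ι → Ω × ℚ) → ℚ} (z₀ : ι → Ω × ℚ) (h : ∀ σ ∈ H, sz σ z₀ = z₀)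
    (hJ : ∀ z, J z ≠ 0 → z = z₀) : FT H J := FT_point z₀ h hJ

theorem Int_of_isEmpty [IsEmpty ι] (J : (ι → Ω × ℚ) → ℚ) : Int H J = J isEmptyElim :=
  Int_point isEmptyElim (fun _ _ => funext fun i => isEmptyElim i)
    fun _ _ => funext fun i => isEmptyElim i

/-- The function on the graph. -/
theorem FT.graph {J : (ι → Ω × ℚ) → ℚ} (hJ : FT H J) (f : (ι → Ω × ℚ) → (κ → Ω × ℚ))
    [∀ (z : ι → Ω × ℚ) (z' : κ → Ω × ℚ), Decidable (f z = z')]
    (hinv : ∀ σ ∈ H, ∀ z, J z ≠ 0 → f (sz σ z) = sz σ (f z))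
    (hcf : ∀ (w : ι → Ω) (w' : κ → Ω), CF fun g : κ ⊕ ι → ℚ =>
      if f (zip w fun i => g (Sum.inr i)) = zip w' (fun j => g (Sum.inl j)) then
        J (zip w fun i => g (Sum.inr i)) else 0)
    (hfin : ∀ w : ι → Ω, {w' : κ → Ω | ∃ g, J (zip w g) ≠ 0 ∧ ac (f (zip w g)) = w'}.Finite) :
    FT H (fun z : κ ⊕ ι → Ω × ℚ => if f (fun i => z (Sum.inr i)) = (fun j => z (Sum.inl j)) then
      J (fun i => z (Sum.inr i)) else 0) := by
  classical
  refine ⟨?_, ?_, ?_⟩
  · intro σ hσ z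
    have e1 : (fun i => sz σ z (Sum.inr i)) = sz σ (fun i => z (Sum.inr i)) := rfl
    have e2 : (fun j => sz σ z (Sum.inl j)) = sz σ (fun j => z (Sum.inl j)) := rfl
    rw [e1, e2, hJ.inv σ hσ]
    by_cases h0 : J (fun i => z (Sum.inr i)) = 0
    · rw [h0, ite_self, ite_self]
    · refine if_congr ?_ rfl rfl
      rw [hinv σ hσ _ h0]
      constructor
      · intro h
        have h1 := congrArg (sz σ⁻¹) h
        rwa [← sz_mul, ← sz_mul, inv_mul_cancel, sz_one, sz_one] at h1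
      · intro h
        rw [h]
  · intro w
    exact hcf (fun i => w (Sum.inr i)) (fun j => w (Sum.inl j))
  · obtain ⟨s, hs⟩ := hJ.fin
    refine ⟨s.biUnion fun w => (hfin w).toFinset.image fun w' => Sum.elim w' w, ?_⟩
    intro z hz
    have h1 : f (fun i => z (Sum.inr i)) = (fun j => z (Sum.inl j)) := by
      by_contra hc
      exact hz (if_neg hc)
    rw [if_pos h1] at hz
    obtain ⟨w, hw, σ, hσ, hr⟩ := hs _ hz
    set g : ι → ℚ := va (fun i => z (Sum.inr i)) with hg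
    have e1 : (fun i => z (Sum.inr i)) = sz σ (zip w g) := by
      rw [sz_zip]
      conv_lhs => rw [← zip_ac_va fun i => z (Sum.inr i)]
      congr 1
      funext i
      exact (hr i).symm
    have h2 : J (zip w g) ≠ 0 := by
      rw [← hJ.inv σ hσ, ← e1]
      exact hz
    have h3 : (fun j => z (Sum.inl j)) = sz σ (f (zip w g)) := by
      rw [← h1, e1, hinv σ hσ _ h2]
    refine ⟨Sum.elim (ac (f (zip w g))) w, ?_, σ, hσ, ?_⟩
    · rw [Finset.mem_biUnion]
      refine ⟨w, hw, Finset.mem_image_of_mem _ ?_⟩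
      rw [Set.Finite.mem_toFinset]
      exact ⟨g, h2, rfl⟩
    · intro j
      rcases j with j | j
      · exact (congrArg Prod.fst (congrFun h3 j)).symm
      · exact hr j

/-- Graph of a function (I4).  `f` is equivariant on the support of `J`, for fixed `w` its
`Ω`-part takes finitely many values, and the graph is constructible. -/
theorem Int_graph {J : (ι → Ω × ℚ) → ℚ} (hJ : FT H J) (f : (ι → Ω × ℚ) → (κ → Ω × ℚ))
    [∀ (z : ι → Ω × ℚ) (z' : κ → Ω × ℚ), Decidable (f z = z')]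
    (hinv : ∀ σ ∈ H, ∀ z, J z ≠ 0 → f (sz σ z) = sz σ (f z))
    (hcf : ∀ (w : ι → Ω) (w' : κ → Ω), CF fun g : κ ⊕ ι → ℚ =>
      if f (zip w fun i => g (Sum.inr i)) = zip w' (fun j => g (Sum.inl j)) then
        J (zip w fun i => g (Sum.inr i)) else 0)
    (hfin : ∀ w : ι → Ω, {w' : κ → Ω | ∃ g, J (zip w g) ≠ 0 ∧ ac (f (zip w g)) = w'}.Finite) :
    Int H J = Int H (fun z : κ → Ω × ℚ =>
      Int (fixT H (ac z)) fun z' : ι → Ω × ℚ => if f z' = z then J z' else 0) := by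
  have hG := hJ.graph f hinv hcf hfin
  have h1 : Int H (fun z : κ → Ω × ℚ =>
      Int (fixT H (ac z)) fun z' : ι → Ω × ℚ => if f z' = z then J z' else 0) =
      Int H (fun z : κ ⊕ ι → Ω × ℚ => if f (fun i => z (Sum.inr i)) = (fun j => z (Sum.inl j)) then
      J (fun i => z (Sum.inr i)) else 0) := (Int_pr hG).symm
  rw [h1, Int_pr' hG]
  refine Int_congr fun z => ?_
  by_cases h0 : J z = 0
  · rw [h0]
    symm
    refine Int_of_zero fun y => ?_
    change (if f z = y then J z else 0) = 0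
    rw [h0, ite_self]
  · symm
    refine (prJ_graph z (f z) ?_ ?_).trans ?_
    · intro σ hσ
      rw [← hinv σ hσ.1 z h0]
      congr 1
      funext i
      exact Prod.ext (hσ.2 i) rfl
    · intro y hy
      by_contra hc
      apply hy
      change (if f z = y then J z else 0) = 0
      exact if_neg fun h => hc h.symm
    · change (if f z = f z then J z else 0) = J z
      exact if_pos rfl

/-- Special case: a coordinate. -/
theorem Int_coord {J : (ι → Ω × ℚ) → ℚ} (hJ : FT H J) (a : ι)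
    [∀ (z : ι → Ω × ℚ) (z' : PUnit.{v + 1} → Ω × ℚ), Decidable ((fun _ => z a) = z')] :
    Int H J = Int H (fun z : PUnit.{v + 1} → Ω × ℚ =>
      Int (fixT H (ac z)) fun z' : ι → Ω × ℚ => if (fun _ => z' a) = z then J z' else 0) := by
  classical
  refine Int_graph hJ (fun z _ => z a) (fun σ hσ z hz => rfl) ?_ ?_
  · intro w w'
    by_cases h1 : w a = w' PUnit.unit
    · have h2 : CF fun g : PUnit.{v + 1} ⊕ ι → ℚ => J (zip w fun i => g (Sum.inr i)) :=
        (hJ.cf w).comp (AffM.reindex Sum.inr)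
      have h3 : SL {g : PUnit.{v + 1} ⊕ ι → ℚ | g (Sum.inr a) = g (Sum.inl PUnit.unit)} :=
        SL.eq (Aff.coord _) (Aff.coord _)
      refine (congrArg CF (funext fun g => ?_)).mp (h2.mul (CF.ind h3))
      by_cases h4 : g (Sum.inr a) = g (Sum.inl PUnit.unit)
      · rw [ind_of (by exact h4), mul_one, if_pos]
        funext j
        exact Prod.ext h1 h4
      · rw [ind_not (by exact h4), mul_zero, if_neg]
        intro hc
        exact h4 (congrArg Prod.snd (congrFun hc PUnit.unit))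
    · refine (congrArg CF (funext fun g => ?_)).mp (CF.const 0)
      rw [if_neg]
      intro hc
      exact h1 (congrArg Prod.fst (congrFun hc PUnit.unit))
  · intro w
    refine (Set.finite_singleton fun _ => w a).subset ?_
    rintro w' ⟨g, -, rfl⟩
    rfl

end IC

end

end KTS
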