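import Pool.Agent.KTS.CH3

/-!
[KTS-J] Branches of algebraic functions on discs (Section 6 of KTS_paper.md, adapted).
Environment: `M = E(x)`, `x` transcendental, `N / M` finite, `T` = the set of all roots in `N` of a squarefree monic
polynomial `q` over `M`, `S` a finite set of non-zero elements containing the differences `ρ - ρ'` and the non-zero
derivatives `∂ρ`, `P` a finite set of polynomials over `E` such that the coefficients of `q` and of the norm form of
`S` are quotients of values at `x` of elements of `P`.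
-/

namespace KTS

noncomputable section

universe u

open Polynomial

/-- `c = a(x) / b(x)` with `a, b ∈ P`. -/
def QuoP {E M : Type u} [Field E] [Field M] [Algebra E M] (P : Finset (Polynomial E)) (x c : M) :
    Prop := ∃ a ∈ P, ∃ b ∈ P, c * aeval x b = aeval x a

/-- The environment of the block J. -/
structure BrHyp {E M N : Type u} [Field E] [CharZero E] [Field M] [CharZero M] [Field N]
    [Algebra E M] [Algebra M N] [Algebra E N] [IsScalarTower E M N] [FiniteDimensional M N]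
    (x : M) (q : Polynomial M) (T : Finset N) (d : Derivation E N N) (S : Finset N)
    (P : Finset (Polynomial E)) : Prop where
  tr : Transcendental E x
  gen : IntermediateField.adjoin E {x} = ⊤
  prod : q.map (algebraMap M N) = ∏ ρ ∈ T, (X - C ρ)
  dx : d (algebraMap M N x) = 1
  ne : ∀ s ∈ S, s ≠ 0
  diff : ∀ ρ ∈ T, ∀ ρ' ∈ T, ρ ≠ ρ' → ρ - ρ' ∈ S
  der : ∀ ρ ∈ T, d ρ ≠ 0 → d ρ ∈ S
  P_ne : ∀ p ∈ P, p ≠ 0
  quo_q : ∀ j, q.coeff j ≠ 0 → QuoP P x (q.coeff j)
  quo_S : ∀ m ∈ (nform M N S).support, QuoP P x ((nform M N S).coeff m)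

/-- All roots of the `φ(p)`, `p ∈ P`, are at distance `> |x₂ - x₁|` from `x₁`:
`v(x₁ - r) < v(x₂ - x₁)`. -/
def DiscHyp {Ω E : Type u} [Field Ω] [Field E] (P : Finset (Polynomial E))
    (φ : E →+* HahnSeries ℚ Ω) (x₁ x₂ : HahnSeries ℚ Ω) : Prop :=
  x₁ ≠ x₂ ∧ ∀ p ∈ P, ∀ r ∈ (p.map φ).roots, (x₁ - r).orderTop < (x₂ - x₁).orderTop

/-- The inclusion `HahnSeries ℚ Ω → HahnSeries ℚ (Polynomial Ω)` (constants). -/
def cst (Ω : Type u) [Field Ω] : HahnSeries ℚ Ω →+* HahnSeries ℚ (Polynomial Ω) := hmap (C : Ω →+* Polynomial Ω)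

/-- Coefficientwise evaluation at `a`. -/
def evl {Ω : Type u} [Field Ω] (a : Ω) : HahnSeries ℚ (Polynomial Ω) →+* HahnSeries ℚ Ω :=
  hmap (evalRingHom a)

/-- Coefficientwise evaluation at a transcendental element `w` of an extension `Ω'`. -/
def evw {Ω Ω' : Type u} [Field Ω] [Field Ω'] [Algebra Ω Ω'] (w : Ω') :
    HahnSeries ℚ (Polynomial Ω) →+* HahnSeries ℚ Ω' :=
  hmap ((aeval w : Polynomial Ω →ₐ[Ω] Ω') : Polynomial Ω →+* Ω')

/-- Coefficientwise derivative. -/
def dpp {Ω : Type u} [Field Ω] (y : HahnSeries ℚ (Polynomial Ω)) : HahnSeries ℚ (Polynomial Ω) :=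
  y.map (derivative : Polynomial Ω →ₗ[Ω] Polynomial Ω)

/-- The moving point `x₁ + (x₂ - x₁) w` in `HahnSeries ℚ (Ω[w])`. -/
def mov {Ω : Type u} [Field Ω] (x₁ x₂ : HahnSeries ℚ Ω) : HahnSeries ℚ (Polynomial Ω) :=
  cst Ω x₁ + cst Ω (x₂ - x₁) * HahnSeries.C (X : Polynomial Ω)

end

end KTS
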