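import Pool.Agent.KTS.J0

/-!
[KTS-J1] Calculus in `HahnSeries ℚ (Polynomial Ω)`.
-/

namespace KTS

noncomputable section

universe u

open Polynomial

variable {Ω : Type u} [Field Ω]

@[simp] theorem dpp_coeff (y : HahnSeries ℚ (Polynomial Ω)) (g : ℚ) :
    (dpp y).coeff g = derivative (y.coeff g) := rfl

theorem dpp_add (y z : HahnSeries ℚ (Polynomial Ω)) : dpp (y + z) = dpp y + dpp z := by
  ext1
  funext g
  simp

private theorem J1_supp (y : HahnSeries ℚ (Polynomial Ω)) : (dpp y).support ⊆ y.support := by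
  intro g hg
  rw [HahnSeries.mem_support] at hg ⊢
  intro h0
  apply hg
  rw [dpp_coeff, h0, derivative_zero]

/-- Leibniz rule. Proof: coefficient of a product = finite sum over `addAntidiagonal` (enlarge the supports with
`HahnSeries.coeff_mul_left'`/`coeff_mul_right'`: the support of `dpp y` is contained in the support of `y`),
`Polynomial.derivative_mul`. -/
theorem dpp_mul (y z : HahnSeries ℚ (Polynomial Ω)) : dpp (y * z) = dpp y * z + y * dpp z := by
  ext1
  funext g
  rw [dpp_coeff, HahnSeries.coeff_add, HahnSeries.coeff_mul,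
    HahnSeries.coeff_mul_left' y.isPWO_support (J1_supp y),
    HahnSeries.coeff_mul_right' z.isPWO_support (J1_supp z), derivative_sum,
    ← Finset.sum_add_distrib]
  refine Finset.sum_congr rfl fun ij _ => ?_
  rw [derivative_mul, dpp_coeff, dpp_coeff]

theorem dpp_cst (a : HahnSeries ℚ Ω) : dpp (cst Ω a) = 0 := by
  ext1
  funext g
  rw [dpp_coeff, cst, hmap_coeff, derivative_C, HahnSeries.coeff_zero]

private theorem J1_dpp_C (p : Polynomial Ω) :
    dpp (HahnSeries.C p : HahnSeries ℚ (Polynomial Ω)) = HahnSeries.C (derivative p) := by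
  ext1
  funext g
  rw [dpp_coeff, HahnSeries.C_apply, HahnSeries.C_apply]
  by_cases hg : g = 0
  · subst hg
    rw [HahnSeries.coeff_single_same, HahnSeries.coeff_single_same]
  · rw [HahnSeries.coeff_single_of_ne hg, HahnSeries.coeff_single_of_ne hg, derivative_zero]

private theorem J1_hmap_C {R S : Type*} [CommRing R] [CommRing S] (f : R →+* S) (r : R) :
    hmap f (HahnSeries.C r : HahnSeries ℚ R) = HahnSeries.C (f r) := by
  ext1
  funext g
  rw [hmap_coeff, HahnSeries.C_apply, HahnSeries.C_apply]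
  by_cases hg : g = 0
  · subst hg
    rw [HahnSeries.coeff_single_same, HahnSeries.coeff_single_same]
  · rw [HahnSeries.coeff_single_of_ne hg, HahnSeries.coeff_single_of_ne hg, map_zero]

private theorem J1_rv_hmap {R S : Type*} [CommRing R] [CommRing S] (f : R →+* S)
    (y : HahnSeries ℚ R) (h : f y.leadingCoeff ≠ 0) :
    (hmap f y).order = y.order ∧ (hmap f y).leadingCoeff = f y.leadingCoeff := by
  have h1 : (hmap f y).coeff y.order ≠ 0 := by
    rw [hmap_coeff, ← HahnSeries.leadingCoeff_eq]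
    exact h
  have h2 : (hmap f y).order = y.order := by
    refine le_antisymm (HahnSeries.order_le_of_coeff_ne_zero h1) ?_
    apply HahnSeries.order_le_of_coeff_ne_zero
    intro h0
    have h3 : hmap f y ≠ 0 := HahnSeries.ne_zero_of_coeff_ne_zero h1
    rw [← HahnSeries.leadingCoeff_ne_zero, HahnSeries.leadingCoeff_eq, hmap_coeff, h0,
      map_zero] at h3
    exact h3 rfl
  refine ⟨h2, ?_⟩
  rw [HahnSeries.leadingCoeff_eq, h2, hmap_coeff, ← HahnSeries.leadingCoeff_eq]

theorem dpp_mov (x₁ x₂ : HahnSeries ℚ Ω) : dpp (mov x₁ x₂) = cst Ω (x₂ - x₁) := by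
  rw [mov, dpp_add, dpp_mul, dpp_cst, dpp_cst, J1_dpp_C, derivative_X, map_one, mul_one, zero_mul,
    zero_add, zero_add]

theorem evl_cst (a : Ω) (y : HahnSeries ℚ Ω) : evl a (cst Ω y) = y := by
  ext1
  funext g
  rw [evl, hmap_coeff, cst, hmap_coeff, coe_evalRingHom, eval_C]

private theorem J1_evl_mov (a : Ω) (x₁ x₂ : HahnSeries ℚ Ω) :
    evl a (mov x₁ x₂) = x₁ + (x₂ - x₁) * HahnSeries.C a := by
  rw [mov, map_add, map_mul, evl_cst, evl_cst, evl, J1_hmap_C, coe_evalRingHom, eval_X]

theorem evl_mov_zero (x₁ x₂ : HahnSeries ℚ Ω) : evl 0 (mov x₁ x₂) = x₁ := by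
  rw [J1_evl_mov, map_zero, mul_zero, add_zero]

theorem evl_mov_one (x₁ x₂ : HahnSeries ℚ Ω) : evl 1 (mov x₁ x₂) = x₂ := by
  rw [J1_evl_mov, map_one, mul_one, add_sub_cancel]

/-- `evw w` is injective for transcendental `w`. -/
theorem evw_inj {Ω' : Type u} [Field Ω'] [Algebra Ω Ω'] (w : Ω') (hw : Transcendental Ω w) :
    Function.Injective (evw w : HahnSeries ℚ (Polynomial Ω) →+* HahnSeries ℚ Ω') := by
  intro y z h
  have hi := transcendental_iff_injective.1 hw
  ext1
  funext g
  apply hi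
  have h1 := congrArg (fun t => HahnSeries.coeff t g) h
  exact h1

theorem evw_cst {Ω' : Type u} [Field Ω'] [Algebra Ω Ω'] (w : Ω') (y : HahnSeries ℚ Ω) :
    evw w (cst Ω y) = hmap (algebraMap Ω Ω') y := by
  ext1
  funext g
  rw [evw, hmap_coeff, cst, hmap_coeff, hmap_coeff, RingHom.coe_coe, aeval_C]

/-- `rv` under `evw`, and under evaluation when the leading coefficient is a non-zero constant. -/
theorem rv_evw {Ω' : Type u} [Field Ω'] [Algebra Ω Ω'] (w : Ω') (hw : Transcendental Ω w)
    (y : HahnSeries ℚ (Polynomial Ω)) :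
    (evw w y).leadingCoeff = aeval w y.leadingCoeff ∧ (evw w y).order = y.order := by
  by_cases hy : y = 0
  · subst hy
    simp
  · have h1 : ((aeval w : Polynomial Ω →ₐ[Ω] Ω') : Polynomial Ω →+* Ω') y.leadingCoeff ≠ 0 := by
      intro h0
      have hi := transcendental_iff_injective.1 hw
      refine HahnSeries.leadingCoeff_ne_zero.2 hy (hi ?_)
      rw [map_zero]
      exact h0
    have h2 := J1_rv_hmap ((aeval w : Polynomial Ω →ₐ[Ω] Ω') : Polynomial Ω →+* Ω') y h1
    exact ⟨h2.2, h2.1⟩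

theorem rv_evl (a : Ω) (y : HahnSeries ℚ (Polynomial Ω)) (c : Ω) (hc : c ≠ 0)
    (hy : y.leadingCoeff = C c) : rv (evl a y) = (c, y.order) := by
  have h0 : evalRingHom a y.leadingCoeff = c := by
    rw [hy, coe_evalRingHom, eval_C]
  have h1 : evalRingHom a y.leadingCoeff ≠ 0 := by
    rw [h0]
    exact hc
  have h2 := J1_rv_hmap (evalRingHom a) y h1
  rw [rv, evl, h2.1, h2.2, h0]

/-- A Hahn series over `Ω[X]` whose leading coefficient is a non-zero constant is a unit.
Mathlib: `HahnSeries.isUnit_iff` / `isUnit_of_isUnit_leadingCoeff_AddUnitOrder` (look in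
`RingTheory/HahnSeries/Summable.lean`). -/
theorem isUnit_of_lc (y : HahnSeries ℚ (Polynomial Ω)) (c : Ω) (hc : c ≠ 0)
    (hy : y.leadingCoeff = C c) : IsUnit y := by
  rw [HahnSeries.isUnit_iff, hy]
  exact Polynomial.isUnit_C.2 (isUnit_iff_ne_zero.2 hc)

end

end KTS

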