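import Pool.Agent.KTS.J1

/-!
[KTS-J2] Values of polynomials at the moving point.
-/

namespace KTS

noncomputable section

universe u

open Polynomial

variable {Ω : Type u} [Field Ω] [CharZero Ω] [IsAlgClosed Ω] {E : Type u} [Field E]

/-- `p` evaluated at the moving point. -/
def pmov (φ : E →+* HahnSeries ℚ Ω) (x₁ x₂ : HahnSeries ℚ Ω) (p : Polynomial E) :
    HahnSeries ℚ (Polynomial Ω) := p.eval₂ ((cst Ω).comp φ) (mov x₁ x₂)

/-- Chain rule. Proof: `Polynomial.induction_on'` / on monomials, `dpp_add`, `dpp_mul`, `dpp_cst`,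
`dpp_mov`. -/
theorem dpp_pmov (φ : E →+* HahnSeries ℚ Ω) (x₁ x₂ : HahnSeries ℚ Ω) (p : Polynomial E) :
    dpp (pmov φ x₁ x₂ p) = cst Ω (x₂ - x₁) * pmov φ x₁ x₂ (derivative p) := by
  have hpow : ∀ n : ℕ, dpp (mov x₁ x₂ ^ n) = cst Ω (x₂ - x₁) * ((n : HahnSeries ℚ (Polynomial Ω)) *
      mov x₁ x₂ ^ (n - 1)) := by
    intro n
    induction n with
    | zero =>
      rw [pow_zero, ← map_one (cst Ω), dpp_cst, Nat.cast_zero, zero_mul, mul_zero]
    | succ n ih =>
      rw [pow_succ, dpp_mul, ih, dpp_mov, Nat.add_sub_cancel]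
      rcases n with _ | n
      · simp
      · rw [Nat.add_sub_cancel, pow_succ]
        push_cast
        ring
  induction p using Polynomial.induction_on' with
  | add p q hp hq =>
    unfold pmov at hp hq ⊢
    rw [eval₂_add, dpp_add, hp, hq, derivative_add, eval₂_add, mul_add]
  | monomial n a =>
    unfold pmov
    rw [eval₂_monomial, dpp_mul, hpow, derivative_monomial, eval₂_monomial, RingHom.comp_apply,
      dpp_cst, RingHom.comp_apply, map_mul, map_mul, map_natCast, map_natCast]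
    ring

/-- `Polynomial.hom_eval₂`, `evl_cst`, `evl_mov_zero`. -/
theorem evl_zero_pmov (φ : E →+* HahnSeries ℚ Ω) (x₁ x₂ : HahnSeries ℚ Ω) (p : Polynomial E) :
    evl 0 (pmov φ x₁ x₂ p) = p.eval₂ φ x₁ := by
  unfold pmov
  rw [Polynomial.hom_eval₂, evl_mov_zero]
  congr 1
  ext1 y
  rw [RingHom.comp_apply, RingHom.comp_apply, evl_cst]

theorem evl_one_pmov (φ : E →+* HahnSeries ℚ Ω) (x₁ x₂ : HahnSeries ℚ Ω) (p : Polynomial E) :
    evl 1 (pmov φ x₁ x₂ p) = p.eval₂ φ x₂ := by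
  unfold pmov
  rw [Polynomial.hom_eval₂, evl_mov_one]
  congr 1
  ext1 y
  rw [RingHom.comp_apply, RingHom.comp_apply, evl_cst]

theorem evw_pmov {Ω' : Type u} [Field Ω'] [Algebra Ω Ω'] (w : Ω') (φ : E →+* HahnSeries ℚ Ω)
    (x₁ x₂ : HahnSeries ℚ Ω) (p : Polynomial E) :
    evw w (pmov φ x₁ x₂ p) =
      p.eval₂ ((hmap (algebraMap Ω Ω')).comp φ) (evw w (mov x₁ x₂)) := by
  unfold pmov
  rw [Polynomial.hom_eval₂]
  congr 1
  ext1 y
  rw [RingHom.comp_apply, RingHom.comp_apply, RingHom.comp_apply, evw_cst]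

private theorem j2_cst_inj : Function.Injective (cst Ω) := by
  intro y z h
  have h1 := congrArg (evl (0 : Ω)) h
  rwa [evl_cst, evl_cst] at h1

private theorem j2_lc_cst (y : HahnSeries ℚ Ω) : (cst Ω y).leadingCoeff = C y.leadingCoeff ∧
    (cst Ω y).order = y.order ∧ (cst Ω y).orderTop = y.orderTop := by
  by_cases hy : y = 0
  · rw [hy, map_zero, HahnSeries.leadingCoeff_zero, HahnSeries.leadingCoeff_zero, map_zero,
      HahnSeries.order_zero, HahnSeries.order_zero, HahnSeries.orderTop_zero,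
      HahnSeries.orderTop_zero]
    exact ⟨rfl, rfl, rfl⟩
  · have hcy : cst Ω y ≠ 0 := fun h => hy (j2_cst_inj (by rw [h, map_zero]))
    have hcoe : ∀ g, (cst Ω y).coeff g = C (y.coeff g) := fun g => rfl
    have hord : (cst Ω y).order = y.order := by
      apply le_antisymm
      · apply HahnSeries.order_le_of_coeff_ne_zero
        rw [hcoe]
        intro h0
        exact hy (HahnSeries.coeff_order_eq_zero.1 (C_eq_zero.1 h0))
      · apply HahnSeries.order_le_of_coeff_ne_zero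
        intro h0
        apply hcy
        apply HahnSeries.coeff_order_eq_zero.1
        rw [hcoe, h0, map_zero]
    refine ⟨?_, hord, ?_⟩
    · rw [HahnSeries.leadingCoeff_eq, HahnSeries.leadingCoeff_eq, hord, hcoe]
    · rw [← HahnSeries.order_eq_orderTop_of_ne_zero hcy,
        ← HahnSeries.order_eq_orderTop_of_ne_zero hy, hord]

private def J2Good (x₁ x₂ : HahnSeries ℚ Ω) (q : Polynomial (HahnSeries ℚ Ω)) : Prop :=
  q.eval x₁ ≠ 0 ∧ (q.eval₂ (cst Ω) (mov x₁ x₂)).leadingCoeff = C (q.eval x₁).leadingCoeff ∧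
    (q.eval₂ (cst Ω) (mov x₁ x₂)).order = (q.eval x₁).order

private theorem j2_good_mul (x₁ x₂ : HahnSeries ℚ Ω) (q r : Polynomial (HahnSeries ℚ Ω))
    (hq : J2Good x₁ x₂ q) (hr : J2Good x₁ x₂ r) : J2Good x₁ x₂ (q * r) := by
  obtain ⟨q1, q2, q3⟩ := hq
  obtain ⟨r1, r2, r3⟩ := hr
  have h1 : (q.eval x₁).leadingCoeff ≠ 0 := HahnSeries.leadingCoeff_ne_zero.2 q1
  have h2 : (r.eval x₁).leadingCoeff ≠ 0 := HahnSeries.leadingCoeff_ne_zero.2 r1
  refine ⟨?_, ?_, ?_⟩
  · rw [eval_mul]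
    exact mul_ne_zero q1 r1
  · rw [eval₂_mul, HahnSeries.leadingCoeff_mul, q2, r2, eval_mul, HahnSeries.leadingCoeff_mul, map_mul]
  · rw [eval₂_mul, eval_mul, HahnSeries.order_mul_of_ne_zero, HahnSeries.order_mul_of_ne_zero, q3, r3]
    · exact mul_ne_zero h1 h2
    · rw [q2, r2]
      exact mul_ne_zero (C_ne_zero.2 h1) (C_ne_zero.2 h2)

private theorem j2_good_C (x₁ x₂ : HahnSeries ℚ Ω) (a : HahnSeries ℚ Ω) (ha : a ≠ 0) :
    J2Good x₁ x₂ (C a) := by
  refine ⟨?_, ?_, ?_⟩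
  · rw [eval_C]; exact ha
  · rw [eval_C, eval₂_C]; exact (j2_lc_cst a).1
  · rw [eval_C, eval₂_C]; exact (j2_lc_cst a).2.1

private theorem j2_good_lin (x₁ x₂ : HahnSeries ℚ Ω) (r : HahnSeries ℚ Ω)
    (hr : (x₁ - r).orderTop < (x₂ - x₁).orderTop) : J2Good x₁ x₂ (X - C r) := by
  have hne : x₁ - r ≠ 0 := HahnSeries.orderTop_ne_top.1 hr.ne_top
  have e1 : (X - C r : Polynomial (HahnSeries ℚ Ω)).eval x₁ = x₁ - r := by
    rw [eval_sub, eval_X, eval_C]
  have e2 : (X - C r : Polynomial (HahnSeries ℚ Ω)).eval₂ (cst Ω) (mov x₁ x₂) =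
      cst Ω (x₁ - r) + cst Ω (x₂ - x₁) * HahnSeries.C (X : Polynomial Ω) := by
    rw [eval₂_sub, eval₂_X, eval₂_C]
    unfold mov
    rw [map_sub (cst Ω) x₁ r]
    ring
  have hX : (HahnSeries.C (X : Polynomial Ω) : HahnSeries ℚ (Polynomial Ω)).orderTop = 0 :=
    HahnSeries.orderTop_single X_ne_zero
  have hlt : (cst Ω (x₁ - r)).orderTop <
      (cst Ω (x₂ - x₁) * HahnSeries.C (X : Polynomial Ω)).orderTop := by
    rw [HahnSeries.orderTop_mul, hX, add_zero, (j2_lc_cst _).2.2, (j2_lc_cst _).2.2]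
    exact hr
  have hlc := HahnSeries.leadingCoeff_add_eq_left hlt
  have hot := HahnSeries.orderTop_add_eq_left hlt
  rw [← e2] at hlc hot
  have hne2 : (X - C r : Polynomial (HahnSeries ℚ Ω)).eval₂ (cst Ω) (mov x₁ x₂) ≠ 0 := by
    intro h0
    rw [h0, HahnSeries.orderTop_zero, (j2_lc_cst _).2.2] at hot
    exact hne (HahnSeries.orderTop_eq_top.1 hot.symm)
  refine ⟨?_, ?_, ?_⟩
  · rw [e1]; exact hne
  · rw [hlc, e1]; exact (j2_lc_cst _).1
  · rw [(j2_lc_cst _).2.2, ← HahnSeries.order_eq_orderTop_of_ne_zero hne2,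
      ← HahnSeries.order_eq_orderTop_of_ne_zero hne] at hot
    rw [e1]
    exact WithTop.coe_injective hot

/-- For `p ∈ P` the value at the moving point has constant leading coefficient, equal to that of
`p(x₁)`, and `p(x₁) ≠ 0`.
Proof. `U = HahnSeries ℚ Ω` is algebraically closed, so `p.map φ = C a * ∏ (X - C r)` over its roots
(`IsAlgClosed.splits`, `Polynomial.Splits.eq_prod_roots` or similar), `a = φ(leadingCoeff p) ≠ 0`. Hence
`pmov φ x₁ x₂ p = cst a * ∏ (mov x₁ x₂ - cst r)` and `mov x₁ x₂ - cst r = cst (x₁ - r) + cst (x₂ - x₁) * C X`, where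
`v(x₁ - r) < v(x₂ - x₁)`: leading coefficient `C (lc (x₁ - r))`, order `v(x₁ - r)` (`leadingCoeff_add_eq_left`,
`orderTop_add_eq_left`). Leading coefficients and orders are multiplicative (domain). The same
product for `p(x₁)`. -/
theorem pmov_lc (P : Finset (Polynomial E)) (φ : E →+* HahnSeries ℚ Ω) (x₁ x₂ : HahnSeries ℚ Ω)
    (h : DiscHyp P φ x₁ x₂) (p : Polynomial E) (hp : p ∈ P) (hp0 : p ≠ 0) :
    p.eval₂ φ x₁ ≠ 0 ∧ (pmov φ x₁ x₂ p).leadingCoeff = C (p.eval₂ φ x₁).leadingCoeff ∧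
      (pmov φ x₁ x₂ p).order = (p.eval₂ φ x₁).order := by
  have hmain : J2Good x₁ x₂ (p.map φ) := by
    have hsp := (IsAlgClosed.splits (p.map φ)).eq_prod_roots
    rw [hsp]
    apply j2_good_mul
    · apply j2_good_C
      rw [Polynomial.leadingCoeff_ne_zero]
      exact (Polynomial.map_ne_zero_iff φ.injective).2 hp0
    · have hroots := h.2 p hp
      generalize (p.map φ).roots = s at hroots
      induction s using Multiset.induction_on with
      | empty =>
        rw [Multiset.map_zero, Multiset.prod_zero, ← C_1]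
        exact j2_good_C _ _ _ one_ne_zero
      | cons r s ih =>
        rw [Multiset.map_cons, Multiset.prod_cons]
        apply j2_good_mul
        · exact j2_good_lin _ _ _ (hroots r (Multiset.mem_cons_self r s))
        · exact ih (fun r' hr' => hroots r' (Multiset.mem_cons_of_mem hr'))
  unfold J2Good at hmain
  rw [eval_map, eval₂_map] at hmain
  exact hmain

end

end KTS

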