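import Pool.Agent.KTS.J2

/-!
[KTS-J3] Lifting of the elements `c = a(x)/b(x)` to the moving point.
-/

namespace KTS

noncomputable section

universe u

open Polynomial

variable {Ω : Type u} [Field Ω] [CharZero Ω] [IsAlgClosed Ω] {E M : Type u} [Field E] [Field M]
  [Algebra E M]

/-- Let `c * b(x) = a(x)` with `a, b ∈ P`. Put `ĉ = pmov a / pmov b` (`pmov b` is a unit: `pmov_lc`,
`isUnit_of_lc`). Then for all embeddings of `M` over `φ`:
* `ψ x = x₁` ⟹ `evl 0 ĉ = ψ c`; `ψ x = x₂` ⟹ `evl 1 ĉ = ψ c`;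
* `Wm x = ` moving point ⟹ `evw w ĉ = Wm c`;
* `ĉ` has leading coefficient `C (lc (ψ c))` and order `v(ψ c)` for `ψ x = x₁`;
* `dpp ĉ * pmov b = cst (x₂ - x₁) * (pmov a' - ĉ * pmov b')` (quotient rule).
Proof: apply the ring homs to `ĉ * pmov b = pmov a` and compare with `ψ(c) b(x₁) = a(x₁)`, where `b(x₁) ≠ 0`;
for `x₂`: `b(x₂) = evl 1 (pmov b) ≠ 0` since `evl 1` of a unit is a unit; `pmov_lc` for the leading
coefficients (`leadingCoeff_mul`, `order_mul`). -/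
theorem quoP_lift (P : Finset (Polynomial E)) (hP : ∀ p ∈ P, p ≠ 0) (φ : E →+* HahnSeries ℚ Ω)
    (x₁ x₂ : HahnSeries ℚ Ω) (h : DiscHyp P φ x₁ x₂) (x c : M) (a b : Polynomial E) (ha : a ∈ P)
    (hb : b ∈ P) (hc : c * aeval x b = aeval x a) :
    ∃ ch : HahnSeries ℚ (Polynomial Ω),
      ch * pmov φ x₁ x₂ b = pmov φ x₁ x₂ a ∧ IsUnit (pmov φ x₁ x₂ b) ∧
      (∀ ψ : M →+* HahnSeries ℚ Ω, ψ.comp (algebraMap E M) = φ → ψ x = x₁ →
        evl 0 ch = ψ c ∧ ch.leadingCoeff = C (ψ c).leadingCoeff ∧ ch.order = (ψ c).order) ∧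
      (∀ ψ : M →+* HahnSeries ℚ Ω, ψ.comp (algebraMap E M) = φ → ψ x = x₂ → evl 1 ch = ψ c) ∧
      (∀ (Ω' : Type u) [Field Ω'] [Algebra Ω Ω'] (w : Ω') (Wm : M →+* HahnSeries ℚ Ω'),
        Wm.comp (algebraMap E M) = (hmap (algebraMap Ω Ω')).comp φ → Wm x = evw w (mov x₁ x₂) →
        evw w ch = Wm c) ∧
      dpp ch * pmov φ x₁ x₂ b =
        cst Ω (x₂ - x₁) * (pmov φ x₁ x₂ (derivative a) - ch * pmov φ x₁ x₂ (derivative b)) := by
  obtain ⟨hb1, hb2, hb3⟩ := pmov_lc P φ x₁ x₂ h b hb (hP b hb)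
  obtain ⟨ha1, ha2, ha3⟩ := pmov_lc P φ x₁ x₂ h a ha (hP a ha)
  have hlb : (b.eval₂ φ x₁).leadingCoeff ≠ 0 := HahnSeries.leadingCoeff_ne_zero.mpr hb1
  have hla : (a.eval₂ φ x₁).leadingCoeff ≠ 0 := HahnSeries.leadingCoeff_ne_zero.mpr ha1
  have hu : IsUnit (pmov φ x₁ x₂ b) := isUnit_of_lc _ _ hlb hb2
  obtain ⟨ub, hub⟩ := hu
  have hch : pmov φ x₁ x₂ a * (↑(ub⁻¹) : HahnSeries ℚ (Polynomial Ω)) * pmov φ x₁ x₂ b =
      pmov φ x₁ x₂ a := by
    rw [← hub, mul_assoc, Units.inv_mul, mul_one]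
  generalize pmov φ x₁ x₂ a * (↑(ub⁻¹) : HahnSeries ℚ (Polynomial Ω)) = ch at hch
  have hpb0 : pmov φ x₁ x₂ b ≠ 0 := by
    intro h0
    rw [h0, HahnSeries.leadingCoeff_zero, eq_comm, Polynomial.C_eq_zero] at hb2
    exact hlb hb2
  have hpa0 : pmov φ x₁ x₂ a ≠ 0 := by
    intro h0
    rw [h0, HahnSeries.leadingCoeff_zero, eq_comm, Polynomial.C_eq_zero] at ha2
    exact hla ha2
  have hch0 : ch ≠ 0 := by
    rintro rfl
    rw [zero_mul] at hch
    exact hpa0 hch.symm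
  -- values
  have hval : ∀ (K : Type u) [Field K] (ψ : M →+* K) (p : Polynomial E),
      ψ (aeval x p) = p.eval₂ (ψ.comp (algebraMap E M)) (ψ x) := by
    intro K _ ψ p
    rw [aeval_def]
    exact Polynomial.hom_eval₂ _ _ _ _
  have hmul : ∀ (K : Type u) [Field K] (ψ : M →+* K),
      ψ c * b.eval₂ (ψ.comp (algebraMap E M)) (ψ x) =
        a.eval₂ (ψ.comp (algebraMap E M)) (ψ x) := by
    intro K _ ψ
    rw [← hval, ← hval, ← map_mul, hc]
  refine ⟨ch, hch, ⟨ub, hub⟩, ?_, ?_, ?_, ?_⟩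
  · intro ψ h1 h2
    have h3 := hmul _ ψ
    rw [h1, h2] at h3
    have h4 := congrArg (evl 0) hch
    rw [map_mul, evl_zero_pmov, evl_zero_pmov] at h4
    refine ⟨mul_right_cancel₀ hb1 (h4.trans h3.symm), ?_, ?_⟩
    · have h5 := congrArg HahnSeries.leadingCoeff hch
      rw [HahnSeries.leadingCoeff_mul, hb2, ha2] at h5
      have h6 := congrArg HahnSeries.leadingCoeff h3
      rw [HahnSeries.leadingCoeff_mul] at h6
      rw [← h6, map_mul] at h5
      exact mul_right_cancel₀ (Polynomial.C_ne_zero.mpr hlb) h5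
    · have hψc : ψ c ≠ 0 := by
        intro h0
        rw [h0, zero_mul] at h3
        exact ha1 h3.symm
      have h5 := congrArg HahnSeries.order hch
      rw [HahnSeries.order_mul hch0 hpb0, hb3, ha3] at h5
      have h6 := congrArg HahnSeries.order h3
      rw [HahnSeries.order_mul hψc hb1] at h6
      linarith
  · intro ψ h1 h2
    have h3 := hmul _ ψ
    rw [h1, h2] at h3
    have h4 := congrArg (evl 1) hch
    rw [map_mul, evl_one_pmov, evl_one_pmov] at h4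
    have h5 : b.eval₂ φ x₂ ≠ 0 := by
      rw [← evl_one_pmov φ x₁ x₂ b, ← hub]
      exact (ub.isUnit.map (evl 1)).ne_zero
    exact mul_right_cancel₀ h5 (h4.trans h3.symm)
  · intro Ω' _ _ w Wm h1 h2
    have h3 := hmul _ Wm
    rw [h1, h2, ← evw_pmov, ← evw_pmov] at h3
    have h4 := congrArg (evw w) hch
    rw [map_mul] at h4
    have h5 : evw w (pmov φ x₁ x₂ b) ≠ 0 := by
      rw [← hub]
      exact (ub.isUnit.map (evw w)).ne_zero
    exact mul_right_cancel₀ h5 (h4.trans h3.symm)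
  · have h1 := congrArg dpp hch
    rw [dpp_mul, dpp_pmov, dpp_pmov] at h1
    linear_combination h1

end

end KTS

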