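import Pool.Agent.KTS.J3

/-!
[KTS-J4] The embedding `W` of `N` over the moving point.
-/

namespace KTS

noncomputable section

universe u

open Polynomial

variable {Ω : Type u} [Field Ω] [CharZero Ω] [IsAlgClosed Ω]
  {E M N : Type u} [Field E] [CharZero E] [Field M] [CharZero M] [Field N]
  [Algebra E M] [Algebra M N] [Algebra E N] [IsScalarTower E M N] [FiniteDimensional M N]

private theorem j4_hmap_rv {Ω Ω' : Type*} [Field Ω] [Field Ω'] (f : Ω →+* Ω')
    (y : HahnSeries ℚ Ω) :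
    (hmap f y).leadingCoeff = f y.leadingCoeff ∧ (hmap f y).order = y.order := by
  by_cases hy : y = 0
  · rw [hy, map_zero, HahnSeries.leadingCoeff_zero, HahnSeries.order_zero]
    simp
  · have h1 : y.coeff y.order ≠ 0 := fun h => hy (HahnSeries.coeff_order_eq_zero.1 h)
    have h2 : (hmap f y).coeff y.order ≠ 0 := by
      rw [hmap_coeff]
      exact (map_ne_zero f).2 h1
    have h3 : hmap f y ≠ 0 := by
      intro h
      rw [h] at h2
      exact h2 rfl
    have h4 : (hmap f y).order = y.order := by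
      refine le_antisymm (HahnSeries.order_le_of_coeff_ne_zero h2) ?_
      refine HahnSeries.order_le_of_coeff_ne_zero fun h => ?_
      have h5 : (hmap f y).coeff (hmap f y).order ≠ 0 := fun h =>
        h3 (HahnSeries.coeff_order_eq_zero.1 h)
      rw [hmap_coeff, h, map_zero] at h5
      exact h5 rfl
    exact ⟨by rw [HahnSeries.leadingCoeff_eq, h4, hmap_coeff, HahnSeries.leadingCoeff_eq], h4⟩

private theorem j4_evw_mov {Ω Ω' : Type u} [Field Ω] [Field Ω'] [Algebra Ω Ω'] (w : Ω')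
    (x₁ x₂ : HahnSeries ℚ Ω) : evw w (mov x₁ x₂) =
      hmap (algebraMap Ω Ω') x₁ + hmap (algebraMap Ω Ω') (x₂ - x₁) * HahnSeries.C w := by
  unfold mov
  rw [map_add, map_mul, evw_cst, evw_cst]
  congr 2
  ext g
  show (aeval w : Polynomial Ω →ₐ[Ω] Ω') ((HahnSeries.C (X : Polynomial Ω)).coeff g) = _
  by_cases hg : g = 0
  · subst hg
    simp [HahnSeries.C_apply]
  · simp [HahnSeries.C_apply, HahnSeries.coeff_single_of_ne hg]

/-- The value of the moving point is not a root of a polynomial over the image of `φ`. -/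
private theorem j4_tr {Ω Ω' E : Type u} [Field Ω] [CharZero Ω] [IsAlgClosed Ω] [Field E]
    [Field Ω'] [Algebra Ω Ω'] (φ : E →+* HahnSeries ℚ Ω) (x₁ x₂ : HahnSeries ℚ Ω) (hx : x₁ ≠ x₂)
    (w : Ω') (hw : Transcendental Ω w) (p : Polynomial E) (hp : p ≠ 0) :
    p.eval₂ ((hmap (algebraMap Ω Ω')).comp φ) (evw w (mov x₁ x₂)) ≠ 0 := by
  intro h0
  set i : HahnSeries ℚ Ω →+* HahnSeries ℚ Ω' := hmap (algebraMap Ω Ω') with hi
  have h1 : ((p.map φ).map i).eval (evw w (mov x₁ x₂)) = 0 := by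
    rw [Polynomial.map_map, Polynomial.eval_map]
    exact h0
  have hpφ : p.map φ ≠ 0 := (Polynomial.map_ne_zero_iff φ.injective).2 hp
  have hs : (p.map φ).Splits := IsAlgClosed.splits _
  rw [hs.eq_prod_roots, Polynomial.map_mul, Polynomial.map_C, Polynomial.map_multiset_prod,
    Polynomial.eval_mul, Polynomial.eval_C, Multiset.map_map, Polynomial.eval_multiset_prod,
    Multiset.map_map] at h1
  rcases mul_eq_zero.1 h1 with h2 | h2
  · have := (map_ne_zero i).2 (Polynomial.leadingCoeff_ne_zero.2 hpφ)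
    exact this h2
  · rw [Multiset.prod_eq_zero_iff, Multiset.mem_map] at h2
    obtain ⟨r, -, hr⟩ := h2
    simp only [Function.comp_apply, Polynomial.map_sub, Polynomial.map_X, Polynomial.map_C,
      Polynomial.eval_sub, Polynomial.eval_X, Polynomial.eval_C] at hr
    rw [j4_evw_mov, ← hi] at hr
    have hd : x₂ - x₁ ≠ 0 := sub_ne_zero.2 (Ne.symm hx)
    have hid : i (x₂ - x₁) ≠ 0 := (map_ne_zero i).2 hd
    have h3 : HahnSeries.C w = i ((r - x₁) / (x₂ - x₁)) := by
      rw [map_div₀, eq_div_iff hid, map_sub i r x₁]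
      linear_combination hr
    have h4 := congrArg (fun y : HahnSeries ℚ Ω' => y.coeff 0) h3
    simp only [hi, hmap_coeff, HahnSeries.C_apply, HahnSeries.coeff_single_same] at h4
    apply hw
    rw [h4]
    exact isAlgebraic_algebraMap _

/-- The moving point is transcendental over the image of `φ`: there is an embedding `Wm` of `M = E(x)`.
Proof. `X' := evw w (mov x₁ x₂) = i x₁ + i (x₂ - x₁) * C w`, `i = hmap (algebraMap Ω Ω')`. If `X'` were algebraic over
the field `i(φ(E))`, then `C w = (X' - i x₁) / i (x₂ - x₁)` would be algebraic over `i(U)`,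
`U = HahnSeries ℚ Ω`; `U` is algebraically closed (`hahn_isAlgClosed`), so `C w = i y`, and the coefficient at `0`
gives `w = algebraMap (y.coeff 0)`, contradicting transcendence. So `X'` is transcendental and
`E(x) ≅ RatFunc E → HahnSeries ℚ Ω'` exists (e.g. `IntermediateField.adjoin` of a transcendental element,
`IsFractionRing.lift` for `E[X] → M`; `M` is the fraction field of `E[X]` via `aeval x` because of `gen`, `tr`). -/
theorem exists_Wm (x : M) (tr : Transcendental E x) (gen : IntermediateField.adjoin E {x} = ⊤)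
    (φ : E →+* HahnSeries ℚ Ω) (x₁ x₂ : HahnSeries ℚ Ω) (hx : x₁ ≠ x₂)
    (Ω' : Type u) [Field Ω'] [CharZero Ω'] [Algebra Ω Ω'] (w : Ω') (hw : Transcendental Ω w) :
    ∃ Wm : M →+* HahnSeries ℚ Ω', Wm.comp (algebraMap E M) = (hmap (algebraMap Ω Ω')).comp φ ∧
      Wm x = evw w (mov x₁ x₂) := by
  let _ : Algebra E (HahnSeries ℚ Ω') := ((hmap (algebraMap Ω Ω')).comp φ).toAlgebra
  have htr : Transcendental E (evw w (mov x₁ x₂)) := by
    rintro ⟨p, hp, hp'⟩
    exact j4_tr φ x₁ x₂ hx w hw p hp hp'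
  let e1 : M ≃ₐ[E] IntermediateField.adjoin E {x} :=
    IntermediateField.topEquiv.symm.trans (IntermediateField.equivOfEq gen.symm)
  let e2 := RatFunc.algEquivOfTranscendental x tr
  let e3 := RatFunc.algEquivOfTranscendental (evw w (mov x₁ x₂)) htr
  let W : M →ₐ[E] HahnSeries ℚ Ω' :=
    (IntermediateField.val _).comp (e1.trans (e2.symm.trans e3)).toAlgHom
  refine ⟨(W : M →+* HahnSeries ℚ Ω'), ?_, ?_⟩
  · ext1 a
    exact W.commutes a
  · have h1 : e1 x = IntermediateField.AdjoinSimple.gen E x := rfl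
    show ((e3 (e2.symm (e1 x)) : _) : HahnSeries ℚ Ω') = _
    rw [h1, RatFunc.algEquivOfTranscendental_symm_gen, RatFunc.algEquivOfTranscendental_X]

/-- The embedding `W`. Proof. `Wm` from `exists_Wm`. `φ₁ := i ∘ ψ₁ ∘ (M → N)`. For a coefficient `c ≠ 0` of the norm
form of `S`: `QuoP P x c`, so by `quoP_lift` and `rv_evw`: `rv (Wm c) = rv (evw w ch) = rv (i (ψ₁ c)) = rv (φ₁ c)`. `ext_match` over
`Ω'` (first embedding `φ₁`, extended by `i ∘ ψ₁`; second `Wm`). -/
theorem exists_W {x : M} {q : Polynomial M} {T : Finset N} {d : Derivation E N N} {S : Finset N}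
    {P : Finset (Polynomial E)} (h : BrHyp x q T d S P) (ψ : N →+* HahnSeries ℚ Ω)
    (x₂ : HahnSeries ℚ Ω)
    (hd : DiscHyp P (ψ.comp (algebraMap E N)) (ψ (algebraMap M N x)) x₂)
    (Ω' : Type u) [Field Ω'] [CharZero Ω'] [IsAlgClosed Ω'] [Algebra Ω Ω'] (w : Ω')
    (hw : Transcendental Ω w) :
    ∃ W : N →+* HahnSeries ℚ Ω',
      W.comp (algebraMap E N) = (hmap (algebraMap Ω Ω')).comp (ψ.comp (algebraMap E N)) ∧
      W (algebraMap M N x) = evw w (mov (ψ (algebraMap M N x)) x₂) ∧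
      ∀ s ∈ S, rv (W s) = rv (hmap (algebraMap Ω Ω') (ψ s)) := by
  obtain ⟨Wm, hWm, hWx⟩ := exists_Wm x h.tr h.gen (ψ.comp (algebraMap E N))
    (ψ (algebraMap M N x)) x₂ hd.1 Ω' w hw
  have hEMN : (ψ.comp (algebraMap M N)).comp (algebraMap E M) = ψ.comp (algebraMap E N) := by
    rw [RingHom.comp_assoc, ← IsScalarTower.algebraMap_eq]
  obtain ⟨W, hW, hWS⟩ := ext_match (F' := M) S h.ne
    (((hmap (algebraMap Ω Ω')).comp ψ).comp (algebraMap M N)) Wm (by
      intro m hm
      obtain ⟨a, ha, b, hb, hab⟩ := h.quo_S m (MvPolynomial.mem_support_iff.2 hm)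
      obtain ⟨ch, -, -, h1, -, h2, -⟩ := quoP_lift P h.P_ne (ψ.comp (algebraMap E N))
        (ψ (algebraMap M N x)) x₂ hd x _ a b ha hb hab
      obtain ⟨-, h3, h4⟩ := h1 (ψ.comp (algebraMap M N)) hEMN rfl
      have h5 := h2 Ω' w Wm hWm hWx
      have h6 := rv_evw w hw ch
      rw [h3, aeval_C, h4, h5] at h6
      have h7 := j4_hmap_rv (algebraMap Ω Ω') ((ψ.comp (algebraMap M N))
        ((nform M N S).coeff m))
      refine Prod.ext ?_ ?_
      · exact h7.1.trans h6.1.symm
      · exact h7.2.trans h6.2.symm)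
    ((hmap (algebraMap Ω Ω')).comp ψ) rfl
  refine ⟨W, ?_, ?_, hWS⟩
  · rw [← hWm, ← hW, RingHom.comp_assoc, ← IsScalarTower.algebraMap_eq]
  · rw [← hWx, ← hW]
    rfl

end

end KTS

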