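import Pool.Agent.KTS.J1

/-!
[KTS-J5] POLY: integrality of the branches.
-/

namespace KTS

noncomputable section

universe u

open Polynomial

/-- Order and leading coefficient from the first non-zero coefficient. -/
theorem j5_lc {R : Type*} [Semiring R] (z : HahnSeries ℚ R) (g : ℚ) (h0 : z.coeff g ≠ 0)
    (hlt : ∀ g' < g, z.coeff g' = 0) : z.order = g ∧ z.leadingCoeff = z.coeff g := by
  have hz : z ≠ 0 := by
    rintro rfl
    exact h0 rfl
  have h1 : z.order ≤ g := HahnSeries.order_le_of_coeff_ne_zero h0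
  have h2 : z.order = g := by
    rcases h1.lt_or_eq with h | h
    · exact absurd (hlt _ h) (HahnSeries.coeff_order_eq_zero.not.mpr hz)
    · exact h
  exact ⟨h2, by rw [HahnSeries.leadingCoeff_eq, h2]⟩

theorem j5_lc_prod {R : Type*} [CommRing R] [IsDomain R] {ι : Type*} (s : Finset ι)
    (z : ι → HahnSeries ℚ R) : (∏ i ∈ s, z i).leadingCoeff = ∏ i ∈ s, (z i).leadingCoeff := by
  classical
  induction s using Finset.induction_on with
  | empty => simp
  | insert a s ha ih => rw [Finset.prod_insert ha, Finset.prod_insert ha,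
      HahnSeries.leadingCoeff_mul, ih]

/-- (6) A series all of whose coefficients are polynomials in `w` is in the image of `evw w`. -/
theorem j5_lift {Ω Ω' : Type u} [Field Ω] [Field Ω'] [Algebra Ω Ω'] (w : Ω')
    (hw : Transcendental Ω w) (z : HahnSeries ℚ Ω')
    (hz : ∀ g, ∃ p : Polynomial Ω, aeval w p = z.coeff g) :
    ∃ y : HahnSeries ℚ (Polynomial Ω), evw w y = z := by
  choose p hp using hz
  have hinj := transcendental_iff_injective.mp hw
  refine ⟨⟨p, z.isPWO_support.mono ?_⟩, ?_⟩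
  · intro g hg
    rw [HahnSeries.mem_support]
    intro h0
    apply hg
    apply hinj
    rw [hp, h0, map_zero]
  · ext g
    exact hp g

/-- Let `Y i ∈ HahnSeries ℚ Ω'` (`i` in a finite type) be such that `∏ (Z - Y i)` has coefficients in
`PP = HahnSeries ℚ (Ω[w])` and all non-zero differences `Y i - Y j` have leading coefficient in `Ω`. Then all `Y i` lie
in `PP`.

Proof. Call an exponent `g` bad for `i` if `(Y i).coeff g` is not in `Ω[w] := range (aeval w)`. Suppose there is a bad
pair; let `g` be the smallest exponent that is bad for some `i` (the supports are well-founded and there are finitely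
many `i`), `y i = (Y i).coeff g`. Fix `i₀` bad at `g`, let `C` = set of the `i` with `(Y i).coeff g' = (Y i₀).coeff g'` for all
`g' < g`, and `Mc ∈ PP` the truncation of `Y i₀` below `g` (all its coefficients are in `Ω[w]` by minimality of `g`).
(1) For `i ∈ C`: `Y i - Y i₀` is `0` or has order `≥ g`; if the order is `g`, `y i - y i₀` is its leading coefficient, in
`Ω`; if `> g` then `y i = y i₀`. So `y i - y i₀ ∈ Ω` for `i ∈ C`.
(2) For `i ∉ C`: `evw w Mc - Y i` has order `< g` and leading coefficient in `Ω^*` (it is `≡ Y i₀ - Y i` modulo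
exponents `≥ g`).
(3) In `HahnSeries ℚ (Polynomial Ω')` (a second variable `Z`; `Polynomial Ω'` is a domain) consider
`B := ∏_i (hmap C (evw w Mc - Y i) + single g Z)`. Its leading coefficient is the product of the leading coefficients:
for `i ∈ C` it is `Z - y i` (order `g`: `evw w Mc - Y i = - y i t^g + higher`), for `i ∉ C` a constant `κ_i ∈ Ω^*`. So
`lc B = (∏ κ_i) * ∏_{i ∈ C} (Z - y i)`.
(4) On the other hand `B` is the image of `G(Mc + t^g Z) ∈ HahnSeries ℚ ((Ω[w])[Z])` (`G` has coefficients in `PP`),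
so all coefficients of `lc B ∈ Ω'[Z]` lie in `range (aeval w)`.
(5) Hence `∏_{i ∈ C} (Z - y i)` has coefficients in `Ω[w]`, the coefficient of `Z^{|C|-1}` gives `∑_{i ∈ C} y i ∈ Ω[w]`, and
by (1) `|C| y i₀ ∈ Ω[w]`, so `y i₀ ∈ Ω[w]` (characteristic `0`), contradiction.
(6) All coefficients in `range (aeval w)`: choose preimages (unique, `w` transcendental) to get `y ∈ PP`. -/
theorem poly_lift {Ω Ω' : Type u} [Field Ω] [CharZero Ω] [Field Ω'] [Algebra Ω Ω'] (w : Ω')
    (hw : Transcendental Ω w) {ι : Type u} [Fintype ι] (Y : ι → HahnSeries ℚ Ω')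
    (G : Polynomial (HahnSeries ℚ (Polynomial Ω)))
    (hG : G.map (evw w) = ∏ i, (X - C (Y i)))
    (hY : ∀ i j, Y i ≠ Y j → ∃ a : Ω, (Y i - Y j).leadingCoeff = algebraMap Ω Ω' a) (i : ι) :
    ∃ y : HahnSeries ℚ (Polynomial Ω), evw w y = Y i := by
  classical
  by_contra hcon
  -- the set of bad exponents
  let A : Subalgebra Ω Ω' := (aeval w : Polynomial Ω →ₐ[Ω] Ω').range
  have hAalg : ∀ c : Ω, algebraMap Ω Ω' c ∈ A := fun c => A.algebraMap_mem c
  let B : Set ℚ := {g | ∃ j, (Y j).coeff g ∉ A}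
  have hBne : B.Nonempty := by
    by_contra hB
    rw [Set.not_nonempty_iff_eq_empty] at hB
    apply hcon
    refine j5_lift w hw _ fun g => ?_
    by_contra hg
    have : g ∈ B := ⟨i, fun hA => hg (AlgHom.mem_range _ |>.mp hA)⟩
    rw [hB] at this
    exact this
  have hBwf : B.IsWF := by
    have h1 : (⋃ j ∈ (Finset.univ : Finset ι), (Y j).support).IsWF :=
      (Finset.isWF_bUnion _).mpr fun j _ => (Y j).isWF_support
    refine h1.mono ?_
    rintro g ⟨j, hj⟩
    simp only [Set.mem_iUnion]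
    refine ⟨j, Finset.mem_univ _, ?_⟩
    rw [HahnSeries.mem_support]
    intro h0
    exact hj (by rw [h0]; exact A.zero_mem)
  obtain ⟨i₀, hi₀⟩ : ∃ j, (Y j).coeff (hBwf.min hBne) ∉ A := hBwf.min_mem hBne
  have hmin : ∀ g' < hBwf.min hBne, ∀ j, (Y j).coeff g' ∈ A := by
    intro g' hg' j
    by_contra hj
    exact hBwf.not_lt_min hBne ⟨j, hj⟩ hg'
  generalize hgdef : hBwf.min hBne = g at hi₀ hmin
  clear hgdef
  -- the truncation
  obtain ⟨Mc, hMc⟩ : ∃ Mc : HahnSeries ℚ (Polynomial Ω),
      ∀ g', (evw w Mc).coeff g' = if g' < g then (Y i₀).coeff g' else 0 := by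
    obtain ⟨y, hy⟩ := j5_lift w hw
      (⟨fun g' => if g' < g then (Y i₀).coeff g' else 0, (Y i₀).isPWO_support.mono (by
        intro g' hg'
        rw [HahnSeries.mem_support]
        intro h0
        apply hg'
        simp [h0])⟩ : HahnSeries ℚ Ω') (by
        intro g'
        by_cases hg' : g' < g
        · obtain ⟨p, hp⟩ := (AlgHom.mem_range _).mp (hmin g' hg' i₀)
          exact ⟨p, by simpa [hg'] using hp⟩
        · exact ⟨0, by simp [hg']⟩)
    exact ⟨y, fun g' => by rw [hy]⟩
  let Cc : Finset ι := Finset.univ.filter fun j => ∀ g' < g, (Y j).coeff g' = (Y i₀).coeff g'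
  have hi₀C : i₀ ∈ Cc := by simp [Cc]
  -- (3) the series `B`
  let cc : HahnSeries ℚ Ω' →+* HahnSeries ℚ (Polynomial Ω') := hmap (C : Ω' →+* Polynomial Ω')
  let F : ι → HahnSeries ℚ (Polynomial Ω') := fun j =>
    cc (evw w Mc) + HahnSeries.single g (X : Polynomial Ω') - cc (Y j)
  have hF : ∀ j g', (F j).coeff g' =
      C ((evw w Mc).coeff g' - (Y j).coeff g') + (if g' = g then X else 0) := by
    intro j g'
    simp only [F, HahnSeries.coeff_sub, HahnSeries.coeff_add, HahnSeries.coeff_single, cc,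
      hmap_coeff, map_sub]
    split_ifs <;> ring
  have hFC : ∀ j ∈ Cc, (F j).leadingCoeff = X - C ((Y j).coeff g) := by
    intro j hj
    have hj' : ∀ g' < g, (Y j).coeff g' = (Y i₀).coeff g' := (Finset.mem_filter.mp hj).2
    have hcg : (F j).coeff g = X - C ((Y j).coeff g) := by
      rw [hF, hMc]
      simp
      ring
    rw [← hcg]
    refine (j5_lc _ g ?_ ?_).2
    · rw [hcg]
      exact Polynomial.X_sub_C_ne_zero _
    · intro g' hg'
      rw [hF, hMc, if_pos hg', if_neg hg'.ne, hj' g' hg']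
      simp
  have hFN : ∀ j, j ∉ Cc → ∃ a : Ω, a ≠ 0 ∧ (F j).leadingCoeff = C (algebraMap Ω Ω' a) := by
    intro j hj
    have hne : Y i₀ ≠ Y j := by
      intro h
      apply hj
      simp [Cc, h]
    obtain ⟨a, ha⟩ := hY i₀ j hne
    have hsub : Y i₀ - Y j ≠ 0 := sub_ne_zero.mpr hne
    have ho : (Y i₀ - Y j).order < g := by
      by_contra hcon'
      apply hj
      simp only [Cc, Finset.mem_filter, Finset.mem_univ, true_and]
      intro g' hg'
      have h1 : (Y i₀ - Y j).coeff g' = 0 :=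
        HahnSeries.coeff_eq_zero_of_lt_order (lt_of_lt_of_le hg' (not_lt.mp hcon'))
      rw [HahnSeries.coeff_sub, sub_eq_zero] at h1
      exact h1.symm
    have ha0 : a ≠ 0 := by
      rintro rfl
      rw [map_zero, HahnSeries.leadingCoeff_eq_zero] at ha
      exact hsub ha
    refine ⟨a, ha0, ?_⟩
    have hlow : ∀ g' < g, (F j).coeff g' = C ((Y i₀ - Y j).coeff g') := by
      intro g' hg'
      rw [hF, hMc, if_pos hg', if_neg hg'.ne, HahnSeries.coeff_sub, add_zero]
    have hco : (F j).coeff (Y i₀ - Y j).order = C (algebraMap Ω Ω' a) := by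
      rw [hlow _ ho, ← HahnSeries.leadingCoeff_eq, ha]
    rw [← hco]
    refine (j5_lc _ _ ?_ ?_).2
    · rw [hco, Ne, Polynomial.C_eq_zero, map_eq_zero]
      exact ha0
    · intro g' hg'
      rw [hlow _ (hg'.trans ho), HahnSeries.coeff_eq_zero_of_lt_order hg', map_zero]
  choose! a ha0 ha using hFN
  -- (4) all coefficients of `∏ F j` lie in `A`
  have hA4 : ∀ e n, (((∏ j, F j).coeff e).coeff n) ∈ A := by
    let B₀ : HahnSeries ℚ (Polynomial (Polynomial Ω)) :=
      G.eval₂ (hmap (C : Polynomial Ω →+* Polynomial (Polynomial Ω)))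
        (hmap (C : Polynomial Ω →+* Polynomial (Polynomial Ω)) Mc + HahnSeries.single g X)
    let θ : Polynomial (Polynomial Ω) →+* Polynomial Ω' :=
      mapRingHom ((aeval w : Polynomial Ω →ₐ[Ω] Ω') : Polynomial Ω →+* Ω')
    have hθ : (hmap θ) B₀ = ∏ j, F j := by
      have hcomp : (hmap θ).comp (hmap (C : Polynomial Ω →+* Polynomial (Polynomial Ω))) =
          cc.comp (evw w) := by
        ext z e n
        simp [θ, cc, evw]
      have hx : (hmap θ) (hmap (C : Polynomial Ω →+* Polynomial (Polynomial Ω)) Mc +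
          HahnSeries.single g X) = cc (evw w Mc) + HahnSeries.single g X := by
        rw [map_add]
        congr 1
        · exact RingHom.congr_fun hcomp Mc
        · refine HahnSeries.ext (funext fun e => ?_)
          rw [hmap_coeff, HahnSeries.coeff_single, HahnSeries.coeff_single]
          split_ifs
          · simp [θ]
          · simp
      have h1 : (hmap θ) B₀ = (G.map (evw w)).eval₂ cc (cc (evw w Mc) + HahnSeries.single g X) := by
        rw [Polynomial.eval₂_map, ← hcomp, ← hx]
        exact Polynomial.hom_eval₂ _ _ _ _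
      rw [h1, hG, Polynomial.eval₂_finsetProd]
      refine Finset.prod_congr rfl fun j _ => ?_
      simp [F]
    intro e n
    rw [← hθ, hmap_coeff]
    simp only [θ, coe_mapRingHom, coeff_map]
    exact (AlgHom.mem_range _).mpr ⟨_, rfl⟩
  -- (5)
  have hlc : (∏ j, F j).leadingCoeff =
      (∏ j ∈ Finset.univ.filter (fun j => j ∉ Cc), C (algebraMap Ω Ω' (a j))) *
        ∏ j ∈ Cc, (X - C ((Y j).coeff g)) := by
    rw [j5_lc_prod, ← Finset.prod_filter_mul_prod_filter_not Finset.univ (fun j => j ∈ Cc), mul_comm]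
    congr 1
    · refine Finset.prod_congr rfl fun j hj => ha j (Finset.mem_filter.mp hj).2
    · have hfe : Finset.univ.filter (fun j => j ∈ Cc) = Cc := by
        ext j
        simp
      rw [hfe]
      exact Finset.prod_congr rfl fun j hj => hFC j hj
  let κ : Ω := ∏ j ∈ Finset.univ.filter (fun j => j ∉ Cc), a j
  have hκ : κ ≠ 0 := Finset.prod_ne_zero_iff.mpr fun j hj => ha0 j (Finset.mem_filter.mp hj).2
  have hlc2 : (∏ j, F j).leadingCoeff =
      C (algebraMap Ω Ω' κ) * ∏ j ∈ Cc, (X - C ((Y j).coeff g)) := by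
    rw [hlc, map_prod, map_prod]
  have hcard : 0 < Cc.card := Finset.card_pos.mpr ⟨i₀, hi₀C⟩
  have h5 : algebraMap Ω Ω' κ * -∑ j ∈ Cc, (Y j).coeff g ∈ A := by
    have h := hA4 (∏ j, F j).order (Cc.card - 1)
    rw [← HahnSeries.leadingCoeff_eq, hlc2, Polynomial.coeff_C_mul,
      Polynomial.prod_X_sub_C_coeff_card_pred _ _ hcard] at h
    exact h
  have h6 : ∑ j ∈ Cc, (Y j).coeff g ∈ A := by
    have h := A.mul_mem (hAalg (-κ⁻¹)) h5
    have e : algebraMap Ω Ω' (-κ⁻¹) * (algebraMap Ω Ω' κ * -∑ j ∈ Cc, (Y j).coeff g) =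
        ∑ j ∈ Cc, (Y j).coeff g := by
      have hk : algebraMap Ω Ω' κ⁻¹ * algebraMap Ω Ω' κ = 1 := by
        rw [← map_mul, inv_mul_cancel₀ hκ, map_one]
      rw [map_neg]
      linear_combination (∑ j ∈ Cc, (Y j).coeff g) * hk
    rwa [e] at h
  have h7 : ∀ j ∈ Cc, (Y i₀).coeff g - (Y j).coeff g ∈ A := by
    intro j hj
    have hj' : ∀ g' < g, (Y j).coeff g' = (Y i₀).coeff g' := (Finset.mem_filter.mp hj).2
    by_cases hz : (Y i₀).coeff g - (Y j).coeff g = 0
    · rw [hz]
      exact A.zero_mem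
    · have hne : Y i₀ ≠ Y j := by
        intro h
        apply hz
        rw [h, sub_self]
      obtain ⟨b, hb⟩ := hY i₀ j hne
      have hl := (j5_lc (Y i₀ - Y j) g (by rwa [HahnSeries.coeff_sub]) (by
        intro g' hg'
        rw [HahnSeries.coeff_sub, hj' g' hg', sub_self])).2
      rw [HahnSeries.coeff_sub, hb] at hl
      rw [← hl]
      exact hAalg b
  have h8 : (Cc.card : Ω') * (Y i₀).coeff g ∈ A := by
    have h := A.add_mem h6 (A.sum_mem h7)
    rw [← Finset.sum_add_distrib] at h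
    have e : ∑ j ∈ Cc, ((Y j).coeff g + ((Y i₀).coeff g - (Y j).coeff g)) =
        (Cc.card : Ω') * (Y i₀).coeff g := by
      rw [Finset.sum_congr rfl fun j _ => add_sub_cancel ((Y j).coeff g) ((Y i₀).coeff g),
        Finset.sum_const, nsmul_eq_mul]
    rwa [e] at h
  apply hi₀
  have hcne : (Cc.card : Ω) ≠ 0 := Nat.cast_ne_zero.mpr hcard.ne'
  have h := A.mul_mem (hAalg ((Cc.card : Ω)⁻¹)) h8
  have e : algebraMap Ω Ω' ((Cc.card : Ω)⁻¹) * ((Cc.card : Ω') * (Y i₀).coeff g) =
      (Y i₀).coeff g := by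
    rw [← mul_assoc, ← map_natCast (algebraMap Ω Ω'), ← map_mul, inv_mul_cancel₀ hcne, map_one,
      one_mul]
  rwa [e] at h

end

end KTS

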