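import Pool.Agent.KTS.HB1

/-!
[KTS-LBL] The label lemma `KTS.label` is in `HB1`.
-/
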