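import Pool.Agent.KTS.J4

import Pool.Agent.KTS.J5

import Pool.Agent.KTS.LBL

/-!
[KTS-J6] The branches over the moving point: lifts, derivative, evaluation at `0` and `1`.
-/

namespace KTS

noncomputable section

universe u

open Polynomial

variable {Ω : Type u} [Field Ω] [CharZero Ω] [IsAlgClosed Ω]
  {E M N : Type u} [Field E] [CharZero E] [Field M] [CharZero M] [Field N]
  [Algebra E M] [Algebra M N] [Algebra E N] [IsScalarTower E M N] [FiniteDimensional M N]
  {x : M} {q : Polynomial M} {T : Finset N} {d : Derivation E N N} {S : Finset N}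
  {P : Finset (Polynomial E)}

/-- Lift of the polynomial `q` to `PP[Z]`: coefficients `ĉ` from `quoP_lift` (and `0` for zero coefficients).
Proof: choose the lifts of the finitely many non-zero coefficients (`h.quo_q`), build the polynomial
`∑_{j ∈ q.support} monomial j (ĉ_j)`. -/
theorem exists_qhat (h : BrHyp x q T d S P) (φ : E →+* HahnSeries ℚ Ω) (x₁ x₂ : HahnSeries ℚ Ω)
    (hd : DiscHyp P φ x₁ x₂) :
    ∃ G : Polynomial (HahnSeries ℚ (Polynomial Ω)),
      (∀ ψ : M →+* HahnSeries ℚ Ω, ψ.comp (algebraMap E M) = φ → ψ x = x₁ →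
        G.map (evl 0) = q.map ψ) ∧
      (∀ ψ : M →+* HahnSeries ℚ Ω, ψ.comp (algebraMap E M) = φ → ψ x = x₂ →
        G.map (evl 1) = q.map ψ) ∧
      (∀ (Ω' : Type u) [Field Ω'] [Algebra Ω Ω'] (w : Ω') (Wm : M →+* HahnSeries ℚ Ω'),
        Wm.comp (algebraMap E M) = (hmap (algebraMap Ω Ω')).comp φ → Wm x = evw w (mov x₁ x₂) →
        G.map (evw w) = q.map Wm) ∧
      ∀ j, G.coeff j = 0 ∨ ∃ a ∈ P, ∃ b ∈ P, q.coeff j * aeval x b = aeval x a ∧
        IsUnit (pmov φ x₁ x₂ b) ∧ G.coeff j * pmov φ x₁ x₂ b = pmov φ x₁ x₂ a ∧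
        dpp (G.coeff j) * pmov φ x₁ x₂ b =
          cst Ω (x₂ - x₁) *
            (pmov φ x₁ x₂ (derivative a) - G.coeff j * pmov φ x₁ x₂ (derivative b)) := by
  classical
  have key : ∀ j, ∃ ch : HahnSeries ℚ (Polynomial Ω), (q.coeff j = 0 → ch = 0) ∧
      (∀ ψ : M →+* HahnSeries ℚ Ω, ψ.comp (algebraMap E M) = φ → ψ x = x₁ →
        evl 0 ch = ψ (q.coeff j)) ∧
      (∀ ψ : M →+* HahnSeries ℚ Ω, ψ.comp (algebraMap E M) = φ → ψ x = x₂ →
        evl 1 ch = ψ (q.coeff j)) ∧
      (∀ (Ω' : Type u) [Field Ω'] [Algebra Ω Ω'] (w : Ω') (Wm : M →+* HahnSeries ℚ Ω'),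
        Wm.comp (algebraMap E M) = (hmap (algebraMap Ω Ω')).comp φ → Wm x = evw w (mov x₁ x₂) →
        evw w ch = Wm (q.coeff j)) ∧
      (ch = 0 ∨ ∃ a ∈ P, ∃ b ∈ P, q.coeff j * aeval x b = aeval x a ∧
        IsUnit (pmov φ x₁ x₂ b) ∧ ch * pmov φ x₁ x₂ b = pmov φ x₁ x₂ a ∧
        dpp ch * pmov φ x₁ x₂ b =
          cst Ω (x₂ - x₁) *
            (pmov φ x₁ x₂ (derivative a) - ch * pmov φ x₁ x₂ (derivative b))) := by
    intro j
    by_cases hj : q.coeff j = 0
    · refine ⟨0, fun _ => rfl, ?_, ?_, ?_, Or.inl rfl⟩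
      · intro ψ _ _
        rw [hj, map_zero, map_zero]
      · intro ψ _ _
        rw [hj, map_zero, map_zero]
      · intro Ω' _ _ w Wm _ _
        rw [hj, map_zero, map_zero]
    · obtain ⟨a, ha, b, hb, hab⟩ := h.quo_q j hj
      obtain ⟨ch, h1, h2, h3, h4, h5, h6⟩ :=
        quoP_lift P h.P_ne φ x₁ x₂ hd x (q.coeff j) a b ha hb hab
      exact ⟨ch, fun h0 => absurd h0 hj, fun ψ e1 e2 => (h3 ψ e1 e2).1, h4, h5,
        Or.inr ⟨a, ha, b, hb, hab, h2, h1, h6⟩⟩
  choose c hc0 hc1 hc2 hc3 hc4 using key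
  have hG : ∀ j, (∑ i ∈ q.support, monomial i (c i)).coeff j = c j := by
    intro j
    rw [finsetSum_coeff]
    by_cases hj : j ∈ q.support
    · rw [Finset.sum_eq_single j]
      · rw [coeff_monomial, if_pos rfl]
      · intro i _ hij
        rw [coeff_monomial, if_neg hij]
      · intro h0
        exact absurd hj h0
    · rw [Finset.sum_eq_zero, hc0 j (notMem_support_iff.1 hj)]
      intro i hi
      rw [coeff_monomial, if_neg]
      rintro rfl
      exact hj hi
  refine ⟨∑ i ∈ q.support, monomial i (c i), ?_, ?_, ?_, ?_⟩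
  · intro ψ e1 e2
    ext1 j
    rw [coeff_map, coeff_map, hG]
    exact hc1 j ψ e1 e2
  · intro ψ e1 e2
    ext1 j
    rw [coeff_map, coeff_map, hG]
    exact hc2 j ψ e1 e2
  · intro Ω' _ _ w Wm e1 e2
    ext1 j
    rw [coeff_map, coeff_map, hG]
    exact hc3 j Ω' w Wm e1 e2
  · intro j
    rw [hG]
    exact hc4 j

private theorem j6b_hmap_rv {R S : Type*} [Field R] [Field S] (f : R →+* S) (z : HahnSeries ℚ R) :
    (hmap f z).leadingCoeff = f z.leadingCoeff ∧ (hmap f z).order = z.order := by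
  by_cases hz : z = 0
  · subst hz
    simp
  have hz' : hmap f z ≠ 0 := by
    intro h
    apply hz
    ext g
    have := congrArg (fun y => HahnSeries.coeff y g) h
    simp only [hmap_coeff, HahnSeries.coeff_zero, map_eq_zero] at this
    simpa using this
  have hot : (hmap f z).orderTop = z.orderTop := by
    apply le_antisymm
    · rw [HahnSeries.le_orderTop_iff_forall]
      intro j hj
      have := HahnSeries.coeff_eq_zero_of_lt_orderTop hj
      rw [hmap_coeff, map_eq_zero] at this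
      exact this
    · rw [HahnSeries.le_orderTop_iff_forall]
      intro j hj
      rw [hmap_coeff, HahnSeries.coeff_eq_zero_of_lt_orderTop hj, map_zero]
  have ho : (hmap f z).order = z.order := by
    have h1 := HahnSeries.order_eq_orderTop_of_ne_zero hz'
    have h2 := HahnSeries.order_eq_orderTop_of_ne_zero hz
    rw [hot, ← h2] at h1
    exact_mod_cast h1
  refine ⟨?_, ho⟩
  rw [HahnSeries.leadingCoeff_eq, HahnSeries.leadingCoeff_eq, ho, hmap_coeff]

private theorem j6b_sum {A : Type*} [CommRing A] (D : A → A) (hadd : ∀ a b, D (a + b) = D a + D b)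
    (hmul : ∀ a b, D (a * b) = D a * b + a * D b) (s : Finset ℕ) (c : ℕ → A) (y : A) :
    D (∑ j ∈ s, c j * y ^ j) = ∑ j ∈ s, D (c j) * y ^ j +
      (∑ j ∈ s, c j * ((j : A) * y ^ (j - 1))) * D y := by
  have h0 : D 0 = 0 := by
    have := hadd 0 0
    rw [add_zero] at this
    simpa using this
  have h1 : D 1 = 0 := by
    have := hmul 1 1
    rw [one_mul, mul_one, one_mul] at this
    simpa using this
  have hpow : ∀ n : ℕ, D (y ^ n) = (n : A) * y ^ (n - 1) * D y := by
    intro n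
    induction n with
    | zero => simp [h1]
    | succ n ih =>
      rw [pow_succ, hmul, ih, Nat.add_sub_cancel]
      rcases Nat.eq_zero_or_pos n with rfl | hn
      · simp
      · have : y ^ n = y ^ (n - 1) * y := by
          rw [← pow_succ, Nat.sub_add_cancel hn]
        push_cast
        rw [this]
        ring
  classical
  induction s using Finset.induction_on with
  | empty => simp [h0]
  | insert a s ha ih =>
    rw [Finset.sum_insert ha, Finset.sum_insert ha, Finset.sum_insert ha, hadd, ih, hmul, hpow]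
    ring

private theorem j6b_eval {A : Type*} [CommRing A] (D : A → A) (hadd : ∀ a b, D (a + b) = D a + D b)
    (hmul : ∀ a b, D (a * b) = D a * b + a * D b) (G : Polynomial A) (y : A) (s : Finset ℕ)
    (hs : G.support ⊆ s) :
    D (G.eval y) = ∑ j ∈ s, D (G.coeff j) * y ^ j + (derivative G).eval y * D y := by
  have h1 : G.eval y = ∑ j ∈ s, G.coeff j * y ^ j := by
    rw [eval_eq_sum, Polynomial.sum]
    apply Finset.sum_subset hs
    intro j _ hj
    rw [notMem_support_iff.1 hj, zero_mul]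
  have h2 : (derivative G).eval y = ∑ j ∈ s, G.coeff j * ((j : A) * y ^ (j - 1)) := by
    rw [derivative_eval, Polynomial.sum]
    rw [Finset.sum_subset hs]
    · apply Finset.sum_congr rfl
      intro j _
      ring
    · intro j _ hj
      rw [notMem_support_iff.1 hj]
      ring
  rw [h1, h2]
  exact j6b_sum D hadd hmul s _ y

/-- The branches over the moving point lie in `PP`, with the right derivative.

Proof. `W` from `exists_W` (`Ω' = AlgebraicClosure (RatFunc Ω)`, `w` = image of `RatFunc.X`; or any pair given),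
`Wm := W.comp (algebraMap M N)`, `G` from `exists_qhat`. `G.map (evw w) = q.map Wm = ∏_{ρ ∈ T} (X - C (W ρ))`. For
`ρ ≠ ρ'` in `T`, `ρ - ρ' ∈ S`, so `W ρ - W ρ'` has the leading coefficient of `i (ψ (ρ - ρ'))`, in `Ω`. `poly_lift`
(with `ι = T`) gives `y ρ ∈ PP`, `evw w (y ρ) = W ρ`.
Derivative. In `PP`: `∑_j G_j y^j = 0` (injectivity of `evw w`), so by Leibniz
`∑_j (dpp G_j) y^j + (∑_j j G_j y^{j-1}) dpp y = 0` (*). In `N`: `∑_j d(q_j) ρ^j + (∑_j j q_j ρ^{j-1}) d ρ = 0`
(**) (here `d(q_j)` is `d (algebraMap M N (q.coeff j))`). For each `j` one has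
`evw w (dpp G_j) = i(x₂ - x₁) * W(d q_j)`: from `q_j b(x) = a(x)` and `d x = 1`, `d` being `E`-linear,
`d(q_j) b(x) = a'(x) - q_j b'(x)`; apply `W` and compare with the last clause of `exists_qhat` mapped by `evw w`
(`evw_pmov`, and `W(b(x)) = evw w (pmov b) ≠ 0`). Apply `i(x₂-x₁) * W` to (**) and `evw w` to (*) and subtract:
`W(q'(ρ)) * (evw w (dpp y) - i(x₂-x₁) W(d ρ)) = 0`, and `q'(ρ) ≠ 0` because `q = ∏ (X - ρ)` has simple roots. -/
theorem branch_lift (h : BrHyp x q T d S P) (ψ : N →+* HahnSeries ℚ Ω) (x₂ : HahnSeries ℚ Ω)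
    (hd : DiscHyp P (ψ.comp (algebraMap E N)) (ψ (algebraMap M N x)) x₂)
    (G : Polynomial (HahnSeries ℚ (Polynomial Ω)))
    (hG : ∀ (Ω' : Type u) [Field Ω'] [Algebra Ω Ω'] (w : Ω') (Wm : M →+* HahnSeries ℚ Ω'),
        Wm.comp (algebraMap E M) = (hmap (algebraMap Ω Ω')).comp (ψ.comp (algebraMap E N)) →
        Wm x = evw w (mov (ψ (algebraMap M N x)) x₂) → G.map (evw w) = q.map Wm)
    (hG' : ∀ j, G.coeff j = 0 ∨ ∃ a ∈ P, ∃ b ∈ P, q.coeff j * aeval x b = aeval x a ∧
        IsUnit (pmov (ψ.comp (algebraMap E N)) (ψ (algebraMap M N x)) x₂ b) ∧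
        G.coeff j * pmov (ψ.comp (algebraMap E N)) (ψ (algebraMap M N x)) x₂ b =
          pmov (ψ.comp (algebraMap E N)) (ψ (algebraMap M N x)) x₂ a ∧
        dpp (G.coeff j) * pmov (ψ.comp (algebraMap E N)) (ψ (algebraMap M N x)) x₂ b =
          cst Ω (x₂ - ψ (algebraMap M N x)) *
            (pmov (ψ.comp (algebraMap E N)) (ψ (algebraMap M N x)) x₂ (derivative a) -
              G.coeff j * pmov (ψ.comp (algebraMap E N)) (ψ (algebraMap M N x)) x₂ (derivative b))) :
    ∃ y : T → HahnSeries ℚ (Polynomial Ω),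
      G = ∏ ρ : T, (X - C (y ρ)) ∧
      (∀ ρ ρ' : T, ρ ≠ ρ' →
        (y ρ - y ρ').leadingCoeff = C (ψ ((ρ : N) - ρ')).leadingCoeff ∧
        (y ρ - y ρ').order = (ψ ((ρ : N) - ρ')).order) ∧
      ∀ ρ : T, (d (ρ : N) = 0 → dpp (y ρ) = 0) ∧
        (d (ρ : N) ≠ 0 →
          (dpp (y ρ)).leadingCoeff =
            C ((ψ (d (ρ : N))).leadingCoeff * (x₂ - ψ (algebraMap M N x)).leadingCoeff) ∧
          (dpp (y ρ)).order = (ψ (d (ρ : N))).order + (x₂ - ψ (algebraMap M N x)).order) := by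
  classical
  -- the transcendental element
  let Ω' : Type u := AlgebraicClosure (RatFunc Ω)
  let w : Ω' := algebraMap (RatFunc Ω) Ω' RatFunc.X
  have hcz : CharZero Ω' := inferInstance
  have hac : IsAlgClosed Ω' := inferInstance
  have hw : Transcendental Ω w := by
    have h1 : Transcendental Ω (RatFunc.X : RatFunc Ω) := RatFunc.transcendental_X
    exact (transcendental_algebraMap_iff (algebraMap (RatFunc Ω) Ω').injective).2 h1
  obtain ⟨W, hW1, hW2, hW3⟩ := exists_W h ψ x₂ hd Ω' w hw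
  have hinj := evw_inj w hw
  have haew : ∀ (p : Polynomial Ω) (c : Ω), aeval w p = algebraMap Ω Ω' c → p = C c := by
    intro p c hpc
    apply transcendental_iff_injective.1 hw
    rw [hpc, aeval_C]
  set x₁ := ψ (algebraMap M N x) with hx₁
  set φ := ψ.comp (algebraMap E N) with hφ
  set i := hmap (algebraMap Ω Ω') with hi
  set XN : N := algebraMap M N x with hXN
  have hrv : ∀ s ∈ S, (W s).leadingCoeff = algebraMap Ω Ω' (ψ s).leadingCoeff ∧
      (W s).order = (ψ s).order := by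
    intro s hs
    have h1 := hW3 s hs
    unfold rv at h1
    rw [Prod.mk.injEq, (j6b_hmap_rv _ _).1, (j6b_hmap_rv _ _).2] at h1
    exact h1
  -- the polynomial over the moving point
  have hWm1 : (W.comp (algebraMap M N)).comp (algebraMap E M) = i.comp φ := by
    rw [RingHom.comp_assoc, ← IsScalarTower.algebraMap_eq, hW1]
  have hGm : G.map (evw w) = q.map (W.comp (algebraMap M N)) := hG Ω' w _ hWm1 hW2
  have hGm2 : G.map (evw w) = ∏ ρ : T, (X - C (W ρ)) := by
    rw [hGm, ← Polynomial.map_map, h.prod, Polynomial.map_prod,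
      ← Finset.prod_coe_sort T (fun ρ => Polynomial.map W (X - C ρ))]
    apply Finset.prod_congr rfl
    intro ρ _
    rw [Polynomial.map_sub, map_X, map_C]
  have hlift : ∀ ρ : T, ∃ y : HahnSeries ℚ (Polynomial Ω), evw w y = W ρ := by
    intro ρ
    refine poly_lift w hw (fun ρ : T => W (ρ : N)) G hGm2 ?_ ρ
    intro ρ₁ ρ₂ hne
    have hne' : (ρ₁ : N) ≠ ρ₂ := fun hh => hne (by rw [hh])
    refine ⟨(ψ ((ρ₁ : N) - ρ₂)).leadingCoeff, ?_⟩
    rw [← map_sub]
    exact (hrv _ (h.diff _ ρ₁.2 _ ρ₂.2 hne')).1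
  choose y hy using hlift
  have hGprod : G = ∏ ρ : T, (X - C (y ρ)) := by
    apply Polynomial.map_injective _ hinj
    rw [hGm2, Polynomial.map_prod]
    apply Finset.prod_congr rfl
    intro ρ _
    rw [Polynomial.map_sub, map_X, map_C, hy]
  refine ⟨y, hGprod, ?_, ?_⟩
  · intro ρ ρ' hne
    have hne' : (ρ : N) ≠ ρ' := fun hh => hne (Subtype.ext hh)
    have h1 := hrv _ (h.diff _ ρ.2 _ ρ'.2 hne')
    have h2 := rv_evw w hw (y ρ - y ρ')
    rw [map_sub, hy, hy, ← map_sub] at h2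
    refine ⟨haew _ _ ?_, ?_⟩
    · rw [← h2.1, h1.1]
    · rw [← h2.2, h1.2]
  -- the derivative
  have hevp : ∀ p : Polynomial E, evw w (pmov φ x₁ x₂ p) = W (aeval XN p) := by
    intro p
    rw [evw_pmov, ← hi, ← hW1, ← hW2, aeval_def, hom_eval₂]
  have hdG : ∀ j, evw w (dpp (G.coeff j)) = i (x₂ - x₁) * W (d (algebraMap M N (q.coeff j))) := by
    intro j
    have hc : evw w (G.coeff j) = W (algebraMap M N (q.coeff j)) := by
      have := congrArg (fun p => coeff p j) hGm
      simpa only [coeff_map, RingHom.comp_apply] using this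
    rcases hG' j with h0 | ⟨a, ha, b, hb, hab, hunit, h1, h2⟩
    · rw [h0, map_zero] at hc
      have h3 : algebraMap M N (q.coeff j) = 0 := by
        have := hc.symm
        rwa [map_eq_zero] at this
      have h4 : dpp (0 : HahnSeries ℚ (Polynomial Ω)) = 0 := by
        ext g
        simp
      rw [h3, h0, h4, map_zero, map_zero, map_zero, mul_zero]
    · have h3 : d (algebraMap M N (q.coeff j)) * aeval XN b +
          algebraMap M N (q.coeff j) * aeval XN (derivative b) = aeval XN (derivative a) := by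
        have e1 : algebraMap M N (q.coeff j) * aeval XN b = aeval XN a := by
          have := congrArg (algebraMap M N) hab
          rw [map_mul] at this
          rw [hXN, aeval_algebraMap_apply, aeval_algebraMap_apply]
          exact this
        have e2 := congrArg d e1
        rw [Derivation.leibniz, Derivation.map_aeval, Derivation.map_aeval, h.dx] at e2
        simp only [smul_eq_mul, mul_one] at e2
        rw [← e2]
        ring
      have h4 := congrArg (evw w) h2
      rw [(evw w).map_mul, (evw w).map_mul, (evw w).map_sub (pmov φ x₁ x₂ (derivative a)),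
        (evw w).map_mul, hevp, hevp, hevp, hc, evw_cst, ← hi] at h4
      have h5 := congrArg W h3
      rw [map_add, map_mul, map_mul] at h5
      have hne : W (aeval XN b) ≠ 0 := by
        rw [← hevp]
        exact (hunit.map (evw w)).ne_zero
      apply mul_right_cancel₀ hne
      rw [h4, ← h5]
      ring
  intro ρ
  have hroot : G.eval (y ρ) = 0 := by
    rw [hGprod, eval_prod]
    apply Finset.prod_eq_zero (Finset.mem_univ ρ)
    rw [eval_sub, eval_X, eval_C, sub_self]
  have hdpp0 : dpp (0 : HahnSeries ℚ (Polynomial Ω)) = 0 := by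
    ext g
    simp
  set s : Finset ℕ := G.support ∪ q.support with hs
  have hA := j6b_eval dpp dpp_add dpp_mul G (y ρ) s Finset.subset_union_left
  rw [hroot, hdpp0] at hA
  -- the same in N
  set qN : Polynomial N := q.map (algebraMap M N) with hqN
  have hqroot : qN.eval (ρ : N) = 0 := by
    rw [hqN, h.prod, eval_prod]
    apply Finset.prod_eq_zero ρ.2
    rw [eval_sub, eval_X, eval_C, sub_self]
  have hqs : qN.support ⊆ s := (support_map_subset _ _).trans Finset.subset_union_right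
  have hB := j6b_eval (fun z => d z) (fun a b => map_add d a b)
    (fun a b => by
      rw [Derivation.leibniz, smul_eq_mul, smul_eq_mul]
      ring) qN (ρ : N) s hqs
  simp only [hqroot, map_zero] at hB
  have hqder : (derivative qN).eval (ρ : N) ≠ 0 := by
    rw [hqN, h.prod, ← Finset.mul_prod_erase T _ ρ.2, derivative_mul, eval_add, eval_mul, eval_mul,
      eval_sub, eval_X, eval_C, sub_self, zero_mul, add_zero, derivative_sub, derivative_X,
      derivative_C, sub_zero, eval_one, one_mul, eval_prod]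
    rw [Finset.prod_ne_zero_iff]
    intro a ha
    rw [eval_sub, eval_X, eval_C]
    exact sub_ne_zero.2 (Finset.ne_of_mem_erase ha).symm
  -- compare
  have hA2 := congrArg (evw w) hA
  rw [map_zero, map_add, map_sum, map_mul] at hA2
  have hB2 := congrArg (fun z => i (x₂ - x₁) * W z) hB
  simp only [map_zero, mul_zero, map_add, map_sum, map_mul, mul_add, Finset.mul_sum] at hB2
  have hder : evw w ((derivative G).eval (y ρ)) = W ((derivative qN).eval (ρ : N)) := by
    have e1 : ((derivative G).map (evw w)).eval (evw w (y ρ)) = evw w ((derivative G).eval (y ρ)) := by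
      rw [eval_map, eval₂_hom]
    have e2 : ((derivative qN).map W).eval (W (ρ : N)) = W ((derivative qN).eval (ρ : N)) := by
      rw [eval_map, eval₂_hom]
    rw [← e1, ← e2, hy, ← derivative_map, ← derivative_map, hGm, hqN, Polynomial.map_map]
  have hsum : ∑ j ∈ s, evw w (dpp (G.coeff j) * y ρ ^ j) =
      ∑ j ∈ s, i (x₂ - x₁) * (W (d (qN.coeff j)) * W ((ρ : N) ^ j)) := by
    apply Finset.sum_congr rfl
    intro j _
    rw [map_mul, map_pow, hy, hdG, hqN, coeff_map, map_pow]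
    ring
  have hfin : evw w (dpp (y ρ)) = i (x₂ - x₁) * W (d (ρ : N)) := by
    have hne : W ((derivative qN).eval (ρ : N)) ≠ 0 := by
      rw [Ne, map_eq_zero]
      exact hqder
    apply mul_left_cancel₀ hne
    rw [hsum, hder] at hA2
    have e := hA2.symm.trans hB2
    have this := add_left_cancel e
    rw [this]
    ring
  constructor
  · intro h0
    apply hinj
    rw [hfin, h0, map_zero, mul_zero, map_zero]
  · intro h0
    have h1 := hrv _ (h.der _ ρ.2 h0)
    have h2 := rv_evw w hw (dpp (y ρ))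
    have hW0 : W (d (ρ : N)) ≠ 0 := by
      rw [Ne, map_eq_zero]
      exact h0
    have hx0 : i (x₂ - x₁) ≠ 0 := by
      rw [Ne, map_eq_zero]
      exact sub_ne_zero.2 hd.1.symm
    rw [hfin, HahnSeries.leadingCoeff_mul, HahnSeries.order_mul hx0 hW0, h1.1, h1.2, hi,
      (j6b_hmap_rv _ _).1, (j6b_hmap_rv _ _).2] at h2
    refine ⟨haew _ _ ?_, ?_⟩
    · rw [← h2.1, map_mul, mul_comm]
    · rw [← h2.2, add_comm]

/-- Integration: if `dpp y = 0` then `evl 1 y = evl 0 y`; if the leading coefficient of `dpp y` is a non-zero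
constant `c` then `rv (evl 1 y - evl 0 y) = (c, order (dpp y))`.
Proof. For `g < order (dpp y)` the polynomial `y.coeff g` has derivative `0`, so it is constant (characteristic `0`,
`Polynomial.natDegree_eq_zero_of_derivative_eq_zero`), so the coefficients of `evl 1 y` and `evl 0 y` at `g` agree. At
`g = order (dpp y)`: derivative `C c`, so `y.coeff g = C c * X + C e` and the difference of the values at `1` and
`0` is `c`. -/
theorem evl_sub (Ω : Type u) [Field Ω] [CharZero Ω] (y : HahnSeries ℚ (Polynomial Ω)) :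
    (dpp y = 0 → evl 1 y = evl 0 y) ∧
      ∀ c : Ω, c ≠ 0 → (dpp y).leadingCoeff = C c → rv (evl 1 y - evl 0 y) = (c, (dpp y).order) := by
  have key : ∀ (g : ℚ) (c : Ω), derivative (y.coeff g) = C c →
      (evl 1 y).coeff g - (evl 0 y).coeff g = c := by
    intro g c hc
    have h1 : derivative (y.coeff g - C c * X) = 0 := by
      rw [derivative_sub, hc, derivative_C_mul, derivative_X, mul_one, sub_self]
    obtain ⟨e, he⟩ := natDegree_eq_zero.1 (natDegree_eq_zero_of_derivative_eq_zero h1)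
    have h2 : y.coeff g = C e + C c * X := by
      rw [he]
      ring
    have h3 : (evl 1 y).coeff g = (y.coeff g).eval 1 := rfl
    have h4 : (evl 0 y).coeff g = (y.coeff g).eval 0 := rfl
    rw [h3, h4, h2]
    simp
  constructor
  · intro h0
    ext g
    have h1 : derivative (y.coeff g) = C 0 := by
      rw [← dpp_coeff, h0, HahnSeries.coeff_zero, C_0]
    exact sub_eq_zero.1 (key g 0 h1)
  · intro c hc hl
    have hne : dpp y ≠ 0 := fun h0 => hc (by
      rw [h0, HahnSeries.leadingCoeff_zero] at hl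
      exact (C_eq_zero.1 hl.symm))
    have h1 : (evl 1 y - evl 0 y).coeff (dpp y).order = c := by
      rw [HahnSeries.coeff_sub]
      apply key
      rw [← dpp_coeff, ← HahnSeries.leadingCoeff_eq, hl]
    have h2 : ∀ g < (dpp y).order, (evl 1 y - evl 0 y).coeff g = 0 := by
      intro g hg
      rw [HahnSeries.coeff_sub]
      apply key
      rw [← dpp_coeff, HahnSeries.coeff_eq_zero_of_lt_order hg, C_0]
    have h3 : (evl 1 y - evl 0 y) ≠ 0 := fun h0 => hc (by
      rw [← h1, h0, HahnSeries.coeff_zero])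
    have h4 : (evl 1 y - evl 0 y).order = (dpp y).order := by
      apply le_antisymm
      · apply HahnSeries.order_le_of_coeff_ne_zero
        rw [h1]
        exact hc
      · by_contra hlt
        push Not at hlt
        exact h3 (HahnSeries.coeff_order_eq_zero.1 (h2 _ hlt))
    unfold rv
    rw [HahnSeries.leadingCoeff_eq, h4, h1]

/-- LEMMA 6.1 (niceness). Proof. `φ = ψ₁ ∘ (E → N)`, `x₁ = ψ₁ x`, `x₂ = ψ₂ x`; `G` from `exists_qhat`, `y` from
`branch_lift` (for `ψ₁`). `∏ (X - C (evl 0 (y ρ))) = G.map (evl 0) = q.map (ψ₁|M) = ∏ (X - C (ψ₁ ρ))`, so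
`range (evl 0 ∘ y) = range ψ₁|T`; for `ρ ≠ ρ'`: `rv (evl 0 (y ρ) - evl 0 (y ρ')) = rv (ψ₁ ρ - ψ₁ ρ')` by `rv_evl`
(leading coefficient `C c`, `c = lc (ψ₁ (ρ-ρ')) ≠ 0`). `label`: `evl 0 (y ρ) = ψ₁ ρ`. In the same way
`evl 1 (y ρ) = ψ₂ ρ`, using `rv (ψ₂ (ρ - ρ')) = rv (ψ₁ (ρ - ρ'))` (`hS`). Then `evl_sub`. -/
theorem branch_nice (h : BrHyp x q T d S P) (ψ₁ ψ₂ : N →+* HahnSeries ℚ Ω)
    (h0 : ψ₂.comp (algebraMap E N) = ψ₁.comp (algebraMap E N))
    (hS : ∀ s ∈ S, rv (ψ₂ s) = rv (ψ₁ s))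
    (hd : DiscHyp P (ψ₁.comp (algebraMap E N)) (ψ₁ (algebraMap M N x)) (ψ₂ (algebraMap M N x))) :
    ∀ ρ ∈ T, (d ρ = 0 → ψ₂ ρ = ψ₁ ρ) ∧
      (d ρ ≠ 0 → rv (ψ₂ ρ - ψ₁ ρ) =
        rv (ψ₁ (d ρ) * (ψ₂ (algebraMap M N x) - ψ₁ (algebraMap M N x)))) := by
  classical
  obtain ⟨G, hG0, hG1, hGw, hGc⟩ := exists_qhat h _ _ _ hd
  obtain ⟨y, hy, hyd, hdy⟩ := branch_lift h ψ₁ _ hd G hGw hGc
  have hcomp : ∀ ψ : N →+* HahnSeries ℚ Ω,
      (ψ.comp (algebraMap M N)).comp (algebraMap E M) = ψ.comp (algebraMap E N) := by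
    intro ψ
    rw [RingHom.comp_assoc, ← IsScalarTower.algebraMap_eq]
  have hq : ∀ ψ : N →+* HahnSeries ℚ Ω,
      q.map (ψ.comp (algebraMap M N)) = ∏ ρ : T, (X - C (ψ ρ)) := by
    intro ψ
    rw [← Polynomial.map_map, h.prod, Polynomial.map_prod, ← Finset.prod_coe_sort]
    refine Finset.prod_congr rfl fun ρ _ => ?_
    simp
  have hGe : ∀ a : Ω, G.map (evl a) = ∏ ρ : T, (X - C (evl a (y ρ))) := by
    intro a
    rw [hy, Polynomial.map_prod]
    refine Finset.prod_congr rfl fun ρ _ => ?_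
    simp
  -- equality of products gives equality of ranges
  have hrange : ∀ a b : T → HahnSeries ℚ Ω,
      (∏ ρ : T, (X - C (a ρ)) : Polynomial (HahnSeries ℚ Ω)) = ∏ ρ : T, (X - C (b ρ)) →
      Set.range a ⊆ Set.range b := by
    rintro a b hab _ ⟨i, rfl⟩
    have h1 : (∏ ρ : T, (X - C (b ρ)) : Polynomial (HahnSeries ℚ Ω)).eval (a i) = 0 := by
      rw [← hab, Polynomial.eval_prod]
      exact Finset.prod_eq_zero (Finset.mem_univ i) (by simp)
    rw [Polynomial.eval_prod, Finset.prod_eq_zero_iff] at h1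
    obtain ⟨j, -, hj⟩ := h1
    refine ⟨j, ?_⟩
    have h2 : a i - b j = 0 := by simpa using hj
    exact (sub_eq_zero.mp h2).symm
  -- `rv` of differences
  have hrv : ∀ (a : Ω) (ρ ρ' : T), rv (evl a (y ρ) - evl a (y ρ')) =
      rv (ψ₁ (ρ : N) - ψ₁ (ρ' : N)) := by
    intro a ρ ρ'
    by_cases hρ : ρ = ρ'
    · subst hρ
      simp
    · obtain ⟨h1, h2⟩ := hyd ρ ρ' hρ
      have hne : (ρ : N) ≠ ρ' := fun hh => hρ (Subtype.ext hh)
      have hc : (ψ₁ ((ρ : N) - ρ')).leadingCoeff ≠ 0 := by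
        rw [Ne, HahnSeries.leadingCoeff_eq_zero, map_eq_zero]
        exact sub_ne_zero.mpr hne
      rw [← map_sub, ← map_sub, rv_evl a _ _ hc h1, h2]
      rfl
  have hrv2 : ∀ ρ ρ' : T, rv (ψ₁ (ρ : N) - ψ₁ (ρ' : N)) = rv (ψ₂ (ρ : N) - ψ₂ (ρ' : N)) := by
    intro ρ ρ'
    by_cases hρ : ρ = ρ'
    · subst hρ
      simp
    · have hne : (ρ : N) ≠ ρ' := fun hh => hρ (Subtype.ext hh)
      rw [← map_sub, ← map_sub]
      exact (hS _ (h.diff _ ρ.2 _ ρ'.2 hne)).symm
  have e0 : ∏ ρ : T, (X - C (evl 0 (y ρ))) = (∏ ρ : T, (X - C (ψ₁ ρ)) :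
      Polynomial (HahnSeries ℚ Ω)) := by
    rw [← hGe, ← hq, hG0 _ (hcomp ψ₁) rfl]
  have e1 : ∏ ρ : T, (X - C (evl 1 (y ρ))) = (∏ ρ : T, (X - C (ψ₂ ρ)) :
      Polynomial (HahnSeries ℚ Ω)) := by
    rw [← hGe, ← hq, hG1 _ ((hcomp ψ₂).trans h0) rfl]
  have l0 : (fun ρ : T => evl 0 (y ρ)) = fun ρ : T => ψ₁ (ρ : N) :=
    label _ _ (Set.Subset.antisymm (hrange _ _ e0) (hrange _ _ e0.symm)) fun i j => hrv 0 i j
  have l1 : (fun ρ : T => evl 1 (y ρ)) = fun ρ : T => ψ₂ (ρ : N) :=
    label _ _ (Set.Subset.antisymm (hrange _ _ e1) (hrange _ _ e1.symm)) fun i j =>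
      (hrv 1 i j).trans (hrv2 i j)
  intro ρ hρ
  have m0 : evl 0 (y ⟨ρ, hρ⟩) = ψ₁ ρ := congrFun l0 ⟨ρ, hρ⟩
  have m1 : evl 1 (y ⟨ρ, hρ⟩) = ψ₂ ρ := congrFun l1 ⟨ρ, hρ⟩
  obtain ⟨hz, hnz⟩ := hdy ⟨ρ, hρ⟩
  obtain ⟨s0, s1⟩ := evl_sub Ω (y ⟨ρ, hρ⟩)
  refine ⟨fun hdρ => ?_, fun hdρ => ?_⟩
  · rw [← m0, ← m1]
    exact s0 (hz hdρ)
  · obtain ⟨k1, k2⟩ := hnz hdρ
    have hx : ψ₂ (algebraMap M N x) - ψ₁ (algebraMap M N x) ≠ 0 := sub_ne_zero.mpr hd.1.symm
    have hρ0 : ψ₁ (d ρ) ≠ 0 := by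
      rw [Ne, map_eq_zero]
      exact hdρ
    have hc : (ψ₁ (d ρ)).leadingCoeff *
        (ψ₂ (algebraMap M N x) - ψ₁ (algebraMap M N x)).leadingCoeff ≠ 0 :=
      mul_ne_zero (HahnSeries.leadingCoeff_ne_zero.mpr hρ0) (HahnSeries.leadingCoeff_ne_zero.mpr hx)
    rw [← m0, ← m1, s1 _ hc k1, k2]
    unfold rv
    rw [HahnSeries.leadingCoeff_mul, HahnSeries.order_mul hρ0 hx]

end

end KTS

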