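import Pool.Agent.KTS.J6

/-!
[KTS-K1] Coherent embeddings over another point of the disc; slopes of polynomials.
-/

namespace KTS

noncomputable section

universe u

open Polynomial

variable {Ω : Type u} [Field Ω] [CharZero Ω] [IsAlgClosed Ω]
  {E M N : Type u} [Field E] [CharZero E] [Field M] [CharZero M] [Field N]
  [Algebra E M] [Algebra M N] [Algebra E N] [IsScalarTower E M N] [FiniteDimensional M N]
  {x : M} {q : Polynomial M} {T : Finset N} {d : Derivation E N N} {S : Finset N}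
  {P : Finset (Polynomial E)}

private theorem k1_order_mul {Ω : Type*} [Field Ω] {x y : HahnSeries ℚ Ω} (hx : x ≠ 0)
    (hy : y ≠ 0) : (x * y).order = x.order + y.order :=
  HahnSeries.order_mul_of_ne_zero
    (mul_ne_zero (HahnSeries.leadingCoeff_ne_zero.2 hx) (HahnSeries.leadingCoeff_ne_zero.2 hy))

private theorem k1_rv_mul {Ω : Type*} [Field Ω] {a a' b b' : HahnSeries ℚ Ω}
    (ha : rv a = rv a') (hb : rv b = rv b') : rv (a * b) = rv (a' * b') := by
  have ha1 : a.leadingCoeff = a'.leadingCoeff := congrArg Prod.fst ha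
  have ha2 : a.order = a'.order := congrArg Prod.snd ha
  have hb1 : b.leadingCoeff = b'.leadingCoeff := congrArg Prod.fst hb
  have hb2 : b.order = b'.order := congrArg Prod.snd hb
  have h0 : ∀ y y' : HahnSeries ℚ Ω, y.leadingCoeff = y'.leadingCoeff → (y = 0 ↔ y' = 0) := by
    intro y y' h
    rw [← HahnSeries.leadingCoeff_eq_zero, h, HahnSeries.leadingCoeff_eq_zero]
  by_cases h1 : a = 0
  · rw [h1, (h0 a a' ha1).1 h1, zero_mul, zero_mul]
  by_cases h2 : b = 0
  · rw [h2, (h0 b b' hb1).1 h2, mul_zero, mul_zero]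
  refine Prod.ext ?_ ?_
  · show (a * b).leadingCoeff = (a' * b').leadingCoeff
    rw [HahnSeries.leadingCoeff_mul, HahnSeries.leadingCoeff_mul, ha1, hb1]
  · show (a * b).order = (a' * b').order
    rw [k1_order_mul h1 h2, k1_order_mul (fun h => h1 ((h0 a a' ha1).2 h))
      (fun h => h2 ((h0 b b' hb1).2 h)), ha2, hb2]

private theorem k1_rv_cancel {Ω : Type*} [Field Ω] {a a' b b' c c' : HahnSeries ℚ Ω}
    (ha : rv a = rv a') (hb : rv b = rv b') (hb0 : b ≠ 0) (hc : c * b = a) (hc' : c' * b' = a') :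
    rv c = rv c' := by
  have ha1 : a.leadingCoeff = a'.leadingCoeff := congrArg Prod.fst ha
  have ha2 : a.order = a'.order := congrArg Prod.snd ha
  have hb1 : b.leadingCoeff = b'.leadingCoeff := congrArg Prod.fst hb
  have hb2 : b.order = b'.order := congrArg Prod.snd hb
  have h0 : ∀ y y' : HahnSeries ℚ Ω, y.leadingCoeff = y'.leadingCoeff → (y = 0 ↔ y' = 0) := by
    intro y y' h
    rw [← HahnSeries.leadingCoeff_eq_zero, h, HahnSeries.leadingCoeff_eq_zero]
  have hb0' : b' ≠ 0 := fun h => hb0 ((h0 b b' hb1).2 h)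
  have hlb : b.leadingCoeff ≠ 0 := HahnSeries.leadingCoeff_ne_zero.2 hb0
  have h1 : c.leadingCoeff * b.leadingCoeff = a.leadingCoeff := by
    rw [← HahnSeries.leadingCoeff_mul, hc]
  have h2 : c'.leadingCoeff * b'.leadingCoeff = a'.leadingCoeff := by
    rw [← HahnSeries.leadingCoeff_mul, hc']
  have hcc : c.leadingCoeff = c'.leadingCoeff := by
    rw [← hb1, ← ha1, ← h1] at h2
    exact (mul_right_cancel₀ hlb h2).symm
  by_cases h3 : c = 0
  · rw [h3, (h0 c c' hcc).1 h3]
  · have h3' : c' ≠ 0 := fun h => h3 ((h0 c c' hcc).2 h)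
    refine Prod.ext hcc ?_
    show c.order = c'.order
    have e1 := k1_order_mul h3 hb0
    have e2 := k1_order_mul h3' hb0'
    rw [hc] at e1
    rw [hc'] at e2
    linarith

private theorem k1_rv_add {Ω : Type*} [Field Ω] {s t : HahnSeries ℚ Ω}
    (h : s.orderTop < t.orderTop) : rv (s + t) = rv s := by
  have h1 := HahnSeries.orderTop_add_eq_left h
  have hs : s ≠ 0 := HahnSeries.orderTop_ne_top.1 h.ne_top
  have hst : s + t ≠ 0 := by
    rw [← HahnSeries.orderTop_ne_top, h1]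
    exact h.ne_top
  refine Prod.ext (HahnSeries.leadingCoeff_add_eq_left h) ?_
  show (s + t).order = s.order
  rw [← HahnSeries.order_eq_orderTop_of_ne_zero hs,
    ← HahnSeries.order_eq_orderTop_of_ne_zero hst] at h1
  exact_mod_cast h1

private theorem k1_rv_prod {Ω : Type*} [Field Ω] (m : Multiset (HahnSeries ℚ Ω))
    (x₁ x₂ : HahnSeries ℚ Ω) (h : ∀ r ∈ m, (x₁ - r).orderTop < (x₂ - x₁).orderTop) :
    rv (m.map (x₂ - ·)).prod = rv (m.map (x₁ - ·)).prod := by
  induction m using Multiset.induction_on with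
  | empty => rw [Multiset.map_zero, Multiset.map_zero]
  | cons a m ih =>
    rw [Multiset.map_cons, Multiset.map_cons, Multiset.prod_cons, Multiset.prod_cons]
    refine k1_rv_mul ?_ (ih fun r hr => h r (Multiset.mem_cons_of_mem hr))
    have h1 := k1_rv_add (h a (Multiset.mem_cons_self a m))
    rwa [show x₁ - a + (x₂ - x₁) = x₂ - a by ring] at h1

/-- The embedding of `M = E(x)` with given value at `x`. -/
private theorem k1_embed {E M K : Type u} [Field E] [Field M] [Algebra E M] [Field K] (x : M)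
    (tr : Transcendental E x) (gen : IntermediateField.adjoin E {x} = ⊤) (φ : E →+* K) (y : K)
    (hy : ∀ g : Polynomial E, g ≠ 0 → g.eval₂ φ y ≠ 0) :
    ∃ W : M →+* K, W.comp (algebraMap E M) = φ ∧ W x = y := by
  let _ : Algebra E K := φ.toAlgebra
  have htr : Transcendental E y := by
    rintro ⟨p, hp, hp'⟩
    exact hy p hp hp'
  let e1 : M ≃ₐ[E] IntermediateField.adjoin E {x} :=
    IntermediateField.topEquiv.symm.trans (IntermediateField.equivOfEq gen.symm)
  let e2 := RatFunc.algEquivOfTranscendental x tr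
  let e3 := RatFunc.algEquivOfTranscendental y htr
  let W : M →ₐ[E] K :=
    (IntermediateField.val _).comp (e1.trans (e2.symm.trans e3)).toAlgHom
  refine ⟨(W : M →+* K), ?_, ?_⟩
  · ext1 a
    exact W.commutes a
  · have h1 : e1 x = IntermediateField.AdjoinSimple.gen E x := rfl
    show ((e3 (e2.symm (e1 x)) : _) : K) = _
    rw [h1, RatFunc.algEquivOfTranscendental_symm_gen, RatFunc.algEquivOfTranscendental_X]

open Classical in
private theorem k1_slope {Ω : Type*} [Field Ω] (x₀ : HahnSeries ℚ Ω) (r : ℚ)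
    (m : Multiset (HahnSeries ℚ Ω)) :
    ∃ ε₀ : ℚ, 0 < ε₀ ∧ ∃ c : ℚ, ∀ ε : ℚ, 0 < ε → ε < ε₀ → ∀ x' : HahnSeries ℚ Ω,
      (x' - x₀).orderTop = ((r + ε : ℚ) : WithTop ℚ) → (m.map (x' - ·)).prod ≠ 0 ∧
        (m.map (x' - ·)).prod.order = c + (Multiset.card (m.filter
          (fun a => (r : WithTop ℚ) < (a - x₀).orderTop)) : ℚ) * ε := by
  induction m using Multiset.induction_on with
  | empty =>
    refine ⟨1, one_pos, 0, fun ε _ _ x' _ => ⟨?_, ?_⟩⟩
    · rw [Multiset.map_zero, Multiset.prod_zero]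
      exact one_ne_zero
    · rw [Multiset.map_zero, Multiset.prod_zero, HahnSeries.order_one]
      simp
  | cons a m ih =>
    obtain ⟨ε₀, hε₀, c, ih⟩ := ih
    by_cases ha : (r : WithTop ℚ) < (a - x₀).orderTop
    · obtain ⟨ε₁, hε₁, h1⟩ : ∃ ε₁ : ℚ, 0 < ε₁ ∧ ∀ ε : ℚ, ε < ε₁ →
          ((r + ε : ℚ) : WithTop ℚ) < (a - x₀).orderTop := by
        cases he : (a - x₀).orderTop with
        | top => exact ⟨1, one_pos, fun ε _ => WithTop.coe_lt_top _⟩
        | coe e =>
          rw [he, WithTop.coe_lt_coe] at ha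
          refine ⟨e - r, by linarith, fun ε h => ?_⟩
          rw [WithTop.coe_lt_coe]
          linarith
      refine ⟨min ε₀ ε₁, lt_min hε₀ hε₁, c + r, ?_⟩
      intro ε h0 hlt x' hx'
      obtain ⟨h2, h3⟩ := ih ε h0 (hlt.trans_le (min_le_left _ _)) x' hx'
      have h4 : (x' - a).orderTop = ((r + ε : ℚ) : WithTop ℚ) := by
        have h5 : (x' - x₀).orderTop < (a - x₀).orderTop := by
          rw [hx']
          exact h1 ε (hlt.trans_le (min_le_right _ _))
        rw [show x' - a = (x' - x₀) - (a - x₀) by ring, HahnSeries.orderTop_sub h5, hx']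
      have h6 : x' - a ≠ 0 := by
        rw [← HahnSeries.orderTop_ne_top, h4]
        exact WithTop.coe_ne_top
      have h7 : (x' - a).order = r + ε := by
        rw [← HahnSeries.order_eq_orderTop_of_ne_zero h6] at h4
        exact_mod_cast h4
      rw [Multiset.map_cons, Multiset.prod_cons]
      refine ⟨mul_ne_zero h6 h2, ?_⟩
      rw [k1_order_mul h6 h2, h3, h7, Multiset.filter_cons_of_pos
        (p := fun a => (r : WithTop ℚ) < (a - x₀).orderTop) _ ha, Multiset.card_cons]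
      push_cast
      ring
    · refine ⟨ε₀, hε₀, c + (a - x₀).order, ?_⟩
      intro ε h0 hlt x' hx'
      obtain ⟨h2, h3⟩ := ih ε h0 hlt x' hx'
      have ha' : (a - x₀).orderTop ≤ (r : WithTop ℚ) := not_lt.1 ha
      have ha0 : a - x₀ ≠ 0 := by
        rw [← HahnSeries.orderTop_ne_top]
        exact ne_top_of_le_ne_top WithTop.coe_ne_top ha'
      have h5 : (a - x₀).orderTop < (x' - x₀).orderTop := by
        rw [hx']
        refine lt_of_le_of_lt ha' ?_
        rw [WithTop.coe_lt_coe]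
        linarith
      have h4 : (a - x').orderTop = (a - x₀).orderTop := by
        rw [show a - x' = (a - x₀) - (x' - x₀) by ring, HahnSeries.orderTop_sub h5]
      have h4' : (x' - a).orderTop = (a - x₀).orderTop := by
        rw [← neg_sub, HahnSeries.orderTop_neg, h4]
      have h6 : x' - a ≠ 0 := by
        rw [← HahnSeries.orderTop_ne_top, h4', HahnSeries.orderTop_ne_top]
        exact ha0
      have h7 : (x' - a).order = (a - x₀).order := by
        rw [← HahnSeries.order_eq_orderTop_of_ne_zero h6,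
          ← HahnSeries.order_eq_orderTop_of_ne_zero ha0] at h4'
        exact_mod_cast h4'
      rw [Multiset.map_cons, Multiset.prod_cons]
      refine ⟨mul_ne_zero h6 h2, ?_⟩
      rw [k1_order_mul h6 h2, h3, h7, Multiset.filter_cons_of_neg
        (p := fun a => (r : WithTop ℚ) < (a - x₀).orderTop) _ ha]
      ring

/-- `y` is transcendental over the image of `φ`. -/
def TrO (φ : E →+* HahnSeries ℚ Ω) (y : HahnSeries ℚ Ω) : Prop :=
  ∀ g : Polynomial E, g ≠ 0 → g.eval₂ φ y ≠ 0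

/-- `rv` of the value of a polynomial is constant on a disc without roots.
Proof: `p.map φ = C a * ∏ (X - C r)` over the roots (`U` algebraically closed), `x₂ - r = (x₁ - r) + (x₂ - x₁)` has
the same leading term as `x₁ - r`. -/
theorem rv_eval_congr (φ : E →+* HahnSeries ℚ Ω) (p : Polynomial E) (x₁ x₂ : HahnSeries ℚ Ω)
    (h : ∀ r ∈ (p.map φ).roots, (x₁ - r).orderTop < (x₂ - x₁).orderTop) :
    rv (p.eval₂ φ x₂) = rv (p.eval₂ φ x₁) := by
  have hs : (p.map φ).Splits := IsAlgClosed.splits _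
  have e : ∀ y : HahnSeries ℚ Ω, p.eval₂ φ y =
      (p.map φ).leadingCoeff * ((p.map φ).roots.map (y - ·)).prod := by
    intro y
    rw [← Polynomial.eval_map, hs.eval_eq_prod_roots]
  rw [e, e]
  exact k1_rv_mul rfl (k1_rv_prod _ x₁ x₂ h)

/-- (EXT, COHERENT) Proof. `M = E(x)` is the fraction field of `E[X]`; `x₂` transcendental over `φ(E)` gives
`Wm : M →+* U` with `Wm ∘ (E → M) = φ`, `Wm x = x₂`. For a coefficient `c ≠ 0` of the norm form of `S`, `c b(x) = a(x)`,
`a, b ∈ P`: `rv (Wm c) = rv (ψ₁ c)` by `rv_eval_congr` for `a` and `b` (`rv` is multiplicative, `b(x₂) ≠ 0`).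
Then `ext_match`. -/
theorem exists_coh (h : BrHyp x q T d S P) (ψ₁ : N →+* HahnSeries ℚ Ω) (x₂ : HahnSeries ℚ Ω)
    (hx₂ : TrO (ψ₁.comp (algebraMap E N)) x₂)
    (hd : ∀ p ∈ P, ∀ r ∈ (p.map (ψ₁.comp (algebraMap E N))).roots,
      (ψ₁ (algebraMap M N x) - r).orderTop < (x₂ - ψ₁ (algebraMap M N x)).orderTop) :
    ∃ ψ₂ : N →+* HahnSeries ℚ Ω, ψ₂.comp (algebraMap E N) = ψ₁.comp (algebraMap E N) ∧
      ψ₂ (algebraMap M N x) = x₂ ∧ ∀ s ∈ S, rv (ψ₂ s) = rv (ψ₁ s) := by
  set φ : E →+* HahnSeries ℚ Ω := ψ₁.comp (algebraMap E N) with hφ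
  obtain ⟨Wm, hWm, hWx⟩ := k1_embed x h.tr h.gen φ x₂ hx₂
  have hEMN : (ψ₁.comp (algebraMap M N)).comp (algebraMap E M) = φ := by
    rw [RingHom.comp_assoc, ← IsScalarTower.algebraMap_eq]
  have hev : ∀ (f : M →+* HahnSeries ℚ Ω), f.comp (algebraMap E M) = φ → ∀ b : Polynomial E,
      f (aeval x b) = b.eval₂ φ (f x) := by
    intro f hf b
    rw [aeval_def, Polynomial.hom_eval₂, hf]
  obtain ⟨W, hW, hWS⟩ := ext_match (F' := M) S h.ne (ψ₁.comp (algebraMap M N)) Wm (by
      intro m hm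
      obtain ⟨a, ha, b, hb, hab⟩ := h.quo_S m (MvPolynomial.mem_support_iff.2 hm)
      have e1 := congrArg (ψ₁.comp (algebraMap M N)) hab
      rw [map_mul, hev _ hEMN, hev _ hEMN] at e1
      have e2 := congrArg Wm hab
      rw [map_mul, hev _ hWm, hev _ hWm, hWx] at e2
      have ra := rv_eval_congr φ a (ψ₁ (algebraMap M N x)) x₂ (hd a ha)
      have rb := rv_eval_congr φ b (ψ₁ (algebraMap M N x)) x₂ (hd b hb)
      have hb0 : b.eval₂ φ (ψ₁ (algebraMap M N x)) ≠ 0 := by
        intro h0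
        have h1 : ψ₁ (algebraMap M N x) ∈ (b.map φ).roots := by
          rw [Polynomial.mem_roots ((Polynomial.map_ne_zero_iff φ.injective).2 (h.P_ne b hb)),
            Polynomial.IsRoot.def, Polynomial.eval_map]
          exact h0
        have h2 := hd b hb _ h1
        rw [sub_self, HahnSeries.orderTop_zero] at h2
        exact not_top_lt h2
      exact k1_rv_cancel ra.symm rb.symm hb0 e1 e2)
    ψ₁ rfl
  refine ⟨W, ?_, ?_, hWS⟩
  · rw [IsScalarTower.algebraMap_eq E M N, ← RingHom.comp_assoc, hW, hWm]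
  · rw [← hWx, ← hW]
    rfl

/-- Slope of a polynomial near the boundary of a disc = number of roots in the disc.
Proof. `p = C a * ∏ (X - C ρ_j)`. Let `ε₀ > 0` be smaller than `order (ρ_j - x) - r` for all roots `ρ_j ≠ x` with
`r < order (ρ_j - x)`. For `v(x' - x) = r + ε`: if `ρ_j` is in the open disc (`r < v(ρ_j - x)`, so
`r + ε < v(ρ_j - x)`) then `v(x' - ρ_j) = r + ε`; otherwise `v(ρ_j - x) ≤ r < r + ε` and `v(x' - ρ_j) = v(x - ρ_j)`. Sum up;
`c = v(a) + ∑_{outside} v(x - ρ_j) + m r`. -/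
theorem slope (p : Polynomial (HahnSeries ℚ Ω)) (hp : p ≠ 0) (x₀ : HahnSeries ℚ Ω) (r : ℚ) :
    ∃ ε₀ : ℚ, 0 < ε₀ ∧ ∃ c : ℚ, ∀ ε : ℚ, 0 < ε → ε < ε₀ → ∀ x' : HahnSeries ℚ Ω,
      (x' - x₀).orderTop = ((r + ε : ℚ) : WithTop ℚ) → p.eval x' ≠ 0 ∧
        (p.eval x').order = c + (Multiset.card (p.roots.filter
          (fun a => (r : WithTop ℚ) < (a - x₀).orderTop)) : ℚ) * ε := by
  classical
  have hs : p.Splits := IsAlgClosed.splits _
  obtain ⟨ε₀, hε₀, c, h⟩ := k1_slope x₀ r p.roots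
  refine ⟨ε₀, hε₀, c + p.leadingCoeff.order, ?_⟩
  intro ε h0 hlt x' hx'
  obtain ⟨h1, h2⟩ := h ε h0 hlt x' hx'
  have hl : p.leadingCoeff ≠ 0 := Polynomial.leadingCoeff_ne_zero.2 hp
  rw [hs.eval_eq_prod_roots]
  refine ⟨mul_ne_zero hl h1, ?_⟩
  rw [k1_order_mul hl h1, h2]
  linear_combination

private theorem k1b_alg {U : Type u} [Field U] (φ : E →+* U) (y z : U)
    (hy : ∀ g : Polynomial E, g ≠ 0 → g.eval₂ φ y ≠ 0) (g : Polynomial E) (hg : g ≠ 0)
    (hgz : g.eval₂ φ z = 0) (s : Finset ℕ) (Q : ℕ → Polynomial E) (m : ℕ) (hm : m ∈ s)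
    (hQ : (Q m).eval₂ φ z ≠ 0) : ∑ j ∈ s, (Q j).eval₂ φ z * y ^ j ≠ 0 := by
  classical
  intro h0
  letI : Algebra E U := φ.toAlgebra
  have hev : ∀ (f : Polynomial E) (u : U), f.eval₂ φ u = aeval u f := fun f u => rfl
  have hz : IsAlgebraic E z := ⟨g, hg, hgz⟩
  haveI : Algebra.IsAlgebraic E (IntermediateField.adjoin E {z}) :=
    IntermediateField.isAlgebraic_adjoin_simple hz.isIntegral
  set K1 := IntermediateField.adjoin E {z} with hK1
  have hzmem : z ∈ K1 := IntermediateField.mem_adjoin_simple_self E z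
  set z' : K1 := ⟨z, hzmem⟩ with hz'
  have hzz : algebraMap K1 U z' = z := rfl
  have hval : ∀ f : Polynomial E, algebraMap K1 U (aeval z' f) = f.eval₂ φ z := by
    intro f
    rw [hev, ← hzz, aeval_algebraMap_apply]
  set r : Polynomial K1 := ∑ j ∈ s, C (aeval z' (Q j)) * X ^ j with hr
  have hr1 : aeval y r = ∑ j ∈ s, (Q j).eval₂ φ z * y ^ j := by
    rw [hr, map_sum]
    apply Finset.sum_congr rfl
    intro j _
    rw [map_mul, aeval_C, map_pow, aeval_X, hval]
  have hr2 : r ≠ 0 := by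
    intro h
    have hc : r.coeff m = aeval z' (Q m) := by
      rw [hr, finset_sum_coeff]
      simp only [coeff_C_mul, coeff_X_pow, mul_ite, mul_one, mul_zero]
      rw [Finset.sum_eq_single m]
      · simp
      · intro b _ hb
        rw [if_neg (Ne.symm hb)]
      · intro hh
        exact absurd hm hh
    rw [h, coeff_zero] at hc
    apply hQ
    rw [← hval, ← hc, map_zero]
  have hyK : IsAlgebraic K1 y := ⟨r, hr2, by rw [hr1, h0]⟩
  have hyE : IsAlgebraic E y := hyK.restrictScalars E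
  obtain ⟨f, hf, hfy⟩ := hyE
  exact hy f hf hfy

/-- The polynomial `p(X) = B(X) q(X, y)`. Proof. For `j` with `q.coeff j ≠ 0` choose `a_j, b_j ∈ P`,
`q_j b_j(x) = a_j(x)` (`quo_q`). `B := ∏_j b_j` (over the support of `q`), `Q̃_j := a_j ∏_{l ≠ j} b_l`, so
`B(x) q_j = Q̃_j(x)` in `M`. `p := ∑_j (Q̃_j.map φ) * C (y^j)`. For `ψ'` over `φ`: `p(ψ' x) = ∑_j ψ'(Q̃_j(x)) y^j =
ψ'(B(x)) ∑_j ψ'(q_j) y^j = B(ψ' x) ∏_{ρ ∈ T} (y - ψ' ρ)` by `h.prod`. Moreover, for EVERY `a ∈ U` which is
algebraic over `φ(E)` (`¬ TrO φ a`) and is not a root of any `φ(b)`, `b ∈ P`: `p(a) = ∑_j Q̃_j(a) y^j ≠ 0`, because this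
is `B(a)` times a polynomial in `y` whose leading coefficient `Q̃_m(a)`, `m = natDegree q`, `Q̃_m(a) = B(a) ≠ 0` (`q`
is monic), with coefficients algebraic over `φ(E)`, and `y` is transcendental over `φ(E)`. In particular
`p ≠ 0` (it has a non-root: take `ψ' x` for `ψ' = ψ`, all `ψ ρ ≠ y`?  Simpler: leading coefficients: the coefficient of
`y^m` is `B.map φ ≠ 0`, `m = natDegree q = T.card`, and `y` is transcendental over `φ(E)`, so comparing a coefficient
of `X^l` with `(B.map φ).coeff l ≠ 0` gives a non-zero polynomial in `y` over `φ(E)`). -/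
theorem exists_pxy (h : BrHyp x q T d S P) (φ : E →+* HahnSeries ℚ Ω) (y : HahnSeries ℚ Ω)
    (hy : TrO φ y) :
    ∃ (B : Polynomial E) (p : Polynomial (HahnSeries ℚ Ω)), p ≠ 0 ∧ B ≠ 0 ∧
      (∀ r ∈ (B.map φ).roots, ∃ b ∈ P, r ∈ (b.map φ).roots) ∧
      (∀ ψ' : N →+* HahnSeries ℚ Ω, ψ'.comp (algebraMap E N) = φ →
        p.eval (ψ' (algebraMap M N x)) =
          B.eval₂ φ (ψ' (algebraMap M N x)) * ∏ ρ ∈ T, (y - ψ' ρ)) ∧
      ∀ a : HahnSeries ℚ Ω, ¬ TrO φ a → (∀ b ∈ P, b.eval₂ φ a ≠ 0) → p.eval a ≠ 0 := by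
  classical
  have hmon : q.Monic := by
    have h1 : (q.map (algebraMap M N)).Monic := by
      rw [h.prod]
      exact monic_prod_of_monic _ _ (fun ρ _ => monic_X_sub_C ρ)
    exact (Function.Injective.monic_map_iff (algebraMap M N).injective).2 h1
  have hq : ∀ j ∈ q.support, ∃ a b, a ∈ P ∧ b ∈ P ∧ q.coeff j * aeval x b = aeval x a := by
    intro j hj
    obtain ⟨a, ha, b, hb, hab⟩ := h.quo_q j (mem_support_iff.1 hj)
    exact ⟨a, b, ha, hb, hab⟩
  choose! a b ha hb hab using hq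
  set B : Polynomial E := ∏ l ∈ q.support, b l with hB
  set Qt : ℕ → Polynomial E := fun j => a j * ∏ l ∈ q.support.erase j, b l with hQt
  have hQx : ∀ j ∈ q.support, aeval x (Qt j) = q.coeff j * aeval x B := by
    intro j hj
    simp only [hQt]
    rw [map_mul, ← hab j hj, hB, ← Finset.mul_prod_erase q.support b hj, map_mul]
    ring
  set p : Polynomial (HahnSeries ℚ Ω) := ∑ j ∈ q.support, (Qt j).map φ * C (y ^ j) with hp
  have hpe : ∀ z, p.eval z = ∑ j ∈ q.support, (Qt j).eval₂ φ z * y ^ j := by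
    intro z
    rw [hp, eval_finset_sum]
    apply Finset.sum_congr rfl
    intro j _
    rw [eval_mul, eval_C, eval_map]
  have hmem : q.natDegree ∈ q.support := by
    rw [mem_support_iff, coeff_natDegree, hmon.leadingCoeff]
    exact one_ne_zero
  have hQm : Qt q.natDegree = B := by
    have h1 := hab _ hmem
    rw [coeff_natDegree, hmon.leadingCoeff, one_mul] at h1
    have h2 : b q.natDegree = a q.natDegree := (transcendental_iff_injective.1 h.tr) h1
    simp only [hQt]
    rw [← h2, hB, Finset.mul_prod_erase q.support b hmem]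
  have hBz : ∀ z, (∀ b ∈ P, b.eval₂ φ z ≠ 0) → B.eval₂ φ z ≠ 0 := by
    intro z hz
    rw [hB, eval₂_finset_prod]
    exact Finset.prod_ne_zero_iff.2 fun l hl => hz _ (hb l hl)
  have hlast : ∀ a : HahnSeries ℚ Ω, ¬ TrO φ a → (∀ b ∈ P, b.eval₂ φ a ≠ 0) → p.eval a ≠ 0 := by
    intro z hz hbz
    unfold TrO at hz
    push Not at hz
    obtain ⟨g, hg, hgz⟩ := hz
    rw [hpe]
    exact k1b_alg φ y z hy g hg hgz q.support Qt q.natDegree hmem (by rw [hQm]; exact hBz z hbz)
  have hB0 : B ≠ 0 := Finset.prod_ne_zero_iff.2 fun l hl => h.P_ne _ (hb l hl)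
  refine ⟨B, p, ?_, hB0, ?_, ?_, hlast⟩
  · -- a non-root
    have hprod : ∏ b ∈ P, b ≠ 0 := Finset.prod_ne_zero_iff.2 fun b hb => h.P_ne b hb
    obtain ⟨e, he⟩ : ∃ e : E, (∏ b ∈ P, b).eval e ≠ 0 := by
      by_contra hcon
      push Not at hcon
      apply hprod
      apply Polynomial.funext
      intro e
      rw [hcon e, eval_zero]
    have h1 : p.eval (φ e) ≠ 0 := by
      apply hlast
      · intro hT
        apply hT (X - C e) (X_sub_C_ne_zero e)
        rw [eval₂_sub, eval₂_X, eval₂_C, sub_self]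
      · intro b hb
        rw [eval₂_at_apply]
        intro h0
        have h2 : b.eval e = 0 := (map_eq_zero φ).1 h0
        apply he
        rw [eval_prod]
        exact Finset.prod_eq_zero hb h2
    intro h0
    apply h1
    rw [h0, eval_zero]
  · intro r hr
    rw [mem_roots', IsRoot.def, eval_map, hB, eval₂_finset_prod, Finset.prod_eq_zero_iff] at hr
    obtain ⟨-, l, hl, hr⟩ := hr
    refine ⟨b l, hb l hl, ?_⟩
    rw [mem_roots', IsRoot.def, eval_map]
    exact ⟨(Polynomial.map_ne_zero_iff φ.injective).2 (h.P_ne _ (hb l hl)), hr⟩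
  · intro ψ' hψ
    have hev : ∀ f : Polynomial E, f.eval₂ φ (ψ' (algebraMap M N x)) =
        ψ' (algebraMap M N (aeval x f)) := by
      intro f
      rw [← hψ, aeval_def, hom_eval₂, hom_eval₂, ← IsScalarTower.algebraMap_eq]
    rw [hpe]
    have h1 : ∀ j ∈ q.support, (Qt j).eval₂ φ (ψ' (algebraMap M N x)) * y ^ j =
        B.eval₂ φ (ψ' (algebraMap M N x)) * (ψ' (algebraMap M N (q.coeff j)) * y ^ j) := by
      intro j hj
      rw [hev, hev, hQx j hj, map_mul, map_mul]
      ring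
    rw [Finset.sum_congr rfl h1, ← Finset.mul_sum]
    congr 1
    have h2 : q.eval₂ (ψ'.comp (algebraMap M N)) y = ∏ ρ ∈ T, (y - ψ' ρ) := by
      rw [← eval₂_map, h.prod, eval₂_finset_prod]
      apply Finset.prod_congr rfl
      intro ρ _
      rw [eval₂_sub, eval₂_X, eval₂_C]
    rw [← h2, eval₂_eq_sum, Polynomial.sum]
    rfl

end

end KTS

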