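import Pool.Agent.KTS.K1

/-!
[KTS-K2] Balls onto balls (Lemma 6.2 of KTS_paper.md).
-/

namespace KTS

noncomputable section

universe u

open Polynomial

variable {Ω : Type u} [Field Ω] [CharZero Ω] [IsAlgClosed Ω]
  {E M N : Type u} [Field E] [CharZero E] [Field M] [CharZero M] [Field N]
  [Algebra E M] [Algebra M N] [Algebra E N] [IsScalarTower E M N] [FiniteDimensional M N]
  {x : M} {q : Polynomial M} {T : Finset N} {d : Derivation E N N} {S : Finset N}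
  {P : Finset (Polynomial E)}

theorem k2_small {α : Type*} (s : Finset α) (Q : α → ℚ → Prop)
    (h : ∀ a ∈ s, ∃ e : ℚ, 0 < e ∧ ∀ ε, 0 < ε → ε < e → Q a ε) :
    ∃ e : ℚ, 0 < e ∧ ∀ ε, 0 < ε → ε < e → ∀ a ∈ s, Q a ε := by
  classical
  induction s using Finset.induction_on with
  | empty => exact ⟨1, one_pos, fun _ _ _ a ha => absurd ha (Finset.notMem_empty a)⟩
  | insert b s hb ih =>
    obtain ⟨e, he, h1⟩ := ih fun a ha => h a (Finset.mem_insert_of_mem ha)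
    obtain ⟨e', he', h2⟩ := h b (Finset.mem_insert_self b s)
    refine ⟨min e e', lt_min he he', fun ε h0 hε a ha => ?_⟩
    rcases Finset.mem_insert.1 ha with rfl | ha
    · exact h2 ε h0 (hε.trans_le (min_le_right _ _))
    · exact h1 ε h0 (hε.trans_le (min_le_left _ _)) a ha

theorem k2_order_prod {Ω : Type*} [Field Ω] {α : Type*} (s : Finset α)
    (f : α → HahnSeries ℚ Ω) (h : ∀ a ∈ s, f a ≠ 0) :
    (∏ a ∈ s, f a).order = ∑ a ∈ s, (f a).order := by
  classical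
  induction s using Finset.induction_on with
  | empty => simp
  | insert b s hb ih =>
    have h1 : ∀ a ∈ s, f a ≠ 0 := fun a ha => h a (Finset.mem_insert_of_mem ha)
    rw [Finset.prod_insert hb, Finset.sum_insert hb,
      HahnSeries.order_mul (h b (Finset.mem_insert_self b s)) (Finset.prod_ne_zero_iff.2 h1),
      ih h1]

theorem k2_order_of_orderTop {Ω : Type*} [Field Ω] {z : HahnSeries ℚ Ω} {g : ℚ}
    (h : z.orderTop = (g : WithTop ℚ)) : z.order = g := by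
  have hz : z ≠ 0 := by
    rintro rfl
    rw [HahnSeries.orderTop_zero] at h
    exact WithTop.coe_ne_top h.symm
  have h1 := HahnSeries.order_eq_orderTop_of_ne_zero hz
  rw [h] at h1
  exact WithTop.coe_injective h1

theorem k2_orderTop_of_rv {Ω : Type*} [Field Ω] {z z' : HahnSeries ℚ Ω} (hz' : z' ≠ 0)
    (h : rv z = rv z') : z.orderTop = (z'.order : WithTop ℚ) := by
  have h1 : z.leadingCoeff = z'.leadingCoeff := congrArg Prod.fst h
  have h2 : z.order = z'.order := congrArg Prod.snd h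
  have hz : z ≠ 0 := by
    rintro rfl
    rw [HahnSeries.leadingCoeff_zero] at h1
    exact hz' (HahnSeries.leadingCoeff_eq_zero.1 h1.symm)
  rw [← HahnSeries.order_eq_orderTop_of_ne_zero hz, h2]

theorem k2_orderTop_sub_comm {Ω : Type*} [Field Ω] (a b : HahnSeries ℚ Ω) :
    (a - b).orderTop = (b - a).orderTop := by
  rw [← neg_sub, HahnSeries.orderTop_neg]

/-- a factor -/
theorem k2_factor {Ω : Type*} [Field Ω] (u v : HahnSeries ℚ Ω) (g e : ℚ)
    (hv : v.orderTop = ((g + e : ℚ) : WithTop ℚ)) (he : 0 < e) :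
    (((g + e : ℚ) : WithTop ℚ) < u.orderTop → (u - v).order = g + e) ∧
      (u.orderTop ≤ (g : WithTop ℚ) → (u - v).order = u.order) := by
  constructor
  · intro h
    refine k2_order_of_orderTop ?_
    rw [sub_eq_add_neg, HahnSeries.orderTop_add_eq_right (by rwa [HahnSeries.orderTop_neg, hv]),
      HahnSeries.orderTop_neg, hv]
  · intro h
    have h1 : u.orderTop < v.orderTop := by
      rw [hv]
      refine h.trans_lt ?_
      rw [WithTop.coe_lt_coe]
      linarith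
    have hu : u ≠ 0 := by
      rintro rfl
      rw [HahnSeries.orderTop_zero, top_le_iff] at h
      exact WithTop.coe_ne_top h
    refine k2_order_of_orderTop ?_
    rw [sub_eq_add_neg, HahnSeries.orderTop_add_eq_left (by rwa [HahnSeries.orderTop_neg]),
      HahnSeries.order_eq_orderTop_of_ne_zero hu]

open Classical in
/-- (COUNT) Number of roots of `p(X) = B(X) q(X,y)` in the open disc `{v(X - ψ x) > r}`, which contains no root of the
`φ(b)`, `b ∈ P`.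

Proof. `slope` for `p` at `x₀ = ψ x`, `r`, and `slope` for `B.map φ` (no root of `B` in the disc by `hB` and `hr`, so slope
`0`). For small `ε > 0` choose by `htr` an `x' ` with `v(x' - x₀) = r + ε` and `TrO φ x'` (take
`htr` around `x₀ + single (r+ε) 1` with a larger radius). `exists_coh` gives `ψ'` over `x'`; by `branch_nice` (for `ψ, ψ'`;
`DiscHyp` from `hr`): `v(ψ' ρ - ψ ρ) = ν_ρ + r + ε` if `d ρ ≠ 0`, `ψ' ρ = ψ ρ` if `d ρ = 0`. Hence
`v(y - ψ' ρ) = ν_ρ + r + ε` if `d ρ ≠ 0` and `r + ν_ρ < v(y - ψ ρ)` (for `ε` small), and `= v(y - ψ ρ)` (a constant, finite)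
otherwise (`y ≠ ψ ρ` if `d ρ = 0` because `ψ ρ` is then algebraic over `φ(E)`: `ρ` is algebraic over `E` as `d ρ = 0`... use instead:
if `y = ψ ρ` and `d ρ = 0` then `ψ' ρ = ψ ρ = y` for all coherent `ψ'`, so `p(x') = 0` for infinitely many `x'` (one for every small
`ε`), contradicting `p ≠ 0`). So `v(p(x')) = v(B(x')) + ∑_ρ v(y - ψ' ρ) = const + #{..} ε` for all small `ε`; compare with
`slope` for two different `ε`. -/
theorem count (h : BrHyp x q T d S P) (ψ : N →+* HahnSeries ℚ Ω) (y : HahnSeries ℚ Ω)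
    (B : Polynomial E) (p : Polynomial (HahnSeries ℚ Ω)) (hp : p ≠ 0) (hB0 : B ≠ 0)
    (hB : ∀ r ∈ (B.map (ψ.comp (algebraMap E N))).roots,
      ∃ b ∈ P, r ∈ (b.map (ψ.comp (algebraMap E N))).roots)
    (hpB : ∀ ψ' : N →+* HahnSeries ℚ Ω, ψ'.comp (algebraMap E N) = ψ.comp (algebraMap E N) →
      p.eval (ψ' (algebraMap M N x)) =
        B.eval₂ (ψ.comp (algebraMap E N)) (ψ' (algebraMap M N x)) * ∏ ρ ∈ T, (y - ψ' ρ))
    (htr : ∀ (z : HahnSeries ℚ Ω) (s : ℚ), ∃ x' : HahnSeries ℚ Ω,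
      (s : WithTop ℚ) < (x' - z).orderTop ∧ TrO (ψ.comp (algebraMap E N)) x')
    (r : ℚ) (hr : ∀ b ∈ P, ∀ a ∈ (b.map (ψ.comp (algebraMap E N))).roots,
      (ψ (algebraMap M N x) - a).orderTop ≤ (r : WithTop ℚ)) :
    Multiset.card (p.roots.filter
        (fun a => (r : WithTop ℚ) < (a - ψ (algebraMap M N x)).orderTop)) =
      (T.filter (fun ρ => d ρ ≠ 0 ∧
        ((r + (ψ (d ρ)).order : ℚ) : WithTop ℚ) < (y - ψ ρ).orderTop)).card := by
  set φ := ψ.comp (algebraMap E N) with hφ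
  set x₀ := ψ (algebraMap M N x) with hx₀
  obtain ⟨e₀, he₀, c₀, hs₀⟩ := slope p hp x₀ r
  have hBφ : B.map φ ≠ 0 := by
    rwa [Ne, Polynomial.map_eq_zero]
  obtain ⟨e₁, he₁, c₁, hs₁⟩ := slope (B.map φ) hBφ x₀ r
  have hm₁ : Multiset.card ((B.map φ).roots.filter
      (fun a => (r : WithTop ℚ) < (a - x₀).orderTop)) = 0 := by
    rw [Multiset.card_eq_zero, Multiset.filter_eq_nil]
    intro a ha
    obtain ⟨b, hb, hab⟩ := hB a ha
    rw [not_lt, k2_orderTop_sub_comm]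
    exact hr b hb a hab
  set m := Multiset.card (p.roots.filter (fun a => (r : WithTop ℚ) < (a - x₀).orderTop)) with hm
  let χ : N → Prop := fun ρ => d ρ ≠ 0 ∧
    ((r + (ψ (d ρ)).order : ℚ) : WithTop ℚ) < (y - ψ ρ).orderTop
  let A : N → ℚ := fun ρ => if χ ρ then r + (ψ (d ρ)).order else (y - ψ ρ).order
  -- the factors
  obtain ⟨e₂, he₂, hs₂⟩ := k2_small T (fun ρ ε => ∀ v : HahnSeries ℚ Ω,
    (d ρ = 0 → v = 0) → (d ρ ≠ 0 → v.orderTop = ((r + (ψ (d ρ)).order + ε : ℚ) : WithTop ℚ)) →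
      (y - ψ ρ - v).order = A ρ + if χ ρ then ε else 0) (by
    intro ρ _
    by_cases hχ : χ ρ
    · obtain ⟨δ, hδ, hδ'⟩ : ∃ δ : ℚ, 0 < δ ∧ ∀ ε, 0 < ε → ε < δ →
          ((r + (ψ (d ρ)).order + ε : ℚ) : WithTop ℚ) < (y - ψ ρ).orderTop := by
        have h1 := hχ.2
        rcases eq_or_ne (y - ψ ρ).orderTop ⊤ with ht | ht
        · exact ⟨1, one_pos, fun ε _ _ => by rw [ht]; exact WithTop.coe_lt_top _⟩
        · obtain ⟨g, hg⟩ := WithTop.ne_top_iff_exists.1 ht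
          rw [← hg, WithTop.coe_lt_coe] at h1
          refine ⟨g - (r + (ψ (d ρ)).order), sub_pos.2 h1, fun ε _ hε => ?_⟩
          rw [← hg, WithTop.coe_lt_coe]
          linarith
      refine ⟨δ, hδ, fun ε h0 hε v _ hv => ?_⟩
      simp only [A, if_pos hχ]
      exact (k2_factor _ v _ ε (hv hχ.1) h0).1 (hδ' ε h0 hε)
    · refine ⟨1, one_pos, fun ε h0 _ v hv0 hv => ?_⟩
      simp only [A, if_neg hχ, add_zero]
      by_cases hd : d ρ = 0
      · rw [hv0 hd, sub_zero]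
      · have h1 : ¬ ((r + (ψ (d ρ)).order : ℚ) : WithTop ℚ) < (y - ψ ρ).orderTop :=
          fun h2 => hχ ⟨hd, h2⟩
        exact (k2_factor _ v _ ε (hv hd) h0).2 (not_lt.1 h1))
  -- the comparison for small `ε`
  have key : ∀ ε : ℚ, 0 < ε → ε < e₀ → ε < e₁ → ε < e₂ →
      c₀ + (m : ℚ) * ε = c₁ + ∑ ρ ∈ T, A ρ + ((T.filter χ).card : ℚ) * ε := by
    intro ε h0 hε₀ hε₁ hε₂
    obtain ⟨x', hx', htx⟩ := htr (x₀ + HahnSeries.single (r + ε) 1) (r + ε)
    have hxx : (x' - x₀).orderTop = ((r + ε : ℚ) : WithTop ℚ) := by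
      have h1 : x' - x₀ = (x' - (x₀ + HahnSeries.single (r + ε) 1)) +
          HahnSeries.single (r + ε) (1 : Ω) := by ring
      have h2 : (HahnSeries.single (r + ε) (1 : Ω)).orderTop = ((r + ε : ℚ) : WithTop ℚ) :=
        HahnSeries.orderTop_single one_ne_zero
      rw [h1, HahnSeries.orderTop_add_eq_right (by rw [h2]; exact hx'), h2]
    have hlt : ∀ b ∈ P, ∀ a ∈ (b.map φ).roots, (x₀ - a).orderTop < (x' - x₀).orderTop := by
      intro b hb a ha
      refine (hr b hb a ha).trans_lt ?_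
      rw [hxx, WithTop.coe_lt_coe]
      linarith
    obtain ⟨ψ', hψ'φ, hψ'x, hψ'S⟩ := exists_coh h ψ x' htx hlt
    have hne : x₀ ≠ x' := by
      rintro h1
      rw [h1, sub_self, HahnSeries.orderTop_zero] at hxx
      exact WithTop.coe_ne_top hxx.symm
    have hnice := branch_nice h ψ ψ' hψ'φ hψ'S ⟨by rw [hψ'x]; exact hne, by
      rw [hψ'x]; exact hlt⟩
    have hval := hpB ψ' hψ'φ
    rw [hψ'x] at hval
    obtain ⟨hp0, hpo⟩ := hs₀ ε h0 hε₀ x' hxx
    obtain ⟨hb0, hbo⟩ := hs₁ ε h0 hε₁ x' hxx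
    rw [hm₁, Nat.cast_zero, zero_mul, add_zero] at hbo
    rw [hval] at hp0 hpo
    have hprod := right_ne_zero_of_mul hp0
    rw [HahnSeries.order_mul (left_ne_zero_of_mul hp0) hprod] at hpo
    rw [k2_order_prod T _ (Finset.prod_ne_zero_iff.1 hprod), ← Polynomial.eval_map, hbo] at hpo
    have hterm : ∀ ρ ∈ T, (y - ψ' ρ).order = A ρ + if χ ρ then ε else 0 := by
      intro ρ hρ
      have h1 : y - ψ' ρ = y - ψ ρ - (ψ' ρ - ψ ρ) := by ring
      rw [h1]
      refine hs₂ ε h0 hε₂ ρ hρ (ψ' ρ - ψ ρ) ?_ ?_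
      · intro hd
        rw [(hnice ρ hρ).1 hd, sub_self]
      · intro hd
        have h2 := (hnice ρ hρ).2 hd
        have h3 : ψ (d ρ) ≠ 0 := by
          rwa [Ne, map_eq_zero]
        have h4 : ψ' (algebraMap M N x) - x₀ ≠ 0 := by
          rw [hψ'x]
          exact sub_ne_zero.2 hne.symm
        rw [k2_orderTop_of_rv (mul_ne_zero h3 h4) h2, HahnSeries.order_mul h3 h4, hψ'x,
          k2_order_of_orderTop hxx]
        congr 1
        ring
    have h5 : ∑ ρ ∈ T, (if χ ρ then ε else 0) = ((T.filter χ).card : ℚ) * ε := by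
      rw [← Finset.sum_filter, Finset.sum_const, nsmul_eq_mul]
    rw [Finset.sum_congr rfl hterm, Finset.sum_add_distrib, h5] at hpo
    rw [← hpo]
    ring
  have hmin : 0 < min e₀ (min e₁ e₂) := lt_min he₀ (lt_min he₁ he₂)
  have hk : ∀ ε : ℚ, 0 < ε → ε < min e₀ (min e₁ e₂) →
      c₀ + (m : ℚ) * ε = c₁ + ∑ ρ ∈ T, A ρ + ((T.filter χ).card : ℚ) * ε := fun ε h0 hε =>
    key ε h0 (hε.trans_le (min_le_left _ _))
      (hε.trans_le ((min_le_right _ _).trans (min_le_left _ _)))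
      (hε.trans_le ((min_le_right _ _).trans (min_le_right _ _)))
  have k1 := hk (min e₀ (min e₁ e₂) / 2) (by positivity) (by linarith)
  have k2 := hk (min e₀ (min e₁ e₂) / 4) (by positivity) (by linarith)
  have k3 : (m : ℚ) = ((T.filter χ).card : ℚ) := by
    have h4 : ((m : ℚ) - ((T.filter χ).card : ℚ)) * (min e₀ (min e₁ e₂) / 4) = 0 := by
      linear_combination k1 - k2
    rcases mul_eq_zero.1 h4 with h5 | h5
    · linarith
    · exact absurd h5 (by positivity)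
  exact_mod_cast k3

omit [CharZero Ω] [IsAlgClosed Ω] in
private theorem k2b_comm (a b : HahnSeries ℚ Ω) : (a - b).orderTop = (b - a).orderTop := by
  rw [← neg_sub b a, HahnSeries.orderTop_neg]

omit [CharZero Ω] [IsAlgClosed Ω] in
private theorem k2b_add (a b c : HahnSeries ℚ Ω) (h : (b - c).orderTop < (a - b).orderTop) :
    (a - c).orderTop = (b - c).orderTop := by
  have h1 : a - c = (b - c) + (a - b) := by ring
  rw [h1, HahnSeries.orderTop_add_eq_left h]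

omit [CharZero Ω] [IsAlgClosed Ω] in
private theorem k2b_lt (a b c : HahnSeries ℚ Ω) (r : WithTop ℚ) (h1 : r < (a - c).orderTop)
    (h2 : r < (b - c).orderTop) : r < (b - a).orderTop := by
  have h3 : b - a = (b - c) + (c - a) := by ring
  rw [h3]
  refine lt_of_lt_of_le (lt_min h2 ?_) HahnSeries.min_orderTop_le_orderTop_add
  rw [k2b_comm c a]
  exact h1

/-- the count at a root -/
private theorem k2b_mult (h : BrHyp x q T d S P) (ψ : N →+* HahnSeries ℚ Ω) (y : HahnSeries ℚ Ω)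
    (B : Polynomial E) (p : Polynomial (HahnSeries ℚ Ω)) (hp : p ≠ 0) (hB0 : B ≠ 0)
    (hB : ∀ r ∈ (B.map (ψ.comp (algebraMap E N))).roots,
      ∃ b ∈ P, r ∈ (b.map (ψ.comp (algebraMap E N))).roots)
    (hpB : ∀ ψ' : N →+* HahnSeries ℚ Ω, ψ'.comp (algebraMap E N) = ψ.comp (algebraMap E N) →
      p.eval (ψ' (algebraMap M N x)) =
        B.eval₂ (ψ.comp (algebraMap E N)) (ψ' (algebraMap M N x)) * ∏ ρ ∈ T, (y - ψ' ρ))
    (htr : ∀ (z : HahnSeries ℚ Ω) (s : ℚ), ∃ x' : HahnSeries ℚ Ω,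
      (s : WithTop ℚ) < (x' - z).orderTop ∧ TrO (ψ.comp (algebraMap E N)) x')
    (r : ℚ) (hr : ∀ b ∈ P, ∀ a ∈ (b.map (ψ.comp (algebraMap E N))).roots,
      (ψ (algebraMap M N x) - a).orderTop ≤ (r : WithTop ℚ)) [DecidableEq (HahnSeries ℚ Ω)]
    (D : Finset N) (hD : ∀ ρ, ρ ∈ D ↔ ρ ∈ T ∧ d ρ ≠ 0 ∧ ψ ρ = y) :
    p.roots.count (ψ (algebraMap M N x)) = D.card := by
  classical
  obtain ⟨R, hR⟩ := (insert r (p.roots.toFinset.image
    (fun b => (b - ψ (algebraMap M N x)).order) ∪ T.image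
      (fun ρ => (y - ψ ρ).order - (ψ (d ρ)).order))).bddAbove
  have hR1 : r ≤ R := hR (by simp)
  have hR2 : ∀ b ∈ p.roots, (b - ψ (algebraMap M N x)).order ≤ R := fun b hb => hR (by
    rw [Finset.coe_insert]
    refine Or.inr ?_
    rw [Finset.mem_coe, Finset.mem_union]
    exact Or.inl (Finset.mem_image_of_mem _ (Multiset.mem_toFinset.2 hb)))
  have hR3 : ∀ ρ ∈ T, (y - ψ ρ).order - (ψ (d ρ)).order ≤ R := fun ρ hρ => hR (by
    rw [Finset.coe_insert]
    refine Or.inr ?_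
    rw [Finset.mem_coe, Finset.mem_union]
    exact Or.inr (Finset.mem_image_of_mem _ hρ))
  have hc := count h ψ y B p hp hB0 hB hpB htr R (fun b hb a ha => (hr b hb a ha).trans (by
    exact_mod_cast hR1))
  have h1 : Multiset.card (p.roots.filter
        (fun a => (R : WithTop ℚ) < (a - ψ (algebraMap M N x)).orderTop)) =
      p.roots.count (ψ (algebraMap M N x)) := by
    rw [Multiset.count_eq_card_filter_eq]
    congr 1
    refine Multiset.filter_congr fun b hb => ?_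
    constructor
    · intro hlt
      by_contra hne
      have h2 : b - ψ (algebraMap M N x) ≠ 0 := fun h0 => hne (sub_eq_zero.1 h0).symm
      rw [← HahnSeries.order_eq_orderTop_of_ne_zero h2] at hlt
      exact absurd (hR2 b hb) (not_le.2 (by exact_mod_cast hlt))
    · rintro rfl
      rw [sub_self, HahnSeries.orderTop_zero]
      exact WithTop.coe_lt_top _
  have h2 : T.filter (fun ρ => d ρ ≠ 0 ∧
        ((R + (ψ (d ρ)).order : ℚ) : WithTop ℚ) < (y - ψ ρ).orderTop) = D := by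
    ext ρ
    rw [Finset.mem_filter, hD]
    constructor
    · rintro ⟨hρ, hd, hlt⟩
      refine ⟨hρ, hd, ?_⟩
      by_contra hne
      have h3 : y - ψ ρ ≠ 0 := fun h0 => hne (sub_eq_zero.1 h0).symm
      rw [← HahnSeries.order_eq_orderTop_of_ne_zero h3] at hlt
      have h4 := hR3 ρ hρ
      have h5 : R + (ψ (d ρ)).order < (y - ψ ρ).order := by exact_mod_cast hlt
      linarith
    · rintro ⟨hρ, hd, he⟩
      refine ⟨hρ, hd, ?_⟩
      rw [he, sub_self, HahnSeries.orderTop_zero]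
      exact WithTop.coe_lt_top _
  rw [← h1, ← h2]
  convert hc

/-- LEMMA 6.2 (balls onto balls). Proof. `B, p` from `exists_pxy` (`φ = ψ₁ ∘ (E → N)`), `x₀ = ψ₁ x`. Let `x_a` run over the
distinct roots of `p` in the disc `{v(X - x₀) > r}`. By the last clause of `exists_pxy`, `TrO φ x_a` (the disc contains no
root of the `φ(b)` by `hr`). `exists_coh`: `ψ_a` over `x_a` with the same `rv` on `S` (if `x_a = x₀` take
`ψ_a = ψ₁`). `p(x_a) = 0` and `B(x_a) ≠ 0` give `T_a := {ρ ∈ T : ψ_a ρ = y} ≠ ∅`.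
(1) `count` for `ψ_a` and a very large radius `r_a` (larger than `v(x_b - x_a)` for all other roots `x_b` and than
`v(y - ψ_a ρ) - ν_ρ` for `ρ ∉ T_a`, `d ρ ≠ 0`): the multiplicity of `x_a` in `p` equals `#{ρ ∈ T_a : d ρ ≠ 0}`
(`v(0) = ⊤`). (2) The sets `T_a' = {ρ ∈ T_a : d ρ ≠ 0}` are pairwise disjoint (`branch_nice` for `ψ_a, ψ_b`: if `d ρ ≠ 0` and
`x_a ≠ x_b` then `ψ_a ρ ≠ ψ_b ρ`) and contained in `BB := {ρ ∈ T : d ρ ≠ 0, r + ν_ρ < v(y - ψ₁ ρ)}` (`branch_nice` for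
`ψ₁, ψ_a`; for `x_a = x₀`: `ψ₁ ρ = y`). (3) `count` for `ψ₁` and `r`: `|BB| = ∑_a mult(x_a) = ∑_a |T_a'|`. So the `T_a'` cover
`BB`, which contains `ρ₀`: `ψ_a ρ₀ = y` for some `a`; `ψ₂ = ψ_a`. -/
theorem branch_surj (h : BrHyp x q T d S P) (ψ₁ : N →+* HahnSeries ℚ Ω) (y : HahnSeries ℚ Ω)
    (hy : TrO (ψ₁.comp (algebraMap E N)) y)
    (htr : ∀ (z : HahnSeries ℚ Ω) (s : ℚ), ∃ x' : HahnSeries ℚ Ω,
      (s : WithTop ℚ) < (x' - z).orderTop ∧ TrO (ψ₁.comp (algebraMap E N)) x')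
    (r : ℚ) (hr : ∀ b ∈ P, ∀ a ∈ (b.map (ψ₁.comp (algebraMap E N))).roots,
      (ψ₁ (algebraMap M N x) - a).orderTop ≤ (r : WithTop ℚ))
    (ρ₀ : N) (hρ₀ : ρ₀ ∈ T) (hd : d ρ₀ ≠ 0)
    (hyr : ((r + (ψ₁ (d ρ₀)).order : ℚ) : WithTop ℚ) < (y - ψ₁ ρ₀).orderTop) :
    ∃ ψ₂ : N →+* HahnSeries ℚ Ω, ψ₂.comp (algebraMap E N) = ψ₁.comp (algebraMap E N) ∧
      (∀ s ∈ S, rv (ψ₂ s) = rv (ψ₁ s)) ∧
      (r : WithTop ℚ) < (ψ₂ (algebraMap M N x) - ψ₁ (algebraMap M N x)).orderTop ∧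
      ψ₂ ρ₀ = y := by
  classical
  obtain ⟨φ, hφ⟩ : ∃ φ : E →+* HahnSeries ℚ Ω, ψ₁.comp (algebraMap E N) = φ := ⟨_, rfl⟩
  obtain ⟨x₀, hx₀⟩ : ∃ x₀ : HahnSeries ℚ Ω, ψ₁ (algebraMap M N x) = x₀ := ⟨_, rfl⟩
  obtain ⟨B, p, hp, hB0, hBr, hpB, hpt⟩ := exists_pxy h (ψ₁.comp (algebraMap E N)) y hy
  have hcount := count h ψ₁ y B p hp hB0 hBr hpB htr r hr
  rw [hφ] at hy hBr hpB hpt htr hr ⊢
  rw [hx₀] at hr hcount ⊢
  have hφinj : Function.Injective φ := φ.injective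
  -- no root of the `φ(b)` in the disc
  have hno : ∀ a : HahnSeries ℚ Ω, (r : WithTop ℚ) < (a - x₀).orderTop → ∀ b ∈ P,
      b.eval₂ φ a ≠ 0 := by
    intro a ha b hb h0
    have h1 : a ∈ (b.map φ).roots := by
      rw [mem_roots ((Polynomial.map_ne_zero_iff hφinj).2 (h.P_ne b hb)), IsRoot.def, eval_map]
      exact h0
    have h2 := hr b hb a h1
    rw [k2b_comm] at h2
    exact absurd h2 (not_le.2 ha)
  -- roots of `φ(b)` seen from the other points of the disc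
  have hmove : ∀ a : HahnSeries ℚ Ω, (r : WithTop ℚ) < (a - x₀).orderTop → ∀ b ∈ P,
      ∀ c ∈ (b.map φ).roots, (a - c).orderTop ≤ (r : WithTop ℚ) := by
    intro a ha b hb c hc
    rw [k2b_add a x₀ c (lt_of_le_of_lt (hr b hb c hc) ha)]
    exact hr b hb c hc
  obtain ⟨A, hA⟩ : ∃ A : Multiset (HahnSeries ℚ Ω), A = p.roots.filter
    (fun a => (r : WithTop ℚ) < (a - x₀).orderTop) := ⟨_, rfl⟩
  have hA1 : ∀ a, a ∈ A → a ∈ p.roots ∧ (r : WithTop ℚ) < (a - x₀).orderTop := by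
    intro a ha
    rw [hA, Multiset.mem_filter] at ha
    exact ha
  have hψ : ∀ a : HahnSeries ℚ Ω, ∃ ψ : N →+* HahnSeries ℚ Ω, a ∈ A →
      ψ.comp (algebraMap E N) = φ ∧ ψ (algebraMap M N x) = a ∧ (∀ s ∈ S, rv (ψ s) = rv (ψ₁ s)) ∧
      (a = x₀ → ψ = ψ₁) := by
    intro a
    by_cases ha : a ∈ A
    · by_cases hax : a = x₀
      · exact ⟨ψ₁, fun _ => ⟨hφ, hx₀.trans hax.symm, fun _ _ => rfl, fun _ => rfl⟩⟩
      · obtain ⟨hroot, hlt⟩ := hA1 a ha
        have htrO : TrO φ a := by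
          by_contra hn
          exact hpt a hn (hno a hlt) (isRoot_of_mem_roots hroot)
        obtain ⟨ψ, e1, e2, e3⟩ := exists_coh h ψ₁ a (by rw [hφ]; exact htrO) (by
          rw [hφ, hx₀]
          exact fun b hb c hc => lt_of_le_of_lt (hr b hb c hc) hlt)
        exact ⟨ψ, fun _ => ⟨e1.trans hφ, e2, e3, fun h0 => absurd h0 hax⟩⟩
    · exact ⟨ψ₁, fun h0 => absurd h0 ha⟩
  choose ψ hψ using hψ
  -- the sets `T_a`
  obtain ⟨D, hD⟩ : ∃ D : HahnSeries ℚ Ω → Finset N, ∀ a ρ, ρ ∈ D a ↔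
      ρ ∈ T ∧ d ρ ≠ 0 ∧ ψ a ρ = y :=
    ⟨fun a => T.filter fun ρ => d ρ ≠ 0 ∧ ψ a ρ = y, fun a ρ => Finset.mem_filter⟩
  have hmult : ∀ a ∈ A.toFinset, A.count a = (D a).card := by
    intro a ha
    rw [Multiset.mem_toFinset] at ha
    obtain ⟨e1, e2, e3, -⟩ := hψ a ha
    obtain ⟨hroot, hlt⟩ := hA1 a ha
    have h1 := k2b_mult h (ψ a) y B p hp hB0 (by rw [e1]; exact hBr) (by rw [e1]; exact hpB)
      (by rw [e1]; exact htr) r (by rw [e1, e2]; exact hmove a hlt) (D a) (hD a)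
    rw [e2] at h1
    rw [← h1, hA]
    exact Multiset.count_filter_of_pos (p := fun a => (r : WithTop ℚ) < (a - x₀).orderTop) hlt
  have hdisj : ∀ a ∈ A.toFinset, ∀ b ∈ A.toFinset, a ≠ b → Disjoint (D a) (D b) := by
    intro a ha b hb hab
    rw [Multiset.mem_toFinset] at ha hb
    rw [Finset.disjoint_left]
    intro ρ hρa hρb
    rw [hD] at hρa hρb
    obtain ⟨e1, e2, e3, -⟩ := hψ a ha
    obtain ⟨f1, f2, f3, -⟩ := hψ b hb
    have hlt : (r : WithTop ℚ) < (b - a).orderTop := k2b_lt a b x₀ r (hA1 a ha).2 (hA1 b hb).2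
    have h1 := (branch_nice h (ψ a) (ψ b) (f1.trans e1.symm) (fun s hs => (f3 s hs).trans
      (e3 s hs).symm) (by
        rw [e1, e2, f2]
        exact ⟨hab, fun c hc c' hc' => lt_of_le_of_lt (hmove a (hA1 a ha).2 c hc c' hc') hlt⟩)
        ρ hρa.1).2 hρa.2.1
    rw [hρa.2.2, hρb.2.2, sub_self, e2, f2] at h1
    have h2 := congrArg Prod.fst h1
    have h3 : (ψ a (d ρ) * (b - a)).leadingCoeff = 0 := by
      have h4 : (0 : HahnSeries ℚ Ω).leadingCoeff = (ψ a (d ρ) * (b - a)).leadingCoeff := h2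
      rw [← h4, HahnSeries.leadingCoeff_zero]
    rw [HahnSeries.leadingCoeff_eq_zero, mul_eq_zero] at h3
    rcases h3 with h3 | h3
    · exact hρa.2.1 ((map_eq_zero (ψ a)).1 h3)
    · exact hab (sub_eq_zero.1 h3).symm
  have hsub : A.toFinset.biUnion D ⊆ T.filter (fun ρ => d ρ ≠ 0 ∧
        ((r + (ψ₁ (d ρ)).order : ℚ) : WithTop ℚ) < (y - ψ₁ ρ).orderTop) := by
    intro ρ hρ
    obtain ⟨a, ha, hρa⟩ := Finset.mem_biUnion.1 hρ
    rw [Multiset.mem_toFinset] at ha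
    rw [hD] at hρa
    refine Finset.mem_filter.2 ⟨hρa.1, hρa.2.1, ?_⟩
    obtain ⟨e1, e2, e3, e4⟩ := hψ a ha
    by_cases hax : a = x₀
    · rw [← e4 hax, hρa.2.2, sub_self, HahnSeries.orderTop_zero]
      exact WithTop.coe_lt_top _
    · have hlt := (hA1 a ha).2
      have h1 := (branch_nice h ψ₁ (ψ a) (e1.trans hφ.symm) e3 (by
        rw [hφ, hx₀, e2]
        exact ⟨fun h0 => hax h0.symm, fun c hc c' hc' => lt_of_le_of_lt (hr c hc c' hc') hlt⟩)
        ρ hρa.1).2 hρa.2.1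
      rw [hρa.2.2, e2, hx₀] at h1
      have h2 : ψ₁ (d ρ) ≠ 0 := (map_ne_zero ψ₁).2 hρa.2.1
      have h3 : a - x₀ ≠ 0 := sub_ne_zero.2 hax
      have h4 : (y - ψ₁ ρ).leadingCoeff = (ψ₁ (d ρ) * (a - x₀)).leadingCoeff :=
        congrArg Prod.fst h1
      have h5 : (y - ψ₁ ρ).order = (ψ₁ (d ρ) * (a - x₀)).order := congrArg Prod.snd h1
      have h6 : y - ψ₁ ρ ≠ 0 := by
        intro h0
        rw [h0, HahnSeries.leadingCoeff_zero] at h4
        exact mul_ne_zero h2 h3 (HahnSeries.leadingCoeff_eq_zero.1 h4.symm)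
      rw [← HahnSeries.order_eq_orderTop_of_ne_zero h6, h5, HahnSeries.order_mul h2 h3]
      rw [← HahnSeries.order_eq_orderTop_of_ne_zero h3] at hlt
      have h7 : r < (a - x₀).order := by exact_mod_cast hlt
      have h8 : r + (ψ₁ (d ρ)).order < (ψ₁ (d ρ)).order + (a - x₀).order := by linarith
      exact_mod_cast h8
  have hcard : (A.toFinset.biUnion D).card = Multiset.card A := by
    rw [Finset.card_biUnion hdisj, ← Multiset.toFinset_sum_count_eq A]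
    exact Finset.sum_congr rfl fun a ha => (hmult a ha).symm
  have heq : A.toFinset.biUnion D = T.filter (fun ρ => d ρ ≠ 0 ∧
        ((r + (ψ₁ (d ρ)).order : ℚ) : WithTop ℚ) < (y - ψ₁ ρ).orderTop) := by
    refine Finset.eq_of_subset_of_card_le hsub ?_
    rw [hcard, hA]
    apply le_of_eq
    convert hcount.symm
  have hmem : ρ₀ ∈ A.toFinset.biUnion D := by
    rw [heq]
    exact Finset.mem_filter.2 ⟨hρ₀, hd, hyr⟩
  obtain ⟨a, ha, hρa⟩ := Finset.mem_biUnion.1 hmem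
  rw [Multiset.mem_toFinset] at ha
  rw [hD] at hρa
  obtain ⟨e1, e2, e3, -⟩ := hψ a ha
  exact ⟨ψ a, e1, e3, by rw [e2]; exact (hA1 a ha).2, hρa.2.2⟩

end

end KTS

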