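import Pool.Agent.KTS.UB
import Pool.Agent.KTS.HB1

/-!
[KTS] Block U5: existence of uniform towers, quotients of coordinates.
-/

set_option autoImplicit false
set_option linter.unusedSectionVars false

namespace KTS

noncomputable section

universe u v w

open Polynomial Cardinal

section UE

variable {k Ω F : Type u} [Field k] [IsAlgClosed k] [CharZero k] [Field Ω] [IsAlgClosed Ω]
  [CharZero Ω] [Algebra k Ω] [Field F] [Algebra (HahnSeries ℚ k) F]

variable {x : ℕ → F} {N : ℕ} {P : ℕ → Finset F[X]}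

/-! ### closure under derivatives -/

open Classical in
/-- The non-zero iterated derivatives of the elements of `B`. -/
def dclos (B : Finset F[X]) : Finset F[X] :=
  (B.biUnion fun g => (Finset.range (g.natDegree + 1)).image fun n => derivative^[n] g).filter
    fun g => g ≠ 0

omit [IsAlgClosed k] [CharZero k] [Algebra (HahnSeries ℚ k) F] in
theorem mem_dclos {B : Finset F[X]} {g : F[X]} :
    g ∈ dclos B ↔ g ≠ 0 ∧ ∃ h ∈ B, ∃ n, derivative^[n] h = g := by
  classical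
  unfold dclos
  rw [Finset.mem_filter, Finset.mem_biUnion, and_comm]
  refine and_congr_right fun h0 => ?_
  constructor
  · rintro ⟨h, hh, hg⟩
    obtain ⟨n, -, hn⟩ := Finset.mem_image.1 hg
    exact ⟨h, hh, n, hn⟩
  · rintro ⟨h, hh, n, hn⟩
    refine ⟨h, hh, Finset.mem_image.2 ⟨n, ?_, hn⟩⟩
    rw [Finset.mem_range]
    by_contra hlt
    rw [iterate_derivative_eq_zero (by omega)] at hn
    exact h0 hn.symm

theorem subset_dclos {B : Finset F[X]} (hB : ∀ g ∈ B, g ≠ 0) : B ⊆ dclos B := fun g hg =>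
  mem_dclos.2 ⟨hB g hg, g, hg, 0, rfl⟩

theorem dclos_der {B : Finset F[X]} {g : F[X]} (hg : g ∈ dclos B) (h : derivative g ≠ 0) :
    derivative g ∈ dclos B := by
  obtain ⟨-, f, hf, n, hn⟩ := mem_dclos.1 hg
  refine mem_dclos.2 ⟨h, f, hf, n + 1, ?_⟩
  rw [Function.iterate_succ_apply', hn]

theorem dclos_coeff {E : IntermediateField (HahnSeries ℚ k) F} {B : Finset F[X]}
    (hB : ∀ g ∈ B, ∀ n, g.coeff n ∈ E) {g : F[X]} (hg : g ∈ dclos B) (m : ℕ) :
    g.coeff m ∈ E := by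
  obtain ⟨-, f, hf, n, rfl⟩ := mem_dclos.1 hg
  clear hg
  induction n generalizing m with
  | zero => exact hB f hf m
  | succ n ih =>
    rw [Function.iterate_succ_apply', coeff_derivative]
    exact E.mul_mem (ih _) (E.add_mem (natCast_mem E m) E.one_mem)

/-! ### existence -/

variable (k Ω) in
/-- The conditions on the level `i` which involve only the levels `≥ i`. -/
structure GoodL (x : ℕ → F) (N : ℕ) (Add : ℕ → (ℕ → Finset F[X]) → Finset F[X])
    (P : ℕ → Finset F[X]) (i : ℕ) : Prop where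
  coeff : ∀ g ∈ P i, ∀ n, g.coeff n ∈ lev k x i
  ne : ∀ g ∈ P i, g ≠ 0
  X_mem : X ∈ P i
  der : ∀ g ∈ P i, derivative g ≠ 0 → derivative g ∈ P i
  min : IsAlgebraic (lev k x i) (x i) →
    (minpoly (lev k x i) (x i)).map (algebraMap (lev k x i) F) ∈ P i
  add : Add i P ⊆ P i
  link : i + 1 < N → ∀ φ ψ : Pt k Ω F,
    (∀ g ∈ P i, rv (φ (g.eval (x i))) = rv (ψ (g.eval (x i)))) →
      ∃ β, RIso (qf (P (i + 1)) φ) (qf (P (i + 1)) ψ) β

/-- A finite set of non-zero polynomials over the level `i` in which all elements of a finite subset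
of the next level are quotients. -/
theorem exists_numden (x : ℕ → F) (i : ℕ) (C : Finset F)
    (hC : ∀ c ∈ C, c ∈ lev k x (i + 1) ∧ c ≠ 0) :
    ∃ B : Finset F[X], (∀ g ∈ B, g ≠ 0 ∧ ∀ n, g.coeff n ∈ lev k x i) ∧
      ∀ c ∈ C, ∃ g ∈ B, ∃ h ∈ B, g.eval (x i) ≠ 0 ∧ h.eval (x i) ≠ 0 ∧
        c = g.eval (x i) / h.eval (x i) := by
  classical
  have h1 : ∀ c : {c // c ∈ C}, ∃ g h : F[X], (∀ n, g.coeff n ∈ lev k x i) ∧
      (∀ n, h.coeff n ∈ lev k x i) ∧ h.eval (x i) ≠ 0 ∧ c.1 = g.eval (x i) / h.eval (x i) :=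
    fun c => mem_lev_succ (hC c.1 c.2).1
  choose g h hg hh h0 he using h1
  have g0 : ∀ c, (g c).eval (x i) ≠ 0 := by
    intro c q
    have h2 := he c
    rw [q, zero_div] at h2
    exact (hC c.1 c.2).2 h2
  refine ⟨C.attach.image g ∪ C.attach.image h, ?_, ?_⟩
  · intro f hf
    rw [Finset.mem_union] at hf
    rcases hf with hf | hf
    · obtain ⟨c, -, rfl⟩ := Finset.mem_image.1 hf
      refine ⟨fun q => g0 c ?_, hg c⟩
      rw [q, eval_zero]
    · obtain ⟨c, -, rfl⟩ := Finset.mem_image.1 hf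
      refine ⟨fun q => h0 c ?_, hh c⟩
      rw [q, eval_zero]
  · intro c hc
    exact ⟨g ⟨c, hc⟩, Finset.mem_union_left _ (Finset.mem_image_of_mem _ (Finset.mem_attach _ _)),
      h ⟨c, hc⟩, Finset.mem_union_right _ (Finset.mem_image_of_mem _ (Finset.mem_attach _ _)),
      g0 _, h0 _, he ⟨c, hc⟩⟩

/-- Equal values on the coordinates of the level `i` give equal values on the quotients. -/
theorem rv_quo {φ ψ : Pt k Ω F} {a b : F} (ha : rv (φ a) = rv (ψ a))
    (hb : rv (φ b) = rv (ψ b)) : rv (φ (a / b)) = rv (ψ (a / b)) := by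
  rw [map_div₀, map_div₀]
  exact rv_div_congr ha hb

theorem goodL_congr {Add : ℕ → (ℕ → Finset F[X]) → Finset F[X]}
    (hdep : ∀ i P P', (∀ j, i < j → j < N → P j = P' j) → Add i P = Add i P')
    {P P' : ℕ → Finset F[X]} {i : ℕ} (h : ∀ j, i ≤ j → P j = P' j)
    (hg : GoodL k Ω x N Add P i) : GoodL k Ω x N Add P' i := by
  have h1 := h i le_rfl
  have h2 := h (i + 1) (Nat.le_succ _)
  have h3 : Add i P = Add i P' := hdep i P P' fun j hj _ => h j hj.le
  refine ⟨?_, ?_, ?_, ?_, ?_, ?_, ?_⟩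
  · rw [← h1]; exact hg.coeff
  · rw [← h1]; exact hg.ne
  · rw [← h1]; exact hg.X_mem
  · rw [← h1]; exact hg.der
  · rw [← h1]; exact hg.min
  · rw [← h1, ← h3]; exact hg.add
  · rw [← h1, ← h2]; exact hg.link

/-- The construction of one level. -/
theorem exists_level (hΩ : ℵ₀ ≤ Algebra.trdeg k Ω) (hF : Algebra.trdeg (HahnSeries ℚ k) F < ℵ₀)
    (Add : ℕ → (ℕ → Finset F[X]) → Finset F[X])
    (hAdd : ∀ i < N, ∀ P : ℕ → Finset F[X],
      (∀ j, i < j → j < N → ∀ g ∈ P j, ∀ n, g.coeff n ∈ lev k x j) →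
      ∀ g ∈ Add i P, g ≠ 0 ∧ ∀ n, g.coeff n ∈ lev k x i)
    (hdep : ∀ i P P', (∀ j, i < j → j < N → P j = P' j) → Add i P = Add i P')
    (P : ℕ → Finset F[X]) (i : ℕ) (hi : i < N)
    (hP : ∀ j, i < j → j < N → GoodL k Ω x N Add P j) :
    ∃ Q : Finset F[X], GoodL k Ω x N Add (Function.update P i Q) i := by
  classical
  -- the finite set for the next level
  obtain ⟨B, hB, hlink⟩ : ∃ B : Finset F[X], (∀ g ∈ B, g ≠ 0 ∧ ∀ n, g.coeff n ∈ lev k x i) ∧
      (i + 1 < N → ∀ φ ψ : Pt k Ω F,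
        (∀ g ∈ B, rv (φ (g.eval (x i))) = rv (ψ (g.eval (x i)))) →
          ∃ β, RIso (qf (P (i + 1)) φ) (qf (P (i + 1)) ψ) β) := by
    by_cases h : i + 1 < N
    · have h1 := hP (i + 1) (Nat.lt_succ_self i) h
      obtain ⟨C, hC, hC'⟩ := root_unif (Ω := Ω) hΩ hF (lev k x (i + 1)) (P (i + 1))
        (fun g hg => ⟨h1.ne g hg, h1.coeff g hg⟩)
      obtain ⟨B, hB, hB'⟩ := exists_numden x i C hC
      refine ⟨B, hB, fun _ φ ψ hφψ => hC' φ ψ fun c hc => ?_⟩
      obtain ⟨g, hg, f, hf, g0, f0, rfl⟩ := hB' c hc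
      exact rv_quo (hφψ g hg) (hφψ f hf)
    · exact ⟨∅, fun g hg => absurd hg (Finset.notMem_empty _), fun h' => absurd h' h⟩
  -- the minimal polynomial
  obtain ⟨M, hM, hM'⟩ : ∃ M : Finset F[X], (∀ g ∈ M, g ≠ 0 ∧ ∀ n, g.coeff n ∈ lev k x i) ∧
      (IsAlgebraic (lev k x i) (x i) →
        (minpoly (lev k x i) (x i)).map (algebraMap (lev k x i) F) ∈ M) := by
    by_cases h : IsAlgebraic (lev k x i) (x i)
    · refine ⟨{(minpoly (lev k x i) (x i)).map (algebraMap (lev k x i) F)}, ?_,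
        fun _ => Finset.mem_singleton_self _⟩
      intro g hg
      rw [Finset.mem_singleton.1 hg]
      refine ⟨?_, fun n => ?_⟩
      · rw [Ne, Polynomial.map_eq_zero]
        exact minpoly.ne_zero h.isIntegral
      · rw [coeff_map]
        exact ((minpoly (lev k x i) (x i)).coeff n).2
    · exact ⟨∅, fun g hg => absurd hg (Finset.notMem_empty _), fun h' => absurd h' h⟩
  have hA := hAdd i hi P fun j h1 h2 => (hP j h1 h2).coeff
  set B' : Finset F[X] := {X} ∪ M ∪ Add i P ∪ B with hB'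
  have hall : ∀ g ∈ B', g ≠ 0 ∧ ∀ n, g.coeff n ∈ lev k x i := by
    intro g hg
    rw [hB', Finset.mem_union, Finset.mem_union, Finset.mem_union, Finset.mem_singleton] at hg
    rcases hg with ((rfl | hg) | hg) | hg
    · refine ⟨X_ne_zero, fun n => ?_⟩
      rw [coeff_X]
      split_ifs
      · exact (lev k x i).one_mem
      · exact (lev k x i).zero_mem
    · exact hM g hg
    · exact hA g hg
    · exact hB g hg
  have hsub := subset_dclos (B := B') fun g hg => (hall g hg).1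
  have hup : ∀ j, i < j → Function.update P i (dclos B') j = P j := fun j hj =>
    Function.update_of_ne (by omega) _ _
  have hadd : Add i (Function.update P i (dclos B')) = Add i P :=
    hdep i _ _ fun j hj _ => hup j hj
  refine ⟨dclos B', ?_, ?_, ?_, ?_, ?_, ?_, ?_⟩
  · rw [Function.update_self]
    exact fun g hg n => dclos_coeff (fun g hg => (hall g hg).2) hg n
  · rw [Function.update_self]
    exact fun g hg => (mem_dclos.1 hg).1
  · rw [Function.update_self]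
    exact hsub (by simp [hB'])
  · rw [Function.update_self]
    exact fun g hg h => dclos_der hg h
  · rw [Function.update_self]
    exact fun h => hsub (by simp [hB', hM' h])
  · rw [Function.update_self, hadd]
    exact fun g hg => hsub (by simp [hB', hg])
  · rw [Function.update_self, hup (i + 1) (Nat.lt_succ_self i)]
    exact fun h φ ψ hφψ => hlink h φ ψ fun g hg => hφψ g (hsub (by simp [hB', hg]))

theorem exists_levels (hΩ : ℵ₀ ≤ Algebra.trdeg k Ω) (hF : Algebra.trdeg (HahnSeries ℚ k) F < ℵ₀)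
    (Add : ℕ → (ℕ → Finset F[X]) → Finset F[X])
    (hAdd : ∀ i < N, ∀ P : ℕ → Finset F[X],
      (∀ j, i < j → j < N → ∀ g ∈ P j, ∀ n, g.coeff n ∈ lev k x j) →
      ∀ g ∈ Add i P, g ≠ 0 ∧ ∀ n, g.coeff n ∈ lev k x i)
    (hdep : ∀ i P P', (∀ j, i < j → j < N → P j = P' j) → Add i P = Add i P') (m : ℕ)
    (hm : m ≤ N) :
    ∃ P : ℕ → Finset F[X], ∀ j, N - m ≤ j → j < N → GoodL k Ω x N Add P j := by
  classical
  induction m with
  | zero => exact ⟨fun _ => ∅, fun j h1 h2 => by omega⟩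
  | succ m ih =>
    obtain ⟨P, hP⟩ := ih (by omega)
    obtain ⟨Q, hQ⟩ := exists_level hΩ hF Add hAdd hdep P (N - (m + 1)) (by omega)
      fun j h1 h2 => hP j (by omega) h2
    refine ⟨Function.update P (N - (m + 1)) Q, fun j h1 h2 => ?_⟩
    by_cases h : j = N - (m + 1)
    · rw [h]
      exact hQ
    · refine goodL_congr hdep (fun l hl => ?_) (hP j (by omega) h2)
      rw [Function.update_of_ne (by omega)]

theorem exists_tower (hΩ : ℵ₀ ≤ Algebra.trdeg k Ω) (hF : Algebra.trdeg (HahnSeries ℚ k) F < ℵ₀)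
    (x : ℕ → F) (N : ℕ) (Add : ℕ → (ℕ → Finset F[X]) → Finset F[X])
    (hAdd : ∀ i < N, ∀ P : ℕ → Finset F[X],
      (∀ j, i < j → j < N → ∀ g ∈ P j, ∀ n, g.coeff n ∈ lev k x j) →
      ∀ g ∈ Add i P, g ≠ 0 ∧ ∀ n, g.coeff n ∈ lev k x i)
    (hdep : ∀ i P P', (∀ j, i < j → j < N → P j = P' j) → Add i P = Add i P') :
    ∃ P : ℕ → Finset F[X], Twr k Ω x N P ∧ ∀ i < N, Add i P ⊆ P i := by
  obtain ⟨P, hP⟩ := exists_levels (Ω := Ω) hΩ hF Add hAdd hdep N le_rfl
  have hG : ∀ i < N, GoodL k Ω x N Add P i := fun i hi => hP i (by omega) hi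
  refine ⟨P, ⟨fun i hi => (hG i hi).coeff, fun i hi => (hG i hi).ne, fun i hi => (hG i hi).X_mem,
    fun i hi => (hG i hi).der, fun i hi => (hG i hi).min, ?_⟩, fun i hi => (hG i hi).add⟩
  intro i hi φ ψ h
  cases i with
  | zero =>
    obtain ⟨C, hC, hC'⟩ := root_unif (Ω := Ω) hΩ hF (lev k x 0) (P 0)
      (fun g hg => ⟨(hG 0 hi).ne g hg, (hG 0 hi).coeff g hg⟩)
    refine hC' φ ψ fun c hc => ?_
    have h1 := (hC c hc).1
    have h2 : lev k x 0 = ⊥ := by
      unfold lev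
      have : x '' {j | j < 0} = ∅ := by simp
      rw [this, IntermediateField.adjoin_empty]
    rw [h2, IntermediateField.mem_bot] at h1
    obtain ⟨a, rfl⟩ := h1
    rw [AlgHom.commutes, AlgHom.commutes]
  | succ i =>
    refine (hG i (by omega)).link hi φ ψ fun g hg => ?_
    have h1 := congrFun h (Sum.inr ⟨g, hg⟩)
    exact h1

theorem exists_tower_quo (hΩ : ℵ₀ ≤ Algebra.trdeg k Ω)
    (hF : Algebra.trdeg (HahnSeries ℚ k) F < ℵ₀) (x : ℕ → F) (N : ℕ) (hx : lev k x N = ⊤)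
    (S : Finset F) :
    ∃ P : ℕ → Finset F[X], Twr k Ω x N P ∧ ∀ s ∈ S, s ≠ 0 → Quo (k := k) x P N s := by
  classical
  cases N with
  | zero =>
    refine ⟨fun _ => ∅, ⟨?_, ?_, ?_, ?_, ?_, ?_⟩, ?_⟩
    any_goals intro i hi; omega
    intro s _ _
    have h1 : s ∈ lev k x 0 := by rw [hx]; exact IntermediateField.mem_top
    have h2 : lev k x 0 = ⊥ := by
      unfold lev
      have : x '' {j | j < 0} = ∅ := by simp
      rw [this, IntermediateField.adjoin_empty]
    rw [h2, IntermediateField.mem_bot] at h1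
    obtain ⟨a, rfl⟩ := h1
    exact ⟨a, rfl⟩
  | succ n =>
    obtain ⟨B, hB, hB'⟩ := exists_numden x n (S.filter fun s => s ≠ 0)
      (fun c hc => ⟨by rw [hx]; exact IntermediateField.mem_top, (Finset.mem_filter.1 hc).2⟩)
    obtain ⟨P, hP, hP'⟩ := exists_tower (Ω := Ω) hΩ hF x (n + 1)
      (fun i _ => if i = n then B else ∅) (by
        intro i hi P _ g hg
        by_cases h : i = n
        · subst h
          rw [if_pos rfl] at hg
          exact hB g hg
        · rw [if_neg h] at hg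
          exact absurd hg (Finset.notMem_empty _)) (fun _ _ _ _ => rfl)
    refine ⟨P, hP, fun s hs s0 => ?_⟩
    obtain ⟨g, hg, h, hh, g0, h0, he⟩ := hB' s (Finset.mem_filter.2 ⟨hs, s0⟩)
    have hsub := hP' n (Nat.lt_succ_self n)
    rw [if_pos rfl] at hsub
    exact ⟨g, hsub hg, h, hsub hh, g0, h0, he⟩

/-! ### quotients of coordinates -/

/-- Functions on vectors of values of monomial type. -/
structure Mono {ι : Type v} (f : (ι → Ω × ℚ) → Ω × ℚ) : Prop where
  eqv : ∀ (σ : Ω ≃ₐ[k] Ω) (z : ι → Ω × ℚ), f (sz σ z) = (σ (f z).1, (f z).2)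
  mem : ∀ z : ι → Ω × ℚ, (f z).1 ∈ kf k (ac z)
  ac : ∀ (w : ι → Ω) (g g' : ι → ℚ), (f (zip w g)).1 = (f (zip w g')).1
  va : ∀ [Fintype ι] (w : ι → Ω), Aff fun g : ι → ℚ => (f (zip w g)).2

theorem rv_algebraMap (φ : Pt k Ω F) (a : HahnSeries ℚ k) :
    rv (φ (algebraMap (HahnSeries ℚ k) F a)) = (algebraMap k Ω (rv a).1, (rv a).2) := by
  rw [AlgHom.commutes]
  exact rv_hmapA (Algebra.ofId k Ω) a

theorem rv_div {a b : HahnSeries ℚ Ω} (ha : a ≠ 0) (hb : b ≠ 0) :
    rv (a / b) = ((rv a).1 / (rv b).1, (rv a).2 - (rv b).2) := by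
  rw [div_eq_mul_inv, rv_mul ha (inv_ne_zero hb), rv_inv, div_eq_mul_inv, sub_eq_add_neg]

/-- The quotient of two coordinates. -/
theorem Mono.quo {ι : Type v} (a b : ι) :
    Mono (k := k) (Ω := Ω) (fun z : ι → Ω × ℚ => ((z a).1 / (z b).1, (z a).2 - (z b).2)) where
  eqv σ z := by
    refine Prod.ext ?_ rfl
    exact (map_div₀ σ _ _).symm
  mem z := (kf k (KTS.ac z)).div_mem
    (IntermediateField.subset_adjoin _ _ ⟨a, rfl⟩) (IntermediateField.subset_adjoin _ _ ⟨b, rfl⟩)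
  ac _ _ _ := rfl
  va _ := (Aff.coord a).sub (Aff.coord b)

theorem Mono.const {ι : Type v} (u : k) (q : ℚ) :
    Mono (k := k) (Ω := Ω) (fun _ : ι → Ω × ℚ => (algebraMap k Ω u, q)) where
  eqv σ _ := by rw [AlgEquiv.commutes]
  mem z := (kf k (KTS.ac z)).algebraMap_mem u
  ac _ _ _ := rfl
  va _ := Aff.const q

theorem Quo.mono {s : F} {i : ℕ} (h : Quo (k := k) x P i s) :
    ∃ f : (Idx P i → Ω × ℚ) → Ω × ℚ, Mono (k := k) f ∧
      ∀ φ : Pt k Ω F, rv (φ s) = f (rvt (helt x P i) φ) := by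
  cases i with
  | zero =>
    obtain ⟨a, rfl⟩ := h
    exact ⟨_, Mono.const (rv a).1 (rv a).2, fun φ => rv_algebraMap φ a⟩
  | succ i =>
    obtain ⟨g, hg, h, hh, g0, h0, rfl⟩ := h
    refine ⟨_, Mono.quo (Sum.inr ⟨g, hg⟩ : Idx P (i + 1)) (Sum.inr ⟨h, hh⟩ : Idx P (i + 1)),
      fun φ => ?_⟩
    rw [map_div₀]
    exact rv_div ((map_ne_zero φ).2 g0) ((map_ne_zero φ).2 h0)

theorem Quo.all_mono {ι : Type v} {s : ι → F} {i : ℕ}
    (h : ∀ j, s j ≠ 0 → Quo (k := k) x P i (s j)) :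
    ∃ f : (Idx P i → Ω × ℚ) → ι → Ω × ℚ, (∀ j, Mono (k := k) fun z => f z j) ∧
      ∀ φ : Pt k Ω F, rvt s φ = f (rvt (helt x P i) φ) := by
  have h1 : ∀ j, ∃ f : (Idx P i → Ω × ℚ) → Ω × ℚ, Mono (k := k) f ∧
      ∀ φ : Pt k Ω F, rv (φ (s j)) = f (rvt (helt x P i) φ) := by
    intro j
    by_cases hj : s j = 0
    · refine ⟨_, Mono.const 0 0, fun φ => ?_⟩
      rw [hj, map_zero, rv_zero, map_zero]
    · exact (h j hj).mono
  choose f hf hf' using h1
  exact ⟨fun z j => f j z, fun j => hf j, fun φ => funext fun j => hf' j φ⟩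

theorem Meas.of_quo {ι : Type v} [Fintype ι] {s : ι → F} {A : Set (Pt k Ω F)} (hA : Meas A s)
    {i : ℕ} (h : ∀ j, s j ≠ 0 → Quo (k := k) x P i (s j)) : Meas A (helt x P i) := by
  obtain ⟨Z, hZ, hZ', hZ''⟩ := hA
  obtain ⟨f, hf, hf'⟩ := Quo.all_mono (Ω := Ω) h
  refine ⟨{z | f z ∈ Z}, fun φ => ?_, fun σ z hz => ?_, fun w => ?_⟩
  · rw [hZ, hf', Set.mem_ofPred_eq]
  · have h1 : f (sz σ z) = sz σ (f z) := funext fun j => (hf j).eqv σ z
    rw [Set.mem_ofPred_eq, h1]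
    exact hZ' σ _ hz
  · have h1 : ∀ g : Idx P i → ℚ, f (zip w g) =
        zip (fun j => (f (zip w 0) j).1) (fun j => (f (zip w g) j).2) := fun g =>
      funext fun j => Prod.ext ((hf j).ac w g 0) rfl
    have h2 : {g : Idx P i → ℚ | zip w g ∈ {z | f z ∈ Z}} =
        {g | (fun j => (f (zip w g) j).2) ∈
          {g' : ι → ℚ | zip (fun j => (f (zip w 0) j).1) g' ∈ Z}} := by
      ext g
      rw [Set.mem_ofPred_eq, Set.mem_ofPred_eq, Set.mem_ofPred_eq, Set.mem_ofPred_eq, h1 g]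
      rfl
    rw [h2]
    exact (hZ'' _).preimage fun j => (hf j).va w

end UE

end

end KTS
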