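import Pool.Agent.KTS.X0
import Pool.Agent.KTS.UE
import Pool.Agent.KTS.DB
import Pool.Agent.KTS.HA2

/-!
[KTS-Nd89] What block X uses from the blocks D, U, H.
-/

set_option autoImplicit false

namespace KTS.Nd

noncomputable section

universe u v

open Polynomial

/-- D1 (helper50). -/
theorem disc {Ω : Type u} [Field Ω] [CharZero Ω] [IsAlgClosed Ω] {α : Type v} [Finite α]
    (q : α → (HahnSeries ℚ Ω)[X]) (hne : ∀ a, q a ≠ 0)
    (hder : ∀ a, derivative (q a) = 0 ∨ ∃ b, q b = derivative (q a))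
    (x x' : HahnSeries ℚ Ω) (h : ∀ a, rv ((q a).eval x) = rv ((q a).eval x')) :
    x = x' ∨ ∀ ρ ∈ Rq q, (x - ρ).orderTop < (x - x').orderTop :=
  KTS.D1_imp hne hder h

variable {k Ω F : Type u} [Field k] [Field Ω] [Algebra k Ω] [CharZero k] [IsAlgClosed k]
  [CharZero Ω] [IsAlgClosed Ω] [Field F] [Algebra (HahnSeries ℚ k) F]

omit [CharZero k] [IsAlgClosed k] in
theorem td_lt (x : ℕ → F) (N : ℕ) (hx : lev k x N = ⊤) :
    Algebra.trdeg (HahnSeries ℚ k) F < Cardinal.aleph0 := by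
  have h1 : Algebra.trdeg (HahnSeries ℚ k) (lev k x N) < Cardinal.aleph0 := by
    have hfin : (x '' {j | j < N}).Finite := (Set.finite_lt_nat N).image x
    exact (KTS.td_adjoin_le (A := HahnSeries ℚ k) (F := F) (x '' {j | j < N})).trans_lt
      (Cardinal.lt_aleph0_iff_set_finite.2 hfin)
  rw [hx] at h1
  rwa [(IntermediateField.topEquiv (F := HahnSeries ℚ k) (E := F)).trdeg_eq] at h1

/-- H6 (helper4): elements transcendental over a subfield of finite transcendence degree are dense. -/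
theorem tr_dense (hΩ : Cardinal.aleph0 ≤ Algebra.trdeg k Ω)
    (S : IntermediateField (HahnSeries ℚ k) (HahnSeries ℚ Ω))
    (hS : Algebra.trdeg (HahnSeries ℚ k) S < Cardinal.aleph0) (z : HahnSeries ℚ Ω) (s : ℚ) :
    ∃ x' : HahnSeries ℚ Ω, (s : WithTop ℚ) < (x' - z).orderTop ∧ Transcendental S x' := by
  obtain ⟨y, hy, h⟩ := exists_gen_disc (F := S) hΩ hS S.val z s
  refine ⟨y, hy, fun h' => h ?_⟩
  obtain ⟨p, hp, hpy⟩ := h'
  exact ⟨p, hp, fun n => trivial, by rw [eval_map]; exact hpy⟩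

/-- H6 (helper4): extension of points. -/
theorem ext_point (hΩ : Cardinal.aleph0 ≤ Algebra.trdeg k Ω)
    (hF : Algebra.trdeg (HahnSeries ℚ k) F < Cardinal.aleph0)
    (L : IntermediateField (HahnSeries ℚ k) F) (ψ : L →ₐ[HahnSeries ℚ k] HahnSeries ℚ Ω) :
    ∃ φ : Pt k Ω F, ∀ z : L, φ z = ψ z := ext_pt hΩ hF L ψ

open Classical in
/-- Numerator and denominator, as polynomials over the level, of the elements of a finite set of `lev k x (i + 1)`. -/
theorem exists_numden (x : ℕ → F) (i : ℕ) (S : Finset F) :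
    ∃ Q : Finset F[X], (∀ g ∈ Q, g ≠ 0 ∧ ∀ n, g.coeff n ∈ lev k x i) ∧
      ∀ s ∈ S, s ∈ lev k x (i + 1) → s ≠ 0 → ∃ g ∈ Q, ∃ h ∈ Q, g.eval (x i) ≠ 0 ∧
        h.eval (x i) ≠ 0 ∧ s = g.eval (x i) / h.eval (x i) := by
  induction S using Finset.induction_on with
  | empty => exact ⟨∅, by simp, by simp⟩
  | insert a S ha ih =>
    obtain ⟨Q, hQ, hS⟩ := ih
    by_cases hm : a ∈ lev k x (i + 1) ∧ a ≠ 0
    · obtain ⟨g, h, hg, hh, hh0, he⟩ := mem_lev_succ hm.1
      have hg0 : g.eval (x i) ≠ 0 := by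
        intro h0
        rw [h0, zero_div] at he
        exact hm.2 he
      refine ⟨insert g (insert h Q), ?_, ?_⟩
      · intro p hp
        rw [Finset.mem_insert, Finset.mem_insert] at hp
        rcases hp with rfl | rfl | hp
        · exact ⟨fun h1 => hg0 (by rw [h1, eval_zero]), hg⟩
        · exact ⟨fun h1 => hh0 (by rw [h1, eval_zero]), hh⟩
        · exact hQ p hp
      · intro s hs hsl hs0
        rw [Finset.mem_insert] at hs
        rcases hs with rfl | hs
        · exact ⟨g, by simp, h, by simp, hg0, hh0, he⟩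
        · obtain ⟨g', hg', h', hh', r⟩ := hS s hs hsl hs0
          exact ⟨g', by simp [hg'], h', by simp [hh'], r⟩
    · refine ⟨Q, hQ, ?_⟩
      intro s hs hsl hs0
      rw [Finset.mem_insert] at hs
      rcases hs with rfl | hs
      · exact absurd ⟨hsl, hs0⟩ hm
      · exact hS s hs hsl hs0

open Classical in
/-- U5 (helper19): existence of uniform towers with prescribed elements. -/
theorem exists_tower (hΩ : Cardinal.aleph0 ≤ Algebra.trdeg k Ω) (x : ℕ → F) (N : ℕ)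
    (hx : lev k x N = ⊤) (H : Finset F) (Add : ℕ → Finset F[X] → Finset F)
    (hAdd : ∀ i P, (∀ g ∈ P, ∀ n, g.coeff n ∈ lev k x (i + 1)) → ∀ c ∈ Add i P, c ∈ lev k x (i + 1)) :
    ∃ P : ℕ → Finset F[X], Twr k Ω x N P ∧ (∀ s ∈ H, s ≠ 0 → Quo (k := k) x P N s) ∧
      ∀ i, i + 1 < N → ∀ c ∈ Add i (P (i + 1)), c ≠ 0 → Quo (k := k) x P (i + 1) c := by
  choose nd hnd hnd' using fun (i : ℕ) (S : Finset F) => exists_numden (k := k) x i S
  obtain ⟨P, hP, hAP⟩ := KTS.exists_tower (Ω := Ω) hΩ (td_lt x N hx) x N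
    (fun i P => if i + 1 < N then nd i (Add i (P (i + 1))) else nd i H)
    (by
      intro i hi P hP g hg
      split_ifs at hg with h
      · exact hnd i _ g hg
      · exact hnd i _ g hg)
    (by
      intro i P P' h
      by_cases h1 : i + 1 < N
      · simp only [h1, if_true]
        rw [h (i + 1) (Nat.lt_succ_self i) h1]
      · simp only [h1, if_false])
  refine ⟨P, hP, ?_, ?_⟩
  · intro s hs hs0
    rcases N with _ | N
    · have : s ∈ lev k x 0 := by rw [hx]; trivial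
      have h0 : lev k x 0 = ⊥ := by
        unfold lev
        simp
      rw [h0, IntermediateField.mem_bot] at this
      obtain ⟨a, ha⟩ := this
      exact ⟨a, ha.symm⟩
    · have h1 := hAP N (Nat.lt_succ_self N)
      simp only [lt_irrefl, if_false] at h1
      obtain ⟨g, hg, h, hh, r⟩ := hnd' N H s hs (by rw [hx]; trivial) hs0
      exact ⟨g, h1 hg, h, h1 hh, r⟩
  · intro i hi c hc hc0
    have h1 := hAP i (by omega)
    simp only [hi, if_true] at h1
    obtain ⟨g, hg, h, hh, r⟩ := hnd' i _ c hc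
      (hAdd i _ (fun g hg n => hP.coeff (i + 1) hi g hg n) c hc) hc0
    exact ⟨g, h1 hg, h, h1 hh, r⟩

/-- U4b (helper19). -/
theorem ext_fib (hΩ : Cardinal.aleph0 ≤ Algebra.trdeg k Ω) (x : ℕ → F) (N : ℕ)
    (hx : lev k x N = ⊤) (P : ℕ → Finset F[X]) (hP : Twr k Ω x N P) (i : ℕ) (hi : i ≤ N)
    (φ ψ : Pt k Ω F) (h : rvt (helt x P i) ψ = rvt (helt x P i) φ) :
    ∃ ψ' : Pt k Ω F, (∀ z ∈ lev k x i, ψ' z = ψ z) ∧ rvt (helt x P N) ψ' = rvt (helt x P N) φ := by
  obtain ⟨ψ', h1, h2⟩ := Twr.extend hΩ (td_lt x N hx) hP hi le_rfl h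
  exact ⟨ψ', fun z hz => KTS.agree_lev h1 hz, h2⟩

/-- U6 (helper19). -/
theorem npd_fib (hΩ : Cardinal.aleph0 ≤ Algebra.trdeg k Ω) (x : ℕ → F) (N : ℕ)
    (hx : lev k x N = ⊤) (P : ℕ → Finset F[X]) (hP : Twr k Ω x N P) (φ : Pt k Ω F) :
    NPd x N {ψ : Pt k Ω F | rvt (helt x P N) ψ = rvt (helt x P N) φ} :=
  Twr.npd hΩ (td_lt x N hx) hP φ

end

end KTS.Nd
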