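import Pool.Agent.KTS.CH3
import Pool.Agent.KTS.HB1
import Pool.Agent.KTS.Defs

/-!
[KTS-RU] Uniformity of the root configuration (helper19's `root_unif`, U2/U3 through the norm form).
-/

set_option autoImplicit false
set_option linter.unusedSectionVars false
set_option linter.unusedVariables false

namespace KTS

noncomputable section

universe u

open Polynomial Cardinal

section RU

variable {Ω : Type u} [Field Ω]

open Classical in
/-- The abstract form: a finite family of polynomials which split in `N`. -/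
theorem ru_core {N : Type u} [Field N] {α : Type u} [Finite α] (G : α → N[X])
    (h0 : ∀ a, G a ≠ 0) (hs : ∀ a, (G a).Splits) :
    ∃ S : Finset N, (∀ s ∈ S, s ≠ 0) ∧ ∀ φ' ψ' : N →+* HahnSeries ℚ Ω,
      (∀ s ∈ S, rv (ψ' s) = rv (φ' s)) →
      (∀ a, rv ((G a).map φ').leadingCoeff = rv ((G a).map ψ').leadingCoeff) →
      ∃ β, RIso (fun a => (G a).map φ') (fun a => (G a).map ψ') β := by
  have := Fintype.ofFinite α
  set T : Finset N := Finset.univ.biUnion fun a => (G a).roots.toFinset with hT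
  have hTm : ∀ ρ, ρ ∈ T ↔ ∃ a, (G a).IsRoot ρ := by
    intro ρ
    simp only [hT, Finset.mem_biUnion, Finset.mem_univ, true_and, Multiset.mem_toFinset]
    constructor
    · rintro ⟨a, ha⟩
      exact ⟨a, (mem_roots (h0 a)).1 ha⟩
    · rintro ⟨a, ha⟩
      exact ⟨a, (mem_roots (h0 a)).2 ha⟩
  have key : ∀ χ : N →+* HahnSeries ℚ Ω, Rq (fun a => (G a).map χ) = χ '' (T : Set N) := by
    intro χ
    ext y
    simp only [Rq, Set.mem_ofPred_eq, Set.mem_image, Finset.mem_coe]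
    constructor
    · rintro ⟨a, ha⟩
      have h1 : y ∈ ((G a).map χ).roots :=
        (mem_roots (Polynomial.map_ne_zero (h0 a))).2 ha
      rw [(hs a).roots_map χ, Multiset.mem_map] at h1
      obtain ⟨ρ, hρ, hρy⟩ := h1
      exact ⟨ρ, (hTm ρ).2 ⟨a, (mem_roots (h0 a)).1 hρ⟩, hρy⟩
    · rintro ⟨ρ, hρ, rfl⟩
      obtain ⟨a, ha⟩ := (hTm ρ).1 hρ
      exact ⟨a, ha.map⟩
  refine ⟨((T ×ˢ T).image fun p => p.1 - p.2).filter (· ≠ 0), ?_, ?_⟩
  · intro s hsS
    exact (Finset.mem_filter.1 hsS).2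
  intro φ' ψ' hrv hlead
  have hβ : ∀ ρ, ψ' (Function.invFun φ' (φ' ρ)) = ψ' ρ := fun ρ => by
    rw [Function.leftInverse_invFun φ'.injective ρ]
  refine ⟨fun y => ψ' (Function.invFun φ' y), ?_, ?_, ?_, ?_⟩
  · rw [key φ', key ψ']
    refine ⟨?_, ?_, ?_⟩
    · rintro _ ⟨ρ, hρ, rfl⟩
      exact ⟨ρ, hρ, (hβ ρ).symm⟩
    · rintro _ ⟨ρ, hρ, rfl⟩ _ ⟨ρ', hρ', rfl⟩ h
      simp only [hβ] at h
      rw [ψ'.injective h]
    · rintro _ ⟨ρ, hρ, rfl⟩
      exact ⟨φ' ρ, ⟨ρ, hρ, rfl⟩, hβ ρ⟩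
  · rw [key φ']
    rintro _ ⟨ρ, hρ, rfl⟩ _ ⟨ρ', hρ', rfl⟩ hne
    simp only [hβ]
    rw [← map_sub, ← map_sub]
    refine (hrv _ ?_).symm
    rw [Finset.mem_filter, Finset.mem_image]
    refine ⟨⟨(ρ, ρ'), Finset.mem_product.2 ⟨hρ, hρ'⟩, rfl⟩, ?_⟩
    intro h
    exact hne (by rw [sub_eq_zero.1 h])
  · intro a
    rw [key φ']
    rintro _ ⟨ρ, hρ, rfl⟩
    simp only [hβ]
    rw [← eq_rootMultiplicity_map φ'.injective, ← eq_rootMultiplicity_map ψ'.injective]
  · exact hlead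

end RU

section RU2

variable {k Ω F : Type u} [Field k] [IsAlgClosed k] [CharZero k] [Field Ω] [IsAlgClosed Ω]
  [CharZero Ω] [Algebra k Ω] [Field F] [Algebra (HahnSeries ℚ k) F]

/-- Lift of a polynomial with coefficients in an intermediate field. -/
theorem ru_lift (E : IntermediateField (HahnSeries ℚ k) F) (g : F[X]) (h : ∀ n, g.coeff n ∈ E) :
    ∃ G : (↥E)[X], G.map (algebraMap (↥E) F) = g := by
  have h1 : g ∈ Polynomial.lifts (algebraMap (↥E) F) := by
    rw [Polynomial.lifts_iff_coeff_lifts]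
    intro n
    exact ⟨⟨g.coeff n, h n⟩, rfl⟩
  exact (Polynomial.mem_lifts g).1 h1

open Classical in
/-- Proof. `E` has characteristic `0`. If `P = ∅` everything is trivial. `N := SplittingField (∏_{g ∈ P} lift of g to E[X])`
over `E`, `T` = its set of roots in `N`, `S := {ρ - ρ' : ρ ≠ ρ' ∈ T}`; `C` := image in `F` of the non-zero coefficients of
`nform E N S` and the leading coefficients of the `g ∈ P`. Let `φ, ψ` agree in `rv` on `C`. `φ|E` extends to
`φ' : N →+* U` (`ext_finite`), and `ext_match` gives `ψ' : N →+* U` extending `ψ|E` with `rv (ψ' s) = rv (φ' s)` on `S`.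
`β` := `φ' ρ ↦ ψ' ρ` for `ρ ∈ T` (`φ'` is injective; `0` elsewhere). `Rq (qf P φ) = φ' '' T`, `Rq (qf P ψ) = ψ' '' T`
(`g.map φ = (g over N).map φ' = C * ∏ (X - C (φ' ρ))`), multiplicities: the multiplicity of `ρ` in `g` over `N`
(`Polynomial.rootMultiplicity` is preserved by injective maps: `Polynomial.rootMultiplicity_map` or
`eq_rootMultiplicity_map`). -/
theorem root_unif (hΩ : ℵ₀ ≤ Algebra.trdeg k Ω) (hF : Algebra.trdeg (HahnSeries ℚ k) F < ℵ₀)
    (E : IntermediateField (HahnSeries ℚ k) F) (P : Finset F[X])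
    (hP : ∀ g ∈ P, g ≠ 0 ∧ ∀ n, g.coeff n ∈ E) :
    ∃ C : Finset F, (∀ c ∈ C, c ∈ E ∧ c ≠ 0) ∧ ∀ φ ψ : Pt k Ω F,
      (∀ c ∈ C, rv (φ c) = rv (ψ c)) → ∃ β, RIso (qf P φ) (qf P ψ) β := by
  choose! G hG using fun (g : {g // g ∈ P}) => ru_lift E g.1 (hP g.1 g.2).2
  have hG0 : ∀ g, G g ≠ 0 := by
    intro g h
    apply (hP g.1 g.2).1
    rw [← hG g, h, Polynomial.map_zero]
  have : CharZero (HahnSeries ℚ k) := by
    have : CharZero k := inferInstance
    exact charZero_of_injective_algebraMap (algebraMap k (HahnSeries ℚ k)).injective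
  have : CharZero F :=
    charZero_of_injective_algebraMap (algebraMap (HahnSeries ℚ k) F).injective
  have : CharZero (↥E) :=
    charZero_of_injective_algebraMap (algebraMap (HahnSeries ℚ k) (↥E)).injective
  let Q0 : (↥E)[X] := ∏ g, G g
  have hQ00 : Q0 ≠ 0 := Finset.prod_ne_zero_iff.2 fun g _ => hG0 g
  let N := Q0.SplittingField
  have : FiniteDimensional (↥E) N := inferInstance
  have hspl : ∀ g, ((G g).map (algebraMap (↥E) N)).Splits := by
    intro g
    refine Splits.of_dvd (SplittingField.splits Q0) (Polynomial.map_ne_zero hQ00) ?_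
    exact Polynomial.map_dvd _ (Finset.dvd_prod_of_mem _ (Finset.mem_univ g))
  obtain ⟨S, hS0, hS⟩ := ru_core (Ω := Ω) (N := N) (fun g => (G g).map (algebraMap (↥E) N))
    (fun g => Polynomial.map_ne_zero (hG0 g)) hspl
  refine ⟨((nform (↥E) N S).support.image fun m => algebraMap (↥E) F ((nform (↥E) N S).coeff m)) ∪
    P.image fun g => g.leadingCoeff, ?_, ?_⟩
  · intro c hc
    rw [Finset.mem_union, Finset.mem_image, Finset.mem_image] at hc
    rcases hc with ⟨m, hm, rfl⟩ | ⟨g, hg, rfl⟩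
    · refine ⟨((nform (↥E) N S).coeff m).2, ?_⟩
      intro h
      exact (MvPolynomial.mem_support_iff.1 hm)
        ((algebraMap (↥E) F).injective (h.trans (map_zero _).symm))
    · exact ⟨(hP g hg).2 _, leadingCoeff_ne_zero.2 (hP g hg).1⟩
  intro φ ψ h
  obtain ⟨φ', hφ'⟩ := (ext_finite (↥E) N (HahnSeries ℚ Ω)
    ((φ : F →+* HahnSeries ℚ Ω).comp (algebraMap (↥E) F))).2
  simp only [Set.mem_ofPred_eq] at hφ'
  obtain ⟨ψ', hψ', hrv⟩ := ext_match S hS0 ((φ : F →+* HahnSeries ℚ Ω).comp (algebraMap (↥E) F))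
    ((ψ : F →+* HahnSeries ℚ Ω).comp (algebraMap (↥E) F)) (fun m hm => by
      refine h _ (Finset.mem_union_left _ (Finset.mem_image.2 ⟨m, ?_, rfl⟩))
      exact MvPolynomial.mem_support_iff.2 hm) φ' hφ'
  have e1 : ∀ g, ((G g).map (algebraMap (↥E) N)).map φ' = g.1.map (φ : F →+* HahnSeries ℚ Ω) := by
    intro g
    rw [Polynomial.map_map, hφ', ← Polynomial.map_map, hG]
  have e2 : ∀ g, ((G g).map (algebraMap (↥E) N)).map ψ' = g.1.map (ψ : F →+* HahnSeries ℚ Ω) := by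
    intro g
    rw [Polynomial.map_map, hψ', ← Polynomial.map_map, hG]
  obtain ⟨β, hβ⟩ := hS φ' ψ' hrv (fun g => by
    rw [e1, e2, leadingCoeff_map, leadingCoeff_map]
    exact h _ (Finset.mem_union_right _ (Finset.mem_image.2 ⟨g.1, g.2, rfl⟩)))
  refine ⟨β, ?_⟩
  have e1' : qf P φ = fun g => ((G g).map (algebraMap (↥E) N)).map φ' := funext fun g => (e1 g).symm
  have e2' : qf P ψ = fun g => ((G g).map (algebraMap (↥E) N)).map ψ' := funext fun g => (e2 g).symm
  rw [e1', e2']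
  exact hβ

end RU2

end

end KTS
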