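import Pool.Agent.KTS.HN
import Pool.Agent.KTS.DN
import Pool.Agent.KTS.RU
import Pool.Agent.KTS.F6

/-!
[KTS] The blocks H, D, C, F used by U, T, S.
-/
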