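import Pool.Agent.KTS.X7

/-!
[KTS-XE] S1 in the form used by block S.
-/

set_option autoImplicit false

namespace KTS

noncomputable section

universe u

open Polynomial Cardinal

variable {k Ω F : Type u} [Field k] [IsAlgClosed k] [CharZero k] [Field Ω] [IsAlgClosed Ω]
  [CharZero Ω] [Algebra k Ω] [Field F] [Algebra (HahnSeries ℚ k) F]

/-- S1: exchange of two neighbours. -/
theorem exch (hΩ : ℵ₀ ≤ Algebra.trdeg k Ω) (_hF : Algebra.trdeg (HahnSeries ℚ k) F < ℵ₀)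
    (x : ℕ → F) (N : ℕ) (hx : lev k x N = ⊤) (i : ℕ) (hi : i + 1 < N) (S : Finset F) :
    ∃ P : ℕ → Finset F[X], Twr k Ω x N P ∧ (∀ s ∈ S, s ≠ 0 → Quo (k := k) x P N s) ∧
      ∀ φ : Pt k Ω F, NPd (fun j => x (Equiv.swap i (i + 1) j)) N
        {ψ : Pt k Ω F | rvt (helt x P N) ψ = rvt (helt x P N) φ} := by
  have : CharZero (HahnSeries ℚ k) := charZero_hahn
  have : CharZero F := charZero_of_injective_algebraMap (algebraMap (HahnSeries ℚ k) F).injective
  obtain ⟨P, h1, h2, h3⟩ := X.exch (Ω := Ω) hΩ x N hx i hi S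
  exact ⟨P, h1, h2, fun φ => (h3 φ).2⟩

end

end KTS
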