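import Pool.Agent.KTS.TB
import Pool.Agent.KTS.XE

/-!
[KTS] Block S: independence of the order (S2), comparison theorem (owner helper19).
-/

set_option autoImplicit false
set_option linter.unusedSectionVars false

namespace KTS

noncomputable section

universe u v w

open Polynomial Cardinal

section SB

variable {k Ω F : Type u} [Field k] [IsAlgClosed k] [CharZero k] [Field Ω] [IsAlgClosed Ω]
  [CharZero Ω] [Algebra k Ω] [Field F] [Algebra (HahnSeries ℚ k) F]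

/-- The tuple `s` is adapted to the order `x` on the set `A`. -/
structure Adp {ι : Type v} [Fintype ι] (x : ℕ → F) (N : ℕ) (A : Set (Pt k Ω F)) (s : ι → F) :
    Prop where
  meas : Meas A s
  npd : ∀ φ ∈ A, NPd x N {ψ : Pt k Ω F | ψ ∈ A ∧ rvt s ψ = rvt s φ}

theorem Meas.mem_iff {ι : Type v} [Fintype ι] {A : Set (Pt k Ω F)} {s : ι → F} (hA : Meas A s)
    {φ ψ : Pt k Ω F} (h : rvt s ψ = rvt s φ) : ψ ∈ A ↔ φ ∈ A := by
  obtain ⟨Z, hZ, -, -⟩ := hA
  rw [hZ, hZ, h]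

theorem Meas.fibre {ι : Type v} [Fintype ι] {A : Set (Pt k Ω F)} {s : ι → F} (hA : Meas A s)
    {φ : Pt k Ω F} (hφ : φ ∈ A) :
    {ψ : Pt k Ω F | ψ ∈ A ∧ rvt s ψ = rvt s φ} = {ψ : Pt k Ω F | rvt s ψ = rvt s φ} := by
  ext ψ
  simp only [Set.mem_ofPred_eq, and_iff_right_iff_imp]
  intro h
  exact (hA.mem_iff h).2 hφ

variable {x : ℕ → F} {N : ℕ} {P : ℕ → Finset F[X]}

theorem adp_tower (hΩ : ℵ₀ ≤ Algebra.trdeg k Ω) (hF : Algebra.trdeg (HahnSeries ℚ k) F < ℵ₀)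
    {ι : Type v} [Fintype ι] {A : Set (Pt k Ω F)} {s : ι → F} (hA : Meas A s)
    (hP : Twr k Ω x N P) (hq : ∀ j, s j ≠ 0 → Quo (k := k) x P N (s j)) :
    Adp x N A (helt x P N) where
  meas := hA.of_quo hq
  npd φ hφ := by
    rw [(hA.of_quo hq).fibre hφ]
    exact hP.npd hΩ hF φ

theorem exists_adp (hΩ : ℵ₀ ≤ Algebra.trdeg k Ω) (hF : Algebra.trdeg (HahnSeries ℚ k) F < ℵ₀)
    (hx : lev k x N = ⊤) {ι : Type v} [Fintype ι] {A : Set (Pt k Ω F)} {s : ι → F}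
    (hA : Meas A s) :
    ∃ P : ℕ → Finset F[X], Twr k Ω x N P ∧ (∀ j, s j ≠ 0 → Quo (k := k) x P N (s j)) ∧
      Adp x N A (helt x P N) := by
  classical
  obtain ⟨P, hP, hq⟩ := exists_tower_quo hΩ hF x N hx (Finset.univ.image s)
  have hq' : ∀ j, s j ≠ 0 → Quo (k := k) x P N (s j) := fun j hj =>
    hq (s j) (Finset.mem_image_of_mem _ (Finset.mem_univ j)) hj
  exact ⟨P, hP, hq', adp_tower hΩ hF hA hP hq'⟩

section main

variable (hΩ : ℵ₀ ≤ Algebra.trdeg k Ω) {d : ℕ} (hF : Algebra.trdeg (HahnSeries ℚ k) F = d)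
  {c : IntermediateField k Ω → ℚ} (hc : Wt (d : Cardinal.{u}) c)

include hΩ hF hc

theorem Adp.eq_tower (hx : lev k x N = ⊤) {ι : Type u} [Fintype ι] {s : ι → F}
    {A : Set (Pt k Ω F)} (hA : Adp x N A s) (hP : Twr k Ω x N P)
    (hq : ∀ j, s j ≠ 0 → Quo (k := k) x P N (s j)) :
    Int (⊤ : Subgroup (Ω ≃ₐ[k] Ω)) (JA A s c) =
      Int (⊤ : Subgroup (Ω ≃ₐ[k] Ω)) (JA A (helt x P N) c) :=
  Int_eq_tower hΩ hF hx hc s hA.meas hA.npd hP hq

theorem Adp.eq_same (hx : lev k x N = ⊤) {ι κ : Type u} [Fintype ι] [Fintype κ] {s : ι → F}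
    {s' : κ → F} {A : Set (Pt k Ω F)} (hA : Adp x N A s) (hA' : Adp x N A s') :
    Int (⊤ : Subgroup (Ω ≃ₐ[k] Ω)) (JA A s c) = Int (⊤ : Subgroup (Ω ≃ₐ[k] Ω)) (JA A s' c) := by
  classical
  have hF' : Algebra.trdeg (HahnSeries ℚ k) F < ℵ₀ := by rw [hF]; exact Cardinal.natCast_lt_aleph0
  obtain ⟨P, hP, hq⟩ := exists_tower_quo hΩ hF' x N hx (Finset.univ.image s ∪ Finset.univ.image s')
  rw [hA.eq_tower hΩ hF hc hx hP fun j hj => hq (s j) (by simp) hj,
    hA'.eq_tower hΩ hF hc hx hP fun j hj => hq (s' j) (by simp) hj]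

/-- Exchange of neighbours. -/
theorem Adp.eq_swap (hx : lev k x N = ⊤) {i : ℕ} (hi : i + 1 < N) {ι κ : Type u} [Fintype ι]
    [Fintype κ] {s : ι → F} {s' : κ → F} {A : Set (Pt k Ω F)} (hA : Adp x N A s)
    (hA' : Adp (fun j => x (Equiv.swap i (i + 1) j)) N A s')
    (hx' : lev k (fun j => x (Equiv.swap i (i + 1) j)) N = ⊤) :
    Int (⊤ : Subgroup (Ω ≃ₐ[k] Ω)) (JA A s c) = Int (⊤ : Subgroup (Ω ≃ₐ[k] Ω)) (JA A s' c) := by
  classical
  have hF' : Algebra.trdeg (HahnSeries ℚ k) F < ℵ₀ := by rw [hF]; exact Cardinal.natCast_lt_aleph0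
  obtain ⟨P, hP, hq, hn⟩ := exch hΩ hF' x N hx i hi (Finset.univ.image s)
  have hq' : ∀ j, s j ≠ 0 → Quo (k := k) x P N (s j) := fun j hj => hq (s j) (by simp) hj
  rw [hA.eq_tower hΩ hF hc hx hP hq']
  refine Adp.eq_same hΩ hF hc hx' ?_ hA'
  refine ⟨hA.meas.of_quo hq', fun φ hφ => ?_⟩
  rw [(hA.meas.of_quo hq').fibre hφ]
  exact hn φ

end main

/-- Independence of two orders. -/
def Eqv (d : ℕ) (c : IntermediateField k Ω → ℚ) (x : ℕ → F) (N : ℕ) (y : ℕ → F) (M : ℕ) : Prop :=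
  ∀ (ι κ : Type u) (_ : Fintype ι) (_ : Fintype κ) (s : ι → F) (s' : κ → F)
    (A : Set (Pt k Ω F)), Adp x N A s → Adp y M A s' →
    Int (⊤ : Subgroup (Ω ≃ₐ[k] Ω)) (JA A s c) = Int (⊤ : Subgroup (Ω ≃ₐ[k] Ω)) (JA A s' c)

theorem Eqv.trans (hΩ : ℵ₀ ≤ Algebra.trdeg k Ω) {d : ℕ}
    (hF : Algebra.trdeg (HahnSeries ℚ k) F = d) {c : IntermediateField k Ω → ℚ}
    {x y z : ℕ → F} {N M L : ℕ} (hy : lev k y M = ⊤) (h : Eqv d c x N y M)
    (h' : Eqv d c y M z L) : Eqv d c x N z L := by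
  intro ι κ _ _ s s' A hs hs'
  have hF' : Algebra.trdeg (HahnSeries ℚ k) F < ℵ₀ := by rw [hF]; exact Cardinal.natCast_lt_aleph0
  obtain ⟨P, -, -, hA⟩ := exists_adp hΩ hF' hy hs.meas
  rw [h _ _ _ _ _ _ A hs hA, h' _ _ _ _ _ _ A hA hs']

/-- Permutation of the first `N` entries. -/
def pmt {N : ℕ} (π : Equiv.Perm (Fin N)) (x : ℕ → F) : ℕ → F :=
  fun j => if h : j < N then x (π ⟨j, h⟩) else x j

theorem pmt_one {N : ℕ} (x : ℕ → F) : pmt (1 : Equiv.Perm (Fin N)) x = x := by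
  funext j
  simp [pmt]

theorem pmt_mul {N : ℕ} (π ρ : Equiv.Perm (Fin N)) (x : ℕ → F) :
    pmt (π * ρ) x = pmt ρ (pmt π x) := by
  funext j
  by_cases h : j < N
  · simp [pmt, h]
  · simp [pmt, h]

theorem pmt_image {N : ℕ} (π : Equiv.Perm (Fin N)) (x : ℕ → F) :
    pmt π x '' {j | j < N} = x '' {j | j < N} := by
  ext f
  constructor
  · rintro ⟨j, hj, rfl⟩
    have hj' : j < N := hj
    exact ⟨π ⟨j, hj'⟩, (π ⟨j, hj'⟩).2, by simp [pmt, hj']⟩
  · rintro ⟨j, hj, rfl⟩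
    have hj' : j < N := hj
    refine ⟨π.symm ⟨j, hj'⟩, (π.symm ⟨j, hj'⟩).2, ?_⟩
    simp [pmt]

theorem lev_pmt {N : ℕ} (π : Equiv.Perm (Fin N)) (x : ℕ → F) :
    lev k (pmt π x) N = lev k x N := by
  unfold lev
  rw [pmt_image]

theorem pmt_swap {N : ℕ} (i : Fin N) (x : ℕ → F) :
    pmt (Equiv.swap i.castSucc i.succ) x = fun j => x (Equiv.swap (i : ℕ) ((i : ℕ) + 1) j) := by
  funext j
  unfold pmt
  split_ifs with h
  · congr 1
    rcases eq_or_ne (⟨j, h⟩ : Fin (N + 1)) i.castSucc with h1 | h1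
    · have h2 : j = i := by simpa using congrArg Fin.val h1
      rw [h1, Equiv.swap_apply_left, h2, Equiv.swap_apply_left]
      simp
    · rcases eq_or_ne (⟨j, h⟩ : Fin (N + 1)) i.succ with h3 | h3
      · have h2 : j = i + 1 := by simpa using congrArg Fin.val h3
        rw [h3, Equiv.swap_apply_right, h2, Equiv.swap_apply_right]
        simp
      · have h4 : j ≠ i := fun h5 => h1 (Fin.ext (by simp [h5]))
        have h5 : j ≠ i + 1 := fun h5 => h3 (Fin.ext (by simp [h5]))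
        rw [Equiv.swap_apply_of_ne_of_ne h1 h3, Equiv.swap_apply_of_ne_of_ne h4 h5]
  · have h4 : j ≠ i := fun h5 => h (by omega)
    have h5 : j ≠ i + 1 := fun h5 => h (by omega)
    rw [Equiv.swap_apply_of_ne_of_ne h4 h5]

/-- S2 for permutations. -/
theorem eqv_pmt (hΩ : ℵ₀ ≤ Algebra.trdeg k Ω) {d : ℕ}
    (hF : Algebra.trdeg (HahnSeries ℚ k) F = d) {c : IntermediateField k Ω → ℚ}
    (hc : Wt (d : Cardinal.{u}) c) {N : ℕ} (π : Equiv.Perm (Fin N)) (x : ℕ → F)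
    (hx : lev k x N = ⊤) : Eqv d c x N (pmt π x) N := by
  cases N with
  | zero =>
    have : π = 1 := Subsingleton.elim _ _
    rw [this, pmt_one]
    intro ι κ _ _ s s' A hs hs'
    exact Adp.eq_same hΩ hF hc hx hs hs'
  | succ N =>
    have h1 : π ∈ Submonoid.closure
        (Set.range fun i : Fin N => Equiv.swap i.castSucc i.succ) := by
      rw [Equiv.Perm.mclosure_swap_castSucc_succ]
      trivial
    induction h1 using Submonoid.closure_induction generalizing x with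
    | mem ρ hρ =>
      obtain ⟨i, rfl⟩ := hρ
      intro ι κ _ _ s s' A hs hs'
      have h2 := lev_pmt (k := k) (Equiv.swap i.castSucc i.succ) x
      rw [hx] at h2
      simp only [pmt_swap] at hs' h2 ⊢
      exact Adp.eq_swap hΩ hF hc hx (by omega) hs hs' h2
    | one =>
      rw [pmt_one]
      intro ι κ _ _ s s' A hs hs'
      exact Adp.eq_same hΩ hF hc hx hs hs'
    | mul ρ ρ' _ _ h h' =>
      rw [pmt_mul]
      have h2 : lev k (pmt ρ x) (N + 1) = ⊤ := by rw [lev_pmt, hx]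
      exact (h x hx).trans hΩ hF h2 (h' (pmt ρ x) h2)

/-! ### concatenation -/

/-- Concatenation of the first `N` entries of `x` with `y`. -/
def cat (N : ℕ) (x y : ℕ → F) : ℕ → F := fun j => if j < N then x j else y (j - N)

theorem lev_cat (x y : ℕ → F) {N i : ℕ} (hi : i ≤ N) : lev k (cat N x y) i = lev k x i := by
  unfold lev
  congr 1
  apply Set.image_congr
  intro j hj
  have : j < N := lt_of_lt_of_le hj hi
  simp [cat, this]

theorem V_cat (x y : ℕ → F) {N i : ℕ} (hi : i < N) (D : Set (Pt k Ω F)) (φ : Pt k Ω F) :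
    V (cat N x y) D i φ = V x D i φ := by
  unfold V
  ext z
  simp only [Set.mem_ofPred_eq]
  constructor
  · rintro ⟨ψ, hψ, h1, h2⟩
    refine ⟨ψ, hψ, fun j hj => ?_, ?_⟩
    · have := h1 j hj
      simpa [cat, hj.trans hi] using this
    · simpa [cat, hi] using h2
  · rintro ⟨ψ, hψ, h1, h2⟩
    refine ⟨ψ, hψ, fun j hj => ?_, ?_⟩
    · have := h1 j hj
      simpa [cat, hj.trans hi] using this
    · simpa [cat, hi] using h2

theorem NPd.cat {x y : ℕ → F} {N M : ℕ} (hx : lev k x N = ⊤) {D : Set (Pt k Ω F)}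
    (hD : NPd x N D) : NPd (cat N x y) (N + M) D := by
  have key : ∀ i, N ≤ i → lev k (KTS.cat N x y) i = ⊤ := by
    intro i hi
    rw [eq_top_iff, ← hx, ← lev_cat x y le_rfl]
    exact lev_mono _ hi
  refine ⟨fun i hi ht φ hφ => ?_, fun i hi ha φ hφ => ?_⟩
  · rcases lt_or_ge i N with h | h
    · rw [V_cat x y h, lev_cat x y h.le]
      rw [lev_cat x y h.le] at ht
      have hxi : KTS.cat N x y i = x i := by simp [KTS.cat, h]
      rw [hxi] at ht
      exact hD.tr i h ht φ hφ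
    · exfalso
      apply ht
      rw [key i h]
      exact isAlgebraic_algebraMap (⟨KTS.cat N x y i, trivial⟩ : (⊤ : IntermediateField _ F))
  · rcases lt_or_ge i N with h | h
    · rw [V_cat x y h]
      rw [lev_cat x y h.le] at ha
      have hxi : KTS.cat N x y i = x i := by simp [KTS.cat, h]
      rw [hxi] at ha
      exact hD.al i h ha φ hφ
    · rintro a ⟨ψ, hψ, h1, h2⟩ b ⟨ψ', hψ', h3, h4⟩
      rw [← h2, ← h4]
      rw [agree_lev h1 (e := KTS.cat N x y i) (by rw [key i h]; trivial),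
        agree_lev h3 (e := KTS.cat N x y i) (by rw [key i h]; trivial)]

theorem Adp.cat {ι : Type v} [Fintype ι] {x y : ℕ → F} {N M : ℕ} (hx : lev k x N = ⊤)
    {A : Set (Pt k Ω F)} {s : ι → F} (hA : Adp x N A s) : Adp (cat N x y) (N + M) A s :=
  ⟨hA.meas, fun φ hφ => (hA.npd φ hφ).cat hx⟩

/-- Rotation. -/
def rot (N M : ℕ) : Equiv.Perm (Fin (N + M)) where
  toFun j := if h : (j : ℕ) < M then ⟨N + j, by omega⟩ else ⟨j - M, by omega⟩
  invFun j := if h : (j : ℕ) < N then ⟨M + j, by omega⟩ else ⟨j - N, by omega⟩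
  left_inv j := by
    have hj := j.2
    by_cases h : (j : ℕ) < M
    · simp only [h, dite_true]
      rw [dif_neg (by omega)]
      ext
      simp
    · simp only [h, dite_false]
      rw [dif_pos (by omega)]
      ext
      simp only
      omega
  right_inv j := by
    have hj := j.2
    by_cases h : (j : ℕ) < N
    · simp only [h, dite_true]
      rw [dif_neg (by omega)]
      ext
      simp
    · simp only [h, dite_false]
      rw [dif_pos (by omega)]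
      ext
      simp only
      omega

theorem pmt_rot (x y : ℕ → F) (N M : ℕ) {j : ℕ} (hj : j < N + M) :
    pmt (rot N M) (cat N x y) j = cat M y x j := by
  unfold pmt
  rw [dif_pos hj]
  by_cases h : j < M
  · simp [rot, cat, h]
  · have h1 : j - M < N := by omega
    simp [rot, cat, h, h1]

theorem lev_congr {x y : ℕ → F} {i : ℕ} (h : ∀ j < i, x j = y j) : lev k x i = lev k y i := by
  unfold lev
  congr 1
  apply Set.image_congr
  intro j hj
  exact h j hj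

theorem V_congr {x y : ℕ → F} {i : ℕ} (h : ∀ j ≤ i, x j = y j) (D : Set (Pt k Ω F))
    (φ : Pt k Ω F) : V x D i φ = V y D i φ := by
  unfold V
  rw [h i le_rfl]
  have : ∀ ψ : Pt k Ω F, (∀ j < i, ψ (x j) = φ (x j)) ↔ (∀ j < i, ψ (y j) = φ (y j)) := by
    intro ψ
    refine forall₂_congr fun j hj => ?_
    rw [h j hj.le]
  simp only [this]

theorem NPd.congr {x y : ℕ → F} {N : ℕ} (h : ∀ j < N, x j = y j) {D : Set (Pt k Ω F)}
    (hD : NPd x N D) : NPd y N D := by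
  refine ⟨fun i hi ht φ hφ => ?_, fun i hi ha φ hφ => ?_⟩
  · rw [← lev_congr (fun j hj => h j (hj.trans hi)), ← h i hi] at ht
    rw [← lev_congr (fun j hj => h j (hj.trans hi)),
      ← V_congr (fun j hj => h j (lt_of_le_of_lt hj hi))]
    exact hD.tr i hi ht φ hφ
  · rw [← lev_congr (fun j hj => h j (hj.trans hi)), ← h i hi] at ha
    rw [← V_congr (fun j hj => h j (lt_of_le_of_lt hj hi))]
    exact hD.al i hi ha φ hφ

theorem Adp.congr {ι : Type v} [Fintype ι] {x y : ℕ → F} {N : ℕ} (h : ∀ j < N, x j = y j)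
    {A : Set (Pt k Ω F)} {s : ι → F} (hA : Adp x N A s) : Adp y N A s :=
  ⟨hA.meas, fun φ hφ => (hA.npd φ hφ).congr h⟩

/-- Independence of the generating tuple and of the order. -/
theorem Int_indep (hΩ : ℵ₀ ≤ Algebra.trdeg k Ω) {d : ℕ}
    (hF : Algebra.trdeg (HahnSeries ℚ k) F = d) {c : IntermediateField k Ω → ℚ}
    (hc : Wt (d : Cardinal.{u}) c) {x y : ℕ → F} {N M : ℕ} (hx : lev k x N = ⊤)
    (hy : lev k y M = ⊤) {ι κ : Type u} [Fintype ι] [Fintype κ] {s : ι → F} {s' : κ → F}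
    {A : Set (Pt k Ω F)} (hA : Adp x N A s) (hA' : Adp y M A s') :
    Int (⊤ : Subgroup (Ω ≃ₐ[k] Ω)) (JA A s c) = Int (⊤ : Subgroup (Ω ≃ₐ[k] Ω)) (JA A s' c) := by
  have h1 : Adp (cat N x y) (N + M) A s := hA.cat hx
  have h2 : Adp (cat M y x) (M + N) A s' := hA'.cat hy
  rw [Nat.add_comm M N] at h2
  have h3 : Adp (pmt (rot N M) (cat N x y)) (N + M) A s' :=
    h2.congr fun j hj => (pmt_rot x y N M hj).symm
  have h4 : lev k (cat N x y) (N + M) = ⊤ := by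
    rw [eq_top_iff, ← hx, ← lev_cat x y le_rfl]
    exact lev_mono _ (Nat.le_add_right _ _)
  exact eqv_pmt hΩ hF hc (rot N M) (cat N x y) h4 _ _ _ _ _ _ A h1 h3

/-! ### reindexing the tuples -/

theorem Meas.equiv {ι : Type v} {κ : Type w} [Fintype ι] [Fintype κ] (e : κ ≃ ι)
    {A : Set (Pt k Ω F)} {s : ι → F} (hA : Meas A s) : Meas A (fun j => s (e j)) := by
  obtain ⟨Z, h1, h2, h3⟩ := hA
  refine ⟨{z | (fun i => z (e.symm i)) ∈ Z}, fun φ => ?_, fun σ z hz => ?_, fun w => ?_⟩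
  · rw [h1]
    have : (fun i => rvt (fun j => s (e j)) φ (e.symm i)) = rvt s φ := by
      funext i
      simp [rvt]
    show _ ↔ (fun i => rvt (fun j => s (e j)) φ (e.symm i)) ∈ Z
    rw [this]
  · exact h2 σ _ hz
  · exact (h3 fun i => w (e.symm i)).pre (AffM.reindex e.symm)

theorem rvt_equiv_iff {ι : Type v} {κ : Type w} (e : κ ≃ ι) (s : ι → F) (φ ψ : Pt k Ω F) :
    rvt (fun j => s (e j)) φ = rvt (fun j => s (e j)) ψ ↔ rvt s φ = rvt s ψ := by
  constructor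
  · intro h
    funext i
    have := congrFun h (e.symm i)
    simpa [rvt] using this
  · intro h
    funext j
    exact congrFun h (e j)

theorem Adp.equiv {ι : Type v} {κ : Type w} [Fintype ι] [Fintype κ] (e : κ ≃ ι)
    {x : ℕ → F} {N : ℕ} {A : Set (Pt k Ω F)} {s : ι → F} (hA : Adp x N A s) :
    Adp x N A (fun j => s (e j)) := by
  refine ⟨hA.meas.equiv e, fun φ hφ => ?_⟩
  simp only [rvt_equiv_iff]
  exact hA.npd φ hφ

theorem JA_equiv {ι : Type v} {κ : Type w} (e : κ ≃ ι) (A : Set (Pt k Ω F)) (s : ι → F)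
    (c : IntermediateField k Ω → ℚ) :
    JA A (fun j => s (e j)) c = fun z : κ → Ω × ℚ => JA A s c fun i => z (e.symm i) := by
  classical
  funext z
  unfold JA
  have h1 : (∃ φ ∈ A, rvt (fun j => s (e j)) φ = z) ↔
      ∃ φ ∈ A, rvt s φ = fun i => z (e.symm i) := by
    refine exists_congr fun φ => and_congr_right fun _ => ?_
    constructor
    · rintro rfl
      funext i
      simp [rvt]
    · intro h
      funext j
      have := congrFun h (e j)
      simpa [rvt] using this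
  have h2 : kf k (ac z) = kf k (ac fun i => z (e.symm i)) := by
    unfold kf
    congr 1
    have : (ac fun i => z (e.symm i)) = ac z ∘ e.symm := rfl
    rw [this, Set.range_comp, e.symm.range_eq_univ, Set.image_univ]
  simp only [h1, h2]

theorem Int_JA_equiv (hΩ : ℵ₀ ≤ Algebra.trdeg k Ω) {d : ℕ}
    (hF : Algebra.trdeg (HahnSeries ℚ k) F = d) {c : IntermediateField k Ω → ℚ}
    (hc : Wt (d : Cardinal.{u}) c) {x : ℕ → F} {N : ℕ} (hx : lev k x N = ⊤) {ι : Type u}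
    {κ : Type w} [Fintype ι] [Fintype κ] (e : κ ≃ ι) {A : Set (Pt k Ω F)} {s : ι → F}
    (hA : Meas A s) :
    Int (⊤ : Subgroup (Ω ≃ₐ[k] Ω)) (JA A (fun j => s (e j)) c) =
      Int (⊤ : Subgroup (Ω ≃ₐ[k] Ω)) (JA A s c) := by
  rw [JA_equiv]
  exact Int_equiv e.symm (FT_JA_meas hΩ hF hx hc s hA)

/-- Additivity. -/
theorem JA_sum {ι : Type v} [Fintype ι] {α : Type w} [Fintype α] {s : ι → F}
    (S : α → Set (Pt k Ω F)) (hM : ∀ a, Meas (S a) s) (hdisj : Pairwise (Function.onFun Disjoint S))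
    (hU : (⋃ a, S a) = Set.univ) (c : IntermediateField k Ω → ℚ) :
    JA (Set.univ : Set (Pt k Ω F)) s c = fun z => ∑ a, JA (S a) s c z := by
  classical
  funext z
  by_cases hz : ∃ φ : Pt k Ω F, rvt s φ = z
  · obtain ⟨φ, rfl⟩ := hz
    have hφ : φ ∈ ⋃ a, S a := by rw [hU]; trivial
    obtain ⟨a, ha⟩ := Set.mem_iUnion.1 hφ
    rw [Finset.sum_eq_single a]
    · unfold JA
      rw [if_pos ⟨φ, trivial, rfl⟩, if_pos ⟨φ, ha, rfl⟩]
    · intro b _ hb
      unfold JA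
      rw [if_neg]
      rintro ⟨ψ, hψ, h⟩
      have h1 : φ ∈ S b := ((hM b).mem_iff h).1 hψ
      exact Set.disjoint_left.1 (hdisj hb) h1 ha
    · intro h
      exact absurd (Finset.mem_univ a) h
  · unfold JA
    rw [if_neg (by rintro ⟨φ, -, h⟩; exact hz ⟨φ, h⟩)]
    rw [Finset.sum_eq_zero]
    intro a _
    rw [if_neg (by rintro ⟨φ, -, h⟩; exact hz ⟨φ, h⟩)]

/-- The comparison theorem, tuples indexed by types of the universe of the fields. -/
theorem comparison_u (hΩ : ℵ₀ ≤ Algebra.trdeg k Ω) {d : ℕ}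
    (hF : Algebra.trdeg (HahnSeries ℚ k) F = d) {c : IntermediateField k Ω → ℚ}
    (hc : Wt (d : Cardinal.{u}) c) {b0 : Type u} [Fintype b0] (s0 : b0 → F) (x0 : ℕ → F) (N0 : ℕ)
    (hx0 : lev k x0 N0 = ⊤)
    (hN0 : ∀ φ : Pt k Ω F, NPd x0 N0 {ψ : Pt k Ω F | rvt s0 ψ = rvt s0 φ})
    {α : Type v} [Fintype α] (b : α → Type u) [∀ a, Fintype (b a)] (s : ∀ a, b a → F)
    (S : α → Set (Pt k Ω F)) (x : α → ℕ → F) (N : α → ℕ) (hx : ∀ a, lev k (x a) (N a) = ⊤)
    (hM : ∀ a, Meas (S a) (s a)) (hdisj : Pairwise (Function.onFun Disjoint S))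
    (hU : (⋃ a, S a) = Set.univ)
    (hN : ∀ a, ∀ φ ∈ S a, NPd (x a) (N a) {ψ : Pt k Ω F | ψ ∈ S a ∧ rvt (s a) ψ = rvt (s a) φ}) :
    Int (⊤ : Subgroup (Ω ≃ₐ[k] Ω)) (JA (Set.univ : Set (Pt k Ω F)) s0 c) =
      ∑ a, Int (⊤ : Subgroup (Ω ≃ₐ[k] Ω)) (JA (S a) (s a) c) := by
  classical
  have hF' : Algebra.trdeg (HahnSeries ℚ k) F < ℵ₀ := by rw [hF]; exact Cardinal.natCast_lt_aleph0
  obtain ⟨P, hP, hq⟩ := exists_tower_quo hΩ hF' x0 N0 hx0
    (Finset.univ.image s0 ∪ Finset.univ.biUnion fun a => Finset.univ.image (s a))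
  have hq0 : ∀ j, s0 j ≠ 0 → Quo (k := k) x0 P N0 (s0 j) := fun j hj => hq _ (by simp) hj
  have hqa : ∀ a j, s a j ≠ 0 → Quo (k := k) x0 P N0 (s a j) := fun a j hj =>
    hq _ (by
      refine Finset.mem_union_right _ (Finset.mem_biUnion.2 ⟨a, Finset.mem_univ a, ?_⟩)
      exact Finset.mem_image_of_mem _ (Finset.mem_univ j)) hj
  have h0 : Adp x0 N0 (Set.univ : Set (Pt k Ω F)) s0 := by
    refine ⟨⟨Set.univ, fun φ => by simp, fun σ z _ => trivial, fun w => ?_⟩, fun φ _ => ?_⟩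
    · simpa using SL.univ
    · simpa using hN0 φ
  have ha : ∀ a, Adp (x a) (N a) (S a) (s a) := fun a => ⟨hM a, hN a⟩
  have hta : ∀ a, Adp x0 N0 (S a) (helt x0 P N0) := fun a => adp_tower hΩ hF' (hM a) hP (hqa a)
  rw [h0.eq_tower hΩ hF hc hx0 hP hq0, JA_sum S (fun a => (hta a).meas) hdisj hU c,
    Int_sum Finset.univ (J := fun a => JA (S a) (helt x0 P N0) c)
      (fun a _ => FT_JA_meas hΩ hF hx0 hc _ (hta a).meas)]
  refine Finset.sum_congr rfl fun a _ => ?_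
  exact Int_indep hΩ hF hc hx0 (hx a) (hta a) (ha a)

/-- The comparison theorem. -/
theorem comparison (hΩ : ℵ₀ ≤ Algebra.trdeg k Ω) {d : ℕ}
    (hF : Algebra.trdeg (HahnSeries ℚ k) F = d) {c : IntermediateField k Ω → ℚ}
    (hc : Wt (d : Cardinal.{u}) c) {b0 : Type w} [Fintype b0] (s0 : b0 → F) (x0 : ℕ → F) (N0 : ℕ)
    (hx0 : lev k x0 N0 = ⊤)
    (hN0 : ∀ φ : Pt k Ω F, NPd x0 N0 {ψ : Pt k Ω F | rvt s0 ψ = rvt s0 φ})
    {α : Type v} [Fintype α] (b : α → Type w) [∀ a, Fintype (b a)] (s : ∀ a, b a → F)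
    (S : α → Set (Pt k Ω F)) (x : α → ℕ → F) (N : α → ℕ) (hx : ∀ a, lev k (x a) (N a) = ⊤)
    (hM : ∀ a, Meas (S a) (s a)) (hdisj : Pairwise (Function.onFun Disjoint S))
    (hU : (⋃ a, S a) = Set.univ)
    (hN : ∀ a, ∀ φ ∈ S a, NPd (x a) (N a) {ψ : Pt k Ω F | ψ ∈ S a ∧ rvt (s a) ψ = rvt (s a) φ}) :
    Int (⊤ : Subgroup (Ω ≃ₐ[k] Ω)) (JA (Set.univ : Set (Pt k Ω F)) s0 c) =
      ∑ a, Int (⊤ : Subgroup (Ω ≃ₐ[k] Ω)) (JA (S a) (s a) c) := by
  classical
  let e0 : ULift.{u} (Fin (Fintype.card b0)) ≃ b0 := Equiv.ulift.trans (Fintype.equivFin b0).symm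
  let e : ∀ a, ULift.{u} (Fin (Fintype.card (b a))) ≃ b a :=
    fun a => Equiv.ulift.trans (Fintype.equivFin (b a)).symm
  have h0 : Adp x0 N0 (Set.univ : Set (Pt k Ω F)) s0 := by
    refine ⟨⟨Set.univ, fun φ => by simp, fun σ z _ => trivial, fun w => ?_⟩, fun φ _ => ?_⟩
    · simpa using SL.univ
    · simpa using hN0 φ
  have ha : ∀ a, Adp (x a) (N a) (S a) (s a) := fun a => ⟨hM a, hN a⟩
  have h0' := h0.equiv e0
  have ha' := fun a => (ha a).equiv (e a)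
  have h1 := comparison_u hΩ hF hc (fun j => s0 (e0 j)) x0 N0 hx0
    (fun φ => by simpa using h0'.npd φ trivial) _ (fun a j => s a (e a j)) S x N hx
    (fun a => (ha' a).meas) hdisj hU (fun a => (ha' a).npd)
  have h2 := Int_JA_equiv hΩ hF hc hx0 e0.symm (s := fun j => s0 (e0 j)) h0'.meas
  have h3 : ∀ a, _ := fun a => Int_JA_equiv hΩ hF hc (hx a) (e a).symm
    (s := fun j => s a (e a j)) (ha' a).meas
  simp only [Equiv.apply_symm_apply] at h2 h3
  rw [h2, h1]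
  exact Finset.sum_congr rfl fun a _ => (h3 a).symm

end SB

end

end KTS
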