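import Pool.Agent.KTS.IN
import Pool.Agent.KTS.HN

/-!
# [KTS-S3] projective space: the volume of a purely transcendental field
-/

set_option autoImplicit false
set_option linter.unusedSectionVars false

namespace KTS

noncomputable section

universe u v w

open Polynomial Cardinal

/-! ### algebraically independent tuples -/

section Tup

variable {K E : Type u} [Field K] [Field E] [Algebra K E] {n : ℕ}

/-- the tuple in the field it generates -/
def tupIn (y : Fin n → E) (i : Fin n) :
    (IntermediateField.adjoin K (Set.range y) : IntermediateField K E) :=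
  ⟨y i, IntermediateField.subset_adjoin K _ ⟨i, rfl⟩⟩

theorem td_tup (y : Fin n → E) (h : AlgebraicIndependent K y) :
    Algebra.trdeg K (IntermediateField.adjoin K (Set.range y) : IntermediateField K E) = n := by
  apply le_antisymm
  · refine (td_adjoin_le _).trans ?_
    have h1 := Cardinal.mk_range_le (f := fun i : ULift.{u} (Fin n) => y i.down)
    have h2 : Set.range (fun i : ULift.{u} (Fin n) => y i.down) = Set.range y := by
      ext x
      constructor
      · rintro ⟨i, rfl⟩
        exact ⟨i.down, rfl⟩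
      · rintro ⟨i, rfl⟩
        exact ⟨⟨i⟩, rfl⟩
    rw [h2] at h1
    refine h1.trans ?_
    rw [Cardinal.mk_uLift, Cardinal.mk_fin, Cardinal.lift_natCast]
  · have h1 : AlgebraicIndependent K (tupIn (K := K) y) :=
      AlgebraicIndependent.of_comp
        (IntermediateField.adjoin K (Set.range y) : IntermediateField K E).val h
    have h2 := h1.lift_cardinalMk_le_trdeg
    rw [Cardinal.mk_fin, Cardinal.lift_natCast, Cardinal.lift_id'] at h2
    exact h2

theorem tup_of_td (y : Fin n → E)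
    (h : Algebra.trdeg K (IntermediateField.adjoin K (Set.range y) : IntermediateField K E) = n) :
    AlgebraicIndependent K y := by
  set T : IntermediateField K E := IntermediateField.adjoin K (Set.range y) with hT
  have h0 : IntermediateField.adjoin K (Set.range (tupIn (K := K) y)) =
      (⊤ : IntermediateField K T) := by
    apply IntermediateField.lift_injective T
    rw [IntermediateField.lift_adjoin, IntermediateField.lift_top, ← Set.range_comp]
    rfl
  have h1 : Algebra.IsAlgebraic (Algebra.adjoin K (Set.range (tupIn (K := K) y))) T := by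
    rw [← IntermediateField.isAlgebraic_adjoin_iff_top, h0]
    constructor
    intro x
    exact isAlgebraic_algebraMap (⟨x, IntermediateField.mem_top⟩ : (⊤ : IntermediateField K T))
  have h2 := Algebra.IsAlgebraic.isTranscendenceBasis_of_lift_le_trdeg_of_finite K
    (tupIn (K := K) y) (by rw [h, Cardinal.mk_fin, Cardinal.lift_natCast, Cardinal.lift_natCast])
  exact h2.1.map' (f := T.val) (RingHom.injective _)

/-- two algebraically independent tuples are conjugate -/
theorem tup_conj [IsAlgClosed E] {y y' : Fin n → E} (h : AlgebraicIndependent K y)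
    (h' : AlgebraicIndependent K y') : ∃ σ : E ≃ₐ[K] E, ∀ i, σ (y i) = y' i := by
  set T : IntermediateField K E := IntermediateField.adjoin K (Set.range y) with hT
  have h1 : AlgebraicIndependent K (tupIn (K := K) y) := AlgebraicIndependent.of_comp T.val h
  have htd : Algebra.trdeg K T = n := td_tup y h
  have h2 : IsTranscendenceBasis K (tupIn (K := K) y) := by
    refine h1.isTranscendenceBasis_of_lift_trdeg_le_of_finite ?_
    rw [htd, Cardinal.mk_fin, Cardinal.lift_natCast, Cardinal.lift_natCast]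
  obtain ⟨f, hf⟩ := emb_of_algInd h2 h'
  obtain ⟨σ, hσ⟩ := homog (by rw [htd]; exact Cardinal.natCast_lt_aleph0) T.val f
  exact ⟨σ, fun i => (hσ (tupIn y i)).trans (hf i)⟩

end Tup

section S3

variable {k Ω F : Type u} [Field k] [Field Ω] [Algebra k Ω] [IsAlgClosed Ω]
  [Field F] [Algebra (HahnSeries ℚ k) F] {n : ℕ}

/-- the levels of an algebraically independent tuple are transcendental -/
theorem tr_lev_of_algInd {y : Fin n → F} (hy : AlgebraicIndependent (HahnSeries ℚ k) y) {x : ℕ → F}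
    (hx : ∀ i : Fin n, x i = y i) {i : ℕ} (hi : i < n) : Transcendental (lev k x i) (x i) := by
  have h1 := hy.transcendental_adjoin (s := {j : Fin n | (j : ℕ) < i}) (i := ⟨i, hi⟩) (by simp)
  rw [← IntermediateField.transcendental_adjoin_iff] at h1
  have h2 : y '' {j : Fin n | (j : ℕ) < i} = x '' {j | j < i} := by
    ext z
    constructor
    · rintro ⟨j, hj, rfl⟩
      exact ⟨j, hj, hx j⟩
    · rintro ⟨j, hj, rfl⟩
      exact ⟨⟨j, hj.trans hi⟩, hj, (hx ⟨j, hj.trans hi⟩).symm⟩
  have h3 : y ⟨i, hi⟩ = x i := (hx ⟨i, hi⟩).symm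
  rw [h3] at h1
  unfold lev
  rw [← h2]
  exact h1

omit [IsAlgClosed Ω] in
theorem eq_on_lev {x : ℕ → F} {i : ℕ} {φ ψ : Pt k Ω F} (h : ∀ j < i, φ (x j) = ψ (x j)) :
    ∀ e ∈ lev k x i, φ e = ψ e := by
  intro e he
  refine IntermediateField.adjoin_induction (HahnSeries ℚ k) (p := fun e _ => φ e = ψ e) ?_ ?_ ?_
    ?_ ?_ he
  · rintro _ ⟨j, hj, rfl⟩
    exact h j hj
  · intro a
    rw [AlgHom.commutes, AlgHom.commutes]
  · intro a b _ _ ha hb
    rw [map_add, map_add, ha, hb]
  · intro a _ ha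
    rw [map_inv₀, map_inv₀, ha]
  · intro a b _ _ ha hb
    rw [map_mul, map_mul, ha, hb]

/-- correction of the later values of a point -/
theorem exists_correct (hΩ : ℵ₀ ≤ Algebra.trdeg k Ω) {x : ℕ → F} {n : ℕ}
    (htr : ∀ i < n, Transcendental (lev k x i) (x i)) (c : ℕ → HahnSeries ℚ Ω)
    (hc : ∀ i < n, c i ≠ 0) (ψ₁ : Pt k Ω F) (m : ℕ) (hm : m ≤ n) :
    ∃ ψ : Pt k Ω F, (∀ e ∈ lev k x m, ψ e = ψ₁ e) ∧
      ∀ j, m ≤ j → j < n → rv (ψ (x j)) = rv (c j) := by
  have key : ∀ N, m ≤ N → N ≤ n → ∃ ψ : Pt k Ω F, (∀ e ∈ lev k x m, ψ e = ψ₁ e) ∧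
      ∀ j, m ≤ j → j < N → rv (ψ (x j)) = rv (c j) := by
    intro N hN
    induction N, hN using Nat.le_induction with
    | base =>
      intro _
      exact ⟨ψ₁, fun _ _ => rfl, fun j h1 h2 => absurd h1 (not_le.2 h2)⟩
    | succ N hN ih =>
      intro hNn
      obtain ⟨ψ, h1, h2⟩ := ih (Nat.le_of_succ_le hNn)
      obtain ⟨y', hy', hy''⟩ := exists_not_algO ψ (td_lev_lt x N) hΩ (c N) (c N).order
      obtain ⟨ψ', h3, h4⟩ := ext_tr ψ (htr N hNn) hy''
      refine ⟨ψ', fun e he => (h3 e (lev_mono x hN he)).trans (h1 e he), fun j hj hjN => ?_⟩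
      rcases Nat.lt_succ_iff_lt_or_eq.1 hjN with h | rfl
      · rw [h3 _ (mem_lev x h)]
        exact h2 j hj h
      · rw [h4]
        symm
        apply rv_eq_of_lt
        have h5 : ((c j).order : WithTop ℚ) < (y' - c j).orderTop := hy'
        rw [HahnSeries.order_eq_orderTop_of_ne_zero (hc j hNn)] at h5
        rw [← neg_sub, HahnSeries.orderTop_neg]
        exact h5
  exact key n hm le_rfl

/-- [S3a] the fibres of an algebraically independent tuple are nested polydiscs -/
theorem npd_pn (hΩ : ℵ₀ ≤ Algebra.trdeg k Ω) {y : Fin n → F}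
    (hy : AlgebraicIndependent (HahnSeries ℚ k) y) {x : ℕ → F} (hx : ∀ i : Fin n, x i = y i)
    (φ : Pt k Ω F) : NPd x n {ψ : Pt k Ω F | rvt y ψ = rvt y φ} := by
  have htr : ∀ i < n, Transcendental (lev k x i) (x i) := fun i hi => tr_lev_of_algInd hy hx hi
  have hx0 : ∀ i < n, x i ≠ 0 := by
    intro i hi h0
    apply htr i hi
    rw [h0]
    exact isAlgebraic_zero
  refine ⟨fun i hi _ φ' hφ' => ?_, fun i hi hal => absurd hal (htr i hi)⟩
  have hc0 : ∀ j < n, φ' (x j) ≠ 0 := fun j hj h0 =>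
    hx0 j hj ((map_eq_zero_iff φ' φ'.injective).1 h0)
  refine ⟨φ' (x i), (φ' (x i)).order, ?_⟩
  have hord := HahnSeries.order_eq_orderTop_of_ne_zero (hc0 i hi)
  ext z
  constructor
  · rintro ⟨ψ, hψ, hag, rfl⟩
    have hψφ : ∀ e ∈ lev k x i, φ' e = ψ e :=
      eq_on_lev fun j hj => (hag j hj).symm
    refine ⟨?_, ?_⟩
    · have h1 : rv (φ' (x i)) = rv (ψ (x i)) := by
        have h2 := congrFun (hφ'.trans hψ.symm : rvt y φ' = rvt y ψ) ⟨i, hi⟩
        have h3 : rv (φ' (y ⟨i, hi⟩)) = rv (ψ (y ⟨i, hi⟩)) := h2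
        rw [← hx ⟨i, hi⟩] at h3
        exact h3
      have h2 := lt_of_rv_eq h1 (hc0 i hi)
      change ((φ' (x i)).order : WithTop ℚ) < (ψ (x i) - φ' (x i)).orderTop
      rw [hord, ← neg_sub, HahnSeries.orderTop_neg]
      exact h2
    · rw [algO_congr hψφ, algO_iff]
      exact transcendental_imE (htr i hi)
  · rintro ⟨hz, hz'⟩
    obtain ⟨ψ₁, h1, h2⟩ := ext_tr φ' (htr i hi) hz'
    obtain ⟨ψ, h3, h4⟩ := exists_correct hΩ htr (fun j => φ' (x j)) hc0 ψ₁ (i + 1) hi
    have h5 : ∀ j < i, ψ (x j) = φ' (x j) := fun j hj => by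
      rw [h3 _ (mem_lev x (hj.trans (Nat.lt_succ_self i))), h1 _ (mem_lev x hj)]
    have h6 : ψ (x i) = z := by
      rw [h3 _ (mem_lev x (Nat.lt_succ_self i)), h2]
    refine ⟨ψ, ?_, h5, h6⟩
    change rvt y ψ = rvt y φ
    rw [← (show rvt y φ' = rvt y φ from hφ')]
    funext j
    change rv (ψ (y j)) = rv (φ' (y j))
    rw [← hx j]
    rcases lt_trichotomy (j : ℕ) i with hj | hj | hj
    · rw [h5 _ hj]
    · rw [hj, h6]
      symm
      apply rv_eq_of_lt
      have h7 : ((φ' (x i)).order : WithTop ℚ) < (z - φ' (x i)).orderTop := hz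
      rw [hord] at h7
      rw [← neg_sub, HahnSeries.orderTop_neg]
      exact h7
    · exact h4 j hj j.2

/-- scaling an algebraically independent tuple -/
theorem algInd_scale {K E : Type u} [Field K] [Field E] [Algebra K E] {y z : Fin n → E}
    (hy : AlgebraicIndependent K y) (a : Fin n → K) (ha : ∀ i, a i ≠ 0)
    (hz : ∀ i, z i = algebraMap K E (a i) * y i) : AlgebraicIndependent K z := by
  have h1 : IntermediateField.adjoin K (Set.range z) = IntermediateField.adjoin K (Set.range y) := by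
    apply le_antisymm
    · rw [IntermediateField.adjoin_le_iff]
      rintro _ ⟨i, rfl⟩
      rw [hz]
      exact mul_mem (IntermediateField.algebraMap_mem _ _)
        (IntermediateField.subset_adjoin K _ ⟨i, rfl⟩)
    · rw [IntermediateField.adjoin_le_iff]
      rintro _ ⟨i, rfl⟩
      have h2 : y i = algebraMap K E (a i)⁻¹ * z i := by
        rw [hz, ← mul_assoc, ← map_mul, inv_mul_cancel₀ (ha i), map_one, one_mul]
      rw [h2]
      exact mul_mem (IntermediateField.algebraMap_mem _ _)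
        (IntermediateField.subset_adjoin K _ ⟨i, rfl⟩)
  apply tup_of_td
  rw [h1]
  exact td_tup y hy

omit [IsAlgClosed Ω] in
/-- the monomials `w t ^ g` are algebraically independent -/
theorem algInd_single {w : Fin n → Ω} (hw : AlgebraicIndependent k w) (g : Fin n → ℚ) :
    AlgebraicIndependent (HahnSeries ℚ k)
      (fun i => (HahnSeries.single (g i) (w i) : HahnSeries ℚ Ω)) := by
  have h1 : AlgebraicIndependent (HahnSeries ℚ k)
      (fun i => (HahnSeries.C (w i) : HahnSeries ℚ Ω)) := by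
    apply algInd_of_res (fun i => C_mem_Oint _)
    convert hw using 2 with i
    rw [HahnSeries.C_apply, HahnSeries.coeff_single_same]
  refine algInd_scale h1 (fun i => HahnSeries.single (g i) (1 : k)) (fun i => ?_) fun i => ?_
  · rw [Ne, HahnSeries.single_eq_zero_iff]
    exact one_ne_zero
  · rw [algebraMap_single, map_one, HahnSeries.C_apply, HahnSeries.single_mul_single, add_zero,
      one_mul]

theorem td_of_gen {y : Fin n → F} (hy : AlgebraicIndependent (HahnSeries ℚ k) y)
    (htop : IntermediateField.adjoin (HahnSeries ℚ k) (Set.range y) = ⊤) :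
    Algebra.trdeg (HahnSeries ℚ k) F = n := by
  rw [← td_top_eq, ← htop]
  exact td_tup y hy

/-- every vector with algebraically independent `Ω`-part is a value -/
theorem exists_rvt {y : Fin n → F} (hy : AlgebraicIndependent (HahnSeries ℚ k) y)
    (htop : IntermediateField.adjoin (HahnSeries ℚ k) (Set.range y) = ⊤) {w : Fin n → Ω}
    (hw : AlgebraicIndependent k w) (g : Fin n → ℚ) : ∃ φ : Pt k Ω F, rvt y φ = zip w g := by
  have h2 : IsTranscendenceBasis (HahnSeries ℚ k) y := by
    refine hy.isTranscendenceBasis_of_lift_trdeg_le_of_finite ?_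
    rw [td_of_gen hy htop, Cardinal.mk_fin, Cardinal.lift_natCast, Cardinal.lift_natCast]
  obtain ⟨f, hf⟩ := emb_of_algInd h2 (algInd_single hw g)
  refine ⟨f, funext fun i => ?_⟩
  change rv (f (y i)) = (w i, g i)
  rw [hf, rv_single (hw.ne_zero i)]

omit [IsAlgClosed Ω] in
theorem rvt_sact' {ι : Type v} (s : ι → F) (σ : Ω ≃ₐ[k] Ω) (φ : Pt k Ω F) :
    rvt s (sact (σ : Ω →ₐ[k] Ω) φ) = sz σ (rvt s φ) :=
  funext fun i => rv_hmapA (σ : Ω →ₐ[k] Ω) (φ (s i))

omit [IsAlgClosed Ω] in
theorem JA_univ_inv {ι : Type v} (s : ι → F) {d : Cardinal.{u}} {c : IntermediateField k Ω → ℚ}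
    (hc : Wt d c) (σ : Ω ≃ₐ[k] Ω) (z : ι → Ω × ℚ) :
    JA (Set.univ : Set (Pt k Ω F)) s c (sz σ z) = JA (Set.univ : Set (Pt k Ω F)) s c z := by
  classical
  have h1 : (∃ φ ∈ (Set.univ : Set (Pt k Ω F)), rvt s φ = sz σ z) ↔
      ∃ φ ∈ (Set.univ : Set (Pt k Ω F)), rvt s φ = z := by
    constructor
    · rintro ⟨φ, -, hφ⟩
      refine ⟨sact ((σ.symm : Ω ≃ₐ[k] Ω) : Ω →ₐ[k] Ω) φ, trivial, ?_⟩
      rw [rvt_sact', hφ]
      funext i
      exact Prod.ext (σ.symm_apply_apply _) rfl
    · rintro ⟨φ, -, hφ⟩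
      exact ⟨sact (σ : Ω →ₐ[k] Ω) φ, trivial, by rw [rvt_sact', hφ]⟩
  have h2 : c (kf k (ac (sz σ z))) = c (kf k (ac z)) := by
    rw [← hc.inv σ (kf k (ac z)), ← kf_sz]
    rfl
  unfold JA
  rw [h2]
  exact if_congr h1 rfl rfl

/-- [S3b] the volume of a purely transcendental field -/
theorem int_pn {y : Fin n → F} (hy : AlgebraicIndependent (HahnSeries ℚ k) y)
    (htop : IntermediateField.adjoin (HahnSeries ℚ k) (Set.range y) = ⊤)
    {c : IntermediateField k Ω → ℚ} (hc : Wt (n : Cardinal.{u}) c) {w : Fin n → Ω}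
    (hw : AlgebraicIndependent k w) :
    Int (⊤ : Subgroup (Ω ≃ₐ[k] Ω)) (JA (Set.univ : Set (Pt k Ω F)) y c) = c (kf k w) := by
  classical
  rw [Int_orbit (fun σ _ z => JA_univ_inv y hc σ z) w ?_]
  · have h1 : (fun g : Fin n → ℚ => JA (Set.univ : Set (Pt k Ω F)) y c (zip w g)) =
        c (kf k w) • (fun _ : Fin n → ℚ => (1 : ℚ)) := by
      funext g
      obtain ⟨φ, hφ⟩ := exists_rvt hy htop hw g
      unfold JA
      rw [if_pos ⟨φ, trivial, hφ⟩, Pi.smul_apply, smul_eq_mul, mul_one]
      rfl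
    rw [h1, map_smul, I_one, smul_eq_mul, mul_one]
  · intro z hz
    have h1 : c (kf k (ac z)) ≠ 0 := by
      intro h0
      apply hz
      unfold JA
      rw [h0, ite_self]
    obtain ⟨σ, hσ⟩ := tup_conj hw (tup_of_td (ac z) (hc.dim _ h1))
    exact ⟨σ, trivial, hσ⟩

end S3

end

end KTS
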