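import Pool.Agent.KTS.ChD

/-!
# [KTS-S4] the points of a chart: residues, nested polydiscs (helper4)
-/

set_option autoImplicit false
set_option linter.unusedSectionVars false

namespace KTS

noncomputable section

universe u v w

open Polynomial Cardinal

section S4

variable {k Ω F R : Type u} [Field k] [Field Ω] [Algebra k Ω] [Field F]
  [Algebra (HahnSeries ℚ k) F] [CommRing R] [Algebra R F]

/-- choice of the later values of a point in given discs -/
theorem exists_disc [IsAlgClosed Ω] (hΩ : ℵ₀ ≤ Algebra.trdeg k Ω) {x : ℕ → F} {n : ℕ}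
    (htr : ∀ i < n, Transcendental (lev k x i) (x i)) (c : ℕ → HahnSeries ℚ Ω) (r : ℕ → ℚ)
    (ψ₁ : Pt k Ω F) (m : ℕ) (hm : m ≤ n) :
    ∃ ψ : Pt k Ω F, (∀ e ∈ lev k x m, ψ e = ψ₁ e) ∧
      ∀ j, m ≤ j → j < n → ψ (x j) ∈ OD (c j) (r j) := by
  have key : ∀ N, m ≤ N → N ≤ n → ∃ ψ : Pt k Ω F, (∀ e ∈ lev k x m, ψ e = ψ₁ e) ∧
      ∀ j, m ≤ j → j < N → ψ (x j) ∈ OD (c j) (r j) := by
    intro N hN
    induction N, hN using Nat.le_induction with
    | base =>
      intro _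
      exact ⟨ψ₁, fun _ _ => rfl, fun j h1 h2 => absurd h1 (not_le.2 h2)⟩
    | succ N hN ih =>
      intro hNn
      obtain ⟨ψ, h1, h2⟩ := ih (Nat.le_of_succ_le hNn)
      obtain ⟨y', hy', hy''⟩ := exists_not_algO ψ (td_lev_lt x N) hΩ (c N) (r N)
      obtain ⟨ψ', h3, h4⟩ := ext_tr ψ (htr N hNn) hy''
      refine ⟨ψ', fun e he => (h3 e (lev_mono x hN he)).trans (h1 e he), fun j hj hjN => ?_⟩
      rcases Nat.lt_succ_iff_lt_or_eq.1 hjN with h | rfl
      · rw [h3 _ (mem_lev x h)]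
        exact h2 j hj h
      · rw [h4]
        exact hy'
  exact key n hm le_rfl

/-- the residue on a chart as a ring homomorphism -/
def rdH {C : Subalgebra R F} (φ : Pt k Ω F) (h : φ ∈ XX (k := k) Ω C) : C →+* Ω :=
  (res Ω).comp (((φ : F →+* HahnSeries ℚ Ω).comp (C.subtype : C →+* F)).codRestrict (Oint Ω)
    fun c => h c c.2)

theorem rdH_apply {C : Subalgebra R F} (φ : Pt k Ω F) (h : φ ∈ XX (k := k) Ω C) (c : C) :
    rdH φ h c = rd φ c := rfl

theorem rd_base {ρ : R →+* HahnSeries ℚ k}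
    (hRF : ∀ r, algebraMap R F r = algebraMap (HahnSeries ℚ k) F (ρ r)) (φ : Pt k Ω F) (r : R) :
    rd φ (algebraMap R F r) = algebraMap k Ω ((ρ r).coeff 0) := by
  unfold rd
  rw [hRF, AlgHom.commutes]
  rfl

theorem base_mem {ρ : R →+* HahnSeries ℚ k} (hρ : ∀ r, ρ r ∈ Oint k)
    (hRF : ∀ r, algebraMap R F r = algebraMap (HahnSeries ℚ k) F (ρ r)) (φ : Pt k Ω F) (r : R) :
    φ (algebraMap R F r) ∈ Oint Ω := by
  rw [hRF, AlgHom.commutes, mem_Oint, orderTop_algebraMap]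
  exact hρ r

theorem XX_of_gen {ρ : R →+* HahnSeries ℚ k} (hρ : ∀ r, ρ r ∈ Oint k)
    (hRF : ∀ r, algebraMap R F r = algebraMap (HahnSeries ℚ k) F (ρ r)) {C : Subalgebra R F}
    {s : Set F} (hs : C = Algebra.adjoin R s) {φ : Pt k Ω F} (h : ∀ c ∈ s, φ c ∈ Oint Ω) :
    φ ∈ XX (k := k) Ω C := by
  intro c hc
  rw [hs] at hc
  induction hc using Algebra.adjoin_induction with
  | mem x hx => exact h x hx
  | algebraMap r => exact base_mem hρ hRF φ r
  | add x y _ _ hx hy => rw [map_add]; exact (Oint Ω).add_mem hx hy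
  | mul x y _ _ hx hy => rw [map_mul]; exact (Oint Ω).mul_mem hx hy

theorem rd_add (φ : Pt k Ω F) (x y : F) : rd φ (x + y) = rd φ x + rd φ y := by
  unfold rd
  rw [map_add]
  rfl

theorem rd_mul {φ : Pt k Ω F} {x y : F} (hx : φ x ∈ Oint Ω) (hy : φ y ∈ Oint Ω) :
    rd φ (x * y) = rd φ x * rd φ y := by
  unfold rd
  rw [map_mul]
  exact (res Ω).map_mul ⟨φ x, hx⟩ ⟨φ y, hy⟩

/-- residues are determined by the generators, up to an automorphism -/
theorem rd_ext {ρ : R →+* HahnSeries ℚ k}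
    (hRF : ∀ r, algebraMap R F r = algebraMap (HahnSeries ℚ k) F (ρ r)) {C : Subalgebra R F}
    {s : Set F} (hs : C = Algebra.adjoin R s) {φ ψ : Pt k Ω F} (hφ : φ ∈ XX (k := k) Ω C)
    (hψ : ψ ∈ XX (k := k) Ω C) (σ : Ω ≃ₐ[k] Ω) (h : ∀ c ∈ s, rd ψ c = σ (rd φ c)) :
    ∀ c ∈ C, rd ψ c = σ (rd φ c) := by
  have hφ' : ∀ c ∈ Algebra.adjoin R s, φ c ∈ Oint Ω := fun c hc => hφ c (by rw [hs]; exact hc)
  have hψ' : ∀ c ∈ Algebra.adjoin R s, ψ c ∈ Oint Ω := fun c hc => hψ c (by rw [hs]; exact hc)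
  intro c hc
  rw [hs] at hc
  induction hc using Algebra.adjoin_induction with
  | mem x hx => exact h x hx
  | algebraMap r => rw [rd_base hRF, rd_base hRF, AlgEquiv.commutes]
  | add x y _ _ hx hy => rw [rd_add, rd_add, hx, hy, map_add]
  | mul x y hx0 hy0 hx hy =>
    rw [rd_mul (hφ' _ hx0) (hφ' _ hy0), rd_mul (hψ' _ hx0) (hψ' _ hy0), hx, hy, map_mul]

/-- the residue field is generated by the residues of the generators -/
theorem rf_eq {ρ : R →+* HahnSeries ℚ k}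
    (hRF : ∀ r, algebraMap R F r = algebraMap (HahnSeries ℚ k) F (ρ r)) {C : Subalgebra R F}
    {s : Set F} (hs : C = Algebra.adjoin R s) {φ : Pt k Ω F} (hφ : φ ∈ XX (k := k) Ω C) :
    rf C φ = IntermediateField.adjoin k (rd φ '' s) := by
  have hφ' : ∀ c ∈ Algebra.adjoin R s, φ c ∈ Oint Ω := fun c hc => hφ c (by rw [hs]; exact hc)
  apply le_antisymm
  · unfold rf
    rw [IntermediateField.adjoin_le_iff]
    rintro _ ⟨c, hc, rfl⟩
    have hc' : c ∈ Algebra.adjoin R s := by rw [← hs]; exact hc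
    clear hc
    change rd φ c ∈ IntermediateField.adjoin k (rd φ '' s)
    induction hc' using Algebra.adjoin_induction with
    | mem x hx => exact IntermediateField.subset_adjoin k _ ⟨x, hx, rfl⟩
    | algebraMap r =>
      rw [rd_base hRF]
      exact IntermediateField.algebraMap_mem _ _
    | add x y _ _ hx hy => rw [rd_add]; exact add_mem hx hy
    | mul x y hx0 hy0 hx hy => rw [rd_mul (hφ' _ hx0) (hφ' _ hy0)]; exact mul_mem hx hy
  · apply IntermediateField.adjoin.mono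
    apply Set.image_mono
    rw [hs]
    exact Algebra.subset_adjoin

/-- generators of a chart, starting with the coordinates -/
theorem Chart.exists_gens {ρ : R →+* HahnSeries ℚ k} {n : ℕ} {C : Subalgebra R F}
    {z : Fin n → F} (hC : Chart Ω ρ n C z) :
    ∃ (N : ℕ) (x : ℕ → F), n ≤ N ∧ (∀ i : Fin n, x i = z i) ∧
      C = Algebra.adjoin R (x '' {j | j < N}) := by
  classical
  obtain ⟨T, hT⟩ := hC.fg
  let f := T.equivFin.symm
  let x : ℕ → F := fun i => if h : i < n then z ⟨i, h⟩ else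
    if h' : i - n < T.card then (f ⟨i - n, h'⟩ : F) else 0
  refine ⟨n + T.card, x, Nat.le_add_right _ _, fun i => ?_, ?_⟩
  · change (if h : (i : ℕ) < n then z ⟨i, h⟩ else _) = z i
    rw [dif_pos i.2]
  · apply le_antisymm
    · rw [← hT]
      apply Algebra.adjoin_mono
      intro c hc
      refine ⟨n + (T.equivFin ⟨c, hc⟩ : Fin T.card), ?_, ?_⟩
      · exact Nat.add_lt_add_left (T.equivFin ⟨c, hc⟩).2 n
      · change (if h : n + ((T.equivFin ⟨c, hc⟩ : Fin T.card) : ℕ) < n then _ else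
          if h' : n + ((T.equivFin ⟨c, hc⟩ : Fin T.card) : ℕ) - n < T.card then
            (f ⟨n + ((T.equivFin ⟨c, hc⟩ : Fin T.card) : ℕ) - n, h'⟩ : F) else 0) = c
        have h1 : n + ((T.equivFin ⟨c, hc⟩ : Fin T.card) : ℕ) - n =
          ((T.equivFin ⟨c, hc⟩ : Fin T.card) : ℕ) := Nat.add_sub_cancel_left _ _
        rw [dif_neg (by omega), dif_pos (by rw [h1]; exact (T.equivFin ⟨c, hc⟩).2)]
        have h2 : (⟨n + ((T.equivFin ⟨c, hc⟩ : Fin T.card) : ℕ) - n,
            by rw [h1]; exact (T.equivFin ⟨c, hc⟩).2⟩ : Fin T.card) = T.equivFin ⟨c, hc⟩ :=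
          Fin.ext h1
        rw [h2]
        change ((T.equivFin.symm (T.equivFin ⟨c, hc⟩) : T) : F) = c
        rw [Equiv.symm_apply_apply]
    · rw [Algebra.adjoin_le_iff]
      rintro _ ⟨i, hi, rfl⟩
      change (if h : i < n then z ⟨i, h⟩ else
        if h' : i - n < T.card then (f ⟨i - n, h'⟩ : F) else 0) ∈ C
      split_ifs with h h'
      · exact hC.mem _
      · rw [← hT]
        exact Algebra.subset_adjoin (f ⟨i - n, h'⟩).2
      · exact zero_mem _

variable {ρ : R →+* HahnSeries ℚ k} {n N : ℕ} {C : Subalgebra R F} {z : Fin n → F} {x : ℕ → F}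

theorem Chart.lev_top (hRF : ∀ r, algebraMap R F r = algebraMap (HahnSeries ℚ k) F (ρ r))
    (hC : Chart Ω ρ n C z) (hs : C = Algebra.adjoin R (x '' {j | j < N})) : lev k x N = ⊤ := by
  rw [eq_top_iff, ← hC.gen, IntermediateField.adjoin_le_iff]
  intro c hc
  have hc' : c ∈ Algebra.adjoin R (x '' {j | j < N}) := by rw [← hs]; exact hc
  clear hc
  change c ∈ lev k x N
  induction hc' using Algebra.adjoin_induction with
  | mem y hy =>
    obtain ⟨j, hj, rfl⟩ := hy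
    exact mem_lev x hj
  | algebraMap r =>
    rw [hRF]
    exact IntermediateField.algebraMap_mem _ _
  | add x y _ _ hx hy => exact add_mem hx hy
  | mul x y _ _ hx hy => exact mul_mem hx hy

/-- the points with the same residues -/
def Dst (C : Subalgebra R F) (φ : Pt k Ω F) : Set (Pt k Ω F) :=
  {ψ | ψ ∈ XX (k := k) Ω C ∧ ∀ c ∈ C, rd ψ c = rd φ c}

theorem mem_OD_of_rd {a b : HahnSeries ℚ Ω} (ha : a ∈ Oint Ω) (hb : b ∈ Oint Ω)
    (h : a.coeff 0 = b.coeff 0) : a ∈ OD b 0 := by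
  change ((0 : ℚ) : WithTop ℚ) < (a - b).orderTop
  rcases eq_or_ne (a - b) 0 with h0 | h0
  · rw [h0, HahnSeries.orderTop_zero]
    exact WithTop.coe_lt_top 0
  · have h1 : (0 : WithTop ℚ) ≤ (a - b).orderTop := (Oint Ω).sub_mem ha hb
    rcases h1.lt_or_eq with h2 | h2
    · exact h2
    · exfalso
      have h3 : (a - b).coeff 0 ≠ 0 := HahnSeries.coeff_orderTop_ne h2.symm
      apply h3
      change a.coeff 0 - b.coeff 0 = 0
      rw [h, sub_self]

theorem rd_of_mem_OD {a b : HahnSeries ℚ Ω} (hb : b ∈ Oint Ω) (h : a ∈ OD b 0) :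
    a ∈ Oint Ω ∧ a.coeff 0 = b.coeff 0 := by
  have h1 : ((0 : ℚ) : WithTop ℚ) < (a - b).orderTop := h
  have h2 : a - b ∈ Oint Ω := by
    rw [mem_Oint]
    exact h1.le
  constructor
  · rw [show a = (a - b) + b by ring]
    exact (Oint Ω).add_mem h2 hb
  · have h3 : (a - b).coeff 0 = 0 := HahnSeries.coeff_eq_zero_of_lt_orderTop h1
    exact sub_eq_zero.1 h3

/-- [S4a] -/
theorem Chart.npd [IsAlgClosed Ω] (hΩ : ℵ₀ ≤ Algebra.trdeg k Ω)
    (hRF : ∀ r, algebraMap R F r = algebraMap (HahnSeries ℚ k) F (ρ r))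
    (hC : Chart Ω ρ n C z) (hx : ∀ i : Fin n, x i = z i) (φ : Pt k Ω F) :
    NPd x N (Dst C φ) := by
  have htr : ∀ i < n, Transcendental (lev k x i) (x i) := fun i hi =>
    tr_lev_of_algInd hC.ind hx hi
  have hmem : ∀ i < n, x i ∈ C := fun i hi => by
    have h1 := hC.mem ⟨i, hi⟩
    rw [← hx ⟨i, hi⟩] at h1
    exact h1
  have hal : ∀ i, n ≤ i → IsAlgebraic (lev k x i) (x i) := by
    intro i hi
    have h1 : IntermediateField.adjoin (HahnSeries ℚ k) (Set.range z) ≤ lev k x i := by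
      rw [IntermediateField.adjoin_le_iff]
      rintro _ ⟨j, rfl⟩
      rw [← hx j]
      exact mem_lev x (j.2.trans_le hi)
    exact mem_cl.1 (cl_mono h1 (mem_cl.2 (hC.alg (x i))))
  constructor
  · intro i hi htri φ' hφ'
    have hin : i < n := by
      by_contra hc
      exact htri (hal i (not_lt.1 hc))
    refine ⟨φ' (x i), 0, ?_⟩
    ext y
    constructor
    · rintro ⟨ψ, hψ, hag, rfl⟩
      refine ⟨mem_OD_of_rd (hψ.1 _ (hmem i hin)) (hφ'.1 _ (hmem i hin))
        ((hψ.2 _ (hmem i hin)).trans (hφ'.2 _ (hmem i hin)).symm), ?_⟩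
      rw [algO_congr (eq_on_lev fun j hj => (hag j hj).symm), algO_iff]
      exact transcendental_imE (htr i hin)
    · rintro ⟨hy, hy'⟩
      obtain ⟨ψ₁, h1, h2⟩ := ext_tr φ' htri hy'
      obtain ⟨ψ, h3, h4⟩ := exists_disc hΩ htr (fun j => φ' (x j)) (fun _ => 0) ψ₁ (i + 1) hin
      have h5 : ∀ j < i, ψ (x j) = φ' (x j) := fun j hj => by
        rw [h3 _ (mem_lev x (hj.trans (Nat.lt_succ_self i))), h1 _ (mem_lev x hj)]
      have h6 : ψ (x i) = y := by
        rw [h3 _ (mem_lev x (Nat.lt_succ_self i)), h2]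
      have h7 : ∀ j : Fin n, ψ (z j) ∈ Oint Ω ∧ (ψ (z j)).coeff 0 = (φ' (z j)).coeff 0 := by
        intro j
        rw [← hx j]
        apply rd_of_mem_OD (hφ'.1 _ (hmem j j.2))
        rcases lt_trichotomy (j : ℕ) i with hj | hj | hj
        · rw [h5 _ hj]
          exact mem_OD_of_rd (hφ'.1 _ (hmem j j.2)) (hφ'.1 _ (hmem j j.2)) rfl
        · rw [hj, h6]
          exact hy
        · exact h4 j hj j.2
      obtain ⟨ψ', h8, h9⟩ := hC.lift_ex (rdH φ' hφ'.1) (fun r => rd_base hRF φ' r)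
        (fun j => ψ (z j)) (hC.ind.map' (f := ψ) ψ.injective) (fun j => (h7 j).1)
        (fun j => (h7 j).2)
      refine ⟨ψ', ⟨fun c hc => (h9 ⟨c, hc⟩).1, fun c hc => ?_⟩, fun j hj => ?_, ?_⟩
      · exact ((h9 ⟨c, hc⟩).2).trans (hφ'.2 c hc)
      · rw [← h5 j hj, hx ⟨j, hj.trans hin⟩, h8]
      · rw [← h6, hx ⟨i, hin⟩, h8]
  · intro i hi hali φ' hφ'
    have hin : n ≤ i := by
      by_contra hc
      exact htr i (not_le.1 hc) hali
    rintro _ ⟨ψ, hψ, hag, rfl⟩ _ ⟨ψ', hψ', hag', rfl⟩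
    rw [hC.lift_uniq ψ hψ.1 ψ' hψ'.1 (fun j => ?_) fun c hc => (hψ.2 c hc).trans (hψ'.2 c hc).symm]
    rw [← hx j, hag j (j.2.trans_le hin), hag' j (j.2.trans_le hin)]

end S4

end

end KTS
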