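import Pool.Agent.KTS.SQ
import Pool.Agent.KTS.SB

/-!
# [KTS-S4] the pieces of a chart: measurability and integral (helper4)
-/

set_option autoImplicit false
set_option linter.unusedSectionVars false

namespace KTS

noncomputable section

universe u v w

open Polynomial Cardinal

section Pieces

variable {k Ω F R : Type u} [Field k] [Field Ω] [Algebra k Ω] [Field F]
  [Algebra (HahnSeries ℚ k) F] [CommRing R] [Algebra R F]

/-- the integral points of `C` outside `E`, with given zero pattern of the residues -/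
def Pc (E : Set (Pt k Ω F)) (C : Subalgebra R F) (x : ℕ → F) {N : ℕ} (b : Fin N → Bool) :
    Set (Pt k Ω F) :=
  {φ | φ ∈ XX (k := k) Ω C ∧ φ ∉ E ∧ ∀ i : Fin N, b i = true ↔ rd φ (x i) = 0}

/-- the shifted coordinates -/
def sh (x : ℕ → F) {N : ℕ} (b : Fin N → Bool) (i : Fin N) : F := x i + if b i = true then 1 else 0

/-- the shifted residues -/
def rsh (x : ℕ → F) {N : ℕ} (b : Fin N → Bool) (φ : Pt k Ω F) (i : Fin N) : Ω :=
  rd φ (x i) + if b i = true then 1 else 0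

/-- what we need of `E`: membership depends only on residues, stable -/
structure Sep (E : Set (Pt k Ω F)) (C : Subalgebra R F) : Prop where
  dep : ∀ φ ∈ XX (k := k) Ω C, ∀ ψ ∈ XX (k := k) Ω C, (∀ c ∈ C, rd ψ c = rd φ c) → ψ ∈ E → φ ∈ E
  st : ∀ (σ : Ω ≃ₐ[k] Ω), ∀ φ : Pt k Ω F, sact (σ : Ω →ₐ[k] Ω) φ ∈ E → φ ∈ E

theorem rd_one (φ : Pt k Ω F) : rd φ 1 = 1 := by
  unfold rd
  rw [map_one]
  exact (res Ω).map_one

theorem rd_sh (x : ℕ → F) {N : ℕ} (b : Fin N → Bool) (φ : Pt k Ω F) (i : Fin N) :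
    rd φ (sh x b i) = rsh x b φ i := by
  unfold sh rsh
  rw [rd_add]
  split_ifs with h
  · rw [rd_one]
  · rw [show rd φ 0 = 0 by unfold rd; rw [map_zero]; rfl]

variable {ρ : R →+* HahnSeries ℚ k} {n N : ℕ} {C : Subalgebra R F} {x : ℕ → F}
  {E : Set (Pt k Ω F)} {b : Fin N → Bool}

theorem gen_mem (hs : C = Algebra.adjoin R (x '' {j | j < N})) (i : Fin N) : x i ∈ C := by
  rw [hs]
  exact Algebra.subset_adjoin ⟨i, i.2, rfl⟩

theorem sh_mem (hs : C = Algebra.adjoin R (x '' {j | j < N})) (b : Fin N → Bool) (i : Fin N) :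
    sh x b i ∈ C := by
  unfold sh
  split_ifs with h
  · exact add_mem (gen_mem hs i) (one_mem C)
  · exact add_mem (gen_mem hs i) (zero_mem C)

theorem rsh_ne {φ : Pt k Ω F} (hφ : φ ∈ Pc E C x b) (i : Fin N) : rsh x b φ i ≠ 0 := by
  unfold rsh
  split_ifs with h
  · rw [(hφ.2.2 i).1 h, zero_add]
    exact one_ne_zero
  · rw [add_zero]
    intro h0
    exact h ((hφ.2.2 i).2 h0)

/-- an integral element with nonzero residue -/
theorem rv_of_res {y : HahnSeries ℚ Ω} (hy : y ∈ Oint Ω) (h : y.coeff 0 ≠ 0) :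
    rv y = (y.coeff 0, 0) := by
  have h0 : y ≠ 0 := by
    rintro rfl
    exact h rfl
  have h1 : y.orderTop = ((0 : ℚ) : WithTop ℚ) :=
    le_antisymm (HahnSeries.orderTop_le_of_coeff_ne_zero h) hy
  have h2 : y.order = 0 := by
    have h3 := HahnSeries.order_eq_orderTop_of_ne_zero h0
    rw [h1] at h3
    exact_mod_cast h3
  refine Prod.ext ?_ h2
  change y.leadingCoeff = y.coeff 0
  rw [HahnSeries.leadingCoeff_eq, h2]

theorem rvt_sh (hs : C = Algebra.adjoin R (x '' {j | j < N})) {φ : Pt k Ω F}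
    (hφ : φ ∈ Pc E C x b) : rvt (sh x b) φ = zip (rsh x b φ) (fun _ => 0) := by
  funext i
  have h1 : rd φ (sh x b i) ≠ 0 := by
    rw [rd_sh]
    exact rsh_ne hφ i
  have h2 := rv_of_res (hφ.1 _ (sh_mem hs b i)) h1
  change rv (φ (sh x b i)) = (rsh x b φ i, 0)
  rw [h2, ← rd_sh]
  rfl

/-- the set of vectors of values -/
def Zp (E : Set (Pt k Ω F)) (C : Subalgebra R F) (x : ℕ → F) {N : ℕ} (b : Fin N → Bool) :
    Set (Fin N → Ω × ℚ) :=
  {z | ∃ φ ∈ Pc E C x b, z = zip (rsh x b φ) (fun _ => 0)}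

theorem rd_of_rsh {φ ψ : Pt k Ω F} {i : Fin N} (σ : Ω ≃ₐ[k] Ω)
    (h : rsh x b ψ i = σ (rsh x b φ i)) : rd ψ (x i) = σ (rd φ (x i)) := by
  unfold rsh at h
  rw [map_add] at h
  split_ifs at h with hb
  · rw [map_one] at h
    exact add_right_cancel h
  · rwa [map_zero, add_zero, add_zero] at h

theorem mem_of_rvt (hρ : ∀ r, ρ r ∈ Oint k)
    (hRF : ∀ r, algebraMap R F r = algebraMap (HahnSeries ℚ k) F (ρ r))
    (hs : C = Algebra.adjoin R (x '' {j | j < N})) (hE : Sep E C) {φ ψ : Pt k Ω F}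
    (hφ : φ ∈ Pc E C x b) (h : rvt (sh x b) ψ = zip (rsh x b φ) (fun _ => 0)) :
    ψ ∈ Pc E C x b ∧ ∀ c ∈ C, rd ψ c = rd φ c := by
  have h1 : ∀ i : Fin N, ψ (sh x b i) ∈ Oint Ω ∧ (ψ (sh x b i)).coeff 0 = rsh x b φ i := by
    intro i
    have h2 : rv (ψ (sh x b i)) = (rsh x b φ i, 0) := congrFun h i
    have h3 : (ψ (sh x b i)).leadingCoeff = rsh x b φ i := congrArg Prod.fst h2
    have h4 : (ψ (sh x b i)).order = 0 := congrArg Prod.snd h2
    have h5 : ψ (sh x b i) ≠ 0 := by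
      intro h0
      rw [h0, HahnSeries.leadingCoeff_zero] at h3
      exact rsh_ne hφ i h3.symm
    constructor
    · rw [mem_Oint, ← HahnSeries.order_eq_orderTop_of_ne_zero h5, h4]
      exact le_rfl
    · rw [← h3, HahnSeries.leadingCoeff_eq, h4]
  have h2 : ∀ i : Fin N, ψ (x i) ∈ Oint Ω := by
    intro i
    have h3 := (h1 i).1
    unfold sh at h3
    rw [map_add] at h3
    have h4 : ψ (if b i = true then 1 else 0) ∈ Oint Ω := by
      split_ifs
      · rw [map_one]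
        exact (Oint Ω).one_mem
      · rw [map_zero]
        exact (Oint Ω).zero_mem
    have h5 := (Oint Ω).sub_mem h3 h4
    rwa [add_sub_cancel_right] at h5
  have h3 : ψ ∈ XX (k := k) Ω C := by
    refine XX_of_gen hρ hRF hs ?_
    rintro _ ⟨j, hj, rfl⟩
    exact h2 ⟨j, hj⟩
  have h4 : ∀ i : Fin N, rd ψ (x i) = rd φ (x i) := by
    intro i
    refine rd_of_rsh (b := b) (AlgEquiv.refl (R := k) (A₁ := Ω)) ?_
    rw [← rd_sh]
    exact (h1 i).2
  have h5 : ∀ c ∈ C, rd ψ c = rd φ c := by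
    refine rd_ext hRF hs hφ.1 h3 (AlgEquiv.refl (R := k) (A₁ := Ω)) ?_
    rintro _ ⟨j, hj, rfl⟩
    exact h4 ⟨j, hj⟩
  refine ⟨⟨h3, fun h6 => hφ.2.1 (hE.dep φ hφ.1 ψ h3 h5 h6), fun i => ?_⟩, h5⟩
  rw [h4]
  exact hφ.2.2 i

theorem rd_sact (σ : Ω ≃ₐ[k] Ω) (φ : Pt k Ω F) (c : F) :
    rd (sact (σ : Ω →ₐ[k] Ω) φ) c = σ (rd φ c) := rfl

theorem rsh_sact (σ : Ω ≃ₐ[k] Ω) (φ : Pt k Ω F) (i : Fin N) :
    rsh x b (sact (σ : Ω →ₐ[k] Ω) φ) i = σ (rsh x b φ i) := by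
  unfold rsh
  rw [rd_sact, map_add]
  split_ifs
  · rw [map_one]
  · rw [map_zero]

theorem sact_mem_Oint (σ : Ω ≃ₐ[k] Ω) {φ : Pt k Ω F} {c : F} (h : φ c ∈ Oint Ω) :
    sact (σ : Ω →ₐ[k] Ω) φ c ∈ Oint Ω := by
  rw [mem_Oint]
  by_contra hc
  rw [not_le] at hc
  have h0 : sact (σ : Ω →ₐ[k] Ω) φ c ≠ 0 := by
    intro h1
    rw [h1, HahnSeries.orderTop_zero] at hc
    exact absurd hc (not_lt.2 le_top)
  set q := (sact (σ : Ω →ₐ[k] Ω) φ c).order with hq
  have hq' := HahnSeries.order_eq_orderTop_of_ne_zero h0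
  have h1 : (sact (σ : Ω →ₐ[k] Ω) φ c).coeff q ≠ 0 := by
    rw [hq, ← HahnSeries.leadingCoeff_eq]
    exact HahnSeries.leadingCoeff_ne_zero.2 h0
  have h2 : (φ c).coeff q = 0 := by
    apply HahnSeries.coeff_eq_zero_of_lt_orderTop
    rw [← hq'] at hc
    exact lt_of_lt_of_le hc h
  apply h1
  change σ ((φ c).coeff q) = 0
  rw [h2, map_zero]

theorem sact_Pc (hE : Sep E C) (σ : Ω ≃ₐ[k] Ω) {φ : Pt k Ω F} (hφ : φ ∈ Pc E C x b) :
    sact (σ : Ω →ₐ[k] Ω) φ ∈ Pc E C x b := by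
  refine ⟨fun c hc => sact_mem_Oint σ (hφ.1 c hc), fun h => hφ.2.1 (hE.st σ φ h), fun i => ?_⟩
  rw [hφ.2.2 i, rd_sact]
  exact (map_eq_zero_iff σ σ.injective).symm

/-- [S4b] -/
theorem meas_Pc (hρ : ∀ r, ρ r ∈ Oint k)
    (hRF : ∀ r, algebraMap R F r = algebraMap (HahnSeries ℚ k) F (ρ r))
    (hs : C = Algebra.adjoin R (x '' {j | j < N})) (hE : Sep E C) :
    Meas (Pc E C x b) (sh x b) := by
  refine ⟨Zp E C x b, fun φ => ⟨fun h => ⟨φ, h, rvt_sh hs h⟩, ?_⟩, ?_, fun w => ?_⟩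
  · rintro ⟨ψ, hψ, h⟩
    exact (mem_of_rvt hρ hRF hs hE hψ h).1
  · rintro σ _ ⟨φ, hφ, rfl⟩
    refine ⟨sact (σ : Ω →ₐ[k] Ω) φ, sact_Pc hE σ hφ, ?_⟩
    funext i
    exact Prod.ext (rsh_sact σ φ i).symm rfl
  · by_cases h : ∃ φ ∈ Pc E C x b, w = rsh x b φ
    · have h1 : {g : Fin N → ℚ | zip w g ∈ Zp E C x b} = {fun _ => (0 : ℚ)} := by
        ext g
        constructor
        · rintro ⟨φ, hφ, hg⟩
          funext i
          exact congrArg Prod.snd (congrFun hg i)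
        · rintro rfl
          obtain ⟨φ, hφ, rfl⟩ := h
          exact ⟨φ, hφ, rfl⟩
      rw [h1]
      exact SL.singleton _
    · have h1 : {g : Fin N → ℚ | zip w g ∈ Zp E C x b} = ∅ := by
        rw [Set.eq_empty_iff_forall_notMem]
        rintro g ⟨φ, hφ, hg⟩
        apply h
        refine ⟨φ, hφ, ?_⟩
        funext i
        exact congrArg Prod.fst (congrFun hg i)
      rw [h1]
      exact SL.empty

/-- [S4c] -/
theorem fib_Pc (hρ : ∀ r, ρ r ∈ Oint k)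
    (hRF : ∀ r, algebraMap R F r = algebraMap (HahnSeries ℚ k) F (ρ r))
    (hs : C = Algebra.adjoin R (x '' {j | j < N})) (hE : Sep E C) {φ : Pt k Ω F}
    (hφ : φ ∈ Pc E C x b) :
    {ψ : Pt k Ω F | ψ ∈ Pc E C x b ∧ rvt (sh x b) ψ = rvt (sh x b) φ} = Dst C φ := by
  ext ψ
  constructor
  · rintro ⟨hψ, h⟩
    exact ⟨hψ.1, (mem_of_rvt hρ hRF hs hE hφ (h.trans (rvt_sh hs hφ))).2⟩
  · rintro ⟨hψ, h⟩
    have h1 : ∀ i : Fin N, rd ψ (x i) = rd φ (x i) := fun i => h _ (gen_mem hs i)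
    have h2 : ψ ∈ Pc E C x b := by
      refine ⟨hψ, fun h6 => hφ.2.1 (hE.dep φ hφ.1 ψ hψ h h6), fun i => ?_⟩
      rw [h1]
      exact hφ.2.2 i
    refine ⟨h2, ?_⟩
    rw [rvt_sh hs h2, rvt_sh hs hφ]
    congr 1
    funext i
    unfold rsh
    rw [h1]

/-- the integrand on a vector -/
theorem IO_Pc (hs : C = Algebra.adjoin R (x '' {j | j < N})) (c : IntermediateField k Ω → ℚ)
    {φ : Pt k Ω F} (hφ : φ ∈ Pc E C x b) :
    IO (JA (Pc E C x b) (sh x b) c) (rsh x b φ) = c (kf k (rsh x b φ)) := by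
  classical
  rw [IO_point (rsh x b φ) (fun _ => 0)]
  · unfold JA
    rw [if_pos ⟨φ, hφ, rvt_sh hs hφ⟩]
    rfl
  · intro g hg
    unfold JA at hg
    by_contra hc
    apply hg
    rw [if_neg]
    rintro ⟨ψ, hψ, h⟩
    apply hc
    rw [rvt_sh hs hψ] at h
    funext i
    exact (congrArg Prod.snd (congrFun h i)).symm

theorem IO_ne_Pc (hs : C = Algebra.adjoin R (x '' {j | j < N})) (c : IntermediateField k Ω → ℚ)
    {w : Fin N → Ω} (hw : IO (JA (Pc E C x b) (sh x b) c) w ≠ 0) :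
    ∃ φ ∈ Pc E C x b, w = rsh x b φ := by
  classical
  obtain ⟨g, hg⟩ := IO_ne hw
  unfold JA at hg
  by_contra hc
  apply hg
  rw [if_neg]
  rintro ⟨ψ, hψ, h⟩
  apply hc
  refine ⟨ψ, hψ, ?_⟩
  rw [rvt_sh hs hψ] at h
  funext i
  exact (congrArg Prod.fst (congrFun h i)).symm

/-- the field of the shifted residues is the residue field -/
theorem kf_rsh (hRF : ∀ r, algebraMap R F r = algebraMap (HahnSeries ℚ k) F (ρ r))
    (hs : C = Algebra.adjoin R (x '' {j | j < N})) {φ : Pt k Ω F} (hφ : φ ∈ XX (k := k) Ω C)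
    (b : Fin N → Bool) : kf k (rsh x b φ) = rf C φ := by
  rw [rf_eq hRF hs hφ]
  apply le_antisymm
  · unfold kf
    rw [IntermediateField.adjoin_le_iff]
    rintro _ ⟨i, rfl⟩
    unfold rsh
    apply add_mem
    · exact IntermediateField.subset_adjoin k _ ⟨x i, ⟨i, i.2, rfl⟩, rfl⟩
    · split_ifs
      · exact one_mem _
      · exact zero_mem _
  · rw [IntermediateField.adjoin_le_iff]
    rintro _ ⟨_, ⟨j, hj, rfl⟩, rfl⟩
    have h1 : rsh x b φ ⟨j, hj⟩ ∈ kf k (rsh x b φ) := mem_kf _ _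
    have h2 : (if b ⟨j, hj⟩ = true then (1 : Ω) else 0) ∈ kf k (rsh x b φ) := by
      split_ifs
      · exact one_mem _
      · exact zero_mem _
    have h3 := sub_mem h1 h2
    unfold rsh at h3
    rw [add_sub_cancel_right] at h3
    exact h3

end Pieces

/-! ### counting -/

theorem exists_unique_of_sum {α : Type v} [Fintype α] {Q : α → Type w} (t : ∀ a, Q a → ℚ)
    (h01 : ∀ a q, t a q = 0 ∨ t a q = 1) (hfin : ∀ a, (Function.support (t a)).Finite)
    (h : ∑ a, ∑ᶠ q, t a q = 1) :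
    ∃ p : Σ a, Q a, t p.1 p.2 = 1 ∧ ∀ p' : Σ a, Q a, t p'.1 p'.2 = 1 → p' = p := by
  classical
  have h1 : ∀ a, ∑ᶠ q, t a q = ((hfin a).toFinset.card : ℚ) := by
    intro a
    rw [finsum_eq_sum_of_support_subset (t a) (s := (hfin a).toFinset) (by simp),
      Finset.card_eq_sum_ones, Nat.cast_sum]
    refine Finset.sum_congr rfl fun q hq => ?_
    rw [Set.Finite.mem_toFinset] at hq
    rw [(h01 a q).resolve_left hq, Nat.cast_one]
  simp only [h1] at h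
  have h2 : (Finset.univ.sigma fun a => (hfin a).toFinset).card = 1 := by
    rw [Finset.card_sigma]
    exact_mod_cast h
  obtain ⟨p, hp⟩ := Finset.card_eq_one.1 h2
  have h3 : ∀ p' : Σ a, Q a, t p'.1 p'.2 = 1 ↔ p' = p := by
    intro p'
    rw [← Finset.mem_singleton (a := p) (b := p'), ← hp, Finset.mem_sigma,
      Set.Finite.mem_toFinset, Function.mem_support]
    constructor
    · intro h4
      exact ⟨Finset.mem_univ _, by rw [h4]; exact one_ne_zero⟩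
    · rintro ⟨-, h4⟩
      exact (h01 _ _).resolve_left h4
  exact ⟨p, (h3 p).2 rfl, fun p' hp' => (h3 p').1 hp'⟩

end

end KTS
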