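import Pool.Agent.KTS.AG1

/-!
[KTS-R1] A discrete valuation ring with a coefficient field `K` embeds in `HahnSeries ℚ K`.
-/

namespace KTS

noncomputable section

universe u

open Polynomial IsLocalRing

theorem exists_base {K R : Type u} [Field K] [CommRing R] [IsDomain R]
    [IsDiscreteValuationRing R] [Algebra K R] (ρ : R →ₐ[K] K) :
    ∃ ι : R →+* HahnSeries ℚ K, Function.Injective ι ∧ (∀ r, 0 ≤ (ι r).orderTop) ∧
      ∀ r, (ι r).coeff 0 = ρ r := by
  classical
  let _ : Algebra R K := ρ.toRingHom.toAlgebra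
  let g : K →+* R := algebraMap K R
  have hg : ∀ x, algebraMap R K (g x) = x := fun x => ρ.commutes x
  have hs : Function.Surjective (algebraMap R K) := fun x => ⟨g x, hg x⟩
  obtain ⟨ι, h1, h2, h3, -⟩ := ag1_embed hs hg
  exact ⟨ι, h1, h2, h3⟩

end

end KTS
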