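import Pool.Agent.KTS.SR8

/-!
[KTS-R11] The coordinates at a maximal point of the fibre are algebraically independent.
-/

set_option autoImplicit false

namespace KTS

open AlgebraicGeometry CategoryTheory Limits
open Pool.Agent.TORE
open scoped TensorProduct Cardinal nonZeroDivisors

universe u

/-- The image of a non-zero element of the polynomial ring is a non-zero-divisor. -/
theorem chart_nzd {R L P A : Type u} [CommRing R] [CommRing L] [Algebra R L] [CommRing P]
    [Algebra R P] [CommRing A] [Algebra R A] [Algebra P A] [IsScalarTower R P A] [Module.Flat P A]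
    [IsDomain (P ⊗[R] L)] (x : P ⊗[R] L) (hx : x ≠ 0) (y : A ⊗[R] L)
    (hxy : (Algebra.TensorProduct.map (IsScalarTower.toAlgHom R P A)
      (AlgHom.id R L) : P ⊗[R] L →ₐ[R] A ⊗[R] L) x * y = 0) : y = 0 := by
  let E := P ⊗[R] L
  let m : E →ₗ[P] E := LinearMap.mulLeft P (x : E)
  have hm : Function.Injective m := fun y z hyz => mul_left_cancel₀ hx hyz
  have h1 : Function.Injective (m.lTensor A) :=
    Module.Flat.lTensor_preserves_injective_linearMap m hm
  let e : A ⊗[P] E ≃ₐ[A] A ⊗[R] L := Algebra.TensorProduct.cancelBaseChange R P A A L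
  have he : ∀ y : E, e (1 ⊗ₜ[P] y) = (Algebra.TensorProduct.map (IsScalarTower.toAlgHom R P A)
      (AlgHom.id R L) : P ⊗[R] L →ₐ[R] A ⊗[R] L) y := by
    intro y
    induction y using TensorProduct.induction_on with
    | zero => rw [TensorProduct.tmul_zero, map_zero, map_zero]
    | add y z hy hz => rw [TensorProduct.tmul_add, map_add, map_add, hy, hz]
    | tmul p l =>
      change Algebra.TensorProduct.cancelBaseChange R P A A L (1 ⊗ₜ[P] (p ⊗ₜ[R] l)) = _
      rw [Algebra.TensorProduct.cancelBaseChange_tmul, Algebra.TensorProduct.map_tmul,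
        Algebra.smul_def, mul_one]
      rfl
  have hmul : ∀ y' : A ⊗[P] E, m.lTensor A y' = (1 ⊗ₜ[P] x) * y' := by
    intro y'
    induction y' using TensorProduct.induction_on with
    | zero => rw [map_zero, mul_zero]
    | add y z hy hz => rw [map_add, mul_add, hy, hz]
    | tmul a b =>
      rw [LinearMap.lTensor_tmul, Algebra.TensorProduct.tmul_mul_tmul, one_mul]
      rfl
  have h2 : m.lTensor A (e.symm y) = m.lTensor A 0 := by
    rw [hmul, map_zero]
    apply e.injective
    rw [map_mul, he, AlgEquiv.apply_symm_apply, hxy, map_zero]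
  have h3 := h1 h2
  have h4 := congrArg e h3
  rwa [AlgEquiv.apply_symm_apply, map_zero] at h4

section

variable {R : Type u} (L : Type u) (A : Type u) [CommRing R] [Field L] [Algebra R L] [CommRing A]
  [Algebra R A] {n : ℕ} [Algebra (MvPolynomial (Fin n) R) A]
  [IsScalarTower R (MvPolynomial (Fin n) R) A]

/-- The homomorphism of the polynomial ring over `L`. -/
noncomputable def polyT : MvPolynomial (Fin n) L →+* L ⊗[R] A :=
  ((Algebra.TensorProduct.comm R A L : A ⊗[R] L ≃ₐ[R] L ⊗[R] A) : A ⊗[R] L →+* L ⊗[R] A).comp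
    ((Algebra.TensorProduct.map (IsScalarTower.toAlgHom R (MvPolynomial (Fin n) R) A)
        (AlgHom.id R L) : MvPolynomial (Fin n) R ⊗[R] L →ₐ[R] A ⊗[R] L).toRingHom.comp
      (((Algebra.TensorProduct.comm R (MvPolynomial (Fin n) R) L).symm :
        L ⊗[R] MvPolynomial (Fin n) R →+* MvPolynomial (Fin n) R ⊗[R] L).comp
        ((MvPolynomial.algebraTensorAlgEquiv (σ := Fin n) R L).symm :
          MvPolynomial (Fin n) L →+* L ⊗[R] MvPolynomial (Fin n) R)))

variable {L A}

theorem polyT_C (l : L) : polyT (R := R) (n := n) L A (MvPolynomial.C l) = l ⊗ₜ[R] (1 : A) := by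
  change (Algebra.TensorProduct.comm R A L : A ⊗[R] L ≃ₐ[R] L ⊗[R] A)
    ((Algebra.TensorProduct.map (IsScalarTower.toAlgHom R (MvPolynomial (Fin n) R) A)
        (AlgHom.id R L) : MvPolynomial (Fin n) R ⊗[R] L →ₐ[R] A ⊗[R] L)
      ((Algebra.TensorProduct.comm R (MvPolynomial (Fin n) R) L).symm
        ((MvPolynomial.algebraTensorAlgEquiv R L).symm (MvPolynomial.C l)))) = _
  have h1 : (MvPolynomial.algebraTensorAlgEquiv R L).symm (MvPolynomial.C l) =
      l ⊗ₜ[R] (1 : MvPolynomial (Fin n) R) := by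
    have h2 : (MvPolynomial.C l : MvPolynomial (Fin n) L) =
      algebraMap L (MvPolynomial (Fin n) L) l := rfl
    rw [h2, AlgEquiv.commutes]
    rfl
  have h2 : (Algebra.TensorProduct.comm R (MvPolynomial (Fin n) R) L).symm
      (l ⊗ₜ[R] (1 : MvPolynomial (Fin n) R)) = (1 : MvPolynomial (Fin n) R) ⊗ₜ[R] l := rfl
  rw [h1, h2, Algebra.TensorProduct.map_tmul, map_one]
  rfl

theorem polyT_X (i : Fin n) :
    polyT (R := R) (n := n) L A (MvPolynomial.X i) = (1 : L) ⊗ₜ[R] crd R A n i := by
  change (Algebra.TensorProduct.comm R A L : A ⊗[R] L ≃ₐ[R] L ⊗[R] A)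
    ((Algebra.TensorProduct.map (IsScalarTower.toAlgHom R (MvPolynomial (Fin n) R) A)
        (AlgHom.id R L) : MvPolynomial (Fin n) R ⊗[R] L →ₐ[R] A ⊗[R] L)
      ((Algebra.TensorProduct.comm R (MvPolynomial (Fin n) R) L).symm
        ((MvPolynomial.algebraTensorAlgEquiv R L).symm (MvPolynomial.X i)))) = _
  rw [MvPolynomial.algebraTensorAlgEquiv_symm_X]
  have h2 : (Algebra.TensorProduct.comm R (MvPolynomial (Fin n) R) L).symm
      ((1 : L) ⊗ₜ[R] (MvPolynomial.X i : MvPolynomial (Fin n) R)) =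
      (MvPolynomial.X i : MvPolynomial (Fin n) R) ⊗ₜ[R] (1 : L) := rfl
  rw [h2, Algebra.TensorProduct.map_tmul, map_one]
  rfl

theorem jF_polyT {F : Type u} [Field F] [Algebra L F] [Algebra R F] [IsScalarTower R L F]
    (j : A →ₐ[R] F) (p : MvPolynomial (Fin n) L) :
    jF (F := L) j (polyT L A p) = MvPolynomial.aeval (fun i => j (crd R A n i)) p := by
  have h1 : (jF (F := L) j).toRingHom.comp (polyT (R := R) (n := n) L A) =
      (MvPolynomial.aeval (R := L) (fun i => j (crd R A n i))).toRingHom := by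
    apply MvPolynomial.ringHom_ext
    · intro l
      change jF (F := L) j (polyT L A (MvPolynomial.C l)) =
        MvPolynomial.aeval (R := L) (fun i => j (crd R A n i)) (MvPolynomial.C l)
      rw [polyT_C, MvPolynomial.aeval_C]
      simp [jF, Algebra.ofId_apply]
    · intro i
      change jF (F := L) j (polyT L A (MvPolynomial.X i)) =
        MvPolynomial.aeval (R := L) (fun i => j (crd R A n i)) (MvPolynomial.X i)
      rw [polyT_X, MvPolynomial.aeval_X]
      simp [jF]
  exact RingHom.congr_fun h1 p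

theorem polyT_nzd [Module.Flat (MvPolynomial (Fin n) R) A] (p : MvPolynomial (Fin n) L)
    (hp : p ≠ 0) : polyT (R := R) L A p ∈ (L ⊗[R] A)⁰ := by
  let P := MvPolynomial (Fin n) R
  let ε : L ⊗[R] P ≃ₐ[L] MvPolynomial (Fin n) L := MvPolynomial.algebraTensorAlgEquiv R L
  let τ : P ⊗[R] L ≃ₐ[R] L ⊗[R] P := Algebra.TensorProduct.comm R P L
  have hdom : IsDomain (P ⊗[R] L) :=
    Function.Injective.isDomain (ε.toRingEquiv.toRingHom.comp τ.toRingEquiv.toRingHom)
      (ε.injective.comp τ.injective)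
  let τ' : A ⊗[R] L ≃ₐ[R] L ⊗[R] A := Algebra.TensorProduct.comm R A L
  let x : P ⊗[R] L := τ.symm (ε.symm p)
  have hx : x ≠ 0 := by
    intro h0
    apply hp
    apply ε.symm.injective
    apply τ.symm.injective
    rw [map_zero, map_zero]
    exact h0
  have hpx : polyT (R := R) L A p = τ' ((Algebra.TensorProduct.map (IsScalarTower.toAlgHom R P A)
      (AlgHom.id R L) : P ⊗[R] L →ₐ[R] A ⊗[R] L) x) := rfl
  rw [mem_nonZeroDivisors_iff_right]
  intro y hy
  have h1 : (Algebra.TensorProduct.map (IsScalarTower.toAlgHom R P A)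
      (AlgHom.id R L) : P ⊗[R] L →ₐ[R] A ⊗[R] L) x * τ'.symm y = 0 := by
    apply τ'.injective
    rw [map_mul, AlgEquiv.apply_symm_apply, ← hpx, mul_comm, hy, map_zero]
  have h2 := chart_nzd x hx _ h1
  have h3 := congrArg τ' h2
  rwa [AlgEquiv.apply_symm_apply, map_zero] at h3

end

section

variable {R K A Ω : Type u} [CommRing R] [Field K] [Algebra R K] {X : Scheme.{u}}
  (f : X ⟶ Spec (CommRingCat.of R)) [CommRing A] [Algebra R A]
  (c : Spec (CommRingCat.of A) ⟶ X) [Field Ω] [Algebra K Ω] {n : ℕ}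
  [Algebra (MvPolynomial (Fin n) R) A] [IsScalarTower R (MvPolynomial (Fin n) R) A]

theorem SpAt.compat (hc : c ≫ f = Spec.map (CommRingCat.ofHom (algebraMap R A))) {ξ : A →+* Ω}
    {ζ : fib f (algebraMap R K)} (h : SpAt f c ξ ζ) (r : R) :
    ξ (algebraMap R A r) = algebraMap K Ω (algebraMap R K r) := by
  obtain ⟨m, h1, h2, -⟩ := h
  have h3 : Spec.map (CommRingCat.ofHom (ξ.comp (algebraMap R A))) =
      Spec.map (CommRingCat.ofHom ((algebraMap K Ω).comp (algebraMap R K))) := by
    rw [CommRingCat.ofHom_comp, CommRingCat.ofHom_comp, Spec.map_comp, Spec.map_comp, ← hc,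
      ← h2, ← Category.assoc, ← h1, Category.assoc, Category.assoc]
    congr 1
    exact pullback.condition
  have h4 := Spec.map_injective h3
  exact congrArg (fun g => g.hom r) h4

/-- The coordinates at a maximal point are algebraically independent. -/
theorem SpAt.algInd [IsOpenImmersion c] [Module.Flat (MvPolynomial (Fin n) R) A]
    (hc : c ≫ f = Spec.map (CommRingCat.ofHom (algebraMap R A))) {ξ : A →+* Ω}
    {ζ : fib f (algebraMap R K)} (h : SpAt f c ξ ζ) (hmax : ∀ z, z ⤳ ζ → z = ζ) :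
    AlgebraicIndependent K (fun i => ξ (crd R A n i)) := by
  have hcompat := h.compat f c hc
  let _ : Algebra R Ω := ((algebraMap K Ω).comp (algebraMap R K)).toAlgebra
  have : IsScalarTower R K Ω := IsScalarTower.of_algebraMap_eq fun _ => rfl
  let ξ' : A →ₐ[R] Ω := { ξ with commutes' := hcompat }
  let D := K ⊗[R] A
  let θ : D →ₐ[K] Ω := jF (F := K) ξ'
  obtain ⟨c', hc', hc1, hc2⟩ := sr3_chart f c hc K
  obtain ⟨m, h1, h2, h3⟩ := h
  have hm : Spec.map (CommRingCat.ofHom θ.toRingHom) ≫ c' = m := by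
    apply pullback.hom_ext
    · have h4 : (Spec.map (CommRingCat.ofHom θ.toRingHom) ≫ c') ≫ fibProj f (algebraMap R K) =
          m ≫ fibProj f (algebraMap R K) := by
        rw [Category.assoc, hc2, h1, ← Category.assoc, ← Spec.map_comp, ← CommRingCat.ofHom_comp]
        congr 3
        ext a
        change jF (F := K) ξ' ((1 : K) ⊗ₜ[R] a) = ξ' a
        simp only [jF, Algebra.TensorProduct.lift_tmul, map_one, one_mul]
      exact h4
    · have h4 : (Spec.map (CommRingCat.ofHom θ.toRingHom) ≫ c') ≫ fibHom f (algebraMap R K) =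
          m ≫ fibHom f (algebraMap R K) := by
        rw [Category.assoc, hc1, h2, ← Spec.map_comp, ← CommRingCat.ofHom_comp]
        congr 2
        ext a
        exact θ.commutes a
      exact h4
  let q : PrimeSpectrum D := (Spec.map (CommRingCat.ofHom θ.toRingHom)) (IsLocalRing.closedPoint Ω)
  have hcq : c' q = ζ := by
    rw [← h3, ← hm, Scheme.Hom.comp_apply]
  have hqmem : ∀ d : D, d ∈ q.asIdeal ↔ θ d = 0 := by
    intro d
    have h4 : d ∈ q.asIdeal ↔ θ d ∈ (IsLocalRing.closedPoint Ω).asIdeal := Iff.rfl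
    rw [h4]
    have h5 : (IsLocalRing.closedPoint Ω).asIdeal = IsLocalRing.maximalIdeal Ω := rfl
    rw [h5, IsLocalRing.maximalIdeal_eq_bot, Ideal.mem_bot]
  have hqmin : q.asIdeal ∈ minimalPrimes D := by
    refine ⟨⟨q.isPrime, bot_le⟩, ?_⟩
    rintro q' ⟨hq', -⟩ hle
    let Q' : PrimeSpectrum D := ⟨q', hq'⟩
    have h4 : Q' ⤳ q := (PrimeSpectrum.le_iff_specializes Q' q).mp hle
    have h5 : c' Q' ⤳ c' q := h4.map c'.continuous
    rw [hcq] at h5
    have h6 := hmax _ h5
    rw [← hcq] at h6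
    have h7 : Q' = q := c'.isOpenEmbedding.injective h6
    rw [← h7]
  rw [algebraicIndependent_iff]
  intro p hp
  by_contra hp0
  have h4 : polyT (R := R) K A p ∈ D⁰ := polyT_nzd p hp0
  have h5 : polyT (R := R) K A p ∈ q.asIdeal := by
    rw [hqmem]
    exact (jF_polyT ξ' p).trans hp
  exact notMem_nonZeroDivisors_of_mem_mem_minimalPrimes h5 hqmin h4

end

end KTS
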