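import Pool.Agent.KTS.SR3a
import Pool.Agent.TORE.G2

/-!
[KTS-R3'] The coordinate ring of an affine chart, inside the function field of the generic fibre.
-/

set_option autoImplicit false

namespace KTS

open AlgebraicGeometry CategoryTheory Limits
open Pool.Agent.TORE

open scoped TensorProduct

universe u

/-- The base change of a chart. -/
theorem sr3_chart {R : Type u} [CommRing R] {X : Scheme.{u}} (f : X ⟶ Spec (CommRingCat.of R))
    {A : Type u} [CommRing A] [Algebra R A] (c : Spec (CommRingCat.of A) ⟶ X) [IsOpenImmersion c]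
    (hc : c ≫ f = Spec.map (CommRingCat.ofHom (algebraMap R A)))
    (B : Type u) [CommRing B] [Algebra R B] :
    ∃ (c' : Spec (CommRingCat.of (B ⊗[R] A)) ⟶ fib f (algebraMap R B)) (_ : IsOpenImmersion c'),
      c' ≫ fibHom f (algebraMap R B) =
        Spec.map (CommRingCat.ofHom (algebraMap B (B ⊗[R] A))) ∧
      c' ≫ fibProj f (algebraMap R B) =
        Spec.map (CommRingCat.ofHom
          (Algebra.TensorProduct.includeRight (R := R) (A := B) (B := A)).toRingHom) ≫ c := by
  let c₁ : pullback (Spec.map (CommRingCat.ofHom (algebraMap R A)))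
      (Spec.map (CommRingCat.ofHom (algebraMap R B))) ⟶ fib f (algebraMap R B) :=
    pullback.map _ _ f (Spec.map (CommRingCat.ofHom (algebraMap R B))) c (𝟙 _) (𝟙 _)
      (by rw [hc, Category.comp_id]) (by rw [Category.comp_id, Category.id_comp])
  let c₀ : Spec (CommRingCat.of (B ⊗[R] A)) ⟶
      pullback (Spec.map (CommRingCat.ofHom (algebraMap R A)))
      (Spec.map (CommRingCat.ofHom (algebraMap R B))) :=
    (pullbackSpecIso R B A).inv ≫ (pullbackSymmetry _ _).hom
  refine ⟨c₀ ≫ c₁, inferInstance, ?_, ?_⟩
  · simp only [c₀, c₁, fibHom, Category.assoc, pullback.lift_snd, pullback.map, Category.comp_id,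
      pullbackSymmetry_hom_comp_snd]
    exact pullbackSpecIso_inv_fst' R B A
  · simp only [c₀, c₁, fibProj, Category.assoc, pullback.lift_fst, pullback.map]
    rw [pullbackSymmetry_hom_comp_fst_assoc, ← Category.assoc]
    congr 1
    exact pullbackSpecIso_inv_snd R B A

theorem sr3_flat {R : Type u} [CommRing R] {X : Scheme.{u}} (f : X ⟶ Spec (CommRingCat.of R))
    [Flat f] {A : Type u} [CommRing A] [Algebra R A] (c : Spec (CommRingCat.of A) ⟶ X)
    [IsOpenImmersion c] (hc : c ≫ f = Spec.map (CommRingCat.ofHom (algebraMap R A))) :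
    Module.Flat R A := by
  rw [← RingHom.flat_algebraMap_iff]
  have h1 : Flat (Spec.map (CommRingCat.ofHom (algebraMap R A))) := by
    rw [← hc]
    infer_instance
  exact (HasRingHomProperty.Spec_iff (P := @Flat)).mp h1

theorem chart_frac {R A L F : Type u} [CommRing R] [IsDomain R] [Field L] [Algebra R L]
    (hi : Function.Injective (algebraMap R L)) {X : Scheme.{u}} (f : X ⟶ Spec (CommRingCat.of R))
    [Flat f] [IsIntegral (fib f (algebraMap R L))] [Field F] [Algebra L F] [Algebra R F]
    [IsScalarTower R L F] (e : F ≃+* (fib f (algebraMap R L)).functionField)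
    (he : (fib f (algebraMap R L)).fromSpecStalk (genericPoint _) ≫ fibHom f (algebraMap R L) =
      Spec.map (CommRingCat.ofHom (e.toRingHom.comp (algebraMap L F))))
    [CommRing A] [Algebra R A] [Nontrivial A] (c : Spec (CommRingCat.of A) ⟶ X)
    [IsOpenImmersion c] (hc : c ≫ f = Spec.map (CommRingCat.ofHom (algebraMap R A))) :
    ∃ j : A →ₐ[R] F, FracData (F := L) j ∧
      Spec.map (CommRingCat.ofHom j.toRingHom) ≫ c =
        Spec.map (CommRingCat.ofHom e.symm.toRingHom) ≫
          (fib f (algebraMap R L)).fromSpecStalk (genericPoint _) ≫ fibProj f (algebraMap R L) := by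
  obtain ⟨c', hc', hc1, hc2⟩ := sr3_chart f c hc L
  have hfl : Module.Flat R A := sr3_flat f c hc
  have hinj : Function.Injective
      (Algebra.TensorProduct.includeRight : A →ₐ[R] L ⊗[R] A) :=
    Algebra.TensorProduct.includeRight_injective hi
  have : Nontrivial (L ⊗[R] A) := hinj.nontrivial
  have hne' : Nonempty (Spec (CommRingCat.of (L ⊗[R] A))) :=
    inferInstanceAs (Nonempty (PrimeSpectrum (L ⊗[R] A)))
  have hI : IsIntegral (Spec (CommRingCat.of (L ⊗[R] A))) :=
    isIntegral_of_isOpenImmersion c'
  have : IsDomain (L ⊗[R] A) := (affine_isIntegral_iff _).mp hI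
  obtain ⟨φ, hφ1, hφ2, hφ3⟩ := G2_phi c' (genericPoint (fib f (algebraMap R L)))
    (genericPoint_eq_of_isOpenImmersion c')
  have hF : ∀ a : L, φ (algebraMap L (L ⊗[R] A) a) = e (algebraMap L F a) := by
    have h1 : Spec.map (CommRingCat.ofHom (φ.comp (algebraMap L (L ⊗[R] A)))) =
        Spec.map (CommRingCat.ofHom (e.toRingHom.comp (algebraMap L F))) := by
      rw [← he, ← hφ1, Category.assoc, hc1, ← Spec.map_comp]
      rfl
    have h2 := Spec.map_injective h1
    intro a
    exact congrArg (fun f => f.hom a) h2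
  let j' : L ⊗[R] A →+* F := e.symm.toRingHom.comp φ
  have hj' : ∀ a : L, j' (algebraMap L (L ⊗[R] A) a) = algebraMap L F a := by
    intro a
    change e.symm (φ _) = _
    rw [hF, RingEquiv.symm_apply_apply]
  let j : A →ₐ[R] F :=
    { j'.comp (Algebra.TensorProduct.includeRight : A →ₐ[R] L ⊗[R] A).toRingHom with
      commutes' := by
        intro b
        change j' ((Algebra.TensorProduct.includeRight : A →ₐ[R] L ⊗[R] A)
          (algebraMap R A b)) = _
        rw [AlgHom.commutes, IsScalarTower.algebraMap_apply R L (L ⊗[R] A), hj',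
          ← IsScalarTower.algebraMap_apply R L F] }
  have hjj : ∀ w : L ⊗[R] A, jF (F := L) j w = j' w := by
    intro w
    induction w using TensorProduct.induction_on with
    | zero => rw [map_zero, map_zero]
    | add x y hx hy => rw [map_add, map_add, hx, hy]
    | tmul a x =>
      have h1 : a ⊗ₜ[R] x = (algebraMap L (L ⊗[R] A) a) *
          (Algebra.TensorProduct.includeRight : A →ₐ[R] L ⊗[R] A) x := by
        simp [Algebra.TensorProduct.algebraMap_apply]
      rw [h1, map_mul, map_mul, AlgHom.commutes, hj']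
      congr 1
      simp only [jF, Algebra.TensorProduct.includeRight_apply, Algebra.TensorProduct.lift_tmul,
        map_one, one_mul]
      rfl
  refine ⟨j, ⟨?_, ?_⟩, ?_⟩
  · intro x y hxy
    rw [hjj, hjj] at hxy
    exact hφ2 (e.symm.injective hxy)
  · intro z
    obtain ⟨x, y, hy, hxy⟩ := hφ3 (e z)
    refine ⟨x, y, ?_, ?_⟩
    · rw [hjj]
      intro h0
      apply hy
      apply hφ2
      apply e.symm.injective
      change j' y = e.symm (φ 0)
      rw [h0, map_zero, map_zero]
    · rw [hjj, hjj]
      apply e.injective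
      change e (z * e.symm (φ y)) = e (e.symm (φ x))
      rw [map_mul, RingEquiv.apply_symm_apply, RingEquiv.apply_symm_apply, hxy]
  · have h1 : (CommRingCat.ofHom j.toRingHom : CommRingCat.of A ⟶ CommRingCat.of F) =
        CommRingCat.ofHom (Algebra.TensorProduct.includeRight (R := R) (A := L) (B := A)).toRingHom ≫
          CommRingCat.ofHom φ ≫ CommRingCat.ofHom e.symm.toRingHom := rfl
    rw [h1, Spec.map_comp, Spec.map_comp, Category.assoc, Category.assoc, ← hc2,
      ← Category.assoc (Spec.map (CommRingCat.ofHom φ)), hφ1]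

end KTS
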