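import Pool.Agent.TORE.Chart

/-!
[KTS-R3] Standard etale charts of a smooth scheme over an affine base.
-/

set_option autoImplicit false

namespace KTS

open AlgebraicGeometry CategoryTheory Limits

universe u

theorem exists_chart {R : Type u} [CommRing R] {X : Scheme.{u}}
    (f : X ⟶ Spec (CommRingCat.of R)) [Smooth f] (x : X) :
    ∃ (A : Type u) (_ : CommRing A) (_ : Algebra R A) (n : ℕ)
      (_ : Algebra (MvPolynomial (Fin n) R) A) (_ : IsScalarTower R (MvPolynomial (Fin n) R) A)
      (_ : Algebra.IsStandardEtale (MvPolynomial (Fin n) R) A)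
      (c : Spec (CommRingCat.of A) ⟶ X), IsOpenImmersion c ∧
        c ≫ f = Spec.map (CommRingCat.ofHom (algebraMap R A)) ∧ x ∈ Set.range c := by
  obtain ⟨V', hV', hxV, -⟩ := X.isBasis_affineOpens.exists_subset_of_mem_open (Set.mem_univ x)
    isOpen_univ
  obtain ⟨V, hV, rfl⟩ := hV'
  have hV : IsAffineOpen V := hV
  let _ : Algebra R Γ(X, V) :=
    (((Scheme.ΓSpecIso (CommRingCat.of R)).inv ≫ f.appLE ⊤ V le_top).hom).toAlgebra
  have halg : algebraMap R Γ(X, V) =
      ((Scheme.ΓSpecIso (CommRingCat.of R)).inv ≫ f.appLE ⊤ V le_top).hom := rfl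
  have hπ : hV.fromSpec ≫ f = Spec.map (CommRingCat.ofHom (algebraMap R Γ(X, V))) := by
    have h1 := IsAffineOpen.SpecMap_appLE_fromSpec f (isAffineOpen_top (Spec (CommRingCat.of R)))
      hV le_top
    rw [← h1, IsAffineOpen.fromSpec_top, halg, CommRingCat.ofHom_hom, Spec.map_comp]
    congr 1
    exact Scheme.isoSpec_Spec_inv _
  have hsm : Algebra.Smooth R Γ(X, V) := by
    have h1 : (algebraMap R Γ(X, V)).Smooth := by
      rw [halg, CommRingCat.hom_comp]
      exact RingHom.Smooth.comp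
        (RingHom.Smooth.of_bijective (ConcreteCategory.bijective_of_isIso _))
        (f.smooth_appLE (isAffineOpen_top _) hV _)
    exact RingHom.smooth_algebraMap.mp h1
  let p := (hV.primeIdealOf ⟨x, hxV⟩).asIdeal
  obtain ⟨g, hg, n, i1, i2, i3⟩ :=
    Algebra.IsSmoothAt.exists_isStandardEtale_mvPolynomial (R := R) (S := Γ(X, V)) (p := p)
  refine ⟨Localization.Away g, inferInstance, inferInstance, n, i1, i2, i3,
    Spec.map (CommRingCat.ofHom (algebraMap Γ(X, V) (Localization.Away g))) ≫ hV.fromSpec,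
    inferInstance, ?_, ?_⟩
  · rw [Category.assoc, hπ, ← Spec.map_comp, ← CommRingCat.ofHom_comp,
      ← IsScalarTower.algebraMap_eq]
  · have h1 : hV.primeIdealOf ⟨x, hxV⟩ ∈
        Set.range (PrimeSpectrum.comap (algebraMap Γ(X, V) (Localization.Away g))) := by
      rw [PrimeSpectrum.localization_away_comap_range _ g]
      exact hg
    obtain ⟨q, hq⟩ := h1
    refine ⟨q, ?_⟩
    rw [Scheme.Hom.comp_apply]
    have h2 : (Spec.map (CommRingCat.ofHom (algebraMap Γ(X, V) (Localization.Away g)))) q =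
        hV.primeIdealOf ⟨x, hxV⟩ := hq
    rw [h2]
    exact hV.fromSpec_primeIdealOf ⟨x, hxV⟩

end KTS
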