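import Mathlib

/-!
[KTS-R4] The valuative criterion, and maps of spectra of local rings in an affine chart.
-/

set_option autoImplicit false

namespace KTS

open AlgebraicGeometry CategoryTheory Limits

universe u

theorem val_lift {R : Type u} [CommRing R] {X : Scheme.{u}} (f : X ⟶ Spec (CommRingCat.of R))
    [IsProper f] {E : Type u} [Field E] (O : ValuationSubring E) (a : R →+* O)
    (s : Spec (CommRingCat.of E) ⟶ X)
    (hs : s ≫ f = Spec.map (CommRingCat.ofHom (O.subtype.comp a))) :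
    ∃! t : Spec (CommRingCat.of O) ⟶ X,
      Spec.map (CommRingCat.ofHom O.subtype) ≫ t = s ∧ t ≫ f = Spec.map (CommRingCat.ofHom a) := by
  have hv : ValuativeCriterion f := by
    have h1 : (@IsProper) f := ‹IsProper f›
    rw [IsProper.eq_valuativeCriterion] at h1
    exact h1.1.1.1
  let S : ValuativeCommSq f := {
    R := O
    K := E
    i₁ := s
    i₂ := Spec.map (CommRingCat.ofHom a)
    commSq := ⟨by
      rw [hs, ← Spec.map_comp]
      rfl⟩ }
  obtain ⟨⟨⟨⟨l, hl1, hl2⟩⟩, hu⟩⟩ := hv S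
  refine ⟨l, ⟨hl1, hl2⟩, ?_⟩
  rintro t ⟨ht1, ht2⟩
  have h1 := hu ⟨t, ht1, ht2⟩
  exact congrArg CommSq.LiftStruct.l h1

theorem factor_chart {O A : Type u} [CommRing O] [IsLocalRing O] [CommRing A] {X : Scheme.{u}}
    (c : Spec (CommRingCat.of A) ⟶ X) [IsOpenImmersion c] (t : Spec (CommRingCat.of O) ⟶ X)
    (h : t (IsLocalRing.closedPoint O) ∈ Set.range c) :
    ∃ g : A →+* O, t = Spec.map (CommRingCat.ofHom g) ≫ c := by
  have hr : Set.range t ⊆ Set.range c := by
    rintro _ ⟨y, rfl⟩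
    have h1 : y ⤳ IsLocalRing.closedPoint O := IsLocalRing.specializes_closedPoint y
    have h2 : t y ⤳ t (IsLocalRing.closedPoint O) := h1.map t.continuous
    exact h2.mem_open c.isOpenEmbedding.isOpen_range h
  let l : Spec (CommRingCat.of O) ⟶ Spec (CommRingCat.of A) := IsOpenImmersion.lift c t hr
  refine ⟨(Spec.preimage l).hom, ?_⟩
  rw [CommRingCat.ofHom_hom, Spec.map_preimage]
  exact (IsOpenImmersion.lift_fac c t hr).symm

end KTS
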