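import Pool.Agent.KTS.Base

/-!
[KTS-R5] The valuation ring of `HahnSeries ℚ Ω`; it is henselian; lifting along standard etale algebras.
-/

set_option autoImplicit false

namespace KTS

noncomputable section

universe u

open IsLocalRing

/-- The valuation ring `{v ≥ 0}` of `HahnSeries ℚ Ω`. -/
def OU (Ω : Type u) [Field Ω] : ValuationSubring (HahnSeries ℚ Ω) where
  carrier := {x | 0 ≤ x.orderTop}
  mul_mem' := by
    intro a b ha hb
    have h := (HahnSeries.addVal ℚ Ω).map_mul a b
    simp only [HahnSeries.addVal_apply] at h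
    rw [Set.mem_ofPred_eq, h]
    exact add_nonneg ha hb
  one_mem' := by
    rw [Set.mem_ofPred_eq, HahnSeries.orderTop_one]
  add_mem' := by
    intro a b ha hb
    have h := (HahnSeries.addVal ℚ Ω).map_add a b
    simp only [HahnSeries.addVal_apply] at h
    exact (le_min ha hb).trans h
  zero_mem' := by
    rw [Set.mem_ofPred_eq, HahnSeries.orderTop_zero]
    exact le_top
  neg_mem' := by
    intro a ha
    rw [Set.mem_ofPred_eq, HahnSeries.orderTop_neg]
    exact ha
  mem_or_inv_mem' := by
    intro x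
    by_cases hx : x = 0
    · left
      rw [hx, Set.mem_ofPred_eq, HahnSeries.orderTop_zero]
      exact le_top
    · have h := (HahnSeries.addVal ℚ Ω).map_mul x x⁻¹
      rw [mul_inv_cancel₀ hx] at h
      simp only [HahnSeries.addVal_apply, HahnSeries.orderTop_one] at h
      have hx' : x⁻¹ ≠ 0 := inv_ne_zero hx
      rw [← HahnSeries.order_eq_orderTop_of_ne_zero hx,
        ← HahnSeries.order_eq_orderTop_of_ne_zero hx'] at h
      have h2 : (0 : ℚ) = x.order + x⁻¹.order := by exact_mod_cast h
      rcases le_total 0 x.order with h3 | h3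
      · left
        rw [Set.mem_ofPred_eq, ← HahnSeries.order_eq_orderTop_of_ne_zero hx]
        exact_mod_cast h3
      · right
        rw [Set.mem_ofPred_eq, ← HahnSeries.order_eq_orderTop_of_ne_zero hx']
        have h4 : 0 ≤ x⁻¹.order := by linarith
        exact_mod_cast h4

theorem mem_OU {Ω : Type u} [Field Ω] {x : HahnSeries ℚ Ω} : x ∈ OU Ω ↔ 0 ≤ x.orderTop := Iff.rfl

theorem coeff_zero_mul {Ω : Type u} [Field Ω] (x y : HahnSeries ℚ Ω) (hx : 0 ≤ x.orderTop)
    (hy : 0 ≤ y.orderTop) : (x * y).coeff 0 = x.coeff 0 * y.coeff 0 := by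
  have key : ∀ z w : HahnSeries ℚ Ω, 0 ≤ z.orderTop → 0 < w.orderTop → (z * w).coeff 0 = 0 := by
    intro z w hz hw
    apply HahnSeries.coeff_eq_zero_of_lt_orderTop
    have h := (HahnSeries.addVal ℚ Ω).map_mul z w
    simp only [HahnSeries.addVal_apply] at h
    rw [h]
    exact lt_of_lt_of_le hw (le_add_of_nonneg_left hz)
  have hpos : ∀ z : HahnSeries ℚ Ω, 0 ≤ z.orderTop → 0 < (z - HahnSeries.C (z.coeff 0)).orderTop := by
    intro z hz
    by_contra hcon
    rw [not_lt] at hcon
    have hne : z - HahnSeries.C (z.coeff 0) ≠ 0 := by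
      intro h0
      rw [h0, HahnSeries.orderTop_zero] at hcon
      exact absurd hcon (by simp)
    rw [← HahnSeries.order_eq_orderTop_of_ne_zero hne] at hcon
    have h1 : (z - HahnSeries.C (z.coeff 0)).order ≤ 0 := by exact_mod_cast hcon
    have h2 := HahnSeries.coeff_order_eq_zero.not.mpr hne
    apply h2
    rcases h1.lt_or_eq with h3 | h3
    · generalize (z - HahnSeries.C (z.coeff 0)).order = g at h3
      rw [HahnSeries.coeff_sub]
      have h4 : z.coeff g = 0 := by
        apply HahnSeries.coeff_eq_zero_of_lt_orderTop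
        exact lt_of_lt_of_le (by exact_mod_cast h3) hz
      rw [h4, HahnSeries.C_apply, HahnSeries.coeff_single_of_ne h3.ne, sub_self]
    · rw [h3, HahnSeries.coeff_sub, HahnSeries.C_apply, HahnSeries.coeff_single_same, sub_self]
  have hC : ∀ a : Ω, 0 ≤ (HahnSeries.C a : HahnSeries ℚ Ω).orderTop := by
    intro a
    rw [HahnSeries.le_orderTop_iff_forall]
    intro g hg
    have hg' : g < 0 := by exact_mod_cast hg
    rw [HahnSeries.C_apply, HahnSeries.coeff_single_of_ne hg'.ne]
  obtain ⟨x', hx'⟩ : ∃ x', x' = x - HahnSeries.C (x.coeff 0) := ⟨_, rfl⟩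
  obtain ⟨y', hy'⟩ : ∃ y', y' = y - HahnSeries.C (y.coeff 0) := ⟨_, rfl⟩
  have e : x * y = HahnSeries.C (x.coeff 0 * y.coeff 0) + HahnSeries.C (x.coeff 0) * y' +
      y * x' := by
    rw [hx', hy', map_mul]
    ring
  rw [e, HahnSeries.coeff_add, HahnSeries.coeff_add, key _ _ (hC _) (hy' ▸ hpos y hy),
    key _ _ hy (hx' ▸ hpos x hx), add_zero, add_zero, HahnSeries.C_apply,
    HahnSeries.coeff_single_same]

/-- The residue map. -/
def resU (Ω : Type u) [Field Ω] : OU Ω →+* Ω where
  toFun x := (x : HahnSeries ℚ Ω).coeff 0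
  map_one' := HahnSeries.coeff_one.trans (if_pos rfl)
  map_mul' x y := coeff_zero_mul _ _ x.2 y.2
  map_zero' := rfl
  map_add' _ _ := rfl

@[simp] theorem resU_apply {Ω : Type u} [Field Ω] (x : OU Ω) :
    resU Ω x = (x : HahnSeries ℚ Ω).coeff 0 := rfl

theorem resU_surj (Ω : Type u) [Field Ω] : Function.Surjective (resU Ω) := by
  intro a
  refine ⟨⟨HahnSeries.C a, ?_⟩, ?_⟩
  · rw [mem_OU, HahnSeries.le_orderTop_iff_forall]
    intro g hg
    have hg' : g < 0 := by exact_mod_cast hg
    rw [HahnSeries.C_apply, HahnSeries.coeff_single_of_ne hg'.ne]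
  · rw [resU_apply]
    change (HahnSeries.C a : HahnSeries ℚ Ω).coeff 0 = a
    rw [HahnSeries.C_apply, HahnSeries.coeff_single_same]

theorem resU_ker {Ω : Type u} [Field Ω] (x : OU Ω) :
    resU Ω x = 0 ↔ x ∈ maximalIdeal (OU Ω) := by
  have h1 : (RingHom.ker (resU Ω)).IsMaximal := RingHom.ker_isMaximal_of_surjective _ (resU_surj Ω)
  have h2 := IsLocalRing.eq_maximalIdeal h1
  rw [← h2, RingHom.mem_ker]

theorem resU_eq_zero_iff {Ω : Type u} [Field Ω] (x : OU Ω) :
    resU Ω x = 0 ↔ 0 < (x : HahnSeries ℚ Ω).orderTop := by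
  constructor
  · intro h
    by_contra hcon
    rw [not_lt] at hcon
    have h0 : (x : HahnSeries ℚ Ω).orderTop = 0 := le_antisymm hcon x.2
    exact HahnSeries.coeff_orderTop_ne (g := 0) h0 h
  · intro h
    exact HahnSeries.coeff_eq_zero_of_lt_orderTop h

/-- The valuation rings of an algebraically closed field are henselian. -/
theorem henselian_of_algClosed {K : Type u} [Field K] [IsAlgClosed K] (O : ValuationSubring K) :
    HenselianLocalRing O where
  is_henselian := by
    intro f hf a₀ h0 hder
    have hs : (f.map (algebraMap O K)).Splits := IsAlgClosed.splits _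
    have hm : (f.map (algebraMap O K)).Monic := hf.map _
    have hprod := hs.eq_prod_roots_of_monic hm
    have hev : (f.map (algebraMap O K)).eval (a₀ : K) =
        ((f.map (algebraMap O K)).roots.map fun r => (a₀ : K) - r).prod := by
      conv_lhs => rw [hprod]
      rw [Polynomial.eval_multiset_prod, Multiset.map_map]
      congr 1
      refine Multiset.map_congr rfl fun r _ => ?_
      simp
    have hroot : ∀ r ∈ (f.map (algebraMap O K)).roots, r ∈ O := by
      intro r hr
      have h1 : (f.map (algebraMap O K)).IsRoot r := Polynomial.isRoot_of_mem_roots hr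
      have h2 : IsIntegral O r := ⟨f, hf, by
        rw [← Polynomial.eval_map]
        exact h1⟩
      obtain ⟨y, hy⟩ := IsIntegrallyClosed.isIntegral_iff.mp h2
      rw [← hy]
      exact y.2
    have hlt : O.valuation ((f.map (algebraMap O K)).eval (a₀ : K)) < 1 := by
      have h1 : (f.map (algebraMap O K)).eval (a₀ : K) = ((f.eval a₀ : O) : K) := by
        rw [Polynomial.eval_map]
        exact (Polynomial.hom_eval₂ f (RingHom.id O) (algebraMap O K) a₀).symm
      rw [h1]
      exact (O.valuation_lt_one_iff _).mp h0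
    rw [hev, map_multiset_prod, Multiset.map_map] at hlt
    obtain ⟨r, hr, hr1⟩ : ∃ r ∈ (f.map (algebraMap O K)).roots, O.valuation ((a₀ : K) - r) ≠ 1 := by
      by_contra hcon
      push Not at hcon
      apply hlt.ne
      apply Multiset.prod_eq_one
      intro x hx
      obtain ⟨r, hr, rfl⟩ := Multiset.mem_map.mp hx
      exact hcon r hr
    have hrO := hroot r hr
    refine ⟨⟨r, hrO⟩, ?_, ?_⟩
    · have h1 : (f.map (algebraMap O K)).IsRoot r := Polynomial.isRoot_of_mem_roots hr
      rw [Polynomial.IsRoot.def] at h1 ⊢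
      apply Subtype.ext
      have h2 := Polynomial.hom_eval₂ f (RingHom.id O) (algebraMap O K) (⟨r, hrO⟩ : O)
      rw [Polynomial.eval_map] at h1
      exact h2.trans h1
    · rw [O.valuation_lt_one_iff]
      have h1 : O.valuation ((a₀ : K) - r) ≤ 1 :=
        (O.valuation_le_one_iff _).mpr (O.sub_mem a₀.2 hrO)
      have h2 : O.valuation ((a₀ : K) - r) < 1 := lt_of_le_of_ne h1 hr1
      have h3 : (((⟨r, hrO⟩ - a₀ : O)) : K) = -((a₀ : K) - r) := by
        rw [neg_sub]
        rfl
      rw [h3, Valuation.map_neg]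
      exact h2

/-- Lifting along a standard etale algebra. -/
theorem std_lift {P C O k : Type*} [CommRing P] [CommRing C] [Algebra P C]
    [Algebra.IsStandardEtale P C] [CommRing O] [HenselianLocalRing O] [Field k] (res : O →+* k)
    (hres : Function.Surjective res) (hker : ∀ x, res x = 0 ↔ x ∈ maximalIdeal O) (α : P →+* O)
    (φ : C →+* k) (h : res.comp α = φ.comp (algebraMap P C)) :
    ∃! ψ : C →+* O, ψ.comp (algebraMap P C) = α ∧ res.comp ψ = φ := by
  obtain ⟨S⟩ := Algebra.IsStandardEtale.nonempty_standardEtalePresentation (R := P) (S := C)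
  let _ : Algebra P O := α.toAlgebra
  have hr : ∀ (p : Polynomial P) (b : O), res b = φ S.x →
      res (Polynomial.aeval b p) = φ (Polynomial.aeval S.x p) := by
    intro p b hb
    rw [Polynomial.aeval_def, Polynomial.aeval_def, Polynomial.hom_eval₂, Polynomial.hom_eval₂, hb]
    exact congrArg (fun g => Polynomial.eval₂ g (φ S.x) p) h
  have hunit : ∀ b : O, res b ≠ 0 → IsUnit b := by
    intro b hb
    by_contra hnu
    exact hb ((hker b).mpr ((mem_maximalIdeal _).mpr hnu))
  have hderx : φ (Polynomial.aeval S.x (Polynomial.derivative S.P.f)) ≠ 0 :=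
    (S.hasMap.isUnit_derivative_f.map φ).ne_zero
  have hgx : φ (Polynomial.aeval S.x S.P.g) ≠ 0 := (S.hasMap.2.map φ).ne_zero
  obtain ⟨a₀, ha₀⟩ := hres (φ S.x)
  have hev : ∀ (p : Polynomial P) (b : O),
      (p.map (algebraMap P O)).eval b = Polynomial.aeval b p := fun p b =>
    Polynomial.eval_map_algebraMap p b
  obtain ⟨a, ha1, ha2⟩ := HenselianLocalRing.is_henselian (S.P.f.map (algebraMap P O))
    (S.P.monic_f.map _) a₀ (by
      rw [← hker, hev, hr _ _ ha₀, S.hasMap.1, map_zero])
    (by
      apply hunit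
      rw [Polynomial.derivative_map, hev, hr _ _ ha₀]
      exact hderx)
  have hra : res a = φ S.x := by
    have h1 := (hker _).mpr ha2
    rw [map_sub, sub_eq_zero] at h1
    rw [h1, ha₀]
  have hroot : Polynomial.aeval a S.P.f = 0 := by
    rw [← hev]
    exact ha1
  have hmap : S.P.HasMap a := ⟨hroot, hunit _ (by rw [hr _ _ hra]; exact hgx)⟩
  -- uniqueness of the root
  have huniq : ∀ b : O, Polynomial.aeval b S.P.f = 0 → res b = φ S.x → b = a := by
    intro b hb hrb
    obtain ⟨c, hc⟩ := (S.P.f.map (algebraMap P O)).binomExpansion a (b - a)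
    rw [add_sub_cancel, hev, hev, hb, hroot, Polynomial.derivative_map, hev] at hc
    have h1 : (Polynomial.aeval a (Polynomial.derivative S.P.f) + c * (b - a)) * (b - a) = 0 := by
      linear_combination -hc
    have h2 : IsUnit (Polynomial.aeval a (Polynomial.derivative S.P.f) + c * (b - a)) := by
      apply hunit
      rw [map_add, map_mul, map_sub, hrb, hra, sub_self, mul_zero, add_zero, hr _ _ hra]
      exact hderx
    exact sub_eq_zero.mp (h2.mul_right_eq_zero.mp h1)
  let ψ : C →ₐ[P] O := (S.P.lift a hmap).comp S.equivRing.toAlgHom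
  have hψx : ψ S.x = a := by
    change S.P.lift a hmap (S.equivRing S.x) = a
    have h1 : S.equivRing S.x = S.P.X := by simp
    rw [h1]
    simp
  refine ⟨ψ, ⟨?_, ?_⟩, ?_⟩
  · ext p
    exact ψ.commutes p
  · let _ : Algebra P k := (φ.comp (algebraMap P C)).toAlgebra
    let f₁ : C →ₐ[P] k := { res.comp ψ.toRingHom with
      commutes' := fun p => by
        change res (ψ (algebraMap P C p)) = φ (algebraMap P C p)
        rw [AlgHom.commutes]
        exact RingHom.congr_fun h p }
    let f₂ : C →ₐ[P] k := { φ with commutes' := fun p => rfl }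
    have h12 : f₁ = f₂ := S.hom_ext (by
      change res (ψ S.x) = φ S.x
      rw [hψx, hra])
    ext c
    exact AlgHom.congr_fun h12 c
  · rintro ψ' ⟨h1, h2⟩
    let f₁ : C →ₐ[P] O := { ψ' with commutes' := fun p => RingHom.congr_fun h1 p }
    have h12 : f₁ = ψ := S.hom_ext (by
      rw [hψx]
      apply huniq
      · rw [Polynomial.aeval_algHom_apply, S.hasMap.1, map_zero]
      · exact RingHom.congr_fun h2 S.x)
    ext c
    exact AlgHom.congr_fun h12 c

end

end KTS
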