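import Pool.Agent.KTS.SR3a
import Pool.Agent.TORE.G6
import Pool.Agent.TORE.Adapt

/-!
[KTS-R7] A smooth scheme over an algebraically closed field with exactly one maximal point, with purely
transcendental residue field, is rational.
-/

set_option autoImplicit false

namespace KTS

open AlgebraicGeometry CategoryTheory Limits
open Pool.Agent.TORE

open scoped TensorProduct

universe u

/-- Etale algebras over a domain are reduced. -/
theorem etale_reduced {D S : Type u} [CommRing D] [IsDomain D] [CommRing S] [Algebra D S]
    [Algebra.Etale D S] : _root_.IsReduced S := by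
  have hfl : Module.Flat D S := inferInstance
  have hinj : Function.Injective
      (Algebra.TensorProduct.includeRight : S →ₐ[D] FractionRing D ⊗[D] S) :=
    Algebra.TensorProduct.includeRight_injective (IsFractionRing.injective D (FractionRing D))
  have h1 : _root_.IsReduced (FractionRing D ⊗[D] S) :=
    Algebra.FormallyUnramified.isReduced_of_field (FractionRing D) _
  exact isReduced_of_injective _ hinj

/-- Smooth schemes over a field are reduced. -/
theorem reduced_of_smooth {K : Type u} [Field K] {Z : Scheme.{u}} (g : Z ⟶ Spec (CommRingCat.of K))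
    [Smooth g] : IsReduced Z := by
  have hst : ∀ z : Z, _root_.IsReduced (Z.presheaf.stalk z) := by
    intro z
    obtain ⟨A, i1, i2, n, i3, i4, i5, c, hc, -, q, rfl⟩ := exists_chart g z
    have hA : _root_.IsReduced A := etale_reduced (D := MvPolynomial (Fin n) K)
    have hS : IsReduced (Spec (CommRingCat.of A)) :=
      (affine_isReduced_iff (CommRingCat.of A)).mpr hA
    have h2 : Function.Bijective (c.stalkMap q).hom := ConcreteCategory.bijective_of_isIso _
    exact isReduced_of_injective (c.stalkMap q).hom h2.1
  exact isReduced_of_isReduced_stalk Z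

/-- Every point is a specialisation of a maximal point. -/
theorem exists_maximal_point {Z : Scheme.{u}} (z : Z) :
    ∃ ζ : Z, ζ ⤳ z ∧ ∀ z' : Z, z' ⤳ ζ → z' = ζ := by
  have hirr : IsIrreducible (irreducibleComponent z) := isIrreducible_irreducibleComponent
  have hcl : IsClosed (irreducibleComponent z) := isClosed_irreducibleComponent
  obtain ⟨ζ, hζ⟩ := QuasiSober.sober hirr hcl
  have hζ' : closure {ζ} = irreducibleComponent z := hζ
  refine ⟨ζ, ?_, ?_⟩
  · rw [specializes_iff_mem_closure, hζ']
    exact mem_irreducibleComponent
  · intro z' hz'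
    have h1 : irreducibleComponent z ⊆ closure {z'} := by
      rw [← hζ']
      exact hz'.closure_subset
    have h2 : closure {z'} = irreducibleComponent z :=
      eq_irreducibleComponent isPreirreducible_singleton.closure h1
    have h3 : ζ ⤳ z' := by
      rw [specializes_iff_mem_closure, hζ', ← h2]
      exact subset_closure rfl
    exact (hz'.antisymm h3).eq

theorem pure_rat {K : Type u} [Field K] [IsAlgClosed K] {Z : Scheme.{u}}
    (g : Z ⟶ Spec (CommRingCat.of K)) [Smooth g] [QuasiCompact g] [IsIntegral Z] (d : ℕ)
    (hd : PureOver g d) : RatOver g := by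
  have hid : Spec.map (CommRingCat.ofHom (algebraMap K K)) = 𝟙 (Spec (CommRingCat.of K)) :=
    Spec.map_id _
  have hiso : IsIso (Spec.map (CommRingCat.ofHom (algebraMap K K))) := by
    rw [hid]
    infer_instance
  let e : fib g (algebraMap K K) ≅ Z := asIso (fibProj g (algebraMap K K))
  have he : e.hom ≫ g = fibHom g (algebraMap K K) := by
    change fibProj g (algebraMap K K) ≫ g = _
    have h1 := pullback.condition (f := g) (g := Spec.map (CommRingCat.ofHom (algebraMap K K)))
    rw [hid, Category.comp_id] at h1
    have h2 : fibProj g (algebraMap K K) ≫ g =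
        fibHom g (algebraMap K K) ≫ Spec.map (CommRingCat.ofHom (algebraMap K K)) :=
      pullback.condition
    rw [h2, hid]
    exact Category.comp_id _
  have hI : IsIntegral (fib g (algebraMap K K)) := G6_isIntegral_of_iso e
  have hd' : PureOver (fibHom g (algebraMap K K)) d := G6d_pure _ _ e he d hd
  obtain ⟨a, ha, H⟩ := G6 g (F := K) (algebraMap K K).injective d hd'
  obtain ⟨n, hn, h⟩ := H K (algebraMap K K) ha
  exact ⟨n, hn, (G6d_isoBir g (fibHom g (algebraMap K K)) e.symm (by
    rw [← he, Iso.symm_hom, Iso.inv_hom_id_assoc])).trans h⟩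

theorem ratOver_of_unique {K : Type u} [Field K] [IsAlgClosed K] {Z : Scheme.{u}}
    (g : Z ⟶ Spec (CommRingCat.of K)) [Smooth g] [QuasiCompact g] (η : Z)
    (huniq : ∀ ζ : Z, (∀ z, z ⤳ ζ → z = ζ) → ζ = η) (d : ℕ)
    (e : RatFun K d ≃+* Z.residueField η)
    (he : Z.fromSpecResidueField η ≫ g =
      Spec.map (CommRingCat.ofHom (e.toRingHom.comp (algebraMap K (RatFun K d))))) :
    RatOver g := by
  have hspec : ∀ z : Z, η ⤳ z := by
    intro z
    obtain ⟨ζ, h1, h2⟩ := exists_maximal_point z
    rw [huniq ζ h2] at h1
    exact h1
  have hcl : closure {η} = (Set.univ : Set Z) := by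
    ext z
    simp only [Set.mem_univ, iff_true]
    exact specializes_iff_mem_closure.mp (hspec z)
  have hirr : IrreducibleSpace Z := by
    have h1 : IsIrreducible (Set.univ : Set Z) := by
      rw [← hcl]
      exact isIrreducible_singleton.closure
    exact (irreducibleSpace_def Z).mpr h1
  have hred : IsReduced Z := reduced_of_smooth g
  have hint : IsIntegral Z := isIntegral_of_irreducibleSpace_of_isReduced Z
  have hη : genericPoint Z = η := by
    have h1 : IsGenericPoint η (Set.univ : Set Z) := hcl
    exact (genericPoint_spec Z).eq h1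
  have hat : G6d_at g d η := by
    have hf : IsField (Z.presheaf.stalk η) := by
      rw [← hη]
      exact (inferInstance : Field Z.functionField).toIsField
    let _ : Field (Z.presheaf.stalk η) := hf.toField
    have hbij : Function.Bijective (Z.residue η).hom := by
      refine ⟨RingHom.injective _, ?_⟩
      exact Z.residue_surjective η
    let r : Z.presheaf.stalk η ≃+* Z.residueField η := RingEquiv.ofBijective (Z.residue η).hom hbij
    refine ⟨e.trans r.symm, ?_⟩
    have h1 : Z.fromSpecResidueField η = Spec.map (Z.residue η) ≫ Z.fromSpecStalk η := rfl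
    let t : Z.residueField η ⟶ Z.presheaf.stalk η := CommRingCat.ofHom r.symm.toRingHom
    have h2 : Spec.map t ≫ Spec.map (Z.residue η) = 𝟙 _ := by
      rw [← Spec.map_comp]
      have h3 : Z.residue η ≫ t = 𝟙 _ := by
        ext a
        exact r.symm_apply_apply a
      rw [h3]
      exact Spec.map_id _
    have h3 : Z.fromSpecStalk η ≫ g = Spec.map t ≫ Z.fromSpecResidueField η ≫ g := by
      rw [h1, Category.assoc, ← Category.assoc (Spec.map t), h2]
      exact (Category.id_comp _).symm
    rw [h3, he, ← Spec.map_comp]
    rfl
  have hpure : PureOver g d := by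
    rw [← hη] at hat
    exact hat
  exact pure_rat g d hpure

end KTS
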