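import Pool.Agent.KTS.SR5
import Pool.Agent.KTS.HC2
import Pool.Agent.TORE.GDefs

/-!
[KTS-R9] The coordinate ring of a standard etale chart inside the function field of the generic fibre.
-/

set_option autoImplicit false

namespace KTS

open Pool.Agent.TORE
open scoped TensorProduct

universe u

/-- Standard etale algebras are algebraic. -/
theorem std_algebraic {P A E S : Type*} [CommRing P] [CommRing A] [Algebra P A]
    [Algebra.IsStandardEtale P A] [Field E] [Field S] [Algebra S E] (h : A →+* E)
    (hP : ∀ p : P, IsAlgebraic S (h (algebraMap P A p))) (a : A) : IsAlgebraic S (h a) := by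
  obtain ⟨Q⟩ := Algebra.IsStandardEtale.nonempty_standardEtalePresentation (R := P) (S := A)
  let T : IntermediateField S E := algebraicClosure S E
  have hT : ∀ x : E, x ∈ T ↔ IsAlgebraic S x := fun x => mem_algebraicClosure_iff
  let φ : P →+* T := (h.comp (algebraMap P A)).codRestrict T.toSubring.toSubsemiring
    (fun p => (hT _).mpr (hP p))
  have hφ : (algebraMap T E).comp φ = h.comp (algebraMap P A) := by
    ext p
    rfl
  have hev : ∀ q : Polynomial P, h (Polynomial.aeval Q.x q) =
      Polynomial.eval₂ ((algebraMap T E).comp φ) (h Q.x) q := by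
    intro q
    rw [Polynomial.aeval_def, Polynomial.hom_eval₂, hφ]
  have hx : h Q.x ∈ T := by
    rw [hT]
    have h1 : IsIntegral T (h Q.x) := by
      refine ⟨Q.P.f.map φ, Q.P.monic_f.map φ, ?_⟩
      rw [Polynomial.eval₂_map, ← hev, Q.hasMap.1, map_zero]
    exact IsAlgebraic.restrictScalars S h1.isAlgebraic
  have hmem : ∀ q : Polynomial P, h (Polynomial.aeval Q.x q) ∈ T := by
    intro q
    rw [hev]
    have h1 := Polynomial.hom_eval₂ q φ (algebraMap T E) (⟨h Q.x, hx⟩ : T)
    have h2 : algebraMap T E (⟨h Q.x, hx⟩ : T) = h Q.x := rfl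
    rw [h2] at h1
    rw [← h1]
    exact (Polynomial.eval₂ φ (⟨h Q.x, hx⟩ : T) q).2
  obtain ⟨p, n, hpn⟩ := Q.exists_mul_aeval_x_g_pow_eq_aeval_x a
  have h1 := congrArg h hpn
  rw [map_mul, map_pow] at h1
  have h2 : h (Polynomial.aeval Q.x Q.P.g) ≠ 0 := (Q.hasMap.2.map h).ne_zero
  rw [← hT]
  have h3 : h a = h (Polynomial.aeval Q.x p) / h (Polynomial.aeval Q.x Q.P.g) ^ n := by
    rw [eq_div_iff (pow_ne_zero _ h2), h1]
  rw [h3]
  exact T.div_mem (hmem p) (pow_mem (hmem Q.P.g) n)

/-- A flat base change is injective on a domain. -/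
theorem chart_inj {R L P A : Type u} [CommRing R] [CommRing L] [Algebra R L] [CommRing P]
    [Algebra R P] [CommRing A] [Algebra R A] [Algebra P A] [IsScalarTower R P A] [Module.Flat P A]
    [IsDomain (P ⊗[R] L)] [Nontrivial (A ⊗[R] L)] :
    Function.Injective (Algebra.TensorProduct.map (IsScalarTower.toAlgHom R P A)
      (AlgHom.id R L) : P ⊗[R] L →ₐ[R] A ⊗[R] L) := by
  rw [injective_iff_map_eq_zero]
  intro x hx
  by_contra hx0
  let E := P ⊗[R] L
  let m : E →ₗ[P] E := LinearMap.mulLeft P (x : E)
  have hm : Function.Injective m := fun y z hyz => mul_left_cancel₀ hx0 hyz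
  have h1 : Function.Injective (m.lTensor A) :=
    Module.Flat.lTensor_preserves_injective_linearMap m hm
  let e : A ⊗[P] E ≃ₐ[A] A ⊗[R] L := Algebra.TensorProduct.cancelBaseChange R P A A L
  have he : ∀ y : E, e (1 ⊗ₜ[P] y) = (Algebra.TensorProduct.map (IsScalarTower.toAlgHom R P A)
      (AlgHom.id R L) : P ⊗[R] L →ₐ[R] A ⊗[R] L) y := by
    intro y
    induction y using TensorProduct.induction_on with
    | zero => rw [TensorProduct.tmul_zero, map_zero, map_zero]
    | add y z hy hz => rw [TensorProduct.tmul_add, map_add, map_add, hy, hz]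
    | tmul p l =>
      change Algebra.TensorProduct.cancelBaseChange R P A A L (1 ⊗ₜ[P] (p ⊗ₜ[R] l)) = _
      rw [Algebra.TensorProduct.cancelBaseChange_tmul, Algebra.TensorProduct.map_tmul,
        Algebra.smul_def, mul_one]
      rfl
  have h2 : m.lTensor A ((1 : A) ⊗ₜ[P] (1 : E)) = m.lTensor A 0 := by
    rw [LinearMap.lTensor_tmul, map_zero]
    have h3 : m 1 = x := mul_one x
    rw [h3]
    apply e.injective
    rw [he, hx, map_zero]
  have h3 := h1 h2
  have h4 : (1 : A ⊗[P] E) = 0 := h3
  have h5 := congrArg e h4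
  rw [map_one, map_zero] at h5
  exact one_ne_zero h5

section

variable {R L F A : Type u} [CommRing R] [Field L] [Algebra R L] [Field F] [Algebra L F]
  [Algebra R F] [IsScalarTower R L F] [CommRing A] [Algebra R A] {n : ℕ}
  [Algebra (MvPolynomial (Fin n) R) A] [IsScalarTower R (MvPolynomial (Fin n) R) A]

/-- The coordinates. -/
noncomputable def crd (R A : Type u) [CommRing R] [CommRing A] (n : ℕ)
    [Algebra (MvPolynomial (Fin n) R) A] (i : Fin n) : A :=
  algebraMap (MvPolynomial (Fin n) R) A (MvPolynomial.X i)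

/-- The coordinates are algebraically independent. -/
theorem chart_algInd [Module.Flat (MvPolynomial (Fin n) R) A] (j : A →ₐ[R] F)
    (hj : FracData (F := L) j) : AlgebraicIndependent L (fun i => j (crd R A n i)) := by
  let P := MvPolynomial (Fin n) R
  let ε : L ⊗[R] P ≃ₐ[L] MvPolynomial (Fin n) L := MvPolynomial.algebraTensorAlgEquiv R L
  let τ : P ⊗[R] L ≃ₐ[R] L ⊗[R] P := Algebra.TensorProduct.comm R P L
  have hdom : IsDomain (P ⊗[R] L) :=
    Function.Injective.isDomain (ε.toRingEquiv.toRingHom.comp τ.toRingEquiv.toRingHom)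
      (ε.injective.comp τ.injective)
  let τ' : A ⊗[R] L ≃ₐ[R] L ⊗[R] A := Algebra.TensorProduct.comm R A L
  have hnt0 : Nontrivial (L ⊗[R] A) := by
    refine ⟨0, 1, ?_⟩
    intro h
    have h1 := congrArg (jF (F := L) j) h
    rw [map_zero, map_one] at h1
    exact zero_ne_one h1
  have hnt : Nontrivial (A ⊗[R] L) := τ'.symm.injective.nontrivial
  have hinj := chart_inj (R := R) (L := L) (P := P) (A := A)
  -- the composite
  let g : MvPolynomial (Fin n) L →+* F :=
    (jF (F := L) j).toRingHom.comp ((τ' : A ⊗[R] L →+* L ⊗[R] A).comp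
      ((Algebra.TensorProduct.map (IsScalarTower.toAlgHom R P A)
        (AlgHom.id R L) : P ⊗[R] L →ₐ[R] A ⊗[R] L).toRingHom.comp
        ((τ.symm : L ⊗[R] P →+* P ⊗[R] L).comp
          (ε.symm : MvPolynomial (Fin n) L →+* L ⊗[R] P))))
  have hg : Function.Injective g :=
    hj.inj.comp (τ'.injective.comp (hinj.comp (τ.symm.injective.comp ε.symm.injective)))
  have hg2 : g = (MvPolynomial.aeval (R := L) (fun i => j (crd R A n i))).toRingHom := by
    apply MvPolynomial.ringHom_ext
    · intro l
      change jF (F := L) j (τ' ((Algebra.TensorProduct.map (IsScalarTower.toAlgHom R P A)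
        (AlgHom.id R L) : P ⊗[R] L →ₐ[R] A ⊗[R] L) (τ.symm (ε.symm (MvPolynomial.C l))))) =
        MvPolynomial.aeval (R := L) (fun i => j (crd R A n i)) (MvPolynomial.C l)
      have h1 : ε.symm (MvPolynomial.C l) = l ⊗ₜ[R] (1 : P) := by
        have h2 : (MvPolynomial.C l : MvPolynomial (Fin n) L) =
          algebraMap L (MvPolynomial (Fin n) L) l := rfl
        rw [h2, AlgEquiv.commutes]
        rfl
      have h2 : τ.symm (l ⊗ₜ[R] (1 : P)) = (1 : P) ⊗ₜ[R] l := rfl
      rw [h1, h2, Algebra.TensorProduct.map_tmul, map_one]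
      have h3 : τ' ((1 : A) ⊗ₜ[R] (AlgHom.id R L l)) = l ⊗ₜ[R] (1 : A) := rfl
      rw [h3, MvPolynomial.aeval_C]
      simp [jF, Algebra.ofId_apply]
    · intro i
      change jF (F := L) j (τ' ((Algebra.TensorProduct.map (IsScalarTower.toAlgHom R P A)
        (AlgHom.id R L) : P ⊗[R] L →ₐ[R] A ⊗[R] L) (τ.symm (ε.symm (MvPolynomial.X i))))) =
        MvPolynomial.aeval (R := L) (fun i => j (crd R A n i)) (MvPolynomial.X i)
      have h1 : ε.symm (MvPolynomial.X i) = (1 : L) ⊗ₜ[R] (MvPolynomial.X i : P) :=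
        MvPolynomial.algebraTensorAlgEquiv_symm_X R L i
      have h2 : τ.symm ((1 : L) ⊗ₜ[R] (MvPolynomial.X i : P)) =
        (MvPolynomial.X i : P) ⊗ₜ[R] (1 : L) := rfl
      rw [h1, h2, Algebra.TensorProduct.map_tmul, map_one]
      have h3 : τ' ((IsScalarTower.toAlgHom R P A (MvPolynomial.X i)) ⊗ₜ[R] (1 : L)) =
        (1 : L) ⊗ₜ[R] crd R A n i := rfl
      rw [h3, MvPolynomial.aeval_X]
      simp [jF]
  rw [algebraicIndependent_iff_injective_aeval]
  intro x y hxy
  apply hg
  rw [hg2]
  exact hxy

omit [Algebra R F] [IsScalarTower R L F] in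
/-- The values of a polynomial. -/
theorem crd_mem {h : A →+* F} {S : Subring F} (hR : ∀ r : R, h (algebraMap R A r) ∈ S)
    (hz : ∀ i, h (crd R A n i) ∈ S) (p : MvPolynomial (Fin n) R) :
    h (algebraMap (MvPolynomial (Fin n) R) A p) ∈ S := by
  induction p using MvPolynomial.induction_on with
  | C r =>
    have h1 : (MvPolynomial.C r : MvPolynomial (Fin n) R) =
      algebraMap R (MvPolynomial (Fin n) R) r := rfl
    rw [h1, ← IsScalarTower.algebraMap_apply]
    exact hR r
  | add p q hp hq =>
    rw [map_add, map_add]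
    exact S.add_mem hp hq
  | mul_X p i hp =>
    rw [map_mul, map_mul]
    exact S.mul_mem hp (hz i)

/-- `F` is generated by the coordinate ring over `L`. -/
theorem chart_gen (j : A →ₐ[R] F) (hj : FracData (F := L) j) (T : IntermediateField L F)
    (hT : ∀ a, j a ∈ T) (x : F) : x ∈ T := by
  have h1 : ∀ w : L ⊗[R] A, jF (F := L) j w ∈ T := by
    intro w
    induction w using TensorProduct.induction_on with
    | zero => rw [map_zero]; exact T.zero_mem
    | add x y hx hy => rw [map_add]; exact T.add_mem hx hy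
    | tmul l a =>
      have h2 : jF (F := L) j (l ⊗ₜ[R] a) = algebraMap L F l * j a := by
        simp [jF, Algebra.ofId_apply]
      rw [h2]
      exact T.mul_mem (T.algebraMap_mem l) (hT a)
  obtain ⟨y, z, hz, hyz⟩ := hj.frac x
  have h2 : x = jF j y / jF j z := by
    rw [eq_div_iff hz, hyz]
  rw [h2]
  exact T.div_mem (h1 y) (h1 z)

/-- `F` is algebraic over the field generated by the coordinates. -/
theorem chart_alg [Algebra.IsStandardEtale (MvPolynomial (Fin n) R) A] (j : A →ₐ[R] F)
    (hj : FracData (F := L) j) (x : F) :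
    IsAlgebraic (IntermediateField.adjoin L (Set.range fun i => j (crd R A n i))) x := by
  set S := IntermediateField.adjoin L (Set.range fun i => j (crd R A n i)) with hS
  have h1 : x ∈ cl S := by
    apply chart_gen (L := L) j hj
    intro a
    rw [mem_cl]
    apply std_algebraic (P := MvPolynomial (Fin n) R) (h := j.toRingHom)
    intro p
    have h2 : j.toRingHom (algebraMap (MvPolynomial (Fin n) R) A p) ∈ S.toSubring := by
      apply crd_mem
      · intro r
        have h3 : j.toRingHom (algebraMap R A r) = algebraMap L F (algebraMap R L r) := by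
          rw [← IsScalarTower.algebraMap_apply]
          exact j.commutes r
        rw [h3]
        exact S.algebraMap_mem _
      · intro i
        exact IntermediateField.subset_adjoin L _ ⟨i, rfl⟩
    exact isAlgebraic_algebraMap (⟨_, h2⟩ : S)
  exact mem_cl.mp h1

end

end KTS
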