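import Pool.Agent.KTS.SR3
import Pool.Agent.KTS.SR4
import Pool.Agent.KTS.SR9

/-!
[KTS-R8] Points of a fibre of an affine chart with values in a big field.
-/

set_option autoImplicit false

namespace KTS

open AlgebraicGeometry CategoryTheory Limits
open Pool.Agent.TORE
open scoped TensorProduct Cardinal

universe u

/-- A morphism from the spectrum of a field factors through the residue field. -/
theorem factor_residue {E : Type u} [Field E] {Z : Scheme.{u}} (m : Spec (CommRingCat.of E) ⟶ Z)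
    (ζ : Z) (hm : m (IsLocalRing.closedPoint E) = ζ) :
    ∃ τ : Z.residueField ζ →+* E,
      Spec.map (CommRingCat.ofHom τ) ≫ Z.fromSpecResidueField ζ = m := by
  subst hm
  refine ⟨(Z.descResidueField (Scheme.stalkClosedPointTo m)).hom, ?_⟩
  rw [CommRingCat.ofHom_hom]
  exact Scheme.descResidueField_stalkClosedPointTo_fromSpecResidueField E Z m

theorem factor_chart_range {O : CommRingCat.{u}} {A : Type u} [CommRing A] {X : Scheme.{u}}
    (c : Spec (CommRingCat.of A) ⟶ X) [IsOpenImmersion c] (t : Spec O ⟶ X)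
    (hr : Set.range t ⊆ Set.range c) :
    ∃ g : A →+* O, t = Spec.map (CommRingCat.ofHom g) ≫ c := by
  let l : Spec O ⟶ Spec (CommRingCat.of A) := IsOpenImmersion.lift c t hr
  refine ⟨(Spec.preimage l).hom, ?_⟩
  rw [CommRingCat.ofHom_hom, Spec.map_preimage]
  exact (IsOpenImmersion.lift_fac c t hr).symm

theorem spec_pt {E : Type u} [Field E] (x y : Spec (CommRingCat.of E)) : x = y := by
  have : Subsingleton (PrimeSpectrum E) := inferInstance
  exact this.elim x y

section

variable {R K A : Type u} [CommRing R] [Field K] [Algebra R K] {X : Scheme.{u}}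
  (f : X ⟶ Spec (CommRingCat.of R)) [CommRing A] [Algebra R A]
  (c : Spec (CommRingCat.of A) ⟶ X)

/-- The residue fields of the fibre are generated by the values of the coordinate ring. -/
theorem residue_gen (hc : c ≫ f = Spec.map (CommRingCat.ofHom (algebraMap R A)))
    (ζ : fib f (algebraMap R K)) (a₀ : K →+* (fib f (algebraMap R K)).residueField ζ)
    (ha₀ : (fib f (algebraMap R K)).fromSpecResidueField ζ ≫ fibHom f (algebraMap R K) =
      Spec.map (CommRingCat.ofHom a₀))
    (ξ₀ : A →+* (fib f (algebraMap R K)).residueField ζ)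
    (hξ₀ : (fib f (algebraMap R K)).fromSpecResidueField ζ ≫ fibProj f (algebraMap R K) =
      Spec.map (CommRingCat.ofHom ξ₀) ≫ c)
    (S : Subfield ((fib f (algebraMap R K)).residueField ζ)) (hS1 : ∀ x, a₀ x ∈ S)
    (hS2 : ∀ a, ξ₀ a ∈ S) (x : (fib f (algebraMap R K)).residueField ζ) : x ∈ S := by
  let Z := fib f (algebraMap R K)
  let κ := Z.residueField ζ
  let a₁ : K →+* S := a₀.codRestrict S.toSubring.toSubsemiring hS1
  let ξ₁ : A →+* S := ξ₀.codRestrict S.toSubring.toSubsemiring hS2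
  have ha : S.subtype.comp a₁ = a₀ := rfl
  have hξ : S.subtype.comp ξ₁ = ξ₀ := rfl
  have hcompat : ξ₀.comp (algebraMap R A) = a₀.comp (algebraMap R K) := by
    have h1 : Spec.map (CommRingCat.ofHom (ξ₀.comp (algebraMap R A))) =
        Spec.map (CommRingCat.ofHom (a₀.comp (algebraMap R K))) := by
      rw [CommRingCat.ofHom_comp, CommRingCat.ofHom_comp, Spec.map_comp, Spec.map_comp, ← hc,
        ← ha₀, ← Category.assoc, ← hξ₀, Category.assoc, Category.assoc]
      congr 1
      exact pullback.condition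
    have h2 := Spec.map_injective h1
    exact congrArg (fun g => g.hom) h2
  have hcompat1 : ξ₁.comp (algebraMap R A) = a₁.comp (algebraMap R K) := by
    ext r
    exact RingHom.congr_fun hcompat r
  let m : Spec (CommRingCat.of S) ⟶ Z :=
    pullback.lift (Spec.map (CommRingCat.ofHom ξ₁) ≫ c) (Spec.map (CommRingCat.ofHom a₁)) (by
      rw [Category.assoc, hc, ← Spec.map_comp, ← Spec.map_comp, ← CommRingCat.ofHom_comp,
        ← CommRingCat.ofHom_comp, hcompat1])
  have hm : Spec.map (CommRingCat.ofHom S.subtype) ≫ m = Z.fromSpecResidueField ζ := by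
    apply pullback.hom_ext
    · rw [Category.assoc, pullback.lift_fst, ← Category.assoc, ← Spec.map_comp,
        ← CommRingCat.ofHom_comp, hξ]
      exact hξ₀.symm
    · rw [Category.assoc, pullback.lift_snd, ← Spec.map_comp, ← CommRingCat.ofHom_comp, ha]
      exact ha₀.symm
  have hmpt : m (IsLocalRing.closedPoint S) = ζ := by
    have h1 : (Spec.map (CommRingCat.ofHom S.subtype)) (IsLocalRing.closedPoint κ) =
        IsLocalRing.closedPoint S := spec_pt (E := S) _ _
    rw [← h1, ← Scheme.Hom.comp_apply]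
    exact (congrArg (fun g => g (IsLocalRing.closedPoint κ)) hm).trans
      (Scheme.fromSpecResidueField_apply (X := Z) ζ _)
  obtain ⟨τ, hτ⟩ := factor_residue m ζ hmpt
  have h1 : Spec.map (CommRingCat.ofHom S.subtype) ≫ Spec.map (CommRingCat.ofHom τ) =
      𝟙 (Spec (Z.residueField ζ)) := by
    rw [← cancel_mono (Z.fromSpecResidueField ζ), Category.assoc, hτ]
    exact hm.trans (Category.id_comp _).symm
  rw [← Spec.map_comp, ← Spec.map_id] at h1
  have h2 := Spec.map_injective h1
  have h3 : S.subtype (τ x) = x := congrArg (fun g => g.hom x) h2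
  rw [← h3]
  exact (τ x).2

/-- `ζ` is the point of the fibre given by `ξ`. -/
def SpAt {Ω : Type u} [Field Ω] [Algebra K Ω] (ξ : A →+* Ω) (ζ : fib f (algebraMap R K)) : Prop :=
  ∃ m : Spec (CommRingCat.of Ω) ⟶ fib f (algebraMap R K),
    m ≫ fibProj f (algebraMap R K) = Spec.map (CommRingCat.ofHom ξ) ≫ c ∧
    m ≫ fibHom f (algebraMap R K) = Spec.map (CommRingCat.ofHom (algebraMap K Ω)) ∧
    m (IsLocalRing.closedPoint Ω) = ζ

variable {Ω : Type u} [Field Ω] [Algebra K Ω]

omit [Algebra R A] in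
theorem SpAt.unique {ξ : A →+* Ω} {ζ ζ' : fib f (algebraMap R K)} (h : SpAt f c ξ ζ)
    (h' : SpAt f c ξ ζ') : ζ = ζ' := by
  obtain ⟨m, h1, h2, h3⟩ := h
  obtain ⟨m', h1', h2', h3'⟩ := h'
  have hm : m = m' := pullback.hom_ext (h1.trans h1'.symm) (h2.trans h2'.symm)
  rw [← h3, ← h3', hm]

theorem SpAt.exists (hc : c ≫ f = Spec.map (CommRingCat.ofHom (algebraMap R A))) {ξ : A →+* Ω}
    (hξ : ξ.comp (algebraMap R A) = (algebraMap K Ω).comp (algebraMap R K)) :
    ∃ ζ, SpAt (K := K) f c ξ ζ := by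
  refine ⟨_, pullback.lift (Spec.map (CommRingCat.ofHom ξ) ≫ c)
    (Spec.map (CommRingCat.ofHom (algebraMap K Ω))) (by
      rw [Category.assoc, hc, ← Spec.map_comp, ← Spec.map_comp, ← CommRingCat.ofHom_comp,
        ← CommRingCat.ofHom_comp, hξ]), ?_, ?_, rfl⟩
  · exact pullback.lift_fst _ _ _
  · exact pullback.lift_snd _ _ _

omit [Algebra R A] in
theorem SpAt.proj {ξ : A →+* Ω} {ζ : fib f (algebraMap R K)} (h : SpAt f c ξ ζ) :
    fibProj f (algebraMap R K) ζ =
      (Spec.map (CommRingCat.ofHom ξ) ≫ c) (IsLocalRing.closedPoint Ω) := by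
  obtain ⟨m, h1, h2, rfl⟩ := h
  rw [← h1, Scheme.Hom.comp_apply]

omit [Algebra R A] in
theorem SpAt.aut {ξ : A →+* Ω} {ζ : fib f (algebraMap R K)} (h : SpAt f c ξ ζ) (σ : Ω →ₐ[K] Ω) :
    SpAt f c ((σ : Ω →+* Ω).comp ξ) ζ := by
  obtain ⟨m, h1, h2, rfl⟩ := h
  refine ⟨Spec.map (CommRingCat.ofHom (σ : Ω →+* Ω)) ≫ m, ?_, ?_, ?_⟩
  · rw [Category.assoc, h1, ← Category.assoc, ← Spec.map_comp, ← CommRingCat.ofHom_comp]
  · rw [Category.assoc, h2, ← Spec.map_comp, ← CommRingCat.ofHom_comp]
    have h3 : (σ : Ω →+* Ω).comp (algebraMap K Ω) = algebraMap K Ω := by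
      ext x
      exact σ.commutes x
    rw [h3]
  · rw [Scheme.Hom.comp_apply]
    congr 1
    exact spec_pt _ _

omit [Algebra R A] in
/-- The data of the residue field at a point in the chart. -/
theorem residue_data [IsOpenImmersion c] (ζ : fib f (algebraMap R K))
    (hζ : fibProj f (algebraMap R K) ζ ∈ Set.range c) :
    ∃ (a₀ : K →+* (fib f (algebraMap R K)).residueField ζ)
      (ξ₀ : A →+* (fib f (algebraMap R K)).residueField ζ),
      (fib f (algebraMap R K)).fromSpecResidueField ζ ≫ fibHom f (algebraMap R K) =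
        Spec.map (CommRingCat.ofHom a₀) ∧
      (fib f (algebraMap R K)).fromSpecResidueField ζ ≫ fibProj f (algebraMap R K) =
        Spec.map (CommRingCat.ofHom ξ₀) ≫ c := by
  let Z := fib f (algebraMap R K)
  obtain ⟨ξ₀, hξ₀⟩ := factor_chart_range c
    (Z.fromSpecResidueField ζ ≫ fibProj f (algebraMap R K)) (by
      rintro _ ⟨y, rfl⟩
      have h1 := Scheme.fromSpecResidueField_apply (X := Z) ζ y
      rw [Scheme.Hom.comp_apply]
      rw [← h1] at hζ
      exact hζ)
  refine ⟨(Spec.preimage (Z.fromSpecResidueField ζ ≫ fibHom f (algebraMap R K))).hom, ξ₀, ?_, hξ₀⟩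
  rw [CommRingCat.ofHom_hom, Spec.map_preimage]

/-- Every point of the fibre in the chart is given by a homomorphism to the big field. -/
theorem exists_sp [IsAlgClosed Ω] (hΩ : ℵ₀ ≤ Algebra.trdeg K Ω) [Algebra.FiniteType R A]
    [IsOpenImmersion c] (hc : c ≫ f = Spec.map (CommRingCat.ofHom (algebraMap R A)))
    (ζ : fib f (algebraMap R K)) (hζ : fibProj f (algebraMap R K) ζ ∈ Set.range c) :
    ∃ ξ : A →+* Ω, SpAt f c ξ ζ := by
  let Z := fib f (algebraMap R K)
  obtain ⟨a₀, ξ₀, ha₀, hξ₀⟩ := residue_data f c ζ hζ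
  let κ := Z.residueField ζ
  let _ : Algebra K κ := a₀.toAlgebra
  obtain ⟨s, hs⟩ := (inferInstance : Algebra.FiniteType R A).out
  let T : IntermediateField K κ := IntermediateField.adjoin K (ξ₀ '' (s : Set A))
  have hcompat : ξ₀.comp (algebraMap R A) = a₀.comp (algebraMap R K) := by
    have h1 : Spec.map (CommRingCat.ofHom (ξ₀.comp (algebraMap R A))) =
        Spec.map (CommRingCat.ofHom (a₀.comp (algebraMap R K))) := by
      rw [CommRingCat.ofHom_comp, CommRingCat.ofHom_comp, Spec.map_comp, Spec.map_comp, ← hc,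
        ← ha₀, ← Category.assoc, ← hξ₀, Category.assoc, Category.assoc]
      congr 1
      exact pullback.condition
    have h2 := Spec.map_injective h1
    exact congrArg (fun g => g.hom) h2
  have hT : ∀ a, ξ₀ a ∈ T := by
    let B : Subalgebra R A := {
      carrier := {a | ξ₀ a ∈ T}
      mul_mem' := by
        intro a b ha hb
        rw [Set.mem_ofPred_eq, map_mul]
        exact T.mul_mem ha hb
      add_mem' := by
        intro a b ha hb
        rw [Set.mem_ofPred_eq, map_add]
        exact T.add_mem ha hb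
      algebraMap_mem' := by
        intro r
        have h1 : ξ₀ (algebraMap R A r) = algebraMap K κ (algebraMap R K r) :=
          RingHom.congr_fun hcompat r
        rw [Set.mem_ofPred_eq, h1]
        exact T.algebraMap_mem _ }
    have h1 : Algebra.adjoin R (s : Set A) ≤ B := by
      rw [Algebra.adjoin_le_iff]
      intro a ha
      exact IntermediateField.subset_adjoin K _ ⟨a, ha, rfl⟩
    intro a
    have h2 : a ∈ Algebra.adjoin R (s : Set A) := by
      rw [hs]
      trivial
    exact h1 h2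
  have htop : T = ⊤ := by
    rw [eq_top_iff]
    intro x _
    exact residue_gen f c hc ζ a₀ ha₀ ξ₀ hξ₀ T.toSubfield (fun x => T.algebraMap_mem x) hT x
  have hfin : Algebra.trdeg K κ < ℵ₀ := by
    have h1 : Algebra.trdeg K T < ℵ₀ :=
      td_adjoin_lt (Cardinal.lt_aleph0_iff_finite.2 ((s.finite_toSet.image ξ₀).to_subtype))
    rw [htop] at h1
    rwa [(IntermediateField.topEquiv (F := K) (E := κ)).trdeg_eq] at h1
  obtain ⟨B, hB⟩ := exists_isTranscendenceBasis K κ
  obtain ⟨C, hC⟩ := exists_isTranscendenceBasis K Ω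
  have h1 : #B ≤ #C := by
    rw [hB.cardinalMk_eq_trdeg, hC.cardinalMk_eq_trdeg]
    exact hfin.le.trans hΩ
  obtain ⟨g⟩ := h1
  have h2 : AlgebraicIndependent K (fun b : B => ((g b : C) : Ω)) := hC.1.comp g g.injective
  obtain ⟨τ, -⟩ := emb_of_algInd hB h2
  refine ⟨(τ : κ →+* Ω).comp ξ₀, Spec.map (CommRingCat.ofHom (τ : κ →+* Ω)) ≫
    Z.fromSpecResidueField ζ, ?_, ?_, ?_⟩
  · rw [Category.assoc, hξ₀, ← Category.assoc, CommRingCat.ofHom_comp, Spec.map_comp]
  · rw [Category.assoc, ha₀, ← Spec.map_comp, ← CommRingCat.ofHom_comp]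
    have h3 : (τ : κ →+* Ω).comp a₀ = algebraMap K Ω := by
      ext x
      exact τ.commutes x
    rw [h3]
  · rw [Scheme.Hom.comp_apply]
    exact Scheme.fromSpecResidueField_apply (X := Z) ζ _

/-- The residue field at the point given by `ξ`. -/
theorem SpAt.residue [IsOpenImmersion c]
    (hc : c ≫ f = Spec.map (CommRingCat.ofHom (algebraMap R A))) {ξ : A →+* Ω}
    {ζ : fib f (algebraMap R K)} (h : SpAt f c ξ ζ) :
    ∃ e : (IntermediateField.adjoin K (Set.range ξ)) ≃+* (fib f (algebraMap R K)).residueField ζ,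
      (fib f (algebraMap R K)).fromSpecResidueField ζ ≫ fibHom f (algebraMap R K) =
        Spec.map (CommRingCat.ofHom (e.toRingHom.comp
          (algebraMap K (IntermediateField.adjoin K (Set.range ξ))))) := by
  let Z := fib f (algebraMap R K)
  have hζ : fibProj f (algebraMap R K) ζ ∈ Set.range c := by
    rw [h.proj, Scheme.Hom.comp_apply]
    exact ⟨_, rfl⟩
  obtain ⟨m, h1, h2, h3⟩ := h
  obtain ⟨a₀, ξ₀, ha₀, hξ₀⟩ := residue_data f c ζ hζ
  obtain ⟨τ, hτ⟩ := factor_residue m ζ h3
  have hτξ : τ.comp ξ₀ = ξ := by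
    have h4 : Spec.map (CommRingCat.ofHom (τ.comp ξ₀)) ≫ c =
        Spec.map (CommRingCat.ofHom ξ) ≫ c := by
      rw [← h1, ← hτ, Category.assoc, hξ₀, CommRingCat.ofHom_comp, Spec.map_comp, Category.assoc]
    rw [cancel_mono] at h4
    have h5 := Spec.map_injective h4
    exact congrArg (fun g => g.hom) h5
  have hτa : τ.comp a₀ = algebraMap K Ω := by
    have h4 : Spec.map (CommRingCat.ofHom (τ.comp a₀)) =
        Spec.map (CommRingCat.ofHom (algebraMap K Ω)) := by
      rw [← h2, ← hτ, Category.assoc, ha₀, CommRingCat.ofHom_comp, Spec.map_comp]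
    have h5 := Spec.map_injective h4
    exact congrArg (fun g => g.hom) h5
  let E := IntermediateField.adjoin K (Set.range ξ)
  let κ := Z.residueField ζ
  have hmem : ∀ x : κ, τ x ∈ E := by
    intro x
    have h4 := residue_gen f c hc ζ a₀ ha₀ ξ₀ hξ₀ (E.toSubfield.comap τ) (by
      intro y
      rw [Subfield.mem_comap]
      have h5 : τ (a₀ y) = algebraMap K Ω y := RingHom.congr_fun hτa y
      rw [h5]
      exact E.algebraMap_mem y) (by
      intro a
      rw [Subfield.mem_comap]
      have h5 : τ (ξ₀ a) = ξ a := RingHom.congr_fun hτξ a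
      rw [h5]
      exact IntermediateField.subset_adjoin K _ ⟨a, rfl⟩) x
    exact h4
  let τ' : κ →+* E := τ.codRestrict E.toSubfield.toSubring.toSubsemiring hmem
  have hsurj : Function.Surjective τ' := by
    have hle : E ≤ ({
        carrier := Set.range τ
        mul_mem' := by
          rintro _ _ ⟨x, rfl⟩ ⟨y, rfl⟩
          exact ⟨x * y, map_mul _ _ _⟩
        add_mem' := by
          rintro _ _ ⟨x, rfl⟩ ⟨y, rfl⟩
          exact ⟨x + y, map_add _ _ _⟩
        algebraMap_mem' := fun x => ⟨a₀ x, RingHom.congr_fun hτa x⟩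
        inv_mem' := by
          rintro _ ⟨x, rfl⟩
          exact ⟨x⁻¹, map_inv₀ _ _⟩ } : IntermediateField K Ω) := by
      rw [IntermediateField.adjoin_le_iff]
      rintro _ ⟨a, rfl⟩
      exact ⟨ξ₀ a, RingHom.congr_fun hτξ a⟩
    rintro ⟨y, hy⟩
    obtain ⟨x, hx⟩ := hle hy
    exact ⟨x, Subtype.ext hx⟩
  let e' : κ ≃+* E := RingEquiv.ofBijective τ' ⟨τ'.injective, hsurj⟩
  refine ⟨e'.symm, ?_⟩
  rw [ha₀]
  have h4 : a₀ = e'.symm.toRingHom.comp (algebraMap K E) := by
    ext x
    apply e'.injective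
    change τ' (a₀ x) = e' (e'.symm (algebraMap K E x))
    rw [RingEquiv.apply_symm_apply]
    apply Subtype.ext
    exact RingHom.congr_fun hτa x
  exact congrArg (fun g => Spec.map (CommRingCat.ofHom g)) h4

end

end KTS
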