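import Pool.Agent.KTS.IN
import Pool.Agent.KTS.Need

/-!
[KTS] Tree lemma, abstract form (owner helper86).
-/

set_option autoImplicit false

namespace KTS

noncomputable section

universe u v w

open Cardinal

section TR

variable {k Ω : Type u} [Field k] [IsAlgClosed k] [CharZero k] [Field Ω] [IsAlgClosed Ω]
  [CharZero Ω] [Algebra k Ω]

/-- A class of vectors of values parametrised by the coordinate `a`; the range of the `ℚ`-part is
`(lo, hi]` (with `hi = ⊤` allowed). -/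
structure Line {α : Type v} (HA : Set (α → Ω × ℚ)) (a : α) (lo : ℚ) (hi : WithTop ℚ)
    (m κ : α → ℚ) : Prop where
  lt : (lo : WithTop ℚ) < hi
  ne : ∀ z ∈ HA, (z a).1 ≠ 0
  lo_lt : ∀ z ∈ HA, lo < (z a).2
  le_hi : ∀ z ∈ HA, ((z a).2 : WithTop ℚ) ≤ hi
  va : ∀ z ∈ HA, ∀ c, (z c).2 = κ c + m c * (z a).2
  inj : ∀ z ∈ HA, ∀ z' ∈ HA, z a = z' a → z = z'
  ac : ∀ z ∈ HA, ∀ z' ∈ HA, (z a).1 = (z' a).1 → ((z a).2 : WithTop ℚ) < hi →
    ((z' a).2 : WithTop ℚ) < hi → ∀ c, (z c).1 = (z' c).1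
  ex : ∀ (u : Ω) (γ : ℚ), u ≠ 0 → lo < γ → (γ : WithTop ℚ) < hi → ∃ z ∈ HA, z a = (u, γ)
  ex_hi : ∃ Bad : Finset Ω, ∀ (u : Ω) (γ : ℚ), u ≠ 0 → u ∉ Bad → (γ : WithTop ℚ) = hi →
    ∃ z ∈ HA, z a = (u, γ)

/-- The set `H` of values of one level, decomposed in finitely many classes (clusters). -/
structure TreeH {ι₀ : Type u} {α : Type u} {C : Type v} (e : ι₀ → Ω) (H : Set (α → Ω × ℚ))
    (cls : (α → Ω × ℚ) → C) : Prop where
  fin : (cls '' H).Finite
  st : ∀ σ ∈ fixT (⊤ : Subgroup (Ω ≃ₐ[k] Ω)) e, ∀ z ∈ H, sz σ z ∈ H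
  inv : ∀ σ ∈ fixT (⊤ : Subgroup (Ω ≃ₐ[k] Ω)) e, ∀ z ∈ H, ∀ z' ∈ H, cls z = cls z' →
    cls (sz σ z) = cls (sz σ z')
  line : ∀ z₀ ∈ H, ∃ a lo hi m κ, Line {z | z ∈ H ∧ cls z = cls z₀} a lo hi m κ

variable {ι₀ : Type u} [Finite ι₀] {α : Type u} [Fintype α] {C : Type v} {e : ι₀ → Ω}
  {H : Set (α → Ω × ℚ)} {cls : (α → Ω × ℚ) → C}

/-! ### semilinearity of one class -/

theorem Line.sl {HA : Set (α → Ω × ℚ)} {a : α} {lo : ℚ} {hi : WithTop ℚ} {m κ : α → ℚ}
    (h : Line HA a lo hi m κ) (w : α → Ω) : SL {g : α → ℚ | zip w g ∈ HA} := by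
  classical
  have hline : ∀ g : α → ℚ, zip w g ∈ HA → ∀ c, g c = κ c + m c * g a := fun g hg c =>
    h.va _ hg c
  have h1 : SL {g : α → ℚ | zip w g ∈ HA ∧ ((g a : ℚ) : WithTop ℚ) < hi} := by
    by_cases hne : ∃ g₁ : α → ℚ, zip w g₁ ∈ HA ∧ ((g₁ a : ℚ) : WithTop ℚ) < hi
    · obtain ⟨g₁, hg₁, hg₁'⟩ := hne
      have key : {g : α → ℚ | zip w g ∈ HA ∧ ((g a : ℚ) : WithTop ℚ) < hi} =
          {g : α → ℚ | (lo < g a ∧ ((g a : ℚ) : WithTop ℚ) < hi) ∧
            ∀ c, g c = κ c + m c * g a} := by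
        ext g
        constructor
        · rintro ⟨hg, hg'⟩
          exact ⟨⟨h.lo_lt _ hg, hg'⟩, hline g hg⟩
        · rintro ⟨⟨hg, hg'⟩, hg''⟩
          obtain ⟨z, hz, hza⟩ := h.ex (w a) (g a) (h.ne _ hg₁) hg hg'
          have hz1 : ∀ c, (z c).1 = w c := by
            intro c
            refine (h.ac z hz _ hg₁ ?_ ?_ hg₁' c)
            · rw [hza]; rfl
            · rw [hza]; exact hg'
          have hz2 : ∀ c, (z c).2 = g c := by
            intro c
            rw [h.va z hz c, hza, hg'' c]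
          have : z = zip w g := by
            funext c
            exact Prod.ext (hz1 c) (hz2 c)
          exact ⟨this ▸ hz, hg'⟩
      rw [key]
      refine SL.and (SL.and (SL.lt (Aff.const _) (Aff.coord a)) ?_)
        (SL.all fun c => SL.eq (Aff.coord c) ((Aff.const _).add ((Aff.coord a).mul_left _)))
      induction hi using WithTop.recTopCoe with
      | top =>
        have : {x : α → ℚ | ((x a : ℚ) : WithTop ℚ) < ⊤} = Set.univ := by
          ext x; simp [WithTop.coe_lt_top]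
        rw [this]; exact SL.univ
      | coe b =>
        have : {x : α → ℚ | ((x a : ℚ) : WithTop ℚ) < (b : WithTop ℚ)} = {x | x a < b} := by
          ext x; exact WithTop.coe_lt_coe
        rw [this]; exact SL.lt (Aff.coord a) (Aff.const _)
    · have : {g : α → ℚ | zip w g ∈ HA ∧ ((g a : ℚ) : WithTop ℚ) < hi} = ∅ := by
        ext g
        simp only [Set.mem_ofPred_eq, Set.mem_empty_iff_false, iff_false]
        exact fun hg => hne ⟨g, hg⟩
      rw [this]; exact SL.empty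
  have h2 : SL {g : α → ℚ | zip w g ∈ HA ∧ ¬ ((g a : ℚ) : WithTop ℚ) < hi} := by
    by_cases hne : ∃ g₁ : α → ℚ, zip w g₁ ∈ HA ∧ ¬ ((g₁ a : ℚ) : WithTop ℚ) < hi
    · obtain ⟨g₁, hg₁, hg₁'⟩ := hne
      have key : {g : α → ℚ | zip w g ∈ HA ∧ ¬ ((g a : ℚ) : WithTop ℚ) < hi} = {g₁} := by
        ext g
        constructor
        · rintro ⟨hg, hg'⟩
          have e1 : ((g a : ℚ) : WithTop ℚ) = hi :=
            le_antisymm (h.le_hi _ hg) (not_lt.1 hg')
          have e2 : ((g₁ a : ℚ) : WithTop ℚ) = hi :=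
            le_antisymm (h.le_hi _ hg₁) (not_lt.1 hg₁')
          have e3 : g a = g₁ a := by exact_mod_cast e1.trans e2.symm
          refine Set.mem_singleton_iff.2 (funext fun c => ?_)
          rw [hline g hg c, hline g₁ hg₁ c, e3]
        · rintro rfl
          exact ⟨hg₁, hg₁'⟩
      rw [key]; exact SL.singleton _
    · have : {g : α → ℚ | zip w g ∈ HA ∧ ¬ ((g a : ℚ) : WithTop ℚ) < hi} = ∅ := by
        ext g
        simp only [Set.mem_ofPred_eq, Set.mem_empty_iff_false, iff_false]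
        exact fun hg => hne ⟨g, hg⟩
      rw [this]; exact SL.empty
  have : {g : α → ℚ | zip w g ∈ HA} =
      {g : α → ℚ | zip w g ∈ HA ∧ ((g a : ℚ) : WithTop ℚ) < hi} ∪
      {g : α → ℚ | zip w g ∈ HA ∧ ¬ ((g a : ℚ) : WithTop ℚ) < hi} := by
    ext g
    simp only [Set.mem_ofPred_eq, Set.mem_union]
    tauto
  rw [this]
  exact h1.union h2

theorem exists_mid {lo : ℚ} {hi : WithTop ℚ} (h : (lo : WithTop ℚ) < hi) :
    ∃ γ : ℚ, lo < γ ∧ (γ : WithTop ℚ) < hi := by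
  induction hi using WithTop.recTopCoe with
  | top => exact ⟨lo + 1, by linarith, WithTop.coe_lt_top _⟩
  | coe b =>
    have hb : lo < b := by exact_mod_cast h
    exact ⟨(lo + b) / 2, by linarith, by
      have : (lo + b) / 2 < b := by linarith
      exact_mod_cast this⟩

/-! ### special elements -/

theorem TreeH.exists_sp (h : TreeH (k := k) e H cls) :
    ∃ sp : (α → Ω × ℚ) → (α → Ω × ℚ),
      (∀ z ∈ H, sp z ∈ H ∧ cls (sp z) = cls z) ∧
      (∀ σ ∈ fixT (⊤ : Subgroup (Ω ≃ₐ[k] Ω)) e, ∀ z ∈ H, sp (sz σ z) = sz σ (sp z)) ∧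
      (∀ z ∈ H, ∀ z' ∈ H, cls z = cls z' → sp z = sp z') := by
  classical
  set G := fixT (⊤ : Subgroup (Ω ≃ₐ[k] Ω)) e with hG
  -- equivalence relation
  let S : Setoid {z // z ∈ H} := {
    r := fun z z' => ∃ σ ∈ G, cls (sz σ z.1) = cls z'.1
    iseqv := {
      refl := fun z => ⟨1, G.one_mem, by rw [sz_one]⟩
      symm := by
        rintro z z' ⟨σ, hσ, hc⟩
        refine ⟨σ⁻¹, G.inv_mem hσ, ?_⟩
        have := h.inv σ⁻¹ (G.inv_mem hσ) _ (h.st σ hσ _ z.2) _ z'.2 hc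
        rw [← sz_mul, inv_mul_cancel, sz_one] at this
        exact this.symm
      trans := by
        rintro z z' z'' ⟨σ, hσ, hc⟩ ⟨τ, hτ, hc'⟩
        refine ⟨τ * σ, G.mul_mem hτ hσ, ?_⟩
        rw [sz_mul, h.inv τ hτ _ (h.st σ hσ _ z.2) _ z'.2 hc, hc'] } }
  let rep : {z // z ∈ H} → {z // z ∈ H} := fun z => (Quotient.mk S z).out
  have hrep : ∀ z : {z // z ∈ H}, ∃ σ ∈ G, cls (sz σ (rep z).1) = cls z.1 := fun z =>
    Quotient.exact (Quotient.out_eq (Quotient.mk S z))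
  have hrep' : ∀ z z' : {z // z ∈ H}, (∃ σ ∈ G, cls (sz σ z.1) = cls z'.1) → rep z = rep z' := by
    intro z z' hz
    have : Quotient.mk S z = Quotient.mk S z' := Quotient.sound hz
    simp only [rep, this]
  choose ca lo hi m κ hL using h.line
  have hmid : ∀ z (hz : z ∈ H), ∃ γ : ℚ, lo z hz < γ ∧ (γ : WithTop ℚ) < hi z hz := fun z hz =>
    exists_mid (hL z hz).lt
  choose γ hγ hγ' using hmid
  -- the coordinate and the value attached to `z`
  let A : {z // z ∈ H} → α := fun z => ca (rep z).1 (rep z).2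
  let Γ : {z // z ∈ H} → ℚ := fun z => γ (rep z).1 (rep z).2
  have hex : ∀ z : {z // z ∈ H}, ∃ z₀ ∈ H, cls z₀ = cls z.1 ∧ z₀ (A z) = (1, Γ z) := by
    intro z
    obtain ⟨σ, hσ, hc⟩ := hrep z
    obtain ⟨z₁, hz₁, hz₁'⟩ := (hL (rep z).1 (rep z).2).ex 1 (Γ z) one_ne_zero
      (hγ (rep z).1 (rep z).2) (hγ' (rep z).1 (rep z).2)
    refine ⟨sz σ z₁, h.st σ hσ _ hz₁.1, ?_, ?_⟩
    · rw [h.inv σ hσ _ hz₁.1 _ (rep z).2 hz₁.2, hc]
    · change (σ (z₁ (A z)).1, (z₁ (A z)).2) = (1, Γ z)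
      rw [show z₁ (A z) = (1, Γ z) from hz₁', map_one]
  have huniq : ∀ z : {z // z ∈ H}, ∀ z₀ ∈ H, ∀ z₁ ∈ H, cls z₀ = cls z.1 → cls z₁ = cls z.1 →
      z₀ (A z) = (1, Γ z) → z₁ (A z) = (1, Γ z) → z₀ = z₁ := by
    intro z z₀ hz₀ z₁ hz₁ hc₀ hc₁ ha₀ ha₁
    obtain ⟨σ, hσ, hc⟩ := hrep z
    have hσ' := G.inv_mem hσ
    have key : ∀ y ∈ H, cls y = cls z.1 → cls (sz σ⁻¹ y) = cls (rep z).1 := by
      intro y hy hcy
      have := h.inv σ⁻¹ hσ' y hy _ (h.st σ hσ _ (rep z).2) (hcy.trans hc.symm)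
      rw [← sz_mul, inv_mul_cancel, sz_one] at this
      exact this
    have key2 : ∀ y : α → Ω × ℚ, y (A z) = (1, Γ z) → (sz σ⁻¹ y) (A z) = (1, Γ z) := by
      intro y hy
      change (σ⁻¹ (y (A z)).1, (y (A z)).2) = (1, Γ z)
      rw [hy, map_one]
    have h1 := (hL (rep z).1 (rep z).2).inj (sz σ⁻¹ z₀) ⟨h.st _ hσ' _ hz₀, key z₀ hz₀ hc₀⟩
      (sz σ⁻¹ z₁) ⟨h.st _ hσ' _ hz₁, key z₁ hz₁ hc₁⟩
      ((key2 z₀ ha₀).trans (key2 z₁ ha₁).symm)
    have h2 := congrArg (sz σ) h1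
    rwa [← sz_mul, ← sz_mul, mul_inv_cancel, sz_one, sz_one] at h2
  choose s hs hsc hsa using hex
  refine ⟨fun z => if hz : z ∈ H then s ⟨z, hz⟩ else z, ?_, ?_, ?_⟩
  · intro z hz
    simp only [dif_pos hz]
    exact ⟨hs _, hsc _⟩
  · intro σ hσ z hz
    have hz' := h.st σ hσ z hz
    simp only [dif_pos hz, dif_pos hz']
    have hr : rep ⟨sz σ z, hz'⟩ = rep ⟨z, hz⟩ := by
      refine hrep' _ _ ⟨σ⁻¹, G.inv_mem hσ, ?_⟩
      simp only
      rw [← sz_mul, inv_mul_cancel, sz_one]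
    have hA : A ⟨sz σ z, hz'⟩ = A ⟨z, hz⟩ := by simp only [A, hr]
    have hΓ : Γ ⟨sz σ z, hz'⟩ = Γ ⟨z, hz⟩ := by simp only [Γ, hr]
    refine huniq ⟨sz σ z, hz'⟩ _ (hs _) _ (h.st σ hσ _ (hs _)) (hsc _) ?_ (hsa _) ?_
    · exact h.inv σ hσ _ (hs _) _ hz (hsc ⟨z, hz⟩)
    · rw [hA, hΓ]
      change (σ (s ⟨z, hz⟩ (A ⟨z, hz⟩)).1, (s ⟨z, hz⟩ (A ⟨z, hz⟩)).2) = _
      rw [hsa, map_one]
  · intro z hz z' hz' hc
    simp only [dif_pos hz, dif_pos hz']
    have hr : rep ⟨z, hz⟩ = rep ⟨z', hz'⟩ := by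
      refine hrep' _ _ ⟨1, G.one_mem, ?_⟩
      simp only
      rw [sz_one, hc]
    have hA : A ⟨z, hz⟩ = A ⟨z', hz'⟩ := by simp only [A, hr]
    have hΓ : Γ ⟨z, hz⟩ = Γ ⟨z', hz'⟩ := by simp only [Γ, hr]
    refine huniq ⟨z, hz⟩ _ (hs _) _ (hs _) (hsc _) ((hsc _).trans hc.symm) (hsa _) ?_
    rw [hA, hΓ]
    exact hsa _

/-! ### generated fields -/

/-- One class: the integral vanishes. -/
theorem line_Int (hΩ : ℵ₀ ≤ Algebra.trdeg k Ω) {s : α → Ω × ℚ} {HA : Set (α → Ω × ℚ)}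
    {a : α} {lo : ℚ} {hi : WithTop ℚ} {m κ : α → ℚ} (hL : Line HA a lo hi m κ)
    {G₀ : Subgroup (Ω ≃ₐ[k] Ω)} (hG₀ : G₀ = fixT (⊤ : Subgroup (Ω ≃ₐ[k] Ω)) (Sum.elim e (ac s)))
    (hst : ∀ σ ∈ G₀, ∀ z ∈ HA, sz σ z ∈ HA)
    (hs : ∀ j, IsAlgebraic (kf k e) (ac s j))
    (hsz : ∀ z ∈ HA, ∀ j, ac s j ∈ kf k (Sum.elim e (ac z)))
    {c : IntermediateField k Ω → ℚ} {d : Cardinal.{u}} (hc : Wt d c)
    (hd : Algebra.trdeg k (kf k e) ≠ d) {J : (α → Ω × ℚ) → ℚ}
    (hJ : ∀ z ∈ HA, J z = c (kf k (Sum.elim e (ac z)))) (hJ' : ∀ z, z ∉ HA → J z = 0)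
    (hFT : FT G₀ J) :
    Int G₀ J = 0 := by
  classical
  set e₀ := Sum.elim e (ac s) with he₀
  -- stabiliser facts
  have hfix : ∀ z ∈ HA, ∀ σ ∈ G₀, σ (z a).1 = (z a).1 → sz σ z = z := by
    intro z hz σ hσ h1
    refine hL.inj _ (hst σ hσ z hz) _ hz ?_
    change (σ (z a).1, (z a).2) = z a
    rw [h1]
  have hF : ∀ z ∈ HA, kf k (Sum.elim e (ac z)) = kf k (Sum.elim e₀ (ac z)) := by
    intro z hz
    apply le_antisymm
    · rw [kf_le]
      rintro (i | j)
      · exact mem_kf (Sum.elim e₀ (ac z)) (Sum.inl (Sum.inl i))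
      · exact mem_kf (Sum.elim e₀ (ac z)) (Sum.inr j)
    · rw [kf_le]
      rintro ((i | j) | j)
      · exact mem_kf (Sum.elim e (ac z)) (Sum.inl i)
      · exact hsz z hz j
      · exact mem_kf (Sum.elim e (ac z)) (Sum.inr j)
  have htd : Algebra.trdeg k (kf k e₀) = Algebra.trdeg k (kf k e) := trdeg_kf_alg e (ac s) hs
  -- algebraic coordinate: the weight is zero
  have halg : ∀ z ∈ HA, IsAlgebraic (kf k e₀) (z a).1 → J z = 0 := by
    intro z hz hu
    have hfo := finite_orbit_of_isAlgebraic e₀ (z a).1 hu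
    have hcoord : ∀ j, IsAlgebraic (kf k e₀) (ac z j) := by
      intro j
      refine isAlgebraic_of_finite_orbit hΩ e₀ (ac z j) ?_
      -- the orbit of `z`
      have horb : {y | ∃ σ ∈ G₀, sz σ z = y}.Finite := by
        have hinj : Set.InjOn (fun y : α → Ω × ℚ => (y a).1) {y | ∃ σ ∈ G₀, sz σ z = y} := by
          rintro _ ⟨σ, hσ, rfl⟩ _ ⟨τ, hτ, rfl⟩ hst'
          refine hL.inj _ (hst σ hσ z hz) _ (hst τ hτ z hz) ?_
          exact Prod.ext hst' rfl
        refine Set.Finite.of_finite_image (hfo.subset ?_) hinj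
        rintro _ ⟨_, ⟨σ, hσ, rfl⟩, rfl⟩
        exact ⟨σ, hG₀ ▸ hσ, rfl⟩
      refine (horb.image (fun y => ac y j)).subset ?_
      rintro _ ⟨σ, hσ, rfl⟩
      exact ⟨sz σ z, ⟨σ, hG₀ ▸ hσ, rfl⟩, rfl⟩
    have h1 := trdeg_kf_alg e₀ (ac z) hcoord
    rw [hJ z hz, hF z hz]
    by_contra hne
    exact hd (by rw [← htd, ← h1]; exact hc.dim _ hne)
  -- transcendental coordinate
  have htr : ∀ z ∈ HA, kf k (Sum.elim e₀ (ac z)) =
      kf k (Sum.elim e₀ (fun _ : PUnit.{u + 1} => (z a).1)) := by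
    intro z hz
    apply le_antisymm
    · rw [kf_le]
      rintro (i | j)
      · exact mem_kf (Sum.elim e₀ (fun _ : PUnit.{u + 1} => (z a).1)) (Sum.inl i)
      · refine mem_kf_of_fixed hΩ _ _ ?_
        intro σ hσ
        have h1 : σ ∈ G₀ := by
          rw [hG₀]
          exact ⟨hσ.1, fun i => hσ.2 (Sum.inl i)⟩
        have h2 := hfix z hz σ h1 (hσ.2 (Sum.inr PUnit.unit))
        exact (sz_eq_iff σ z).1 h2 j
    · rw [kf_le]
      rintro (i | j)
      · exact mem_kf (Sum.elim e₀ (ac z)) (Sum.inl i)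
      · exact mem_kf (Sum.elim e₀ (ac z)) (Sum.inr a)
  have hval : ∀ z ∈ HA, J z = c (kf k (Sum.elim e₀ (fun _ : PUnit.{u + 1} => (z a).1))) := by
    intro z hz
    rw [hJ z hz, hF z hz, htr z hz]
  have hcσ : ∀ σ ∈ G₀, ∀ u : Ω, c (kf k (Sum.elim e₀ (fun _ : PUnit.{u + 1} => σ u))) =
      c (kf k (Sum.elim e₀ (fun _ : PUnit.{u + 1} => u))) := by
    intro σ hσ u
    rw [← hc.inv σ (kf k (Sum.elim e₀ (fun _ : PUnit.{u + 1} => u))), ← kf_sz]
    congr 2
    funext i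
    rcases i with i | i
    · rw [hG₀] at hσ
      exact (hσ.2 i).symm
    · rfl
  have hTσ : ∀ σ ∈ G₀, ∀ u : Ω, Transcendental (kf k e₀) u → Transcendental (kf k e₀) (σ u) := by
    intro σ hσ u hu halg
    apply hu
    refine isAlgebraic_of_finite_orbit hΩ e₀ u ?_
    refine (finite_orbit_of_isAlgebraic e₀ (σ u) halg).subset ?_
    rintro _ ⟨τ, hτ, rfl⟩
    have hσ' : σ⁻¹ ∈ fixT (⊤ : Subgroup (Ω ≃ₐ[k] Ω)) e₀ := by
      rw [← hG₀]; exact G₀.inv_mem hσ
    refine ⟨τ * σ⁻¹, (fixT (⊤ : Subgroup (Ω ≃ₐ[k] Ω)) e₀).mul_mem hτ hσ', ?_⟩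
    rw [AlgEquiv.mul_apply, ← AlgEquiv.mul_apply σ⁻¹ σ, inv_mul_cancel, AlgEquiv.one_apply]
  have hHAσ : ∀ σ ∈ G₀, ∀ p : PUnit.{u + 1} → Ω × ℚ, (∃ z ∈ HA, z a = p PUnit.unit) →
      ∃ z ∈ HA, z a = sz σ p PUnit.unit := by
    rintro σ hσ p ⟨z, hz, hzp⟩
    refine ⟨sz σ z, hst σ hσ z hz, ?_⟩
    change (σ (z a).1, (z a).2) = (σ (p PUnit.unit).1, (p PUnit.unit).2)
    rw [hzp]
  rw [Int_coord hFT a]
  by_cases hT : ∃ u : Ω, Transcendental (kf k e₀) u
  swap
  · have : (fun z : PUnit.{u + 1} → Ω × ℚ => Int (fixT G₀ (ac z)) fun z' : α → Ω × ℚ =>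
        if (fun _ => z' a) = z then J z' else 0) = fun _ => 0 := by
      funext p
      have h1 : (fun z' : α → Ω × ℚ => if (fun _ => z' a) = p then J z' else 0) =
          fun _ => 0 := by
        funext z'
        split_ifs with h1
        · by_cases hz : z' ∈ HA
          · refine halg z' hz ?_
            by_contra h2
            exact hT ⟨_, h2⟩
          · exact hJ' z' hz
        · rfl
      rw [h1, Int_zero]
    rw [this, Int_zero]
  obtain ⟨u₀, hu₀⟩ := hT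
  set c₀ := c (kf k (Sum.elim e₀ (fun _ : PUnit.{u + 1} => u₀))) with hc₀
  have hcT : ∀ u : Ω, Transcendental (kf k e₀) u →
      c (kf k (Sum.elim e₀ (fun _ : PUnit.{u + 1} => u))) = c₀ := by
    intro u hu
    obtain ⟨σ, hσ, rfl⟩ := exists_fixT_of_transcendental hΩ e₀ u₀ u hu₀ hu
    exact hcσ σ (hG₀ ▸ hσ) u₀
  have hK : (fun z : PUnit.{u + 1} → Ω × ℚ => Int (fixT G₀ (ac z)) fun z' : α → Ω × ℚ =>
      if (fun _ => z' a) = z then J z' else 0) = fun p =>
      if (∃ z ∈ HA, z a = p PUnit.unit) ∧ Transcendental (kf k e₀) (p PUnit.unit).1 then c₀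
      else 0 := by
    funext p
    by_cases h1 : ∃ z ∈ HA, z a = p PUnit.unit
    · obtain ⟨z, hz, hzp⟩ := h1
      rw [Int_point z]
      · have h2 : (fun _ : PUnit.{u + 1} => z a) = p := by
          funext x; rw [hzp]
        rw [if_pos h2]
        by_cases h3 : Transcendental (kf k e₀) (p PUnit.unit).1
        · rw [if_pos ⟨⟨z, hz, hzp⟩, h3⟩, hval z hz, hzp]
          exact hcT _ h3
        · rw [if_neg (fun h4 => h3 h4.2)]
          refine halg z hz ?_
          rw [hzp]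
          exact not_not.1 h3
      · intro σ hσ
        refine hfix z hz σ hσ.1 ?_
        rw [hzp]
        exact hσ.2 PUnit.unit
      · intro z' hz'
        have h2 : (fun _ : PUnit.{u + 1} => z' a) = p := by
          by_contra h3
          exact hz' (if_neg h3)
        have h3 : z' ∈ HA := by
          by_contra h4
          apply hz'
          rw [if_pos h2, hJ' z' h4]
        refine hL.inj _ h3 _ hz ?_
        rw [hzp, ← h2]
    · rw [if_neg (fun h2 => h1 h2.1)]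
      have h2 : (fun z' : α → Ω × ℚ => if (fun _ => z' a) = p then J z' else 0) =
          fun _ => 0 := by
        funext z'
        split_ifs with h3
        · refine hJ' z' fun h4 => h1 ⟨z', h4, ?_⟩
          rw [← h3]
        · rfl
      rw [h2, Int_zero]
  rw [hK]
  rw [Int_orbit (w := fun _ : PUnit.{u + 1} => u₀)]
  · -- the one-dimensional integral
    have hset : ∀ γ : ℚ, (∃ z ∈ HA, z a = (u₀, γ)) ↔ (lo < γ ∧ (γ : WithTop ℚ) ≤ hi) := by
      intro γ
      constructor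
      · rintro ⟨z, hz, hza⟩
        have h1 := hL.lo_lt z hz
        have h2 := hL.le_hi z hz
        rw [hza] at h1 h2
        exact ⟨h1, h2⟩
      · rintro ⟨h1, h2⟩
        have hu₀0 : u₀ ≠ 0 := by
          rintro rfl
          exact hu₀ isAlgebraic_zero
        rcases lt_or_eq_of_le h2 with h3 | h3
        · exact hL.ex u₀ γ hu₀0 h1 h3
        · obtain ⟨Bad, hBad⟩ := hL.ex_hi
          by_contra hno
          apply hu₀
          refine isAlgebraic_of_finite_orbit hΩ e₀ u₀ ?_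
          refine Bad.finite_toSet.subset ?_
          rintro _ ⟨σ, hσ, rfl⟩
          by_contra hnb
          have hσ₀ : σ ∈ G₀ := hG₀ ▸ hσ
          obtain ⟨z, hz, hza⟩ := hBad (σ u₀) γ (by
            intro h4
            exact hu₀0 ((map_eq_zero σ).1 h4)) (fun h4 => hnb (Finset.mem_coe.2 h4)) h3
          apply hno
          refine ⟨sz σ⁻¹ z, hst _ (G₀.inv_mem hσ₀) z hz, ?_⟩
          change (σ⁻¹ (z a).1, (z a).2) = (u₀, γ)
          rw [hza]
          change (σ⁻¹ (σ u₀), γ) = (u₀, γ)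
          rw [← AlgEquiv.mul_apply, inv_mul_cancel, AlgEquiv.one_apply]
    have hfun : (fun g : PUnit.{u + 1} → ℚ =>
        if (∃ z ∈ HA, z a = zip (fun _ : PUnit.{u + 1} => u₀) g PUnit.unit) ∧
          Transcendental (kf k e₀) (zip (fun _ : PUnit.{u + 1} => u₀) g PUnit.unit).1 then c₀
        else 0) = c₀ • ind {g : PUnit.{u + 1} → ℚ | lo < g PUnit.unit ∧
          ((g PUnit.unit : ℚ) : WithTop ℚ) ≤ hi} := by
      funext g
      have h1 : zip (fun _ : PUnit.{u + 1} => u₀) g PUnit.unit = (u₀, g PUnit.unit) := rfl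
      rw [h1, Pi.smul_apply, smul_eq_mul]
      by_cases h2 : lo < g PUnit.unit ∧ ((g PUnit.unit : ℚ) : WithTop ℚ) ≤ hi
      · rw [if_pos ⟨(hset _).2 h2, hu₀⟩, ind_of (show g ∈ {g : PUnit.{u + 1} → ℚ |
          lo < g PUnit.unit ∧ ((g PUnit.unit : ℚ) : WithTop ℚ) ≤ hi} from h2), mul_one]
      · rw [if_neg (fun h3 => h2 ((hset _).1 h3.1)), ind_not (show g ∉ {g : PUnit.{u + 1} → ℚ |
          lo < g PUnit.unit ∧ ((g PUnit.unit : ℚ) : WithTop ℚ) ≤ hi} from h2), mul_zero]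
    rw [hfun, map_smul]
    have hI : I PUnit.{u + 1} (ind {g : PUnit.{u + 1} → ℚ | lo < g PUnit.unit ∧
          ((g PUnit.unit : ℚ) : WithTop ℚ) ≤ hi}) = 0 := by
      have hlt := hL.lt
      clear hset hfun hK hL
      induction hi using WithTop.recTopCoe with
      | top =>
        have : {g : PUnit.{u + 1} → ℚ | lo < g PUnit.unit ∧
            ((g PUnit.unit : ℚ) : WithTop ℚ) ≤ ⊤} = {g | lo < g PUnit.unit} := by
          ext g
          simp
        rw [this]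
        exact I_Ioi lo
      | coe b =>
        have hb : lo < b := by exact_mod_cast hlt
        have : {g : PUnit.{u + 1} → ℚ | lo < g PUnit.unit ∧
            ((g PUnit.unit : ℚ) : WithTop ℚ) ≤ (b : WithTop ℚ)} =
            {g | lo < g PUnit.unit ∧ g PUnit.unit ≤ b} := by
          ext g
          simp only [Set.mem_ofPred_eq, WithTop.coe_le_coe]
        rw [this]
        exact I_Ioc hb
    rw [hI, smul_zero]
  · intro σ hσ p
    have h1 : ((∃ z ∈ HA, z a = sz σ p PUnit.unit) ∧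
        Transcendental (kf k e₀) (sz σ p PUnit.unit).1) ↔
        ((∃ z ∈ HA, z a = p PUnit.unit) ∧ Transcendental (kf k e₀) (p PUnit.unit).1) := by
      constructor
      · rintro ⟨h2, h3⟩
        have h4 := hHAσ σ⁻¹ (G₀.inv_mem hσ) (sz σ p) h2
        rw [← sz_mul, inv_mul_cancel, sz_one] at h4
        have h5 := hTσ σ⁻¹ (G₀.inv_mem hσ) (sz σ p PUnit.unit).1 h3
        refine ⟨h4, ?_⟩
        have h6 : σ⁻¹ (sz σ p PUnit.unit).1 = (p PUnit.unit).1 := by
          change σ⁻¹ (σ (p PUnit.unit).1) = _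
          rw [← AlgEquiv.mul_apply, inv_mul_cancel, AlgEquiv.one_apply]
        rwa [h6] at h5
      · rintro ⟨h2, h3⟩
        exact ⟨hHAσ σ hσ p h2, hTσ σ hσ _ h3⟩
    simp only [h1]
  · intro p hp
    have h1 : Transcendental (kf k e₀) (p PUnit.unit).1 := by
      by_contra h2
      exact hp (if_neg fun h3 => h2 h3.2)
    obtain ⟨σ, hσ, hσ'⟩ := exists_fixT_of_transcendental hΩ e₀ u₀ _ hu₀ h1
    exact ⟨σ, hG₀ ▸ hσ, fun _ => hσ'⟩

/-- T1.  PROOF (only I1 = `Int_prJ`/`Int_graph`, I3 = `Int_point`, and H7 are used).  Write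
`G' = fixT ⊤ e`, `k' = kf k e`.  `C' = cls '' H` is finite and `G'` permutes it (`inv`, `st`, group).
(1) Special elements.  Call `z, z' ∈ H` equivalent if `cls (sz σ z) = cls z'` for some `σ ∈ G'`;
choose a representative `rep z` for each equivalence class, its line data `a, lo, hi` (`line`) and a
rational `γ` with `lo < γ < hi`; `a z`, `γ z` depend only on the equivalence class.  For `z ∈ H`
there is exactly one `z₀ ∈ H` with `cls z₀ = cls z` and `z₀ (a z) = (1, γ z)`: existence: `ex` for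
the class of `rep z` and transport by `σ` (`σ 1 = 1`); uniqueness: `inj` for the class of `rep z`
and transport by `σ⁻¹`.  Let `sp z := z₀`.  Then `sp (sz σ z) = sz σ (sp z)` for `σ ∈ G'`, and
`cls z = cls z'` implies `sp z = sp z'`, `sp z` takes finitely many values.
(2) `Int_graph` with `f = sp` (on `H`; arbitrary outside, where `J = 0`):
`Int G' J = Int G' (z₀ ↦ Int (fixT G' (ac z₀)) (z ↦ if sp z = z₀ then J z else 0))`.
hcf: for fixed `w`, `{g | zip w g ∈ H, cls = A}` is semilinear (by `va` it lies on the line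
`g c = κ c + m c * g a`; by `ac`, `ex` it contains all or none of the points with `lo < g a < hi`;
at `g a = hi` there is at most one point); the values `z₀` of `sp` are finitely many; so the
function is a finite sum of products of indicator functions.
(3) It is enough that the inner integral is `0` for `z₀` in the image of `sp` (for other `z₀` the
integrand is `0`).  Fix `z₀ = sp z₀ ∈ H`, `A` its class, `HA = {z ∈ H | cls z = cls z₀}`
`= {z ∈ H | sp z = z₀}`, `e₀ = Sum.elim e (ac z₀)`, `G₀ = fixT ⊤ e₀ = fixT G' (ac z₀)`; the elements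
of `G₀` fix `z₀`, hence map `HA` to itself.  The `G'`-orbit of `z₀` is finite (values of `sp`), so
`ac z₀` is algebraic over `k'` (H7b), `trdeg (kf e₀) = trdeg (kf e)`.
(4) `z ∈ HA`, `u = (z a).1`.  If `u` is algebraic over `kf e₀`: the `G₀`-orbit of `z` is finite
(`inj`: `sz σ z` is determined by `σ u`, and the orbit of `u` is finite), so `ac z` is algebraic over
`kf e₀`, hence `trdeg kf (e, ac z) = trdeg kf e ≠ d` and `J z = 0`.
If `u` is transcendental over `kf e₀`: `kf (e, ac z) = kf (e, ac z₀, ac z) = kf (e₀, u)`: [an element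
of `G'` fixing `ac z` fixes `z`, hence its class, hence `z₀`: `ac z₀ ∈ kf (e, ac z)` by H7a; an element
of `G₀` fixing `u` maps `z` to an element of `HA` with the same coordinate `a`, i.e. to `z`: so
`ac z ∈ kf (e₀, u)` by H7a].  For `u, u'` transcendental over `kf e₀` there is `σ ∈ G₀` with
`σ u = u'` (H7c) and `kf (e₀,u') = σ kf (e₀,u)`, so `c` has the same value `c₀` on both.
(5) `Int_coord` for the coordinate `a`: the inner integral of `z ↦ [z ∈ HA][z a = (u,γ)] J z` over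
`fixT G₀ u` is a point mass (`inj`; the point is fixed): it is `c₀` if `u` is transcendental over
`kf e₀` and `(u,γ)` occurs in `HA`, else `0`.  All transcendental `u` are one `G₀`-orbit, and for such
`u` the occurring `γ` are exactly those with `lo < γ`, `γ ≤ hi` (for `γ = hi`: `ex_hi`; if `(u,hi)` did
not occur, then no `(σ u, hi)`, `σ ∈ G₀`, would occur, an infinite set of exceptions).  `Int_orbit`:
the integral is `c₀ * I (ind {lo < γ ≤ hi}) = 0` (`I_Ioc`, resp. `I_Ioi` if `hi = ⊤`). -/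
theorem TreeH.Int_eq_zero (hΩ : ℵ₀ ≤ Algebra.trdeg k Ω) (h : TreeH (k := k) e H cls)
    {c : IntermediateField k Ω → ℚ} {d : Cardinal.{u}} (hc : Wt d c)
    (hd : Algebra.trdeg k (kf k e) ≠ d) {J : (α → Ω × ℚ) → ℚ}
    (hJ : ∀ z ∈ H, J z = c (kf k (Sum.elim e (ac z)))) (hJ' : ∀ z, z ∉ H → J z = 0)
    (hFT : FT (fixT (⊤ : Subgroup (Ω ≃ₐ[k] Ω)) e) J) :
    Int (fixT (⊤ : Subgroup (Ω ≃ₐ[k] Ω)) e) J = 0 := by
  classical
  obtain ⟨sp, hsp, hspσ, hspc⟩ := h.exists_sp
  have hst := h.st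
  have hspfin : (sp '' H).Finite := by
    refine (h.fin.image (fun A => if hA : ∃ z ∈ H, cls z = A then sp hA.choose
      else fun _ => (0, 0))).subset ?_
    rintro _ ⟨z, hz, rfl⟩
    refine ⟨cls z, ⟨z, hz, rfl⟩, ?_⟩
    have hex : ∃ z' ∈ H, cls z' = cls z := ⟨z, hz, rfl⟩
    simp only [dif_pos hex]
    exact hspc _ hex.choose_spec.1 _ hz hex.choose_spec.2
  have hsupp : ∀ z, J z ≠ 0 → z ∈ H := fun z hz => by_contra fun hz' => hz (hJ' z hz')
  have hsH : ∀ s ∈ sp '' H, s ∈ H ∧ sp s = s := by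
    rintro _ ⟨z, hz, rfl⟩
    exact ⟨(hsp z hz).1, hspc _ (hsp z hz).1 _ hz (hsp z hz).2⟩
  have hclass : ∀ s ∈ sp '' H, ∀ z, (z ∈ H ∧ sp z = s) ↔ z ∈ {z | z ∈ H ∧ cls z = cls s} := by
    intro s hs z
    constructor
    · rintro ⟨hz, rfl⟩
      exact ⟨hz, (hsp z hz).2.symm⟩
    · rintro ⟨hz, hc'⟩
      exact ⟨hz, (hspc _ hz _ (hsH s hs).1 hc').trans (hsH s hs).2⟩
  have hinv : ∀ σ ∈ fixT (⊤ : Subgroup (Ω ≃ₐ[k] Ω)) e, ∀ z, J z ≠ 0 →
      sp (sz σ z) = sz σ (sp z) := fun σ hσ z hz => hspσ σ hσ z (hsupp z hz)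
  have hcf : ∀ (w : α → Ω) (w' : α → Ω), CF fun g : α ⊕ α → ℚ =>
      if sp (zip w fun i => g (Sum.inr i)) = zip w' (fun j => g (Sum.inl j)) then
        J (zip w fun i => g (Sum.inr i)) else 0 := by
    intro w w'
    have key : (fun g : α ⊕ α → ℚ =>
        if sp (zip w fun i => g (Sum.inr i)) = zip w' (fun j => g (Sum.inl j)) then
          J (zip w fun i => g (Sum.inr i)) else 0) = fun g => ∑ s ∈ hspfin.toFinset,
        (if s = zip w' (fun j => g (Sum.inl j)) ∧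
          (zip w fun i => g (Sum.inr i)) ∈ {z | z ∈ H ∧ cls z = cls s} then
          J (zip w fun i => g (Sum.inr i)) else 0) := by
      funext g
      by_cases hz : (zip w fun i => g (Sum.inr i)) ∈ H
      · have hm : sp (zip w fun i => g (Sum.inr i)) ∈ sp '' H := ⟨_, hz, rfl⟩
        rw [Finset.sum_eq_single (sp (zip w fun i => g (Sum.inr i)))]
        · have h1 := (hclass _ hm _).1 ⟨hz, rfl⟩
          by_cases h2 : sp (zip w fun i => g (Sum.inr i)) = zip w' (fun j => g (Sum.inl j))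
          · rw [if_pos h2, if_pos ⟨h2, h1⟩]
          · rw [if_neg h2, if_neg fun h3 => h2 h3.1]
        · intro s hs hne
          rw [if_neg]
          rintro ⟨_, h1⟩
          exact hne (((hclass s (hspfin.mem_toFinset.1 hs) _).2 h1).2).symm
        · intro hn
          exact absurd (hspfin.mem_toFinset.2 hm) hn
      · rw [hJ' _ hz]
        simp
    rw [key]
    refine CF.sum _ fun s hs => ?_
    have hs' := hspfin.mem_toFinset.1 hs
    obtain ⟨a, lo, hi, m, κ, hL⟩ := h.line s (hsH s hs').1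
    have hite : SL {x : α ⊕ α → ℚ | s = zip w' (fun j => x (Sum.inl j)) ∧
        (zip w fun i => x (Sum.inr i)) ∈ {z | z ∈ H ∧ cls z = cls s}} := by
      have h0 : SL {x : α ⊕ α → ℚ |
          (zip w fun i => x (Sum.inr i)) ∈ {z | z ∈ H ∧ cls z = cls s}} :=
        SL.preimage (hL.sl w) (T := fun (x : α ⊕ α → ℚ) (i : α) => x (Sum.inr i))
          (AffM.reindex Sum.inr)
      refine SL.and ?_ h0
      by_cases h1 : ∀ j, (s j).1 = w' j
      · have : {x : α ⊕ α → ℚ | s = zip w' (fun j => x (Sum.inl j))} =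
            {x : α ⊕ α → ℚ | ∀ j, x (Sum.inl j) = (s j).2} := by
          ext x
          constructor
          · intro h2 j
            have h3 : s = zip w' (fun j => x (Sum.inl j)) := h2
            rw [h3]
            rfl
          · intro h2
            change s = zip w' (fun j => x (Sum.inl j))
            funext j
            exact Prod.ext (h1 j) (h2 j).symm
        rw [this]
        exact SL.all fun j => SL.eq (Aff.coord (Sum.inl j)) (Aff.const _)
      · have : {x : α ⊕ α → ℚ | s = zip w' (fun j => x (Sum.inl j))} = ∅ := by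
          ext x
          constructor
          · intro h2
            have h3 : s = zip w' (fun j => x (Sum.inl j)) := h2
            exact absurd (fun j => by rw [h3]; rfl) h1
          · intro h2
            exact h2.elim
        rw [this]
        exact SL.empty
    have hfin2 := SF.ite hite (CF.comp (hFT.cf w) (AffM.reindex (ι := α ⊕ α) Sum.inr))
      (CF.const (ι := α ⊕ α) 0)
    have heq : ∀ x : α ⊕ α → ℚ, (if s = zip w' (fun j => x (Sum.inl j)) ∧
        (zip w fun i => x (Sum.inr i)) ∈ {z | z ∈ H ∧ cls z = cls s} then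
        J (zip w fun i => x (Sum.inr i)) else 0) = (@ite _ (s = zip w' (fun j => x (Sum.inl j)) ∧
        (zip w fun i => x (Sum.inr i)) ∈ {z | z ∈ H ∧ cls z = cls s})
        (Classical.propDecidable _) (J (zip w fun i => x (Sum.inr i))) 0) := by
      intro x
      congr 1
    rw [show (fun x : α ⊕ α → ℚ => if s = zip w' (fun j => x (Sum.inl j)) ∧
        (zip w fun i => x (Sum.inr i)) ∈ {z | z ∈ H ∧ cls z = cls s} then
        J (zip w fun i => x (Sum.inr i)) else 0) = _ from funext heq]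
    exact hfin2
  have hfin : ∀ w : α → Ω, {w' : α → Ω | ∃ g, J (zip w g) ≠ 0 ∧ ac (sp (zip w g)) = w'}.Finite := by
    intro w
    refine (hspfin.image ac).subset ?_
    rintro _ ⟨g, hg, rfl⟩
    exact ⟨_, ⟨_, hsupp _ hg, rfl⟩, rfl⟩
  rw [Int_graph hFT sp hinv hcf hfin]
  have hgr := FT.graph hFT sp hinv hcf hfin
  have hzero : (fun z : α → Ω × ℚ =>
      Int (fixT (fixT (⊤ : Subgroup (Ω ≃ₐ[k] Ω)) e) (ac z)) fun z' : α → Ω × ℚ =>
        if sp z' = z then J z' else 0) = fun _ => 0 := by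
    funext s
    by_cases hs : s ∈ sp '' H
    · obtain ⟨hsm, hss⟩ := hsH s hs
      obtain ⟨a, lo, hi, m, κ, hL⟩ := h.line s hsm
      have hcl : ∀ z, z ∈ {z | z ∈ H ∧ cls z = cls s} ↔ (z ∈ H ∧ sp z = s) := fun z =>
        (hclass s hs z).symm
      refine line_Int hΩ (e := e) (s := s) hL (fixT_fixT _ e (ac s)) ?_ ?_ ?_ hc hd ?_ ?_
        (hgr.slice s)
      · rintro σ ⟨hσ, hσs⟩ z ⟨hz, hzc⟩
        refine ⟨hst σ hσ z hz, ?_⟩
        rw [h.inv σ hσ z hz s hsm hzc, (sz_eq_iff σ s).2 hσs]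
      · intro j
        refine isAlgebraic_of_finite_orbit hΩ e (ac s j) ?_
        refine (hspfin.image (fun z => ac z j)).subset ?_
        rintro _ ⟨σ, hσ, rfl⟩
        refine ⟨sz σ s, ⟨sz σ s, hst σ hσ s hsm, ?_⟩, rfl⟩
        rw [hspσ σ hσ s hsm, hss]
      · intro z hz j
        obtain ⟨hzH, hzs⟩ := (hcl z).1 hz
        refine mem_kf_of_fixed hΩ _ _ ?_
        intro σ hσ
        have h1 : σ ∈ fixT (⊤ : Subgroup (Ω ≃ₐ[k] Ω)) e := ⟨hσ.1, fun i => hσ.2 (Sum.inl i)⟩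
        have h2 : sz σ z = z := (sz_eq_iff σ z).2 fun i => hσ.2 (Sum.inr i)
        have h3 : sz σ s = s := by
          rw [← hzs, ← hspσ σ h1 z hzH, h2]
        exact (sz_eq_iff σ s).1 h3 j
      · intro z hz
        obtain ⟨hzH, hzs⟩ := (hcl z).1 hz
        rw [if_pos hzs, hJ z hzH]
      · intro z hz
        split_ifs with h1
        · by_contra h2
          exact hz ((hcl z).2 ⟨hsupp z h2, h1⟩)
        · rfl
    · have h1 : (fun z' : α → Ω × ℚ => if sp z' = s then J z' else 0) = fun _ => 0 := by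
        funext z'
        split_ifs with h2
        · by_contra h3
          exact hs ⟨z', hsupp z' h3, h2⟩
        · rfl
      rw [h1, Int_zero]
  rw [hzero, Int_zero]

end TR

end

end KTS
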