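import Pool.Agent.KTS.UE
import Pool.Agent.KTS.TR

/-!
[KTS] Block T, part 1: action, clusters, generic values (owner helper26).
-/

set_option autoImplicit false
set_option linter.unusedSectionVars false

namespace KTS

noncomputable section

universe u v w

open Polynomial Cardinal

section TA1

variable {k Ω F : Type u} [Field k] [Field Ω] [Algebra k Ω] [Field F] [Algebra (HahnSeries ℚ k) F]

/-! ### the action -/

theorem sact_apply (σ : Ω →ₐ[k] Ω) (φ : Pt k Ω F) (e : F) : sact σ φ e = hmapA σ (φ e) := rfl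

theorem rvt_sact {ι : Type v} (σ : Ω ≃ₐ[k] Ω) (s : ι → F) (φ : Pt k Ω F) :
    rvt s (sact (σ : Ω →ₐ[k] Ω) φ) = sz σ (rvt s φ) := by
  funext j
  exact rv_hmapA _ _

theorem hmapA_inv_apply (σ : Ω ≃ₐ[k] Ω) (y : HahnSeries ℚ Ω) :
    hmapA ((σ⁻¹ : Ω ≃ₐ[k] Ω) : Ω →ₐ[k] Ω) (hmapA (σ : Ω →ₐ[k] Ω) y) = y := by
  ext q
  exact σ.symm_apply_apply _

theorem hmapA_apply_inv (σ : Ω ≃ₐ[k] Ω) (y : HahnSeries ℚ Ω) :
    hmapA (σ : Ω →ₐ[k] Ω) (hmapA ((σ⁻¹ : Ω ≃ₐ[k] Ω) : Ω →ₐ[k] Ω) y) = y := by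
  ext q
  exact σ.apply_symm_apply _

theorem hmapA_inj (σ : Ω ≃ₐ[k] Ω) {y y' : HahnSeries ℚ Ω}
    (h : hmapA (σ : Ω →ₐ[k] Ω) y = hmapA (σ : Ω →ₐ[k] Ω) y') : y = y' := by
  rw [← hmapA_inv_apply σ y, h, hmapA_inv_apply]

theorem qf_sact (σ : Ω →ₐ[k] Ω) (P : Finset F[X]) (φ : Pt k Ω F) (g : {g // g ∈ P}) :
    qf P (sact σ φ) g = (qf P φ g).map (hmapA σ : HahnSeries ℚ Ω →+* HahnSeries ℚ Ω) := by
  unfold qf
  rw [Polynomial.map_map]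
  rfl

theorem eval_qf_sact (σ : Ω →ₐ[k] Ω) (P : Finset F[X]) (φ : Pt k Ω F) (g : {g // g ∈ P})
    (y : HahnSeries ℚ Ω) :
    (qf P (sact σ φ) g).eval (hmapA σ y) = hmapA σ ((qf P φ g).eval y) := by
  rw [qf_sact]
  exact Polynomial.eval_map_apply (hmapA σ : HahnSeries ℚ Ω →+* HahnSeries ℚ Ω) y

theorem rq_sact (σ : Ω ≃ₐ[k] Ω) (P : Finset F[X]) (φ : Pt k Ω F) (y : HahnSeries ℚ Ω) :
    rq (qf P (sact (σ : Ω →ₐ[k] Ω) φ)) (hmapA (σ : Ω →ₐ[k] Ω) y) = sz σ (rq (qf P φ) y) := by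
  funext g
  unfold rq
  rw [eval_qf_sact]
  exact rv_hmapA _ _

theorem mem_Rq_sact (σ : Ω ≃ₐ[k] Ω) (P : Finset F[X]) (φ : Pt k Ω F) (y : HahnSeries ℚ Ω) :
    hmapA (σ : Ω →ₐ[k] Ω) y ∈ Rq (qf P (sact (σ : Ω →ₐ[k] Ω) φ)) ↔ y ∈ Rq (qf P φ) := by
  refine exists_congr fun g => ?_
  unfold Polynomial.IsRoot
  rw [eval_qf_sact]
  constructor
  · intro h
    exact hmapA_inj σ (h.trans (map_zero _).symm)
  · intro h
    rw [h, map_zero]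

theorem Rq_sact (σ : Ω ≃ₐ[k] Ω) (P : Finset F[X]) (φ : Pt k Ω F) :
    Rq (qf P (sact (σ : Ω →ₐ[k] Ω) φ)) = hmapA (σ : Ω →ₐ[k] Ω) '' Rq (qf P φ) := by
  ext y
  constructor
  · intro h
    rw [← hmapA_apply_inv σ y, mem_Rq_sact] at h
    exact ⟨_, h, hmapA_apply_inv σ y⟩
  · rintro ⟨y, h, rfl⟩
    exact (mem_Rq_sact σ P φ y).2 h

theorem Cl_sact (σ : Ω ≃ₐ[k] Ω) (P : Finset F[X]) (φ : Pt k Ω F) (y : HahnSeries ℚ Ω) :
    Cl (qf P (sact (σ : Ω →ₐ[k] Ω) φ)) (hmapA (σ : Ω →ₐ[k] Ω) y) =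
      hmapA (σ : Ω →ₐ[k] Ω) '' Cl (qf P φ) y := by
  have h1 : ∀ a b : HahnSeries ℚ Ω, (hmapA (σ : Ω →ₐ[k] Ω) a - hmapA (σ : Ω →ₐ[k] Ω) b).orderTop =
      (a - b).orderTop := fun a b => by rw [← map_sub, orderTop_hmapA]
  unfold Cl
  rw [Rq_sact]
  ext ρ
  constructor
  · rintro ⟨⟨ρ, hρ, rfl⟩, h⟩
    refine ⟨ρ, ⟨hρ, fun ρ' hρ' => ?_⟩, rfl⟩
    have := h _ ⟨ρ', hρ', rfl⟩
    rwa [h1, h1] at this
  · rintro ⟨ρ, ⟨hρ, h⟩, rfl⟩
    refine ⟨⟨ρ, hρ, rfl⟩, ?_⟩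
    rintro _ ⟨ρ', hρ', rfl⟩
    rw [h1, h1]
    exact h ρ' hρ'

end TA1

section TA2

variable {Ω : Type u} [Field Ω] {α : Type v}

/-! ### orders and roots -/

theorem orderTop_sub_swap (a b : HahnSeries ℚ Ω) : (a - b).orderTop = (b - a).orderTop := by
  rw [← neg_sub, HahnSeries.orderTop_neg]

theorem orderTop_far {y y' ρ : HahnSeries ℚ Ω} (h : (y - ρ).orderTop < (y - y').orderTop) :
    (y' - ρ).orderTop = (y - ρ).orderTop := by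
  have h1 : y' - ρ = (y - ρ) + (y' - y) := by ring
  rw [h1]
  exact HahnSeries.orderTop_add_eq_left (by rwa [orderTop_sub_swap y' y])

theorem Rq_finiteT [Finite α] {q : α → (HahnSeries ℚ Ω)[X]} (hq : DC q) : (Rq q).Finite := by
  have h : Rq q = ⋃ a, {ρ | (q a).IsRoot ρ} := by
    ext ρ
    simp [Rq]
  rw [h]
  exact Set.finite_iUnion fun a => Polynomial.finite_setOfPred_isRoot (hq.ne a)

theorem Cl_congrT [IsAlgClosed Ω] [CharZero Ω] [Finite α] {q : α → (HahnSeries ℚ Ω)[X]} (hq : DC q)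
    {y y' : HahnSeries ℚ Ω} (hy : y ∉ Rq q) (hy' : y' ∉ Rq q) (h : rq q y = rq q y') :
    Cl q y = Cl q y' := by
  have h1 := (rq_eq_iff q hq y y' hy hy').1 h
  have h2 : ∀ ρ ∈ Rq q, (y' - ρ).orderTop = (y - ρ).orderTop := fun ρ hρ => orderTop_far (h1 ρ hρ)
  ext ρ
  constructor
  · rintro ⟨hρ, h⟩
    refine ⟨hρ, fun ρ' hρ' => ?_⟩
    rw [h2 _ hρ', h2 _ hρ]
    exact h ρ' hρ'
  · rintro ⟨hρ, h⟩
    refine ⟨hρ, fun ρ' hρ' => ?_⟩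
    rw [← h2 _ hρ', ← h2 _ hρ]
    exact h ρ' hρ'

theorem OD_lt {b y y' : HahnSeries ℚ Ω} {r : ℚ} (hy : y ∈ OD b r)
    (h : (r : WithTop ℚ) < (y' - y).orderTop) : y' ∈ OD b r := by
  have h1 : y' - b = (y' - y) + (y - b) := by ring
  show (r : WithTop ℚ) < (y' - b).orderTop
  rw [h1]
  exact lt_of_lt_of_le (lt_min h hy) HahnSeries.min_orderTop_le_orderTop_add

/-- A disc without roots: the vector of values is constant. -/
theorem rq_const [IsAlgClosed Ω] [CharZero Ω] [Finite α] {q : α → (HahnSeries ℚ Ω)[X]} (hq : DC q)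
    {b : HahnSeries ℚ Ω} {r : ℚ} (hB : ¬ (OD b r ∩ Rq q).Nonempty) {y y' : HahnSeries ℚ Ω}
    (hy : y ∈ OD b r) (hy' : y' ∈ OD b r) : rq q y = rq q y' := by
  have h1 : ∀ y ∈ OD b r, y ∉ Rq q := fun y hy h => hB ⟨y, hy, h⟩
  refine (rq_eq_iff q hq y y' (h1 y hy) (h1 y' hy')).2 fun ρ hρ => ?_
  have h2 : (r : WithTop ℚ) < (y - y').orderTop := by
    have h3 : y - y' = (y - b) + (b - y') := by ring
    rw [h3]
    refine lt_of_lt_of_le (lt_min hy ?_) HahnSeries.min_orderTop_le_orderTop_add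
    rw [orderTop_sub_swap]
    exact hy'
  refine lt_of_le_of_lt ?_ h2
  by_contra h4
  push Not at h4
  exact h1 ρ (OD_lt hy (by rwa [orderTop_sub_swap])) hρ

end TA2

section TA3

variable {k Ω F : Type u} [Field k] [IsAlgClosed k] [CharZero k] [Field Ω] [IsAlgClosed Ω]
  [CharZero Ω] [Algebra k Ω] [Field F] [Algebra (HahnSeries ℚ k) F] {α : Type v}

/-- Generic elements with given vector of values. -/
theorem gen_same (hΩ : ℵ₀ ≤ Algebra.trdeg k Ω) (hF : Algebra.trdeg (HahnSeries ℚ k) F < ℵ₀)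
    [Finite α] {q : α → (HahnSeries ℚ Ω)[X]} (hq : DC q) (φ : Pt k Ω F)
    (E : IntermediateField (HahnSeries ℚ k) F) (hE : ∀ ρ ∈ Rq q, AlgO φ E ρ)
    {b : HahnSeries ℚ Ω} {r : ℚ} {y : HahnSeries ℚ Ω} (hy : y ∈ OD b r) (hyR : y ∉ Rq q) :
    ∃ y' ∈ OD b r, ¬ AlgO φ E y' ∧ rq q y' = rq q y := by
  obtain ⟨M, hM⟩ := ((Rq_finiteT hq).image fun ρ => (y - ρ).order).bddAbove
  obtain ⟨y', hy', hy''⟩ := exists_gen_disc hΩ hF φ y (max r M)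
  have h1 : ¬ AlgO φ E y' := fun h => hy'' (h.mono le_top)
  have h2 : ((max r M : ℚ) : WithTop ℚ) < (y' - y).orderTop := hy'
  refine ⟨y', OD_lt hy (lt_of_le_of_lt (by exact_mod_cast le_max_left r M) h2), h1, ?_⟩
  refine ((rq_eq_iff q hq y y' hyR fun h => h1 (hE _ h)).2 fun ρ hρ => ?_).symm
  have h3 : y - ρ ≠ 0 := fun h => hyR (by rwa [sub_eq_zero.1 h])
  rw [← HahnSeries.order_eq_orderTop_of_ne_zero h3, orderTop_sub_swap y y']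
  refine lt_of_le_of_lt ?_ h2
  have h4 : (y - ρ).order ≤ M := hM ⟨ρ, hρ, rfl⟩
  exact_mod_cast h4.trans (le_max_right r M)

theorem Twr.algO_root {x : ℕ → F} {N : ℕ} {P : ℕ → Finset F[X]} (hP : Twr k Ω x N P) {i : ℕ}
    (hi : i < N) {φ : Pt k Ω F} {ρ : HahnSeries ℚ Ω} (hρ : ρ ∈ Rq (qf (P i) φ)) :
    AlgO φ (lev k x i) ρ := by
  by_contra h
  exact hP.not_mem_Rq hi h hρ

end TA3

end

end KTS
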