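import Pool.Agent.KTS.TA1

/-!
[KTS] Block T, part 2: one step of the polydisc lemma (owner helper26).
-/

set_option autoImplicit false
set_option linter.unusedSectionVars false

namespace KTS

noncomputable section

universe u v w

open Polynomial Cardinal

section TA2

variable {k Ω F : Type u} [Field k] [IsAlgClosed k] [CharZero k] [Field Ω] [IsAlgClosed Ω]
  [CharZero Ω] [Algebra k Ω] [Field F] [Algebra (HahnSeries ℚ k) F]

/-- The set of values of the tower `P`, levels `< i`, on the set `D`. -/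
def hv' (x : ℕ → F) (P : ℕ → Finset F[X]) (i : ℕ) (D : Set (Pt k Ω F)) : Set (Idx P i → Ω × ℚ) :=
  {z | ∃ φ ∈ D, rvt (helt x P i) φ = z}

/-- The integrand of T3 at level `i`. -/
def Jlev {ι : Type u} (x : ℕ → F) (P : ℕ → Finset F[X]) (i : ℕ) (D : Set (Pt k Ω F)) (a : ι → Ω)
    (c : IntermediateField k Ω → ℚ) : (Idx P i → Ω × ℚ) → ℚ := by
  classical
  exact fun z => if z ∈ hv' x P i D then c (kf k (Sum.elim a (ac z))) else 0

variable {x : ℕ → F} {N : ℕ} {P : ℕ → Finset F[X]} {ι : Type u}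

theorem Jlev_mem {i : ℕ} {D : Set (Pt k Ω F)} {a : ι → Ω} {c : IntermediateField k Ω → ℚ}
    {z : Idx P i → Ω × ℚ} (hz : z ∈ hv' x P i D) :
    Jlev x P i D a c z = c (kf k (Sum.elim a (ac z))) := if_pos hz

theorem Jlev_not_mem {i : ℕ} {D : Set (Pt k Ω F)} {a : ι → Ω} {c : IntermediateField k Ω → ℚ}
    {z : Idx P i → Ω × ℚ} (hz : z ∉ hv' x P i D) : Jlev x P i D a c z = 0 := if_neg hz

/-- the last coordinates over the values of `φ` -/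
def Hs (x : ℕ → F) (P : ℕ → Finset F[X]) (i : ℕ) (D : Set (Pt k Ω F)) (φ : Pt k Ω F) :
    Set ({g // g ∈ P i} → Ω × ℚ) :=
  {z | Sum.elim (rvt (helt x P i) φ) z ∈ hv' x P (i + 1) D}

theorem rvt_succ (φ : Pt k Ω F) (i : ℕ) :
    rvt (helt x P (i + 1)) φ = Sum.elim (rvt (helt x P i) φ) (rq (qf (P i) φ) (φ (x i))) := by
  funext j
  cases j with
  | inl a => exact rvt_helt_inl x P i φ a
  | inr g => exact rvt_helt_inr x P i φ g

theorem V_mono {D : Set (Pt k Ω F)} {i : ℕ} {φ : Pt k Ω F} (hφ : φ ∈ D) : φ (x i) ∈ V x D i φ :=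
  ⟨φ, hφ, fun _ _ => rfl, rfl⟩

/-- (A) -/
theorem Twr.Hs_eq (hΩ : ℵ₀ ≤ Algebra.trdeg k Ω) (hF : Algebra.trdeg (HahnSeries ℚ k) F < ℵ₀)
    (hP : Twr k Ω x N P) {D : Set (Pt k Ω F)}
    (hsat : ∀ φ ∈ D, ∀ ψ : Pt k Ω F, rvt (helt x P N) ψ = rvt (helt x P N) φ → ψ ∈ D)
    {i : ℕ} (hi : i < N) {φ : Pt k Ω F} (z : {g // g ∈ P i} → Ω × ℚ) :
    z ∈ Hs x P i D φ ↔ ∃ y ∈ V x D i φ, rq (qf (P i) φ) y = z := by
  constructor
  · rintro ⟨ψ, hψ, h⟩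
    rw [rvt_succ] at h
    have h1 : rvt (helt x P i) φ = rvt (helt x P i) ψ :=
      funext fun j => (congrFun h (Sum.inl j)).symm
    have h2 : z = rq (qf (P i) ψ) (ψ (x i)) := funext fun j => (congrFun h (Sum.inr j)).symm
    obtain ⟨φ', h3, h4⟩ := hP.extend hΩ hF hi.le le_rfl h1
    have h5 : rvt (helt x P (i + 1)) φ' = rvt (helt x P (i + 1)) ψ :=
      rvt_helt_mono x P hi h4
    refine ⟨φ' (x i), ⟨φ', hsat ψ hψ φ' h4, h3, rfl⟩, ?_⟩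
    rw [h2, qf_congr (fun j hj => (h3 j hj).symm) (hP.coeff i hi)]
    exact ((rvt_helt_succ_iff x P i φ' ψ).1 h5).2
  · rintro ⟨y, ⟨ψ, hψ, h1, rfl⟩, rfl⟩
    refine ⟨ψ, hψ, ?_⟩
    rw [rvt_succ, hP.rvt_congr hi.le h1, qf_congr h1 (hP.coeff i hi)]

/-- (B) -/
theorem Hs_stable {G : Subgroup (Ω ≃ₐ[k] Ω)} {D : Set (Pt k Ω F)}
    (hst : ∀ σ ∈ G, ∀ φ ∈ D, sact (σ : Ω →ₐ[k] Ω) φ ∈ D)
    {i : ℕ} {φ : Pt k Ω F} {z : {g // g ∈ P i} → Ω × ℚ} (hz : z ∈ Hs x P i D φ)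
    {σ : Ω ≃ₐ[k] Ω} (hσ : σ ∈ fixT G (ac (rvt (helt x P i) φ))) :
    sz σ z ∈ Hs x P i D φ := by
  obtain ⟨ψ, hψ, h⟩ := hz
  refine ⟨sact (σ : Ω →ₐ[k] Ω) ψ, hst σ hσ.1 ψ hψ, ?_⟩
  rw [rvt_sact, h]
  refine (sz_elim σ _ _).trans ?_
  rw [(sz_eq_iff σ _).2 hσ.2]

theorem kf_elim_eq {κ : Type v} {κ' : Type w} {b : κ → Ω} {b' : κ' → Ω} (h : ∀ j, b' j ∈ kf k b) :
    kf k (Sum.elim b b') = kf k b := by
  apply le_antisymm
  · rw [kf_le]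
    rintro (j | j)
    · exact mem_kf b j
    · exact h j
  · rw [kf_le]
    intro j
    exact mem_kf (Sum.elim b b') (Sum.inl j)

theorem kf_assoc {κ : Type v} {κ' : Type w} (a : ι → Ω) (b : κ → Ω) (b' : κ' → Ω) :
    kf k (Sum.elim a (Sum.elim b b')) = kf k (Sum.elim (Sum.elim a b) b') := by
  apply le_antisymm
  · rw [kf_le]
    rintro (j | j | j)
    · exact mem_kf (Sum.elim (Sum.elim a b) b') (Sum.inl (Sum.inl j))
    · exact mem_kf (Sum.elim (Sum.elim a b) b') (Sum.inl (Sum.inr j))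
    · exact mem_kf (Sum.elim (Sum.elim a b) b') (Sum.inr j)
  · rw [kf_le]
    rintro ((j | j) | j)
    · exact mem_kf (Sum.elim a (Sum.elim b b')) (Sum.inl j)
    · exact mem_kf (Sum.elim a (Sum.elim b b')) (Sum.inr (Sum.inl j))
    · exact mem_kf (Sum.elim a (Sum.elim b b')) (Sum.inr (Sum.inr j))

theorem Jlev_elim {i : ℕ} {D : Set (Pt k Ω F)} {a : ι → Ω} {c : IntermediateField k Ω → ℚ}
    {φ : Pt k Ω F} {z : {g // g ∈ P i} → Ω × ℚ} (hz : z ∈ Hs x P i D φ) :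
    Jlev x P (i + 1) D a c (Sum.elim (rvt (helt x P i) φ) z) =
      c (kf k (Sum.elim (Sum.elim a (ac (rvt (helt x P i) φ))) (ac z))) := by
  refine (Jlev_mem hz).trans ?_
  rw [← kf_assoc]
  congr 2
  exact congrArg (Sum.elim a) (ac_elim (rvt (helt x P i) φ) z)

/-- The case of one value. -/
theorem Jlev_one (hΩ : ℵ₀ ≤ Algebra.trdeg k Ω) [Fintype ι] {D : Set (Pt k Ω F)} {a : ι → Ω}
    {c : IntermediateField k Ω → ℚ}
    (hst : ∀ σ ∈ fixT (⊤ : Subgroup (Ω ≃ₐ[k] Ω)) a, ∀ φ ∈ D, sact (σ : Ω →ₐ[k] Ω) φ ∈ D)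
    {i : ℕ} {φ : Pt k Ω F} {z₀ : {g // g ∈ P i} → Ω × ℚ} (hz : Hs x P i D φ = {z₀}) :
    Int (fixT (fixT (⊤ : Subgroup (Ω ≃ₐ[k] Ω)) a) (ac (rvt (helt x P i) φ)))
      (fun z => Jlev x P (i + 1) D a c (Sum.elim (rvt (helt x P i) φ) z)) =
      c (kf k (Sum.elim a (ac (rvt (helt x P i) φ)))) := by
  have h0 : z₀ ∈ Hs x P i D φ := by rw [hz]; rfl
  have h1 : ∀ σ ∈ fixT (fixT (⊤ : Subgroup (Ω ≃ₐ[k] Ω)) a) (ac (rvt (helt x P i) φ)),
      sz σ z₀ = z₀ := by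
    intro σ hσ
    have := Hs_stable hst h0 hσ
    rw [hz] at this
    exact this
  rw [Int_point z₀ h1, Jlev_elim h0, kf_elim_eq]
  · intro j
    refine mem_kf_of_fixed hΩ _ _ fun σ hσ => ?_
    rw [← fixT_fixT] at hσ
    exact (sz_eq_iff σ z₀).1 (h1 σ hσ) j
  · intro z hne
    by_contra h2
    apply hne
    apply Jlev_not_mem
    intro h3
    have h4 : z ∈ Hs x P i D φ := h3
    rw [hz] at h4
    exact h2 h4

end TA2

end

end KTS
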