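import Pool.Agent.KTS.TA2

/-!
[KTS] Block T, part 3: the transcendental step of the polydisc lemma (owner helper26).
-/

set_option autoImplicit false
set_option linter.unusedSectionVars false

namespace KTS

noncomputable section

universe u v w

open Polynomial Cardinal

section TA3

variable {k Ω F : Type u} [Field k] [IsAlgClosed k] [CharZero k] [Field Ω] [IsAlgClosed Ω]
  [CharZero Ω] [Algebra k Ω] [Field F] [Algebra (HahnSeries ℚ k) F]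

variable {x : ℕ → F} {N : ℕ} {P : ℕ → Finset F[X]} {ι : Type u}

/-- The residue field of a value over a disc meeting the roots does not have full transcendence
degree. -/
theorem trdeg_ne_of_root (hΩ : ℵ₀ ≤ Algebra.trdeg k Ω) {d : ℕ}
    (hF : Algebra.trdeg (HahnSeries ℚ k) F = d) [Fintype ι] (hP : Twr k Ω x N P) (s : ι → F)
    {a : ι → Ω × ℚ} {D : Set (Pt k Ω F)} (ha : ∀ φ ∈ D, rvt s φ = a) {i : ℕ} (hi : i < N)
    {φ : Pt k Ω F} {b : HahnSeries ℚ Ω} {r : ℚ}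
    (hV : V x D i φ = {y | y ∈ OD b r ∧ ¬ AlgO φ (lev k x i) y})
    (hB : (OD b r ∩ Rq (qf (P i) φ)).Nonempty) :
    Algebra.trdeg k (kf k (Sum.elim (ac a) (ac (rvt (helt x P i) φ)))) ≠ d := by
  intro hd
  have hF' : Algebra.trdeg (HahnSeries ℚ k) F < ℵ₀ := by rw [hF]; exact natCast_lt_aleph0
  obtain ⟨ρ, hρB, hρ⟩ := hB
  set e : ι ⊕ Idx P i → Ω := Sum.elim (ac a) (ac (rvt (helt x P i) φ)) with he
  obtain ⟨w, hw, hw'⟩ := exists_gen hΩ hF' φ e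
  have hρA : AlgO φ (lev k x i) ρ := hP.algO_root hi hρ
  have hw0 : w ≠ 0 := by
    rintro rfl
    exact hw isAlgebraic_zero
  have hy : ρ + HahnSeries.single (r + 1) w ∈ V x D i φ := by
    rw [hV]
    refine ⟨OD_lt hρB ?_, fun h => hw' ρ (r + 1) (hρA.mono le_top) (h.mono le_top)⟩
    rw [add_sub_cancel_left, HahnSeries.orderTop_single hw0]
    exact_mod_cast lt_add_one r
  obtain ⟨ψ, hψ, h1, h2⟩ := hy
  have h3 : AlgO ψ (⊤ : IntermediateField (HahnSeries ℚ k) F) (HahnSeries.single (r + 1) w) := by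
    have h4 : HahnSeries.single (r + 1) w = ψ (x i) - ρ := by rw [h2, add_sub_cancel_left]
    rw [h4, algO_iff]
    refine sub_mem (algO_iff.1 (algO_image ψ (IntermediateField.mem_top)))
      (algO_iff.1 (AlgO.mono (le_top : lev k x i ≤ ⊤) ?_))
    refine hP.algO_root hi ?_
    rwa [← qf_congr (fun j hj => (h1 j hj).symm) (hP.coeff i hi)]
  have h5 : ∀ j, AlgO ψ (⊤ : IntermediateField (HahnSeries ℚ k) F)
      ((Sum.elim (Sum.elim (fun j => ψ (s j)) (fun j => ψ (helt x P i j)))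
        (fun _ : PUnit.{u + 1} => HahnSeries.single (r + 1) w) :
        (ι ⊕ Idx P i) ⊕ PUnit.{u + 1} → HahnSeries ℚ Ω) j) := by
    rintro ((j | j) | j)
    · exact algO_image ψ (IntermediateField.mem_top)
    · exact algO_image ψ (IntermediateField.mem_top)
    · exact h3
  have h6 := trdeg_lc_le ψ _ h5
  have h7 : (fun j => ((Sum.elim (Sum.elim (fun j => ψ (s j)) (fun j => ψ (helt x P i j)))
        (fun _ : PUnit.{u + 1} => HahnSeries.single (r + 1) w) :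
        (ι ⊕ Idx P i) ⊕ PUnit.{u + 1} → HahnSeries ℚ Ω) j).leadingCoeff) =
      Sum.elim e (fun _ => w) := by
    funext j
    rcases j with ((j | j) | j)
    · have := congrFun (ha ψ hψ) j
      exact congrArg Prod.fst this
    · have := congrFun (hP.rvt_congr hi.le h1) j
      exact congrArg Prod.fst this
    · exact HahnSeries.leadingCoeff_of_single
  rw [h7, trdeg_kf_adjoin e w hw, hd, hF] at h6
  have h8 : ((d + 1 : ℕ) : Cardinal.{u}) ≤ (d : ℕ) := by exact_mod_cast h6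
  exact absurd (Nat.cast_le.1 h8) (by omega)

/-- The class of a value: the nearest roots of a preimage. -/
def clsV {α : Type v} (q : α → (HahnSeries ℚ Ω)[X]) (W : Set (HahnSeries ℚ Ω))
    (z : α → Ω × ℚ) : Set (HahnSeries ℚ Ω) :=
  {ρ | ∃ y ∈ W, rq q y = z ∧ ρ ∈ Cl q y}

theorem clsV_eq {α : Type v} [Finite α] {q : α → (HahnSeries ℚ Ω)[X]} (hq : DC q)
    {W : Set (HahnSeries ℚ Ω)} (hW : ∀ y ∈ W, y ∉ Rq q) {y : HahnSeries ℚ Ω} (hy : y ∈ W) :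
    clsV q W (rq q y) = Cl q y := by
  ext ρ
  constructor
  · rintro ⟨y', hy', h, hρ⟩
    rwa [← Cl_congrT hq (hW y' hy') (hW y hy) h]
  · intro hρ
    exact ⟨y, hy, rfl, hρ⟩

theorem Twr.treeH (hΩ : ℵ₀ ≤ Algebra.trdeg k Ω) (hF : Algebra.trdeg (HahnSeries ℚ k) F < ℵ₀)
    [Fintype ι] (hP : Twr k Ω x N P) {a : ι → Ω} {D : Set (Pt k Ω F)}
    (hsat : ∀ φ ∈ D, ∀ ψ : Pt k Ω F, rvt (helt x P N) ψ = rvt (helt x P N) φ → ψ ∈ D)
    (hst : ∀ σ ∈ fixT (⊤ : Subgroup (Ω ≃ₐ[k] Ω)) a, ∀ φ ∈ D, sact (σ : Ω →ₐ[k] Ω) φ ∈ D)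
    {i : ℕ} (hi : i < N)
    {φ : Pt k Ω F} {b : HahnSeries ℚ Ω} {r : ℚ}
    (hV : V x D i φ = {y | y ∈ OD b r ∧ ¬ AlgO φ (lev k x i) y})
    (hB : (OD b r ∩ Rq (qf (P i) φ)).Nonempty) :
    TreeH (k := k) (Sum.elim a (ac (rvt (helt x P i) φ))) (Hs x P i D φ)
      (clsV (qf (P i) φ) (V x D i φ)) := by
  have hq : DC (qf (P i) φ) := hP.dc hi φ
  have hHs := fun z => hP.Hs_eq hΩ hF hsat hi (φ := φ) z
  have hVR : ∀ y ∈ V x D i φ, y ∉ Rq (qf (P i) φ) := by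
    intro y hy
    rw [hV] at hy
    exact hP.not_mem_Rq hi hy.2
  have hVB : ∀ y ∈ V x D i φ, y ∈ OD b r := by
    intro y hy
    rw [hV] at hy
    exact hy.1
  have hG : ∀ σ ∈ fixT (⊤ : Subgroup (Ω ≃ₐ[k] Ω)) (Sum.elim a (ac (rvt (helt x P i) φ))),
      σ ∈ fixT (fixT (⊤ : Subgroup (Ω ≃ₐ[k] Ω)) a) (ac (rvt (helt x P i) φ)) := by
    intro σ hσ
    rwa [fixT_fixT]
  have hstab : ∀ σ ∈ fixT (⊤ : Subgroup (Ω ≃ₐ[k] Ω)) (Sum.elim a (ac (rvt (helt x P i) φ))),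
      ∀ z ∈ Hs x P i D φ, sz σ z ∈ Hs x P i D φ := fun σ hσ z hz => Hs_stable hst hz (hG σ hσ)
  refine ⟨?_, hstab, ?_, ?_⟩
  · refine ((Rq_finiteT hq).powerset).subset ?_
    rintro _ ⟨z, hz, rfl⟩
    rintro ρ ⟨y, hy, h, hρ⟩
    exact hρ.1
  · -- invariance
    intro σ hσ
    have h1 : rvt (helt x P i) (sact (σ : Ω →ₐ[k] Ω) φ) = rvt (helt x P i) φ := by
      rw [rvt_sact, (sz_eq_iff σ _).2 (hG σ hσ).2]
    obtain ⟨β, hβ⟩ := hP.unif i hi _ _ h1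
    have key : ∀ z ∈ Hs x P i D φ, clsV (qf (P i) φ) (V x D i φ) (sz σ z) =
        β '' (hmapA (σ : Ω →ₐ[k] Ω) '' clsV (qf (P i) φ) (V x D i φ) z) := by
      intro z hz
      obtain ⟨y, hy, rfl⟩ := (hHs z).1 hz
      obtain ⟨y₂, hy₂, h2⟩ := (hHs _).1 (hstab σ hσ _ hz)
      obtain ⟨y₁, hy₁, h3, h4⟩ := hβ.rq_transfer (hP.dc hi _) hq
        (y := hmapA (σ : Ω →ₐ[k] Ω) y) fun h => hVR y hy ((mem_Rq_sact σ _ φ y).1 h)
      rw [rq_sact] at h3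
      rw [clsV_eq hq hVR hy, ← h2, clsV_eq hq hVR hy₂, ← Cl_sact, ← h4]
      exact Cl_congrT hq (hVR _ hy₂) hy₁ (h2.trans h3.symm)
    intro z hz z' hz' h
    rw [key z hz, key z' hz', h]
  · -- line
    intro z₀ hz₀
    obtain ⟨y₀, hy₀, rfl⟩ := (hHs z₀).1 hz₀
    obtain ⟨c, lo, hi', m, κ, h1, h2, h3, h4, h5, Bad, h6⟩ :=
      cluster (qf (P i) φ) hq b r hB y₀ (hVB y₀ hy₀) (hVR y₀ hy₀)
    have hdir : ∀ z ∈ {z | z ∈ Hs x P i D φ ∧ clsV (qf (P i) φ) (V x D i φ) z =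
        clsV (qf (P i) φ) (V x D i φ) (rq (qf (P i) φ) y₀)},
        ∃ y ∈ OD b r, y ∉ Rq (qf (P i) φ) ∧ Cl (qf (P i) φ) y = Cl (qf (P i) φ) y₀ ∧
          rq (qf (P i) φ) y = z := by
      rintro z ⟨hz, hc⟩
      obtain ⟨y, hy, rfl⟩ := (hHs z).1 hz
      rw [clsV_eq hq hVR hy, clsV_eq hq hVR hy₀] at hc
      exact ⟨y, hVB y hy, hVR y hy, hc, rfl⟩
    have hinv : ∀ y ∈ OD b r, y ∉ Rq (qf (P i) φ) → Cl (qf (P i) φ) y = Cl (qf (P i) φ) y₀ →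
        rq (qf (P i) φ) y ∈ {z | z ∈ Hs x P i D φ ∧ clsV (qf (P i) φ) (V x D i φ) z =
        clsV (qf (P i) φ) (V x D i φ) (rq (qf (P i) φ) y₀)} := by
      intro y hy hyR hc
      obtain ⟨y', hy', h7, h8⟩ := gen_same hΩ hF hq φ (lev k x i)
        (fun ρ hρ => hP.algO_root hi hρ) hy hyR
      have h9 : y' ∈ V x D i φ := by rw [hV]; exact ⟨hy', h7⟩
      refine ⟨(hHs _).2 ⟨y', h9, h8⟩, ?_⟩
      rw [← h8, clsV_eq hq hVR h9, clsV_eq hq hVR hy₀, ← hc]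
      exact Cl_congrT hq (hVR _ h9) hyR h8
    refine ⟨c, lo, hi', m, κ, h1, ?_, ?_, ?_, ?_, ?_, ?_, ?_, ?_⟩
    · intro z hz
      obtain ⟨y, hy, hyR, hc, rfl⟩ := hdir z hz
      exact (h2 y hy hyR hc).1
    · intro z hz
      obtain ⟨y, hy, hyR, hc, rfl⟩ := hdir z hz
      exact (h2 y hy hyR hc).2.1
    · intro z hz
      obtain ⟨y, hy, hyR, hc, rfl⟩ := hdir z hz
      exact (h2 y hy hyR hc).2.2.1
    · intro z hz
      obtain ⟨y, hy, hyR, hc, rfl⟩ := hdir z hz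
      exact (h2 y hy hyR hc).2.2.2
    · intro z hz z' hz'
      obtain ⟨y, hy, hyR, hc, rfl⟩ := hdir z hz
      obtain ⟨y', hy', hyR', hc', rfl⟩ := hdir z' hz'
      exact h3 y hy hyR hc y' hy' hyR' hc'
    · intro z hz z' hz'
      obtain ⟨y, hy, hyR, hc, rfl⟩ := hdir z hz
      obtain ⟨y', hy', hyR', hc', rfl⟩ := hdir z' hz'
      exact h4 y hy hyR hc y' hy' hyR' hc'
    · intro u γ hu hlo hγ
      obtain ⟨y, hy, hyR, hc, h⟩ := h5 u γ hu hlo hγ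
      exact ⟨_, hinv y hy hyR hc, h⟩
    · refine ⟨Bad, fun u γ hu hb hγ => ?_⟩
      obtain ⟨y, hy, hyR, hc, h⟩ := h6 u γ hu hb hγ
      exact ⟨_, hinv y hy hyR hc, h⟩

/-- T3, one step. -/
theorem Jlev_step [Fintype ι] (hΩ : ℵ₀ ≤ Algebra.trdeg k Ω) {d : ℕ}
    (hF : Algebra.trdeg (HahnSeries ℚ k) F = d) {c : IntermediateField k Ω → ℚ}
    (hc : Wt (d : Cardinal.{u}) c) (hP : Twr k Ω x N P) (s : ι → F) (a : ι → Ω × ℚ)
    {D : Set (Pt k Ω F)} (hD : NPd x N D) (ha : ∀ φ ∈ D, rvt s φ = a)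
    (hsat : ∀ φ ∈ D, ∀ ψ : Pt k Ω F, rvt (helt x P N) ψ = rvt (helt x P N) φ → ψ ∈ D)
    (hst : ∀ σ ∈ fixT (⊤ : Subgroup (Ω ≃ₐ[k] Ω)) (ac a), ∀ φ ∈ D, sact (σ : Ω →ₐ[k] Ω) φ ∈ D)
    {i : ℕ} (hi : i < N)
    (hFT : FT (fixT (⊤ : Subgroup (Ω ≃ₐ[k] Ω)) (ac a)) (Jlev x P (i + 1) D (ac a) c)) :
    prJ (ι := Idx P i) (κ := {g // g ∈ P i}) (fixT (⊤ : Subgroup (Ω ≃ₐ[k] Ω)) (ac a))
      (Jlev x P (i + 1) D (ac a) c) = Jlev x P i D (ac a) c := by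
  have hF' : Algebra.trdeg (HahnSeries ℚ k) F < ℵ₀ := by rw [hF]; exact natCast_lt_aleph0
  funext z'
  by_cases hz' : z' ∈ hv' x P i D
  swap
  · rw [Jlev_not_mem hz']
    have h0 : ∀ z : {g // g ∈ P i} → Ω × ℚ,
        Jlev x P (i + 1) D (ac a) c (Sum.elim z' z) = 0 := by
      intro z
      apply Jlev_not_mem
      rintro ⟨φ, hφ, h⟩
      rw [rvt_succ] at h
      exact hz' ⟨φ, hφ, funext fun j => congrFun h (Sum.inl j)⟩
    unfold prJ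
    rw [Int_congr h0, Int_zero]
  obtain ⟨φ, hφ, rfl⟩ := hz'
  rw [Jlev_mem ⟨φ, hφ, rfl⟩]
  have hHs := fun z => hP.Hs_eq hΩ hF' hsat hi (φ := φ) z
  -- the case of one value
  have hone : (∀ y ∈ V x D i φ, rq (qf (P i) φ) y = rq (qf (P i) φ) (φ (x i))) →
      Hs x P i D φ = {rq (qf (P i) φ) (φ (x i))} := by
    intro h
    ext z
    rw [hHs]
    constructor
    · rintro ⟨y, hy, rfl⟩
      exact h y hy
    · rintro rfl
      exact ⟨_, V_mono hφ, rfl⟩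
  by_cases hx : IsAlgebraic (lev k x i) (x i)
  · exact Jlev_one hΩ hst (hone fun y hy => by rw [hD.al i hi hx φ hφ hy (V_mono hφ)])
  · obtain ⟨b, r, hV⟩ := hD.tr i hi hx φ hφ
    by_cases hB : (OD b r ∩ Rq (qf (P i) φ)).Nonempty
    · have hne := trdeg_ne_of_root hΩ hF hP s ha hi hV hB
      have h0 : c (kf k (Sum.elim (ac a) (ac (rvt (helt x P i) φ)))) = 0 := by
        by_contra h
        exact hne (hc.dim _ h)
      rw [h0]
      unfold prJ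
      have hsl := FT.slice (ι := Idx P i) (κ := {g // g ∈ P i}) hFT (rvt (helt x P i) φ)
      rw [fixT_fixT] at hsl ⊢
      exact (hP.treeH hΩ hF' hsat hst hi hV hB).Int_eq_zero hΩ hc hne
        (fun z hz => Jlev_elim hz) (fun z hz => Jlev_not_mem hz) hsl
    · refine Jlev_one hΩ hst (hone fun y hy => ?_)
      have hVB : ∀ y ∈ V x D i φ, y ∈ OD b r := by
        intro y hy
        rw [hV] at hy
        exact hy.1
      exact rq_const (hP.dc hi φ) hB (hVB y hy) (hVB _ (V_mono hφ))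

end TA3

end

end KTS
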