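import Pool.Agent.KTS.TA3

/-!
[KTS] Block T: polydisc lemma T3, comparison T4 (owner helper26).
-/

set_option autoImplicit false
set_option linter.unusedSectionVars false

namespace KTS

noncomputable section

universe u v w

open Polynomial Cardinal

section TB

variable {k Ω F : Type u} [Field k] [IsAlgClosed k] [CharZero k] [Field Ω] [IsAlgClosed Ω]
  [CharZero Ω] [Algebra k Ω] [Field F] [Algebra (HahnSeries ℚ k) F]

variable {x : ℕ → F} {N : ℕ} {P : ℕ → Finset F[X]} {ι : Type u} [Fintype ι]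

/-- T3, polydisc lemma. -/
theorem polydisc (hΩ : ℵ₀ ≤ Algebra.trdeg k Ω) {d : ℕ}
    (hF : Algebra.trdeg (HahnSeries ℚ k) F = d) {c : IntermediateField k Ω → ℚ}
    (hc : Wt (d : Cardinal.{u}) c) (hP : Twr k Ω x N P) (s : ι → F) (a : ι → Ω × ℚ)
    {D : Set (Pt k Ω F)} (hne : D.Nonempty) (hD : NPd x N D) (ha : ∀ φ ∈ D, rvt s φ = a)
    (hsat : ∀ φ ∈ D, ∀ ψ : Pt k Ω F, rvt (helt x P N) ψ = rvt (helt x P N) φ → ψ ∈ D)
    (hst : ∀ σ ∈ fixT (⊤ : Subgroup (Ω ≃ₐ[k] Ω)) (ac a), ∀ φ ∈ D, sact (σ : Ω →ₐ[k] Ω) φ ∈ D)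
    (hFT : FT (fixT (⊤ : Subgroup (Ω ≃ₐ[k] Ω)) (ac a)) (Jlev x P N D (ac a) c)) :
    Int (fixT (⊤ : Subgroup (Ω ≃ₐ[k] Ω)) (ac a)) (Jlev x P N D (ac a) c) = c (kf k (ac a)) := by
  have key : ∀ m i, i + m = N → FT (fixT (⊤ : Subgroup (Ω ≃ₐ[k] Ω)) (ac a))
      (Jlev x P i D (ac a) c) ∧ Int (fixT (⊤ : Subgroup (Ω ≃ₐ[k] Ω)) (ac a))
        (Jlev x P i D (ac a) c) = Int (fixT (⊤ : Subgroup (Ω ≃ₐ[k] Ω)) (ac a))
        (Jlev x P N D (ac a) c) := by
    intro m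
    induction m with
    | zero =>
      intro i hi
      obtain rfl : i = N := hi
      exact ⟨hFT, rfl⟩
    | succ m ih =>
      intro i hi
      obtain ⟨h1, h2⟩ := ih (i + 1) (by omega)
      have hs := Jlev_step hΩ hF hc hP s a hD ha hsat hst (i := i) (by omega) h1
      have h3 := FT.prJ (ι := Idx P i) (κ := {g // g ∈ P i}) h1
      have h4 := Int_prJ (ι := Idx P i) (κ := {g // g ∈ P i}) h1
      rw [hs] at h3 h4
      exact ⟨h3, h4.symm.trans h2⟩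
  obtain ⟨φ, hφ⟩ := hne
  rw [← (key N 0 (by omega)).2]
  have : IsEmpty (Idx P 0) := inferInstanceAs (IsEmpty PEmpty)
  rw [Int_of_isEmpty, Jlev_mem ⟨φ, hφ, funext fun j => isEmptyElim j⟩, kf_elim_eq]
  intro j
  exact isEmptyElim j

/-- Finiteness for measurable sets. -/
theorem FT_JA_meas (hΩ : ℵ₀ ≤ Algebra.trdeg k Ω) {d : ℕ}
    (hF : Algebra.trdeg (HahnSeries ℚ k) F = d) (hx : lev k x N = ⊤)
    {c : IntermediateField k Ω → ℚ} (hc : Wt (d : Cardinal.{u}) c) (s : ι → F)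
    {A : Set (Pt k Ω F)} (hA : Meas A s) : FT (⊤ : Subgroup (Ω ≃ₐ[k] Ω)) (JA A s c) := by
  classical
  obtain ⟨Z, hZ, hZ', hZ''⟩ := hA
  have hfg : ∃ t : Finset F, IntermediateField.adjoin (HahnSeries ℚ k) (t : Set F) = ⊤ := by
    refine ⟨(Finset.range N).image x, ?_⟩
    rw [← hx]
    unfold lev
    congr 1
    ext y
    simp
  have h1 := (FT_JA hF hfg hc s).restrict (fun z => z ∈ Z) (fun σ _ z hz => hZ' σ z hz) hZ''
  have h2 : JA A s c = fun z => if z ∈ Z then JA (Set.univ : Set (Pt k Ω F)) s c z else 0 := by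
    funext z
    unfold JA
    by_cases hz : z ∈ Z
    · rw [if_pos hz]
      congr 1
      refine propext (exists_congr fun φ => ?_)
      constructor
      · rintro ⟨-, h⟩
        exact ⟨Set.mem_univ _, h⟩
      · rintro ⟨-, h⟩
        refine ⟨(hZ φ).2 (by rwa [h]), h⟩
    · rw [if_neg hz, if_neg]
      rintro ⟨φ, hφ, rfl⟩
      exact hz ((hZ φ).1 hφ)
  rw [h2]
  exact h1

theorem JA_mem {κ : Type v} {A : Set (Pt k Ω F)} {t : κ → F} {c : IntermediateField k Ω → ℚ}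
    {z : κ → Ω × ℚ} (h : ∃ φ ∈ A, rvt t φ = z) : JA A t c z = c (kf k (ac z)) := if_pos h

theorem JA_not_mem {κ : Type v} {A : Set (Pt k Ω F)} {t : κ → F} {c : IntermediateField k Ω → ℚ}
    {z : κ → Ω × ℚ} (h : ¬ ∃ φ ∈ A, rvt t φ = z) : JA A t c z = 0 := if_neg h

theorem rvt_elim {κ : Type v} {κ' : Type w} (t : κ → F) (t' : κ' → F) (φ : Pt k Ω F) :
    rvt (Sum.elim t t') φ = Sum.elim (rvt t φ) (rvt t' φ) := by
  funext j
  cases j <;> rfl

/-- T4: comparison of a tuple with a uniform tower refining it. -/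
theorem Int_eq_tower (hΩ : ℵ₀ ≤ Algebra.trdeg k Ω) {d : ℕ}
    (hF : Algebra.trdeg (HahnSeries ℚ k) F = d) (hx : lev k x N = ⊤)
    {c : IntermediateField k Ω → ℚ} (hc : Wt (d : Cardinal.{u}) c) (s : ι → F)
    {A : Set (Pt k Ω F)} (hA : Meas A s)
    (hD : ∀ φ ∈ A, NPd x N {ψ : Pt k Ω F | ψ ∈ A ∧ rvt s ψ = rvt s φ})
    (hP : Twr k Ω x N P) (hq : ∀ j, s j ≠ 0 → Quo (k := k) x P N (s j)) :
    Int (⊤ : Subgroup (Ω ≃ₐ[k] Ω)) (JA A s c) =
      Int (⊤ : Subgroup (Ω ≃ₐ[k] Ω)) (JA A (helt x P N) c) := by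
  classical
  set h : Idx P N → F := helt x P N with hh
  obtain ⟨f, hf, hf'⟩ := Quo.all_mono (Ω := Ω) hq
  have hAsh : Meas A (Sum.elim s h) := by
    obtain ⟨Z, hZ, hZ', hZ''⟩ := hA
    refine ⟨{z | (fun j => z (Sum.inl j)) ∈ Z}, fun φ => ?_, fun σ z hz => ?_, fun w => ?_⟩
    · exact hZ φ
    · exact hZ' σ _ hz
    · exact (hZ'' fun j => w (Sum.inl j)).pre (AffM.reindex Sum.inl)
  have hmem : ∀ φ ψ : Pt k Ω F, rvt s ψ = rvt s φ → φ ∈ A → ψ ∈ A := by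
    obtain ⟨Z, hZ, hZ', hZ''⟩ := hA
    intro φ ψ h1 h2
    rw [hZ] at h2 ⊢
    rwa [h1]
  have hstA : ∀ (σ : Ω ≃ₐ[k] Ω), ∀ φ ∈ A, sact (σ : Ω →ₐ[k] Ω) φ ∈ A := by
    obtain ⟨Z, hZ, hZ', hZ''⟩ := hA
    intro σ φ h2
    rw [hZ] at h2 ⊢
    rw [rvt_sact]
    exact hZ' σ _ h2
  have hFT : FT (⊤ : Subgroup (Ω ≃ₐ[k] Ω)) (JA A (Sum.elim s h) c) :=
    FT_JA_meas hΩ hF hx hc (Sum.elim s h) hAsh
  have h1 : prJ (⊤ : Subgroup (Ω ≃ₐ[k] Ω)) (JA A (Sum.elim s h) c) = JA A s c := by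
    funext z
    by_cases hz : ∃ φ ∈ A, rvt s φ = z
    · rw [JA_mem hz]
      obtain ⟨φ, hφ, rfl⟩ := hz
      have h2 : ∀ z' : Idx P N → Ω × ℚ, JA A (Sum.elim s h) c (Sum.elim (rvt s φ) z') =
          Jlev x P N {ψ : Pt k Ω F | ψ ∈ A ∧ rvt s ψ = rvt s φ} (ac (rvt s φ)) c z' := by
        intro z'
        by_cases hz' : z' ∈ hv' x P N {ψ : Pt k Ω F | ψ ∈ A ∧ rvt s ψ = rvt s φ}
        · rw [Jlev_mem hz']
          obtain ⟨ψ, ⟨hψ, h3⟩, h4⟩ := hz'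
          rw [JA_mem ⟨ψ, hψ, by rw [rvt_elim, h3, hh, h4]⟩, ac_elim]
        · rw [Jlev_not_mem hz']
          apply JA_not_mem
          rintro ⟨ψ, hψ, h3⟩
          rw [rvt_elim] at h3
          exact hz' ⟨ψ, ⟨hψ, funext fun j => congrFun h3 (Sum.inl j)⟩,
            funext fun j => congrFun h3 (Sum.inr j)⟩
      have h3 := hFT.slice (rvt s φ)
      have h4 : (fun z' => JA A (Sum.elim s h) c (Sum.elim (rvt s φ) z')) =
        Jlev x P N {ψ : Pt k Ω F | ψ ∈ A ∧ rvt s ψ = rvt s φ} (ac (rvt s φ)) c := funext h2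
      unfold prJ
      rw [h4] at h3 ⊢
      refine polydisc hΩ hF hc hP s (rvt s φ) ⟨φ, hφ, rfl⟩ (hD φ hφ) (fun ψ hψ => hψ.2) ?_ ?_ h3
      · rintro ψ ⟨hψ, h5⟩ χ h6
        have h7 : rvt s χ = rvt s ψ := by rw [hf', hf', h6]
        exact ⟨hmem _ _ h7 hψ, h7.trans h5⟩
      · rintro σ hσ ψ ⟨hψ, h5⟩
        refine ⟨hstA σ ψ hψ, ?_⟩
        rw [rvt_sact, h5]
        exact (sz_eq_iff σ _).2 hσ.2
    · rw [JA_not_mem hz]
      have h0 : ∀ z' : Idx P N → Ω × ℚ, JA A (Sum.elim s h) c (Sum.elim z z') = 0 := by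
        intro z'
        apply JA_not_mem
        rintro ⟨φ, hφ, h2⟩
        rw [rvt_elim] at h2
        exact hz ⟨φ, hφ, funext fun j => congrFun h2 (Sum.inl j)⟩
      unfold prJ
      rw [Int_congr h0, Int_zero]
  have h2 := Int_equiv (Equiv.sumComm ι (Idx P N)) hFT
  have h3 := FT.equiv (Equiv.sumComm ι (Idx P N)) hFT
  have h4 : prJ (⊤ : Subgroup (Ω ≃ₐ[k] Ω)) (fun z : Idx P N ⊕ ι → Ω × ℚ =>
      JA A (Sum.elim s h) c fun j => z (Equiv.sumComm ι (Idx P N) j)) = JA A h c := by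
    funext z
    have hsw : ∀ z' : ι → Ω × ℚ, (fun j => (Sum.elim z z' : Idx P N ⊕ ι → Ω × ℚ)
        (Equiv.sumComm ι (Idx P N) j)) = Sum.elim z' z := by
      intro z'
      funext j
      cases j <;> rfl
    by_cases hz : ∃ φ ∈ A, rvt h φ = z
    · rw [JA_mem hz]
      obtain ⟨φ, hφ, rfl⟩ := hz
      unfold prJ
      have h5 : ∀ σ ∈ fixT (⊤ : Subgroup (Ω ≃ₐ[k] Ω)) (ac (rvt h φ)),
          sz σ (f (rvt h φ)) = f (rvt h φ) := by
        intro σ hσ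
        funext j
        have h6 := (hf j).eqv σ (rvt h φ)
        rw [(sz_eq_iff σ _).2 hσ.2] at h6
        exact h6.symm
      rw [Int_point (f (rvt h φ)) h5]
      · beta_reduce
        rw [hsw, JA_mem ⟨φ, hφ, by rw [rvt_elim, hf']⟩, ac_elim]
        congr 1
        apply le_antisymm
        · rw [kf_le]
          rintro (j | j)
          · exact (hf j).mem _
          · exact mem_kf _ j
        · rw [kf_le]
          intro j
          exact mem_kf (Sum.elim (ac (f (rvt h φ))) (ac (rvt h φ))) (Sum.inr j)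
      · intro z' hne
        beta_reduce at hne
        rw [hsw] at hne
        by_contra hcon
        apply hne
        apply JA_not_mem
        rintro ⟨ψ, hψ, h6⟩
        rw [rvt_elim] at h6
        have h7 : rvt s ψ = z' := funext fun j => congrFun h6 (Sum.inl j)
        have h8 : rvt h ψ = rvt h φ := funext fun j => congrFun h6 (Sum.inr j)
        exact hcon (by rw [← h7, hf', h8])
    · rw [JA_not_mem hz]
      have h0 : ∀ z' : ι → Ω × ℚ, JA A (Sum.elim s h) c (fun j =>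
          (Sum.elim z z' : Idx P N ⊕ ι → Ω × ℚ) (Equiv.sumComm ι (Idx P N) j)) = 0 := by
        intro z'
        rw [hsw]
        apply JA_not_mem
        rintro ⟨φ, hφ, h2⟩
        rw [rvt_elim] at h2
        exact hz ⟨φ, hφ, funext fun j => congrFun h2 (Sum.inr j)⟩
      unfold prJ
      rw [Int_congr h0, Int_zero]
  rw [← h1, ← Int_prJ hFT, ← h2, Int_prJ h3, h4]

end TB

end

end KTS
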