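import Pool.Agent.KTS.Need

/-!
[KTS] Block U: towers (owner helper19).
-/

set_option autoImplicit false

namespace KTS

noncomputable section

universe u v w

open Polynomial Cardinal

section UB

variable {k Ω F : Type u} [Field k] [IsAlgClosed k] [CharZero k] [Field Ω] [IsAlgClosed Ω]
  [CharZero Ω] [Algebra k Ω] [Field F] [Algebra (HahnSeries ℚ k) F]

/-! ### levels -/

/-- Points which agree on the generators agree on the level. -/
theorem agree_lev {x : ℕ → F} {i : ℕ} {φ ψ : Pt k Ω F} (h : ∀ j < i, φ (x j) = ψ (x j)) {e : F}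
    (he : e ∈ lev k x i) : φ e = ψ e := by
  unfold lev at he
  induction he using IntermediateField.adjoin_induction with
  | mem y hy => obtain ⟨j, hj, rfl⟩ := hy; exact h j hj
  | algebraMap a => rw [φ.commutes, ψ.commutes]
  | add a b _ _ ha hb => rw [map_add, map_add, ha, hb]
  | inv a _ ha => rw [map_inv₀, map_inv₀, ha]
  | mul a b _ _ ha hb => rw [map_mul, map_mul, ha, hb]

/-- Rational functions in `x i` over the level `i`. -/
theorem mem_lev_succ {x : ℕ → F} {i : ℕ} {e : F} (he : e ∈ lev k x (i + 1)) :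
    ∃ g h : F[X], (∀ n, g.coeff n ∈ lev k x i) ∧ (∀ n, h.coeff n ∈ lev k x i) ∧
      h.eval (x i) ≠ 0 ∧ e = g.eval (x i) / h.eval (x i) := by
  have h1 : x '' {j | j < i + 1} = x '' {j | j < i} ∪ {x i} := by
    ext z
    constructor
    · rintro ⟨j, hj, rfl⟩
      rcases Nat.lt_succ_iff_lt_or_eq.1 hj with h | h
      · exact Or.inl ⟨j, h, rfl⟩
      · exact Or.inr (by rw [h]; rfl)
    · rintro (⟨j, hj, rfl⟩ | h)
      · exact ⟨j, Nat.lt_succ_of_lt hj, rfl⟩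
      · exact ⟨i, Nat.lt_succ_self i, h.symm⟩
  have h2 : e ∈ IntermediateField.adjoin (lev k x i) {x i} := by
    have h3 : e ∈ (IntermediateField.adjoin (lev k x i) {x i}).restrictScalars
        (HahnSeries ℚ k) := by
      unfold lev
      rw [IntermediateField.adjoin_adjoin_left, ← h1]
      exact he
    exact h3
  obtain ⟨r, s, hrs⟩ := (IntermediateField.mem_adjoin_simple_iff (lev k x i) e).1 h2
  have hc : ∀ (p : (lev k x i)[X]) (n : ℕ),
      (p.map (algebraMap (lev k x i) F)).coeff n ∈ lev k x i := by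
    intro p n
    rw [coeff_map]
    exact (p.coeff n).2
  have hev : ∀ p : (lev k x i)[X], (p.map (algebraMap (lev k x i) F)).eval (x i) =
      aeval (x i) p := fun p => by rw [eval_map, aeval_def]
  by_cases hs : aeval (x i) s = 0
  · refine ⟨0, 1, fun n => ?_, fun n => ?_, ?_, ?_⟩
    · rw [coeff_zero]; exact (lev k x i).zero_mem
    · rw [coeff_one]
      split_ifs
      · exact (lev k x i).one_mem
      · exact (lev k x i).zero_mem
    · rw [eval_one]; exact one_ne_zero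
    · rw [hrs, hs, div_zero, eval_zero, zero_div]
  · refine ⟨r.map (algebraMap (lev k x i) F), s.map (algebraMap (lev k x i) F), hc r, hc s, ?_, ?_⟩
    · rw [hev]; exact hs
    · rw [hev, hev]; exact hrs

theorem eval_mem_lev {x : ℕ → F} {i : ℕ} {g : F[X]} (hg : ∀ n, g.coeff n ∈ lev k x i) :
    g.eval (x i) ∈ lev k x (i + 1) := by
  have h1 : lev k x i ≤ lev k x (i + 1) :=
    IntermediateField.adjoin.mono _ _ _ (Set.image_mono fun _ hj => Nat.lt_succ_of_lt hj)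
  have h2 : x i ∈ lev k x (i + 1) :=
    IntermediateField.subset_adjoin _ _ ⟨i, Nat.lt_succ_self i, rfl⟩
  rw [eval_eq_sum, Polynomial.sum]
  exact (lev k x (i + 1)).sum_mem fun n _ => (lev k x (i + 1)).mul_mem (h1 (hg n))
    (pow_mem h2 n)

/-! ### coordinates of a tower -/

theorem qf_congr {x : ℕ → F} {i : ℕ} {φ ψ : Pt k Ω F} (h : ∀ j < i, φ (x j) = ψ (x j))
    {P : Finset F[X]} (hP : ∀ g ∈ P, ∀ n, g.coeff n ∈ lev k x i) : qf P φ = qf P ψ := by
  funext g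
  ext1 n
  unfold qf
  rw [coeff_map, coeff_map]
  exact agree_lev h (hP g.1 g.2 n)

theorem rq_qf (P : Finset F[X]) (φ : Pt k Ω F) (y : F) (g : {g // g ∈ P}) :
    rq (qf P φ) (φ y) g = rv (φ (g.1.eval y)) := by
  unfold rq qf
  exact congrArg rv (eval_map_apply (φ : F →+* HahnSeries ℚ Ω) y)

theorem rvt_helt_inl (x : ℕ → F) (P : ℕ → Finset F[X]) (i : ℕ) (φ : Pt k Ω F) (a : Idx P i) :
    rvt (helt x P (i + 1)) φ (Sum.inl a) = rvt (helt x P i) φ a := rfl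

theorem rvt_helt_inr (x : ℕ → F) (P : ℕ → Finset F[X]) (i : ℕ) (φ : Pt k Ω F)
    (g : {g // g ∈ P i}) :
    rvt (helt x P (i + 1)) φ (Sum.inr g) = rq (qf (P i) φ) (φ (x i)) g := by
  rw [rq_qf]
  rfl

theorem rvt_helt_succ_iff (x : ℕ → F) (P : ℕ → Finset F[X]) (i : ℕ) (φ ψ : Pt k Ω F) :
    rvt (helt x P (i + 1)) φ = rvt (helt x P (i + 1)) ψ ↔
      rvt (helt x P i) φ = rvt (helt x P i) ψ ∧
        rq (qf (P i) φ) (φ (x i)) = rq (qf (P i) ψ) (ψ (x i)) := by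
  constructor
  · intro h
    refine ⟨funext fun a => congrFun h (Sum.inl a), funext fun g => ?_⟩
    rw [← rvt_helt_inr, ← rvt_helt_inr]
    exact congrFun h (Sum.inr g)
  · rintro ⟨h1, h2⟩
    funext a
    rcases a with a | g
    · exact congrFun h1 a
    · have h3 := congrFun h2 g
      rw [← rvt_helt_inr, ← rvt_helt_inr] at h3
      exact h3

theorem rvt_helt_mono (x : ℕ → F) (P : ℕ → Finset F[X]) {i j : ℕ} (hij : i ≤ j)
    {φ ψ : Pt k Ω F} (h : rvt (helt x P j) φ = rvt (helt x P j) ψ) :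
    rvt (helt x P i) φ = rvt (helt x P i) ψ := by
  induction j, hij using Nat.le_induction with
  | base => exact h
  | succ j _ ih => exact ih ((rvt_helt_succ_iff x P j φ ψ).1 h).1

variable {x : ℕ → F} {N : ℕ} {P : ℕ → Finset F[X]}

theorem Twr.helt_mem (hP : Twr k Ω x N P) {i : ℕ} (hi : i ≤ N) (a : Idx P i) :
    helt x P i a ∈ lev k x i := by
  induction i with
  | zero => exact PEmpty.elim a
  | succ i ih =>
    rcases a with a | g
    · have h1 : lev k x i ≤ lev k x (i + 1) :=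
        IntermediateField.adjoin.mono _ _ _ (Set.image_mono fun _ hj => Nat.lt_succ_of_lt hj)
      exact h1 (ih (by omega) a)
    · exact eval_mem_lev (hP.coeff i (by omega) g.1 g.2)

theorem Twr.rvt_congr (hP : Twr k Ω x N P) {i : ℕ} (hi : i ≤ N) {φ ψ : Pt k Ω F}
    (h : ∀ j < i, φ (x j) = ψ (x j)) : rvt (helt x P i) φ = rvt (helt x P i) ψ := by
  funext a
  exact congrArg rv (agree_lev h (hP.helt_mem hi a))

theorem Twr.dc (hP : Twr k Ω x N P) {i : ℕ} (hi : i < N) (φ : Pt k Ω F) : DC (qf (P i) φ) := by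
  refine ⟨fun g => ?_, fun g => ?_, ?_⟩
  · exact (Polynomial.map_ne_zero_iff (φ : F →+* HahnSeries ℚ Ω).injective).2 (hP.ne i hi g.1 g.2)
  · by_cases h : derivative g.1 = 0
    · left
      unfold qf
      rw [derivative_map, h, Polynomial.map_zero]
    · right
      refine ⟨⟨derivative g.1, hP.der i hi g.1 g.2 h⟩, ?_⟩
      unfold qf
      exact (derivative_map g.1 _).symm
  · refine ⟨⟨X, hP.X_mem i hi⟩, ?_⟩
    unfold qf
    exact Polynomial.map_X _

/-! ### generic values and roots -/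

omit [IsAlgClosed k] [CharZero k] in
/-- Lift of a polynomial to a subfield. -/
theorem ub_lift {E : IntermediateField (HahnSeries ℚ k) F} {g : F[X]} (hg : ∀ n, g.coeff n ∈ E) :
    ∃ g' : E[X], g'.map (algebraMap E F) = g := by
  have h1 : g ∈ lifts (algebraMap E F) :=
    (lifts_iff_coeff_lifts g).2 fun n => ⟨⟨g.coeff n, hg n⟩, rfl⟩
  exact (mem_lifts g).1 h1

theorem not_algO {E : IntermediateField (HahnSeries ℚ k) F} {y : F} (hy : Transcendental E y)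
    (φ : Pt k Ω F) : ¬ AlgO φ E (φ y) := by
  rintro ⟨g, hg, hgE, hgy⟩
  obtain ⟨g', rfl⟩ := ub_lift hgE
  refine hy ⟨g', fun h => hg (by rw [h, Polynomial.map_zero]), ?_⟩
  have h1 : (φ : F →+* HahnSeries ℚ Ω) ((g'.map (algebraMap E F)).eval y) = 0 :=
    (eval_map_apply (φ : F →+* HahnSeries ℚ Ω) y).symm.trans hgy
  rw [map_eq_zero, eval_map] at h1
  rw [aeval_def]
  exact h1

theorem AlgO.congr {i : ℕ} {φ ψ : Pt k Ω F} (h : ∀ j < i, φ (x j) = ψ (x j))
    {y : HahnSeries ℚ Ω} (hy : AlgO φ (lev k x i) y) : AlgO ψ (lev k x i) y := by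
  exact (algO_congr fun e he => agree_lev h he).1 hy

theorem Twr.not_mem_Rq (hP : Twr k Ω x N P) {i : ℕ} (hi : i < N) {φ : Pt k Ω F}
    {y : HahnSeries ℚ Ω} (hy : ¬ AlgO φ (lev k x i) y) : y ∉ Rq (qf (P i) φ) := by
  rintro ⟨g, hg⟩
  exact hy ⟨g.1, hP.ne i hi g.1 g.2, hP.coeff i hi g.1 g.2, hg⟩

theorem Twr.mem_Rq (hP : Twr k Ω x N P) {i : ℕ} (hi : i < N)
    (hx : IsAlgebraic (lev k x i) (x i)) (φ : Pt k Ω F) : φ (x i) ∈ Rq (qf (P i) φ) := by
  refine ⟨⟨_, hP.min i hi hx⟩, ?_⟩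
  have h1 : ((minpoly (lev k x i) (x i)).map (algebraMap (lev k x i) F)).eval (x i) = 0 := by
    rw [eval_map, ← aeval_def, minpoly.aeval]
  have h2 := eval_map_apply (p := (minpoly (lev k x i) (x i)).map (algebraMap (lev k x i) F))
    (φ : F →+* HahnSeries ℚ Ω) (x i)
  rw [h1, map_zero] at h2
  exact h2

/-- Two points over the same values of the level `< i`: a value of `x i` over the second point with
the same vector of values (U4a). -/
theorem Twr.step (hΩ : ℵ₀ ≤ Algebra.trdeg k Ω) (hF : Algebra.trdeg (HahnSeries ℚ k) F < ℵ₀)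
    (hP : Twr k Ω x N P) {i : ℕ} (hi : i < N) {φ ψ : Pt k Ω F}
    (h : rvt (helt x P i) φ = rvt (helt x P i) ψ) :
    ∃ φ' : Pt k Ω F, (∀ j < i, φ' (x j) = φ (x j)) ∧
      rvt (helt x P (i + 1)) φ' = rvt (helt x P (i + 1)) ψ := by
  obtain ⟨β, hβ⟩ := hP.unif i hi ψ φ h.symm
  have key : ∀ y : HahnSeries ℚ Ω, rq (qf (P i) φ) y = rq (qf (P i) ψ) (ψ (x i)) →
      (∃ φ' : Pt k Ω F, (∀ e ∈ lev k x i, φ' e = φ e) ∧ φ' (x i) = y) →
      ∃ φ' : Pt k Ω F, (∀ j < i, φ' (x j) = φ (x j)) ∧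
        rvt (helt x P (i + 1)) φ' = rvt (helt x P (i + 1)) ψ := by
    rintro y hy ⟨φ', h1, h2⟩
    have h3 : ∀ j < i, φ' (x j) = φ (x j) := fun j hj =>
      h1 _ (IntermediateField.subset_adjoin _ _ ⟨j, hj, rfl⟩)
    refine ⟨φ', h3, (rvt_helt_succ_iff x P i φ' ψ).2 ⟨(hP.rvt_congr (by omega) h3).trans h, ?_⟩⟩
    rw [qf_congr h3 (hP.coeff i hi), h2, hy]
  by_cases hx : IsAlgebraic (lev k x i) (x i)
  · have h1 : ψ (x i) ∈ Rq (qf (P i) ψ) := hP.mem_Rq hi hx ψ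
    have h2 : rq (qf (P i) φ) (β (ψ (x i))) = rq (qf (P i) ψ) (ψ (x i)) :=
      hβ.rq_root (hP.dc hi ψ) (hP.dc hi φ) h1
    refine key _ h2 (ext_A hΩ hF (lev k x i) φ (x i) hx _ ?_)
    have h3 : ((minpoly (lev k x i) (x i)).map (algebraMap (lev k x i) F)).eval (x i) = 0 := by
      rw [eval_map, ← aeval_def, minpoly.aeval]
    have h4 := eval_map_apply (p := (minpoly (lev k x i) (x i)).map (algebraMap (lev k x i) F))
      (ψ : F →+* HahnSeries ℚ Ω) (x i)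
    rw [h3, map_zero] at h4
    have h5 := congrFun h2 ⟨_, hP.min i hi hx⟩
    exact (zero_iff_of_rv h5).2 h4
  · obtain ⟨y', hy', h1, -⟩ := hβ.rq_transfer (hP.dc hi ψ) (hP.dc hi φ)
      (hP.not_mem_Rq hi (not_algO hx ψ))
    have hfin : (Rq (qf (P i) φ)).Finite := by
      have h2 : Rq (qf (P i) φ) = ⋃ g : {g // g ∈ P i}, {ρ | (qf (P i) φ g).IsRoot ρ} := by
        ext ρ
        rw [Set.mem_iUnion]
        rfl
      rw [h2]
      refine Set.finite_iUnion fun g => ?_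
      exact Polynomial.finite_setOf_isRoot ((hP.dc hi φ).ne g)
    obtain ⟨r, hr⟩ := (hfin.image fun ρ => (y' - ρ).order).bddAbove
    obtain ⟨y'', h2, h3⟩ := exists_gen_disc hΩ hF φ y' r
    have h4 : ¬ AlgO φ (lev k x i) y'' := fun h => h3 (h.mono le_top)
    have h5 : rq (qf (P i) φ) y' = rq (qf (P i) φ) y'' := by
      refine (rq_eq_iff (qf (P i) φ) (hP.dc hi φ) y' y'' hy' (hP.not_mem_Rq hi h4)).2
        fun ρ hρ => ?_
      have h6 : y' - ρ ≠ 0 := fun h0 => hy' (by rw [sub_eq_zero.1 h0]; exact hρ)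
      rw [← HahnSeries.order_eq_orderTop_of_ne_zero h6]
      have h7 : (y' - ρ).order ≤ r := hr ⟨ρ, hρ, rfl⟩
      have h8 : (y' - y'').orderTop = (y'' - y').orderTop := by
        rw [← HahnSeries.orderTop_neg, neg_sub]
      rw [h8]
      exact lt_of_le_of_lt (WithTop.coe_le_coe.2 h7) h2
    exact key y'' (h5.symm.trans h1) (ext_T hΩ hF (lev k x i) φ (x i) hx y'' h4)

/-- U4b. -/
theorem Twr.extend (hΩ : ℵ₀ ≤ Algebra.trdeg k Ω) (hF : Algebra.trdeg (HahnSeries ℚ k) F < ℵ₀)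
    (hP : Twr k Ω x N P) {i m : ℕ} (him : i ≤ m) (hm : m ≤ N) {φ ψ : Pt k Ω F}
    (h : rvt (helt x P i) φ = rvt (helt x P i) ψ) :
    ∃ φ' : Pt k Ω F, (∀ j < i, φ' (x j) = φ (x j)) ∧
      rvt (helt x P m) φ' = rvt (helt x P m) ψ := by
  induction m, him using Nat.le_induction with
  | base => exact ⟨φ, fun _ _ => rfl, h⟩
  | succ m him ih =>
    obtain ⟨φ₁, h1, h2⟩ := ih (by omega)
    obtain ⟨φ', h3, h4⟩ := hP.step hΩ hF (show m < N by omega) h2
    exact ⟨φ', fun j hj => (h3 j (by omega)).trans (h1 j hj), h4⟩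

private theorem ub_radius {α : Type v} [Finite α] {q : α → (HahnSeries ℚ Ω)[X]} (hq : DC q)
    {y₀ : HahnSeries ℚ Ω} (hy₀ : y₀ ∉ Rq q) :
    ∃ r : ℚ, ∀ y : HahnSeries ℚ Ω, (∀ ρ ∈ Rq q, (y₀ - ρ).orderTop < (y₀ - y).orderTop) ↔
      y ∈ OD y₀ r := by
  have hfin : (Rq q).Finite := by
    have h1 : Rq q = ⋃ a, {ρ | (q a).IsRoot ρ} := by
      ext ρ
      simp [Rq]
    rw [h1]
    exact Set.finite_iUnion fun a => Polynomial.finite_setOfPred_isRoot (hq.ne a)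
  have hne : (Rq q).Nonempty := by
    obtain ⟨a, ha⟩ := hq.X_mem
    refine ⟨0, a, ?_⟩
    rw [ha, IsRoot.def, eval_X]
  obtain ⟨ρ₀, hρ₀, hmax⟩ := Set.exists_max_image (Rq q) (fun ρ => (y₀ - ρ).orderTop) hfin hne
  have h0 : y₀ - ρ₀ ≠ 0 := fun h => hy₀ (sub_eq_zero.1 h ▸ hρ₀)
  refine ⟨(y₀ - ρ₀).order, fun y => ?_⟩
  have hcoe := HahnSeries.order_eq_orderTop_of_ne_zero h0
  have hsymm : (y₀ - y).orderTop = (y - y₀).orderTop := by
    rw [← HahnSeries.orderTop_neg, neg_sub]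
  constructor
  · intro h
    change (((y₀ - ρ₀).order : ℚ) : WithTop ℚ) < (y - y₀).orderTop
    rw [hcoe, ← hsymm]
    exact h ρ₀ hρ₀
  · intro h ρ hρ
    have h1 : (((y₀ - ρ₀).order : ℚ) : WithTop ℚ) < (y - y₀).orderTop := h
    rw [hcoe, ← hsymm] at h1
    exact lt_of_le_of_lt (hmax ρ hρ) h1

/-- The values of `x i` on a fibre, transcendental level. -/
theorem Twr.V_fibre_T (hΩ : ℵ₀ ≤ Algebra.trdeg k Ω)
    (hF : Algebra.trdeg (HahnSeries ℚ k) F < ℵ₀) (hP : Twr k Ω x N P) {i : ℕ} (hi : i < N)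
    (hx : Transcendental (lev k x i) (x i)) (φ : Pt k Ω F) :
    V x {ψ : Pt k Ω F | rvt (helt x P N) ψ = rvt (helt x P N) φ} i φ =
      {y | rq (qf (P i) φ) y = rq (qf (P i) φ) (φ (x i)) ∧ ¬ AlgO φ (lev k x i) y} := by
  ext y
  constructor
  · rintro ⟨ψ, hψ, hj, rfl⟩
    have h1 : rvt (helt x P (i + 1)) ψ = rvt (helt x P (i + 1)) φ := rvt_helt_mono x P hi hψ
    have h2 := ((rvt_helt_succ_iff x P i ψ φ).1 h1).2
    rw [qf_congr hj (hP.coeff i hi)] at h2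
    refine ⟨h2, fun h3 => ?_⟩
    exact not_algO hx ψ (AlgO.congr (fun j hj' => (hj j hj').symm) h3)
  · rintro ⟨h1, h2⟩
    obtain ⟨ψ, h3, h4⟩ := ext_T hΩ hF (lev k x i) φ (x i) hx y h2
    have h5 : ∀ j < i, ψ (x j) = φ (x j) := fun j hj =>
      h3 _ (IntermediateField.subset_adjoin _ _ ⟨j, hj, rfl⟩)
    have h6 : rvt (helt x P (i + 1)) ψ = rvt (helt x P (i + 1)) φ := by
      rw [rvt_helt_succ_iff]
      refine ⟨hP.rvt_congr hi.le h5, ?_⟩
      rw [qf_congr h5 (hP.coeff i hi), h4]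
      exact h1
    obtain ⟨φ', h7, h8⟩ := Twr.extend hΩ hF hP (Nat.succ_le_of_lt hi) le_rfl h6
    refine ⟨φ', h8, fun j hj => ?_, ?_⟩
    · rw [h7 j (Nat.lt_succ_of_lt hj), h5 j hj]
    · rw [h7 i (Nat.lt_succ_self i), h4]

/-- U6: the fibres of a uniform tower are nested polydiscs. -/
theorem Twr.npd (hΩ : ℵ₀ ≤ Algebra.trdeg k Ω) (hF : Algebra.trdeg (HahnSeries ℚ k) F < ℵ₀)
    (hP : Twr k Ω x N P) (φ : Pt k Ω F) :
    NPd x N {ψ : Pt k Ω F | rvt (helt x P N) ψ = rvt (helt x P N) φ} := by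
  constructor
  · intro i hi hx φ' hφ'
    have hfib : {ψ : Pt k Ω F | rvt (helt x P N) ψ = rvt (helt x P N) φ} =
        {ψ : Pt k Ω F | rvt (helt x P N) ψ = rvt (helt x P N) φ'} := by
      have h2 : rvt (helt x P N) φ' = rvt (helt x P N) φ := hφ'
      rw [h2]
    rw [hfib, Twr.V_fibre_T hΩ hF hP hi hx φ']
    have hdc := hP.dc hi φ'
    have hy₀ : φ' (x i) ∉ Rq (qf (P i) φ') := hP.not_mem_Rq hi (not_algO hx φ')
    obtain ⟨r, hr⟩ := ub_radius hdc hy₀
    refine ⟨φ' (x i), r, ?_⟩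
    ext y
    constructor
    · rintro ⟨h1, h2⟩
      refine ⟨(hr y).1 ?_, h2⟩
      exact (rq_eq_iff _ hdc _ _ hy₀ (hP.not_mem_Rq hi h2)).1 h1.symm
    · rintro ⟨h1, h2⟩
      refine ⟨?_, h2⟩
      exact ((rq_eq_iff _ hdc _ _ hy₀ (hP.not_mem_Rq hi h2)).2 ((hr y).2 h1)).symm
  · intro i hi hx φ' hφ'
    have key : ∀ ψ : Pt k Ω F, rvt (helt x P N) ψ = rvt (helt x P N) φ →
        (∀ j < i, ψ (x j) = φ' (x j)) → φ' (x i) = ψ (x i) := by
      intro ψ hψ hj
      have h0 : rvt (helt x P N) ψ = rvt (helt x P N) φ' := hψ.trans (Eq.symm hφ')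
      have h1 : rvt (helt x P (i + 1)) ψ = rvt (helt x P (i + 1)) φ' := rvt_helt_mono x P hi h0
      have h2 := ((rvt_helt_succ_iff x P i ψ φ').1 h1).2
      rw [qf_congr hj (hP.coeff i hi)] at h2
      exact rq_inj _ (hP.dc hi φ') _ _ (hP.mem_Rq hi hx φ') h2.symm
    rintro _ ⟨ψ, h1, h2, rfl⟩ _ ⟨ψ', h1', h2', rfl⟩
    rw [← key ψ h1 h2, ← key ψ' h1' h2']

end UB

end

end KTS
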