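import Pool.Agent.KTS.K2
import Pool.Agent.KTS.Defs

/-!
[KTS-X] Exchange of two consecutive levels (S1 of KTS_h19.md, §7 of KTS_paper.md).  DEFINITIONS.
`E` = level `< i`, `M = E(x)` = level `< i + 1`, `P` = family of level `i` (over `E`), `P'` = family of level `i + 1`
(over `M`), `N` = splitting field of `P'` over `M`, `T` = roots of `P'` in `N`, `d` = derivation of `N` over `E` with `d x = 1`.
-/

set_option autoImplicit false

namespace KTS.X

noncomputable section

universe u

open Polynomial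

section Core

variable {Ω : Type u} [Field Ω]
  {E M N : Type u} [Field E] [CharZero E] [Field M] [CharZero M] [Field N]
  [Algebra E M] [Algebra M N] [Algebra E N] [IsScalarTower E M N] [FiniteDimensional M N]

/-- The environment of the exchange. -/
structure ExHyp (x : M) (q : Polynomial M) (T : Finset N) (d : Derivation E N N) (S : Finset N)
    (P : Finset (Polynomial E)) (P' : Finset (Polynomial M)) : Prop where
  br : BrHyp x q T d S P
  X_P : X ∈ P
  der_P : ∀ p ∈ P, derivative p ≠ 0 → derivative p ∈ P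
  ne' : ∀ g ∈ P', g ≠ 0
  X_P' : X ∈ P'
  der_P' : ∀ g ∈ P', derivative g ≠ 0 → derivative g ∈ P'
  fac : ∀ g ∈ P', ∃ m : Multiset N, (∀ ρ ∈ m, ρ ∈ T) ∧
    g.map (algebraMap M N) =
      C (algebraMap M N g.leadingCoeff) * (m.map fun ρ => X - C ρ).prod
  T_root : ∀ ρ ∈ T, ∃ g ∈ P', (g.map (algebraMap M N)).IsRoot ρ
  lead : ∀ g ∈ P', QuoP P x g.leadingCoeff

/-- The environment of the exchange, `N` and the rest hidden. -/
def Env (x : M) (P : Finset (Polynomial E)) (P' : Finset (Polynomial M)) : Prop :=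
  ∃ (N : Type u) (_ : Field N) (_ : Algebra M N) (_ : Algebra E N) (_ : IsScalarTower E M N)
    (_ : FiniteDimensional M N) (q : Polynomial M) (T : Finset N) (d : Derivation E N N)
    (S : Finset N), ExHyp x q T d S P P'

/-- The pair `(x₂, y₂)` has the same values as `(φ x, y₁)` at the two levels. -/
def Adm (x : M) (P : Finset (Polynomial E)) (P' : Finset (Polynomial M))
    (φ : M →+* HahnSeries ℚ Ω) (y₁ x₂ y₂ : HahnSeries ℚ Ω) : Prop :=
  (∀ p ∈ P, rv (p.eval₂ (φ.comp (algebraMap E M)) x₂) =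
    rv (p.eval₂ (φ.comp (algebraMap E M)) (φ x))) ∧
  ∃ ψ : M →+* HahnSeries ℚ Ω, ψ.comp (algebraMap E M) = φ.comp (algebraMap E M) ∧ ψ x = x₂ ∧
    ∀ g ∈ P', rv (g.eval₂ ψ y₂) = rv (g.eval₂ φ y₁)

/-- `x, y` are algebraically independent over the image of `φ`. -/
def Ind2 (φ : E →+* HahnSeries ℚ Ω) (x y : HahnSeries ℚ Ω) : Prop :=
  ∀ g : Polynomial (Polynomial E), g ≠ 0 → g.eval₂ (eval₂RingHom φ x) y ≠ 0

end Core

section Lift

variable {k F : Type u} [Field k] [Field F] [Algebra (HahnSeries ℚ k) F]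

open Classical in
/-- Lift of a polynomial with coefficients in the subfield `L`. -/
def lft (L : IntermediateField (HahnSeries ℚ k) F) (g : F[X]) : Polynomial L :=
  ∑ n ∈ g.support, monomial n (if h : g.coeff n ∈ L then (⟨g.coeff n, h⟩ : L) else 0)

open Classical in
/-- Lift of a finite set of polynomials. -/
def lftS (L : IntermediateField (HahnSeries ℚ k) F) (P : Finset F[X]) : Finset (Polynomial L) :=
  P.image (lft L)

theorem lev_le (x : ℕ → F) (i : ℕ) : lev k x i ≤ lev k x (i + 1) :=
  IntermediateField.adjoin.mono _ _ _ (Set.image_mono fun _ hj => Nat.lt_succ_of_lt hj)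

theorem mem_lev (x : ℕ → F) (i : ℕ) : x i ∈ lev k x (i + 1) :=
  IntermediateField.subset_adjoin _ _ ⟨i, Nat.lt_succ_self i, rfl⟩

variable (k) in
/-- The inclusion of consecutive levels as an algebra. -/
@[reducible] def levAlg (x : ℕ → F) (i : ℕ) : Algebra (lev k x i) (lev k x (i + 1)) :=
  ((IntermediateField.inclusion (lev_le x i) : lev k x i →ₐ[HahnSeries ℚ k] lev k x (i + 1)) :
    lev k x i →+* lev k x (i + 1)).toAlgebra

end Lift

end

end KTS.X
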