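import Pool.Agent.KTS.Nd89

/-!
[KTS-X1] The families of the two levels at coherent points.
-/

set_option autoImplicit false

namespace KTS.X

noncomputable section

universe u

open Polynomial

variable {Ω : Type u} [Field Ω] [CharZero Ω] [IsAlgClosed Ω]
  {E M N : Type u} [Field E] [CharZero E] [Field M] [CharZero M] [Field N]
  [Algebra E M] [Algebra M N] [Algebra E N] [IsScalarTower E M N] [FiniteDimensional M N]
  {x : M} {q : Polynomial M} {T : Finset N} {d : Derivation E N N} {S : Finset N}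
  {P : Finset (Polynomial E)} {P' : Finset (Polynomial M)}

omit [CharZero Ω] [IsAlgClosed Ω] [CharZero E] [CharZero M] in
private theorem x1a_prod {α : Type u} (m : Multiset α) (f g : α → HahnSeries ℚ Ω)
    (h : ∀ a ∈ m, rv (f a) = rv (g a)) : rv (m.map f).prod = rv (m.map g).prod := by
  induction m using Multiset.induction_on with
  | empty => simp
  | cons a s ih =>
    rw [Multiset.map_cons, Multiset.map_cons, Multiset.prod_cons, Multiset.prod_cons]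
    exact rv_mul_congr (h a (Multiset.mem_cons_self a s))
      (ih fun b hb => h b (Multiset.mem_cons_of_mem hb))

omit [CharZero Ω] [IsAlgClosed Ω] [CharZero M] in
private theorem x1a_eval (ψ : N →+* HahnSeries ℚ Ω) (y : HahnSeries ℚ Ω) (g : Polynomial M)
    (m : Multiset N) (hg : g.map (algebraMap M N) =
      C (algebraMap M N g.leadingCoeff) * (m.map fun ρ => X - C ρ).prod) :
    g.eval₂ (ψ.comp (algebraMap M N)) y =
      ψ (algebraMap M N g.leadingCoeff) * (m.map fun ρ => y - ψ ρ).prod := by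
  rw [← eval₂_map, hg, eval₂_mul, eval₂_C]
  congr 1
  have h1 := map_multiset_prod (eval₂RingHom ψ y) (m.map fun ρ => (X - C ρ : Polynomial N))
  rw [Multiset.map_map] at h1
  rw [coe_eval₂RingHom] at h1
  rw [h1]
  congr 1
  refine Multiset.map_congr rfl fun ρ _ => ?_
  simp

/-- Values of the upper level at matching points. Proof: `g.eval₂ (ψ₂|M) y₂ = ψ₂(lead g) * ∏_{ρ ∈ m} (y₂ - ψ₂ ρ)` by
`fac`; `rv` of a product depends only on the `rv` of the factors (`rv_mul_congr`). -/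
theorem fam_match (h : ExHyp x q T d S P P') (ψ₁ ψ₂ : N →+* HahnSeries ℚ Ω)
    (hl : ∀ g ∈ P', rv (ψ₂ (algebraMap M N g.leadingCoeff)) =
      rv (ψ₁ (algebraMap M N g.leadingCoeff)))
    (y₁ y₂ : HahnSeries ℚ Ω) (hm : ∀ ρ ∈ T, rv (y₂ - ψ₂ ρ) = rv (y₁ - ψ₁ ρ)) :
    ∀ g ∈ P', rv (g.eval₂ (ψ₂.comp (algebraMap M N)) y₂) =
      rv (g.eval₂ (ψ₁.comp (algebraMap M N)) y₁) := by
  intro g hg
  obtain ⟨m, hm1, hfac⟩ := h.fac g hg
  rw [x1a_eval ψ₂ y₂ g m hfac, x1a_eval ψ₁ y₁ g m hfac]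
  exact rv_mul_congr (hl g hg) (x1a_prod m _ _ fun ρ hρ => hm ρ (hm1 ρ hρ))

/-- A matching point from a nearest root `ρ₀` of `y₁`. Proof: `ψ₂ ρ₀ + z - ψ₂ ρ = z + ψ₂ (ρ₀ - ρ)`, where
`rv z = rv (y₁ - ψ₁ ρ₀)` and `rv (ψ₂ (ρ₀ - ρ)) = rv (ψ₁ (ρ₀ - ρ))` (`diff`), `ρ ≠ ρ₀`. `y₁ - ψ₁ ρ =
(y₁ - ψ₁ ρ₀) + ψ₁ (ρ₀ - ρ)` has `orderTop ≤` that of `y₁ - ψ₁ ρ₀`, so no cancellation to higher order takes place:
if `v(ψ₁(ρ₀ - ρ)) < v(y₁ - ψ₁ρ₀)` both sides have the `rv` of `ψ₁ (ρ₀ - ρ)`; if equal, the leading coefficients do not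
cancel; if `v(ψ₁(ρ₀-ρ)) > v(y₁ - ψ₁ρ₀)` both have the `rv` of `y₁ - ψ₁ ρ₀` (`rv_add_congr`). -/
theorem match_near (h : ExHyp x q T d S P P') (ψ₁ ψ₂ : N →+* HahnSeries ℚ Ω)
    (hS : ∀ s ∈ S, rv (ψ₂ s) = rv (ψ₁ s)) (y₁ z : HahnSeries ℚ Ω) (ρ₀ : N) (hρ₀ : ρ₀ ∈ T)
    (hn : ∀ ρ ∈ T, (y₁ - ψ₁ ρ).orderTop ≤ (y₁ - ψ₁ ρ₀).orderTop)
    (hz : rv z = rv (y₁ - ψ₁ ρ₀)) :
    ∀ ρ ∈ T, rv (ψ₂ ρ₀ + z - ψ₂ ρ) = rv (y₁ - ψ₁ ρ) := by
  intro ρ hρ
  by_cases hne : ρ₀ = ρ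
  · rw [← hne, add_sub_cancel_left]
    exact hz
  have hb : rv (ψ₂ (ρ₀ - ρ)) = rv (ψ₁ (ρ₀ - ρ)) := hS _ (h.br.diff ρ₀ hρ₀ ρ hρ hne)
  have h1 : ψ₂ ρ₀ + z - ψ₂ ρ = z + ψ₂ (ρ₀ - ρ) := by rw [map_sub]; ring
  have h2 : y₁ - ψ₁ ρ = (y₁ - ψ₁ ρ₀) + ψ₁ (ρ₀ - ρ) := by rw [map_sub]; ring
  have h3 := hn ρ hρ
  rw [h1, h2]
  rw [h2] at h3
  refine (rv_add_congr hz.symm hb.symm ?_).symm
  by_contra hcon
  push Not at hcon
  obtain ⟨ho, hc⟩ := hcon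
  have hb0 : ψ₁ (ρ₀ - ρ) ≠ 0 := by
    intro h4
    exact hne (sub_eq_zero.1 (ψ₁.injective (by rw [h4, map_zero])))
  have ha0 : y₁ - ψ₁ ρ₀ ≠ 0 := by
    intro h4
    rw [h4, HahnSeries.orderTop_zero] at ho
    exact hb0 (HahnSeries.orderTop_eq_top.1 ho.symm)
  have h5 : (y₁ - ψ₁ ρ₀).order = (ψ₁ (ρ₀ - ρ)).order := by
    have := ho
    rw [← HahnSeries.order_eq_orderTop_of_ne_zero ha0,
      ← HahnSeries.order_eq_orderTop_of_ne_zero hb0, WithTop.coe_inj] at this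
    exact this
  have h6 : rv (y₁ - ψ₁ ρ₀) = rv (-(ψ₁ (ρ₀ - ρ))) := by
    rw [rv_neg]
    refine Prod.ext ?_ ?_
    · exact eq_neg_of_add_eq_zero_left hc
    · exact h5
  have h7 := lt_of_rv_eq h6 ha0
  rw [sub_neg_eq_add] at h7
  exact absurd h3 (not_le.2 h7)

/-- The fibre of the upper level. Proof: `(⟸)` `fam_match` and `match_near` with `z = y₂ - ψ₂ ρ₀`
(`rv_eq_of_lt`; the two alternatives). `(⟹)` Put `y₃ = ψ₂ ρ₀ + (y₁ - ψ₁ ρ₀)`; by the first part the values at `y₃` are those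
at `y₁`, hence those at `y₂`; `Nd.disc` for the family `g ↦ g.map (ψ₂|M)`, `g ∈ P'` (closed under derivative): `y₃ = y₂` or
`v(y₃ - ψ₂ ρ) < v(y₃ - y₂)` for all `ρ ∈ T` (`T_root`), in particular for `ρ₀`. -/
theorem fam_iff (h : ExHyp x q T d S P P') (ψ₁ ψ₂ : N →+* HahnSeries ℚ Ω)
    (hS : ∀ s ∈ S, rv (ψ₂ s) = rv (ψ₁ s))
    (hl : ∀ g ∈ P', rv (ψ₂ (algebraMap M N g.leadingCoeff)) =
      rv (ψ₁ (algebraMap M N g.leadingCoeff)))
    (y₁ y₂ : HahnSeries ℚ Ω) (ρ₀ : N) (hρ₀ : ρ₀ ∈ T)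
    (hn : ∀ ρ ∈ T, (y₁ - ψ₁ ρ).orderTop ≤ (y₁ - ψ₁ ρ₀).orderTop) :
    (∀ g ∈ P', rv (g.eval₂ (ψ₂.comp (algebraMap M N)) y₂) =
      rv (g.eval₂ (ψ₁.comp (algebraMap M N)) y₁)) ↔
    (y₂ - ψ₂ ρ₀ = y₁ - ψ₁ ρ₀ ∨
      (y₁ - ψ₁ ρ₀).orderTop < (y₂ - ψ₂ ρ₀ - (y₁ - ψ₁ ρ₀)).orderTop) := by
  have key : ∀ z : HahnSeries ℚ Ω, rv z = rv (y₁ - ψ₁ ρ₀) → ∀ g ∈ P',
      rv (g.eval₂ (ψ₂.comp (algebraMap M N)) (ψ₂ ρ₀ + z)) =
        rv (g.eval₂ (ψ₁.comp (algebraMap M N)) y₁) := fun z hz =>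
    fam_match h ψ₁ ψ₂ hl y₁ (ψ₂ ρ₀ + z) (match_near h ψ₁ ψ₂ hS y₁ z ρ₀ hρ₀ hn hz)
  constructor
  · intro hv
    have h3 := key (y₁ - ψ₁ ρ₀) rfl
    have hd := Nd.disc (fun g : {g // g ∈ P'} => g.1.map (ψ₂.comp (algebraMap M N)))
      (fun g => (Polynomial.map_ne_zero_iff (ψ₂.comp (algebraMap M N)).injective).2
        (h.ne' g.1 g.2))
      (fun g => by
        by_cases h0 : derivative g.1 = 0
        · left
          rw [derivative_map, h0, Polynomial.map_zero]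
        · right
          exact ⟨⟨derivative g.1, h.der_P' g.1 g.2 h0⟩, by rw [derivative_map]⟩)
      (ψ₂ ρ₀ + (y₁ - ψ₁ ρ₀)) y₂ (fun g => by
        rw [eval_map, eval_map, h3 g.1 g.2, hv g.1 g.2])
    rcases hd with hd | hd
    · left
      rw [← hd]
      ring
    · right
      obtain ⟨g, hg, hgr⟩ := h.T_root ρ₀ hρ₀
      have hmem : ψ₂ ρ₀ ∈ Rq (fun g : {g // g ∈ P'} => g.1.map (ψ₂.comp (algebraMap M N))) := by
        refine ⟨⟨g, hg⟩, ?_⟩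
        rw [IsRoot.def, eval_map] at hgr
        rw [IsRoot.def, eval_map]
        have e := congrArg ψ₂ hgr
        rw [hom_eval₂, map_zero] at e
        exact e
      have h4 := hd _ hmem
      have e1 : ψ₂ ρ₀ + (y₁ - ψ₁ ρ₀) - ψ₂ ρ₀ = y₁ - ψ₁ ρ₀ := by ring
      have e2 : ψ₂ ρ₀ + (y₁ - ψ₁ ρ₀) - y₂ = -(y₂ - ψ₂ ρ₀ - (y₁ - ψ₁ ρ₀)) := by ring
      rw [e1, e2, HahnSeries.orderTop_neg] at h4
      exact h4
  · intro hc
    have hz : rv (y₂ - ψ₂ ρ₀) = rv (y₁ - ψ₁ ρ₀) := by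
      rcases hc with hc | hc
      · rw [hc]
      · refine (rv_eq_of_lt ?_).symm
        have e : y₁ - ψ₁ ρ₀ - (y₂ - ψ₂ ρ₀) = -(y₂ - ψ₂ ρ₀ - (y₁ - ψ₁ ρ₀)) := by ring
        rw [e, HahnSeries.orderTop_neg]
        exact hc
    have h3 := key _ hz
    have e : ψ₂ ρ₀ + (y₂ - ψ₂ ρ₀) = y₂ := by ring
    rw [e] at h3
    exact h3

/-- `T` is not empty (`0 ∈ T`, because `X ∈ P'`), so a nearest root exists. -/
theorem exists_near (h : ExHyp x q T d S P P') (ψ₁ : N →+* HahnSeries ℚ Ω)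
    (y₁ : HahnSeries ℚ Ω) :
    ∃ ρ₀ ∈ T, ∀ ρ ∈ T, (y₁ - ψ₁ ρ).orderTop ≤ (y₁ - ψ₁ ρ₀).orderTop := by
  have hne : T.Nonempty := by
    obtain ⟨m, hm, e⟩ := h.fac X h.X_P'
    rcases Multiset.empty_or_exists_mem m with h0 | ⟨ρ, hρ⟩
    · exfalso
      rw [h0, Multiset.map_zero, Multiset.prod_zero, mul_one, leadingCoeff_X, map_one, map_one,
        Polynomial.map_X] at e
      have e' := congrArg natDegree e
      rw [natDegree_X, natDegree_one] at e'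
      exact one_ne_zero e'
    · exact ⟨ρ, hm ρ hρ⟩
  obtain ⟨ρ₀, hρ₀, hmax⟩ := T.exists_max_image (fun ρ => (y₁ - ψ₁ ρ).orderTop) hne
  exact ⟨ρ₀, hρ₀, hmax⟩

omit [CharZero E] in
/-- The radius of the lower level. Proof: `r` = the maximum of the `v(x₁ - a)`, `a` a root of some `φ(p)`, `p ∈ P`
(`0` is one of them because `X ∈ P`; `x₁` is not a root because it is transcendental over `φ(E)`). `(⟹)`: `Nd.disc` for the
family `p ↦ p.map φ`: `x₁ = x₂` (then `orderTop 0 = ⊤`) or `v(x₁ - a) < v(x₁ - x₂)` for all roots. `(⟸)`: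
`rv_eval_congr`. -/
theorem lev_radius (hX : X ∈ P) (hne : ∀ p ∈ P, p ≠ 0)
    (hder : ∀ p ∈ P, derivative p ≠ 0 → derivative p ∈ P) (φ : E →+* HahnSeries ℚ Ω)
    (x₁ : HahnSeries ℚ Ω) (hx₁ : TrO φ x₁) :
    ∃ r : ℚ, (∀ p ∈ P, ∀ a ∈ (p.map φ).roots, (x₁ - a).orderTop ≤ (r : WithTop ℚ)) ∧
      ∀ x₂ : HahnSeries ℚ Ω, (∀ p ∈ P, rv (p.eval₂ φ x₂) = rv (p.eval₂ φ x₁)) ↔
        (r : WithTop ℚ) < (x₂ - x₁).orderTop := by
  classical
  set R : Finset (HahnSeries ℚ Ω) := P.biUnion fun p => (p.map φ).roots.toFinset with hR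
  have hmemR : ∀ a, a ∈ R ↔ ∃ p ∈ P, a ∈ (p.map φ).roots := by
    intro a
    rw [hR, Finset.mem_biUnion]
    simp only [Multiset.mem_toFinset]
  have hRne : R.Nonempty := by
    refine ⟨0, (hmemR 0).2 ⟨X, hX, ?_⟩⟩
    rw [Polynomial.map_X, roots_X, Multiset.mem_singleton]
  have hR0 : ∀ a ∈ R, x₁ - a ≠ 0 := by
    intro a ha h0
    obtain ⟨p, hp, ha⟩ := (hmemR a).1 ha
    rw [mem_roots', IsRoot.def, eval_map, ← sub_eq_zero.1 h0] at ha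
    exact hx₁ p (hne p hp) ha.2
  obtain ⟨a₀, ha₀, hmax⟩ := R.exists_max_image (fun a => (x₁ - a).order) hRne
  have hord : ∀ a ∈ R, (x₁ - a).orderTop = (((x₁ - a).order : ℚ) : WithTop ℚ) := fun a ha =>
    (HahnSeries.order_eq_orderTop_of_ne_zero (hR0 a ha)).symm
  have hle : ∀ p ∈ P, ∀ a ∈ (p.map φ).roots,
      (x₁ - a).orderTop ≤ (((x₁ - a₀).order : ℚ) : WithTop ℚ) := by
    intro p hp a ha
    have haR := (hmemR a).2 ⟨p, hp, ha⟩
    rw [hord a haR]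
    exact WithTop.coe_le_coe.2 (hmax a haR)
  refine ⟨(x₁ - a₀).order, hle, fun x₂ => ⟨fun hv => ?_, fun hlt p hp => ?_⟩⟩
  · have hd := Nd.disc (fun p : {p // p ∈ P} => p.1.map φ)
      (fun p => (Polynomial.map_ne_zero_iff φ.injective).2 (hne p.1 p.2))
      (fun p => by
        by_cases h0 : derivative p.1 = 0
        · left
          rw [derivative_map, h0, Polynomial.map_zero]
        · right
          exact ⟨⟨derivative p.1, hder p.1 p.2 h0⟩, by rw [derivative_map]⟩)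
      x₁ x₂ (fun p => by
        rw [eval_map, eval_map, hv p.1 p.2])
    rcases hd with hd | hd
    · rw [hd, sub_self, HahnSeries.orderTop_zero]
      exact WithTop.coe_lt_top _
    · obtain ⟨p, hp, ha⟩ := (hmemR a₀).1 ha₀
      have h4 := hd a₀ ⟨⟨p, hp⟩, (mem_roots'.1 ha).2⟩
      rw [hord a₀ ha₀] at h4
      have e : x₁ - x₂ = -(x₂ - x₁) := by ring
      rw [e, HahnSeries.orderTop_neg] at h4
      exact h4
  · have : CharZero (HahnSeries ℚ Ω) :=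
      charZero_of_injective_ringHom (f := (HahnSeries.C : Ω →+* HahnSeries ℚ Ω))
        HahnSeries.C_injective
    have h5 := rv_eval_congr (RingHom.id (HahnSeries ℚ Ω)) (p.map φ) x₁ x₂ (fun a ha => by
      rw [Polynomial.map_id] at ha
      exact lt_of_le_of_lt (hle p hp a ha) hlt)
    rw [eval₂_id, eval₂_id, eval_map, eval_map] at h5
    exact h5

omit [CharZero Ω] [IsAlgClosed Ω] in
theorem x1c_ext (h : BrHyp x q T d S P) (f g : M →+* HahnSeries ℚ Ω)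
    (h0 : f.comp (algebraMap E M) = g.comp (algebraMap E M)) (hx : f x = g x) : f = g := by
  let K : IntermediateField E M := (f.eqLocusField g).toIntermediateField (fun e => by
    show f (algebraMap E M e) = g (algebraMap E M e)
    exact RingHom.congr_fun h0 e)
  have hK : IntermediateField.adjoin E {x} ≤ K :=
    IntermediateField.adjoin_le_iff.2 (by rintro y rfl; exact hx)
  ext1 m
  have hm : m ∈ IntermediateField.adjoin E {x} := by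
    rw [h.gen]; exact IntermediateField.mem_top
  exact hK hm

omit [CharZero Ω] [IsAlgClosed Ω] in
theorem x1c_tr (h : BrHyp x q T d S P) (ψ : M →+* HahnSeries ℚ Ω) :
    TrO (ψ.comp (algebraMap E M)) (ψ x) := by
  intro g hg h0
  rw [← hom_eval₂] at h0
  have h1 : g.eval₂ (algebraMap E M) x = 0 := (map_eq_zero ψ).1 h0
  exact h.tr ⟨g, hg, by rwa [aeval_def]⟩

omit [CharZero Ω] [IsAlgClosed Ω] in
theorem x1c_lead (h : BrHyp x q T d S P) (ψ ψ' : M →+* HahnSeries ℚ Ω) (c : M)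
    (hc : QuoP P x c)
    (hP : ∀ p ∈ P, rv (p.eval₂ (ψ.comp (algebraMap E M)) (ψ x)) =
      rv (p.eval₂ (ψ'.comp (algebraMap E M)) (ψ' x))) : rv (ψ c) = rv (ψ' c) := by
  obtain ⟨a, ha, b, hb, hab⟩ := hc
  have key : ∀ χ : M →+* HahnSeries ℚ Ω,
      χ c = a.eval₂ (χ.comp (algebraMap E M)) (χ x) / b.eval₂ (χ.comp (algebraMap E M)) (χ x) := by
    intro χ
    rw [eq_div_iff (x1c_tr h χ b (h.P_ne b hb)), ← hom_eval₂, ← hom_eval₂, ← aeval_def,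
      ← aeval_def, ← map_mul, hab]
  rw [key ψ, key ψ']
  exact rv_div_congr (hP a ha) (hP b hb)

/-- Coherent embedding over an embedding `ψm` of `M` in the same fibre of the lower level.

Proof. `φ = ψ₁|E`, `x₁ = ψ₁ x`, `x₂ = ψm x`. If `x₂ = x₁` then `ψm = ψ₁|M` (`M = E(x)`, `gen`) and `ψ₂ = ψ₁`.
If `x₂ ≠ x₁`: `lev_radius` gives `v(x₁ - a) < v(x₂ - x₁)` for all roots `a` of the `φ(p)`; `TrO φ x₂` (`ψm` is injective
and `x` transcendental over `E`); `exists_coh` gives `ψ₂` over `x₂` with the same `rv` on `S`; `ψ₂|M = ψm` (both send `x` to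
`x₂`, `M = E(x)`); `branch_nice`. Leading coefficients: `lead` (quotients of elements of `P`): `c b(x) = a(x)`,
`rv (ψ₂ c) rv (b^φ(x₂)) = rv (a^φ(x₂))` and the same at `x₁`, `b(x) ≠ 0`. -/
theorem coh (h : ExHyp x q T d S P P') (ψ₁ : N →+* HahnSeries ℚ Ω)
    (ψm : M →+* HahnSeries ℚ Ω)
    (hψ : ψm.comp (algebraMap E M) = ψ₁.comp (algebraMap E N))
    (hP : ∀ p ∈ P, rv (p.eval₂ (ψ₁.comp (algebraMap E N)) (ψm x)) =
      rv (p.eval₂ (ψ₁.comp (algebraMap E N)) (ψ₁ (algebraMap M N x)))) :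
    ∃ ψ₂ : N →+* HahnSeries ℚ Ω, ψ₂.comp (algebraMap M N) = ψm ∧
      (∀ s ∈ S, rv (ψ₂ s) = rv (ψ₁ s)) ∧
      (∀ g ∈ P', rv (ψ₂ (algebraMap M N g.leadingCoeff)) =
        rv (ψ₁ (algebraMap M N g.leadingCoeff))) ∧
      ∀ ρ ∈ T, (ψm x = ψ₁ (algebraMap M N x) ∨ d ρ = 0 → ψ₂ ρ = ψ₁ ρ) ∧
        (ψm x ≠ ψ₁ (algebraMap M N x) → d ρ ≠ 0 →
          rv (ψ₂ ρ - ψ₁ ρ) = rv (ψ₁ (d ρ) * (ψm x - ψ₁ (algebraMap M N x)))) := by
  classical
  have hcE : ψ₁.comp (algebraMap E N) = (ψ₁.comp (algebraMap M N)).comp (algebraMap E M) := by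
    rw [RingHom.comp_assoc, ← IsScalarTower.algebraMap_eq E M N]
  -- leading coefficients, for any extension of `ψm`
  have hlead : ∀ ψ₂ : N →+* HahnSeries ℚ Ω, ψ₂.comp (algebraMap M N) = ψm →
      ∀ g ∈ P', rv (ψ₂ (algebraMap M N g.leadingCoeff)) =
        rv (ψ₁ (algebraMap M N g.leadingCoeff)) := by
    intro ψ₂ h2 g hg
    have h3 := x1c_lead h.br ψm (ψ₁.comp (algebraMap M N)) g.leadingCoeff (h.lead g hg) (by
      intro p hp
      have h4 := hP p hp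
      rw [hψ, ← hcE]
      exact h4)
    rw [← h2] at h3
    exact h3
  by_cases hx : ψm x = ψ₁ (algebraMap M N x)
  · have h1 : ψ₁.comp (algebraMap M N) = ψm :=
      x1c_ext h.br _ _ (by rw [← hcE, hψ]) hx.symm
    refine ⟨ψ₁, h1, fun _ _ => rfl, hlead ψ₁ h1, fun ρ _ => ⟨fun _ => rfl, fun hne => ?_⟩⟩
    exact absurd hx hne
  · have htr1 : TrO (ψ₁.comp (algebraMap E N)) (ψ₁ (algebraMap M N x)) := by
      have := x1c_tr h.br (ψ₁.comp (algebraMap M N))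
      rw [← hcE] at this
      exact this
    have htr2 : TrO (ψ₁.comp (algebraMap E N)) (ψm x) := by
      have := x1c_tr h.br ψm
      rw [hψ] at this
      exact this
    obtain ⟨r, hr, hr'⟩ := lev_radius h.X_P h.br.P_ne h.der_P (ψ₁.comp (algebraMap E N))
      (ψ₁ (algebraMap M N x)) htr1
    have hlt := (hr' (ψm x)).1 hP
    have hd : ∀ p ∈ P, ∀ a ∈ (p.map (ψ₁.comp (algebraMap E N))).roots,
        (ψ₁ (algebraMap M N x) - a).orderTop < (ψm x - ψ₁ (algebraMap M N x)).orderTop :=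
      fun p hp a ha => lt_of_le_of_lt (hr p hp a ha) hlt
    obtain ⟨ψ₂, h20, h2x, h2S⟩ := exists_coh h.br ψ₁ (ψm x) htr2 hd
    have hcE2 : ψ₂.comp (algebraMap E N) = (ψ₂.comp (algebraMap M N)).comp (algebraMap E M) := by
      rw [RingHom.comp_assoc, ← IsScalarTower.algebraMap_eq E M N]
    have h2m : ψ₂.comp (algebraMap M N) = ψm :=
      x1c_ext h.br _ _ (by rw [← hcE2, h20, hψ]) h2x
    have hnice := branch_nice h.br ψ₁ ψ₂ h20 h2S (by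
      rw [h2x]
      exact ⟨fun h' => hx h'.symm, hd⟩)
    rw [h2x] at hnice
    refine ⟨ψ₂, h2m, h2S, hlead ψ₂ h2m, fun ρ hρ => ⟨fun h' => ?_, fun _ hdρ => ?_⟩⟩
    · rcases h' with h' | h'
      · exact absurd h' hx
      · exact (hnice ρ hρ).1 h'
    · exact (hnice ρ hρ).2 hdρ

end

end KTS.X

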