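import Pool.Agent.KTS.X0

/-!
[KTS-X2] Transcendence: pairs of independent elements; the derivation detects algebraic elements.
-/

set_option autoImplicit false

namespace KTS.X

noncomputable section

universe u

open Polynomial

variable {Ω : Type u} [Field Ω]
  {E M N : Type u} [Field E] [CharZero E] [Field M] [CharZero M] [Field N]
  [Algebra E M] [Algebra M N] [Algebra E N] [IsScalarTower E M N] [FiniteDimensional M N]

omit [CharZero E] in
/-- Proof: `g = C p`. -/
theorem Ind2.left {φ : E →+* HahnSeries ℚ Ω} {x y : HahnSeries ℚ Ω} (h : Ind2 φ x y) :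
    TrO φ x := by
  intro p hp
  have h1 := h (C p) (C_ne_zero.2 hp)
  rw [eval₂_C, coe_eval₂RingHom] at h1
  exact h1

omit [CharZero E] in
/-- Proof: `g = p.map C`. -/
theorem Ind2.right {φ : E →+* HahnSeries ℚ Ω} {x y : HahnSeries ℚ Ω} (h : Ind2 φ x y) :
    TrO φ y := by
  intro p hp
  have h1 := h (p.map C) ((Polynomial.map_ne_zero_iff C_injective).2 hp)
  rw [eval₂_map] at h1
  have h2 : (eval₂RingHom φ x).comp (C : E →+* Polynomial E) = φ := by
    refine RingHom.ext fun e => ?_
    rw [RingHom.comp_apply, coe_eval₂RingHom, eval₂_C]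
  rw [h2] at h1
  exact h1

/-- Exchange of the two variables. -/
private def x2a_sw (E : Type u) [Field E] : Polynomial (Polynomial E) →+* Polynomial (Polynomial E) :=
  eval₂RingHom (mapRingHom (C : E →+* Polynomial E)) (C X)

omit [CharZero E] in
private theorem x2a_sw_CC (e : E) : x2a_sw E (C (C e)) = C (C e) := by
  rw [x2a_sw, coe_eval₂RingHom, eval₂_C, coe_mapRingHom, map_C]

omit [CharZero E] in
private theorem x2a_sw_CX : x2a_sw E (C X) = X := by
  rw [x2a_sw, coe_eval₂RingHom, eval₂_C, coe_mapRingHom, map_X]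

omit [CharZero E] in
private theorem x2a_sw_X : x2a_sw E X = C X := by
  rw [x2a_sw, coe_eval₂RingHom, eval₂_X]

omit [CharZero E] in
private theorem x2a_ext {R : Type*} [CommRing R] (f g : Polynomial (Polynomial E) →+* R)
    (h1 : ∀ e : E, f (C (C e)) = g (C (C e))) (h2 : f (C X) = g (C X)) (h3 : f X = g X) : f = g := by
  refine Polynomial.ringHom_ext (fun a => ?_) h3
  have h4 : f.comp (C : Polynomial E →+* Polynomial (Polynomial E)) = g.comp C :=
    Polynomial.ringHom_ext h1 h2
  exact congrArg (fun t => t a) h4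

omit [CharZero E] in
private theorem x2a_sw_sw (g : Polynomial (Polynomial E)) : x2a_sw E (x2a_sw E g) = g := by
  have h : (x2a_sw E).comp (x2a_sw E) = RingHom.id _ := by
    refine x2a_ext _ _ (fun e => ?_) ?_ ?_
    · rw [RingHom.comp_apply, x2a_sw_CC, x2a_sw_CC, RingHom.id_apply]
    · rw [RingHom.comp_apply, x2a_sw_CX, x2a_sw_X, RingHom.id_apply]
    · rw [RingHom.comp_apply, x2a_sw_X, x2a_sw_CX, RingHom.id_apply]
  exact congrArg (fun t => t g) h

omit [CharZero E] in
private theorem x2a_sw_eval {U : Type*} [CommRing U] (φ : E →+* U) (x y : U)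
    (g : Polynomial (Polynomial E)) :
    (x2a_sw E g).eval₂ (eval₂RingHom φ x) y = g.eval₂ (eval₂RingHom φ y) x := by
  have h : (eval₂RingHom (eval₂RingHom φ x) y).comp (x2a_sw E) =
      eval₂RingHom (eval₂RingHom φ y) x := by
    refine x2a_ext _ _ (fun e => ?_) ?_ ?_
    · rw [RingHom.comp_apply, x2a_sw_CC, coe_eval₂RingHom, coe_eval₂RingHom, eval₂_C, eval₂_C,
        coe_eval₂RingHom, coe_eval₂RingHom, eval₂_C, eval₂_C]
    · rw [RingHom.comp_apply, x2a_sw_CX, coe_eval₂RingHom, coe_eval₂RingHom, eval₂_X, eval₂_C,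
        coe_eval₂RingHom, eval₂_X]
    · rw [RingHom.comp_apply, x2a_sw_X, coe_eval₂RingHom, coe_eval₂RingHom, eval₂_X, eval₂_C,
        coe_eval₂RingHom, eval₂_X]
  exact congrArg (fun t => t g) h

omit [CharZero E] in
/-- Proof: exchange the two variables (`Polynomial.Bivariate.swap`, or through `MvPolynomial (Fin 2)`). -/
theorem Ind2.symm {φ : E →+* HahnSeries ℚ Ω} {x y : HahnSeries ℚ Ω} (h : Ind2 φ x y) :
    Ind2 φ y x := by
  intro g hg
  rw [← x2a_sw_eval]
  refine h _ ?_
  intro h0
  apply hg
  rw [← x2a_sw_sw g, h0, map_zero]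

omit [CharZero E] [CharZero M] in
private theorem x2a_comp {U : Type*} [CommRing U] (x : M) (ψ : M →+* U) :
    ψ.comp (aeval x : Polynomial E →ₐ[E] M).toRingHom =
      eval₂RingHom (ψ.comp (algebraMap E M)) (ψ x) := by
  refine Polynomial.ringHom_ext (fun e => ?_) ?_
  · rw [RingHom.comp_apply, coe_eval₂RingHom, eval₂_C, AlgHom.toRingHom_eq_coe, RingHom.coe_coe,
      aeval_C, RingHom.comp_apply]
  · rw [RingHom.comp_apply, coe_eval₂RingHom, eval₂_X, AlgHom.toRingHom_eq_coe, RingHom.coe_coe,
      aeval_X]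

omit [CharZero E] [CharZero M] in
private theorem x2a_alg (x : M) (hgen : IntermediateField.adjoin E {x} = ⊤) (m : M) :
    IsAlgebraic (Algebra.adjoin E {x}) m := by
  open scoped IntermediateField.algebraAdjoinAdjoin in
  rw [IsFractionRing.isAlgebraic_iff (Algebra.adjoin E {x}) (IntermediateField.adjoin E {x}) M]
  have hm : m ∈ IntermediateField.adjoin E {x} := by
    rw [hgen]
    trivial
  exact isAlgebraic_algebraMap (⟨m, hm⟩ : IntermediateField.adjoin E {x})

omit [CharZero E] [CharZero M] in
private theorem x2a_frac (x : M) (hgen : IntermediateField.adjoin E {x} = ⊤) :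
    IsFractionRing (Algebra.adjoin E {x}) M := by
  refine IsFractionRing.of_field _ _ fun m => ?_
  have hm : m ∈ IntermediateField.adjoin E {x} := by
    rw [hgen]
    trivial
  rw [IntermediateField.mem_adjoin_iff_div] at hm
  obtain ⟨r, hr, s, hs, h⟩ := hm
  exact ⟨⟨r, hr⟩, ⟨s, hs⟩, h⟩

omit [CharZero E] [CharZero M] in
/-- `M = E(x)`. Proof: `E[x] → M` is injective and `M` is its field of fractions: clear denominators of a polynomial over
`M`; conversely map `g ∈ E[X][Y]` to `M[Y]` by `X ↦ x`. -/
theorem trO_iff_ind2 (x : M) (htr : Transcendental E x)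
    (hgen : IntermediateField.adjoin E {x} = ⊤) (ψ : M →+* HahnSeries ℚ Ω)
    (y : HahnSeries ℚ Ω) : TrO ψ y ↔ Ind2 (ψ.comp (algebraMap E M)) (ψ x) y := by
  constructor
  · intro h g hg
    have hinj : Function.Injective (aeval x : Polynomial E →ₐ[E] M).toRingHom :=
      transcendental_iff_injective.1 htr
    have h1 := h (g.map (aeval x : Polynomial E →ₐ[E] M).toRingHom)
      ((Polynomial.map_ne_zero_iff hinj).2 hg)
    rw [eval₂_map, x2a_comp] at h1
    exact h1
  · intro h p hp h0
    let _ : Algebra M (HahnSeries ℚ Ω) := ψ.toAlgebra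
    have _ : IsFractionRing (Algebra.adjoin E {x}) M := x2a_frac x hgen
    have halg : IsAlgebraic M y := ⟨p, hp, h0⟩
    rw [← IsFractionRing.isAlgebraic_iff (Algebra.adjoin E {x}) M (HahnSeries ℚ Ω)] at halg
    obtain ⟨f, hf, hf0⟩ := halg
    have hmem : ∀ g : Polynomial E, aeval x g ∈ Algebra.adjoin E {x} := fun g =>
      aeval_mem_adjoin_singleton E x
    let θ : Polynomial E →+* Algebra.adjoin E {x} :=
      (aeval x : Polynomial E →ₐ[E] M).toRingHom.codRestrict (Algebra.adjoin E {x}) hmem
    have hs : Function.Surjective θ := by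
      rintro ⟨a, ha⟩
      rw [Algebra.adjoin_singleton_eq_range_aeval] at ha
      obtain ⟨g, hg⟩ := ha
      exact ⟨g, Subtype.ext hg⟩
    obtain ⟨g, hg⟩ := Polynomial.map_surjective θ hs f
    refine h g ?_ ?_
    · rintro rfl
      rw [Polynomial.map_zero] at hg
      exact hf hg.symm
    · rw [← hg, aeval_def, eval₂_map] at hf0
      rw [← hf0, ← x2a_comp]
      rfl

omit [CharZero E] in
private theorem x2b_to_alg {U : Type u} [Field U] [Algebra E U] (y z : U)
    (hy : Transcendental E y) (g : Polynomial (Polynomial E)) (hg : g ≠ 0)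
    (h0 : g.eval₂ (eval₂RingHom (algebraMap E U) y) z = 0) :
    IsAlgebraic (IntermediateField.adjoin E {y}) z := by
  have hym : y ∈ IntermediateField.adjoin E {y} := IntermediateField.mem_adjoin_simple_self E y
  set y' : IntermediateField.adjoin E {y} := ⟨y, hym⟩ with hy'
  have hcomp : ∀ f : Polynomial E,
      algebraMap (IntermediateField.adjoin E {y}) U (aeval y' f) = aeval y f := by
    intro f
    rw [← aeval_algebraMap_apply]
    rfl
  have hθ : Function.Injective (aeval y' : Polynomial E →ₐ[E] IntermediateField.adjoin E {y}) := by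
    rw [injective_iff_map_eq_zero]
    intro f hf
    by_contra hne
    refine hy ⟨f, hne, ?_⟩
    rw [← hcomp, hf, map_zero]
  refine ⟨g.map (aeval y' : Polynomial E →ₐ[E] IntermediateField.adjoin E {y}).toRingHom, ?_, ?_⟩
  · exact (Polynomial.map_ne_zero_iff hθ).2 hg
  · rw [aeval_def, eval₂_map, ← h0]
    congr 1
    refine RingHom.ext fun f => ?_
    rw [RingHom.comp_apply, coe_eval₂RingHom]
    exact hcomp f

omit [CharZero E] in
private theorem x2b_of_alg {U : Type u} [Field U] [Algebra E U] (y z : U)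
    (h : IsAlgebraic (IntermediateField.adjoin E {y}) z) :
    ∃ g : Polynomial (Polynomial E), g ≠ 0 ∧
      g.eval₂ (eval₂RingHom (algebraMap E U) y) z = 0 := by
  open scoped IntermediateField.algebraAdjoinAdjoin in
  rw [← IsFractionRing.isAlgebraic_iff (Algebra.adjoin E {y}) (IntermediateField.adjoin E {y}) U]
    at h
  obtain ⟨p, hp, hpz⟩ := h
  have hmem : ∀ f : Polynomial E, aeval y f ∈ Algebra.adjoin E {y} := fun f =>
    aeval_mem_adjoin_singleton E y
  let θ : Polynomial E →+* Algebra.adjoin E {y} :=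
    (aeval y : Polynomial E →ₐ[E] U).toRingHom.codRestrict (Algebra.adjoin E {y}) hmem
  have hs : Function.Surjective θ := by
    rintro ⟨a, ha⟩
    rw [Algebra.adjoin_singleton_eq_range_aeval] at ha
    obtain ⟨f, hf⟩ := ha
    exact ⟨f, Subtype.ext hf⟩
  obtain ⟨g, hg⟩ := Polynomial.map_surjective θ hs p
  refine ⟨g, ?_, ?_⟩
  · rintro rfl
    rw [Polynomial.map_zero] at hg
    exact hp hg.symm
  · rw [← hg, aeval_def, eval₂_map] at hpz
    rw [← hpz]
    congr 1

omit [CharZero E] [CharZero M] in
private theorem x2b_mem {U : Type u} [Field U] (x : M)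
    (hgen : IntermediateField.adjoin E {x} = ⊤) (ψ : M →+* U) (A : Subfield U)
    (hE : ∀ e : E, ψ (algebraMap E M e) ∈ A) (hx : ψ x ∈ A) (m : M) : ψ m ∈ A := by
  have h1 : m ∈ IntermediateField.adjoin E {x} := by
    rw [hgen]
    trivial
  have h2 : IntermediateField.adjoin E {x} ≤
      (A.comap ψ).toIntermediateField hE := by
    rw [IntermediateField.adjoin_le_iff]
    rintro _ rfl
    exact hx
  exact h2 h1

omit [CharZero E] [CharZero M] in
/-- Two independent elements `y, ψ ρ` cannot both be algebraic over `ψ(M)`, `M = E(x)`. Proof: transcendence degrees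
over the image of `E`: the algebraic closure of `ψ(M)` in `HahnSeries ℚ Ω` has transcendence degree `≤ 1` over `ψ(E)`; `ψ ρ`
is in it (`N / M` is algebraic). (With `letI := (ψ|E).toAlgebra`; e.g. matroid exchange
`AlgebraicIndependent`/`Algebra.trdeg`, or by hand: if `y` is algebraic over `ψ(M)` then `ψ x` is algebraic over
`ψ(E)(y)`, because `y` is transcendental over `ψ(E)`; so `ψ ρ` is algebraic over `ψ(E)(y)`, contradicting
`Ind2 _ y (ψ ρ)`.) -/
theorem ind2_of_alg (x : M) (htr : Transcendental E x)
    (hgen : IntermediateField.adjoin E {x} = ⊤) (ψ : N →+* HahnSeries ℚ Ω) (ρ : N)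
    (y : HahnSeries ℚ Ω) (h : Ind2 (ψ.comp (algebraMap E N)) y (ψ ρ)) :
    Ind2 (ψ.comp (algebraMap E N)) (ψ (algebraMap M N x)) y := by
  classical
  set φ : E →+* HahnSeries ℚ Ω := ψ.comp (algebraMap E N) with hφ
  by_contra hcon
  have hyt : TrO φ y := h.left
  have hcon' : ¬ Ind2 φ y (ψ (algebraMap M N x)) := fun h1 => hcon h1.symm
  unfold Ind2 at hcon'
  push Not at hcon'
  obtain ⟨g, hg, hg0⟩ := hcon'
  let _ : Algebra E (HahnSeries ℚ Ω) := φ.toAlgebra
  have hyT : Transcendental E y := by
    rintro ⟨f, hf, hf0⟩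
    exact hyt f hf hf0
  have h1 : IsAlgebraic (IntermediateField.adjoin E {y}) (ψ (algebraMap M N x)) :=
    x2b_to_alg y _ hyT g hg hg0
  set K := IntermediateField.adjoin E {y} with hK
  let A : Subfield (HahnSeries ℚ Ω) := (algebraicClosure K (HahnSeries ℚ Ω)).toSubfield
  have hA : ∀ z, z ∈ A ↔ IsAlgebraic K z := fun z => mem_algebraicClosure_iff
  have hE : ∀ e : E, (ψ.comp (algebraMap M N)) (algebraMap E M e) ∈ A := by
    intro e
    rw [hA]
    have h2 : (ψ.comp (algebraMap M N)) (algebraMap E M e) = algebraMap K (HahnSeries ℚ Ω)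
        (algebraMap E K e) := by
      rw [RingHom.comp_apply, ← IsScalarTower.algebraMap_apply E M N]
      rfl
    rw [h2]
    exact isAlgebraic_algebraMap _
  have hM : ∀ m : M, ψ (algebraMap M N m) ∈ A := fun m =>
    x2b_mem x hgen (ψ.comp (algebraMap M N)) A hE ((hA _).2 h1) m
  -- `ρ` is algebraic over `M`
  have hρ : IsAlgebraic K (ψ ρ) := by
    have hint : IsIntegral M ρ := Algebra.IsIntegral.isIntegral ρ
    have h2 : IsAlgebraic (algebraicClosure K (HahnSeries ℚ Ω)) (ψ ρ) := by
      let θ : M →+* algebraicClosure K (HahnSeries ℚ Ω) :=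
        (ψ.comp (algebraMap M N)).codRestrict (algebraicClosure K (HahnSeries ℚ Ω)) hM
      refine ⟨(minpoly M ρ).map θ, ?_, ?_⟩
      · exact (Polynomial.map_ne_zero_iff θ.injective).2 (minpoly.ne_zero hint)
      · rw [aeval_def, eval₂_map]
        have h3 : (algebraMap (algebraicClosure K (HahnSeries ℚ Ω)) (HahnSeries ℚ Ω)).comp θ =
            ψ.comp (algebraMap M N) := RingHom.ext fun m => rfl
        rw [h3, ← Polynomial.hom_eval₂, ← aeval_def, minpoly.aeval, map_zero]
    exact h2.restrictScalars K
  obtain ⟨g', hg', hg0'⟩ := x2b_of_alg y (ψ ρ) hρ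
  exact h g' hg' hg0'

omit [CharZero E] in
/-- Proof: `ψ` is injective. -/
theorem trO_map_iff (ψ : N →+* HahnSeries ℚ Ω) (ρ : N) :
    TrO (ψ.comp (algebraMap E N)) (ψ ρ) ↔ Transcendental E ρ := by
  have h1 : ∀ g : Polynomial E, g.eval₂ (ψ.comp (algebraMap E N)) (ψ ρ) = ψ (aeval ρ g) := by
    intro g
    rw [aeval_def, Polynomial.hom_eval₂]
  constructor
  · rintro h ⟨g, hg, h0⟩
    refine h g hg ?_
    rw [h1, h0, map_zero]
  · intro h g hg h0
    rw [h1, map_eq_zero] at h0
    exact h ⟨g, hg, h0⟩

omit [CharZero E] in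
private theorem x2c_alg {k N : Type*} [Field k] [CharZero k] [Field N] [Algebra k N]
    (D : Derivation k N N) (z : N) (hz : IsAlgebraic k z) : D z = 0 := by
  have hint : IsIntegral k z := hz.isIntegral
  have hsep : (minpoly k z).Separable := (minpoly.irreducible hint).separable
  have h1 : D (aeval z (minpoly k z)) = aeval z (derivative (minpoly k z)) • D z :=
    Derivation.map_aeval _ _ _
  rw [minpoly.aeval, map_zero] at h1
  have h2 : aeval z (derivative (minpoly k z)) ≠ 0 :=
    hsep.aeval_derivative_ne_zero (minpoly.aeval k z)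
  rcases smul_eq_zero.1 h1.symm with h3 | h3
  · exact absurd h3 h2
  · exact h3

omit [CharZero E] in
private theorem x2c_ker (d : Derivation E N N) (ρ : N) (h : d ρ = 0) (z : N)
    (hz : z ∈ IntermediateField.adjoin E {ρ}) : d z = 0 := by
  induction hz using IntermediateField.adjoin_induction with
  | mem z hz =>
    rw [Set.mem_singleton_iff] at hz
    rw [hz, h]
  | algebraMap e => exact d.map_algebraMap e
  | add a b _ _ ha hb => rw [map_add, ha, hb, add_zero]
  | inv a _ ha => rw [Derivation.leibniz_inv, ha, smul_zero]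
  | mul a b _ _ ha hb => rw [Derivation.leibniz, ha, hb, smul_zero, smul_zero, add_zero]

/-- The kernel of `d` is the algebraic closure of `E`. Proof. `(⟸)` `p` = minimal polynomial: `p'(ρ) d ρ = 0`,
`p'(ρ) ≠ 0` (characteristic `0`). `(⟹)` If `ρ` were transcendental over `E`: `N` is algebraic over `M = E(x)`, so has
transcendence degree `1` over `E`, so `x` is algebraic over `E(ρ)`: minimal polynomial `p` over `E(ρ)`; `d` vanishes on `E(ρ)`
(it vanishes on `E` and at `ρ`), so `p'(x) d x = 0`, but `d x = 1`: contradiction. -/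
theorem d_eq_zero_iff (x : M) (htr : Transcendental E x)
    (hgen : IntermediateField.adjoin E {x} = ⊤) (d : Derivation E N N)
    (hd : d (algebraMap M N x) = 1) (ρ : N) : d ρ = 0 ↔ IsAlgebraic E ρ := by
  constructor
  · intro h
    by_contra hcon
    have hcon' : Transcendental E ρ := hcon
    -- the transcendence degree
    have h1 : Algebra.trdeg E M ≤ 1 := by
      have _ : Algebra.IsAlgebraic (Algebra.adjoin E {x}) M := ⟨x2a_alg x hgen⟩
      refine (Algebra.IsAlgebraic.trdeg_le_cardinalMk E ({x} : Set M)).trans ?_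
      rw [Cardinal.mk_singleton]
    have h2 : Algebra.trdeg E N ≤ 1 := by
      rw [← trdeg_add_eq E M (A := N), trdeg_eq_zero (R := M) (A := N), add_zero]
      exact h1
    have h3 : AlgebraicIndependent E (fun _ : Unit => ρ) := by
      rw [algebraicIndependent_unique_type_iff]
      exact hcon'
    have h4 : IsTranscendenceBasis E (fun _ : Unit => ρ) := by
      refine h3.isTranscendenceBasis_of_lift_trdeg_le_of_finite ?_
      rw [Cardinal.mk_unit, Cardinal.lift_one, Cardinal.lift_le_one_iff]
      exact h2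
    have h5 := h4.isAlgebraic.isAlgebraic (algebraMap M N x)
    have h6 : IsAlgebraic (Algebra.adjoin E {ρ}) (algebraMap M N x) := by
      rw [Set.range_const] at h5
      exact h5
    have h7 : IsAlgebraic (IntermediateField.adjoin E {ρ}) (algebraMap M N x) := by
      open scoped IntermediateField.algebraAdjoinAdjoin in
      rw [← IsFractionRing.isAlgebraic_iff (Algebra.adjoin E {ρ}) (IntermediateField.adjoin E {ρ}) N]
      exact h6
    have _ : CharZero (IntermediateField.adjoin E {ρ}) :=
      charZero_of_injective_algebraMap (algebraMap E (IntermediateField.adjoin E {ρ})).injective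
    let D : Derivation (IntermediateField.adjoin E {ρ}) N N :=
      { toFun := fun z => d z
        map_add' := fun a b => map_add d a b
        map_smul' := fun c z => by
          rw [RingHom.id_apply, Algebra.smul_def, Algebra.smul_def, Derivation.leibniz]
          have hc : d (algebraMap (IntermediateField.adjoin E {ρ}) N c) = 0 :=
            x2c_ker d ρ h _ c.2
          rw [hc, smul_zero, add_zero, smul_eq_mul]
        map_one_eq_zero' := d.map_one_eq_zero
        leibniz' := fun a b => d.leibniz a b }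
    have h8 : D (algebraMap M N x) = 0 := x2c_alg D _ h7
    have h9 : D (algebraMap M N x) = 1 := hd
    rw [h9] at h8
    exact one_ne_zero h8
  · intro h
    exact x2c_alg d ρ h

end

end KTS.X

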