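import Pool.Agent.KTS.X1

import Pool.Agent.KTS.X2

/-!
[KTS-X3] Exchange, both levels transcendental.
-/

set_option autoImplicit false

namespace KTS.X

noncomputable section

universe u

open Polynomial

variable {Ω : Type u} [Field Ω] [CharZero Ω] [IsAlgClosed Ω]
  {E M N : Type u} [Field E] [CharZero E] [Field M] [CharZero M] [Field N]
  [Algebra E M] [Algebra M N] [Algebra E N] [IsScalarTower E M N] [FiniteDimensional M N]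
  {x : M} {q : Polynomial M} {T : Finset N} {d : Derivation E N N} {S : Finset N}
  {P : Finset (Polynomial E)} {P' : Finset (Polynomial M)}

/-! ### orders -/

private theorem x3_add {a b : HahnSeries ℚ Ω} {s : WithTop ℚ} (ha : s < a.orderTop)
    (hb : s < b.orderTop) : s < (a + b).orderTop :=
  lt_of_lt_of_le (lt_min ha hb) HahnSeries.min_orderTop_le_orderTop_add

private theorem x3_sub {a b : HahnSeries ℚ Ω} {s : WithTop ℚ} (ha : s < a.orderTop)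
    (hb : s < b.orderTop) : s < (a - b).orderTop := by
  rw [sub_eq_add_neg]
  exact x3_add ha (by rwa [HahnSeries.orderTop_neg])

private theorem x3_rv_orderTop {a b c : HahnSeries ℚ Ω} (hb : b ≠ 0)
    (h : rv a = rv (b * c)) : a.orderTop = ((b.order : ℚ) : WithTop ℚ) + c.orderTop := by
  rw [orderTop_of_rv h, HahnSeries.orderTop_mul,
    HahnSeries.order_eq_orderTop_of_ne_zero hb]

/-- `ν + r < ν + t`. -/
private theorem x3_add_lt {ν r : ℚ} {t : WithTop ℚ} (h : (r : WithTop ℚ) < t) :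
    ((r + ν : ℚ) : WithTop ℚ) < (ν : WithTop ℚ) + t := by
  induction t using WithTop.recTopCoe with
  | top => rw [WithTop.add_top]; exact WithTop.coe_lt_top _
  | coe t =>
    have h1 : r < t := by exact_mod_cast h
    have h2 : r + ν < ν + t := by linarith
    exact_mod_cast h2

private theorem x3_lt_of_add {ν s : ℚ} {t : WithTop ℚ}
    (h : (s : WithTop ℚ) < (ν : WithTop ℚ) + t) : ((s - ν : ℚ) : WithTop ℚ) < t := by
  induction t using WithTop.recTopCoe with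
  | top => exact WithTop.coe_lt_top _
  | coe t =>
    have h1 : s < ν + t := by exact_mod_cast h
    have h2 : s - ν < t := by linarith
    exact_mod_cast h2

/-- The key lemma: all admissible pairs over an embedding of `M` in the same fibre. -/
private theorem x3_key (h : ExHyp x q T d S P P') (ψ₁ : N →+* HahnSeries ℚ Ω)
    (y₁ : HahnSeries ℚ Ω) (ρ₀ : N) (hρ₀ : ρ₀ ∈ T)
    (hn : ∀ ρ ∈ T, (y₁ - ψ₁ ρ).orderTop ≤ (y₁ - ψ₁ ρ₀).orderTop)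
    (s : ℚ) (hs : (y₁ - ψ₁ ρ₀).orderTop = (s : WithTop ℚ))
    (ψm : M →+* HahnSeries ℚ Ω)
    (hψ : ψm.comp (algebraMap E M) = ψ₁.comp (algebraMap E N))
    (hP : ∀ p ∈ P, rv (p.eval₂ (ψ₁.comp (algebraMap E N)) (ψm x)) =
      rv (p.eval₂ (ψ₁.comp (algebraMap E N)) (ψ₁ (algebraMap M N x)))) :
    ∃ D : HahnSeries ℚ Ω, (d ρ₀ = 0 → D = 0) ∧
      (d ρ₀ ≠ 0 → D.orderTop = (((ψ₁ (d ρ₀)).order : ℚ) : WithTop ℚ) +
        (ψm x - ψ₁ (algebraMap M N x)).orderTop) ∧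
      ∀ y₂ : HahnSeries ℚ Ω, (∀ g ∈ P', rv (g.eval₂ ψm y₂) =
        rv (g.eval₂ (ψ₁.comp (algebraMap M N)) y₁)) ↔
          (s : WithTop ℚ) < (y₂ - y₁ - D).orderTop := by
  obtain ⟨ψ₂, hψ₂, hS, hl, hT⟩ := coh h ψ₁ ψm hψ hP
  refine ⟨ψ₂ ρ₀ - ψ₁ ρ₀, ?_, ?_, ?_⟩
  · intro hd
    rw [(hT ρ₀ hρ₀).1 (Or.inr hd), sub_self]
  · intro hd
    have hne : ψ₁ (d ρ₀) ≠ 0 := (map_ne_zero ψ₁).2 hd
    by_cases hx : ψm x = ψ₁ (algebraMap M N x)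
    · rw [(hT ρ₀ hρ₀).1 (Or.inl hx), hx, sub_self, sub_self, HahnSeries.orderTop_zero,
        WithTop.add_top]
    · exact x3_rv_orderTop hne ((hT ρ₀ hρ₀).2 hx hd)
  · intro y₂
    have h1 := fam_iff h ψ₁ ψ₂ hS hl y₁ y₂ ρ₀ hρ₀ hn
    rw [hψ₂] at h1
    rw [h1, hs]
    have h2 : y₂ - ψ₂ ρ₀ - (y₁ - ψ₁ ρ₀) = y₂ - y₁ - (ψ₂ ρ₀ - ψ₁ ρ₀) := by ring
    rw [← h2]
    constructor
    · rintro (h3 | h3)
      · rw [h3, sub_self, HahnSeries.orderTop_zero]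
        exact WithTop.coe_lt_top _
      · exact h3
    · exact Or.inr

/-- (T, T) over `N`. Notation: `φ = ψ₁|E`, `x₁ = ψ₁ x`, `ρ₀` a nearest root of `y₁` (`exists_near`), `e = y₁ - ψ₁ ρ₀ ≠ 0`
(`y₁` is transcendental over `ψ₁(M)`, `ψ₁ ρ₀` algebraic), `s = v(e)`, `r₀` = radius of the lower level (`lev_radius`),
`ν = v(ψ₁ (d ρ₀))` if `d ρ₀ ≠ 0`.
Case 1: `d ρ₀ = 0` or `s ≤ r₀ + ν`: `r = s`, `r' = r₀`. Case 2: `d ρ₀ ≠ 0` and `r₀ + ν < s`: `r = r₀ + ν`, `r' = s - ν`.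
For `(x₂, y₂)` admissible with `ψm`: `coh` gives `ψ₂`; by `fam_iff`: `s < v(y₂ - ψ₂ ρ₀ - e)` (the first alternative is
contained in this, `e ≠ 0`), and `y₂ - y₁ = (ψ₂ ρ₀ - ψ₁ ρ₀) + (y₂ - ψ₂ ρ₀ - e)`, with `ψ₂ ρ₀ - ψ₁ ρ₀ = 0` (if `x₂ = x₁` or
`d ρ₀ = 0`) or of order `ν + v(x₂ - x₁) > ν + r₀`.
First statement, `(⟹)`: this formula (`TrO φ y₂`: `Ind2.right`). `(⟸)` case 1: by `htr` (for `y₂`, around `x₁` with radius `r₀`)
choose `x₂` with `r₀ < v(x₂ - x₁)`, `Ind2 φ y₂ x₂`, so `Ind2 φ x₂ y₂`; `TrO φ x₂` gives an embedding `ψm` of `M = E(x)` (e.g. from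
`exists_coh`); `coh`; `v(ψ₂ρ₀ - ψ₁ρ₀) > s` or `= 0`, so `s < v(y₂ - ψ₂ρ₀ - e)`: `fam_iff`. `(⟸)` case 2: by `htr` (for `y₂`, around
`y₂ - e` with radius `s`) choose `y₀`, `v(y₀ - (y₂ - e)) > s`, `Ind2 φ y₂ y₀`; `v(y₀ - ψ₁ρ₀) = v((y₂ - y₁) + (> s)) > r₀ + ν`;
`branch_surj` (for `y₀`, `r₀`): `ψ₂` with `ψ₂ ρ₀ = y₀`, `v(ψ₂ x - x₁) > r₀`, same `rv` on `S` (leading coefficients: as in
`coh`, from `lead` and `rv_eval_congr`/`lev_radius`); `x₂ := ψ₂ x`, `ψm := ψ₂|M`; `y₂ - ψ₂ρ₀ - e = (y₂ - e) - y₀` has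
`v > s`: `fam_iff`. `Ind2 φ x₂ y₂`: `ind2_of_alg`.
Second statement, `(⟹)`: `y₂ = y₁`: `s < v(-(ψ₂ρ₀ - ψ₁ρ₀))`, so `v(x₂ - x₁) > s - ν` unless `d ρ₀ = 0` or `x₂ = x₁`, and
`v(x₂ - x₁) > r₀` (`lev_radius`). `(⟸)` `coh` for the embedding over `x₂` and `fam_iff`. `Ind2.symm` throughout. -/
theorem exch_TT (h : ExHyp x q T d S P P') (ψ₁ : N →+* HahnSeries ℚ Ω) (y₁ : HahnSeries ℚ Ω)
    (hy₁ : TrO (ψ₁.comp (algebraMap M N)) y₁)
    (htr : ∀ y, TrO (ψ₁.comp (algebraMap E N)) y → ∀ (z : HahnSeries ℚ Ω) (s : ℚ),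
      ∃ x' : HahnSeries ℚ Ω, (s : WithTop ℚ) < (x' - z).orderTop ∧
        Ind2 (ψ₁.comp (algebraMap E N)) y x') :
    ∃ r r' : ℚ,
      (∀ y₂, (∃ x₂, Adm x P P' (ψ₁.comp (algebraMap M N)) y₁ x₂ y₂ ∧
          Ind2 (ψ₁.comp (algebraMap E N)) x₂ y₂) ↔
        ((r : WithTop ℚ) < (y₂ - y₁).orderTop ∧ TrO (ψ₁.comp (algebraMap E N)) y₂)) ∧
      ∀ x₂, (Adm x P P' (ψ₁.comp (algebraMap M N)) y₁ x₂ y₁ ∧
          Ind2 (ψ₁.comp (algebraMap E N)) x₂ y₁) ↔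
        ((r' : WithTop ℚ) < (x₂ - ψ₁ (algebraMap M N x)).orderTop ∧
          Ind2 (ψ₁.comp (algebraMap E N)) y₁ x₂) := by
  classical
  set φ : E →+* HahnSeries ℚ Ω := ψ₁.comp (algebraMap E N) with hφ
  set x₁ : HahnSeries ℚ Ω := ψ₁ (algebraMap M N x) with hx₁
  have hEMN : (ψ₁.comp (algebraMap M N)).comp (algebraMap E M) = φ := by
    rw [hφ, RingHom.comp_assoc, ← IsScalarTower.algebraMap_eq]
  -- `x₁` is transcendental
  have htx₁ : TrO φ x₁ := by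
    have h1 := (trO_map_iff (E := E) ψ₁ (algebraMap M N x)).2
    refine h1 ?_
    intro halg
    exact h.br.tr ((isAlgebraic_algebraMap_iff (algebraMap M N).injective).1 halg)
  obtain ⟨ρ₀, hρ₀, hn⟩ := exists_near h ψ₁ y₁
  -- `e ≠ 0`
  have he : y₁ - ψ₁ ρ₀ ≠ 0 := by
    intro h0
    have hint : IsIntegral M ρ₀ := Algebra.IsIntegral.isIntegral ρ₀
    refine hy₁ (minpoly M ρ₀) (minpoly.ne_zero hint) ?_
    rw [sub_eq_zero.1 h0, ← Polynomial.hom_eval₂, ← aeval_def, minpoly.aeval, map_zero]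
  obtain ⟨s, hs⟩ : ∃ s : ℚ, (y₁ - ψ₁ ρ₀).orderTop = (s : WithTop ℚ) :=
    ⟨_, (HahnSeries.order_eq_orderTop_of_ne_zero he).symm⟩
  obtain ⟨r₀, hr₀, hrad⟩ := lev_radius h.X_P h.br.P_ne h.der_P φ x₁ htx₁
  set ν : ℚ := (ψ₁ (d ρ₀)).order with hν
  -- embeddings over a transcendental `x₂`
  have hemb : ∀ x₂ : HahnSeries ℚ Ω, TrO φ x₂ → (r₀ : WithTop ℚ) < (x₂ - x₁).orderTop →
      ∃ ψm : M →+* HahnSeries ℚ Ω, ψm.comp (algebraMap E M) = φ ∧ ψm x = x₂ := by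
    intro x₂ hx₂ hlt
    obtain ⟨ψ₂, h1, h2, -⟩ := exists_coh h.br ψ₁ x₂ hx₂
      (fun p hp r hr => lt_of_le_of_lt (hr₀ p hp r hr) hlt)
    refine ⟨ψ₂.comp (algebraMap M N), ?_, h2⟩
    rw [RingHom.comp_assoc, ← IsScalarTower.algebraMap_eq, h1]
  -- the key lemma
  have hkey : ∀ ψm : M →+* HahnSeries ℚ Ω, ψm.comp (algebraMap E M) = φ →
      (r₀ : WithTop ℚ) < (ψm x - x₁).orderTop →
      ∃ D : HahnSeries ℚ Ω, (d ρ₀ = 0 → D = 0) ∧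
      (d ρ₀ ≠ 0 → D.orderTop = (ν : WithTop ℚ) + (ψm x - x₁).orderTop) ∧
      ∀ y₂ : HahnSeries ℚ Ω, (∀ g ∈ P', rv (g.eval₂ ψm y₂) =
        rv (g.eval₂ (ψ₁.comp (algebraMap M N)) y₁)) ↔
          (s : WithTop ℚ) < (y₂ - y₁ - D).orderTop := fun ψm h1 h2 =>
    x3_key h ψ₁ y₁ ρ₀ hρ₀ hn s hs ψm h1 ((hrad _).2 h2)
  -- admissibility unfolded
  have hadm : ∀ x₂ y₂ : HahnSeries ℚ Ω, Adm x P P' (ψ₁.comp (algebraMap M N)) y₁ x₂ y₂ ↔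
      ((r₀ : WithTop ℚ) < (x₂ - x₁).orderTop ∧ ∃ ψm : M →+* HahnSeries ℚ Ω,
        ψm.comp (algebraMap E M) = φ ∧ ψm x = x₂ ∧
        ∀ g ∈ P', rv (g.eval₂ ψm y₂) = rv (g.eval₂ (ψ₁.comp (algebraMap M N)) y₁)) := by
    intro x₂ y₂
    unfold Adm
    rw [hEMN]
    exact and_congr (hrad x₂) Iff.rfl
  by_cases hcase : d ρ₀ ≠ 0 ∧ r₀ + ν < s
  · -- case 2
    obtain ⟨hd, hlt⟩ := hcase
    refine ⟨r₀ + ν, s - ν, ?_, ?_⟩
    · intro y₂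
      constructor
      · rintro ⟨x₂, hA, hI⟩
        refine ⟨?_, hI.right⟩
        obtain ⟨h1, ψm, h2, rfl, h3⟩ := (hadm _ _).1 hA
        obtain ⟨D, -, hD, hfam⟩ := hkey ψm h2 h1
        have h4 : ((r₀ + ν : ℚ) : WithTop ℚ) < D.orderTop := by
          rw [hD hd]
          exact x3_add_lt h1
        have h5 : ((r₀ + ν : ℚ) : WithTop ℚ) < (y₂ - y₁ - D).orderTop :=
          lt_trans (by exact_mod_cast hlt) ((hfam y₂).1 h3)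
        have h6 := x3_add h5 h4
        rwa [sub_add_cancel] at h6
      · rintro ⟨h1, h2⟩
        obtain ⟨y₀, hy₀, hI⟩ := htr y₂ h2 (y₂ - (y₁ - ψ₁ ρ₀)) s
        have h3 : ((r₀ + (ψ₁ (d ρ₀)).order : ℚ) : WithTop ℚ) < (y₀ - ψ₁ ρ₀).orderTop := by
          have h4 : ((r₀ + ν : ℚ) : WithTop ℚ) < (y₀ - (y₂ - (y₁ - ψ₁ ρ₀))).orderTop :=
            lt_trans (by exact_mod_cast hlt) hy₀
          have h5 := x3_add h4 h1
          have h6 : y₀ - (y₂ - (y₁ - ψ₁ ρ₀)) + (y₂ - y₁) = y₀ - ψ₁ ρ₀ := by ring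
          rwa [h6] at h5
        obtain ⟨ψ₂, hE, hS, hxr, hρy⟩ := branch_surj h.br ψ₁ y₀ hI.right
          (fun z t => by
            obtain ⟨x', h4, h5⟩ := htr y₂ h2 z t
            exact ⟨x', h4, h5.right⟩) r₀ hr₀ ρ₀ hρ₀ hd h3
        have hEm : (ψ₂.comp (algebraMap M N)).comp (algebraMap E M) = φ := by
          rw [RingHom.comp_assoc, ← IsScalarTower.algebraMap_eq, hE]
        refine ⟨ψ₂ (algebraMap M N x), (hadm _ _).2 ⟨hxr, ψ₂.comp (algebraMap M N), hEm, rfl,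
          ?_⟩, ?_⟩
        · obtain ⟨ψ₃, h4, -, h5, -⟩ := coh h ψ₁ (ψ₂.comp (algebraMap M N)) hEm
            ((hrad _).2 hxr)
          have hl : ∀ g ∈ P', rv (ψ₂ (algebraMap M N g.leadingCoeff)) =
              rv (ψ₁ (algebraMap M N g.leadingCoeff)) := by
            intro g hg
            rw [← h5 g hg]
            have h6 := congrArg (fun f : M →+* HahnSeries ℚ Ω => f g.leadingCoeff) h4
            exact congrArg rv h6.symm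
          refine (fam_iff h ψ₁ ψ₂ hS hl y₁ y₂ ρ₀ hρ₀ hn).2 (Or.inr ?_)
          rw [hs, hρy]
          have h6 : y₂ - y₀ - (y₁ - ψ₁ ρ₀) = -(y₀ - (y₂ - (y₁ - ψ₁ ρ₀))) := by ring
          rw [h6, HahnSeries.orderTop_neg]
          exact hy₀
        · have h4 := ind2_of_alg x h.br.tr h.br.gen ψ₂ ρ₀ y₂ (by rw [hE, hρy]; exact hI)
          rwa [hE] at h4
    · intro x₂
      constructor
      · rintro ⟨hA, hI⟩
        refine ⟨?_, hI.symm⟩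
        obtain ⟨h1, ψm, h2, rfl, h3⟩ := (hadm _ _).1 hA
        obtain ⟨D, -, hD, hfam⟩ := hkey ψm h2 h1
        have h4 := (hfam y₁).1 h3
        rw [sub_self, zero_sub, HahnSeries.orderTop_neg, hD hd] at h4
        exact x3_lt_of_add h4
      · rintro ⟨h1, h2⟩
        refine ⟨?_, h2.symm⟩
        have h3 : (r₀ : WithTop ℚ) < (x₂ - x₁).orderTop := by
          refine lt_trans ?_ h1
          have : r₀ < s - ν := by linarith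
          exact_mod_cast this
        obtain ⟨ψm, h4, rfl⟩ := hemb x₂ h2.right h3
        refine (hadm _ _).2 ⟨h3, ψm, h4, rfl, ?_⟩
        obtain ⟨D, -, hD, hfam⟩ := hkey ψm h4 h3
        refine (hfam y₁).2 ?_
        rw [sub_self, zero_sub, HahnSeries.orderTop_neg, hD hd]
        have h5 := x3_add_lt (ν := ν) h1
        rwa [sub_add_cancel] at h5
  · -- case 1
    have hDs : ∀ (D : HahnSeries ℚ Ω) (t : WithTop ℚ), (r₀ : WithTop ℚ) < t →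
        (d ρ₀ = 0 → D = 0) → (d ρ₀ ≠ 0 → D.orderTop = (ν : WithTop ℚ) + t) →
        (s : WithTop ℚ) < D.orderTop := by
      intro D t ht h1 h2
      by_cases hd : d ρ₀ = 0
      · rw [h1 hd, HahnSeries.orderTop_zero]
        exact WithTop.coe_lt_top _
      · rw [h2 hd]
        have h3 : s ≤ r₀ + ν := by
          by_contra h4
          exact hcase ⟨hd, not_le.1 h4⟩
        exact lt_of_le_of_lt (by exact_mod_cast h3) (x3_add_lt ht)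
    refine ⟨s, r₀, ?_, ?_⟩
    · intro y₂
      constructor
      · rintro ⟨x₂, hA, hI⟩
        refine ⟨?_, hI.right⟩
        obtain ⟨h1, ψm, h2, rfl, h3⟩ := (hadm _ _).1 hA
        obtain ⟨D, hD0, hD, hfam⟩ := hkey ψm h2 h1
        have h6 := x3_add ((hfam y₂).1 h3) (hDs D _ h1 hD0 hD)
        rwa [sub_add_cancel] at h6
      · rintro ⟨h1, h2⟩
        obtain ⟨x₂, hx₂, hI⟩ := htr y₂ h2 x₁ r₀
        obtain ⟨ψm, h4, rfl⟩ := hemb x₂ hI.right hx₂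
        refine ⟨ψm x, (hadm _ _).2 ⟨hx₂, ψm, h4, rfl, ?_⟩, hI.symm⟩
        obtain ⟨D, hD0, hD, hfam⟩ := hkey ψm h4 hx₂
        exact (hfam y₂).2 (x3_sub h1 (hDs D _ hx₂ hD0 hD))
    · intro x₂
      constructor
      · rintro ⟨hA, hI⟩
        exact ⟨((hadm _ _).1 hA).1, hI.symm⟩
      · rintro ⟨h1, h2⟩
        refine ⟨?_, h2.symm⟩
        obtain ⟨ψm, h4, rfl⟩ := hemb x₂ h2.right h1
        refine (hadm _ _).2 ⟨h1, ψm, h4, rfl, ?_⟩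
        obtain ⟨D, hD0, hD, hfam⟩ := hkey ψm h4 h1
        refine (hfam y₁).2 ?_
        rw [sub_self, zero_sub, HahnSeries.orderTop_neg]
        exact hDs D _ h1 hD0 hD

omit [CharZero Ω] [IsAlgClosed Ω] [CharZero E] [CharZero M] [FiniteDimensional M N] in
private theorem x3b_comp (ψ₁ : N →+* HahnSeries ℚ Ω) :
    (ψ₁.comp (algebraMap M N)).comp (algebraMap E M) = ψ₁.comp (algebraMap E N) := by
  rw [RingHom.comp_assoc, ← IsScalarTower.algebraMap_eq]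

omit [CharZero Ω] [IsAlgClosed Ω] in
private theorem x3b_near (ψ₁ : N →+* HahnSeries ℚ Ω) (ρ₀ : N) :
    ∀ ρ ∈ T, (ψ₁ ρ₀ - ψ₁ ρ).orderTop ≤ (ψ₁ ρ₀ - ψ₁ ρ₀).orderTop := by
  intro ρ _
  rw [sub_self, HahnSeries.orderTop_zero]
  exact le_top

/-- an admissible pair over a root -/
private theorem x3b_adm (h : ExHyp x q T d S P P') (ψ₁ : N →+* HahnSeries ℚ Ω) (ρ₀ : N)
    (hρ₀ : ρ₀ ∈ T) (x₂ y₂ : HahnSeries ℚ Ω)
    (ha : Adm x P P' (ψ₁.comp (algebraMap M N)) (ψ₁ ρ₀) x₂ y₂) :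
    (∀ p ∈ P, rv (p.eval₂ (ψ₁.comp (algebraMap E N)) x₂) =
      rv (p.eval₂ (ψ₁.comp (algebraMap E N)) (ψ₁ (algebraMap M N x)))) ∧
    ∃ ψ₂ : N →+* HahnSeries ℚ Ω, ψ₂.comp (algebraMap E N) = ψ₁.comp (algebraMap E N) ∧
      y₂ = ψ₂ ρ₀ ∧ (x₂ = ψ₁ (algebraMap M N x) ∨ d ρ₀ = 0 → ψ₂ ρ₀ = ψ₁ ρ₀) ∧
      (x₂ ≠ ψ₁ (algebraMap M N x) → d ρ₀ ≠ 0 →
        rv (ψ₂ ρ₀ - ψ₁ ρ₀) = rv (ψ₁ (d ρ₀) * (x₂ - ψ₁ (algebraMap M N x)))) := by
  obtain ⟨hP, ψm, hψ, hx, hg⟩ := ha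
  rw [x3b_comp (M := M)] at hP hψ
  have hP' : ∀ p ∈ P, rv (p.eval₂ (ψ₁.comp (algebraMap E N)) x₂) =
      rv (p.eval₂ (ψ₁.comp (algebraMap E N)) (ψ₁ (algebraMap M N x))) := hP
  refine ⟨hP', ?_⟩
  obtain ⟨ψ₂, e1, e2, e3, e4⟩ := coh h ψ₁ ψm hψ (by rw [hx]; exact hP')
  have e5 := (fam_iff h ψ₁ ψ₂ e2 e3 (ψ₁ ρ₀) y₂ ρ₀ hρ₀ (x3b_near (T := T) ψ₁ ρ₀)).1 (by
    rw [e1]
    exact hg)
  have e6 : y₂ = ψ₂ ρ₀ := by
    rcases e5 with e5 | e5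
    · rw [sub_self, sub_eq_zero] at e5
      exact e5
    · rw [sub_self, HahnSeries.orderTop_zero] at e5
      exact absurd e5 not_top_lt
  have e7 := e4 ρ₀ hρ₀
  rw [hx] at e7
  refine ⟨ψ₂, ?_, e6, e7.1, e7.2⟩
  rw [← x3b_comp (M := M), e1, hψ]

omit [IsAlgClosed Ω] [CharZero Ω] in
private theorem x3b_trO (h : ExHyp x q T d S P P') (ψ₁ : N →+* HahnSeries ℚ Ω) :
    TrO (ψ₁.comp (algebraMap E N)) (ψ₁ (algebraMap M N x)) := by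
  rw [trO_map_iff]
  exact (transcendental_algebraMap_iff (algebraMap M N).injective).2 h.br.tr

/-- (T, A) over `N`: `y₁ = ψ₁ ρ₀`, a root. For `(x₂, y₂)` admissible with `ψm`: `coh` gives `ψ₂`; `ρ₀` is a nearest root of
`y₁` (`orderTop 0 = ⊤`), `fam_iff`: `y₂ = ψ₂ ρ₀` (`⊤ < _` is impossible). So `y₂ = y₁` if `d ρ₀ = 0` or `x₂ = x₁`, and
`v(y₂ - y₁) = ν + v(x₂ - x₁) > ν + r₀` otherwise (`ν = v(ψ₁(d ρ₀))`). Hence the first two statements. Third statement,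
`r := r₀ + ν`: `(⟹)` this; `TrO φ y₂`: `y₂ = ψ₂ ρ₀`, `trO_map_iff`, `d_eq_zero_iff`. `(⟸)` `branch_surj` for `y₂`, `r₀`, `ρ₀`
(`hyr`: `r < v(y₂ - ψ₁ρ₀)`): `ψ₂`, `x₂ := ψ₂ x`, `ψm := ψ₂|M`, `fam_iff` or `fam_match`. -/
theorem exch_TA (h : ExHyp x q T d S P P') (ψ₁ : N →+* HahnSeries ℚ Ω) (ρ₀ : N) (hρ₀ : ρ₀ ∈ T)
    (htr : ∀ y, TrO (ψ₁.comp (algebraMap E N)) y → ∀ (z : HahnSeries ℚ Ω) (s : ℚ),
      ∃ x' : HahnSeries ℚ Ω, (s : WithTop ℚ) < (x' - z).orderTop ∧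
        Ind2 (ψ₁.comp (algebraMap E N)) y x') :
    (d ρ₀ = 0 → ∀ x₂ y₂, Adm x P P' (ψ₁.comp (algebraMap M N)) (ψ₁ ρ₀) x₂ y₂ → y₂ = ψ₁ ρ₀) ∧
    (d ρ₀ ≠ 0 → (∀ x₂, Adm x P P' (ψ₁.comp (algebraMap M N)) (ψ₁ ρ₀) x₂ (ψ₁ ρ₀) →
        x₂ = ψ₁ (algebraMap M N x)) ∧
      ∃ r : ℚ, ∀ y₂, (∃ x₂, Adm x P P' (ψ₁.comp (algebraMap M N)) (ψ₁ ρ₀) x₂ y₂) ↔
        ((r : WithTop ℚ) < (y₂ - ψ₁ ρ₀).orderTop ∧
          TrO (ψ₁.comp (algebraMap E N)) y₂)) := by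
  classical
  have hcomp := x3b_comp (E := E) (M := M) (N := N) ψ₁
  refine ⟨?_, ?_⟩
  · intro hd x₂ y₂ ha
    obtain ⟨-, ψ₂, -, e2, e3, -⟩ := x3b_adm h ψ₁ ρ₀ hρ₀ x₂ y₂ ha
    rw [e2, e3 (Or.inr hd)]
  · intro hd
    have hd' : ψ₁ (d ρ₀) ≠ 0 := (map_ne_zero ψ₁).2 hd
    refine ⟨?_, ?_⟩
    · intro x₂ ha
      obtain ⟨-, ψ₂, -, e2, -, e4⟩ := x3b_adm h ψ₁ ρ₀ hρ₀ x₂ _ ha
      by_contra hne
      have h1 := e4 hne hd
      rw [← e2, sub_self] at h1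
      have h2 := (zero_iff_of_rv h1).1 rfl
      rcases mul_eq_zero.1 h2 with h2 | h2
      · exact hd' h2
      · exact hne (sub_eq_zero.1 h2)
    · obtain ⟨r₀, hr1, hr2⟩ := lev_radius h.X_P h.br.P_ne h.der_P (ψ₁.comp (algebraMap E N))
        (ψ₁ (algebraMap M N x)) (x3b_trO h ψ₁)
      refine ⟨r₀ + (ψ₁ (d ρ₀)).order, fun y₂ => ⟨?_, ?_⟩⟩
      · rintro ⟨x₂, ha⟩
        obtain ⟨hP, ψ₂, e1, e2, e3, e4⟩ := x3b_adm h ψ₁ ρ₀ hρ₀ x₂ y₂ ha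
        have hlt := (hr2 x₂).1 hP
        refine ⟨?_, ?_⟩
        · by_cases hx : x₂ = ψ₁ (algebraMap M N x)
          · rw [e2, e3 (Or.inl hx), sub_self, HahnSeries.orderTop_zero]
            exact WithTop.coe_lt_top _
          · have h1 := e4 hx hd
            rw [e2, orderTop_of_rv h1]
            have h3 : x₂ - ψ₁ (algebraMap M N x) ≠ 0 := sub_ne_zero.2 hx
            rw [← HahnSeries.order_eq_orderTop_of_ne_zero h3] at hlt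
            rw [← HahnSeries.order_eq_orderTop_of_ne_zero (mul_ne_zero hd' h3),
              HahnSeries.order_mul hd' h3]
            have h4 : r₀ < (x₂ - ψ₁ (algebraMap M N x)).order := by exact_mod_cast hlt
            have h5 : r₀ + (ψ₁ (d ρ₀)).order <
                (ψ₁ (d ρ₀)).order + (x₂ - ψ₁ (algebraMap M N x)).order := by linarith
            exact_mod_cast h5
        · rw [e2, ← e1, trO_map_iff]
          intro halg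
          exact hd ((d_eq_zero_iff x h.br.tr h.br.gen d h.br.dx ρ₀).2 halg)
      · rintro ⟨hlt, hy⟩
        obtain ⟨ψ₂, e1, e2, e3, e4⟩ := branch_surj h.br ψ₁ y₂ hy (fun z s => by
          obtain ⟨x', g1, g2⟩ := htr y₂ hy z s
          exact ⟨x', g1, g2.right⟩) r₀ hr1 ρ₀ hρ₀ hd hlt
        have hP : ∀ p ∈ P, rv (p.eval₂ (ψ₁.comp (algebraMap E N)) (ψ₂ (algebraMap M N x))) =
            rv (p.eval₂ (ψ₁.comp (algebraMap E N)) (ψ₁ (algebraMap M N x))) := (hr2 _).2 e3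
        have hψm : (ψ₂.comp (algebraMap M N)).comp (algebraMap E M) =
            ψ₁.comp (algebraMap E N) := by rw [x3b_comp, e1]
        obtain ⟨ψ₃, c1, -, c3, -⟩ := coh h ψ₁ (ψ₂.comp (algebraMap M N)) hψm hP
        have hl : ∀ g ∈ P', rv (ψ₂ (algebraMap M N g.leadingCoeff)) =
            rv (ψ₁ (algebraMap M N g.leadingCoeff)) := by
          intro g hg
          rw [← c3 g hg]
          have h1 : ψ₃.comp (algebraMap M N) g.leadingCoeff =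
              ψ₂.comp (algebraMap M N) g.leadingCoeff := by rw [c1]
          rw [RingHom.comp_apply, RingHom.comp_apply] at h1
          rw [h1]
        have hf := (fam_iff h ψ₁ ψ₂ e2 hl (ψ₁ ρ₀) y₂ ρ₀ hρ₀ (x3b_near (T := T) ψ₁ ρ₀)).2
          (Or.inl (by rw [e4, sub_self, sub_self]))
        refine ⟨ψ₂ (algebraMap M N x), ?_, ψ₂.comp (algebraMap M N), ?_, rfl, hf⟩
        · rw [hcomp]
          exact hP
        · rw [hcomp]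
          exact hψm

/-- (T, T), `N` hidden. Proof: take `ψ₁` an extension of `φ` to `N` (`ext_finite`). -/
theorem exch_TT' {x : M} {P : Finset (Polynomial E)} {P' : Finset (Polynomial M)}
    (h : Env x P P') (φ : M →+* HahnSeries ℚ Ω) (y₁ : HahnSeries ℚ Ω) (hy₁ : TrO φ y₁)
    (htr : ∀ y, TrO (φ.comp (algebraMap E M)) y → ∀ (z : HahnSeries ℚ Ω) (s : ℚ),
      ∃ x' : HahnSeries ℚ Ω, (s : WithTop ℚ) < (x' - z).orderTop ∧
        Ind2 (φ.comp (algebraMap E M)) y x') :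
    ∃ r r' : ℚ,
      (∀ y₂, (∃ x₂, Adm x P P' φ y₁ x₂ y₂ ∧ Ind2 (φ.comp (algebraMap E M)) x₂ y₂) ↔
        ((r : WithTop ℚ) < (y₂ - y₁).orderTop ∧ TrO (φ.comp (algebraMap E M)) y₂)) ∧
      ∀ x₂, (Adm x P P' φ y₁ x₂ y₁ ∧ Ind2 (φ.comp (algebraMap E M)) x₂ y₁) ↔
        ((r' : WithTop ℚ) < (x₂ - φ x).orderTop ∧ Ind2 (φ.comp (algebraMap E M)) y₁ x₂) := by
  obtain ⟨N, _, _, _, _, _, q, T, d, S, h⟩ := h
  obtain ⟨ψ₁, hψ₁⟩ := (ext_finite M N (HahnSeries ℚ Ω) φ).2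
  have hψ : ψ₁.comp (algebraMap M N) = φ := hψ₁
  subst hψ
  have hcomp := x3b_comp (E := E) (M := M) (N := N) ψ₁
  have h1 := exch_TT h ψ₁ y₁ hy₁ (by rw [hcomp] at htr; exact htr)
  rw [hcomp]
  exact h1

/-- (T, A), `N` hidden. Proof: `ψ₁` an extension of `φ` to `N`; `g ∈ P'` with root `y₁` at `φ`: by `fac`,
`y₁ = ψ₁ ρ₀` for some `ρ₀ ∈ T`. `d ρ₀ = 0 ↔ ¬ TrO (φ|E) y₁` by `d_eq_zero_iff` and `trO_map_iff`. -/
theorem exch_TA' {x : M} {P : Finset (Polynomial E)} {P' : Finset (Polynomial M)}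
    (h : Env x P P') (φ : M →+* HahnSeries ℚ Ω) (y₁ : HahnSeries ℚ Ω)
    (hy₁ : ∃ g ∈ P', g.eval₂ φ y₁ = 0)
    (htr : ∀ y, TrO (φ.comp (algebraMap E M)) y → ∀ (z : HahnSeries ℚ Ω) (s : ℚ),
      ∃ x' : HahnSeries ℚ Ω, (s : WithTop ℚ) < (x' - z).orderTop ∧
        Ind2 (φ.comp (algebraMap E M)) y x') :
    (¬ TrO (φ.comp (algebraMap E M)) y₁ → ∀ x₂ y₂, Adm x P P' φ y₁ x₂ y₂ → y₂ = y₁) ∧
    (TrO (φ.comp (algebraMap E M)) y₁ → (∀ x₂, Adm x P P' φ y₁ x₂ y₁ → x₂ = φ x) ∧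
      ∃ r : ℚ, ∀ y₂, (∃ x₂, Adm x P P' φ y₁ x₂ y₂) ↔
        ((r : WithTop ℚ) < (y₂ - y₁).orderTop ∧ TrO (φ.comp (algebraMap E M)) y₂)) := by
  classical
  obtain ⟨N, _, _, _, _, _, q, T, d, S, h⟩ := h
  obtain ⟨ψ₁, hψ₁⟩ := (ext_finite M N (HahnSeries ℚ Ω) φ).2
  have hψ : ψ₁.comp (algebraMap M N) = φ := hψ₁
  subst hψ
  have hcomp := x3b_comp (E := E) (M := M) (N := N) ψ₁
  obtain ⟨g, hg, hg0⟩ := hy₁
  obtain ⟨m, hm, hfac⟩ := h.fac g hg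
  obtain ⟨ρ₀, hρ₀, rfl⟩ : ∃ ρ₀ ∈ T, ψ₁ ρ₀ = y₁ := by
    rw [← Polynomial.eval₂_map, hfac, Polynomial.eval₂_mul, Polynomial.eval₂_C] at hg0
    have hl : ψ₁ (algebraMap M N g.leadingCoeff) ≠ 0 :=
      (map_ne_zero ψ₁).2 ((map_ne_zero (algebraMap M N)).2
        (Polynomial.leadingCoeff_ne_zero.2 (h.ne' g hg)))
    have h2 := (mul_eq_zero.1 hg0).resolve_left hl
    have h3 : (m.map fun ρ => y₁ - ψ₁ ρ).prod = 0 := by
      rw [← h2, ← Polynomial.coe_eval₂RingHom, map_multiset_prod, Multiset.map_map]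
      congr 1
      refine Multiset.map_congr rfl fun ρ _ => ?_
      simp
    rw [Multiset.prod_eq_zero_iff, Multiset.mem_map] at h3
    obtain ⟨ρ₀, h4, h5⟩ := h3
    exact ⟨ρ₀, hm ρ₀ h4, (sub_eq_zero.1 h5).symm⟩
  have h1 := exch_TA h ψ₁ ρ₀ hρ₀ (by rw [hcomp] at htr; exact htr)
  rw [hcomp]
  have hiff : d ρ₀ = 0 ↔ ¬ TrO (ψ₁.comp (algebraMap E N)) (ψ₁ ρ₀) := by
    rw [d_eq_zero_iff x h.br.tr h.br.gen d h.br.dx ρ₀, trO_map_iff]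
    exact (not_not (a := IsAlgebraic E ρ₀)).symm
  refine ⟨fun h2 => h1.1 (hiff.2 h2), fun h2 => ?_⟩
  exact h1.2 fun h3 => (hiff.1 h3) h2

end

end KTS.X

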