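import Pool.Agent.KTS.X0

/-!
[KTS-X5] Existence of the environment.
-/

set_option autoImplicit false

namespace KTS.X

noncomputable section

universe u

open Polynomial

variable {E M : Type u} [Field E] [CharZero E] [Field M] [CharZero M] [Algebra E M]

/-- Existence of the derivation. Proof: `E[X] → N`, `X ↦ x`, is formally etale (`M` is a localisation of `E[X]` =
its field of fractions, `N / M` is finite separable: `Algebra.FormallyEtale.comp`), and the `E`-derivation
`derivative`-like `E[X] → N`, `p ↦ p'(x)` extends uniquely to `N` (`KaehlerDifferential.tensorKaehlerEquiv...`); or by hand: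
`N = M(θ)`, `θ` with minimal polynomial `f`; `d (∑ c_i θ^i) = ∑ c_i' θ^i + (∑ i c_i θ^{i-1}) θ'`,
`θ' = - (∑ f_i' θ^i) / f'(θ)`. -/
theorem exists_der (N : Type u) [Field N] [Algebra M N] [Algebra E N] [IsScalarTower E M N]
    [FiniteDimensional M N] (x : M) (htr : Transcendental E x)
    (hgen : IntermediateField.adjoin E {x} = ⊤) :
    ∃ d : Derivation E N N, d (algebraMap M N x) = 1 := by
  let a1 : Algebra E[X] M := (aeval x : E[X] →ₐ[E] M).toRingHom.toAlgebra
  have ha1 : ∀ p : E[X], algebraMap E[X] M p = aeval x p := fun p => rfl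
  have hinj : Function.Injective (algebraMap E[X] M) := by
    have h := transcendental_iff_injective.1 htr
    exact h
  have t1 : IsScalarTower E E[X] M := IsScalarTower.of_algebraMap_eq fun r => by
    rw [ha1, Polynomial.algebraMap_eq, aeval_C]
  have f1 : IsFractionRing E[X] M := by
    have f0 : FaithfulSMul E[X] M := (faithfulSMul_iff_algebraMap_injective E[X] M).2 hinj
    refine IsFractionRing.of_field E[X] M fun z => ?_
    have hz : z ∈ IntermediateField.adjoin E {x} := by
      rw [hgen]
      exact IntermediateField.mem_top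
    obtain ⟨r, s, hrs⟩ := (IntermediateField.mem_adjoin_simple_iff E z).1 hz
    exact ⟨r, s, hrs⟩
  let a2 : Algebra E[X] N := ((algebraMap M N).comp (algebraMap E[X] M)).toAlgebra
  have t2 : IsScalarTower E[X] M N := IsScalarTower.of_algebraMap_eq' rfl
  have t3 : IsScalarTower E E[X] N := IsScalarTower.of_algebraMap_eq fun r => by
    rw [IsScalarTower.algebraMap_apply E[X] M N, ← IsScalarTower.algebraMap_apply E E[X] M,
      ← IsScalarTower.algebraMap_apply E M N]
  have e1 : Algebra.FormallyEtale E[X] M :=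
    Algebra.FormallyEtale.of_isLocalization (nonZeroDivisors E[X])
  have e2 : Algebra.FormallyEtale M N := Algebra.FormallyEtale.of_isSeparable M N
  have e3 : Algebra.FormallyEtale E[X] N := Algebra.FormallyEtale.comp E[X] M N
  let l : Ω[E[X]⁄E] →ₗ[E[X]] N :=
    (Algebra.linearMap E[X] N).comp (KaehlerDifferential.polynomialEquiv E).toLinearMap
  let L : Ω[N⁄E] →ₗ[N] N := (LinearMap.liftBaseChange N l).comp
    (KaehlerDifferential.tensorKaehlerEquivOfFormallyEtale E E[X] N).symm.toLinearMap
  refine ⟨L.compDer (KaehlerDifferential.D E N), ?_⟩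
  have h1 : algebraMap M N x = algebraMap E[X] N X := by
    rw [IsScalarTower.algebraMap_apply E[X] M N, ha1, aeval_X]
  change L (KaehlerDifferential.D E N (algebraMap M N x)) = 1
  rw [h1]
  change (LinearMap.liftBaseChange N l) ((KaehlerDifferential.tensorKaehlerEquivOfFormallyEtale
    E E[X] N).symm (KaehlerDifferential.D E N (algebraMap E[X] N X))) = 1
  rw [KaehlerDifferential.tensorKaehlerEquivOfFormallyEtale_symm_D_algebraMap,
    LinearMap.liftBaseChange_tmul, one_smul]
  change algebraMap E[X] N (KaehlerDifferential.polynomialEquiv E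
    (KaehlerDifferential.D E E[X] X)) = 1
  rw [KaehlerDifferential.polynomialEquiv_D, derivative_X, map_one]

omit [CharZero E] [Field E] [Algebra E M] in
private theorem x5b_q (N : Type u) [Field N] [Algebra M N] (G : Polynomial M) (hG : G ≠ 0)
    (hs : (G.map (algebraMap M N)).Splits) (T : Finset N)
    (hT : ∀ ρ, ρ ∈ T ↔ (G.map (algebraMap M N)).IsRoot ρ) :
    ∃ q : Polynomial M, q.map (algebraMap M N) = ∏ ρ ∈ T, (X - C ρ) := by
  classical
  have hinj := (algebraMap M N).injective
  set q0 : Polynomial M := UniqueFactorizationMonoid.radical G with hq0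
  have hq0ne : q0 ≠ 0 := UniqueFactorizationMonoid.radical_ne_zero
  have hlc : q0.leadingCoeff ≠ 0 := leadingCoeff_ne_zero.2 hq0ne
  have hdvd : q0 ∣ G := UniqueFactorizationMonoid.radical_dvd_self
  have hsq : Squarefree q0 := UniqueFactorizationMonoid.squarefree_radical
  have hsep : (q0.map (algebraMap M N)).Separable :=
    (PerfectField.separable_iff_squarefree.2 hsq).map
  have hGN : G.map (algebraMap M N) ≠ 0 := (Polynomial.map_ne_zero_iff hinj).2 hG
  have hq0N : q0.map (algebraMap M N) ≠ 0 := (Polynomial.map_ne_zero_iff hinj).2 hq0ne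
  have hspl : (q0.map (algebraMap M N)).Splits :=
    hs.of_dvd hGN (Polynomial.map_dvd (algebraMap M N) hdvd)
  have hroots : (q0.map (algebraMap M N)).roots = T.val := by
    rw [← Multiset.dedup_eq_self.2 (nodup_roots hsep), ← Multiset.toFinset_val]
    congr 1
    ext ρ
    rw [Multiset.mem_toFinset, mem_roots hq0N, hT]
    constructor
    · intro h
      exact h.dvd (Polynomial.map_dvd (algebraMap M N) hdvd)
    · intro h
      obtain ⟨n, hn⟩ := (UniqueFactorizationMonoid.exists_dvd_pow_iff_radical_dvd (b := q0) hG).2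
        dvd_rfl
      have h1 : ((q0 ^ n).map (algebraMap M N)).IsRoot ρ :=
        h.dvd (Polynomial.map_dvd (algebraMap M N) hn)
      rw [Polynomial.map_pow, IsRoot.def, eval_pow] at h1
      exact not_not.1 (fun hcon => pow_ne_zero n hcon h1)
  refine ⟨C q0.leadingCoeff⁻¹ * q0, ?_⟩
  rw [Polynomial.map_mul, map_C, hspl.eq_prod_roots, hroots, leadingCoeff_map, ← mul_assoc, ← C_mul,
    ← map_mul, inv_mul_cancel₀ hlc, map_one, C_1, one_mul]
  rfl

/-- Existence of the environment: there is a finite set `A` of elements of `M` such that every suitable family `P`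
with the elements of `A` among its quotients gives an environment.

Proof. `N := SplittingField (∏_{g ∈ P'} g)` with `Algebra E N := ((algebraMap M N).comp (algebraMap E M)).toAlgebra`;
`T` = the set of roots in `N` of `∏ g` (contains `0`), `q` = the product of the distinct monic irreducible factors of
`∏ g` over `M` (characteristic `0`: `q.map = ∏_{ρ ∈ T} (X - C ρ)`; or: `∏_{ρ ∈ T} (X - C ρ)` is
invariant under `Gal(N/M)`, `N / M` Galois, so it comes from `M[X]`); `d` from `exists_der`;
`S := {ρ - ρ' : ρ ≠ ρ' ∈ T} ∪ {d ρ : ρ ∈ T, d ρ ≠ 0}`; `A` := coefficients of `q`, coefficients of `nform M N S`, leading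
coefficients of the `g ∈ P'`. -/
theorem exists_env (x : M) (htr : Transcendental E x)
    (hgen : IntermediateField.adjoin E {x} = ⊤) (P' : Finset (Polynomial M))
    (hne : ∀ g ∈ P', g ≠ 0) (hX : X ∈ P')
    (hder : ∀ g ∈ P', derivative g ≠ 0 → derivative g ∈ P') :
    ∃ A : Finset M, ∀ P : Finset (Polynomial E), (∀ p ∈ P, p ≠ 0) → X ∈ P →
      (∀ p ∈ P, derivative p ≠ 0 → derivative p ∈ P) →
      (∀ c ∈ A, c ≠ 0 → QuoP P x c) → Env x P P' := by
  classical
  set G : Polynomial M := ∏ g ∈ P', g with hG
  have hG0 : G ≠ 0 := Finset.prod_ne_zero_iff.2 hne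
  have hspl : (G.map (algebraMap M G.SplittingField)).Splits := SplittingField.splits G
  have hGN : G.map (algebraMap M G.SplittingField) ≠ 0 :=
    (Polynomial.map_ne_zero_iff (algebraMap M G.SplittingField).injective).2 hG0
  set T : Finset G.SplittingField := (G.map (algebraMap M G.SplittingField)).roots.toFinset with hT
  have hTr : ∀ ρ, ρ ∈ T ↔ (G.map (algebraMap M G.SplittingField)).IsRoot ρ := by
    intro ρ
    rw [hT, Multiset.mem_toFinset, mem_roots hGN]
  obtain ⟨q, hq⟩ := x5b_q G.SplittingField G hG0 hspl T hTr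
  obtain ⟨d, hd⟩ := exists_der G.SplittingField x htr hgen
  set S : Finset G.SplittingField := (((T ×ˢ T).image (fun p => p.1 - p.2)).filter (fun s => s ≠ 0)) ∪
    ((T.image (fun ρ => d ρ)).filter (fun s => s ≠ 0)) with hS
  have hdvd : ∀ g ∈ P', g ∣ G := fun g hg => Finset.dvd_prod_of_mem _ hg
  refine ⟨q.support.image (fun j => q.coeff j) ∪
    ((nform M G.SplittingField S).support.image (fun m => (nform M G.SplittingField S).coeff m)) ∪
    P'.image (fun g => g.leadingCoeff), ?_⟩
  intro P hP0 hXP hPder hA
  refine ⟨G.SplittingField, inferInstance, inferInstance, inferInstance, inferInstance,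
    inferInstance, q, T, d, S, ?_⟩
  refine ⟨⟨htr, hgen, hq, hd, ?_, ?_, ?_, hP0, ?_, ?_⟩, hXP, hPder, hne, hX, hder, ?_, ?_, ?_⟩
  · intro s hs
    rw [hS, Finset.mem_union, Finset.mem_filter, Finset.mem_filter] at hs
    rcases hs with hs | hs
    · exact hs.2
    · exact hs.2
  · intro ρ hρ ρ' hρ' hn
    rw [hS, Finset.mem_union, Finset.mem_filter]
    left
    refine ⟨Finset.mem_image.2 ⟨(ρ, ρ'), Finset.mem_product.2 ⟨hρ, hρ'⟩, rfl⟩, sub_ne_zero.2 hn⟩
  · intro ρ hρ hn
    rw [hS, Finset.mem_union, Finset.mem_filter, Finset.mem_filter]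
    right
    exact ⟨Finset.mem_image.2 ⟨ρ, hρ, rfl⟩, hn⟩
  · intro j hj
    apply hA _ _ hj
    rw [Finset.mem_union, Finset.mem_union]
    left; left
    exact Finset.mem_image.2 ⟨j, mem_support_iff.2 hj, rfl⟩
  · intro m hm
    apply hA _ _ (MvPolynomial.mem_support_iff.1 hm)
    rw [Finset.mem_union, Finset.mem_union]
    left; right
    exact Finset.mem_image.2 ⟨m, hm, rfl⟩
  · intro g hg
    have hgN : (g.map (algebraMap M G.SplittingField)).Splits :=
      hspl.of_dvd hGN (Polynomial.map_dvd _ (hdvd g hg))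
    refine ⟨(g.map (algebraMap M G.SplittingField)).roots, ?_, ?_⟩
    · intro ρ hρ
      rw [hTr]
      have h1 := (mem_roots'.1 hρ).2
      exact h1.dvd (Polynomial.map_dvd _ (hdvd g hg))
    · have h1 := hgN.eq_prod_roots
      rw [leadingCoeff_map] at h1
      exact h1
  · intro ρ hρ
    rw [hTr] at hρ
    have h2 : G.map (algebraMap M G.SplittingField) =
        ∏ g ∈ P', g.map (algebraMap M G.SplittingField) :=
      Polynomial.map_prod (algebraMap M G.SplittingField) (fun g => g) P'
    rw [h2, IsRoot.def, eval_prod, Finset.prod_eq_zero_iff] at hρ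
    exact hρ
  · intro g hg
    apply hA _ _ (leadingCoeff_ne_zero.2 (hne g hg))
    rw [Finset.mem_union]
    right
    exact Finset.mem_image.2 ⟨g, hg, rfl⟩

end

end KTS.X

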