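import Pool.Agent.KTS.X3

import Pool.Agent.KTS.X5

/-!
[KTS-X6] Dictionary between towers (over `F`) and the core statements (over `E`, `M`).
-/

set_option autoImplicit false

namespace KTS.X

noncomputable section

universe u

open Polynomial

/-! ### Lifts of polynomials (small lemmas) -/

section Lift

variable {k F : Type u} [Field k] [Field F] [Algebra (HahnSeries ℚ k) F]

/-- Proof: compare coefficients (`Polynomial.sum_monomial_eq` style). -/
theorem lft_coeff (L : IntermediateField (HahnSeries ℚ k) F) (g : F[X])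
    (hg : ∀ n, g.coeff n ∈ L) (n : ℕ) : ((lft L g).coeff n : F) = g.coeff n := by
  classical
  unfold lft
  rw [finsetSum_coeff]
  simp only [coeff_monomial]
  rw [Finset.sum_ite_eq']
  by_cases hn : n ∈ g.support
  · rw [if_pos hn, dif_pos (hg n)]
  · rw [if_neg hn]
    rw [Polynomial.notMem_support_iff.1 hn]
    rfl

theorem lft_map (L : IntermediateField (HahnSeries ℚ k) F) (g : F[X])
    (hg : ∀ n, g.coeff n ∈ L) : (lft L g).map (algebraMap L F) = g := by
  ext n
  rw [coeff_map]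
  exact lft_coeff L g hg n

/-- `lft` commutes with the derivative. -/
theorem lft_derivative (L : IntermediateField (HahnSeries ℚ k) F) (g : F[X])
    (hg : ∀ n, g.coeff n ∈ L) : lft L (derivative g) = derivative (lft L g) := by
  have hg' : ∀ n, (derivative g).coeff n ∈ L := by
    intro n
    rw [coeff_derivative]
    exact L.mul_mem (hg _) (L.add_mem (natCast_mem L n) L.one_mem)
  apply Polynomial.map_injective (algebraMap L F) (algebraMap L F).injective
  rw [lft_map L _ hg', ← derivative_map, lft_map L g hg]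

theorem lft_X (L : IntermediateField (HahnSeries ℚ k) F) : lft L (X : F[X]) = X := by
  apply Polynomial.map_injective (algebraMap L F) (algebraMap L F).injective
  rw [lft_map L _ ?_, map_X]
  intro n
  rw [coeff_X]
  split_ifs
  · exact L.one_mem
  · exact L.zero_mem

/-- Lifts of `P` and elements of `P`. -/
theorem mem_lftS (L : IntermediateField (HahnSeries ℚ k) F) (P : Finset F[X])
    (hP : ∀ g ∈ P, ∀ n, g.coeff n ∈ L) (p : Polynomial L) :
    p ∈ lftS L P ↔ p.map (algebraMap L F) ∈ P := by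
  classical
  unfold lftS
  rw [Finset.mem_image]
  constructor
  · rintro ⟨g, hg, rfl⟩
    rw [lft_map L g (hP g hg)]
    exact hg
  · intro h
    refine ⟨_, h, ?_⟩
    apply Polynomial.map_injective (algebraMap L F) (algebraMap L F).injective
    rw [lft_map L _ (hP _ h)]

end Lift

variable {k Ω F : Type u} [Field k] [Field Ω] [Algebra k Ω] [CharZero k] [IsAlgClosed k]
  [CharZero Ω] [IsAlgClosed Ω] [Field F] [Algebra (HahnSeries ℚ k) F]

omit [CharZero k] [IsAlgClosed k] [CharZero Ω] [IsAlgClosed Ω] in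
/-- `AlgO` and `TrO`. Proof: `lft_map`; `eval₂` and `map`. -/
theorem not_algO_iff (φ : Pt k Ω F) (L : IntermediateField (HahnSeries ℚ k) F)
    (y : HahnSeries ℚ Ω) :
    ¬ AlgO φ L y ↔ TrO ((φ : F →+* HahnSeries ℚ Ω).comp (algebraMap L F)) y := by
  constructor
  · intro h g hg hgy
    apply h
    refine ⟨g.map (algebraMap L F), ?_, ?_, ?_⟩
    · exact (Polynomial.map_ne_zero_iff (algebraMap L F).injective).2 hg
    · intro n
      rw [coeff_map]
      exact (g.coeff n).2
    · rw [Polynomial.map_map, eval_map]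
      exact hgy
  · rintro h ⟨g, hg, hgL, hgy⟩
    have hm := lft_map L g hgL
    have hne : lft L g ≠ 0 := by
      intro h0
      rw [h0, Polynomial.map_zero] at hm
      exact hg hm.symm
    apply h (lft L g) hne
    rw [← eval_map, ← Polynomial.map_map, hm]
    exact hgy

omit [CharZero k] [IsAlgClosed k] [CharZero Ω] [IsAlgClosed Ω] in
/-- `AlgO` over an algebraic extension. Proof: the images `φ(L) ≤ φ(L')`, `φ(L')` algebraic over `φ(L)`; transitivity of
algebraicity. -/
theorem algO_congr (φ : Pt k Ω F) (L L' : IntermediateField (HahnSeries ℚ k) F) (hL : L ≤ L')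
    (hal : ∀ z ∈ L', IsAlgebraic L z) (y : HahnSeries ℚ Ω) : AlgO φ L' y ↔ AlgO φ L y := by
  constructor
  · intro h
    by_contra hcon
    have h1 := (not_algO_iff φ L y).1 hcon
    have h2 := (not_algO_iff φ L' y).not.1 (not_not.2 h)
    apply h2
    intro g hg hgy
    letI i1 : Algebra L L' := ((IntermediateField.inclusion hL : L →ₐ[HahnSeries ℚ k] L') :
      L →+* L').toAlgebra
    letI i2 : Algebra L (HahnSeries ℚ Ω) :=
      ((φ : F →+* HahnSeries ℚ Ω).comp (algebraMap L F)).toAlgebra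
    letI i3 : Algebra L' (HahnSeries ℚ Ω) :=
      ((φ : F →+* HahnSeries ℚ Ω).comp (algebraMap L' F)).toAlgebra
    haveI t1 : IsScalarTower L L' (HahnSeries ℚ Ω) := IsScalarTower.of_algebraMap_eq (fun z => rfl)
    haveI t2 : IsScalarTower L L' F := IsScalarTower.of_algebraMap_eq (fun z => rfl)
    haveI a1 : Algebra.IsAlgebraic L L' := by
      constructor
      intro z
      have h3 := hal z.1 z.2
      exact (isAlgebraic_algebraMap_iff (R := L) (A := F) (algebraMap L' F).injective).1 h3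
    have h4 : IsAlgebraic L' y := ⟨g, hg, hgy⟩
    obtain ⟨f, hf, hfy⟩ := h4.restrictScalars L
    exact h1 f hf hfy
  · rintro ⟨g, hg, hgL, hgy⟩
    exact ⟨g, hg, fun n => hL (hgL n), hgy⟩

omit [CharZero k] [IsAlgClosed k] [CharZero Ω] [IsAlgClosed Ω] in
/-- Two points which agree on the first `i` generators agree on `lev k x i`. -/
theorem agree_lev (x : ℕ → F) (i : ℕ) (φ ψ : Pt k Ω F) (h : ∀ j < i, ψ (x j) = φ (x j)) :
    ∀ z ∈ lev k x i, ψ z = φ z := by
  intro z hz
  unfold lev at hz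
  induction hz using IntermediateField.adjoin_induction with
  | mem z hz =>
    obtain ⟨j, hj, rfl⟩ := hz
    exact h j hj
  | algebraMap a => rw [AlgHom.commutes, AlgHom.commutes]
  | add a b _ _ ha hb => rw [map_add, map_add, ha, hb]
  | inv a _ ha => rw [map_inv₀, map_inv₀, ha]
  | mul a b _ _ ha hb => rw [map_mul, map_mul, ha, hb]

omit [CharZero k] [IsAlgClosed k] in
private theorem x6_aeval (x : ℕ → F) (i : ℕ) (p : Polynomial (lev k x i)) :
    letI := levAlg k x i
    ((aeval (⟨x i, mem_lev x i⟩ : lev k x (i + 1)) p : lev k x (i + 1)) : F) =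
      (p.map (algebraMap (lev k x i) F)).eval (x i) := by
  letI := levAlg k x i
  show (algebraMap (lev k x (i + 1)) F) (aeval (⟨x i, mem_lev x i⟩ : lev k x (i + 1)) p) = _
  rw [aeval_def, hom_eval₂, eval_map]
  rfl

omit [CharZero k] [IsAlgClosed k] [CharZero Ω] [IsAlgClosed Ω] in
/-- `Quo` and `QuoP`. `Quo x P (i + 1) c` with `c ∈ lev k x (i + 1)`. -/
theorem quoP_of_quo (x : ℕ → F) (P : ℕ → Finset F[X]) (i : ℕ)
    (hc : ∀ g ∈ P i, ∀ n, g.coeff n ∈ lev k x i) (c : lev k x (i + 1))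
    (h : Quo (k := k) x P (i + 1) (c : F)) :
    letI := levAlg k x i
    QuoP (lftS (lev k x i) (P i)) (⟨x i, mem_lev x i⟩ : lev k x (i + 1)) c := by
  letI := levAlg k x i
  obtain ⟨g, hg, h, hh, hg0, hh0, he⟩ := h
  refine ⟨lft (lev k x i) g, ?_, lft (lev k x i) h, ?_, ?_⟩
  · rw [mem_lftS _ _ hc, lft_map _ _ (hc g hg)]
    exact hg
  · rw [mem_lftS _ _ hc, lft_map _ _ (hc h hh)]
    exact hh
  · apply Subtype.ext
    rw [MulMemClass.coe_mul, x6_aeval, x6_aeval, lft_map _ _ (hc g hg), lft_map _ _ (hc h hh), he,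
      div_mul_cancel₀ _ hh0]

omit [CharZero k] [IsAlgClosed k] [CharZero Ω] [IsAlgClosed Ω] in
/-- `lev k x (i + 1) = (lev k x i)(x i)`, and types. -/
theorem lev_gen (x : ℕ → F) (i : ℕ) :
    letI := levAlg k x i
    IntermediateField.adjoin (lev k x i) {(⟨x i, mem_lev x i⟩ : lev k x (i + 1))} = ⊤ := by
  letI := levAlg k x i
  rw [eq_top_iff]
  rintro ⟨z, hz⟩ -
  have key : ∀ (z : F) (hz : z ∈ lev k x (i + 1)), (⟨z, hz⟩ : lev k x (i + 1)) ∈
      IntermediateField.adjoin (lev k x i) {(⟨x i, mem_lev x i⟩ : lev k x (i + 1))} := by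
    intro z hz
    have hz' := hz
    unfold lev at hz'
    induction hz' using IntermediateField.adjoin_induction with
    | mem z hz1 =>
      obtain ⟨j, hj, rfl⟩ := hz1
      rcases Nat.lt_succ_iff_lt_or_eq.1 hj with hj | hj
      · have h1 : x j ∈ lev k x i := IntermediateField.subset_adjoin _ _ ⟨j, hj, rfl⟩
        exact IntermediateField.algebraMap_mem _ (⟨x j, h1⟩ : lev k x i)
      · subst hj
        exact IntermediateField.subset_adjoin _ _ rfl
    | algebraMap a =>
      exact IntermediateField.algebraMap_mem _ (algebraMap (HahnSeries ℚ k) (lev k x i) a)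
    | add a b ha hb iha ihb => exact add_mem (iha ha) (ihb hb)
    | inv a ha iha => exact inv_mem (iha ha)
    | mul a b ha hb iha ihb => exact mul_mem (iha ha) (ihb hb)
  exact key z hz

omit [CharZero k] [IsAlgClosed k] [CharZero Ω] [IsAlgClosed Ω] in
theorem lev_tr (x : ℕ → F) (i : ℕ) :
    letI := levAlg k x i
    Transcendental (lev k x i) (⟨x i, mem_lev x i⟩ : lev k x (i + 1)) ↔
      Transcendental (lev k x i) (x i) := by
  letI := levAlg k x i
  haveI : IsScalarTower (lev k x i) (lev k x (i + 1)) F :=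
    IsScalarTower.of_algebraMap_eq (fun z => rfl)
  exact (transcendental_algebraMap_iff (R := lev k x i)
    (algebraMap (lev k x (i + 1)) F).injective).symm

omit [CharZero k] [IsAlgClosed k] in
theorem x6c_mem (L : IntermediateField (HahnSeries ℚ k) F) (P : Finset F[X]) (p : Polynomial L)
    (hp : p ∈ lftS L P) : ∃ g ∈ P, lft L g = p := by
  classical
  exact Finset.mem_image.1 hp

omit [CharZero k] [IsAlgClosed k] [CharZero Ω] [IsAlgClosed Ω] in
/-- The coordinate of `g ∈ P i`. -/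
theorem x6c_coord (x : ℕ → F) (P : ℕ → Finset F[X]) (φ ψ : Pt k Ω F) :
    ∀ N : ℕ, rvt (helt x P N) ψ = rvt (helt x P N) φ → ∀ i < N, ∀ g ∈ P i,
      rv (ψ (g.eval (x i))) = rv (φ (g.eval (x i))) := by
  intro N
  induction N with
  | zero => intro _ i hi; exact absurd hi (Nat.not_lt_zero i)
  | succ N ih =>
    intro h i hi g hg
    rcases Nat.lt_succ_iff_lt_or_eq.1 hi with h1 | h1
    · exact ih (funext fun j => congrFun h (Sum.inl j)) i h1 g hg
    · subst h1
      exact congrFun h (Sum.inr ⟨g, hg⟩)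

omit [CharZero k] [IsAlgClosed k] [CharZero Ω] [IsAlgClosed Ω] in
/-- Values of lifts. -/
theorem x6c_eval (φ : Pt k Ω F) (L : IntermediateField (HahnSeries ℚ k) F) (g : F[X])
    (hg : ∀ n, g.coeff n ∈ L) (y : HahnSeries ℚ Ω) :
    (lft L g).eval₂ ((φ : F →+* HahnSeries ℚ Ω).comp (algebraMap L F)) y =
      (g.map (φ : F →+* HahnSeries ℚ Ω)).eval y := by
  conv_rhs => rw [← lft_map L g hg]
  rw [Polynomial.map_map, Polynomial.eval_map]

omit [CharZero k] [IsAlgClosed k] [CharZero Ω] [IsAlgClosed Ω] in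
theorem x6c_map (x : ℕ → F) (i : ℕ) (φ ψ : Pt k Ω F) (h : ∀ j < i, ψ (x j) = φ (x j)) (g : F[X])
    (hg : ∀ n, g.coeff n ∈ lev k x i) :
    g.map (ψ : F →+* HahnSeries ℚ Ω) = g.map (φ : F →+* HahnSeries ℚ Ω) := by
  ext1 n
  rw [Polynomial.coeff_map, Polynomial.coeff_map]
  exact agree_lev x i φ ψ h _ (hg n)

omit [CharZero k] [IsAlgClosed k] [CharZero Ω] [IsAlgClosed Ω] in
theorem x6c_comp (φ : Pt k Ω F) (x : ℕ → F) (i : ℕ) :
    letI := levAlg k x i
    ((φ : F →+* HahnSeries ℚ Ω).comp (algebraMap (lev k x (i + 1)) F)).comp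
      (algebraMap (lev k x i) (lev k x (i + 1))) =
      (φ : F →+* HahnSeries ℚ Ω).comp (algebraMap (lev k x i) F) := by
  let _ := levAlg k x i
  refine RingHom.ext fun z => ?_
  rw [RingHom.comp_apply, RingHom.comp_apply, RingHom.comp_apply]
  exact congrArg (φ : F →+* HahnSeries ℚ Ω)
    (show algebraMap (lev k x (i + 1)) F (algebraMap (lev k x i) (lev k x (i + 1)) z) =
      algebraMap (lev k x i) F z from IntermediateField.coe_inclusion (lev_le x i) z)

/-- A point of the fibre gives an admissible pair. Proof: `agree_lev`; level `i`: `rvt` at the coordinates `g (x i)`, `g ∈ P i`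
(`Idx P N` contains `Idx P (i + 1)`), the coefficients of `g` are in `lev k x i`, where `ψ = φ`; the embedding is `ψ|M`. -/
theorem adm_of_mem (x : ℕ → F) (N : ℕ) (P : ℕ → Finset F[X]) (hT : Twr k Ω x N P) (i : ℕ)
    (hi : i + 1 < N) (φ ψ : Pt k Ω F) (hD : rvt (helt x P N) ψ = rvt (helt x P N) φ)
    (hj : ∀ j < i, ψ (x j) = φ (x j)) :
    letI := levAlg k x i
    Adm (⟨x i, mem_lev x i⟩ : lev k x (i + 1)) (lftS (lev k x i) (P i))
      (lftS (lev k x (i + 1)) (P (i + 1)))
      ((φ : F →+* HahnSeries ℚ Ω).comp (algebraMap (lev k x (i + 1)) F))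
      (φ (x (i + 1))) (ψ (x i)) (ψ (x (i + 1))) := by
  let _ := levAlg k x i
  have hev : ∀ (χ : Pt k Ω F) (g : F[X]) (y : F), (g.map (χ : F →+* HahnSeries ℚ Ω)).eval (χ y) =
      χ (g.eval y) := fun χ g y => Polynomial.eval_map_apply (χ : F →+* HahnSeries ℚ Ω) y
  refine ⟨?_, (ψ : F →+* HahnSeries ℚ Ω).comp (algebraMap (lev k x (i + 1)) F), ?_, rfl, ?_⟩
  · intro p hp
    obtain ⟨g, hg, rfl⟩ := x6c_mem _ _ p hp
    have hc := hT.coeff i (by omega) g hg
    rw [x6c_comp, x6c_eval φ _ g hc, x6c_eval φ _ g hc]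
    have e1 : ((φ : F →+* HahnSeries ℚ Ω).comp (algebraMap (lev k x (i + 1)) F))
        ⟨x i, mem_lev x i⟩ = φ (x i) := rfl
    rw [e1, hev, ← x6c_map x i φ ψ hj g hc, hev]
    exact x6c_coord x P φ ψ N hD i (by omega) g hg
  · rw [x6c_comp, x6c_comp]
    refine RingHom.ext fun z => ?_
    rw [RingHom.comp_apply, RingHom.comp_apply]
    exact agree_lev x i φ ψ hj _ z.2
  · intro p hp
    obtain ⟨g, hg, rfl⟩ := x6c_mem _ _ p hp
    have hc := hT.coeff (i + 1) hi g hg
    rw [x6c_eval φ _ g hc, x6c_eval ψ _ g hc, hev, hev]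
    exact x6c_coord x P φ ψ N hD (i + 1) hi g hg

/-- extension of an embedding to a simple extension -/
theorem X6d_ext {K L U : Type u} [Field K] [Field L] [Field U] [Algebra K L] [Algebra K U]
    (a : L) (b : U) (h : (IsAlgebraic K a ∧ aeval b (minpoly K a) = 0) ∨
      (Transcendental K a ∧ Transcendental K b)) :
    ∃ τ : IntermediateField.adjoin K {a} →ₐ[K] U,
      τ (IntermediateField.AdjoinSimple.gen K a) = b := by
  rcases h with ⟨h1, h2⟩ | ⟨h1, h2⟩
  · have hint : IsIntegral K a := h1.isIntegral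
    have hmem : b ∈ (minpoly K a).aroots U := by
      rw [mem_aroots]
      exact ⟨minpoly.ne_zero hint, h2⟩
    exact ⟨(IntermediateField.algHomAdjoinIntegralEquiv K hint).symm ⟨b, hmem⟩,
      IntermediateField.algHomAdjoinIntegralEquiv_symm_apply_gen K hint ⟨b, hmem⟩⟩
  · refine ⟨((IntermediateField.adjoin K {b}).val).comp
      ((RatFunc.algEquivOfTranscendental b h2).toAlgHom.comp
        (RatFunc.algEquivOfTranscendental a h1).symm.toAlgHom), ?_⟩
    change (IntermediateField.adjoin K {b}).val (RatFunc.algEquivOfTranscendental b h2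
      ((RatFunc.algEquivOfTranscendental a h1).symm (IntermediateField.AdjoinSimple.gen K a))) = b
    rw [RatFunc.algEquivOfTranscendental_symm_gen a h1]
    exact RatFunc.algEquivOfTranscendental_X b h2

omit [CharZero k] [IsAlgClosed k] [CharZero Ω] [IsAlgClosed Ω] in
/-- extension to the next level -/
theorem X6d_hom (x : ℕ → F) (i : ℕ)
    (ψm : lev k x (i + 1) →ₐ[HahnSeries ℚ k] HahnSeries ℚ Ω) (y₂ : HahnSeries ℚ Ω)
    (h : (IsAlgebraic (lev k x (i + 1)) (x (i + 1)) ∧
        (minpoly (lev k x (i + 1)) (x (i + 1))).eval₂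
          (ψm : lev k x (i + 1) →+* HahnSeries ℚ Ω) y₂ = 0) ∨
      (Transcendental (lev k x (i + 1)) (x (i + 1)) ∧
        TrO (ψm : lev k x (i + 1) →+* HahnSeries ℚ Ω) y₂)) :
    ∃ ψ' : lev k x (i + 2) →ₐ[HahnSeries ℚ k] HahnSeries ℚ Ω,
      (∀ (z : F) (hz : z ∈ lev k x (i + 1)), ψ' ⟨z, lev_le x (i + 1) hz⟩ = ψm ⟨z, hz⟩) ∧
        ψ' ⟨x (i + 1), mem_lev x (i + 1)⟩ = y₂ := by
  let _ : Algebra (lev k x (i + 1)) (HahnSeries ℚ Ω) :=
    (ψm : lev k x (i + 1) →+* HahnSeries ℚ Ω).toAlgebra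
  have _ : IsScalarTower (HahnSeries ℚ k) (lev k x (i + 1)) (HahnSeries ℚ Ω) :=
    IsScalarTower.of_algebraMap_eq fun a => (ψm.commutes a).symm
  obtain ⟨τ, hτ⟩ := X6d_ext (K := lev k x (i + 1)) (x (i + 1)) y₂ (by
    rcases h with ⟨h1, h2⟩ | ⟨h1, h2⟩
    · exact Or.inl ⟨h1, h2⟩
    · refine Or.inr ⟨h1, ?_⟩
      rintro ⟨p, hp, hp0⟩
      exact h2 p hp hp0)
  have hle : ∀ z ∈ lev k x (i + 2),
      z ∈ IntermediateField.adjoin (lev k x (i + 1)) {x (i + 1)} := by
    have h1 : lev k x (i + 2) ≤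
        (IntermediateField.adjoin (lev k x (i + 1)) {x (i + 1)}).restrictScalars
          (HahnSeries ℚ k) := by
      unfold lev
      rw [IntermediateField.adjoin_le_iff]
      rintro _ ⟨j, hj, rfl⟩
      have hj' : j < i + 2 := hj
      rcases Nat.lt_or_ge j (i + 1) with hlt | hge
      · have h2 : x j ∈ lev k x (i + 1) := IntermediateField.subset_adjoin _ _ ⟨j, hlt, rfl⟩
        exact IntermediateField.algebraMap_mem
          (IntermediateField.adjoin (lev k x (i + 1)) {x (i + 1)}) ⟨x j, h2⟩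
      · have h2 : j = i + 1 := by omega
        rw [h2]
        exact IntermediateField.subset_adjoin (lev k x (i + 1)) {x (i + 1)}
          (Set.mem_singleton _)
    exact fun z hz => h1 hz
  let incl : lev k x (i + 2) →ₐ[HahnSeries ℚ k]
      IntermediateField.adjoin (lev k x (i + 1)) {x (i + 1)} :=
    { toFun := fun z => ⟨z, hle z z.2⟩
      map_one' := rfl
      map_mul' := fun _ _ => rfl
      map_zero' := rfl
      map_add' := fun _ _ => rfl
      commutes' := fun _ => rfl }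
  refine ⟨(τ.restrictScalars (HahnSeries ℚ k)).comp incl, fun z hz => ?_, hτ⟩
  exact τ.commutes ⟨z, hz⟩

omit [CharZero k] [IsAlgClosed k] [CharZero Ω] [IsAlgClosed Ω] in
/-- values of polynomials at points -/
theorem X6d_eval (χ : Pt k Ω F) (L : IntermediateField (HahnSeries ℚ k) F) (g : F[X])
    (hg : ∀ n, g.coeff n ∈ L) (z : F) : χ (g.eval z) =
      (lft L g).eval₂ ((χ : F →+* HahnSeries ℚ Ω).comp (algebraMap L F)) (χ z) := by
  conv_lhs => rw [← lft_map L g hg]
  rw [eval_map]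
  exact hom_eval₂ _ _ (χ : F →+* HahnSeries ℚ Ω) _

omit [CharZero k] [IsAlgClosed k] in
/-- the coordinates of level `< i` -/
theorem X6d_helt (x : ℕ → F) (N : ℕ) (P : ℕ → Finset F[X])
    (hP : ∀ j < N, ∀ g ∈ P j, ∀ n, g.coeff n ∈ lev k x j) :
    ∀ i ≤ N, ∀ e : Idx P i, helt x P i e ∈ lev k x i := by
  intro i
  induction i with
  | zero =>
    intro _ e
    exact PEmpty.elim e
  | succ i ih =>
    intro hi e
    rcases e with e | g
    · exact lev_le x i (ih (by omega) e)
    · show g.1.eval (x i) ∈ lev k x (i + 1)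
      rw [eval_eq_sum_range]
      refine sum_mem fun n _ => mul_mem (lev_le x i (hP i (by omega) g.1 g.2 n))
        (pow_mem (mem_lev x i) n)

omit [CharZero k] [IsAlgClosed k] in
theorem X6d_trdeg (x : ℕ → F) (N : ℕ) (hx : lev k x N = ⊤) :
    Algebra.trdeg (HahnSeries ℚ k) F < Cardinal.aleph0 := by
  have h1 : Algebra.trdeg (HahnSeries ℚ k) (lev k x N) ≤ Cardinal.mk (x '' {j | j < N}) :=
    td_adjoin_le _
  have h2 : Cardinal.mk (x '' {j | j < N}) < Cardinal.aleph0 := by
    rw [Cardinal.lt_aleph0_iff_set_finite]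
    exact (Set.finite_lt_nat N).image x
  have h3 : Algebra.trdeg (HahnSeries ℚ k) (lev k x N) = Algebra.trdeg (HahnSeries ℚ k) F := by
    rw [hx]
    exact IntermediateField.topEquiv.trdeg_eq
  rw [← h3]
  exact h1.trans_lt h2

/-- An admissible pair gives a point of the fibre: both cases of the type of `x (i + 1)` over `lev k x (i + 1)`.

Proof. `ψm` from `Adm` (an `A`-algebra map, because it agrees with `φ` on `lev k x i`). Extend it to `lev k x (i + 2) =
M(x_{i+1})` by `x_{i+1} ↦ y₂`: transcendental case: `y₂` is transcendental over `ψm(M)` (`trO_iff_ind2`);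
algebraic case: the minimal polynomial `p` of `x_{i+1}` over `M` is in `P (i + 1)` (`Twr.min`), `p` has the root `φ (x_{i+1})` at `φ`,
so `rv` of its value at `y₂` is `(0, 0)`: `y₂` is a root of `ψm(p)`. Then `Nd.ext_point` (the finite transcendence degree of `F`
from `hx`) gives `ψ` on `F`; `rvt (helt x P (i + 2)) ψ = rvt (helt x P (i + 2)) φ` (levels `< i`: `agree`; levels `i`, `i + 1`:
`Adm`); `Nd.ext_fib` (`i + 2`). -/
theorem mem_of_adm (hΩ : Cardinal.aleph0 ≤ Algebra.trdeg k Ω) (x : ℕ → F) (N : ℕ)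
    (hx : lev k x N = ⊤) (P : ℕ → Finset F[X]) (hT : Twr k Ω x N P) (i : ℕ)
    (hi : i + 1 < N) (φ : Pt k Ω F) (x₂ y₂ : HahnSeries ℚ Ω)
    (htrx : Transcendental (lev k x i) (x i))
    (hty : IsAlgebraic (lev k x (i + 1)) (x (i + 1)) ∨
      Ind2 ((φ : F →+* HahnSeries ℚ Ω).comp (algebraMap (lev k x i) F)) x₂ y₂)
    (hadm : letI := levAlg k x i
      Adm (⟨x i, mem_lev x i⟩ : lev k x (i + 1)) (lftS (lev k x i) (P i))
        (lftS (lev k x (i + 1)) (P (i + 1)))
        ((φ : F →+* HahnSeries ℚ Ω).comp (algebraMap (lev k x (i + 1)) F))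
        (φ (x (i + 1))) x₂ y₂) :
    ∃ ψ : Pt k Ω F, rvt (helt x P N) ψ = rvt (helt x P N) φ ∧ (∀ j < i, ψ (x j) = φ (x j)) ∧
      ψ (x i) = x₂ ∧ ψ (x (i + 1)) = y₂ := by
  let _ := levAlg k x i
  have hadm' : Adm (⟨x i, mem_lev x i⟩ : lev k x (i + 1)) (lftS (lev k x i) (P i))
        (lftS (lev k x (i + 1)) (P (i + 1)))
        ((φ : F →+* HahnSeries ℚ Ω).comp (algebraMap (lev k x (i + 1)) F))
        (φ (x (i + 1))) x₂ y₂ := hadm
  obtain ⟨hP1, ψr, hψE, hψx, hP2⟩ := hadm'
  have hEz : ∀ (z : F) (hz : z ∈ lev k x i), ψr ⟨z, lev_le x i hz⟩ = φ z := by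
    intro z hz
    exact congrArg (fun f : lev k x i →+* HahnSeries ℚ Ω => f ⟨z, hz⟩) hψE
  let ψm : lev k x (i + 1) →ₐ[HahnSeries ℚ k] HahnSeries ℚ Ω :=
    { toRingHom := ψr
      commutes' := fun a => by
        have h1 := hEz (algebraMap (HahnSeries ℚ k) F a) ((lev k x i).algebraMap_mem a)
        rw [φ.commutes] at h1
        exact h1 }
  have hψm : (ψm : lev k x (i + 1) →+* HahnSeries ℚ Ω) = ψr := rfl
  have hc1 : ∀ g ∈ P (i + 1), ∀ n, g.coeff n ∈ lev k x (i + 1) := hT.coeff (i + 1) hi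
  have hc0 : ∀ g ∈ P i, ∀ n, g.coeff n ∈ lev k x i := hT.coeff i (by omega)
  -- the type of the next element
  have hcase : (IsAlgebraic (lev k x (i + 1)) (x (i + 1)) ∧
        (minpoly (lev k x (i + 1)) (x (i + 1))).eval₂
          (ψm : lev k x (i + 1) →+* HahnSeries ℚ Ω) y₂ = 0) ∨
      (Transcendental (lev k x (i + 1)) (x (i + 1)) ∧
        TrO (ψm : lev k x (i + 1) →+* HahnSeries ℚ Ω) y₂) := by
    by_cases hal : IsAlgebraic (lev k x (i + 1)) (x (i + 1))
    · refine Or.inl ⟨hal, ?_⟩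
      have h1 : minpoly (lev k x (i + 1)) (x (i + 1)) ∈ lftS (lev k x (i + 1)) (P (i + 1)) :=
        (mem_lftS _ _ hc1 _).2 (hT.min (i + 1) hi hal)
      have h2 := hP2 _ h1
      have h3 : (minpoly (lev k x (i + 1)) (x (i + 1))).eval₂
          ((φ : F →+* HahnSeries ℚ Ω).comp (algebraMap (lev k x (i + 1)) F))
          (φ (x (i + 1))) = 0 := by
        have h4 := hom_eval₂ (minpoly (lev k x (i + 1)) (x (i + 1)))
          (algebraMap (lev k x (i + 1)) F) (φ : F →+* HahnSeries ℚ Ω) (x (i + 1))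
        have h5 : (minpoly (lev k x (i + 1)) (x (i + 1))).eval₂
            (algebraMap (lev k x (i + 1)) F) (x (i + 1)) = 0 := minpoly.aeval _ _
        rw [h5, map_zero] at h4
        exact h4.symm
      rw [h3, rv_zero, rv_eq_zero] at h2
      exact h2
    · refine Or.inr ⟨hal, ?_⟩
      rcases hty with h | h
      · exact absurd h hal
      · have h1 := trO_iff_ind2 (⟨x i, mem_lev x i⟩ : lev k x (i + 1)) ((lev_tr x i).2 htrx)
          (lev_gen x i) ψr y₂
        rw [hψE, hψx] at h1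
        exact h1.2 h
  obtain ⟨ψ', hψ'1, hψ'2⟩ := X6d_hom x i ψm y₂ hcase
  obtain ⟨ψ, hψ⟩ := Nd.ext_point hΩ (X6d_trdeg x N hx) (lev k x (i + 2)) ψ'
  have hM : ∀ (z : F) (hz : z ∈ lev k x (i + 1)), ψ z = ψr ⟨z, hz⟩ := fun z hz =>
    (hψ ⟨z, lev_le x (i + 1) hz⟩).trans (hψ'1 z hz)
  have hE : ∀ z ∈ lev k x i, ψ z = φ z := fun z hz => (hM z (lev_le x i hz)).trans (hEz z hz)
  have hxi : ψ (x i) = x₂ := (hM (x i) (mem_lev x i)).trans hψx
  have hxi1 : ψ (x (i + 1)) = y₂ := (hψ ⟨x (i + 1), mem_lev x (i + 1)⟩).trans hψ'2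
  have hxj : ∀ j < i, ψ (x j) = φ (x j) := fun j hj =>
    hE (x j) (IntermediateField.subset_adjoin _ _ ⟨j, hj, rfl⟩)
  have hrv : rvt (helt x P (i + 2)) ψ = rvt (helt x P (i + 2)) φ := by
    funext e
    rcases e with (e | g) | g
    · show rv (ψ (helt x P i e)) = rv (φ (helt x P i e))
      rw [hE _ (X6d_helt x N P hT.coeff i (by omega) e)]
    · show rv (ψ (g.1.eval (x i))) = rv (φ (g.1.eval (x i)))
      rw [X6d_eval ψ (lev k x i) g.1 (hc0 g.1 g.2), X6d_eval φ (lev k x i) g.1 (hc0 g.1 g.2), hxi]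
      have h1 : (ψ : F →+* HahnSeries ℚ Ω).comp (algebraMap (lev k x i) F) =
          (φ : F →+* HahnSeries ℚ Ω).comp (algebraMap (lev k x i) F) :=
        RingHom.ext fun z => hE z z.2
      rw [h1]
      exact hP1 _ ((mem_lftS _ _ hc0 _).2 (by rw [lft_map _ g.1 (hc0 g.1 g.2)]; exact g.2))
    · show rv (ψ (g.1.eval (x (i + 1)))) = rv (φ (g.1.eval (x (i + 1))))
      rw [X6d_eval ψ (lev k x (i + 1)) g.1 (hc1 g.1 g.2),
        X6d_eval φ (lev k x (i + 1)) g.1 (hc1 g.1 g.2), hxi1]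
      have h1 : (ψ : F →+* HahnSeries ℚ Ω).comp (algebraMap (lev k x (i + 1)) F) = ψr :=
        RingHom.ext fun z => hM z z.2
      rw [h1]
      exact hP2 _ ((mem_lftS _ _ hc1 _).2 (by rw [lft_map _ g.1 (hc1 g.1 g.2)]; exact g.2))
  obtain ⟨χ, hχ1, hχ2⟩ := Nd.ext_fib hΩ x N hx P hT (i + 2) (by omega) φ ψ hrv
  refine ⟨χ, hχ2, fun j hj => ?_, ?_, ?_⟩
  · rw [hχ1 (x j) (IntermediateField.subset_adjoin _ _ ⟨j, (by simp only [Set.mem_ofPred_eq]; omega), rfl⟩), hxj j hj]
  · rw [hχ1 (x i) (lev_le x (i + 1) (mem_lev x i)), hxi]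
  · rw [hχ1 (x (i + 1)) (mem_lev x (i + 1)), hxi1]

/-- The transcendence degree of a field generated by a set. -/
theorem x6e_td {A K : Type u} [Field A] [Field K] [Algebra A K] (S : Set K) :
    Algebra.trdeg A (IntermediateField.adjoin A S) ≤ Cardinal.mk S := by
  set E := IntermediateField.adjoin A S with hE
  set S' : Set E := {x | (x : K) ∈ S} with hS'
  have h0 : ∀ r ∈ Algebra.adjoin A S, ∃ r' ∈ Algebra.adjoin A S', (r' : K) = r := by
    intro r hr
    have h1 : (Algebra.adjoin A S').map E.val = Algebra.adjoin A S := by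
      rw [AlgHom.map_adjoin]
      congr 1
      ext x
      constructor
      · rintro ⟨y, hy, rfl⟩
        exact hy
      · intro hx
        exact ⟨⟨x, IntermediateField.subset_adjoin A S hx⟩, hx, rfl⟩
    rw [← h1] at hr
    obtain ⟨r', hr', h2⟩ := hr
    exact ⟨r', hr', h2⟩
  have h1 : Algebra.IsAlgebraic (Algebra.adjoin A S') E := by
    refine ⟨fun x => ?_⟩
    obtain ⟨r, hr, s, hs, hrs⟩ := IntermediateField.mem_adjoin_iff_div.1 x.2
    obtain ⟨r', hr', h3⟩ := h0 r hr
    obtain ⟨s', hs', h4⟩ := h0 s hs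
    by_cases hs0 : s = 0
    · have hx : x = 0 := by
        apply Subtype.ext
        rw [hrs, hs0, div_zero]
        rfl
      rw [hx]
      exact isAlgebraic_zero
    · refine ⟨C (⟨s', hs'⟩ : Algebra.adjoin A S') * X - C (⟨r', hr'⟩ : Algebra.adjoin A S'), ?_, ?_⟩
      · intro h5
        have h6 := congrArg (fun p => p.coeff 1) h5
        simp only [coeff_sub, coeff_C_mul, coeff_X_one, mul_one, coeff_zero] at h6
        rw [coeff_C, if_neg one_ne_zero, sub_zero] at h6
        apply hs0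
        rw [← h4]
        have h7 := congrArg (fun z : Algebra.adjoin A S' => ((z : E) : K)) h6
        exact h7
      · rw [map_sub, map_mul, aeval_C, aeval_C, aeval_X]
        apply Subtype.ext
        change (s' : K) * (x : K) - (r' : K) = 0
        rw [h3, h4, hrs, mul_div_cancel₀ _ hs0, sub_self]
  have h2 : Algebra.trdeg A E ≤ Cardinal.mk S' := Algebra.IsAlgebraic.trdeg_le_cardinalMk A S'
  refine h2.trans ?_
  refine Cardinal.mk_le_of_injective (f := fun x : S' => (⟨x.1.1, x.2⟩ : S)) fun x y h => ?_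
  have h3 : (x.1 : K) = y.1 := congrArg (fun z : S => (z : K)) h
  exact Subtype.ext (Subtype.ext h3)

omit [CharZero k] [IsAlgClosed k] [CharZero Ω] [IsAlgClosed Ω] in
/-- Independence from transcendence over a subfield which contains the image and `y`. -/
theorem x6e_ind (L : IntermediateField (HahnSeries ℚ k) F) (φ : L →+* HahnSeries ℚ Ω)
    (S : IntermediateField (HahnSeries ℚ k) (HahnSeries ℚ Ω)) (y x' : HahnSeries ℚ Ω)
    (hφ : ∀ c, φ c ∈ S) (hyS : y ∈ S) (hy : TrO φ y) (hx' : Transcendental S x') :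
    Ind2 φ y x' := by
  intro g hg h0
  have hmem : ∀ p : Polynomial L, eval₂RingHom φ y p ∈ S := by
    intro p
    rw [coe_eval₂RingHom, eval₂_eq_sum, Polynomial.sum]
    exact S.sum_mem fun n _ => S.mul_mem (hφ _) (S.pow_mem hyS n)
  have hinj : Function.Injective ((eval₂RingHom φ y).codRestrict S hmem) := by
    refine (injective_iff_map_eq_zero _).2 fun p hp => ?_
    by_contra hne
    exact hy p hne (congrArg (fun z : S => (z : HahnSeries ℚ Ω)) hp)
  refine hg ((Polynomial.map_eq_zero_iff hinj).1 ((transcendental_iff.1 hx') _ ?_))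
  rw [aeval_def, eval₂_map]
  exact h0

/-- The hypothesis `htr` of `exch_TT'`, `exch_TA'`. Proof: `Nd.tr_dense` for `S` = the field generated over `A` by the image of
`lev k x i` and `y` (finitely many generators). -/
theorem htr_point (hΩ : Cardinal.aleph0 ≤ Algebra.trdeg k Ω) (x : ℕ → F) (i : ℕ)
    (φ : Pt k Ω F) (y : HahnSeries ℚ Ω)
    (hy : TrO ((φ : F →+* HahnSeries ℚ Ω).comp (algebraMap (lev k x i) F)) y)
    (z : HahnSeries ℚ Ω) (s : ℚ) :
    ∃ x' : HahnSeries ℚ Ω, (s : WithTop ℚ) < (x' - z).orderTop ∧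
      Ind2 ((φ : F →+* HahnSeries ℚ Ω).comp (algebraMap (lev k x i) F)) y x' := by
  set T : Set (HahnSeries ℚ Ω) := insert y (φ '' (x '' {j | j < i})) with hT
  set S : IntermediateField (HahnSeries ℚ k) (HahnSeries ℚ Ω) :=
    IntermediateField.adjoin (HahnSeries ℚ k) T with hS
  have hfin : T.Finite := (((Set.finite_lt_nat i).image x).image φ).insert y
  have htd : Algebra.trdeg (HahnSeries ℚ k) S < Cardinal.aleph0 :=
    (x6e_td T).trans_lt (Cardinal.lt_aleph0_iff_set_finite.2 hfin)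
  obtain ⟨x', h1, h2⟩ := Nd.tr_dense hΩ S htd z s
  refine ⟨x', h1, x6e_ind _ _ S y x' ?_ (IntermediateField.subset_adjoin _ _
    (Set.mem_insert _ _)) hy h2⟩
  intro c
  have h3 : (lev k x i).map φ ≤ S := by
    unfold lev
    rw [IntermediateField.adjoin_map]
    exact IntermediateField.adjoin.mono _ _ _ (Set.subset_insert _ _)
  exact h3 ⟨c, c.2, rfl⟩

end

end KTS.X

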