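import Pool.Agent.KTS.X6

/-!
[KTS-X7] The exchange theorem S1.
-/

set_option autoImplicit false

namespace KTS.X

noncomputable section

universe u

open Polynomial

variable {k Ω F : Type u} [Field k] [Field Ω] [Algebra k Ω] [CharZero k] [IsAlgClosed k]
  [CharZero Ω] [IsAlgClosed Ω] [Field F] [Algebra (HahnSeries ℚ k) F]

/-! ### The swapped sequence -/

section swap

omit [CharZero k] [IsAlgClosed k]

theorem X7a_swap_le {i l : ℕ} (h : l < i) : Equiv.swap i (i + 1) l = l :=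
  Equiv.swap_apply_of_ne_of_ne (by omega) (by omega)

theorem lev_swap_le (x : ℕ → F) (i j : ℕ) (hj : j ≤ i) :
    lev k (x ∘ Equiv.swap i (i + 1)) j = lev k x j := by
  unfold lev
  congr 1
  ext z
  constructor
  · rintro ⟨l, hl, rfl⟩
    have hl' : l < j := hl
    refine ⟨l, hl, ?_⟩
    rw [Function.comp_apply, X7a_swap_le (by omega)]
  · rintro ⟨l, hl, rfl⟩
    have hl' : l < j := hl
    refine ⟨l, hl, ?_⟩
    rw [Function.comp_apply, X7a_swap_le (by omega)]

theorem X7a_swap_lt {i l j : ℕ} (hj : i + 2 ≤ j) (h : l < j) : Equiv.swap i (i + 1) l < j := by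
  rcases eq_or_ne l i with rfl | h1
  · rw [Equiv.swap_apply_left]; omega
  rcases eq_or_ne l (i + 1) with rfl | h2
  · rw [Equiv.swap_apply_right]; omega
  rw [Equiv.swap_apply_of_ne_of_ne h1 h2]; exact h

theorem lev_swap_gt (x : ℕ → F) (i j : ℕ) (hj : i + 2 ≤ j) :
    lev k (x ∘ Equiv.swap i (i + 1)) j = lev k x j := by
  unfold lev
  congr 1
  ext z
  constructor
  · rintro ⟨l, hl, rfl⟩
    have hl' : l < j := hl
    exact ⟨Equiv.swap i (i + 1) l, X7a_swap_lt hj hl', rfl⟩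
  · rintro ⟨l, hl, rfl⟩
    have hl' : l < j := hl
    refine ⟨Equiv.swap i (i + 1) l, X7a_swap_lt hj hl', ?_⟩
    rw [Function.comp_apply, Equiv.swap_apply_self]

/-- `lev k x (i + 1)` is generated by `x i` over `lev k x i`. -/
theorem X7a_alg_iff (x : ℕ → F) (i : ℕ) (z : F) :
    IsAlgebraic (lev k x (i + 1)) z ↔
      IsAlgebraic (IntermediateField.adjoin (lev k x i) {x i}) z := by
  have h : (IntermediateField.adjoin (lev k x i) {x i}).restrictScalars (HahnSeries ℚ k) =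
      lev k x (i + 1) := by
    unfold lev
    rw [IntermediateField.adjoin_adjoin_left]
    congr 1
    ext z
    constructor
    · rintro (⟨l, hl, rfl⟩ | hz)
      · have hl' : l < i := hl
        exact ⟨l, show l < i + 1 by omega, rfl⟩
      · rw [Set.mem_singleton_iff] at hz
        subst hz
        exact ⟨i, Nat.lt_succ_self i, rfl⟩
    · rintro ⟨l, hl, rfl⟩
      have hl' : l < i + 1 := hl
      rcases eq_or_ne l i with rfl | h1
      · exact Or.inr rfl
      · exact Or.inl ⟨l, show l < i by omega, rfl⟩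
  rw [← h]
  exact Iff.rfl

/-- `lev k (x ∘ swap) (i + 1)` is generated by `x (i + 1)` over `lev k x i`. -/
theorem X7a_alg_iff' (x : ℕ → F) (i : ℕ) (z : F) :
    IsAlgebraic (lev k (x ∘ Equiv.swap i (i + 1)) (i + 1)) z ↔
      IsAlgebraic (IntermediateField.adjoin (lev k x i) {x (i + 1)}) z := by
  have h := X7a_alg_iff (k := k) (x ∘ Equiv.swap i (i + 1)) i z
  rw [lev_swap_le x i i le_rfl, Function.comp_apply, Equiv.swap_apply_left] at h
  exact h

/-- Proof: `lev (x ∘ swap) (i + 1) = (lev x i)(x_{i+1})`. If `x i` is algebraic over `lev x i` and `x_{i+1}` transcendental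
over `lev x (i + 1)` then `x_{i+1}` is transcendental over `lev x i`. -/
theorem X7a_tr (x : ℕ → F) (i : ℕ) (h : Transcendental (lev k x (i + 1)) (x (i + 1))) :
    Transcendental (lev k x i) (x (i + 1)) := by
  intro ha
  apply h
  rw [X7a_alg_iff]
  exact ha.extendScalars (FaithfulSMul.algebraMap_injective _ _)

theorem swap_tr_of_tr (x : ℕ → F) (i : ℕ) (h : Transcendental (lev k x (i + 1)) (x (i + 1))) :
    Transcendental (lev k (x ∘ Equiv.swap i (i + 1)) i) ((x ∘ Equiv.swap i (i + 1)) i) := by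
  rw [lev_swap_le x i i le_rfl, Function.comp_apply, Equiv.swap_apply_left]
  exact X7a_tr x i h

/-- The exchange property for one element. -/
theorem X7a_exch {K : Type u} [Field K] [Algebra K F] {a b : F} (ha : Transcendental K a)
    (hb : Transcendental K b) (h : IsAlgebraic (IntermediateField.adjoin K {a}) b) :
    IsAlgebraic (IntermediateField.adjoin K {b}) a :=
  IntermediateField.isAlgebraic_adjoin_iff.mpr
    (IsAlgebraic.adjoin_singleton ha hb (IntermediateField.isAlgebraic_adjoin_iff.mp h))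

/-- Both transcendental: the exchange property. -/
theorem swap_tr' (x : ℕ → F) (i : ℕ) (h : Transcendental (lev k x i) (x i))
    (h' : Transcendental (lev k x (i + 1)) (x (i + 1))) :
    Transcendental (lev k (x ∘ Equiv.swap i (i + 1)) (i + 1))
      ((x ∘ Equiv.swap i (i + 1)) (i + 1)) := by
  intro ha
  rw [Function.comp_apply, Equiv.swap_apply_right, X7a_alg_iff'] at ha
  apply h'
  rw [X7a_alg_iff]
  exact X7a_exch (X7a_tr x i h') h ha

/-- `x i` transcendental over `E`, `x_{i+1}` algebraic over `E(x_i)` and transcendental over `E`: `x_i` is algebraic over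
`E(x_{i+1})`. -/
theorem swap_al_of_tr (x : ℕ → F) (i : ℕ)
    (h : IsAlgebraic (lev k x (i + 1)) (x (i + 1)))
    (h' : Transcendental (lev k x i) (x (i + 1))) :
    IsAlgebraic (lev k (x ∘ Equiv.swap i (i + 1)) (i + 1))
      ((x ∘ Equiv.swap i (i + 1)) (i + 1)) := by
  rw [Function.comp_apply, Equiv.swap_apply_right, X7a_alg_iff']
  by_cases hx : Transcendental (lev k x i) (x i)
  · rw [X7a_alg_iff] at h
    exact X7a_exch hx h' h
  · have hx' : IsAlgebraic (lev k x i) (x i) := not_not.mp hx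
    exact hx'.extendScalars (FaithfulSMul.algebraMap_injective _ _)

end swap

/-! ### Case statements: the level `i` and `i + 1` of the swapped order -/

/-- The environment from the tower: `Env` for the levels `i`, `i + 1` of `P`. -/
def EnvAt (k : Type u) [Field k] {F : Type u} [Field F] [Algebra (HahnSeries ℚ k) F] [CharZero F]
    (x : ℕ → F) (P : ℕ → Finset F[X]) (i : ℕ) : Prop :=
  letI := levAlg k x i
  Env (⟨x i, mem_lev x i⟩ : lev k x (i + 1)) (lftS (lev k x i) (P i))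
    (lftS (lev k x (i + 1)) (P (i + 1)))

private theorem x7b_ne (L : IntermediateField (HahnSeries ℚ k) F) (P : Finset F[X])
    (hP : ∀ g ∈ P, ∀ n, g.coeff n ∈ L) (h0 : ∀ g ∈ P, g ≠ 0) : ∀ p ∈ lftS L P, p ≠ 0 := by
  intro p hp h
  rw [mem_lftS L P hP, h, Polynomial.map_zero] at hp
  exact h0 _ hp rfl

private theorem x7b_X (L : IntermediateField (HahnSeries ℚ k) F) (P : Finset F[X])
    (hP : ∀ g ∈ P, ∀ n, g.coeff n ∈ L) (h0 : X ∈ P) : X ∈ lftS L P := by
  rw [mem_lftS L P hP, Polynomial.map_X]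
  exact h0

private theorem x7b_der (L : IntermediateField (HahnSeries ℚ k) F) (P : Finset F[X])
    (hP : ∀ g ∈ P, ∀ n, g.coeff n ∈ L) (h0 : ∀ g ∈ P, derivative g ≠ 0 → derivative g ∈ P) :
    ∀ p ∈ lftS L P, derivative p ≠ 0 → derivative p ∈ lftS L P := by
  intro p hp h
  rw [mem_lftS L P hP] at hp ⊢
  rw [← Polynomial.derivative_map]
  apply h0 _ hp
  rw [Polynomial.derivative_map]
  exact (Polynomial.map_ne_zero_iff (algebraMap L F).injective).2 h

open Classical in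
/-- A uniform tower containing `H`, with the environment at the pair `i, i + 1` if `x i` is transcendental.

Proof. `Nd.exists_tower` with `Add j P' = ∅` for `j ≠ i` and `Add i P'` = the image in `F` of the finite set `A` of `exists_env`
for `lftS (lev k x (i + 1)) P'` (if the hypotheses of `exists_env` hold, else `∅`). -/
theorem exists_tower_env [CharZero F] (hΩ : Cardinal.aleph0 ≤ Algebra.trdeg k Ω) (x : ℕ → F)
    (N : ℕ) (hx : lev k x N = ⊤) (i : ℕ) (hi : i + 1 < N) (H : Finset F) :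
    ∃ P : ℕ → Finset F[X], Twr k Ω x N P ∧ (∀ s ∈ H, s ≠ 0 → Quo (k := k) x P N s) ∧
      (Transcendental (lev k x i) (x i) → EnvAt k x P i) := by
  by_cases htr : Transcendental (lev k x i) (x i)
  swap
  · obtain ⟨P, h1, h2, -⟩ := Nd.exists_tower hΩ x N hx H (fun _ _ => ∅) (by simp)
    exact ⟨P, h1, h2, fun h => absurd h htr⟩
  let _ := levAlg k x i
  have key : ∀ P' : Finset F[X], ∃ A : Finset (lev k x (i + 1)),
      (∀ g ∈ P', ∀ n, g.coeff n ∈ lev k x (i + 1)) → (∀ g ∈ P', g ≠ 0) → X ∈ P' →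
      (∀ g ∈ P', derivative g ≠ 0 → derivative g ∈ P') →
      ∀ P : Finset (Polynomial (lev k x i)), (∀ p ∈ P, p ≠ 0) → X ∈ P →
      (∀ p ∈ P, derivative p ≠ 0 → derivative p ∈ P) →
      (∀ c ∈ A, c ≠ 0 → QuoP P (⟨x i, mem_lev x i⟩ : lev k x (i + 1)) c) →
      Env (⟨x i, mem_lev x i⟩ : lev k x (i + 1)) P (lftS (lev k x (i + 1)) P') := by
    intro P'
    by_cases h : (∀ g ∈ P', ∀ n, g.coeff n ∈ lev k x (i + 1)) ∧ (∀ g ∈ P', g ≠ 0) ∧ X ∈ P' ∧
      (∀ g ∈ P', derivative g ≠ 0 → derivative g ∈ P')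
    · obtain ⟨c1, c2, c3, c4⟩ := h
      obtain ⟨A, hA⟩ := exists_env (⟨x i, mem_lev x i⟩ : lev k x (i + 1)) ((lev_tr x i).2 htr)
        (lev_gen x i) (lftS (lev k x (i + 1)) P') (x7b_ne _ _ c1 c2) (x7b_X _ _ c1 c3)
        (x7b_der _ _ c1 c4)
      exact ⟨A, fun _ _ _ _ => hA⟩
    · exact ⟨∅, fun c1 c2 c3 c4 => absurd ⟨c1, c2, c3, c4⟩ h⟩
  choose A hA using key
  obtain ⟨P, h1, h2, h3⟩ := Nd.exists_tower hΩ x N hx H
    (fun j P' => if j = i then (A P').image (fun c : lev k x (i + 1) => (c : F)) else ∅) (by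
      intro j P' _ c hc
      split_ifs at hc with h
      · subst h
        rw [Finset.mem_image] at hc
        obtain ⟨a, -, rfl⟩ := hc
        exact a.2
      · simp at hc)
  refine ⟨P, h1, h2, fun _ => ?_⟩
  have h4 := h3 i hi
  simp only [if_true] at h4
  have hi' : i < N := by omega
  refine hA (P (i + 1)) (h1.coeff _ hi) (h1.ne _ hi) (h1.X_mem _ hi) (h1.der _ hi)
    (lftS (lev k x i) (P i)) (x7b_ne _ _ (h1.coeff _ hi') (h1.ne _ hi'))
    (x7b_X _ _ (h1.coeff _ hi') (h1.X_mem _ hi')) (x7b_der _ _ (h1.coeff _ hi') (h1.der _ hi')) ?_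
  intro c hc hc0
  apply quoP_of_quo x P i (h1.coeff _ hi') c
  apply h4
  · exact Finset.mem_image.2 ⟨c, hc, rfl⟩
  · intro h
    exact hc0 (Subtype.ext h)

private theorem x7_tr {L L' : IntermediateField (HahnSeries ℚ k) F} (h : L = L') {a b : F}
    (hab : a = b) : Transcendental L a ↔ Transcendental L' b := by
  subst h; subst hab; exact Iff.rfl

private theorem x7_al {L L' : IntermediateField (HahnSeries ℚ k) F} (h : L = L') {a b : F}
    (hab : a = b) : IsAlgebraic L a ↔ IsAlgebraic L' b := by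
  subst h; subst hab; exact Iff.rfl

private theorem x7_ind2 {L L' : IntermediateField (HahnSeries ℚ k) F} (h : L = L')
    (f : F →+* HahnSeries ℚ Ω) (a b : HahnSeries ℚ Ω) :
    Ind2 (f.comp (algebraMap L F)) a b ↔ Ind2 (f.comp (algebraMap L' F)) a b := by
  subst h; exact Iff.rfl

private theorem x7_sw_i (x : ℕ → F) (i : ℕ) : (x ∘ Equiv.swap i (i + 1)) i = x (i + 1) := by
  simp

private theorem x7_sw_i1 (x : ℕ → F) (i : ℕ) : (x ∘ Equiv.swap i (i + 1)) (i + 1) = x i := by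
  simp

private theorem x7_sw_ne (x : ℕ → F) (i j : ℕ) (h : j ≠ i) (h' : j ≠ i + 1) :
    (x ∘ Equiv.swap i (i + 1)) j = x j := by
  simp [Equiv.swap_apply_of_ne_of_ne h h']

private theorem x7_up {L L' : IntermediateField (HahnSeries ℚ k) F} (hle : L ≤ L') {z : F}
    (hz : IsAlgebraic L z) : IsAlgebraic L' z := by
  letI : Algebra L L' := (IntermediateField.inclusion hle).toRingHom.toAlgebra
  haveI : IsScalarTower L L' F := IsScalarTower.of_algebraMap_eq fun _ => rfl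
  exact hz.tower_top L'

private theorem x7_down {L L' : IntermediateField (HahnSeries ℚ k) F} (hle : L ≤ L')
    (hal : ∀ z ∈ L', IsAlgebraic L z) {z : F} (hz : IsAlgebraic L' z) : IsAlgebraic L z := by
  letI : Algebra L L' := (IntermediateField.inclusion hle).toRingHom.toAlgebra
  haveI : IsScalarTower L L' F := IsScalarTower.of_algebraMap_eq fun _ => rfl
  haveI : Algebra.IsAlgebraic L L' :=
    ⟨fun w => (isAlgebraic_algebraMap_iff (algebraMap L' F).injective).1 (hal w w.2)⟩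
  exact hz.restrictScalars L

private theorem x7_lev_alg (x : ℕ → F) (n : ℕ) (L : IntermediateField (HahnSeries ℚ k) F)
    (h : ∀ j < n, IsAlgebraic L (x j)) : ∀ z ∈ lev k x n, IsAlgebraic L z := by
  have h1 : lev k x n ≤ (algebraicClosure L F).restrictScalars (HahnSeries ℚ k) := by
    unfold lev
    rw [IntermediateField.adjoin_le_iff]
    rintro _ ⟨j, hj, rfl⟩
    exact mem_algebraicClosure_iff.2 (h j hj)
  intro z hz
  exact mem_algebraicClosure_iff.1 (h1 hz)

private theorem x7_mem_alg {L : IntermediateField (HahnSeries ℚ k) F} {z : F} (hz : z ∈ L) :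
    IsAlgebraic L z :=
  isAlgebraic_algebraMap (⟨z, hz⟩ : L)

private theorem x7_mem_lev (x : ℕ → F) (n j : ℕ) (hj : j < n) : x j ∈ lev k x n :=
  IntermediateField.subset_adjoin _ _ ⟨j, hj, rfl⟩

/-- an element algebraic over `L(a)`, `a` algebraic over `L`, is algebraic over `L` -/
private theorem x7_trans (x : ℕ → F) (i : ℕ) (h : IsAlgebraic (lev k x i) (x i)) :
    ∀ z ∈ lev k x (i + 1), IsAlgebraic (lev k x i) z := by
  refine x7_lev_alg x (i + 1) (lev k x i) fun j hj => ?_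
  rcases Nat.lt_succ_iff_lt_or_eq.1 hj with h1 | h1
  · exact x7_mem_alg (x7_mem_lev x i j h1)
  · rw [h1]; exact h

private theorem x7_trO (φ : Pt k Ω F) (L : IntermediateField (HahnSeries ℚ k) F) (y : F)
    (hy : Transcendental L y) :
    TrO ((φ : F →+* HahnSeries ℚ Ω).comp (algebraMap L F)) (φ y) := by
  intro g hg h0
  refine hy ⟨g, hg, ?_⟩
  have h1 : (φ : F →+* HahnSeries ℚ Ω) (aeval y g) = 0 := by
    rw [aeval_def, Polynomial.hom_eval₂]
    exact h0
  exact (map_eq_zero (φ : F →+* HahnSeries ℚ Ω)).1 h1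

private theorem x7_TT [CharZero F] (hΩ : Cardinal.aleph0 ≤ Algebra.trdeg k Ω) (x : ℕ → F) (N : ℕ)
    (hx : lev k x N = ⊤) (i : ℕ) (hi : i + 1 < N) (P : ℕ → Finset F[X])
    (hT : Twr k Ω x N P) (hE : EnvAt k x P i) (φ : Pt k Ω F)
    (htrx : Transcendental (lev k x i) (x i))
    (htry : Transcendental (lev k x (i + 1)) (x (i + 1))) :
    ∃ r r' : ℚ,
      (∀ y₂, (∃ ψ : Pt k Ω F, rvt (helt x P N) ψ = rvt (helt x P N) φ ∧
          (∀ j < i, ψ (x j) = φ (x j)) ∧ ψ (x (i + 1)) = y₂) ↔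
        ((r : WithTop ℚ) < (y₂ - φ (x (i + 1))).orderTop ∧ ¬ AlgO φ (lev k x i) y₂)) ∧
      (∀ x₂, (∃ ψ : Pt k Ω F, rvt (helt x P N) ψ = rvt (helt x P N) φ ∧
          (∀ j < i, ψ (x j) = φ (x j)) ∧ ψ (x (i + 1)) = φ (x (i + 1)) ∧ ψ (x i) = x₂) ↔
        ((r' : WithTop ℚ) < (x₂ - φ (x i)).orderTop ∧
          Ind2 ((φ : F →+* HahnSeries ℚ Ω).comp (algebraMap (lev k x i) F)) (φ (x (i + 1)))
            x₂)) := by
  letI := levAlg k x i
  have hEnv : Env (⟨x i, mem_lev x i⟩ : lev k x (i + 1)) (lftS (lev k x i) (P i))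
    (lftS (lev k x (i + 1)) (P (i + 1))) := hE
  obtain ⟨r, r', h1, h2⟩ := exch_TT' hEnv
    ((φ : F →+* HahnSeries ℚ Ω).comp (algebraMap (lev k x (i + 1)) F)) (φ (x (i + 1)))
    (x7_trO φ _ _ htry) (fun y hy z s => htr_point hΩ x i φ y hy z s)
  -- independence of the values
  have hind : ∀ ψ : Pt k Ω F, (∀ j < i, ψ (x j) = φ (x j)) →
      Ind2 ((φ : F →+* HahnSeries ℚ Ω).comp (algebraMap (lev k x i) F)) (ψ (x i))
        (ψ (x (i + 1))) := by
    intro ψ hj
    have h3 := (trO_iff_ind2 (⟨x i, mem_lev x i⟩ : lev k x (i + 1)) ((lev_tr x i).2 htrx)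
      (lev_gen x i) ((ψ : F →+* HahnSeries ℚ Ω).comp (algebraMap (lev k x (i + 1)) F))
      (ψ (x (i + 1)))).1 (x7_trO ψ _ _ htry)
    have h4 : ((ψ : F →+* HahnSeries ℚ Ω).comp (algebraMap (lev k x (i + 1)) F)).comp
        (algebraMap (lev k x i) (lev k x (i + 1))) =
        (φ : F →+* HahnSeries ℚ Ω).comp (algebraMap (lev k x i) F) := by
      ext1 z
      exact agree_lev x i φ ψ hj z z.2
    rw [h4] at h3
    exact h3
  refine ⟨r, r', ?_, ?_⟩
  · intro y₂
    constructor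
    · rintro ⟨ψ, hψD, hj, rfl⟩
      have h3 := (h1 (ψ (x (i + 1)))).1 ⟨ψ (x i), adm_of_mem x N P hT i hi φ ψ hψD hj,
        hind ψ hj⟩
      exact ⟨h3.1, (not_algO_iff φ _ _).2 h3.2⟩
    · rintro ⟨h3, h4⟩
      obtain ⟨x₂, h5, h6⟩ := (h1 y₂).2 ⟨h3, (not_algO_iff φ _ _).1 h4⟩
      obtain ⟨ψ, h7, h8, -, h9⟩ := mem_of_adm hΩ x N hx P hT i hi φ x₂ y₂ htrx (Or.inr h6) h5
      exact ⟨ψ, h7, h8, h9⟩
  · intro x₂
    constructor
    · rintro ⟨ψ, hψD, hj, h3, rfl⟩
      have h4 : Adm (⟨x i, mem_lev x i⟩ : lev k x (i + 1)) (lftS (lev k x i) (P i))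
          (lftS (lev k x (i + 1)) (P (i + 1)))
          ((φ : F →+* HahnSeries ℚ Ω).comp (algebraMap (lev k x (i + 1)) F))
          (φ (x (i + 1))) (ψ (x i)) (ψ (x (i + 1))) := adm_of_mem x N P hT i hi φ ψ hψD hj
      have h5 := hind ψ hj
      rw [h3] at h4 h5
      exact (h2 (ψ (x i))).1 ⟨h4, h5⟩
    · rintro ⟨h3, h4⟩
      obtain ⟨h5, h6⟩ := (h2 x₂).2 ⟨h3, h4⟩
      obtain ⟨ψ, h7, h8, h9, h10⟩ := mem_of_adm hΩ x N hx P hT i hi φ x₂ (φ (x (i + 1))) htrx
        (Or.inr h6) h5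
      exact ⟨ψ, h7, h8, h10, h9⟩

private theorem x7_TA [CharZero F] (hΩ : Cardinal.aleph0 ≤ Algebra.trdeg k Ω) (x : ℕ → F) (N : ℕ)
    (hx : lev k x N = ⊤) (i : ℕ) (hi : i + 1 < N) (P : ℕ → Finset F[X])
    (hT : Twr k Ω x N P) (hE : EnvAt k x P i) (φ : Pt k Ω F)
    (htrx : Transcendental (lev k x i) (x i))
    (haly : IsAlgebraic (lev k x (i + 1)) (x (i + 1))) :
    (IsAlgebraic (lev k x i) (x (i + 1)) → ∀ ψ : Pt k Ω F,
      rvt (helt x P N) ψ = rvt (helt x P N) φ → (∀ j < i, ψ (x j) = φ (x j)) →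
      ψ (x (i + 1)) = φ (x (i + 1))) ∧
    (Transcendental (lev k x i) (x (i + 1)) →
      (∀ ψ : Pt k Ω F, rvt (helt x P N) ψ = rvt (helt x P N) φ →
        (∀ j < i, ψ (x j) = φ (x j)) → ψ (x (i + 1)) = φ (x (i + 1)) → ψ (x i) = φ (x i)) ∧
      ∃ r : ℚ, ∀ y₂, (∃ ψ : Pt k Ω F, rvt (helt x P N) ψ = rvt (helt x P N) φ ∧
          (∀ j < i, ψ (x j) = φ (x j)) ∧ ψ (x (i + 1)) = y₂) ↔
        ((r : WithTop ℚ) < (y₂ - φ (x (i + 1))).orderTop ∧ ¬ AlgO φ (lev k x i) y₂)) := by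
  letI := levAlg k x i
  have hEnv : Env (⟨x i, mem_lev x i⟩ : lev k x (i + 1)) (lftS (lev k x i) (P i))
    (lftS (lev k x (i + 1)) (P (i + 1))) := hE
  have hroot : ∃ g ∈ lftS (lev k x (i + 1)) (P (i + 1)),
      g.eval₂ ((φ : F →+* HahnSeries ℚ Ω).comp (algebraMap (lev k x (i + 1)) F))
        (φ (x (i + 1))) = 0 := by
    refine ⟨minpoly (lev k x (i + 1)) (x (i + 1)), ?_, ?_⟩
    · exact (mem_lftS _ _ (hT.coeff (i + 1) hi) _).2 (hT.min (i + 1) hi haly)
    · have h1 : (φ : F →+* HahnSeries ℚ Ω) (aeval (x (i + 1))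
          (minpoly (lev k x (i + 1)) (x (i + 1)))) = 0 := by
        rw [minpoly.aeval, map_zero]
      rw [aeval_def, Polynomial.hom_eval₂] at h1
      exact h1
  obtain ⟨h1, h2⟩ := exch_TA' hEnv
    ((φ : F →+* HahnSeries ℚ Ω).comp (algebraMap (lev k x (i + 1)) F)) (φ (x (i + 1)))
    hroot (fun y hy z s => htr_point hΩ x i φ y hy z s)
  refine ⟨?_, ?_⟩
  · intro hal ψ hψD hj
    refine h1 ?_ (ψ (x i)) _ (adm_of_mem x N P hT i hi φ ψ hψD hj)
    intro h3
    refine (not_algO_iff φ (lev k x i) (φ (x (i + 1)))).2 h3 ?_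
    obtain ⟨g, hg, hg0⟩ := hal
    refine ⟨g.map (algebraMap (lev k x i) F),
      (Polynomial.map_ne_zero_iff (algebraMap (lev k x i) F).injective).2 hg, ?_, ?_⟩
    · intro n
      rw [coeff_map]
      exact (g.coeff n).2
    · rw [Polynomial.eval_map, Polynomial.eval₂_map]
      have h5 : (φ : F →+* HahnSeries ℚ Ω) (aeval (x (i + 1)) g) = 0 := by
        rw [hg0, map_zero]
      rw [aeval_def, Polynomial.hom_eval₂] at h5
      exact h5
  · intro htr
    obtain ⟨h3, r, h4⟩ := h2 (x7_trO φ _ _ htr)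
    refine ⟨?_, r, ?_⟩
    · intro ψ hψD hj h5
      have h6 : Adm (⟨x i, mem_lev x i⟩ : lev k x (i + 1)) (lftS (lev k x i) (P i))
          (lftS (lev k x (i + 1)) (P (i + 1)))
          ((φ : F →+* HahnSeries ℚ Ω).comp (algebraMap (lev k x (i + 1)) F))
          (φ (x (i + 1))) (ψ (x i)) (ψ (x (i + 1))) := adm_of_mem x N P hT i hi φ ψ hψD hj
      rw [h5] at h6
      exact h3 _ h6
    · intro y₂
      constructor
      · rintro ⟨ψ, hψD, hj, rfl⟩
        have h5 := (h4 (ψ (x (i + 1)))).1 ⟨ψ (x i), adm_of_mem x N P hT i hi φ ψ hψD hj⟩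
        exact ⟨h5.1, (not_algO_iff φ _ _).2 h5.2⟩
      · rintro ⟨h5, h6⟩
        obtain ⟨x₂, h7⟩ := (h4 y₂).2 ⟨h5, (not_algO_iff φ _ _).1 h6⟩
        obtain ⟨ψ, h8, h9, -, h10⟩ := mem_of_adm hΩ x N hx P hT i hi φ x₂ y₂ htrx
          (Or.inl haly) h7
        exact ⟨ψ, h8, h9, h10⟩

/-- Level `i` of the swapped order. Cases: (x_i A): `V x' D i φ = V x D (i+1) φ` (all points of `D` over `φ|E` agree with `φ` at `x_i`
by `NPd.al`), `algO_congr`. (x_i T, x_{i+1} T): `exch_TT'`, `adm_of_mem`, `mem_of_adm`, `not_algO_iff`. (x_i T, x_{i+1} A over M):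
`exch_TA'`. -/
theorem swap_lev_i [CharZero F] (hΩ : Cardinal.aleph0 ≤ Algebra.trdeg k Ω) (x : ℕ → F) (N : ℕ)
    (hx : lev k x N = ⊤) (i : ℕ) (hi : i + 1 < N) (P : ℕ → Finset F[X])
    (hT : Twr k Ω x N P) (hE : Transcendental (lev k x i) (x i) → EnvAt k x P i)
    (φ : Pt k Ω F) :
    (Transcendental (lev k (x ∘ Equiv.swap i (i + 1)) i) ((x ∘ Equiv.swap i (i + 1)) i) →
      ∃ (b : HahnSeries ℚ Ω) (r : ℚ),
        V (x ∘ Equiv.swap i (i + 1)) {ψ : Pt k Ω F | rvt (helt x P N) ψ = rvt (helt x P N) φ} i φ =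
          {y | y ∈ OD b r ∧ ¬ AlgO φ (lev k (x ∘ Equiv.swap i (i + 1)) i) y}) ∧
    (IsAlgebraic (lev k (x ∘ Equiv.swap i (i + 1)) i) ((x ∘ Equiv.swap i (i + 1)) i) →
      (V (x ∘ Equiv.swap i (i + 1)) {ψ : Pt k Ω F | rvt (helt x P N) ψ = rvt (helt x P N) φ} i
        φ).Subsingleton) := by
  have hlev : lev k (x ∘ Equiv.swap i (i + 1)) i = lev k x i := lev_swap_le x i i le_rfl
  have hsi := x7_sw_i x i
  have htr_iff := x7_tr hlev hsi
  have hal_iff := x7_al hlev hsi
  -- the set of values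
  have hV : ∀ y, y ∈ V (x ∘ Equiv.swap i (i + 1))
      {ψ : Pt k Ω F | rvt (helt x P N) ψ = rvt (helt x P N) φ} i φ ↔
      ∃ ψ : Pt k Ω F, rvt (helt x P N) ψ = rvt (helt x P N) φ ∧
          (∀ j < i, ψ (x j) = φ (x j)) ∧ ψ (x (i + 1)) = y := by
    intro y
    constructor
    · rintro ⟨ψ, h1, h2, h3⟩
      refine ⟨ψ, h1, fun j hj => ?_, ?_⟩
      · have h4 := h2 j hj
        rwa [x7_sw_ne x i j (by omega) (by omega)] at h4
      · rwa [hsi] at h3
    · rintro ⟨ψ, h1, h2, h3⟩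
      refine ⟨ψ, h1, fun j hj => ?_, ?_⟩
      · rw [x7_sw_ne x i j (by omega) (by omega)]
        exact h2 j hj
      · rw [hsi]; exact h3
  by_cases htrx : Transcendental (lev k x i) (x i)
  · by_cases htry : Transcendental (lev k x (i + 1)) (x (i + 1))
    · -- both transcendental
      obtain ⟨r, r', h1, -⟩ := x7_TT hΩ x N hx i hi P hT (hE htrx) φ htrx htry
      refine ⟨fun _ => ⟨φ (x (i + 1)), r, ?_⟩, fun hal => ?_⟩
      · ext y
        rw [hV, h1, hlev]
        exact Iff.rfl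
      · exact absurd (x7_up (lev_le x i) (hal_iff.1 hal)) htry
    · obtain ⟨h1, h2⟩ := x7_TA hΩ x N hx i hi P hT (hE htrx) φ htrx (not_not.1 htry)
      refine ⟨fun htr => ?_, fun hal => ?_⟩
      · obtain ⟨-, r, h3⟩ := h2 (htr_iff.1 htr)
        refine ⟨φ (x (i + 1)), r, ?_⟩
        ext y
        rw [hV, h3, hlev]
        exact Iff.rfl
      · intro y hy z hz
        obtain ⟨ψ, h3, h4, rfl⟩ := (hV y).1 hy
        obtain ⟨ψ', h3', h4', rfl⟩ := (hV z).1 hz
        rw [h1 (hal_iff.1 hal) ψ h3 h4, h1 (hal_iff.1 hal) ψ' h3' h4']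
  · -- `x i` algebraic
    have halx : IsAlgebraic (lev k x i) (x i) := not_not.1 htrx
    have hN := Nd.npd_fib hΩ x N hx P hT φ
    have hφD : φ ∈ {ψ : Pt k Ω F | rvt (helt x P N) ψ = rvt (helt x P N) φ} := rfl
    have hagree : ∀ ψ : Pt k Ω F, rvt (helt x P N) ψ = rvt (helt x P N) φ →
        (∀ j < i, ψ (x j) = φ (x j)) → ψ (x i) = φ (x i) := by
      intro ψ h1 h2
      exact hN.al i (by omega) halx φ hφD ⟨ψ, h1, h2, rfl⟩ ⟨φ, hφD, fun _ _ => rfl, rfl⟩
    have hV' : ∀ y, y ∈ V (x ∘ Equiv.swap i (i + 1))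
        {ψ : Pt k Ω F | rvt (helt x P N) ψ = rvt (helt x P N) φ} i φ ↔
        y ∈ V x {ψ : Pt k Ω F | rvt (helt x P N) ψ = rvt (helt x P N) φ} (i + 1) φ := by
      intro y
      rw [hV]
      constructor
      · rintro ⟨ψ, h1, h2, h3⟩
        refine ⟨ψ, h1, fun j hj => ?_, h3⟩
        rcases Nat.lt_succ_iff_lt_or_eq.1 hj with h4 | h4
        · exact h2 j h4
        · rw [h4]; exact hagree ψ h1 h2
      · rintro ⟨ψ, h1, h2, h3⟩
        exact ⟨ψ, h1, fun j hj => h2 j (by omega), h3⟩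
    have halt := x7_trans x i halx
    refine ⟨fun htr => ?_, fun hal => ?_⟩
    · have htry : Transcendental (lev k x (i + 1)) (x (i + 1)) := fun h1 =>
        (htr_iff.1 htr) (x7_down (lev_le x i) halt h1)
      obtain ⟨b, r, h1⟩ := hN.tr (i + 1) hi htry φ hφD
      refine ⟨b, r, ?_⟩
      ext y
      rw [hV', h1, hlev]
      exact and_congr Iff.rfl (not_congr (algO_congr φ _ _ (lev_le x i) halt y))
    · have haly := x7_up (lev_le x i) (hal_iff.1 hal)
      intro y hy z hz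
      exact hN.al (i + 1) hi haly φ hφD ((hV' y).1 hy) ((hV' z).1 hz)

/-- Level `i + 1` of the swapped order. Cases: (x_i A): `V x' D (i+1) φ` is contained in `{φ x_i}`. (x_i T, x_{i+1} T): second
statement of `exch_TT'`. (x_i T, x_{i+1} A over M, T over E): `exch_TA'`: one point. (x_i T, x_{i+1} A over E):
all points of `D` over `φ|E` agree at `x_{i+1}` (`exch_TA'`, first part), so `V x' D (i+1) φ = V x D i φ`; `algO_congr`. -/
theorem swap_lev_i1 [CharZero F] (hΩ : Cardinal.aleph0 ≤ Algebra.trdeg k Ω) (x : ℕ → F) (N : ℕ)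
    (hx : lev k x N = ⊤) (i : ℕ) (hi : i + 1 < N) (P : ℕ → Finset F[X])
    (hT : Twr k Ω x N P) (hE : Transcendental (lev k x i) (x i) → EnvAt k x P i)
    (φ : Pt k Ω F) :
    (Transcendental (lev k (x ∘ Equiv.swap i (i + 1)) (i + 1))
        ((x ∘ Equiv.swap i (i + 1)) (i + 1)) →
      ∃ (b : HahnSeries ℚ Ω) (r : ℚ),
        V (x ∘ Equiv.swap i (i + 1)) {ψ : Pt k Ω F | rvt (helt x P N) ψ = rvt (helt x P N) φ}
            (i + 1) φ =
          {y | y ∈ OD b r ∧ ¬ AlgO φ (lev k (x ∘ Equiv.swap i (i + 1)) (i + 1)) y}) ∧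
    (IsAlgebraic (lev k (x ∘ Equiv.swap i (i + 1)) (i + 1))
        ((x ∘ Equiv.swap i (i + 1)) (i + 1)) →
      (V (x ∘ Equiv.swap i (i + 1)) {ψ : Pt k Ω F | rvt (helt x P N) ψ = rvt (helt x P N) φ}
        (i + 1) φ).Subsingleton) := by
  have hlev : lev k (x ∘ Equiv.swap i (i + 1)) i = lev k x i := lev_swap_le x i i le_rfl
  have hsi := x7_sw_i x i
  have hsi1 := x7_sw_i1 x i
  have hle : lev k x i ≤ lev k (x ∘ Equiv.swap i (i + 1)) (i + 1) :=
    hlev ▸ lev_le (x ∘ Equiv.swap i (i + 1)) i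
  -- the set of values
  have hV : ∀ y, y ∈ V (x ∘ Equiv.swap i (i + 1))
      {ψ : Pt k Ω F | rvt (helt x P N) ψ = rvt (helt x P N) φ} (i + 1) φ ↔
      ∃ ψ : Pt k Ω F, rvt (helt x P N) ψ = rvt (helt x P N) φ ∧
          (∀ j < i, ψ (x j) = φ (x j)) ∧ ψ (x (i + 1)) = φ (x (i + 1)) ∧ ψ (x i) = y := by
    intro y
    constructor
    · rintro ⟨ψ, h1, h2, h3⟩
      refine ⟨ψ, h1, fun j hj => ?_, ?_, ?_⟩
      · have h4 := h2 j (by omega)
        rwa [x7_sw_ne x i j (by omega) (by omega)] at h4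
      · have h4 := h2 i (by omega)
        rwa [hsi] at h4
      · rwa [hsi1] at h3
    · rintro ⟨ψ, h1, h2, h3, h4⟩
      refine ⟨ψ, h1, fun j hj => ?_, ?_⟩
      · rcases Nat.lt_succ_iff_lt_or_eq.1 hj with h5 | h5
        · rw [x7_sw_ne x i j (by omega) (by omega)]
          exact h2 j h5
        · rw [h5, hsi]; exact h3
      · rw [hsi1]; exact h4
  by_cases htrx : Transcendental (lev k x i) (x i)
  · by_cases htry : Transcendental (lev k x (i + 1)) (x (i + 1))
    · -- both transcendental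
      obtain ⟨r, r', -, h1⟩ := x7_TT hΩ x N hx i hi P hT (hE htrx) φ htrx htry
      refine ⟨fun _ => ⟨φ (x i), r', ?_⟩, fun hal => absurd hal (swap_tr' x i htrx htry)⟩
      ext y
      rw [hV, h1]
      refine and_congr Iff.rfl ?_
      letI := levAlg k (x ∘ Equiv.swap i (i + 1)) i
      rw [not_algO_iff]
      have h2 := trO_iff_ind2 (⟨(x ∘ Equiv.swap i (i + 1)) i,
        mem_lev (x ∘ Equiv.swap i (i + 1)) i⟩ : lev k (x ∘ Equiv.swap i (i + 1)) (i + 1))
        ((lev_tr (x ∘ Equiv.swap i (i + 1)) i).2 (swap_tr_of_tr x i htry))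
        (lev_gen (x ∘ Equiv.swap i (i + 1)) i)
        ((φ : F →+* HahnSeries ℚ Ω).comp
          (algebraMap (lev k (x ∘ Equiv.swap i (i + 1)) (i + 1)) F)) y
      rw [h2]
      have h3 := x7_ind2 hlev (φ : F →+* HahnSeries ℚ Ω) (φ (x (i + 1))) y
      rw [← h3, ← hsi]
      exact Iff.rfl
    · have haly : IsAlgebraic (lev k x (i + 1)) (x (i + 1)) := not_not.1 htry
      obtain ⟨h1, h2⟩ := x7_TA hΩ x N hx i hi P hT (hE htrx) φ htrx haly
      by_cases htryE : Transcendental (lev k x i) (x (i + 1))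
      · obtain ⟨h3, -⟩ := h2 htryE
        refine ⟨fun htr => absurd (swap_al_of_tr x i haly htryE) htr, fun _ => ?_⟩
        intro y hy z hz
        obtain ⟨ψ, h4, h5, h6, rfl⟩ := (hV y).1 hy
        obtain ⟨ψ', h4', h5', h6', rfl⟩ := (hV z).1 hz
        rw [h3 ψ h4 h5 h6, h3 ψ' h4' h5' h6']
      · have halyE : IsAlgebraic (lev k x i) (x (i + 1)) := not_not.1 htryE
        have h3 := h1 halyE
        have halt : ∀ z ∈ lev k (x ∘ Equiv.swap i (i + 1)) (i + 1),
            IsAlgebraic (lev k x i) z := by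
          refine x7_lev_alg (x ∘ Equiv.swap i (i + 1)) (i + 1) (lev k x i) fun j hj => ?_
          rcases Nat.lt_succ_iff_lt_or_eq.1 hj with h5 | h5
          · rw [x7_sw_ne x i j (by omega) (by omega)]
            exact x7_mem_alg (x7_mem_lev x i j h5)
          · rw [h5, hsi]; exact halyE
        have hN := Nd.npd_fib hΩ x N hx P hT φ
        have hφD : φ ∈ {ψ : Pt k Ω F | rvt (helt x P N) ψ = rvt (helt x P N) φ} := rfl
        refine ⟨fun _ => ?_, fun hal => ?_⟩
        · obtain ⟨b, r, h4⟩ := hN.tr i (by omega) htrx φ hφD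
          refine ⟨b, r, ?_⟩
          ext y
          have h5 : y ∈ V (x ∘ Equiv.swap i (i + 1))
              {ψ : Pt k Ω F | rvt (helt x P N) ψ = rvt (helt x P N) φ} (i + 1) φ ↔
              y ∈ V x {ψ : Pt k Ω F | rvt (helt x P N) ψ = rvt (helt x P N) φ} i φ := by
            rw [hV]
            constructor
            · rintro ⟨ψ, h6, h7, -, h8⟩
              exact ⟨ψ, h6, h7, h8⟩
            · rintro ⟨ψ, h6, h7, h8⟩
              exact ⟨ψ, h6, h7, h3 ψ h6 h7, h8⟩
          rw [h5, h4]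
          exact and_congr Iff.rfl (not_congr (algO_congr φ _ _ hle halt y).symm)
        · exfalso
          rw [hsi1] at hal
          exact htrx (x7_down hle halt hal)
  · -- `x i` algebraic
    have halx : IsAlgebraic (lev k x i) (x i) := not_not.1 htrx
    have hN := Nd.npd_fib hΩ x N hx P hT φ
    have hφD : φ ∈ {ψ : Pt k Ω F | rvt (helt x P N) ψ = rvt (helt x P N) φ} := rfl
    have hagree : ∀ ψ : Pt k Ω F, rvt (helt x P N) ψ = rvt (helt x P N) φ →
        (∀ j < i, ψ (x j) = φ (x j)) → ψ (x i) = φ (x i) := by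
      intro ψ h1 h2
      exact hN.al i (by omega) halx φ hφD ⟨ψ, h1, h2, rfl⟩ ⟨φ, hφD, fun _ _ => rfl, rfl⟩
    refine ⟨fun htr => ?_, fun _ => ?_⟩
    · exfalso
      rw [hsi1] at htr
      exact htr (x7_up hle halx)
    · intro y hy z hz
      obtain ⟨ψ, h4, h5, -, rfl⟩ := (hV y).1 hy
      obtain ⟨ψ', h4', h5', -, rfl⟩ := (hV z).1 hz
      rw [hagree ψ h4 h5, hagree ψ' h4' h5']

/-- S1. For every finite `H` there is a uniform tower for `x` containing `H` among its quotients, all of whose fibres are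
nested polydiscs for `x` and for the swapped order. Proof: `exists_tower_env`; `Nd.npd_fib`; the levels `j ≠ i, i + 1` of the
swapped order are those of `x` (`V` and `lev` do not change: `lev_swap_le`, `lev_swap_gt`, for `j ≥ i + 2` the set of conditions
`∀ l < j` is the same); levels `i`, `i + 1`: `swap_lev_i`, `swap_lev_i1` (all `φ'` in the fibre of `φ` have the same fibre). -/
theorem exch [CharZero F] (hΩ : Cardinal.aleph0 ≤ Algebra.trdeg k Ω) (x : ℕ → F) (N : ℕ)
    (hx : lev k x N = ⊤) (i : ℕ) (hi : i + 1 < N) (H : Finset F) :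
    ∃ P : ℕ → Finset F[X], Twr k Ω x N P ∧ (∀ s ∈ H, s ≠ 0 → Quo (k := k) x P N s) ∧
      ∀ φ : Pt k Ω F,
        NPd x N {ψ : Pt k Ω F | rvt (helt x P N) ψ = rvt (helt x P N) φ} ∧
        NPd (x ∘ Equiv.swap i (i + 1)) N
          {ψ : Pt k Ω F | rvt (helt x P N) ψ = rvt (helt x P N) φ} := by
  obtain ⟨P, hT, hH, hE⟩ := exists_tower_env hΩ x N hx i hi H
  refine ⟨P, hT, hH, fun φ => ?_⟩
  have hN := Nd.npd_fib hΩ x N hx P hT φ
  refine ⟨hN, ?_⟩
  -- the fibre of another point of the fibre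
  have hfib : ∀ φ' : Pt k Ω F, φ' ∈ {ψ : Pt k Ω F | rvt (helt x P N) ψ = rvt (helt x P N) φ} →
      {ψ : Pt k Ω F | rvt (helt x P N) ψ = rvt (helt x P N) φ} =
      {ψ : Pt k Ω F | rvt (helt x P N) ψ = rvt (helt x P N) φ'} := by
    intro φ' h1
    have h2 : rvt (helt x P N) φ' = rvt (helt x P N) φ := h1
    rw [h2]
  -- the other levels
  have hother : ∀ j, j ≠ i → j ≠ i + 1 → ∀ (D : Set (Pt k Ω F)) (φ' : Pt k Ω F),
      lev k (x ∘ Equiv.swap i (i + 1)) j = lev k x j ∧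
      (x ∘ Equiv.swap i (i + 1)) j = x j ∧
      V (x ∘ Equiv.swap i (i + 1)) D j φ' = V x D j φ' := by
    intro j h1 h2 D φ'
    refine ⟨?_, x7_sw_ne x i j h1 h2, ?_⟩
    · rcases Nat.lt_or_ge j i with h3 | h3
      · exact lev_swap_le x i j h3.le
      · exact lev_swap_gt x i j (by omega)
    · ext y
      unfold V
      have h4 : ∀ ψ : Pt k Ω F, (∀ l < j, ψ ((x ∘ Equiv.swap i (i + 1)) l) =
          φ' ((x ∘ Equiv.swap i (i + 1)) l)) ↔ (∀ l < j, ψ (x l) = φ' (x l)) := by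
        intro ψ
        rcases Nat.lt_or_ge j i with h3 | h3
        · constructor
          · intro h5 l hl
            have h6 := h5 l hl
            rwa [x7_sw_ne x i l (by omega) (by omega)] at h6
          · intro h5 l hl
            rw [x7_sw_ne x i l (by omega) (by omega)]
            exact h5 l hl
        · have h7 : ∀ l < j, Equiv.swap i (i + 1) l < j := by
            intro l hl
            rcases eq_or_ne l i with h8 | h8
            · rw [h8, Equiv.swap_apply_left]; omega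
            · rcases eq_or_ne l (i + 1) with h9 | h9
              · rw [h9, Equiv.swap_apply_right]; omega
              · rw [Equiv.swap_apply_of_ne_of_ne h8 h9]; exact hl
          constructor
          · intro h5 l hl
            have h6 := h5 (Equiv.swap i (i + 1) l) (h7 l hl)
            simpa only [Function.comp_apply, Equiv.swap_apply_self] using h6
          · intro h5 l hl
            exact h5 _ (h7 l hl)
      constructor
      · rintro ⟨ψ, h5, h6, h7⟩
        refine ⟨ψ, h5, (h4 ψ).1 h6, ?_⟩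
        rwa [x7_sw_ne x i j h1 h2] at h7
      · rintro ⟨ψ, h5, h6, h7⟩
        refine ⟨ψ, h5, (h4 ψ).2 h6, ?_⟩
        rwa [x7_sw_ne x i j h1 h2]
  constructor
  · intro j hj htr φ' hφ'
    rcases eq_or_ne j i with rfl | h1
    · rw [hfib φ' hφ']
      exact (swap_lev_i hΩ x N hx j hi P hT hE φ').1 htr
    · rcases eq_or_ne j (i + 1) with rfl | h2
      · rw [hfib φ' hφ']
        exact (swap_lev_i1 hΩ x N hx i hi P hT hE φ').1 htr
      · obtain ⟨h3, h4, h5⟩ := hother j h1 h2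
          {ψ : Pt k Ω F | rvt (helt x P N) ψ = rvt (helt x P N) φ} φ'
        rw [h5, h3]
        exact hN.tr j hj ((x7_tr h3 h4).1 htr) φ' hφ'
  · intro j hj hal φ' hφ'
    rcases eq_or_ne j i with rfl | h1
    · rw [hfib φ' hφ']
      exact (swap_lev_i hΩ x N hx j hi P hT hE φ').2 hal
    · rcases eq_or_ne j (i + 1) with rfl | h2
      · rw [hfib φ' hφ']
        exact (swap_lev_i1 hΩ x N hx i hi P hT hE φ').2 hal
      · obtain ⟨h3, h4, h5⟩ := hother j h1 h2
          {ψ : Pt k Ω F | rvt (helt x P N) ψ = rvt (helt x P N) φ} φ'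
        rw [h5]
        exact hN.al j hj ((x7_al h3 h4).1 hal) φ' hφ'

end

end KTS.X

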